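import Pool.Agent.Lib.MP_f61260_nt.Loc1

set_option autoImplicit false

namespace Pool.Agent.Lib.MP_f61260_nt

open Polynomial Real

/-- algebraic numbers -/
abbrev Qb : Type := algebraicClosure ℚ ℂ

instance qb_closure : IsAlgClosure ℚ Qb := algebraicClosure.isAlgClosure ℚ ℂ

instance qb_alg : Algebra.IsAlgebraic ℚ Qb := IsAlgClosure.isAlgebraic

/-- places of the rationals -/
abbrev Pl : Type := Option {p : ℕ // p.Prime}

/-- the absolute Galois group -/
abbrev GA : Type := Qb ≃ₐ[ℚ] Qb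

instance qb_closed : IsAlgClosed Qb := IsAlgClosure.isAlgClosed ℚ

@[irreducible] noncomputable def io (p : ℕ) [Fact p.Prime] : Qb →ₐ[ℚ] Om p := IsAlgClosed.lift

/-- the chosen absolute values, one above each place of the rationals -/
noncomputable def av : Pl → Qb →*₀ ℝ
  | none => normHom.comp (algebraMap Qb ℂ).toMonoidWithZeroHom
  | some l => haveI := Fact.mk l.2; normHom.comp (io l).toRingHom.toMonoidWithZeroHom

lemma av_none (x : Qb) : av none x = ‖(x : ℂ)‖ := rfl

lemma av_some (p : ℕ) [hp : Fact p.Prime] (x : Qb) : av (some ⟨p, hp.out⟩) x = ‖io p x‖ := rfl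

lemma av_nonneg (v : Pl) (x : Qb) : 0 ≤ av v x := by
  rcases v with _ | ⟨l, hl⟩
  · rw [av_none]; exact norm_nonneg _
  · have : Fact l.Prime := ⟨hl⟩
    rw [av_some]; exact norm_nonneg _

lemma av_pos (v : Pl) {x : Qb} (h : x ≠ 0) : 0 < av v x :=
  lt_of_le_of_ne (av_nonneg v x) ((_root_.map_ne_zero _).2 h).symm

lemma av_root (v : Pl) {ξ : Qb} {n : ℕ} (hn : 0 < n) (h : ξ ^ n = 1) :
    av v ξ = 1 := by
  have := congrArg (av v) h
  rw [map_pow, map_one] at this
  exact (pow_eq_one_iff_of_nonneg (av_nonneg _ _) hn.ne').1 this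

lemma norm_int_le {K : Type} [NormedField K] [IsUltrametricDist K] {x : K} (h : IsIntegral ℤ x) :
    ‖x‖ ≤ 1 := by
  obtain ⟨f, hf, hx⟩ := h
  by_contra hc
  rw [not_le] at hc
  rw [Polynomial.eval₂_eq_sum_range, Finset.sum_range_succ, hf.coeff_natDegree, map_one, one_mul,
    add_eq_zero_iff_eq_neg] at hx
  rcases Nat.eq_zero_or_pos f.natDegree with h0 | h0
  · simp [h0] at hx
  have h1 : ‖∑ i ∈ Finset.range f.natDegree, algebraMap ℤ K (f.coeff i) * x ^ i‖ ≤
      ‖x‖ ^ (f.natDegree - 1) := nsum_le (by positivity) fun i hi => by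
    rw [norm_mul, norm_pow]
    refine (mul_le_of_le_one_left (by positivity) (IsUltrametricDist.norm_intCast_le_one K _)).trans
      (pow_le_pow_right₀ hc.le ?_)
    have := Finset.mem_range.1 hi
    omega
  rw [hx, norm_neg, norm_pow, pow_le_pow_iff_right₀ hc] at h1
  omega

lemma fin_gt (y : Qb) : {v : Pl | 1 < av v y}.Finite := by
  obtain ⟨N, hN, hN'⟩ := ((IsFractionRing.isAlgebraic_iff ℤ ℚ Qb).2
    (Algebra.IsAlgebraic.isAlgebraic y)).exists_integral_multiple
  refine (((Finset.range (N.natAbs + 1)).finite_toSet.preimage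
    (f := fun l : {p : ℕ // p.Prime} => (l : ℕ)) Subtype.val_injective.injOn).image some).insert none
    |>.subset ?_
  rintro (_ | ⟨l, hl⟩) hv
  · exact Or.inl rfl
  refine Or.inr ⟨⟨l, hl⟩, ?_, rfl⟩
  have : Fact l.Prime := ⟨hl⟩
  have h1 := norm_int_le (hN'.map (io l).toRingHom.toIntAlgHom)
  have h2 : ‖(io l).toRingHom.toIntAlgHom (N • y)‖ = ‖(N.natAbs : Om l)‖ * ‖io l y‖ := by
    rw [map_zsmul, zsmul_eq_mul, norm_mul, norm_natAbs]; rfl
  have h3 : ‖(N.natAbs : Om l)‖ < 1 := by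
    by_contra hc
    have hv' : 1 < ‖io l y‖ := hv
    rw [h2] at h1
    nlinarith [not_lt.1 hc]
  rw [norm_nat, Padic.norm_natCast_lt_one_iff] at h3
  simpa [Nat.lt_succ_iff] using Nat.le_of_dvd (Int.natAbs_pos.2 hN) h3

lemma fin_of (F : ℝ → ℝ) (h0 : F 0 = 0) (h1 : F 1 = 0) (y : Qb) :
    Function.HasFiniteSupport fun v => F (av v y) := by
  by_cases hy : y = 0
  · simp [hy, h0, Function.HasFiniteSupport]
  refine ((fin_gt y).union (fin_gt y⁻¹)).subset fun v hv => ?_
  rcases lt_trichotomy (av v y) 1 with h | h | h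
  · exact Or.inr (by rw [Set.mem_setOf_eq, map_inv₀]; exact (one_lt_inv₀ (av_pos v hy)).2 h)
  · exact absurd (by simp [h, h1]) hv
  · exact Or.inl h

@[fun_prop] lemma fin_lam (y : Qb) : Function.HasFiniteSupport fun v => log⁺ (av v y) :=
  fin_of _ posLog_zero posLog_one y

@[fun_prop] lemma fin_mu (y : Qb) : Function.HasFiniteSupport fun v => log (av v y) :=
  fin_of _ log_zero log_one y

noncomputable def lam (y : Qb) : ℝ := ∑ᶠ v, log⁺ (av v y)

noncomputable def mu (y : Qb) : ℝ := ∑ᶠ v, log (av v y)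

lemma lam_nonneg (y : Qb) : 0 ≤ lam y := finsum_nonneg fun _ => posLog_nonneg

lemma lam_mul (x y : Qb) : lam (x * y) ≤ lam x + lam y := by
  unfold lam
  rw [← finsum_add_distrib (fin_lam x) (fin_lam y)]
  exact finsum_le_finsum' (fin_lam _) (by fun_prop) fun v => by
    simpa using posLog_mul

lemma lam_pow (x : Qb) (n : ℕ) : lam (x ^ n) = n * lam x := by
  unfold lam
  rw [← nsmul_eq_mul, finsum_nsmul (fin_lam x)]
  simp

lemma lam_inv (x : Qb) : lam x⁻¹ = lam x - mu x := by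
  unfold lam mu
  rw [← finsum_sub_distrib (fin_lam x) (fin_mu x)]
  refine finsum_congr fun v => ?_
  rw [map_inv₀, ← posLog_sub_posLog_inv]; ring

lemma lam_root {ξ : Qb} {n : ℕ} (hn : 0 < n) (h : ξ ^ n = 1) (x : Qb) : lam (ξ * x) = lam x := by
  simp [lam, av_root _ hn h]

lemma mu_mul {x y : Qb} (hx : x ≠ 0) (hy : y ≠ 0) : mu (x * y) = mu x + mu y := by
  unfold mu
  rw [← finsum_add_distrib (fin_mu x) (fin_mu y)]
  exact finsum_congr fun v => by rw [map_mul, log_mul (av_pos v hx).ne' (av_pos v hy).ne']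

lemma mu_root {ξ : Qb} {n : ℕ} (hn : 0 < n) (h : ξ ^ n = 1) : mu ξ = 0 := by
  simp [mu, av_root _ hn h]

lemma mu_prod {ι : Type} (s : Finset ι) {f : ι → Qb} (h : ∀ i ∈ s, f i ≠ 0) :
    mu (∏ i ∈ s, f i) = ∑ i ∈ s, mu (f i) := by
  classical
  induction s using Finset.induction_on with
  | empty => simpa using mu_root one_pos (one_pow 1)
  | insert a s ha ih =>
    rw [Finset.prod_insert ha, Finset.sum_insert ha, mu_mul (h a (by simp))
      (Finset.prod_ne_zero_iff.2 fun i hi => h i (by simp [hi])), ih fun i hi => h i (by simp [hi])]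

lemma mu_nat (n : ℕ) : mu n = 0 := by
  induction n using induction_on_primes with
  | zero => simp [mu]
  | one => exact mu_root one_pos (by simp)
  | prime_mul l a hl ih =>
    rcases eq_or_ne a 0 with rfl | ha
    · simp [mu]
    rw [Nat.cast_mul, mu_mul (by exact_mod_cast hl.ne_zero) (by exact_mod_cast ha), ih, add_zero]
    have : Fact l.Prime := ⟨hl⟩
    classical
    rw [mu, finsum_eq_sum_of_support_subset (s := {none, some ⟨l, hl⟩}), Finset.sum_pair (by simp),
      av_none, av_some, map_natCast, np_eq]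
    · simp
    · rintro (_ | ⟨l', hl'⟩) hv
      · simp
      have : Fact l'.Prime := ⟨hl'⟩
      by_contra hc
      apply hv
      beta_reduce
      rw [av_some, map_natCast, norm_nat, Padic.norm_natCast_eq_one_iff.2, log_one]
      exact (Nat.coprime_primes hl' hl).2 fun h => hc (by simp [h])

lemma mu_rat (q : ℚ) : mu (algebraMap ℚ Qb q) = 0 := by
  rcases eq_or_ne q 0 with rfl | hq
  · simp [mu]
  have h1 : mu (q.num : Qb) = 0 := by
    rcases Int.natAbs_eq q.num with h | h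
    · rw [h, Int.cast_natCast, mu_nat]
    · rw [h, Int.cast_neg, Int.cast_natCast, neg_eq_neg_one_mul,
        mu_mul (by simp) (by simpa using hq), mu_nat, mu_root two_pos (by simp), add_zero]
  have h2 : (q.num : Qb) = algebraMap ℚ Qb q * q.den := by
    rw [← map_natCast (algebraMap ℚ Qb), ← map_mul, Rat.mul_den_eq_num, map_intCast]
  rwa [h2, mu_mul (by simpa using hq) (by simp), mu_nat, add_zero] at h1

lemma fx_topG {x : Qb} (h : Fx (⊤ : Subgroup GA) x) : ∃ c : ℚ, algebraMap ℚ Qb c = x :=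
  (InfiniteGalois.mem_range_algebraMap_iff_fixed x).2 fun σ => h σ (Subgroup.mem_top σ)

lemma sum_mu {V : Subgroup GA} (T : Trans ⊤ V) {x : Qb} (hx : Fx V x) (h0 : x ≠ 0) :
    T.sum (fun σ => mu (σ x)) = 0 := by
  obtain ⟨c, hc⟩ := fx_topG (T.prod_fx hx)
  rw [Trans.sum, ← mu_prod _ fun i _ => (_root_.map_ne_zero _).2 h0]
  exact (congrArg mu hc.symm).trans (mu_rat c)

lemma fiG (x : Qb) : ∃ n, IdxLe (⊤ : Subgroup GA) (St ℚ x) n :=
  idx_alg (Algebra.IsIntegral.isIntegral x)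

lemma trG {ι : Type} [Fintype ι] (x : ι → Qb) :
    ∃ V : Subgroup GA, Nonempty (Trans ⊤ V) ∧ ∀ i, Fx V (x i) := by
  choose n hn using fun i => fiG (x i)
  obtain ⟨T, -⟩ := IdxLe.iInf hn
  exact ⟨_, ⟨T⟩, fun i => Fx.of_le (iInf_le _ i)⟩

noncomputable def trS (x : Qb) : Trans ⊤ (St ℚ x) := (fiG x).choose_spec.choose

/-- the Weil height -/
noncomputable def ht (x : Qb) : ℝ := (trS x).sum (fun σ => lam (σ x)) / (trS x).card

lemma ht_eq {V : Subgroup GA} (T : Trans ⊤ V) {x : Qb} (hx : Fx V x) :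
    T.sum (fun σ => lam (σ x)) = T.card * ht x := by
  obtain ⟨T1, -⟩ := IdxLe.restrict ⟨T, le_rfl⟩ (le_top : St ℚ x ≤ ⊤) inf_le_right
  rw [T.sum_eq ((trS x).comp T1 le_top hx.le) (hx.rinv lam),
    T.card_eq ((trS x).comp T1 le_top hx.le), Trans.comp_card, Trans.comp_sum, ht]
  have h1 : ∀ σ : GA, T1.sum (fun τ => lam ((σ * τ) x)) = T1.card * lam (σ x) := fun σ => by
    simp only [Trans.sum, AlgEquiv.mul_apply, mem_St.1 (T1.mem _)]
    simp [Trans.card]
  have h2 : ((trS x).card : ℝ) ≠ 0 := by exact_mod_cast (trS x).card_pos.ne'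
  simp only [h1]
  rw [Trans.sum, Trans.sum, ← Finset.mul_sum]
  push_cast
  field_simp

lemma card_posR {𝒢 : Type} [Group 𝒢] {B A : Subgroup 𝒢} (T : Trans B A) : (0 : ℝ) < T.card := by
  exact_mod_cast T.card_pos

lemma ht_nonneg (x : Qb) : 0 ≤ ht x :=
  div_nonneg (Finset.sum_nonneg fun _ _ => lam_nonneg _) (Nat.cast_nonneg _)

lemma ht_mul (x y : Qb) : ht (x * y) ≤ ht x + ht y := by
  obtain ⟨V, ⟨T⟩, h⟩ := trG ![x, y]
  refine le_of_mul_le_mul_left ?_ (card_posR T)
  rw [mul_add, ← ht_eq T (x := x) (h 0), ← ht_eq T (x := y) (h 1),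
    ← ht_eq T (x := x * y) ((h 0).mul (h 1)), Trans.sum, Trans.sum, Trans.sum,
    ← Finset.sum_add_distrib]
  exact Finset.sum_le_sum fun i _ => by rw [map_mul]; exact lam_mul _ _

lemma ht_pow (x : Qb) (n : ℕ) : ht (x ^ n) = n * ht x := by
  refine mul_left_cancel₀ (card_posR (trS x)).ne' ?_
  rw [mul_left_comm, ← ht_eq _ (Fx.st x), ← ht_eq _ ((Fx.st x).pow n), Trans.sum, Trans.sum,
    Finset.mul_sum]
  exact Finset.sum_congr rfl fun i _ => by rw [map_pow, lam_pow]

lemma ht_inv (x : Qb) : ht x⁻¹ = ht x := by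
  rcases eq_or_ne x 0 with rfl | hx
  · rw [inv_zero]
  refine mul_left_cancel₀ (card_posR (trS x)).ne' ?_
  rw [← ht_eq _ (Fx.st x), ← ht_eq _ (Fx.st x).inv, ← sub_zero ((trS x).sum fun σ => lam (σ x)),
    ← sum_mu (trS x) (Fx.st x) hx, Trans.sum, Trans.sum, Trans.sum, ← Finset.sum_sub_distrib]
  exact Finset.sum_congr rfl fun i _ => by rw [map_inv₀, lam_inv]

lemma ht_zpow (x : Qb) (n : ℤ) : ht (x ^ n) = |(n : ℝ)| * ht x := by
  rcases n with n | n
  · simp [ht_pow]
  · rw [zpow_negSucc, ht_inv, ht_pow, Int.cast_negSucc, abs_neg, Nat.abs_cast]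

lemma ht_root {ξ : Qb} {n : ℕ} (hn : 0 < n) (h : ξ ^ n = 1) (x : Qb) : ht (ξ * x) = ht x := by
  refine mul_left_cancel₀ (Nat.cast_pos.2 hn : (0 : ℝ) < n).ne' ?_
  rw [← ht_pow, ← ht_pow, mul_pow, h, one_mul]

lemma ht_conj (τ : GA) (x : Qb) : ht (τ x) = ht x := by
  let T : Trans ⊤ (St ℚ x) :=
    { ι := (trS (τ x)).ι
      fin := inferInstance
      r := fun i => (trS (τ x)).r i * τ
      mem := fun _ => Subgroup.mem_top _
      ex := fun σ _ => by
        obtain ⟨i, hi⟩ := (trS (τ x)).ex (σ * τ⁻¹) (Subgroup.mem_top _)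
        refine ⟨i, τ.injective (Eq.trans ?_ (mem_St.1 hi))⟩
        change τ (((((trS (τ x)).r i * τ)⁻¹ * σ : GA)) x) = _
        rw [← AlgEquiv.mul_apply, ← AlgEquiv.mul_apply]
        congr 1
        group
      uniq := fun i j h => (trS (τ x)).uniq i j (by
        rw [mem_St] at h ⊢
        conv_rhs => rw [← h]
        rw [← AlgEquiv.mul_apply, ← AlgEquiv.mul_apply]
        congr 1
        group) }
  refine mul_left_cancel₀ (card_posR T).ne' ?_
  rw [← ht_eq T (Fx.st x)]
  exact (ht_eq (trS (τ x)) (Fx.st _)).symm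

lemma ht_prod {ι : Type} (s : Finset ι) (f : ι → Qb) : ht (∏ i ∈ s, f i) ≤ ∑ i ∈ s, ht (f i) := by
  classical
  induction s using Finset.induction_on with
  | empty => simpa using (ht_pow 1 0).le
  | insert a s ha ih =>
    rw [Finset.prod_insert ha, Finset.sum_insert ha]
    exact (ht_mul _ _).trans (by gcongr)

lemma vdm_arch {ι : Type} [Fintype ι] [DecidableEq ι] (y : ι → ℂ) :
    ∏ i, ∏ j ∈ Finset.univ.erase i, ‖y i - y j‖ ≤
      ((Fintype.card ι).factorial * ∏ i, max 1 ‖y i‖ ^ Fintype.card ι) ^ 2 := by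
  have key : ∀ (n : ℕ) (y : Fin n → ℂ), ∏ i, ∏ j ∈ Finset.univ.erase i, ‖y i - y j‖ ≤
      (n.factorial * ∏ i, max 1 ‖y i‖ ^ n) ^ 2 := by
    intro n y
    have h1 : ∏ i, ∏ j ∈ Finset.univ.erase i, ‖y i - y j‖ = ‖(Matrix.vandermonde y).det‖ ^ 2 := by
      have := Finset.prod_prod_Ioi_mul_eq_prod_prod_off_diag (fun j i => ‖y i - y j‖)
      simp only [Finset.compl_singleton] at this
      rw [← this, Matrix.det_vandermonde, norm_prod, ← Finset.prod_pow]
      refine Finset.prod_congr rfl fun i _ => ?_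
      rw [norm_prod, ← Finset.prod_pow]
      exact Finset.prod_congr rfl fun j _ => by rw [norm_sub_rev (y i), sq]
    rw [h1]
    refine pow_le_pow_left₀ (norm_nonneg _) ?_ _
    rw [Matrix.det_apply']
    refine (norm_sum_le _ _).trans ((Finset.sum_le_card_nsmul _ _ (∏ i, max 1 ‖y i‖ ^ n)
      fun σ _ => ?_).trans (by simp [Fintype.card_perm]))
    rw [norm_mul, norm_prod, ← Equiv.prod_comp σ fun i => max 1 ‖y i‖ ^ n]
    have : ‖((Equiv.Perm.sign σ : ℤ) : ℂ)‖ = 1 := by
      rcases Int.units_eq_one_or (Equiv.Perm.sign σ) with h | h <;> simp [h]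
    rw [this, one_mul]
    refine Finset.prod_le_prod (fun _ _ => norm_nonneg _) fun i _ => ?_
    rw [Matrix.vandermonde_apply, norm_pow]
    exact (pow_le_pow_left₀ (norm_nonneg _) (le_max_right _ _) _).trans
      (pow_le_pow_right₀ (le_max_left _ _) i.2.le)
  have e := (Fintype.equivFin ι).symm
  have := key _ (y ∘ e)
  rw [← Equiv.prod_comp e, ← Equiv.prod_comp e fun i => max 1 ‖y i‖ ^ Fintype.card ι]
  refine le_trans (le_of_eq (Finset.prod_congr rfl fun i _ => ?_)) this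
  exact (Finset.prod_equiv e (by simp) (by simp)).symm

lemma prod_max_le {ι : Type} [Fintype ι] [DecidableEq ι] (M : ι → ℝ) (hM : ∀ i, 1 ≤ M i) :
    ∏ i, ∏ j ∈ Finset.univ.erase i, (M i * M j) ≤ (∏ i, M i ^ Fintype.card ι) ^ 2 := by
  have h0 : ∀ i, 0 ≤ M i := fun i => zero_le_one.trans (hM i)
  calc _ ≤ ∏ i, ∏ j, (M i * M j) := Finset.prod_le_prod
        (fun i _ => Finset.prod_nonneg fun j _ => mul_nonneg (h0 i) (h0 j)) fun i _ =>
        Finset.prod_le_prod_of_subset_of_one_le (Finset.erase_subset _ _)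
          (fun j _ => mul_nonneg (h0 i) (h0 j)) fun j _ _ => one_le_mul_of_one_le_of_one_le (hM i) (hM j)
    _ = _ := by
        simp only [Finset.prod_mul_distrib, Finset.prod_const, Finset.card_univ, Finset.prod_pow, sq]

lemma vdm_pt {ι : Type} [Fintype ι] [DecidableEq ι] {y : ι → Qb} (hy : Function.Injective y)
    (p : ℕ) [hp : Fact p.Prime] (g : ℝ)
    (h : ∏ i, ∏ j ∈ Finset.univ.erase i, ‖io p (y i) - io p (y j)‖ ≤
      exp (-g) * ∏ i, ∏ j ∈ Finset.univ.erase i, (max 1 ‖io p (y i)‖ * max 1 ‖io p (y j)‖)) :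
    mu (∏ i, ∏ j ∈ Finset.univ.erase i, (y i - y j)) + g ≤
      2 * log (Fintype.card ι).factorial + 2 * Fintype.card ι * ∑ i, lam (y i) := by
  classical
  set Δ := ∏ i, ∏ j ∈ Finset.univ.erase i, (y i - y j) with hΔ
  have hΔ0 : Δ ≠ 0 := Finset.prod_ne_zero_iff.2 fun i _ => Finset.prod_ne_zero_iff.2 fun j hj =>
    sub_ne_zero.2 fun h => Finset.ne_of_mem_erase hj (hy h).symm
  have hlog : ∀ v, log ((∏ i, max 1 (av v (y i)) ^ Fintype.card ι) ^ 2) =
      2 * Fintype.card ι * ∑ i, log⁺ (av v (y i)) := fun v => by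
    rw [Finset.prod_pow, log_pow, log_pow, log_prod fun i _ => by positivity]
    simp only [posLog_eq_log_max_one (av_nonneg _ _)]
    push_cast
    ring
  have hfin : ∀ (l : ℕ) [hl : Fact l.Prime] (c : ℝ),
      ∏ i, ∏ j ∈ Finset.univ.erase i, ‖io l (y i) - io l (y j)‖ ≤
      exp (-c) * ∏ i, ∏ j ∈ Finset.univ.erase i, (max 1 ‖io l (y i)‖ * max 1 ‖io l (y j)‖) →
      log (av (some ⟨l, hl.out⟩) Δ) + c ≤
        2 * Fintype.card ι * ∑ i, log⁺ (av (some ⟨l, hl.out⟩) (y i)) := by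
    intro l hl c hc
    rw [← hlog, ← le_sub_iff_add_le, sub_eq_neg_add, ← log_exp (-c),
      ← log_mul (exp_pos _).ne' (by positivity)]
    refine log_le_log (av_pos _ hΔ0) (le_trans (le_of_eq ?_) (hc.trans
      (mul_le_mul_of_nonneg_left (prod_max_le _ fun i => le_max_left _ _) (exp_pos _).le)))
    simp [av_some, hΔ]
  have h1 : ∀ v, log (av v Δ) + (Pi.single (M := fun _ => ℝ) (some ⟨p, hp.out⟩) g v) ≤
      (Pi.single (M := fun _ => ℝ) none (2 * log (Fintype.card ι).factorial) v) +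
      ∑ i, 2 * Fintype.card ι * log⁺ (av v (y i)) := by
    rintro (_ | ⟨l, hl⟩)
    · rw [Pi.single_eq_same, Pi.single_eq_of_ne (by simp), add_zero, ← Finset.mul_sum, ← hlog,
        ← Nat.cast_two, ← log_pow, ← log_mul (by positivity) (by positivity), ← mul_pow]
      refine log_le_log (av_pos _ hΔ0) (le_trans (le_of_eq ?_) (vdm_arch fun i => (y i : ℂ)))
      simp [av_none, hΔ]
    · have : Fact l.Prime := ⟨hl⟩
      rw [Pi.single_eq_of_ne (i := none) (by simp), zero_add, ← Finset.mul_sum]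
      by_cases hlp : l = p
      · subst hlp
        rw [Pi.single_eq_same]
        exact hfin l g h
      · rw [Pi.single_eq_of_ne (by simpa using hlp)]
        refine hfin l 0 ?_
        rw [neg_zero, exp_zero, one_mul]
        refine Finset.prod_le_prod (fun _ _ => by positivity) fun i _ =>
          Finset.prod_le_prod (fun _ _ => by positivity) fun j _ => nsub_le ?_ ?_
        · exact (le_max_right _ _).trans (le_mul_of_one_le_right (by positivity) (le_max_left _ _))
        · exact (le_max_right _ _).trans (le_mul_of_one_le_left (by positivity) (le_max_left _ _))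
  have hs : ∀ (a : Pl) (c : ℝ),
      Function.HasFiniteSupport (fun v => Pi.single (M := fun _ => ℝ) a c v) ∧
      ∑ᶠ v, Pi.single (M := fun _ => ℝ) a c v = c := fun a c =>
    ⟨(Set.finite_singleton a).subset Pi.support_single_subset, by
      rw [finsum_eq_single _ a fun x hx => Pi.single_eq_of_ne hx _, Pi.single_eq_same]⟩
  have hf : ∀ i, Function.HasFiniteSupport
      fun v => 2 * (Fintype.card ι : ℝ) * log⁺ (av v (y i)) := fun i =>
    fin_of (fun t => 2 * (Fintype.card ι : ℝ) * log⁺ t) (by simp) (by simp) _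
  have hf' : Function.HasFiniteSupport
      fun v => ∑ i, 2 * (Fintype.card ι : ℝ) * log⁺ (av v (y i)) := by fun_prop
  have := finsum_le_finsum' ((fin_mu Δ).add (hs _ _).1) ((hs _ _).1.add hf') h1
  simp only [Pi.add_apply] at this
  rw [finsum_add_distrib (fin_mu Δ) (hs _ _).1, finsum_add_distrib (hs _ _).1 hf', (hs _ _).2,
    (hs _ _).2, finsum_sum_comm _ _ fun i _ => hf i] at this
  refine this.trans (le_of_eq ?_)
  rw [Finset.mul_sum]
  congr 1
  exact Finset.sum_congr rfl fun i _ => (mul_finsum _ _).symm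

/-- the averaged discriminant inequality -/
lemma vdm {ι : Type} [Fintype ι] [DecidableEq ι] {y : ι → Qb} (hy : Function.Injective y)
    (p : ℕ) [hp : Fact p.Prime] {G0 V : Subgroup GA} {d : ℕ} (hG : IdxLe ⊤ G0 d) (hV : V ≤ G0)
    (hVy : ∀ i, Fx V (y i)) (T : Trans G0 V) (g : GA → ℝ)
    (h : ∀ τ ∈ G0, ∏ i, ∏ j ∈ Finset.univ.erase i, ‖io p (τ (y i)) - io p (τ (y j))‖ ≤
      exp (-g τ) * ∏ i, ∏ j ∈ Finset.univ.erase i,
        (max 1 ‖io p (τ (y i))‖ * max 1 ‖io p (τ (y j))‖)) {H : ℝ} (hH : ∀ i, ht (y i) ≤ H) :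
    T.sum g ≤ d * T.card *
      (2 * Fintype.card ι * log (Fintype.card ι) + 2 * Fintype.card ι ^ 2 * H) := by
  classical
  obtain ⟨T0, hT0⟩ := hG
  obtain ⟨i0, hi0⟩ := T0.ex 1 (Subgroup.mem_top _)
  rw [mul_one] at hi0
  set T1 := T0.comp (T.lmul hi0) le_top hV with hT1
  set Δ := ∏ i, ∏ j ∈ Finset.univ.erase i, (y i - y j) with hΔ
  have hΔ0 : Δ ≠ 0 := Finset.prod_ne_zero_iff.2 fun i _ => Finset.prod_ne_zero_iff.2 fun j hj =>
    sub_ne_zero.2 fun h => Finset.ne_of_mem_erase hj (hy h).symm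
  have hΔf : Fx V Δ := Fx.prod _ fun i _ => Fx.prod _ fun j _ => (hVy i).sub (hVy j)
  have h1 : ∀ x : T1.ι, mu (T1.r x Δ) + (if x.1 = i0 then g (T.r x.2) else 0) ≤
      2 * log (Fintype.card ι).factorial + 2 * Fintype.card ι * ∑ i, lam (T1.r x (y i)) := by
    intro x
    have e : T1.r x Δ = ∏ i, ∏ j ∈ Finset.univ.erase i, (T1.r x (y i) - T1.r x (y j)) := by
      simp [hΔ]
    rw [e]
    refine vdm_pt ((T1.r x).injective.comp hy) p _ ?_
    split_ifs with hx
    · have : T1.r x = T.r x.2 := by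
        change T0.r x.1 * ((T0.r i0)⁻¹ * T.r x.2) = _
        rw [hx, mul_inv_cancel_left]
      rw [this]
      exact h _ (T.mem _)
    · rw [neg_zero, exp_zero, one_mul]
      refine Finset.prod_le_prod (fun _ _ => by positivity) fun i _ =>
        Finset.prod_le_prod (fun _ _ => by positivity) fun j _ => nsub_le ?_ ?_
      · exact (le_max_right _ _).trans (le_mul_of_one_le_right (by positivity) (le_max_left _ _))
      · exact (le_max_right _ _).trans (le_mul_of_one_le_left (by positivity) (le_max_left _ _))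
  have h2 := Finset.sum_le_sum fun x (_ : x ∈ Finset.univ) => h1 x
  have h3 : ∑ x : T1.ι, (if x.1 = i0 then g (T.r x.2) else 0) = T.sum g := by
    change ∑ x : T0.ι × T.ι, _ = _
    rw [Fintype.sum_prod_type, Finset.sum_eq_single i0 (fun i _ hi => by simp [hi]) (by simp)]
    simp [Trans.sum]
  have h4 := sum_mu T1 hΔf hΔ0
  rw [Trans.sum] at h4
  rw [Finset.sum_add_distrib, Finset.sum_add_distrib, h3, h4, zero_add, Finset.sum_const,
    ← Finset.mul_sum, Finset.sum_comm, Finset.card_univ, nsmul_eq_mul] at h2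
  have h5 : ∑ i, ∑ x, lam (T1.r x (y i)) ≤ Fintype.card ι * (T1.card * H) := by
    refine (Finset.sum_le_card_nsmul _ _ _ fun i _ => ?_).trans (by simp; rfl)
    exact (ht_eq T1 (hVy i)).le.trans (mul_le_mul_of_nonneg_left (hH i) (Nat.cast_nonneg _))
  have h6 : log (Fintype.card ι).factorial ≤ Fintype.card ι * log (Fintype.card ι) := by
    rw [← log_pow]
    exact log_le_log (by positivity) (by exact_mod_cast Nat.factorial_le_pow _)
  have h7 : (T1.card : ℝ) ≤ d * T.card := by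
    have : T1.card = T0.card * T.card := Trans.comp_card _ _ _ _
    rw [this]; exact_mod_cast Nat.mul_le_mul_right _ hT0
  have h8 : 0 ≤ 2 * Fintype.card ι * log (Fintype.card ι) + 2 * Fintype.card ι ^ 2 * H := by
    rcases isEmpty_or_nonempty ι with h | ⟨⟨i⟩⟩
    · simp
    · have := (ht_nonneg _).trans (hH i)
      have := log_natCast_nonneg (Fintype.card ι)
      positivity
  refine h2.trans (le_trans ?_ (mul_le_mul_of_nonneg_right h7 h8))
  have h9 := card_posR T1
  rw [← Trans.card]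
  nlinarith [mul_le_mul_of_nonneg_left h6 h9.le,
    mul_le_mul_of_nonneg_left h5 (Nat.cast_nonneg (α := ℝ) (Fintype.card ι))]

end Pool.Agent.Lib.MP_f61260_nt
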