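import Pool.Agent.Lib.MP_f61260_nt.Ad9

/-! The theorem of Amoroso and David on heights of multiplicatively independent numbers. -/

set_option autoImplicit false
set_option maxHeartbeats 400000

namespace Pool.Agent.Lib.MP_f61260_nt

open Real

lemma ex_lev (x0 : ℕ) {D : ℕ} (hD : 0 < D) : ∃ x ≥ x0, D ≤ 2 ^ x ∧ x ≤ (x0 + 3) * log (3 * D) := by
  have h1 : (1 : ℝ) ≤ D := by exact_mod_cast hD
  have h2 : 1 ≤ log (3 * D) := by
    rw [le_log_iff_exp_le (by positivity)]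
    linarith [exp_one_lt_three]
  have h3 := log_le_log (by positivity) (show (2 : ℝ) ^ Nat.log 2 D ≤ 3 * D by
    have : ((2 ^ Nat.log 2 D : ℕ) : ℝ) ≤ D := by exact_mod_cast Nat.pow_log_le_self 2 hD.ne'
    push_cast at this
    linarith)
  rw [log_pow] at h3
  refine ⟨x0 + (Nat.log 2 D + 1), by omega, (Nat.lt_pow_succ_log_self one_lt_two D).le.trans
    (Nat.pow_le_pow_right two_pos (by omega)), ?_⟩
  push_cast
  nlinarith [log_two_gt_d9, Nat.cast_nonneg (α := ℝ) x0, Nat.cast_nonneg (α := ℝ) (Nat.log 2 D)]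

theorem AD (n : ℕ) : ∃ c > (0 : ℝ), ∃ k : ℕ, ∀ a : Fin n → Qb, (∀ i, a i ≠ 0) →
    (∀ e : Fin n → ℤ, ∏ i, a i ^ e i = 1 → e = 0) → ∀ D : ℕ, IdxLe ⊤ (⨅ i, St ℚ (a i)) D →
    ∀ H : ℝ, (∀ i, ht (a i) ≤ H) → c ≤ H ^ n * D * log (3 * D) ^ k := by
  classical
  rcases n.eq_zero_or_pos with rfl | hn
  · exact ⟨1, one_pos, 0, fun a _ _ D ⟨T, hT⟩ H _ => by
      simpa using (show (1 : ℝ) ≤ D by exact_mod_cast T.card_pos.trans_le hT)⟩
  obtain ⟨x0, h0⟩ := indep2 (Fin n)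
  rw [Fintype.card_fin] at h0
  obtain ⟨k, hk⟩ : ∃ k, k = (7 * n + 13) * 2 * (n + 2) * n := ⟨_, rfl⟩
  refine ⟨1 / ((8 * n) ^ n * ((x0 + 2 : ℕ) + 3) ^ k), by positivity, k, fun a ha hi D hD H hH => ?_⟩
  have hD0 : 0 < D := let ⟨T, hT⟩ := hD; T.card_pos.trans_le hT
  obtain ⟨x, hx, h1, h2⟩ := ex_lev (x0 + 2) hD0
  obtain ⟨u, hu⟩ : ∃ u, u = x ^ (7 * n + 13) := ⟨_, rfl⟩
  have hex : ∃ δ, D ≤ δ ^ n := ⟨D, Nat.le_self_pow hn.ne' D⟩
  obtain ⟨δ, hδ⟩ : ∃ δ, δ = Nat.find hex := ⟨_, rfl⟩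
  have h3 : D ≤ δ ^ n := hδ ▸ Nat.find_spec hex
  have h4 : 1 ≤ δ := Nat.pos_of_ne_zero fun h => by simp [h, hn.ne', hD0.ne'] at h3
  have h5 : δ ^ n ≤ 2 ^ n * D := by
    rcases h4.eq_or_lt with rfl | h
    · rw [one_pow]; exact Nat.mul_pos (by positivity) hD0
    · have := not_le.1 (Nat.find_min hex (show δ - 1 < Nat.find hex by omega))
      exact (Nat.pow_le_pow_left (show δ ≤ 2 * (δ - 1) by omega) n).trans
        (by rw [mul_pow]; exact Nat.mul_le_mul_left _ this.le)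
  have hV : ∀ e, Fx (⨅ i, St ℚ (a i)) (mon a e) := fun e =>
    Fx.prod _ fun i _ => (Fx.of_le (iInf_le (fun i => St ℚ (a i)) i)).zpow _
  have h6 : 1 < 4 * ((u : ℝ) ^ 2) ^ (n + 2) * δ * ∑ i, ht (a i) := by
    by_contra hc
    have e1 : 1024 ≤ u ∧ x ≤ u := hu ▸ ⟨le_trans (by norm_num) ((Nat.pow_le_pow_left
      (show 2 ≤ x by omega) 13).trans (Nat.pow_le_pow_right (by omega) (by omega))),
      Nat.le_self_pow (by omega) x⟩
    have e2 := (Nat.pow_le_pow_iff_right one_lt_two).1 ((bad_card ((PS u).filter fun p =>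
      ¬ (⨅ i, St ℚ (a i)) ⊔ Mu p = ⊤) (fun p hp => ⟨(Finset.mem_filter.1
        (Finset.mem_filter.1 hp).1).2, (Finset.mem_filter.1 hp).2⟩) hD).trans h1)
    have e3 := Finset.card_filter_add_card_filter_not (s := PS u)
      fun p => (⨅ i, St ℚ (a i)) ⊔ Mu p = ⊤
    have e4 := card_PS e1.1
    have e5 := card_le_idx (h0 x (by omega) u hu ⊤ a ⊤ ((PS u).filter fun p =>
      (⨅ i, St ℚ (a i)) ⊔ Mu p = ⊤) δ (fun _ _ => trivial) ha (fun e _ he ⟨N, hN, h⟩ => he (by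
        rw [← mon_nsmul] at h
        exact (smul_eq_zero.1 (hi _ h)).resolve_left hN.ne')) (Finset.filter_subset _ _) (by omega)
      (fun p _ _ => (idxLe_of_le (by simp)).mono (Nat.one_le_pow _ _ (by omega)))
      (fun p hp v _ => by
        obtain ⟨y, hy, z, hz, rfl⟩ := Subgroup.mem_sup_of_normal_left.1
          ((sup_comm _ _).trans (Finset.mem_filter.1 hp).2 ▸ Subgroup.mem_top v)
        exact ⟨y, ⟨trivial, hy⟩, fun e _ => by rw [AlgEquiv.mul_apply, hV e z hz]⟩) h4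
      ((hδ ▸ Nat.find_min' hex (Nat.le_self_pow hn.ne' D)).trans
        (h1.trans (Nat.pow_le_pow_left (by norm_num) x))) (not_lt.1 hc)) (fun e => hV e) hD
    have e6 : (bx (⊤ : Submodule ℤ (Fin n → ℤ)) δ).card = (2 * δ + 1) ^ n := by
      have : bx (⊤ : Submodule ℤ (Fin n → ℤ)) δ = Fintype.piFinset fun _ => Finset.Icc (-(δ : ℤ)) δ := by
        ext e
        simp [mem_bx, abs_le]
      rw [this, Fintype.card_piFinset, Finset.prod_const, Finset.card_univ, Int.card_Icc,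
        Fintype.card_fin]
      congr 1
      omega
    rw [Fintype.card_coe, e6] at e5
    exact absurd (e5.trans h3) (not_le.2 (Nat.pow_lt_pow_left (by omega) hn.ne'))
  have h7 : ∑ i, ht (a i) ≤ n * H := by
    simpa using Finset.sum_le_card_nsmul _ _ _ fun i (_ : i ∈ Finset.univ) => hH i
  have h8 : 0 ≤ H := (ht_nonneg _).trans (hH ⟨0, hn⟩)
  have h9 : (δ : ℝ) ^ n ≤ 2 ^ n * D := by exact_mod_cast h5
  have h10 := (Nat.cast_nonneg x).trans h2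
  rw [div_le_iff₀ (by positivity)]
  calc (1 : ℝ) ≤ (4 * ((u : ℝ) ^ 2) ^ (n + 2) * δ * (n * H)) ^ n :=
        one_le_pow₀ (h6.le.trans (by gcongr))
    _ = (4 * n) ^ n * H ^ n * x ^ k * δ ^ n := by rw [hu, hk]; push_cast; ring
    _ ≤ (4 * n) ^ n * H ^ n * (((x0 + 2 : ℕ) + 3) * log (3 * D)) ^ k * (2 ^ n * D) := by gcongr
    _ = _ := by rw [show (8 * n : ℝ) = 2 * (4 * n) by ring, mul_pow 2, mul_pow _ (log _)]; ring

end Pool.Agent.Lib.MP_f61260_nt
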