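import Pool.Agent.Lib.MP_f61260_nt.RadSetup

/-!
The absolute height of algebraic numbers; linear independence of radicals.
-/

set_option autoImplicit false
set_option linter.unusedSectionVars false

open Module NumberField Polynomial Height IntermediateField

namespace Pool.Agent.Lib.MP_f61260_nt

variable {Ω : Type*} [Field Ω] [CharZero Ω]

theorem absH_map {L : Type*} [Field L] [NumberField L] (f : L →+* Ω) (x : L) :
    absLogHeight₁ (f x) = absLogHeight₁ x :=
  (absLogHeight_eq f x).trans (absLogHeight_eq (RingHom.id L) x).symm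

theorem absH_self {L : Type*} [Field L] [NumberField L] (x : L) :
    absLogHeight₁ x = logHeight₁ x / finrank ℚ L := absLogHeight_eq (RingHom.id L) x

theorem exists_nf {x y : Ω} (hx : IsIntegral ℚ x) (hy : IsIntegral ℚ y) :
    ∃ K : IntermediateField ℚ Ω, NumberField K ∧ x ∈ K ∧ y ∈ K := by
  have := finiteDimensional_adjoin_pair hx hy
  exact ⟨ℚ⟮x, y⟯, {}, subset_adjoin _ _ (by simp), subset_adjoin _ _ (by simp)⟩

theorem absH_mul_le {x y : Ω} (hx : IsIntegral ℚ x) (hy : IsIntegral ℚ y) :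
    absLogHeight₁ (x * y) ≤ absLogHeight₁ x + absLogHeight₁ y := by
  obtain ⟨K, _, h1, h2⟩ := exists_nf hx hy
  have h := fun z : K => absLogHeight_eq (algebraMap K Ω) z
  refine (h (⟨x, h1⟩ * ⟨y, h2⟩)).trans_le (le_of_le_of_eq ?_
    (congrArg₂ (· + ·) (h ⟨x, h1⟩) (h ⟨y, h2⟩)).symm)
  rw [← add_div]
  exact div_le_div_of_nonneg_right (logHeight₁_mul_le _ _) (Nat.cast_nonneg _)

theorem absH_zpow {x : Ω} (hx : IsIntegral ℚ x) (n : ℤ) :
    absLogHeight₁ (x ^ n) = n.natAbs * absLogHeight₁ x := by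
  obtain ⟨K, _, h1, -⟩ := exists_nf hx hx
  have h := fun z : K => absLogHeight_eq (algebraMap K Ω) z
  have h2 := h (⟨x, h1⟩ ^ n)
  rw [map_zpow₀, logHeight₁_zpow, mul_div_assoc, ← h] at h2
  exact h2

theorem absH_pow {x : Ω} (hx : IsIntegral ℚ x) (n : ℕ) :
    absLogHeight₁ (x ^ n) = n * absLogHeight₁ x := by
  simpa using absH_zpow hx n

theorem absH_nonneg {x : Ω} (hx : IsIntegral ℚ x) : 0 ≤ absLogHeight₁ x := by
  obtain ⟨K, _, h1, -⟩ := exists_nf hx hx
  exact (div_nonneg (zero_le_logHeight₁ _) (Nat.cast_nonneg _)).trans_eq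
    (absLogHeight_eq (algebraMap K Ω) ⟨x, h1⟩).symm

theorem isIntegral_of_pow_eq_one {x : Ω} {n : ℕ} (hn : n ≠ 0) (h : x ^ n = 1) : IsIntegral ℚ x :=
  IsIntegral.of_pow (Nat.pos_of_ne_zero hn) (h ▸ isIntegral_one)

theorem absH_root {x : Ω} {n : ℕ} (hn : n ≠ 0) (h : x ^ n = 1) : absLogHeight₁ x = 0 := by
  have h1 := absH_pow (isIntegral_of_pow_eq_one hn h) n
  have h2 := absH_pow (isIntegral_one (R := ℚ) (B := Ω)) 0
  rw [pow_zero] at h2
  rw [h, h2] at h1
  simpa [hn] using h1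

theorem isIntegral_zpow {x : Ω} (hx : IsIntegral ℚ x) (n : ℤ) : IsIntegral ℚ (x ^ n) := by
  obtain ⟨K, _, h1, -⟩ := exists_nf hx hx
  have := (IsIntegral.of_finite ℚ ((⟨x, h1⟩ : K) ^ n)).map K.val
  rwa [map_zpow₀] at this

theorem absH_prod_le {ι : Type*} (s : Finset ι) (x : ι → Ω) (hx : ∀ i, IsIntegral ℚ (x i)) :
    absLogHeight₁ (∏ i ∈ s, x i) ≤ ∑ i ∈ s, absLogHeight₁ (x i) := by
  classical
  induction s using Finset.induction_on with
  | empty => simpa using (absH_root one_ne_zero (one_pow (M := Ω) 1)).le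
  | insert i s hi ih =>
    rw [Finset.prod_insert hi, Finset.sum_insert hi]
    exact (absH_mul_le (hx i) (IsIntegral.prod _ fun j _ => hx j)).trans (by gcongr)

theorem radical_mem {E Ω : Type*} [Field E] [CharZero E] [Field Ω] [Algebra E Ω] {N : ℕ}
    (hN : N ≠ 0) {ξ : E} (hξ : IsPrimitiveRoot ξ N) (s : Set Ω)
    (hs : ∀ u ∈ s, u ^ N ∈ (algebraMap E Ω).range) (h1 : (1 : Ω) ∈ Submodule.span E s) :
    ∃ u ∈ s, u ∈ (algebraMap E Ω).range := by
  have := NeZero.mk hN
  obtain ⟨t, ht, h2⟩ := Submodule.mem_span_finite_of_mem_span h1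
  obtain ⟨c, -, hc⟩ := Submodule.mem_span_finset.1 h2
  have : FiniteDimensional E (adjoin E (t : Set Ω)) := finiteDimensional_adjoin fun u hu => by
    obtain ⟨y, hy⟩ := hs u (ht hu)
    exact IsIntegral.of_pow (Nat.pos_of_ne_zero hN) (hy ▸ isIntegral_algebraMap)
  set L := adjoin E (t : Set Ω) with hL
  set g : t → L := fun u => ⟨u, subset_adjoin _ _ u.2⟩ with hg
  have h3 : ∑ u : t, c u • g u = 1 := by
    apply Subtype.ext
    rw [← Finset.sum_coe_sort t] at hc
    simpa [hg] using hc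
  obtain ⟨u, hu⟩ : ∃ u, Algebra.trace E L (g u) ≠ 0 := by
    by_contra! h
    have h4 := congrArg (Algebra.trace E L) h3
    rw [map_sum, ← map_one (algebraMap E L), Algebra.trace_algebraMap] at h4
    simp only [map_smul, h, smul_zero, Finset.sum_const_zero, nsmul_eq_mul, mul_one] at h4
    exact finrank_pos.ne (Nat.cast_injective (R := E) (Nat.cast_zero.trans h4))
  refine ⟨u, ht u.2, ?_⟩
  obtain ⟨y, hy⟩ := hs u (ht u.2)
  have hy' : g u ^ N = algebraMap E L y := Subtype.ext hy.symm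
  set A := AlgebraicClosure L
  have hu0 : algebraMap L A (g u) ≠ 0 := (_root_.map_ne_zero _).2 fun h => hu (by simp [h])
  have h4 : ∀ σ : L →ₐ[E] A, ∃ e : E, σ (g u) = algebraMap E A e * algebraMap L A (g u) := by
    intro σ
    obtain ⟨i, -, hi⟩ := (hξ.map_of_injective (algebraMap E A).injective).eq_pow_of_pow_eq_one
      (ξ := σ (g u) / algebraMap L A (g u)) (by
        rw [div_pow, ← map_pow, ← map_pow, hy', AlgHom.commutes,
          ← IsScalarTower.algebraMap_apply, div_self]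
        rw [IsScalarTower.algebraMap_apply E L A, ← hy', map_pow]
        exact pow_ne_zero _ hu0)
    exact ⟨ξ ^ i, by rw [map_pow, hi, div_mul_cancel₀ _ hu0]⟩
  choose e he using h4
  have h5 := trace_eq_sum_embeddings A (K := E) (x := g u)
  simp only [he, ← Finset.sum_mul, ← map_sum] at h5
  rw [IsScalarTower.algebraMap_apply E L A, IsScalarTower.algebraMap_apply E L A, ← map_mul,
    (algebraMap L A).injective.eq_iff] at h5
  have h6 : ∑ σ, e σ ≠ 0 := fun h => hu (by simpa [h] using h5)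
  refine ⟨Algebra.trace E L (g u) / ∑ σ, e σ, ?_⟩
  have h7 := congrArg (algebraMap L Ω) h5
  rw [map_mul, ← IsScalarTower.algebraMap_apply, ← IsScalarTower.algebraMap_apply] at h7
  rw [map_div₀, h7, mul_div_cancel_left₀ _ ((_root_.map_ne_zero _).2 h6)]
  rfl

end Pool.Agent.Lib.MP_f61260_nt
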