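import Mathlib

/-! Growth of the powers of a subspace of a finite field extension. -/

set_option autoImplicit false

namespace Pool.Agent.Lib.MP_f61260_nt

open Module

section

variable {K L : Type*} [Field K] [Field L] [Algebra K L] [FiniteDimensional K L]

omit [FiniteDimensional K L] in
lemma fr_smul (X : Submodule K L) {x : L} (hx : x ≠ 0) :
    finrank K ↥(Submodule.span K {x} * X) = finrank K X := by
  have : Submodule.span K {x} * X = X.map (LinearMap.mulLeft K x) := by
    ext y
    rw [Submodule.mem_span_singleton_mul]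
    simp
  rw [this]
  exact (Submodule.equivMapOfInjective _ (mul_right_injective₀ hx) X).finrank_eq.symm

lemma mul_eq_top {X Y : Submodule K L} (h : finrank K L < finrank K X + finrank K Y) :
    X * Y = ⊤ := by
  by_contra hc
  obtain ⟨f, hf0, hf⟩ := Submodule.exists_le_ker_of_lt_top _ (lt_top_iff_ne_top.2 hc)
  let g : X →ₗ[K] Module.Dual K L := (((LinearMap.mul K L).compr₂ f)).comp X.subtype
  have hg : Function.Injective g := by
    rw [← LinearMap.ker_eq_bot, LinearMap.ker_eq_bot']
    intro x hx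
    by_contra h0
    apply hf0
    ext y
    have h1 : (x : L) ≠ 0 := fun h => h0 (Subtype.ext h)
    have := LinearMap.congr_fun hx ((x : L)⁻¹ * y)
    simpa [g, mul_inv_cancel_left₀ h1] using this
  have h2 : LinearMap.range g ≤ Y.dualAnnihilator := by
    rintro _ ⟨x, rfl⟩
    rw [Submodule.mem_dualAnnihilator]
    intro y hy
    exact hf (Submodule.mul_mem_mul x.2 hy)
  have h3 := Submodule.finrank_mono h2
  rw [LinearMap.finrank_range_of_inj hg] at h3
  have h4 := Subspace.finrank_add_finrank_dualAnnihilator_eq Y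
  omega

lemma atom (E : Submodule K L) (h1 : (1 : L) ∈ E)
    (hgen : ∀ H : Submodule K L, E ≤ H → H * H ≤ H → H = ⊤) (m : ℕ) (X : Submodule K L)
    (hX : X ≠ ⊥) : m * finrank K X + finrank K L ≤ (m + 1) * finrank K ↥(X * E) ∨
      2 * m * finrank K X + (m + 1) * finrank K E ≤ 2 * (m + 1) * finrank K ↥(X * E) := by
  classical
  have hle : ∀ Y : Submodule K L, Y ≤ Y * E := fun Y y hy => by
    simpa using Submodule.mul_mem_mul hy h1
  let f : Submodule K L → ℕ := fun Y => (m + 1) * finrank K ↥(Y * E) - m * finrank K Y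
  have hf : ∀ Y, f Y + m * finrank K Y = (m + 1) * finrank K ↥(Y * E) := fun Y =>
    Nat.sub_add_cancel (Nat.mul_le_mul (Nat.le_succ m) (Submodule.finrank_mono (hle Y)))
  obtain ⟨Y0, hY0, hmin⟩ := (measure f).wf.has_min {Y | Y ≠ ⊥} ⟨X, hX⟩
  have hmin' : ∀ Y, Y ≠ ⊥ → f Y0 ≤ f Y := fun Y hY => not_lt.1 (hmin Y hY)
  obtain ⟨A, ⟨hA, hAf⟩, hat⟩ := (measure fun Y : Submodule K L => finrank K Y).wf.has_min
    {Y | Y ≠ ⊥ ∧ f Y = f Y0} ⟨Y0, hY0, rfl⟩
  have hat' : ∀ Y, Y ≠ ⊥ → f Y = f Y0 → finrank K A ≤ finrank K Y := fun Y h h' =>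
    not_lt.1 (hat Y ⟨h, h'⟩)
  have hsc : ∀ (Y : Submodule K L) (x : L), x ≠ 0 → f (Submodule.span K {x} * Y) = f Y :=
    fun Y x hx => by
      have := fr_smul (Y * E) hx
      rw [← mul_assoc] at this
      simp only [f, this, fr_smul _ hx]
  obtain ⟨a, ha, ha0⟩ := Submodule.exists_mem_ne_zero_of_ne_bot hA
  set H := Submodule.span K {a⁻¹} * A with hH
  have hH1 : (1 : L) ∈ H := by
    rw [← inv_mul_cancel₀ ha0]
    exact Submodule.mul_mem_mul (Submodule.mem_span_singleton_self _) ha
  have hHf : f H = f Y0 := (hsc _ _ (inv_ne_zero ha0)).trans hAf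
  have hHd : finrank K H = finrank K A := fr_smul _ (inv_ne_zero ha0)
  have hst : ∀ x ∈ H, x ≠ 0 → Submodule.span K {x} * H = H := by
    intro x hx hx0
    set H' := Submodule.span K {x} * H with hH'
    have hx' : x ∈ H' := by
      simpa using Submodule.mul_mem_mul (Submodule.mem_span_singleton_self (R := K) x) hH1
    have hne : H' ⊓ H ≠ ⊥ := fun h => hx0 (by
      have : x ∈ H' ⊓ H := ⟨hx', hx⟩
      rwa [h, Submodule.mem_bot] at this)
    have hne' : H' ⊔ H ≠ ⊥ := fun h => hne (le_bot_iff.1 (h ▸ inf_le_sup))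
    have e1 := Submodule.finrank_sup_add_finrank_inf_eq H' H
    have e2 := Submodule.finrank_sup_add_finrank_inf_eq (H' * E) (H * E)
    have e3 : finrank K ↥((H' ⊓ H) * E) ≤ finrank K ↥(H' * E ⊓ H * E) :=
      Submodule.finrank_mono (le_inf (mul_le_mul' inf_le_left le_rfl)
        (mul_le_mul' inf_le_right le_rfl))
    rw [← Submodule.sup_mul] at e2
    have e4 := hf (H' ⊓ H)
    have e5 := hf (H' ⊔ H)
    have e6 := hf H'
    have e7 := hf H
    have e8 : f H' = f Y0 := (hsc _ _ hx0).trans hHf
    have e9 := hmin' _ hne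
    have e10 := hmin' _ hne'
    have e11 : f (H' ⊓ H) = f Y0 := by
      have := Nat.mul_le_mul_left (m + 1) e3
      have h2 := congrArg (m * ·) e1
      have h3 := congrArg ((m + 1) * ·) e2
      simp only [mul_add] at h2 h3
      omega
    have e12 := hat' _ hne e11
    have e13 : finrank K H' = finrank K A := (fr_smul _ hx0).trans hHd
    have h4 : H' ⊓ H = H := Submodule.eq_of_le_of_finrank_le inf_le_right (by omega)
    have h5 : H' ⊓ H = H' := Submodule.eq_of_le_of_finrank_le inf_le_left (by omega)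
    exact h5.symm.trans h4
  have hmul : ∀ x ∈ H, ∀ y ∈ H, x * y ∈ H := fun x hx y hy => by
    by_cases hx0 : x = 0
    · simp [hx0]
    · rw [← hst x hx hx0]
      exact Submodule.mul_mem_mul (Submodule.mem_span_singleton_self _) hy
  have e1 := hf X
  have e2 := hmin' X hX
  have e3 := hf H
  by_cases hE : E ≤ H
  · left
    have h2 := hgen H hE (Submodule.mul_le.2 hmul)
    have h3 : H * E = ⊤ := top_le_iff.1 (h2.ge.trans (hle H))
    rw [h3, h2, finrank_top] at e3
    rw [← h2, hHf] at e3
    nlinarith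
  · right
    obtain ⟨e, he, heH⟩ := SetLike.not_le_iff_exists.1 hE
    have he0 : e ≠ 0 := fun h => heH (h ▸ H.zero_mem)
    have h2 : H ⊓ Submodule.span K {e} * H = ⊥ := by
      rw [eq_bot_iff]
      rintro y ⟨hy, hy'⟩
      obtain ⟨z, hz, rfl⟩ := Submodule.mem_span_singleton_mul.1 hy'
      by_contra h0
      have hz0 : z ≠ 0 := fun h => h0 (by simp [h])
      have h3 := hH1
      rw [← hst z hz hz0] at h3
      obtain ⟨w, hw, hw'⟩ := Submodule.mem_span_singleton_mul.1 h3
      apply heH
      have := hmul _ hy w hw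
      rwa [mul_assoc, hw', mul_one] at this
    have h3 := Submodule.finrank_sup_add_finrank_inf_eq H (Submodule.span K {e} * H)
    rw [h2, finrank_bot, fr_smul _ he0] at h3
    have h4 : finrank K ↥(H ⊔ Submodule.span K {e} * H) ≤ finrank K ↥(H * E) :=
      Submodule.finrank_mono (sup_le (hle H) (by
        rw [mul_comm]
        exact mul_le_mul' le_rfl ((Submodule.span_singleton_le_iff_mem _ _).2 he)))
    have h5 : finrank K E ≤ finrank K ↥(H * E) := Submodule.finrank_mono fun y hy => by
      simpa using Submodule.mul_mem_mul hH1 hy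
    rw [hHf] at e3
    nlinarith [Nat.mul_le_mul_left (m + 1) h5, Nat.mul_le_mul_left m (h3.ge.trans h4)]

theorem grow (E : Submodule K L) (h1 : (1 : L) ∈ E)
    (hgen : ∀ H : Submodule K L, E ≤ H → H * H ≤ H → H = ⊤) (c : ℕ) :
    c * finrank K E < finrank K ↥(E ^ (4 * c + 2)) ∨ E ^ (8 * c + 4) = ⊤ := by
  by_contra hc
  rw [not_or, not_lt] at hc
  obtain ⟨h2, h3⟩ := hc
  have h4 : 2 * finrank K ↥(E ^ (4 * c + 2)) ≤ finrank K L := by
    by_contra h
    apply h3
    rw [show 8 * c + 4 = (4 * c + 2) + (4 * c + 2) by ring, pow_add]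
    exact mul_eq_top (by omega)
  have hone : ∀ i, (1 : L) ∈ E ^ i := fun i => by
    simpa using Submodule.pow_mem_pow E h1 i
  have hmono : ∀ i j, E ^ i ≤ E ^ (i + j) := fun i j y hy => by
    rw [pow_add]
    simpa using Submodule.mul_mem_mul hy (hone j)
  set x := finrank K ↥(E ^ (4 * c + 2)) with hx
  have h5 : ∀ i ≤ 4 * c + 2, i * x ≤ (4 * c + 1) * finrank K ↥(E ^ i) := by
    intro i
    induction i with
    | zero => simp
    | succ i ih =>
      intro hi
      have h6 := ih (by omega)
      have h7 : finrank K ↥(E ^ i) ≤ x := by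
        obtain ⟨j, hj⟩ : ∃ j, 4 * c + 2 = i + j := ⟨4 * c + 2 - i, by omega⟩
        rw [hx, hj]
        exact Submodule.finrank_mono (hmono i j)
      have h8 := atom E h1 hgen (4 * c) (E ^ i) fun h => by
        have := hone i
        rw [h, Submodule.mem_bot] at this
        exact one_ne_zero this
      rw [← pow_succ] at h8
      rcases h8 with h8 | h8 <;> nlinarith
  have h6 := h5 _ le_rfl
  have h7 : 0 < x := by
    rw [hx, Module.finrank_pos_iff]
    exact ⟨⟨⟨1, hone _⟩, 0, fun h => one_ne_zero (congrArg Subtype.val h)⟩⟩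
  rw [← hx] at h6
  nlinarith

end

/-- growth inside a big field -/
theorem grow' {K Ω : Type*} [Field K] [Field Ω] [Algebra K Ω] (s : Set Ω) (hs : s.Finite)
    (hi : ∀ x ∈ s, IsIntegral K x) (h1 : (1 : Ω) ∈ s) (c : ℕ) :
    c * finrank K (Submodule.span K s) < finrank K ↥(Submodule.span K s ^ (4 * c + 2)) ∨
      Submodule.span K s ^ (8 * c + 4) = (Algebra.adjoin K s).toSubmodule := by
  have : Finite s := hs
  let L := IntermediateField.adjoin K s
  have : FiniteDimensional K L := IntermediateField.finiteDimensional_adjoin hi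
  have hL : L.toSubalgebra = Algebra.adjoin K s :=
    IntermediateField.adjoin_toSubalgebra_of_isAlgebraic fun x hx => (hi x hx).isAlgebraic
  let E : Submodule K L := (Submodule.span K s).comap L.val.toLinearMap
  have hE : E.map L.val.toLinearMap = Submodule.span K s := by
    refine Submodule.map_comap_eq_of_le ?_
    rw [Submodule.span_le]
    exact fun x hx => ⟨⟨x, IntermediateField.subset_adjoin K s hx⟩, rfl⟩
  have htop : (⊤ : Submodule K L).map L.val.toLinearMap = (Algebra.adjoin K s).toSubmodule := by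
    rw [← hL]
    ext x
    simp
  have hfr : ∀ X : Submodule K L, finrank K (X.map L.val.toLinearMap) = finrank K X := fun X =>
    (Submodule.equivMapOfInjective _ (L.val.toRingHom.injective) X).finrank_eq.symm
  suffices hg : ∀ H : Submodule K L, E ≤ H → H * H ≤ H → H = ⊤ by
    rcases grow E (Submodule.subset_span h1) hg c with h | h
    · left
      rwa [← hE, ← Submodule.map_pow, hfr, hfr]
    · right
      rw [← hE, ← Submodule.map_pow, h, htop]
  intro H h2 h3
  · let A : Subalgebra K Ω := (H.map L.val.toLinearMap).toSubalgebra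
      ⟨1, h2 (Submodule.subset_span h1), rfl⟩ (by
        rintro _ _ ⟨x, hx, rfl⟩ ⟨y, hy, rfl⟩
        exact ⟨x * y, h3 (Submodule.mul_mem_mul hx hy), rfl⟩)
    have hA : Algebra.adjoin K s ≤ A := Algebra.adjoin_le fun x hx =>
      ⟨⟨x, IntermediateField.subset_adjoin K s hx⟩, h2 (Submodule.subset_span hx), rfl⟩
    rw [eq_top_iff]
    intro x _
    obtain ⟨y, hy, hyx⟩ := hA (show (x : Ω) ∈ Algebra.adjoin K s from hL ▸ x.2)
    rwa [← (Subtype.ext hyx : y = x)]

end Pool.Agent.Lib.MP_f61260_nt
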