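import Pool.Agent.Lib.MP_f61260_nt.Glob3

/-! Monomials, boxes and Galois descent for ranks. -/

set_option autoImplicit false

namespace Pool.Agent.Lib.MP_f61260_nt

open Module Submodule

section Mon

variable {σ : Type} [Fintype σ] {F : Type} [Field F]

/-- Laurent monomial -/
noncomputable def mon (P : σ → F) (a : σ → ℤ) : F := ∏ i, P i ^ a i

lemma mon_ne {P : σ → F} (hP : ∀ i, P i ≠ 0) (a : σ → ℤ) : mon P a ≠ 0 :=
  Finset.prod_ne_zero_iff.2 fun i _ => zpow_ne_zero _ (hP i)

lemma mon_zero (P : σ → F) : mon P 0 = 1 := by simp [mon]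

lemma mon_add {P : σ → F} (hP : ∀ i, P i ≠ 0) (a b : σ → ℤ) :
    mon P (a + b) = mon P a * mon P b := by
  simp [mon, zpow_add₀ (hP _), Finset.prod_mul_distrib]

lemma mon_neg (P : σ → F) (a : σ → ℤ) : mon P (-a) = (mon P a)⁻¹ := by
  simp [mon]

lemma mon_nsmul (P : σ → F) (k : ℕ) (a : σ → ℤ) : mon P (k • a) = mon P a ^ k := by
  simp only [mon, ← Finset.prod_pow, Pi.smul_apply, nsmul_eq_mul]
  exact Finset.prod_congr rfl fun i _ => by rw [mul_comm, zpow_mul, zpow_natCast]

lemma map_mon {F' G : Type} [Field F'] [FunLike G F F'] [RingHomClass G F F'] (f : G) (P : σ → F)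
    (a : σ → ℤ) : f (mon P a) = mon (fun i => f (P i)) a := by
  simp [mon, map_prod, map_zpow₀]

open Classical in
/-- lattice points in a box -/
noncomputable def bx (Λ : Submodule ℤ (σ → ℤ)) (ν : ℕ) : Finset (σ → ℤ) :=
  (Fintype.piFinset fun _ => Finset.Icc (-(ν : ℤ)) ν).filter (· ∈ Λ)

lemma mem_bx {Λ : Submodule ℤ (σ → ℤ)} {ν : ℕ} {a : σ → ℤ} :
    a ∈ bx Λ ν ↔ a ∈ Λ ∧ ∀ i, |a i| ≤ ν := by
  simp [bx, abs_le, and_comm]

lemma card_bx (Λ : Submodule ℤ (σ → ℤ)) (ν : ℕ) :
    (bx Λ ν).card ≤ (2 * ν + 1) ^ Fintype.card σ := by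
  classical
  refine (Finset.card_filter_le _ _).trans (le_of_eq ?_)
  rw [Fintype.card_piFinset, Finset.prod_const, Finset.card_univ, Int.card_Icc]
  congr 1
  omega

lemma zero_bx (Λ : Submodule ℤ (σ → ℤ)) (ν : ℕ) : 0 ∈ bx Λ ν := by simp [mem_bx]

lemma add_bx {Λ : Submodule ℤ (σ → ℤ)} {ν ν' : ℕ} {a b : σ → ℤ} (ha : a ∈ bx Λ ν)
    (hb : b ∈ bx Λ ν') : a + b ∈ bx Λ (ν + ν') := by
  rw [mem_bx] at *
  refine ⟨Λ.add_mem ha.1 hb.1, fun i => (abs_add_le _ _).trans ?_⟩
  push_cast
  exact add_le_add (ha.2 i) (hb.2 i)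

lemma neg_bx {Λ : Submodule ℤ (σ → ℤ)} {ν : ℕ} {a : σ → ℤ} (ha : a ∈ bx Λ ν) : -a ∈ bx Λ ν := by
  rw [mem_bx] at *
  exact ⟨Λ.neg_mem ha.1, fun i => by simpa using ha.2 i⟩

lemma bx_mono {Λ : Submodule ℤ (σ → ℤ)} {ν ν' : ℕ} (h : ν ≤ ν') : bx Λ ν ⊆ bx Λ ν' :=
  fun a ha => by
    rw [mem_bx] at *
    exact ⟨ha.1, fun i => (ha.2 i).trans (by exact_mod_cast h)⟩

/-- order of vanishing of an exponential sum -/
def Ord (S : Finset (σ → ℤ)) (y : (σ → ℤ) → F) : ℕ → ((σ → ℤ) → F) → Prop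
  | 0, _ => True
  | t + 1, w => ∑ a ∈ S, w a * y a = 0 ∧ ∀ i, Ord S y t fun a => (a i : F) * w a

/-- span of the values of the monomials at a family of points -/
noncomputable def Sp (k : Type) {A : Type} [Field k] [CommRing A] [Algebra k A]
    (Λ : Submodule ℤ (σ → ℤ)) (z : (σ → ℤ) → A) (ν : ℕ) : Submodule k A :=
  span k (z '' (bx Λ ν : Set (σ → ℤ)))

variable {k A : Type} [Field k] [CommRing A] [Algebra k A] {Λ : Submodule ℤ (σ → ℤ)}
  {z : (σ → ℤ) → A}

lemma mem_Sp {ν : ℕ} {a : σ → ℤ} (ha : a ∈ bx Λ ν) : z a ∈ Sp k Λ z ν :=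
  subset_span ⟨a, ha, rfl⟩

lemma Sp_mono {ν ν' : ℕ} (h : ν ≤ ν') : Sp k Λ z ν ≤ Sp k Λ z ν' :=
  span_mono (Set.image_mono (bx_mono h))

instance (ν : ℕ) : FiniteDimensional k (Sp k Λ z ν) :=
  FiniteDimensional.span_of_finite k ((bx Λ ν).finite_toSet.image z)

lemma Sp_mul (hz : ∀ a ∈ Λ, ∀ b ∈ Λ, z (a + b) = z a * z b) (ν ν' : ℕ) :
    Sp k Λ z ν * Sp k Λ z ν' ≤ Sp k Λ z (ν + ν') := by
  rw [Sp, Sp, span_mul_span, span_le]
  rintro _ ⟨_, ⟨a, ha, rfl⟩, _, ⟨b, hb, rfl⟩, rfl⟩
  change z a * z b ∈ _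
  rw [← hz a (mem_bx.1 ha).1 b (mem_bx.1 hb).1]
  exact mem_Sp (add_bx ha hb)

lemma Sp_prod (hz : ∀ a ∈ Λ, ∀ b ∈ Λ, z (a + b) = z a * z b) (h0 : z 0 = 1) {ι : Type}
    (s : Finset ι) {f : ι → A} {ν : ℕ} (h : ∀ i ∈ s, f i ∈ Sp k Λ z ν) :
    ∏ i ∈ s, f i ∈ Sp k Λ z (s.card * ν) := by
  classical
  induction s using Finset.induction_on with
  | empty => simpa [h0] using mem_Sp (k := k) (z := z) (zero_bx Λ 0)
  | insert a s ha ih =>
    rw [Finset.prod_insert ha, Finset.card_insert_of_notMem ha, add_mul, one_mul, add_comm]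
    exact Sp_mul hz _ _ (mul_mem_mul (h a (by simp)) (ih fun i hi => h i (by simp [hi])))

lemma Sp_pow (hz : ∀ a ∈ Λ, ∀ b ∈ Λ, z (a + b) = z a * z b) (h0 : z 0 = 1) (ν j : ℕ) :
    Sp k Λ z ν ^ j ≤ Sp k Λ z (j * ν) := by
  induction j with
  | zero =>
    rw [pow_zero, Submodule.one_le, ← h0]
    exact mem_Sp (zero_bx _ _)
  | succ j ih =>
    rw [pow_succ, add_mul, one_mul]
    exact (mul_le_mul' ih le_rfl).trans (Sp_mul hz _ _)

end Mon

/-- the fixed field -/
noncomputable abbrev Kf (U : Subgroup GA) : IntermediateField ℚ Qb := IntermediateField.fixedField U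

variable {U : Subgroup GA}

lemma mem_Kf {x : Qb} : x ∈ Kf U ↔ Fx U x := IntermediateField.mem_fixedField_iff U x

lemma kf_fx (c : Kf U) : Fx U (c : Qb) := mem_Kf.1 c.2

lemma artin {S κ : Type} [Fintype S] {z : S → κ → Qb} (hz : LinearIndependent (Kf U) z)
    (c : S → Qb) (hc : ∀ u ∈ U, ∀ j, ∑ a, c a * u (z a j) = 0) : c = 0 := by
  classical
  induction hn : (Finset.univ.filter fun a => c a ≠ 0).card using Nat.strong_induction_on
    generalizing c with
  | _ n ih =>
  by_contra h0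
  obtain ⟨a0, ha0⟩ := Function.ne_iff.1 h0
  have ha0' : c a0 ≠ 0 := ha0
  have h1 : ∀ v ∈ U, (fun a => v (c a / c a0) - c a / c a0) = 0 := fun v hv => by
    refine ih _ ?_ _ (fun u hu j => ?_) rfl
    · rw [← hn]
      refine Finset.card_lt_card ⟨fun a ha => ?_, fun h => ?_⟩
      · simp only [Finset.mem_filter, Finset.mem_univ, true_and] at ha ⊢
        exact fun h => ha (by simp [h])
      · have := h (Finset.mem_filter.2 ⟨Finset.mem_univ a0, ha0'⟩)
        simp only [Finset.mem_filter, Finset.mem_univ, true_and, div_self ha0', map_one, sub_self,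
          ne_eq, not_true_eq_false] at this
    · have h2 := congrArg v (hc _ (U.mul_mem (U.inv_mem hv) hu) j)
      have h3 := hc u hu j
      simp only [map_sum, map_mul, map_zero, ← AlgEquiv.mul_apply, mul_inv_cancel_left] at h2
      simp only [sub_mul, Finset.sum_sub_distrib, map_div₀, div_mul_eq_mul_div, ← Finset.sum_div,
        h2, h3, zero_div, sub_zero]
  have h2 := Fintype.linearIndependent_iff.1 hz
    (fun a => ⟨c a / c a0, mem_Kf.2 fun v hv => sub_eq_zero.1 (congrFun (h1 v hv) a)⟩) (by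
      funext j
      have h3 := hc 1 U.one_mem j
      simp only [AlgEquiv.one_apply] at h3
      simp only [Finset.sum_apply, Pi.smul_apply, Pi.zero_apply, IntermediateField.smul_def,
        smul_eq_mul, div_mul_eq_mul_div, ← Finset.sum_div, h3, zero_div]) a0
  have h3 := congrArg Subtype.val h2
  simp [div_self ha0'] at h3

/-- the function given by the conjugates -/
noncomputable def fn (U : Subgroup GA) (x : Qb) : U → Qb := fun u => (u : GA) x

lemma fn_mem {ι : Type} {y : ι → Qb} {x : Qb} (h : x ∈ span (Kf U) (Set.range y)) :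
    fn U x ∈ span Qb (Set.range fun i => fn U (y i)) := by
  induction h using span_induction with
  | mem x hx => obtain ⟨i, rfl⟩ := hx; exact subset_span ⟨i, rfl⟩
  | zero => exact (show fn U 0 = 0 from funext fun u => map_zero _) ▸ zero_mem _
  | add x y _ _ h1 h2 =>
    exact (show fn U (x + y) = fn U x + fn U y from funext fun u => map_add _ _ _) ▸ add_mem h1 h2
  | smul c x _ h =>
    have : fn U (c • x) = (c : Qb) • fn U x := funext fun u => by
      simp [fn, IntermediateField.smul_def, kf_fx c u u.2]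
    exact this ▸ smul_mem _ _ h

lemma exists_bas {k V : Type} [Field k] [AddCommGroup V] [Module k V] (s : Set V) (hs : s.Finite) :
    ∃ e : Fin (finrank k (span k s)) → V, (∀ i, e i ∈ s) ∧ span k (Set.range e) = span k s ∧
      LinearIndependent k e := by
  have := FiniteDimensional.span_of_finite k hs
  exact exists_fun_fin_finrank_span_eq k s

lemma row_eq {s : Set Qb} (hs : s.Finite) :
    finrank (Kf U) (span (Kf U) s) = finrank Qb (span Qb (fn U '' s)) := by
  obtain ⟨e, h1, h2, h3⟩ := exists_bas (k := Kf U) s hs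
  have h4 : LinearIndependent Qb fun i => fn U (e i) := Fintype.linearIndependent_iff.2
    fun c hc => congrFun (artin (U := U) (z := fun i (_ : Unit) => e i) (by
      rw [Fintype.linearIndependent_iff] at h3 ⊢
      exact fun g hg => h3 g (by simpa using congrFun hg ())) c fun u hu _ => by
        simpa [fn] using congrFun hc ⟨u, hu⟩)
  have h5 : span Qb (fn U '' s) = span Qb (Set.range fun i => fn U (e i)) := by
    refine le_antisymm (span_le.2 ?_) (span_mono ?_)
    · rintro _ ⟨x, hx, rfl⟩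
      exact fn_mem (by rw [h2]; exact subset_span hx)
    · rintro _ ⟨i, rfl⟩
      exact ⟨_, h1 i, rfl⟩
  rw [h5, finrank_span_eq_card h4, Fintype.card_fin]

lemma col_ge {S κ : Type} [Fintype S] (z : S → κ → Qb) (Z : Submodule Qb (S → Qb))
    (hZ : ∀ u ∈ U, ∀ j, (fun a => u (z a j)) ∈ Z) :
    finrank (Kf U) (span (Kf U) (Set.range z)) ≤ finrank Qb Z := by
  classical
  obtain ⟨e, h1, -, h3⟩ := exists_bas (k := Kf U) _ (Set.finite_range z)
  choose f hf using h1
  have h4 : Z.map (LinearMap.funLeft Qb Qb f) = ⊤ := by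
    by_contra hc
    obtain ⟨g, hg0, hg⟩ := exists_le_ker_of_lt_top _ (lt_top_iff_ne_top.2 hc)
    have := artin h3 (fun i => g (Pi.single i 1)) fun u hu j => by
      have h5 : g (fun i => u (z (f i) j)) = 0 := hg ⟨_, hZ u hu j, rfl⟩
      rw [← h5, LinearMap.pi_apply_eq_sum_univ]
      refine Finset.sum_congr rfl fun i _ => ?_
      rw [smul_eq_mul, mul_comm, hf]
      congr 2
      funext i'
      simp [Pi.single_apply, eq_comm]
    apply hg0
    ext i
    simpa using congrFun this i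
  have h5 := finrank_map_le (LinearMap.funLeft Qb Qb f) Z
  rwa [h4, finrank_top, finrank_fintype_fun_eq_card, Fintype.card_fin] at h5

lemma col_le {S β : Type} [Fintype S] [Fintype β] (z : S → Qb) (w : β → S → Qb) :
    finrank Qb (span Qb {v : S → Qb | ∃ u ∈ U, ∃ b, v = fun a => w b a * u (z a)}) ≤
      Fintype.card β * finrank (Kf U) (span (Kf U) (Set.range z)) := by
  classical
  obtain ⟨e, -, h2, -⟩ := exists_bas (k := Kf U) _ (Set.finite_range z)
  choose c hc using fun a => (mem_span_range_iff_exists_fun (Kf U)).1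
    (by rw [h2]; exact subset_span ⟨a, rfl⟩ : z a ∈ span (Kf U) (Set.range e))
  refine le_trans (finrank_mono (t := span Qb (Set.range fun x : β × _ =>
    fun a => w x.1 a * c a x.2)) (span_le.2 ?_)) ((finrank_range_le_card _).trans (by simp))
  rintro _ ⟨u, hu, b, rfl⟩
  have : (fun a => w b a * u (z a)) = ∑ i, u (e i) • fun a => w b a * c a i := by
    funext a
    rw [← hc a]
    simp only [map_sum, IntermediateField.smul_def, smul_eq_mul, map_mul, kf_fx _ u hu,
      Finset.sum_apply, Pi.smul_apply, Finset.mul_sum]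
    exact Finset.sum_congr rfl fun i _ => by ring
  rw [this]
  exact sum_mem fun i _ => smul_mem _ _ (subset_span ⟨(b, i), rfl⟩)

lemma card_le_idx {S : Type} [Fintype S] {y : S → Qb} (hy : LinearIndependent (Kf U) y)
    {V : Subgroup GA} (hV : ∀ a, Fx V (y a)) {D : ℕ} (hD : IdxLe U V D) : Fintype.card S ≤ D := by
  obtain ⟨T, hT⟩ := hD
  have h4 : LinearIndependent Qb fun a (i : T.ι) => T.r i (y a) :=
    Fintype.linearIndependent_iff.2 fun c hc => congrFun (artin (U := U) (z := fun a (_ : Unit) => y a) (by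
      rw [Fintype.linearIndependent_iff] at hy ⊢
      exact fun g hg => hy g (by simpa using congrFun hg ())) c fun u hu _ => by
        obtain ⟨i, hi⟩ := T.ex u hu
        have h1 : ∀ a, u (y a) = T.r i (y a) := fun a => by
          conv_rhs => rw [← hV a _ hi]
          rw [← AlgEquiv.mul_apply, mul_inv_cancel_left]
        simpa [h1] using congrFun hc i)
  have := h4.fintype_card_le_finrank
  rw [finrank_fintype_fun_eq_card] at this
  exact this.trans hT

/-- the group has an abelian quotient -/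
def Ab (U : Subgroup GA) : Prop := ∀ g h : GA, g⁻¹ * h⁻¹ * g * h ∈ U

lemma Ab.conj (hU : Ab U) (g : GA) {u : GA} (hu : u ∈ U) : g⁻¹ * u * g ∈ U := by
  have h2 := U.mul_mem hu (hU u g)
  have e : u * (u⁻¹ * g⁻¹ * u * g) = g⁻¹ * u * g := by group
  rwa [e] at h2

lemma Ab.fx (hU : Ab U) (g : GA) {x : Qb} (hx : Fx U x) : Fx U (g x) := fun u hu => by
  conv_rhs => rw [← hx _ (hU.conj g hu)]
  simp only [← AlgEquiv.mul_apply]
  congr 1
  group

lemma Ab.span (hU : Ab U) (g : GA) {s : Set Qb} {x : Qb} (h : x ∈ span (Kf U) s) :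
    g x ∈ span (Kf U) (g '' s) := by
  induction h using span_induction with
  | mem x hx => exact subset_span ⟨x, hx, rfl⟩
  | zero => rw [map_zero]; exact zero_mem _
  | add x y _ _ h1 h2 => rw [map_add]; exact add_mem h1 h2
  | smul c x _ h =>
    rw [IntermediateField.smul_def, smul_eq_mul, map_mul]
    exact smul_mem _ (⟨g c, mem_Kf.2 (hU.fx g (kf_fx c))⟩ : Kf U) h

lemma Ab.li (hU : Ab U) (g : GA) {ι : Type} [Fintype ι] {y : ι → Qb}
    (h : LinearIndependent (Kf U) y) : LinearIndependent (Kf U) fun i => g (y i) := by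
  rw [Fintype.linearIndependent_iff] at h ⊢
  intro c hc i
  have := h (fun i => ⟨g⁻¹ (c i), mem_Kf.2 (hU.fx _ (kf_fx _))⟩) (g.injective (by
    rw [map_zero, ← hc]
    simp only [IntermediateField.smul_def, smul_eq_mul, map_sum, map_mul]
    exact Finset.sum_congr rfl fun i _ => by
      rw [← AlgEquiv.mul_apply, mul_inv_cancel, AlgEquiv.one_apply])) i
  exact Subtype.ext (by simpa using congrArg Subtype.val this)

end Pool.Agent.Lib.MP_f61260_nt
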