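import Pool.Agent.Lib.MP_f61260_nt.Ad2

/-! The inertia group, Frobenius elements and totally ramified extensions. -/

set_option autoImplicit false
set_option maxHeartbeats 400000

namespace Pool.Agent.Lib.MP_f61260_nt

open Polynomial

variable {p : ℕ} [hp : Fact p.Prime]

/-- roots of unity of order prime to `p` -/
def Tm (x : Om p) : Prop := ∃ m, ¬ p ∣ m ∧ x ^ m = 1

lemma pos_of_nd {m : ℕ} (h : ¬ p ∣ m) : 0 < m := Nat.pos_of_ne_zero fun h' => h (h' ▸ dvd_zero p)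

lemma Tm.norm {x : Om p} (h : Tm x) : ‖x‖ = 1 := let ⟨_, h1, h2⟩ := h; norm_root (pos_of_nd h1) h2

lemma Tm.map {x : Om p} (h : Tm x) (σ : LA p) : Tm (σ x) :=
  let ⟨m, h1, h2⟩ := h; ⟨m, h1, by rw [← map_pow, h2, map_one]⟩

lemma Tm.pow {x : Om p} (h : Tm x) (e : ℕ) : Tm (x ^ e) :=
  let ⟨m, h1, h2⟩ := h; ⟨m, h1, by rw [← pow_mul, mul_comm, pow_mul, h2, one_pow]⟩

lemma Tm.sep {a b : Om p} (ha : Tm a) (hb : Tm b) (h : ‖a - b‖ < 1) : a = b := by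
  have hb0 : b ≠ 0 := norm_pos_iff.1 (by rw [hb.norm]; exact one_pos)
  obtain ⟨m, h1, h2⟩ := id ha
  obtain ⟨m', h3, h4⟩ := id hb
  by_contra hab
  have h5 := tame (ξ := a / b) (hp.out.not_dvd_mul h1 h3) (by
    rw [div_pow, pow_mul, h2, mul_comm, pow_mul, h4, one_pow, one_pow, div_one])
    fun h => hab ((div_eq_one_iff_eq hb0).1 h)
  rw [show a - b = (a / b - 1) * b by field_simp, norm_mul, hb.norm, h5, mul_one] at h
  exact lt_irrefl _ h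

lemma clopen_eq (x y : Om p) : IsClopen {σ : LA p | σ x = y} := by
  by_cases h : ∃ τ : LA p, τ x = y
  · obtain ⟨τ, rfl⟩ := h
    have h0 : IsOpen (St ℚ_[p] x : Set (LA p)) := stabilizer_isOpen_of_isIntegral x
    have h1 : IsClopen (St ℚ_[p] x : Set (LA p)) := ⟨(St ℚ_[p] x).isClosed_of_isOpen h0, h0⟩
    have : {σ : LA p | σ x = τ x} = (fun σ => τ⁻¹ * σ) ⁻¹' (St ℚ_[p] x) := by
      ext σ
      change _ ↔ τ⁻¹ (σ x) = x
      rw [← τ.injective.eq_iff, ← AlgEquiv.mul_apply, mul_inv_cancel]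
      rfl
    rw [this]
    exact h1.preimage (continuous_mul_left _)
  · rw [Set.eq_empty_of_forall_notMem (s := {σ : LA p | σ x = y}) fun σ hσ => h ⟨σ, hσ⟩]
    exact isClopen_empty

lemma ex_primA {m : ℕ} (hm : 0 < m) : ∃ ζ : Om p, IsPrimitiveRoot ζ m := by
  have : NeZero m := ⟨hm.ne'⟩
  exact HasEnoughRootsOfUnity.exists_primitiveRoot _ m

lemma tame_cpt (e : ℕ) {Z : Set (LA p)} (hZ : IsClosed Z)
    (h : ∀ (m : ℕ) (ζ : Om p), ¬ p ∣ m → IsPrimitiveRoot ζ m → ∃ σ ∈ Z, σ ζ = ζ ^ e) :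
    ∃ σ ∈ Z, ∀ x, Tm x → σ x = x ^ e := by
  have : Nonempty {m : ℕ // ¬ p ∣ m} := ⟨⟨1, hp.out.not_dvd_one⟩⟩
  have hc : ∀ m : {m : ℕ // ¬ p ∣ m},
      IsClosed (Z ∩ ⋂ x ∈ {x : Om p | x ^ m.1 = 1}, {σ : LA p | σ x = x ^ e}) :=
    fun m => hZ.inter (isClosed_biInter fun x _ => (clopen_eq _ _).1)
  obtain ⟨σ, hσ⟩ := IsCompact.nonempty_iInter_of_directed_nonempty_isCompact_isClosed
    (fun m : {m : ℕ // ¬ p ∣ m} =>
      Z ∩ ⋂ x ∈ {x : Om p | x ^ m.1 = 1}, {σ : LA p | σ x = x ^ e})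
    (fun m m' => ⟨⟨m.1 * m'.1, hp.out.not_dvd_mul m.2 m'.2⟩,
      Set.inter_subset_inter_right _ (Set.biInter_subset_biInter_left fun x (hx : x ^ m.1 = 1) =>
        show x ^ (m.1 * m'.1) = 1 by rw [pow_mul, hx, one_pow]),
      Set.inter_subset_inter_right _ (Set.biInter_subset_biInter_left fun x (hx : x ^ m'.1 = 1) =>
        show x ^ (m.1 * m'.1) = 1 by rw [mul_comm, pow_mul, hx, one_pow])⟩)
    (fun m => by
      have : NeZero m.1 := ⟨(pos_of_nd m.2).ne'⟩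
      obtain ⟨ζ, hζ⟩ := ex_primA (p := p) (pos_of_nd m.2)
      obtain ⟨σ, h1, h2⟩ := h m ζ m.2 hζ
      refine ⟨σ, h1, Set.mem_iInter₂.2 fun x hx => ?_⟩
      obtain ⟨i, -, rfl⟩ := hζ.eq_pow_of_pow_eq_one hx
      change σ _ = _
      rw [map_pow, h2, ← pow_mul, ← pow_mul, mul_comm]) (fun m => (hc m).isCompact) hc
  rw [Set.mem_iInter] at hσ
  exact ⟨σ, (hσ ⟨1, hp.out.not_dvd_one⟩).1, fun x ⟨m, h1, h2⟩ =>
    Set.mem_iInter₂.1 (hσ ⟨m, h1⟩).2 x h2⟩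

lemma teich {x : Om p} (hx : ‖x‖ ≤ 1) : ∃ t, (t = 0 ∨ Tm t) ∧ ‖x - t‖ < 1 := by
  rcases hx.lt_or_eq with h | h
  · exact ⟨0, Or.inl rfl, by rwa [sub_zero]⟩
  obtain ⟨σ, hσ⟩ := frob hx
  have h1 : ∀ n : ℕ, ‖x ^ p ^ n - (σ ^ n) x‖ < 1 := by
    intro n
    induction n with
    | zero => simp
    | succ n ih =>
      have h2 : ‖(x ^ p ^ n) ^ p - ((σ ^ n) x) ^ p‖ < 1 :=
        (pow_sub_le_one (by rw [norm_pow]; exact pow_le_one₀ (norm_nonneg _) hx)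
          (by rw [niso]; exact hx) p).trans_lt ih
      have h3 : ‖((σ ^ n) x) ^ p - (σ ^ (n + 1)) x‖ < 1 := by
        rw [pow_succ, AlgEquiv.mul_apply, ← map_pow, ← map_sub, niso]; exact hσ
      have := nadd_lt h2 h3
      rwa [sub_add_sub_cancel, ← pow_mul, ← pow_succ] at this
  obtain ⟨_, hT⟩ := fi_St x
  obtain ⟨N, hN, hN'⟩ := hT.exists_pow (Subgroup.mem_top σ)
  obtain ⟨m, hm⟩ : ∃ m, p ^ N = m + 1 := ⟨p ^ N - 1, by have := pow_pos hp.out.pos N; omega⟩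
  have hpm : ¬ p ∣ m := fun h' => hp.out.not_dvd_one
    ((Nat.dvd_add_right h').1 (hm ▸ dvd_pow_self p hN.ne'))
  obtain ⟨ζ, hζ⟩ := ex_primA (p := p) (pos_of_nd hpm)
  have h2 := h1 N
  have h3 := congrArg (eval x) (X_pow_sub_one_eq_prod (pos_of_nd hpm) hζ)
  simp only [eval_sub, eval_pow, eval_X, eval_one, eval_prod, eval_C] at h3
  rw [mem_St.1 hN', hm, pow_succ, ← sub_one_mul, norm_mul, h, mul_one, h3, norm_prod] at h2
  obtain ⟨t, ht, ht'⟩ := exists_lt_of_prod_lt h2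
  exact ⟨t, Or.inr ⟨m, hpm, (mem_nthRootsFinset (pos_of_nd hpm) 1).1 ht⟩, ht'⟩

lemma near_of {φ : LA p} {e : ℕ} (he : e ≠ 0) (h : ∀ x, Tm x → φ x = x ^ e) {x : Om p}
    (hx : ‖x‖ ≤ 1) : ‖φ x - x ^ e‖ < 1 := by
  obtain ⟨t, h1, h2⟩ := teich hx
  have h3 : φ t = t ^ e := h1.elim (fun h => by simp [h, he]) (h t)
  have h4 : ‖t‖ ≤ 1 := h1.elim (fun h => by simp [h]) fun h => h.norm.le
  have := nsub_lt (x := φ (x - t)) (by rwa [niso]) ((pow_sub_le_one hx h4 e).trans_lt h2)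
  rwa [map_sub, h3, sub_sub_sub_cancel_right] at this

lemma exists_frob : ∃ φ : LA p, ∀ x, ‖x‖ ≤ 1 → ‖φ x - x ^ p‖ < 1 := by
  obtain ⟨φ, -, h⟩ := tame_cpt (p := p) p isClosed_univ fun m ζ hm hζ => by
    have h1 : Tm ζ := ⟨m, hm, hζ.pow_eq_one⟩
    obtain ⟨σ, hσ⟩ := frob h1.norm.le
    exact ⟨σ, trivial, ((h1.pow p).sep (h1.map σ) hσ).symm⟩
  exact ⟨φ, fun x hx => near_of hp.out.ne_zero h hx⟩

variable (p) in
/-- the inertia group -/
def Ine : Subgroup (LA p) where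
  carrier := {σ | ∀ x, Tm x → σ x = x}
  one_mem' _ _ := rfl
  mul_mem' {a b} ha hb x hx := by rw [AlgEquiv.mul_apply, hb x hx, ha x hx]
  inv_mem' {a} ha x hx := (St ℚ_[p] x).inv_mem (ha x hx)

lemma ine_conj (τ : LA p) {σ : LA p} (h : σ ∈ Ine p) : τ⁻¹ * σ * τ ∈ Ine p := fun x hx => by
  rw [AlgEquiv.mul_apply, AlgEquiv.mul_apply, h _ (hx.map τ), ← AlgEquiv.mul_apply,
    inv_mul_cancel, AlgEquiv.one_apply]

lemma ine_near {σ : LA p} (h : σ ∈ Ine p) {x : Om p} (hx : ‖x‖ ≤ 1) : ‖σ x - x‖ < 1 := by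
  simpa using near_of one_ne_zero (fun x hx => by rw [h x hx, pow_one]) hx

lemma unram {x : Om p} (hx : Fx (Ine p) x) (h : ‖x‖ < 1) : ‖x‖ ≤ ‖(p : Om p)‖ := by
  obtain ⟨m, ζ, h1, h2, h3⟩ : ∃ (m : ℕ) (ζ : Om p), ¬ p ∣ m ∧ ζ ^ m = 1 ∧ Fx (St ℚ_[p] ζ) x := by
    by_contra hc
    obtain ⟨σ, h1, h2⟩ := tame_cpt 1 (clopen_eq x x).compl.1 fun m ζ hm hζ => by
      by_contra h'
      refine hc ⟨m, ζ, hm, hζ.pow_eq_one, fun σ hσ => ?_⟩
      by_contra h''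
      exact h' ⟨σ, h'', by rw [pow_one]; exact hσ⟩
    exact h1 (hx σ fun y hy => by rw [h2 y hy, pow_one])
  obtain ⟨φ, hφ⟩ := loc_frob h1 h2
  rcases eq_or_ne x 0 with rfl | h0
  · simp
  have h4 := hφ x h3 h.le
  have h5 : ‖x ^ p‖ < ‖φ x‖ := by
    rw [niso, norm_pow]
    exact pow_lt_self_of_lt_one₀ (norm_pos_iff.2 h0) h hp.out.one_lt
  rwa [norm_eq_of_sub_lt (y := φ x) (by rwa [sub_sub_cancel_left, norm_neg]), niso] at h4

lemma fx_p {A : Subgroup (LA p)} : Fx A (p : Om p) := fun σ _ => map_natCast σ p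

lemma norm_tr {A B : Subgroup (LA p)} (T : Trans B A) (x : Om p) :
    ‖T.prod fun σ => σ x‖ = ‖x‖ ^ T.card := by
  rw [Trans.prod, norm_prod]
  simp [niso, Trans.card]

lemma ram_le {B : Subgroup (LA p)} {J : ℕ} (hB : IdxLe (Ine p) B J) {x : Om p} (hx : Fx B x)
    (h : ‖x‖ < 1) : ‖x‖ ^ J ≤ ‖(p : Om p)‖ := by
  obtain ⟨T, hT⟩ := hB
  have := unram (T.prod_fx hx) (by
    rw [norm_tr]; exact pow_lt_one₀ (norm_nonneg _) h T.card_pos.ne')
  rw [norm_tr] at this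
  exact (pow_le_pow_of_le_one (norm_nonneg _) h.le hT).trans this

lemma exists_max {A : Subgroup (LA p)} {N : ℕ} (hA : IdxLe (Ine p) A N) :
    ∃ π : Om p, Fx A π ∧ π ≠ 0 ∧ ‖π‖ < 1 ∧ ∀ x, Fx A x → ‖x‖ < 1 → ‖x‖ ≤ ‖π‖ := by
  obtain ⟨T, -⟩ := hA
  have hp0 : (p : Om p) ≠ 0 := norm_pos_iff.1 np_pos
  have hv : ∀ n : ℕ, ∀ x, Fx (Ine p) x → ‖(p : Om p)‖ ^ n ≤ ‖x‖ → ‖x‖ ≤ 1 →
      ∃ k ≤ n, ‖x‖ = ‖(p : Om p)‖ ^ k := by
    intro n
    induction n with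
    | zero => exact fun x _ h1 h2 => ⟨0, le_rfl, le_antisymm (by simpa using h2) h1⟩
    | succ n ih =>
      intro x hx h1 h2
      rcases h2.lt_or_eq with h2 | h2
      · obtain ⟨k, h3, h4⟩ := ih (x / p) (hx.div fx_p)
          (by rwa [norm_div, le_div_iff₀ np_pos, ← pow_succ])
          (by rw [norm_div, div_le_one np_pos]; exact unram hx h2)
        rw [norm_div, div_eq_iff np_pos.ne', ← pow_succ] at h4
        exact ⟨k + 1, by omega, h4⟩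
      · exact ⟨0, by omega, by simpa using h2⟩
  classical
  have hex : ∃ k : ℕ, ∃ x : Om p, Fx A x ∧ ‖x‖ < 1 ∧ ‖x‖ ^ T.card = ‖(p : Om p)‖ ^ k :=
    ⟨_, p, fx_p, np_lt, rfl⟩
  obtain ⟨π, h1, h2, h3⟩ := Nat.find_spec hex
  have h4 : ‖(p : Om p)‖ ≤ ‖π‖ := by
    refine le_of_pow_le_pow_left₀ T.card_pos.ne' (norm_nonneg _) ?_
    rw [h3]
    exact pow_le_pow_of_le_one (norm_nonneg _) np_lt.le (Nat.find_min' hex ⟨p, fx_p, np_lt, rfl⟩)
  refine ⟨π, h1, norm_pos_iff.1 (np_pos.trans_le h4), h2, fun x hx h => ?_⟩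
  rcases le_total ‖x‖ ‖(p : Om p)‖ with h5 | h5
  · exact h5.trans h4
  obtain ⟨k, -, hk⟩ := hv T.card _ (T.prod_fx hx)
    (by rw [norm_tr]; exact pow_le_pow_left₀ (norm_nonneg _) h5 _)
    (by rw [norm_tr]; exact pow_le_one₀ (norm_nonneg _) h.le)
  rw [norm_tr] at hk
  refine le_of_pow_le_pow_left₀ T.card_pos.ne' (norm_nonneg _) ?_
  rw [h3, hk]
  exact pow_le_pow_of_le_one (norm_nonneg _) np_lt.le (Nat.find_min' hex ⟨x, hx, h, hk⟩)

/-- integral elements of a fixed field -/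
def OB (B : Subgroup (LA p)) : Subring (Om p) where
  carrier := {x | Fx B x ∧ ‖x‖ ≤ 1}
  one_mem' := ⟨Fx.one, norm_one.le⟩
  zero_mem' := ⟨Fx.zero, by simp⟩
  mul_mem' ha hb := ⟨ha.1.mul hb.1, by rw [norm_mul]; exact mul_le_one₀ ha.2 (norm_nonneg _) hb.2⟩
  add_mem' ha hb := ⟨ha.1.add hb.1, nadd_le ha.2 hb.2⟩
  neg_mem' ha := ⟨by simpa using Fx.zero.sub ha.1, by rw [norm_neg]; exact ha.2⟩

/-- polynomials with integral coefficients in a fixed field -/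
noncomputable def PB (B : Subgroup (LA p)) : Subring (Om p)[X] := (mapRingHom (OB B).subtype).range

variable {A B : Subgroup (LA p)}

lemma mem_PB {P : (Om p)[X]} : P ∈ PB B ↔ ∀ n, P.coeff n ∈ OB B := by
  rw [PB, mem_map_range]
  simp

lemma C_PB {x : Om p} (h : x ∈ OB B) : C x ∈ PB B := ⟨C ⟨x, h⟩, by simp⟩

lemma X_PB : X ∈ PB B := ⟨X, by simp⟩

lemma mod_PB {P E : (Om p)[X]} (h : P ∈ PB B) (h' : E ∈ PB B) (hE : E.Monic) : P %ₘ E ∈ PB B := by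
  obtain ⟨P, rfl⟩ := h
  obtain ⟨E, rfl⟩ := h'
  exact ⟨P %ₘ E, map_modByMonic _ (monic_of_injective Subtype.val_injective hE)⟩

lemma PB_mono (h : A ≤ B) : PB B ≤ PB A := fun _ hP =>
  mem_PB.2 fun n => ⟨(mem_PB.1 hP n).1.mono h, (mem_PB.1 hP n).2⟩

lemma PB_map {P : (Om p)[X]} (h : P ∈ PB B) {σ : LA p} (hσ : σ ∈ B) :
    P.map (σ : Om p →+* Om p) = P :=
  Polynomial.ext fun n => by rw [coeff_map]; exact (mem_PB.1 h n).1 σ hσ

lemma PB_eval {P : (Om p)[X]} (h : P ∈ PB B) {σ : LA p} (hσ : σ ∈ B) (x : Om p) :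
    σ (P.eval x) = P.eval (σ x) := by
  conv_rhs => rw [← PB_map h hσ, eval_map]
  exact (eval₂_at_apply (σ : Om p →+* Om p) x).symm

lemma poly_PB (T : Trans B A) {x : Om p} (h : Fx A x) (h1 : ‖x‖ ≤ 1) : T.poly x ∈ PB B :=
  mem_PB.2 fun n => ⟨T.poly_coeff h n, by
    simpa [max_eq_left h1] using poly_coeff_le T x zero_le_one n⟩

lemma span_unif (hB : B ≤ Ine p) (hA : A ≤ B) {N : ℕ} (hN : IdxLe B A N) {π : Om p} (h1 : Fx A π)
    (h2 : π ≠ 0) (h3 : ‖π‖ < 1) (h4 : ∀ x, Fx A x → ‖x‖ < 1 → ‖x‖ ≤ ‖π‖) {x : Om p}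
    (hx : x ∈ OB A) : ∃ P ∈ PB B, P.eval π = x := by
  classical
  have hπ := norm_pos_iff.2 h2
  have app : ∀ k : ℕ, ∀ x ∈ OB A, ∃ P ∈ PB B, ‖x - P.eval π‖ ≤ ‖π‖ ^ k := by
    intro k
    induction k with
    | zero => exact fun x hx => ⟨0, zero_mem _, by simpa using hx.2⟩
    | succ k ih =>
      intro x hx
      obtain ⟨t, h5, h6⟩ := teich hx.2
      have h7 : t ∈ OB B := h5.elim (fun h => h ▸ zero_mem _)
        fun h => ⟨fun σ hσ => hB hσ t h, h.norm.le⟩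
      have h8 := hx.1.sub (h7.1.mono hA)
      obtain ⟨P, h9, h10⟩ := ih ((x - t) / π) ⟨h8.div h1, by
        rw [norm_div, div_le_one hπ]; exact h4 _ h8 h6⟩
      refine ⟨C t + X * P, add_mem (C_PB h7) (mul_mem X_PB h9), ?_⟩
      have : x - (C t + X * P).eval π = ((x - t) / π - P.eval π) * π := by
        simp only [eval_add, eval_C, eval_mul, eval_X]
        field_simp
        ring
      rw [this, norm_mul, pow_succ]
      exact mul_le_mul_of_nonneg_right h10 hπ.le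
  obtain ⟨T, -⟩ := hN.restrict (A' := B ⊓ St ℚ_[p] π) le_rfl
    (le_inf inf_le_left (inf_le_right.trans h1.le))
  have h5 : Fx (B ⊓ St ℚ_[p] π) x := fun σ hσ => by
    by_contra hc
    obtain ⟨k, hk⟩ := exists_pow_lt_of_lt_one (norm_pos_iff.2 (sub_ne_zero.2 hc)) h3
    obtain ⟨P, h5, h6⟩ := app k x hx
    have := nsub_le (x := σ (x - P.eval π)) (by rwa [niso]) h6
    rw [map_sub, PB_eval h5 hσ.1, mem_St.1 hσ.2, sub_sub_sub_cancel_right] at this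
    exact absurd hk (not_lt.2 this)
  have h6 : Fx (B ⊓ St ℚ_[p] π) π := Fx.of_le inf_le_right
  obtain ⟨P, h7, h8, h9⟩ := T.cond (fun σ h h' => ⟨h, h'⟩) h6 h5
  refine ⟨P, mem_PB.2 fun n => ⟨h8 n, ?_⟩, by simpa using h9 1 B.one_mem⟩
  have hinj : Set.InjOn (fun i => T.r i π) (Finset.univ : Finset T.ι) :=
    (T.inj (y := π) fun σ h h' => ⟨h, h'⟩).injOn
  obtain ⟨c, hc⟩ : ∃ c, c = ∑ i, ‖(Lagrange.basis Finset.univ (fun i => T.r i π) i).coeff n‖ :=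
    ⟨_, rfl⟩
  have hc0 : 0 ≤ c := hc ▸ Finset.sum_nonneg fun _ _ => norm_nonneg _
  obtain ⟨k, hk⟩ := exists_pow_lt_of_lt_one (show 0 < 1 / (c + 1) by positivity) h3
  obtain ⟨Q, h10, h11⟩ := app k x hx
  have hmon : (T.poly π).Monic := monic_prod_of_monic _ _ fun i _ => monic_X_sub_C _
  have h12 : (P - Q %ₘ T.poly π).degree < (Finset.univ : Finset T.ι).card := by
    refine (degree_sub_le _ _).trans_lt (max_lt h7 ((degree_modByMonic_lt _ hmon).trans_le ?_))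
    rw [degree_eq_natDegree hmon.ne_zero, T.poly_natDegree]
    rfl
  have h13 : ‖(P - Q %ₘ T.poly π).coeff n‖ ≤ 1 := by
    have h14 : ∀ i, ‖(P - Q %ₘ T.poly π).eval (T.r i π)‖ ≤ ‖π‖ ^ k := fun i => by
      have e1 := congrArg (eval (T.r i π)) (modByMonic_add_div Q (T.poly π))
      rw [eval_add, eval_mul, T.poly_eval_self h6 (T.mem i), zero_mul, add_zero] at e1
      rw [eval_sub, h9 _ (T.mem i), e1, ← PB_eval h10 (T.mem i), ← map_sub, niso]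
      exact h11
    rw [Lagrange.eq_interpolate hinj h12, Lagrange.interpolate_apply, finset_sum_coeff]
    refine (norm_sum_le_of_le (n := fun i => ‖π‖ ^ k *
      ‖(Lagrange.basis Finset.univ (fun i => T.r i π) i).coeff n‖) _ fun i _ => ?_).trans ?_
    · rw [coeff_C_mul, norm_mul]
      exact mul_le_mul_of_nonneg_right (h14 i) (norm_nonneg _)
    · rw [← Finset.mul_sum, ← hc]
      rw [lt_div_iff₀ (by positivity)] at hk
      nlinarith [pow_nonneg hπ.le k]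
  have := nadd_le h13 (mem_PB.1 (mod_PB h10 (poly_PB T h6 h3.le) hmon) n).2
  rwa [coeff_sub, sub_add_cancel] at this

section cyc

variable {z : ℕ → Om p} (hz : Cyc p z)
include hz

lemma Cyc.tot (a : ℕ) : ‖z (a + 1) - 1‖ ^ Nat.totient (p ^ (a + 1)) = ‖(p : Om p)‖ := by
  rw [Nat.totient_prime_pow_succ hp.out, mul_comm, pow_mul]
  exact hz.ee_pow' a

lemma Cyc.idx_ine (a : ℕ) :
    IdxLe (Ine p) (St ℚ_[p] (z (a + 1))) (Nat.totient (p ^ (a + 1))) := by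
  rw [← (hz.prim (a + 1)).card_primitiveRoots]
  exact idx_of_finset _ fun σ _ => (mem_primitiveRoots (pow_pos hp.out.pos _)).2
    ((hz.prim (a + 1)).map_of_injective σ.injective)

lemma Cyc.trans_ine (a : ℕ) {ξ : Om p} (h : IsPrimitiveRoot ξ (p ^ (a + 1))) :
    ∃ σ ∈ Ine p, σ (z (a + 1)) = ξ := by
  classical
  by_contra hc
  have h1 := ram_le (idx_of_finset (B := Ine p) (y := z (a + 1))
    ((primitiveRoots (p ^ (a + 1)) (Om p)).erase ξ) fun σ hσ => Finset.mem_erase.2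
      ⟨fun h' => hc ⟨σ, hσ, h'⟩, (mem_primitiveRoots (pow_pos hp.out.pos _)).2
        ((hz.prim (a + 1)).map_of_injective σ.injective)⟩) ((Fx.st _).sub Fx.one) (hz.b_lt _)
  rw [← hz.tot a, pow_le_pow_iff_right_of_lt_one₀ (hz.b_pos a) (hz.b_lt _),
    ← h.card_primitiveRoots] at h1
  exact absurd h1 (not_le.2 (Finset.card_erase_lt_of_mem
    ((mem_primitiveRoots (pow_pos hp.out.pos _)).2 h)))

lemma Cyc.close (a : ℕ) {σ : LA p} (h1 : σ ∈ Ine p) (h2 : σ (z a) = z a) {x : Om p}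
    (hx : x ∈ OB (Ine p ⊓ St ℚ_[p] (z (a + 1)))) : ‖σ x - x‖ ≤ ‖z 1 - 1‖ := by
  have h3 : IdxLe (Ine p) (Ine p ⊓ St ℚ_[p] (z (a + 1))) _ := (hz.idx_ine a).restrict le_rfl le_rfl
  obtain ⟨P, h4, rfl⟩ := span_unif le_rfl inf_le_left h3
    ((Fx.of_le inf_le_right).sub Fx.one) (norm_pos_iff.1 (hz.b_pos a)) (hz.b_lt _) (fun y hy h => by
      have := ram_le h3 hy h
      rw [← hz.tot a] at this
      exact le_of_pow_le_pow_left₀ (Nat.totient_pos.2 (pow_pos hp.out.pos _)).ne'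
        (norm_nonneg _) this) hx
  obtain ⟨ω, h5, h6⟩ := mult_ex σ (hz.ne hp.out (a + 1)) (n := p) (by rw [hz.pw, h2])
  have := eval_sub_le (P := P) (P' := P) (x := z (a + 1) - 1) (x' := σ (z (a + 1) - 1))
    (η := ‖z 1 - 1‖) (R := 1) (C := 1) (norm_nonneg _) zero_le_one
    (fun k => by simpa using (mem_PB.1 h4 k).2) (fun k => by simp; positivity) (hz.b_lt _).le
    (by rw [niso]; exact (hz.b_lt _).le) (by
      rw [map_sub, map_one, sub_sub_sub_cancel_right, h6, ← sub_one_mul, norm_mul, hz.norm]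
      by_cases h7 : ω = 1
      · simp [h7]
      · rw [hz.b0_eq h5 h7])
  rwa [mul_one, ← PB_eval h4 h1] at this

end cyc

variable (p) in
/-- restriction of local automorphisms -/
noncomputable def res : LA p →* GA where
  toFun σ := (res_ex σ).choose
  map_one' := AlgEquiv.ext fun x => (io p).injective ((res_ex 1).choose_spec x)
  map_mul' a b := AlgEquiv.ext fun x => (io p).injective (((res_ex _).choose_spec x).trans
    (((res_ex a).choose_spec _).trans (congrArg a ((res_ex b).choose_spec x))).symm)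

lemma io_res (σ : LA p) (x : Qb) : io p (res p σ x) = σ (io p x) := (res_ex σ).choose_spec x

end Pool.Agent.Lib.MP_f61260_nt
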