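import Pool.Agent.Lib.MP_f61260_nt.Ad3

/-! The local extrapolation lemma with multiplicities. -/

set_option autoImplicit false
set_option maxHeartbeats 400000

namespace Pool.Agent.Lib.MP_f61260_nt

open Polynomial

section Ord

variable {σ : Type} {F : Type} [Field F] {S : Finset (σ → ℤ)} {y : (σ → ℤ) → F}

lemma Ord.congr {t : ℕ} {w w' : (σ → ℤ) → F} (h : Ord S y t w) (h' : ∀ a ∈ S, w' a = w a) :
    Ord S y t w' := by
  induction t generalizing w w' with
  | zero => trivial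
  | succ t ih => exact ⟨(Finset.sum_congr rfl fun a ha => by rw [h' a ha]).trans h.1,
      fun i => ih (h.2 i) fun a ha => by rw [h' a ha]⟩

lemma Ord.pred {t : ℕ} {w : (σ → ℤ) → F} (h : Ord S y (t + 1) w) : Ord S y t w := by
  induction t generalizing w with
  | zero => trivial
  | succ t ih => exact ⟨h.1, fun i => ih (h.2 i)⟩

lemma Ord.add {t : ℕ} {w w' : (σ → ℤ) → F} (h : Ord S y t w) (h' : Ord S y t w') :
    Ord S y t fun a => w a + w' a := by
  induction t generalizing w w' with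
  | zero => trivial
  | succ t ih => exact ⟨by simp only [add_mul, Finset.sum_add_distrib, h.1, h'.1, add_zero],
      fun i => (ih (h.2 i) (h'.2 i)).congr fun a _ => mul_add _ _ _⟩

lemma Ord.smul {t : ℕ} {w : (σ → ℤ) → F} (h : Ord S y t w) (c : F) :
    Ord S y t fun a => c * w a := by
  induction t generalizing w with
  | zero => trivial
  | succ t ih => exact ⟨by simp only [mul_assoc, ← Finset.mul_sum, h.1, mul_zero],
      fun i => (ih (h.2 i)).congr fun a _ => mul_left_comm _ _ _⟩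

lemma Ord.aff {t : ℕ} {w : (σ → ℤ) → F} (h : Ord S y (t + 1) w) (b : F) (k : σ → F)
    (s : Finset σ) : Ord S y t fun a => (b + ∑ i ∈ s, k i * a i) * w a := by
  classical
  induction s using Finset.induction_on with
  | empty => exact (h.pred.smul b).congr fun a _ => by simp
  | insert i s hi ih =>
    exact (ih.add ((h.2 i).smul (k i))).congr fun a _ => by rw [Finset.sum_insert hi]; ring

lemma Ord.choose [CharZero F] {t : ℕ} {w : (σ → ℤ) → F} (h : Ord S y t w) {m : (σ → ℤ) → ℕ}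
    {i : σ} {b : F} (hm : ∀ a ∈ S, (m a : F) = b + a i) (l : ℕ) :
    Ord S y (t - l) fun a => ((m a).choose l : F) * w a := by
  induction l with
  | zero => exact h.congr fun a _ => by simp
  | succ l ih =>
    rcases h0 : t - (l + 1) with _ | r
    · trivial
    rw [show t - l = r + 1 + 1 by omega] at ih
    refine ((ih.aff (b - l) (fun _ => 1) {i}).smul ((l : F) + 1)⁻¹).congr fun a ha => ?_
    have h1 : (l : F) + 1 ≠ 0 := by exact_mod_cast l.succ_ne_zero
    have h2 : ((m a).choose (l + 1) : F) * (l + 1) = (m a).choose l * (m a - l) := by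
      rcases le_or_gt l (m a) with h' | h'
      · rw [← Nat.cast_sub h']
        exact_mod_cast congrArg (Nat.cast : ℕ → F) (Nat.choose_succ_right_eq (m a) l)
      · rw [Nat.choose_eq_zero_of_lt h', Nat.choose_eq_zero_of_lt (by omega)]
        simp
    rw [Finset.sum_singleton, eq_inv_mul_iff_mul_eq₀ h1, ← mul_assoc, mul_comm (_ + 1), h2, hm a ha]
    ring

lemma zpow_fsum {κ : Type} {x : F} (h : x ≠ 0) (s : Finset κ) (f : κ → ℤ) :
    x ^ ∑ i ∈ s, f i = ∏ i ∈ s, x ^ f i := by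
  classical
  induction s using Finset.induction_on with
  | empty => simp
  | insert i s hi ih => rw [Finset.sum_insert hi, Finset.prod_insert hi, zpow_add₀ h, ih]

lemma ld_prod {κ : Type} (s : Finset κ) {H : F[X]} {g f : κ → F[X]}
    (h : ∀ j ∈ s, H * derivative (g j) = f j * g j) :
    H * derivative (∏ j ∈ s, g j) = (∑ j ∈ s, f j) * ∏ j ∈ s, g j := by
  classical
  induction s using Finset.induction_on with
  | empty => simp
  | insert j s hj ih =>
    rw [Finset.prod_insert hj, Finset.sum_insert hj, derivative_mul, mul_add, ← mul_assoc,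
      h j (by simp), mul_left_comm H, ih fun i hi => h i (by simp [hi])]
    ring

lemma ld_pow {H g f : F[X]} (h : H * derivative g = f * g) (n : ℕ) :
    H * derivative (g ^ n) = C (n : F) * f * g ^ n := by
  simpa using ld_prod (Finset.range n) (g := fun _ => g) (f := fun _ => f) fun _ _ => h

lemma pow_succ_dvd [CharZero F] {G : F[X]} {x : F} {t : ℕ} (h : (X - C x) ^ t ∣ derivative G)
    (h0 : G.eval x = 0) : (X - C x) ^ (t + 1) ∣ G := by
  by_cases h1 : derivative G = 0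
  · rw [eq_C_of_derivative_eq_zero h1] at h0 ⊢
    rw [eval_C] at h0
    simp [h0]
  have h2 : G ≠ 0 := fun h => h1 (by simp [h])
  rw [← le_rootMultiplicity_iff h2]
  rw [← le_rootMultiplicity_iff h1, derivative_rootMultiplicity_of_root h0] at h
  have := (rootMultiplicity_pos h2).2 h0
  omega

lemma Ord.dvd [CharZero F] {κ : Type} [Fintype κ] [Fintype σ] {A : κ → F[X]} {x c0 : F}
    (hA : ∀ j, (A j).eval x ≠ 0) {m : κ → (σ → ℤ) → ℕ} {b : κ → F} {k : κ → σ → F}
    (hm : ∀ j, ∀ a ∈ S, (m j a : F) = b j + ∑ i, k j i * a i)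
    (hy : ∀ a ∈ S, (∏ j, A j ^ m j a).eval x = c0 * y a) {t : ℕ} {w : (σ → ℤ) → F}
    (h : Ord S y t w) : (X - C x) ^ t ∣ ∑ a ∈ S, C (w a) * ∏ j, A j ^ m j a := by
  choose Q hQ using fun j => Finset.dvd_prod_of_mem A (Finset.mem_univ j)
  have h1 : IsCoprime (X - C x) (∏ j, A j) :=
    (irreducible_X_sub_C x).coprime_iff_not_dvd.2 (by
      rw [dvd_iff_isRoot, IsRoot, eval_prod]
      exact Finset.prod_ne_zero_iff.2 fun j _ => hA j)
  induction t generalizing w with
  | zero => simp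
  | succ t ih =>
    refine pow_succ_dvd (h1.pow_left.dvd_of_dvd_mul_left ?_) ?_
    · have : (∏ j, A j) * derivative (∑ a ∈ S, C (w a) * ∏ j, A j ^ m j a) =
          ∑ j, Q j * derivative (A j) * ∑ a ∈ S, C ((b j + ∑ i, k j i * a i) * w a) *
            ∏ j, A j ^ m j a := by
        simp only [derivative_sum, Finset.mul_sum]
        rw [Finset.sum_comm]
        refine Finset.sum_congr rfl fun a ha => ?_
        rw [derivative_C_mul, mul_left_comm, ld_prod _ (f := fun j => C (m j a : F) *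
          (Q j * derivative (A j))) fun j _ => ld_pow (by rw [hQ j]; ring) _, Finset.sum_mul,
          Finset.mul_sum]
        refine Finset.sum_congr rfl fun j _ => ?_
        rw [← hm j a ha, C_mul]
        ring
      rw [this]
      exact Finset.dvd_sum fun j _ => (ih (h.aff _ _ _)).mul_left _
    · rw [eval_finset_sum, Finset.sum_congr rfl fun a ha => by
        rw [eval_mul, eval_C, hy a ha, mul_left_comm], ← Finset.mul_sum, h.1, mul_zero]

end Ord

variable {p : ℕ} [hp : Fact p.Prime] {B : Subgroup (LA p)} {η : ℝ} {φ : LA p}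

lemma PB_norm {P : (Om p)[X]} (h : P ∈ PB B) (τ : LA p) {x : Om p} (hx : ‖x‖ ≤ 1) :
    ‖(P.map (τ : Om p →+* Om p)).eval x‖ ≤ 1 :=
  eval_le zero_le_one fun k => by
    rw [coeff_map]
    exact mul_le_one₀ ((niso τ _).trans_le (mem_PB.1 h k).2) (by positivity)
      (pow_le_one₀ (norm_nonneg _) hx)

lemma PB_frob (nB : ∀ τ, ∀ b ∈ B, τ⁻¹ * b * τ ∈ B) (hη : ∀ x, Fx B x → ‖x‖ < 1 → ‖x‖ ≤ η)
    (hφ : ∀ x, ‖x‖ ≤ 1 → ‖φ x - x ^ p‖ < 1) {P : (Om p)[X]} (h : P ∈ PB B) {x : Om p}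
    (hx : ‖x‖ ≤ 1) : ‖P.eval x ^ p - (P.map (φ : Om p →+* Om p)).eval (x ^ p)‖ ≤ η := by
  have h0 := hη _ fx_p np_lt
  have h1 := sum_pow_q hp.out 1 (Finset.range (P.natDegree + 1)) (fun n => P.coeff n * x ^ n)
    zero_le_one fun n _ => by
      rw [norm_mul, norm_pow]
      exact mul_le_one₀ (mem_PB.1 h n).2 (by positivity) (pow_le_one₀ (norm_nonneg _) hx)
  rw [← eval_eq_sum_range, pow_one, one_pow, mul_one] at h1
  have h2 : ‖∑ n ∈ Finset.range (P.natDegree + 1), ((P.coeff n * x ^ n) ^ p -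
      φ (P.coeff n) * (x ^ p) ^ n)‖ ≤ η := nsum_le ((norm_nonneg _).trans h0) fun n _ => by
    have h3 := mem_PB.1 h n
    have h4 : Fx B (φ (P.coeff n)) := fun b hb => by
      conv_rhs => rw [← h3.1 _ (nB φ b hb)]
      rw [← AlgEquiv.mul_apply, ← AlgEquiv.mul_apply, ← mul_assoc, mul_inv_cancel_left]
    rw [mul_pow, ← pow_mul, mul_comm n, pow_mul, ← sub_mul, norm_mul, norm_sub_rev]
    refine (mul_le_of_le_one_right (norm_nonneg _) ?_).trans
      (hη _ (h4.sub (h3.1.pow p)) (hφ _ h3.2))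
    rw [norm_pow, norm_pow]
    exact pow_le_one₀ (by positivity) (pow_le_one₀ (norm_nonneg _) hx)
  have := nadd_le (h1.trans h0) h2
  rw [Finset.sum_sub_distrib, sub_add_sub_cancel] at this
  rw [eval_map, eval₂_eq_sum_range]
  exact this

lemma schwarz (nB : ∀ τ, ∀ b ∈ B, τ⁻¹ * b * τ ∈ B) (hη : ∀ x, Fx B x → ‖x‖ < 1 → ‖x‖ ≤ η)
    (hφ : ∀ x, ‖x‖ ≤ 1 → ‖φ x - x ^ p‖ < 1) {G : (Om p)[X]} (h : G ∈ PB B) {x : Om p}
    (hx : ‖x‖ ≤ 1) {t : ℕ} (hd : (X - C x) ^ t ∣ G) :
    ‖(G.map (φ : Om p →+* Om p)).eval (x ^ p)‖ ≤ η ^ t := by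
  obtain ⟨_, T, -⟩ := idx_alg (B := B) (Algebra.IsIntegral.isIntegral (R := ℚ_[p]) x)
  have hmon : (T.poly x).Monic := monic_prod_of_monic _ _ fun i _ => monic_X_sub_C _
  have h1 : T.poly x ^ t ∣ G := by
    rw [Trans.poly, ← Finset.prod_pow]
    refine Finset.prod_dvd_of_coprime (fun i _ j _ hij =>
      (pairwise_coprime_X_sub_C (T.inj fun _ _ h => h) hij).pow) fun i _ => ?_
    simpa [PB_map h (T.mem i)] using Polynomial.map_dvd (T.r i : Om p →+* Om p) hd
  have h2 := poly_PB T (Fx.st x) hx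
  have h3 : G /ₘ T.poly x ^ t ∈ PB B := by
    obtain ⟨G, rfl⟩ := h
    obtain ⟨E, hE⟩ := pow_mem h2 t
    rw [← hE]
    exact ⟨G /ₘ E, map_divByMonic _ (monic_of_injective Subtype.val_injective
      (show (mapRingHom (OB B).subtype E).Monic from hE ▸ hmon.pow t))⟩
  have h4 := PB_frob nB hη hφ h2 hx
  have h5 : (T.poly x).eval x = 0 := T.poly_eval_self (Fx.st x) B.one_mem
  rw [h5, zero_pow hp.out.ne_zero, zero_sub, norm_neg] at h4
  rw [← modByMonic_add_div G (T.poly x ^ t), (modByMonic_eq_zero_iff_dvd (hmon.pow t)).2 h1,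
    zero_add, Polynomial.map_mul, Polynomial.map_pow, eval_mul, eval_pow, norm_mul, norm_pow]
  exact (mul_le_of_le_one_right (by positivity) (PB_norm h3 φ (by
    rw [norm_pow]; exact pow_le_one₀ (norm_nonneg _) hx))).trans
    (pow_le_pow_left₀ (norm_nonneg _) h4 t)

theorem padT {σ : Type} [Fintype σ] {J : ℕ} (hB : B ≤ Ine p) (hJ : IdxLe (Ine p) B J)
    (nB : ∀ τ, ∀ b ∈ B, τ⁻¹ * b * τ ∈ B) (hη : ∀ x, Fx B x → ‖x‖ < 1 → ‖x‖ ≤ η) (hη1 : η < 1)
    (hφ : ∀ x, ‖x‖ ≤ 1 → ‖φ x - x ^ p‖ < 1) {y : σ → Om p} (hy : ∀ i, y i ≠ 0)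
    {S : Finset (σ → ℤ)} {T : ℕ} {c : (σ → ℤ) → Om p} (hc : ∀ a ∈ S, c a ∈ OB B)
    (hO : Ord S (mon y) T c) {M : ℝ} (hM0 : 0 ≤ M) (hM : ∀ a ∈ S, ‖mon y a‖ ≤ M) :
    ‖∑ a ∈ S, φ (c a) * mon y a ^ p‖ ≤ η ^ T * M ^ p := by
  classical
  have hη0 : 0 ≤ η := (norm_nonneg _).trans (hη _ fx_p np_lt)
  rcases S.eq_empty_or_nonempty with rfl | hS
  · simp only [Finset.sum_empty, norm_zero]; positivity
  choose N hN using fun i => idx_alg (B := B) (Algebra.IsIntegral.isIntegral (R := ℚ_[p]) (y i))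
  have hA : IdxLe B (B ⊓ ⨅ i, St ℚ_[p] (y i)) _ := (IdxLe.iInf hN).restrict le_rfl le_rfl
  obtain ⟨π, h1, h2, h3, h4⟩ := exists_max (hJ.trans hA hB inf_le_left)
  have hπ := norm_pos_iff.2 h2
  have h5 : ∀ i, ∃ (k : ℤ) (A : (Om p)[X]), A ∈ PB B ∧ ‖A.eval π‖ = 1 ∧
      y i = π ^ k * A.eval π := fun i => by
    obtain ⟨n, h5, h6⟩ := exists_mem_Ioc_zpow (norm_pos_iff.2 (hy i)) (one_lt_inv₀ hπ |>.2 h3)
    have h7 : Fx (B ⊓ ⨅ i, St ℚ_[p] (y i)) (y i * π ^ (n + 1)) :=
      (Fx.of_le (inf_le_right.trans (iInf_le (fun i => St ℚ_[p] (y i)) i))).mul (h1.zpow _)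
    rw [inv_zpow, inv_lt_iff_one_lt_mul₀ (zpow_pos hπ _)] at h5
    rw [inv_zpow, ← one_div, le_div_iff₀ (zpow_pos hπ _), ← norm_zpow, ← norm_mul] at h6
    obtain ⟨A, h8, h9⟩ := span_unif hB inf_le_left hA h1 h2 h3 h4 ⟨h7, h6⟩
    refine ⟨-(n + 1), A, h8, ?_, by rw [h9, zpow_neg]; field_simp⟩
    rw [h9]
    refine le_antisymm h6 (not_lt.1 fun h => not_lt.2 (h4 _ h7 h) ?_)
    rw [norm_mul, norm_zpow, zpow_add_one₀ hπ.ne', ← mul_assoc]
    exact lt_mul_of_one_lt_left hπ h5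
  choose k A h5 h6 h7 using h5
  have hu : ∀ i, (A i).eval π ≠ 0 := fun i => norm_pos_iff.1 (by rw [h6]; exact one_pos)
  obtain ⟨a0, ha0, h8⟩ := S.exists_min_image (fun a => ∑ i, k i * a i) hS
  obtain ⟨ν, hν⟩ : ∃ ν : ℕ, ∀ a ∈ S, ∀ i, (a i).natAbs ≤ ν :=
    ⟨S.sup fun a => Finset.univ.sup fun i => (a i).natAbs, fun a ha i =>
      (Finset.le_sup (f := fun i => (a i).natAbs) (Finset.mem_univ i)).trans
        (Finset.le_sup (f := fun a => Finset.univ.sup fun i => (a i).natAbs) ha)⟩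
  let m : Option σ → (σ → ℤ) → ℕ := fun j a =>
    j.elim (∑ i, k i * a i - ∑ i, k i * a0 i).toNat fun i => (a i + ν).toNat
  have m1 : ∀ a ∈ S, (m none a : ℤ) = ∑ i, k i * a i - ∑ i, k i * a0 i := fun a ha =>
    Int.toNat_of_nonneg (sub_nonneg.2 (h8 a ha))
  have m2 : ∀ a ∈ S, ∀ i, (m (some i) a : ℤ) = a i + ν := fun a ha i =>
    Int.toNat_of_nonneg (by have := hν a ha i; omega)
  have m3 : ∀ a ∈ S, ∀ i, (m (some i) a : Om p) = ν + a i := fun a ha i => by
    rw [← Int.cast_natCast, m2 a ha, add_comm]; simp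
  have hmon : ∀ a, mon y a = π ^ (∑ i, k i * a i) * ∏ i, (A i).eval π ^ a i := fun a => by
    rw [mon, zpow_fsum h2, ← Finset.prod_mul_distrib]
    exact Finset.prod_congr rfl fun i _ => by rw [h7 i, mul_zpow, zpow_mul]
  obtain ⟨c0, hc0⟩ : ∃ c0, c0 = (π ^ (∑ i, k i * a0 i))⁻¹ * ∏ i, (A i).eval π ^ ν := ⟨_, rfl⟩
  have h9 : ∀ a ∈ S, π ^ m none a * ∏ i, (A i).eval π ^ m (some i) a = c0 * mon y a := by
    intro a ha
    rw [hmon, hc0, ← zpow_natCast, m1 a ha, zpow_sub₀ h2, Finset.prod_congr rfl fun i _ => by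
      rw [← zpow_natCast, m2 a ha, zpow_add₀ (hu i), zpow_natCast], Finset.prod_mul_distrib]
    ring
  have h10 : ‖c0‖ * ‖mon y a0‖ = 1 := by
    rw [← norm_mul, ← h9 a0 ha0]
    have : m none a0 = 0 := by simp [m]
    simp [this, h6]
  obtain ⟨v, hv⟩ : ∃ v : σ → Om p, v = fun i => ((A i).map (φ : Om p →+* Om p)).eval (π ^ p) :=
    ⟨_, rfl⟩
  have h11 : ∀ i, ∃ ε, ‖ε‖ ≤ η ∧ (A i).eval π ^ p = v i * (ε + 1) := fun i => by
    have h11 : ‖(A i).eval π ^ p - v i‖ ≤ η := hv ▸ PB_frob nB hη hφ (h5 i) h3.le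
    have h12 : ‖v i‖ = 1 := by
      rw [norm_eq_of_sub_lt (y := (A i).eval π ^ p), norm_pow, h6, one_pow]
      rw [norm_sub_rev, norm_pow, h6, one_pow]
      exact h11.trans_lt hη1
    have h13 : v i ≠ 0 := norm_pos_iff.1 (by rw [h12]; exact one_pos)
    exact ⟨((A i).eval π ^ p - v i) / v i, by rwa [norm_div, h12, div_one], by field_simp; ring⟩
  choose ε h11 h12 using h11
  have key : ∀ (s : Finset σ) (t : ℕ) (c : (σ → ℤ) → Om p), (∀ a ∈ S, c a ∈ OB B) →
      Ord S (mon y) t c → ‖∑ a ∈ S, φ (c a) * ((π ^ p) ^ m none a * (∏ i, v i ^ m (some i) a) *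
        ∏ i ∈ s, (ε i + 1) ^ m (some i) a)‖ ≤ η ^ t := by
    intro s
    induction s using Finset.induction_on with
    | empty =>
      intro t c hc hO
      have := schwarz nB hη hφ (sum_mem fun a ha => mul_mem (C_PB (hc a ha)) (prod_mem fun j _ =>
        pow_mem (show (j.elim X A : (Om p)[X]) ∈ PB B by
          cases j with
          | none => exact X_PB
          | some i => exact h5 i) (m j a))) h3.le (hO.dvd (c0 := c0) (b := fun j =>
            j.elim (-(∑ i, k i * a0 i : ℤ) : Om p) fun _ => ν) (k := fun j i' =>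
              j.elim (k i' : Om p) fun i => if i' = i then 1 else 0) (fun j => ?_)
              (fun j a ha => ?_) fun a ha => ?_)
      · simpa [Polynomial.map_sum, Polynomial.map_prod, eval_finset_sum, eval_prod, hv] using this
      · cases j with
        | none => simpa using h2
        | some i => exact hu i
      · cases j with
        | none => rw [← Int.cast_natCast, m1 a ha]; simp [neg_add_eq_sub]
        | some i => simp [m3 a ha]
      · simp [eval_prod, h9 a ha]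
    | insert i s hi ih =>
      intro t c hc hO
      have : ∑ a ∈ S, φ (c a) * ((π ^ p) ^ m none a * (∏ i, v i ^ m (some i) a) *
          ∏ i ∈ insert i s, (ε i + 1) ^ m (some i) a) = ∑ l ∈ Finset.range (2 * ν + 1), ε i ^ l *
          ∑ a ∈ S, φ (((m (some i) a).choose l : Om p) * c a) * ((π ^ p) ^ m none a *
            (∏ i, v i ^ m (some i) a) * ∏ i ∈ s, (ε i + 1) ^ m (some i) a) := by
        simp only [Finset.mul_sum]
        rw [Finset.sum_comm]
        refine Finset.sum_congr rfl fun a ha => ?_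
        have h13 : (ε i + 1) ^ m (some i) a =
            ∑ l ∈ Finset.range (2 * ν + 1), ε i ^ l * (m (some i) a).choose l := by
          rw [add_pow]
          simp only [one_pow, mul_one]
          refine Finset.sum_subset (Finset.range_mono ?_) fun l _ hl => ?_
          · have := m2 a ha i
            have := hν a ha i
            omega
          · rw [Nat.choose_eq_zero_of_lt (by simpa using hl), Nat.cast_zero, mul_zero]
        rw [Finset.prod_insert hi, h13, Finset.sum_mul, Finset.mul_sum, Finset.mul_sum]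
        refine Finset.sum_congr rfl fun l _ => ?_
        rw [map_mul, map_natCast]
        ring
      rw [this]
      refine nsum_le (by positivity) fun l _ => ?_
      rw [norm_mul, norm_pow]
      refine (mul_le_mul (pow_le_pow_left₀ (norm_nonneg _) (h11 i) l) (ih _ _ (fun a ha =>
        mul_mem (natCast_mem _ _) (hc a ha)) (hO.choose (fun a ha => m3 a ha i) l))
        (norm_nonneg _) (by positivity)).trans ?_
      rw [← pow_add]
      exact pow_le_pow_of_le_one hη0 hη1.le (by omega)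
  have h13 := key Finset.univ T c hc hO
  rw [Finset.sum_congr rfl (g := fun a => c0 ^ p * (φ (c a) * mon y a ^ p)) fun a ha => by
    rw [mul_left_comm (c0 ^ p), ← mul_pow, ← h9 a ha, mul_assoc, ← Finset.prod_mul_distrib, mul_pow,
      ← Finset.prod_pow, pow_right_comm]
    congr 2
    exact Finset.prod_congr rfl fun i _ => by rw [← mul_pow, ← h12, pow_right_comm],
    ← Finset.mul_sum, norm_mul, norm_pow] at h13
  calc _ = (‖c0‖ * ‖mon y a0‖) ^ p * _ := by rw [h10, one_pow, one_mul]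
    _ = ‖c0‖ ^ p * ‖∑ a ∈ S, φ (c a) * mon y a ^ p‖ * ‖mon y a0‖ ^ p := by ring
    _ ≤ _ := mul_le_mul h13 (pow_le_pow_left₀ (norm_nonneg _) (hM a0 ha0) p) (by positivity)
      (by positivity)

end Pool.Agent.Lib.MP_f61260_nt
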