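import Pool.Agent.Lib.MP_f61260_nt.Ad4

/-! Global Frobenius data, the product formula and echelon forms. -/

set_option autoImplicit false
set_option maxHeartbeats 400000

namespace Pool.Agent.Lib.MP_f61260_nt

open Real Matrix

/-- prime numbers -/
abbrev Pr : Type := {p : ℕ // p.Prime}

/-- a Frobenius element together with the extrapolation property -/
structure Frob (σ : Type) [Fintype σ] (l : Pr) (U : Subgroup GA) (φ : GA) (η : ℝ) : Prop where
  iso : ∀ x, av (some l) (φ x) = av (some l) x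
  ext : ∀ y : σ → Qb, (∀ i, y i ≠ 0) → ∀ (S : Finset (σ → ℤ)) (T : ℕ) (c : (σ → ℤ) → Qb),
    (∀ a ∈ S, Fx U (c a) ∧ av (some l) (c a) ≤ 1) → Ord S (mon y) T c → ∀ M : ℝ, 0 ≤ M →
    (∀ a ∈ S, av (some l) (mon y a) ≤ M) →
    av (some l) (∑ a ∈ S, φ (c a) * mon y a ^ l.1) ≤ η ^ T * M ^ l.1

lemma Ord.map {σ F F' : Type} [Field F] [Field F'] (f : F →+* F') {S : Finset (σ → ℤ)}
    {y : (σ → ℤ) → F} {t : ℕ} {w : (σ → ℤ) → F} (h : Ord S y t w) :
    Ord S (fun a => f (y a)) t fun a => f (w a) := by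
  induction t generalizing w with
  | zero => trivial
  | succ t ih => exact ⟨by simpa using congrArg f h.1,
      fun i => (ih (h.2 i)).congr fun a _ => by simp⟩

lemma frob_ex (σ : Type) [Fintype σ] {p : ℕ} [hp : Fact p.Prime] {U : Subgroup GA} (hU : Ab U)
    {J : ℕ} (hJ : IdxLe (Ine p) (U.comap (res p)) J) {lm : ℝ} (h0 : 0 < lm)
    (h1 : lm * J ≤ log p) : ∃ φ, Frob σ ⟨p, hp.out⟩ U φ (exp (-lm)) := by
  obtain ⟨φ, hφ⟩ := exists_frob (p := p)
  have hJ' : IdxLe (Ine p) (Ine p ⊓ U.comap (res p)) J := hJ.restrict le_rfl le_rfl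
  have hJ0 : J ≠ 0 := let ⟨T, hT⟩ := hJ; (T.card_pos.trans_le hT).ne'
  refine ⟨res p φ, fun x => by rw [av_some, av_some, io_res, niso],
    fun y hy S T c hc hO M hM0 hM => ?_⟩
  have h2 : (fun a => io p (mon y a)) = mon fun i => io p (y i) := funext fun a => map_mon _ _ _
  have := padT inf_le_left hJ' (fun τ b hb => ⟨ine_conj τ hb.1, by
      have := hU.conj (res p τ) hb.2
      rwa [← map_inv, ← map_mul, ← map_mul] at this⟩) (η := exp (-lm)) (fun x hx h => by
      refine le_of_pow_le_pow_left₀ hJ0 (exp_pos _).le ((ram_le hJ' hx h).trans ?_)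
      rw [← pow_one ‖(p : Om p)‖, np_exp, ← exp_nat_mul, exp_le_exp]
      push_cast
      linarith) (by simpa using h0) hφ (y := fun i => io p (y i))
    (fun i => (_root_.map_ne_zero _).2 (hy i)) (c := fun a => io p (c a))
    (fun a ha => ⟨fun τ hτ => by rw [← io_res, (hc a ha).1 _ hτ.2], (hc a ha).2⟩)
    (h2 ▸ hO.map (io p).toRingHom) hM0 fun a ha => by rw [← h2]; exact hM a ha
  rw [av_some, map_sum]
  simpa only [map_mul, map_pow, io_res, ← h2] using this

lemma av_sum (l : Pr) {κ : Type} {s : Finset κ} {f : κ → Qb} {C : ℝ} (hC : 0 ≤ C)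
    (h : ∀ i ∈ s, av (some l) (f i) ≤ C) : av (some l) (∑ i ∈ s, f i) ≤ C := by
  have := Fact.mk l.2
  rw [av_some l.1, map_sum]
  exact nsum_le hC h

lemma av_sub (l : Pr) {x y : Qb} {C : ℝ} (h : av (some l) x ≤ C) (h' : av (some l) y ≤ C) :
    av (some l) (x - y) ≤ C := by
  have := Fact.mk l.2
  rw [av_some l.1, map_sub]
  exact nsub_le h h'

lemma av_int (l : Pr) (n : ℤ) : av (some l) n ≤ 1 := by
  have := Fact.mk l.2
  rw [av_some l.1, map_intCast]
  exact IsUltrametricDist.norm_intCast_le_one _ n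

lemma av_term (v : Pl) {κ : Type} [Fintype κ] [DecidableEq κ] (M : Matrix κ κ Qb) {β : κ → ℝ}
    (h : ∀ i k, av v (M i k) ≤ β k) (s : Equiv.Perm κ) :
    av v (((Equiv.Perm.sign s : ℤ) : Qb) * ∏ i, M (s i) i) ≤ ∏ k, β k := by
  rw [map_mul, map_prod, av_root v two_pos (by
    rcases Int.units_eq_one_or (Equiv.Perm.sign s) with h | h <;> simp [h]), one_mul]
  exact Finset.prod_le_prod (fun i _ => av_nonneg _ _) fun i _ => h _ _

lemma av_det (l : Pr) {κ : Type} [Fintype κ] [DecidableEq κ] (M : Matrix κ κ Qb) {β : κ → ℝ}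
    (h : ∀ i k, av (some l) (M i k) ≤ β k) : av (some l) M.det ≤ ∏ k, β k := by
  rw [det_apply']
  exact av_sum l (Finset.prod_nonneg fun k _ => (av_nonneg _ _).trans (h k k))
    fun s _ => av_term _ M h s

lemma av_det' {κ : Type} [Fintype κ] [DecidableEq κ] (M : Matrix κ κ Qb) {β : κ → ℝ}
    (h : ∀ i k, av none (M i k) ≤ β k) :
    av none M.det ≤ (Fintype.card κ).factorial * ∏ k, β k := by
  rw [det_apply', av_none, AddSubmonoidClass.coe_finset_sum]
  refine (norm_sum_le _ _).trans ((Finset.sum_le_card_nsmul _ _ _ fun s _ =>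
    av_term none M h s).trans ?_)
  rw [Finset.card_univ, Fintype.card_perm, nsmul_eq_mul]

/-- logarithmic size of a point at a place -/
noncomputable def Lg {σ : Type} [Fintype σ] (v : Pl) (g : GA) (y : σ → Qb) : ℝ :=
  ∑ i, |log (av v (g (y i)))|

lemma av_mon {σ : Type} [Fintype σ] (v : Pl) (g : GA) {y : σ → Qb} (hy : ∀ i, y i ≠ 0)
    {a : σ → ℤ} {ν : ℕ} (ha : ∀ i, |a i| ≤ ν) : av v (g (mon y a)) ≤ exp (ν * Lg v g y) := by
  rw [map_mon, mon, map_prod, Lg, Finset.mul_sum, exp_sum]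
  refine Finset.prod_le_prod (fun i _ => av_nonneg _ _) fun i _ => ?_
  have h := av_pos v ((_root_.map_ne_zero g).2 (hy i))
  rw [map_zpow₀, ← exp_log (zpow_pos h _), log_zpow, exp_le_exp]
  refine (le_abs_self _).trans ?_
  rw [abs_mul]
  exact mul_le_mul_of_nonneg_right (by exact_mod_cast ha i) (abs_nonneg _)

lemma prodf {κ ι σ : Type} [Fintype κ] [Fintype ι] [Fintype σ] {Δ : Qb} (hΔ : Δ ≠ 0)
    (y : σ → Qb) (h : κ → GA) (n : κ → ℝ) (C0 : ℝ) (l : ι → Pr) (g : ι → ℝ)
    (H : ∀ (τ : GA) (v : Pl), log (av v (τ Δ)) + ∑ j, (if v = some (l j) then g j else 0) ≤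
      (if v = none then C0 else 0) + ∑ k, n k * Lg v (τ * h k) y) :
    ∑ j, g j ≤ C0 + (∑ k, n k) * (2 * ∑ i, ht (y i)) := by
  classical
  have hs : ∀ (a : Pl) (c : ℝ), Function.HasFiniteSupport (fun v => if v = a then c else 0) ∧
      ∑ᶠ v, (if v = a then c else 0) = c := fun a c =>
    ⟨(Set.finite_singleton a).subset fun v hv => by
      by_contra h'
      exact hv (if_neg h'), by
      rw [finsum_eq_single _ a fun x hx => if_neg hx, if_pos rfl]⟩
  have hf : ∀ (c : ℝ) (x : Qb), Function.HasFiniteSupport fun v => c * |log (av v x)| :=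
    fun c x => fin_of (fun t => c * |log t|) (by simp) (by simp) _
  have hf' : ∀ (c : ℝ) (x : Qb), ∑ᶠ v, c * |log (av v x)| = c * (lam x + lam x⁻¹) := fun c x => by
    rw [← mul_finsum, lam, lam, ← finsum_add_distrib (fin_lam _) (fin_lam _)]
    refine congrArg _ (finsum_congr fun v => ?_)
    rw [map_inv₀, ← half_mul_log_add_log_abs, ← half_mul_log_add_log_abs, log_inv, abs_neg]
    ring
  have h1 : ∀ τ : GA, mu (τ Δ) + ∑ j, g j ≤
      C0 + ∑ k, ∑ i, n k * (lam (τ (h k (y i))) + lam (τ (h k (y i))⁻¹)) := fun τ => by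
    have h2 : Function.HasFiniteSupport fun v => ∑ j, (if v = some (l j) then g j else 0) :=
      Function.HasFiniteSupport.sum (fun j => (hs _ _).1) _
    have h3 : ∀ k, Function.HasFiniteSupport fun v => ∑ i, n k * |log (av v (τ (h k (y i))))| :=
      fun k => Function.HasFiniteSupport.sum (fun i => hf _ _) _
    have h4 := Function.HasFiniteSupport.sum h3 Finset.univ
    have := finsum_le_finsum' ((fin_mu (τ Δ)).add h2) ((hs none C0).1.add h4) fun v => by
      simpa only [Lg, Finset.mul_sum, AlgEquiv.mul_apply, Pi.add_apply] using H τ v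
    simp only [Pi.add_apply] at this
    rw [finsum_add_distrib (fin_mu _) h2, finsum_add_distrib (hs _ _).1 h4, (hs _ _).2,
      finsum_sum_comm _ _ fun j _ => (hs _ _).1, finsum_sum_comm _ _ fun k _ => h3 k] at this
    simp only [(hs _ _).2, finsum_sum_comm _ _ fun i _ => hf _ _, hf'] at this
    simpa only [map_inv₀, mu] using this
  obtain ⟨V, ⟨T⟩, hV⟩ := trG fun x : Option (κ × σ) => x.elim Δ fun x => h x.1 (y x.2)
  have h2 := Finset.sum_le_sum fun x (_ : x ∈ Finset.univ) => h1 (T.r x)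
  have h3 := sum_mu T (hV none) hΔ
  have h4 : ∀ k i, ∑ x, n k * (lam (T.r x (h k (y i))) + lam (T.r x (h k (y i))⁻¹)) =
      T.card * (n k * (2 * ht (y i))) := fun k i => by
    have e1 := ht_eq T (hV (some (k, i)))
    have e2 := ht_eq T (hV (some (k, i))).inv
    simp only [Trans.sum, Option.elim, ht_inv, ht_conj] at e1 e2
    rw [← Finset.mul_sum, Finset.sum_add_distrib, e1, e2]
    ring
  simp only [Trans.sum, Option.elim] at h3
  rw [Finset.sum_add_distrib, Finset.sum_add_distrib, h3, zero_add, Finset.sum_const,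
    Finset.sum_const, Finset.sum_comm, Finset.sum_congr rfl fun k _ => Finset.sum_comm,
    Finset.card_univ, ← Trans.card] at h2
  simp only [h4, ← Finset.mul_sum, ← Finset.sum_mul, nsmul_eq_mul, ← mul_add] at h2
  exact le_of_mul_le_mul_left h2 (card_posR T)

lemma exists_rows {F ι κ : Type} [Field F] [Fintype ι] [DecidableEq ι] (v : κ → ι → F)
    (h : ∀ p : ι → F, (∀ k, ∑ i, p i * v k i = 0) → p = 0) :
    ∃ c : ι → κ, (Matrix.of fun j i => v (c j) i).det ≠ 0 := by
  have hspan : Submodule.span F (Set.range v) = ⊤ := by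
    by_contra hne
    obtain ⟨f, hf0, hf⟩ := Submodule.exists_le_ker_of_lt_top _ (lt_top_iff_ne_top.mpr hne)
    apply hf0
    have hp := h (fun i => f (Pi.single i 1)) fun k => by
      have h1 : f (v k) = 0 := hf (Submodule.subset_span ⟨k, rfl⟩)
      rw [← h1, LinearMap.pi_apply_eq_sum_univ]
      refine Finset.sum_congr rfl fun i _ => ?_
      rw [smul_eq_mul, mul_comm]
      congr 2
      funext j
      simp [Pi.single_apply, eq_comm]
    ext i
    simpa using congrFun hp i
  obtain ⟨κ', a, -, hsp, hli⟩ := exists_linearIndependent' F v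
  rw [hspan] at hsp
  let e := (Module.Basis.mk hli (by rw [hsp])).indexEquiv (Pi.basisFun F ι)
  exact ⟨fun j => a (e.symm j), ((isUnit_iff_isUnit_det _).1 (linearIndependent_rows_iff_isUnit.1
    (show LinearIndependent F (Matrix.of fun j i => v (a (e.symm j)) i).row from
      hli.comp e.symm e.symm.injective))).ne_zero⟩

lemma echelon {F κ1 κ2 : Type} [Field F] [Fintype κ1] [Fintype κ2] [DecidableEq κ1]
    [DecidableEq κ2] (N : F →*₀ ℝ) (hN : ∀ x, x ≠ 0 → 0 < N x) (X : Matrix (κ1 ⊕ κ2) κ1 F)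
    (Y : Matrix (κ1 ⊕ κ2) κ2 F) (h : (fromCols X Y).det ≠ 0) :
    ∃ (f : κ1 → κ1 ⊕ κ2) (W : Matrix (κ1 ⊕ κ2) κ1 F), (X.submatrix f id).det ≠ 0 ∧
      (∀ i k, N (W i k) ≤ 1) ∧ W * X.submatrix f id = X ∧ (fromCols X Y).det =
        (fromCols W (Y - W * Y.submatrix f id)).det * (X.submatrix f id).det := by
  obtain ⟨f0, hf0⟩ := exists_rows (fun i k => X i k) fun p hp => by
    have := eq_zero_of_mulVec_eq_zero h (v := Sum.elim p 0) (by
      rw [fromCols_mulVec_sumElim, mulVec_zero, add_zero]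
      funext i
      simpa [mulVec, dotProduct, mul_comm] using hp i)
    exact funext fun k => congrFun this (Sum.inl k)
  obtain ⟨f, -, hf⟩ := Finset.exists_max_image Finset.univ
    (fun f : κ1 → κ1 ⊕ κ2 => N (X.submatrix f id).det) ⟨f0, Finset.mem_univ _⟩
  have h1 : 0 < N (X.submatrix f id).det := (hN _ hf0).trans_le (hf f0 (Finset.mem_univ _))
  have h2 : (X.submatrix f id).det ≠ 0 := fun h' => by simp [h'] at h1
  have h3 : X * (X.submatrix f id)⁻¹ * X.submatrix f id = X :=
    nonsing_inv_mul_cancel_right _ _ h2.isUnit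
  refine ⟨f, X * (X.submatrix f id)⁻¹, h2, fun i k => ?_, h3, ?_⟩
  · have h4 := congrFun (det_smul_inv_vecMul_eq_cramer_transpose _ (X i) h2.isUnit) k
    have h5 : (X.submatrix f id).updateRow k (X i) = X.submatrix (Function.update f k i) id := by
      ext a b
      by_cases h' : a = k <;> simp [updateRow_apply, h']
    rw [cramer_transpose_apply, h5] at h4
    have h6 := hf (Function.update f k i) (Finset.mem_univ _)
    rw [← h4, Pi.smul_apply, smul_eq_mul, map_mul, mul_le_iff_le_one_right h1] at h6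
    exact h6
  · have := fromCols_mul_fromBlocks (X * (X.submatrix f id)⁻¹)
      (Y - X * (X.submatrix f id)⁻¹ * Y.submatrix f id) (X.submatrix f id) (Y.submatrix f id) 0 1
    rw [h3, Matrix.mul_zero, Matrix.mul_one, add_zero, add_sub_cancel] at this
    rw [← this, det_mul, det_fromBlocks_zero₂₁, det_one, mul_one]

end Pool.Agent.Lib.MP_f61260_nt
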