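import Pool.Agent.Lib.MP_f61260_nt.Ad5

/-! The determinant inequality. -/

set_option autoImplicit false
set_option maxHeartbeats 400000

namespace Pool.Agent.Lib.MP_f61260_nt

open Real Matrix Module Submodule

variable {σ : Type} [Fintype σ]

lemma ord_jets {F : Type} [Field F] {S : Finset (σ → ℤ)} {y c : (σ → ℤ) → F} {T : ℕ}
    (h : ∀ b : σ → Fin T, ∑ a ∈ S, c a * ((∏ i, (a i : F) ^ (b i : ℕ)) * y a) = 0) :
    Ord S y T c := by
  classical
  have : ∀ (t : ℕ) (b : σ → ℕ), (∀ i, b i + t ≤ T) →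
      Ord S y t fun a => (∏ i, (a i : F) ^ b i) * c a := by
    intro t
    induction t with
    | zero => exact fun _ _ => trivial
    | succ t ih =>
      refine fun b hb => ⟨?_, fun i => (ih (b + Pi.single i 1) fun j => ?_).congr fun a _ => ?_⟩
      · rw [← h fun i => ⟨b i, by have := hb i; omega⟩]
        exact Finset.sum_congr rfl fun a _ => by ring
      · have := hb j
        by_cases h' : j = i
        · subst h'; simp; omega
        · simp [h']; omega
      · simp only [Pi.add_apply, pow_add, Finset.prod_mul_distrib]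
        rw [Finset.prod_eq_single (f := fun j => (a j : F) ^ Pi.single (M := fun _ => ℕ) i 1 j) i
          (fun j _ hj => by simp [hj]) (by simp)]
        simp only [Pi.single_eq_same]
        ring
  exact (this T 0 fun i => by simp).congr fun a _ => by simp

/-- columns of jets -/
noncomputable def jet (P : σ → Qb) (S : Finset (σ → ℤ)) {T : ℕ} (g : GA) (b : σ → Fin T) :
    S → Qb := fun a => (∏ i, (a.1 i : Qb) ^ (b i : ℕ)) * g (mon P a)

lemma map_jet (P : σ → Qb) (S : Finset (σ → ℤ)) {T : ℕ} (τ g : GA) (b : σ → Fin T) (a : S) :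
    τ (jet P S g b a) = jet P S (τ * g) b a := by
  simp [jet]

variable {ι κ1 κ2 : Type} [Fintype ι] [Fintype κ1] [Fintype κ2] {U : Subgroup GA} {P : σ → Qb}
  {S : Finset (σ → ℤ)} {ν T N : ℕ} {l : ι → Pr} {φ : ι → GA} {lm : ℝ}

theorem detIneq (hU : Ab U) (hP : ∀ i, P i ≠ 0) (hS : ∀ a ∈ S, ∀ i, |a i| ≤ ν) (hν : 1 ≤ ν)
    (hF : ∀ j, Frob σ (l j) U (φ j) (exp (-lm))) (hl : ∀ j, (l j).1 ≤ N) (hN : 1 ≤ N)
    {u1 : κ1 → GA} (hu1 : ∀ k, u1 k ∈ U) (b : κ1 → σ → Fin T) {u2 : κ2 → GA} (hu2 : ∀ k, u2 k ∈ U)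
    (j : κ2 → ι) (hli : LinearIndependent Qb (Sum.elim (fun k => jet P S (u1 k) (b k))
      fun k (a : S) => (u2 k * (φ (j k))⁻¹) (mon P a) ^ (l (j k)).1))
    (hsp : ∀ u ∈ U, ∀ b' : σ → Fin T,
      jet P S u b' ∈ span Qb (Set.range fun k => jet P S (u1 k) (b k))) :
    Fintype.card κ2 * (T * lm) ≤ Fintype.card (κ1 ⊕ κ2) * log (Fintype.card (κ1 ⊕ κ2)) +
      Fintype.card κ1 * (Fintype.card σ * T * log ν) +
      Fintype.card (κ1 ⊕ κ2) * (N * ν) * (2 * ∑ i, ht (P i)) := by
  classical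
  obtain ⟨r, hr⟩ := exists_rows (fun a k => Sum.elim (fun k => jet P S (u1 k) (b k))
    (fun k (a : S) => (u2 k * (φ (j k))⁻¹) (mon P a) ^ (l (j k)).1) k a) fun p hp =>
      funext (Fintype.linearIndependent_iff.1 hli p (funext fun a => by simpa using hp a))
  have hν0 : (1 : ℝ) ≤ ν := by exact_mod_cast hν
  have h1 := prodf hr P (Sum.elim u1 fun k => u2 k * (φ (j k))⁻¹)
    (Sum.elim (fun _ => ν) fun k => (l (j k)).1 * ν)
    (log (Fintype.card (κ1 ⊕ κ2)).factorial + Fintype.card κ1 * (Fintype.card σ * T * log ν))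
    (fun k => l (j k)) (fun _ => T * lm) fun τ v => ?_
  · rw [Finset.sum_const, Finset.card_univ, nsmul_eq_mul] at h1
    refine h1.trans (add_le_add (add_le_add ?_ le_rfl) (mul_le_mul_of_nonneg_right ?_
      (mul_nonneg zero_le_two (Finset.sum_nonneg fun i _ => ht_nonneg _))))
    · rw [← log_pow]
      exact log_le_log (by positivity) (by exact_mod_cast Nat.factorial_le_pow _)
    · refine (Finset.sum_le_card_nsmul _ _ (N * ν : ℝ) ?_).trans (by simp)
      rintro (k | k) -
      · exact le_mul_of_one_le_left (by positivity) (by exact_mod_cast hN)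
      · exact mul_le_mul_of_nonneg_right (by exact_mod_cast hl _) (by positivity)
  obtain ⟨X, hX⟩ : ∃ X : Matrix (κ1 ⊕ κ2) κ1 Qb,
    X = Matrix.of fun i k => jet P S (τ * u1 k) (b k) (r i) := ⟨_, rfl⟩
  obtain ⟨Y, hY⟩ : ∃ Y : Matrix (κ1 ⊕ κ2) κ2 Qb, Y = Matrix.of fun i k =>
    (τ * (u2 k * (φ (j k))⁻¹)) (mon P (r i)) ^ (l (j k)).1 := ⟨_, rfl⟩
  have h2 : τ (Matrix.of fun i k => Sum.elim (fun k => jet P S (u1 k) (b k))
      (fun k (a : S) => (u2 k * (φ (j k))⁻¹) (mon P a) ^ (l (j k)).1) k (r i)).det =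
      (fromCols X Y).det := by
    rw [AlgEquiv.map_det]
    congr 1
    ext i (k | k)
    · simp [hX, map_jet]
    · simp [hY]
  have h3 : (fromCols X Y).det ≠ 0 := h2 ▸ (_root_.map_ne_zero τ).2 hr
  have hm := fun v g (a : S) => av_mon v g hP (hS a a.2)
  have hYv : ∀ v i k, av v (Y i k) ≤
      exp ((l (j k)).1 * ν * Lg v (τ * (u2 k * (φ (j k))⁻¹)) P) := fun v i k => by
    rw [hY, of_apply, map_pow, mul_assoc, exp_nat_mul]
    exact pow_le_pow_left₀ (av_nonneg _ _) (hm _ _ _) _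
  rw [h2, ← le_sub_iff_add_le, log_le_iff_le_exp (av_pos _ h3), Fintype.sum_sum_type]
  simp only [Sum.elim_inl, Sum.elim_inr]
  rcases v with _ | l0
  · refine (av_det' _ (β := Sum.elim (fun k => exp (Fintype.card σ * T * log ν +
      ν * Lg none (τ * u1 k) P)) fun k => exp ((l (j k)).1 * ν *
        Lg none (τ * (u2 k * (φ (j k))⁻¹)) P)) ?_).trans (le_of_eq ?_)
    · rintro i (k | k)
      · simp only [fromCols_apply_inl, Sum.elim_inl, hX, of_apply, jet, map_mul, exp_add]
        refine mul_le_mul ?_ (hm _ _ _) (av_nonneg _ _) (exp_pos _).le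
        rw [map_prod, ← Nat.cast_mul, exp_nat_mul, exp_log (by positivity), mul_comm, pow_mul,
          ← Finset.card_univ, ← Finset.prod_const]
        refine Finset.prod_le_prod (fun _ _ => av_nonneg _ _) fun i' _ => ?_
        rw [map_pow, av_none]
        refine (pow_le_pow_left₀ (norm_nonneg _) ?_ _).trans (pow_le_pow_right₀ hν0 (b k i').2.le)
        have := hS _ (r i).2 i'
        rw [show ((((r i).1 i' : ℤ) : Qb) : ℂ) = _ from map_intCast (algebraMap Qb ℂ) _,
          Complex.norm_intCast]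
        exact_mod_cast this
      · exact hYv _ _ _
    · rw [Fintype.prod_sum_type]
      simp only [Sum.elim_inl, Sum.elim_inr, ← exp_sum, Finset.sum_add_distrib, Finset.sum_const,
        Finset.card_univ, nsmul_eq_mul, if_true, reduceCtorEq, if_false, smul_zero, sub_zero]
      rw [add_assoc, exp_add (log _), exp_log (by positivity), ← exp_add, add_assoc]
  obtain ⟨f, W, h4, h5, h6, h7⟩ := echelon (av (some l0)) (fun x => av_pos _) X Y h3
  have h8 : ∀ g, τ⁻¹ * g ∈ U → ∀ (b' : σ → Fin T) i,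
      jet P S g b' (r i) = ∑ k, W i k * jet P S g b' (r (f k)) := fun g hg b' i => by
    obtain ⟨β, hβ⟩ := (mem_span_range_iff_exists_fun Qb).1 (hsp _ hg b')
    have h9 : ∀ i, jet P S g b' (r i) = (X *ᵥ fun k => τ (β k)) i := fun i => by
      have := congrArg τ (congrFun hβ (r i))
      rw [map_jet, mul_inv_cancel_left] at this
      simp [← this, hX, mulVec, dotProduct, map_jet, mul_comm]
    conv_lhs => rw [h9, ← h6, ← mulVec_mulVec]
    simp only [h9]
    rfl
  have h9 : ∀ i k, Fx U (W i k) := fun i k u hu => by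
    have := eq_zero_of_vecMul_eq_zero h4 (v := fun k => u (W i k) - W i k) (funext fun k0 => by
      have e1 := congrArg u (h8 (u⁻¹ * (τ * u1 k0)) (by
        have := U.mul_mem (hU.conj τ (U.inv_mem hu)) (hu1 k0)
        simpa only [mul_assoc] using this) (b k0) i)
      have e2 := h8 (τ * u1 k0) (by simpa using hu1 k0) (b k0) i
      simp only [map_sum, map_mul, map_jet, mul_inv_cancel_left] at e1
      simp only [vecMul, dotProduct, hX, submatrix_apply, of_apply, id, sub_mul,
        Finset.sum_sub_distrib, ← e1, ← e2, sub_self, Pi.zero_apply])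
    exact sub_eq_zero.1 (congrFun this k)
  have h10 : ∀ i k, av (some l0) ((Y - W * Y.submatrix f id) i k) ≤
      exp ((l (j k)).1 * ν * Lg (some l0) (τ * (u2 k * (φ (j k))⁻¹)) P -
        if some l0 = some (l (j k)) then T * lm else 0) := fun i k => by
    split_ifs with h
    · obtain rfl : l0 = l (j k) := Option.some.inj h
      have e : ∀ F : (σ → ℤ) → Qb, ∑ a ∈ S, ((if a = r i then 1 else 0) -
          ∑ k', if a = r (f k') then W i k' else 0) * F a =
          F (r i) - ∑ k', W i k' * F (r (f k')) := fun F => by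
        simp only [sub_mul, Finset.sum_sub_distrib, Finset.sum_mul, ite_mul, one_mul, zero_mul]
        rw [Finset.sum_comm]
        simp
      obtain ⟨g, hg⟩ : ∃ g, g = τ * (u2 k * (φ (j k))⁻¹) := ⟨_, rfl⟩
      have e1 : (mon fun i => (φ (j k) * g) (P i)) = fun a => (φ (j k) * g) (mon P a) :=
        funext fun a => (map_mon _ _ _).symm
      have := (hF (j k)).ext (fun i => (φ (j k) * g) (P i))
        (fun i => (_root_.map_ne_zero _).2 (hP i)) S T (fun a => (if a = r i then 1 else 0) -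
          ∑ k', if a = r (f k') then W i k' else 0) (fun a _ => ⟨fun u hu => by
            simp only [map_sub, map_sum, apply_ite u, map_one, map_zero, h9 _ _ u hu],
            av_sub _ (by split_ifs <;> simp) (av_sum _ zero_le_one fun k' _ => by
              split_ifs
              · exact h5 _ _
              · simp)⟩) (ord_jets fun b' => by
          rw [e, e1, sub_eq_zero]
          refine h8 _ ?_ b' i
          have := U.mul_mem (hU τ (φ (j k))⁻¹) (hU.conj (φ (j k))⁻¹ (hu2 k))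
          simpa only [hg, mul_assoc, inv_inv, inv_mul_cancel_left] using this) _ (exp_pos _).le
        fun a ha => by
          rw [e1]
          exact ((hF (j k)).iso _).trans_le (hm _ g ⟨a, ha⟩)
      simp only [e1] at this
      simp only [AlgEquiv.mul_apply, ← map_pow, ← map_mul, ← map_sum] at this
      rw [(hF (j k)).iso, e, ← exp_nat_mul, ← exp_nat_mul, ← exp_add] at this
      rw [← hg]
      refine le_trans (le_of_eq ?_) (this.trans (le_of_eq ?_))
      · simp [hY, hg, Matrix.mul_apply]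
      · congr 1
        ring
    · rw [sub_zero, Matrix.sub_apply, Matrix.mul_apply]
      exact av_sub _ (hYv _ _ _) (av_sum _ (exp_pos _).le fun k' _ => by
        rw [map_mul]
        exact (mul_le_of_le_one_left (av_nonneg _ _) (h5 _ _)).trans (hYv _ _ _))
  rw [h7, map_mul]
  refine (mul_le_mul (av_det l0 _ (β := Sum.elim (fun _ => 1) fun k =>
    exp ((l (j k)).1 * ν * Lg (some l0) (τ * (u2 k * (φ (j k))⁻¹)) P -
      if some l0 = some (l (j k)) then T * lm else 0)) ?_) (av_det l0 _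
    (β := fun k => exp (ν * Lg (some l0) (τ * u1 k) P)) fun i k => ?_) (av_nonneg _ _) ?_).trans
    (le_of_eq ?_)
  · rintro i (k | k)
    · exact h5 i k
    · exact h10 i k
  · simp only [hX, submatrix_apply, of_apply, id, jet, map_mul, map_prod, map_pow]
    exact (mul_le_of_le_one_left (av_nonneg _ _) (Finset.prod_le_one (fun _ _ =>
      pow_nonneg (av_nonneg _ _) _) fun _ _ => pow_le_one₀ (av_nonneg _ _) (av_int _ _))).trans
      (hm _ _ _)
  · rw [Fintype.prod_sum_type]
    simp only [Sum.elim_inl, Sum.elim_inr]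
    positivity
  · rw [Fintype.prod_sum_type]
    simp only [Sum.elim_inl, Sum.elim_inr, ← exp_sum, Finset.prod_const_one, one_mul,
      Finset.sum_sub_distrib, reduceCtorEq, if_false, ← exp_add]
    congr 1
    ring

lemma rank_ar {ρ r s T : ℕ} {L a lm b h : ℝ} (h1 : log s + 2 ≤ L) (h2 : a * b ≤ L)
    (h3 : 2 * L ≤ T * lm) {c : ℝ} (h4 : c * h ≤ 1) (hT : 2 ≤ T)
    (h12 : r * (T * lm) ≤ (ρ + r : ℕ) * log (ρ + r : ℕ) + ρ * (a * T * b) +
      (ρ + r : ℕ) * c * (2 * h)) (h13 : ρ + r ≤ s) : r + ρ ≤ 2 * T * ρ := by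
  have h16 : ((ρ + r : ℕ) : ℝ) * log (ρ + r : ℕ) ≤ (ρ + r : ℕ) * (L - 2) := by
    rcases Nat.eq_zero_or_pos (ρ + r) with h | h
    · simp [h]
    · exact mul_le_mul_of_nonneg_left ((log_le_log (y := s) (by exact_mod_cast h)
        (by exact_mod_cast h13)).trans (by linarith)) (by positivity)
  have hL : 0 < L := by have := log_natCast_nonneg s; linarith
  have h17 : (r : ℝ) * L ≤ ρ * (T + 1) * L := by
    have e1 := mul_le_mul_of_nonneg_left h4 (show (0 : ℝ) ≤ 2 * (ρ + r : ℕ) by positivity)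
    have e2 := mul_le_mul_of_nonneg_left h2 (show (0 : ℝ) ≤ ρ * T by positivity)
    have e3 := mul_le_mul_of_nonneg_left h3 (show (0 : ℝ) ≤ r by positivity)
    push_cast at *
    linarith
  have h18 : r ≤ ρ * (T + 1) := by exact_mod_cast le_of_mul_le_mul_right h17 hL
  nlinarith

theorem rank_le (hU : Ab U) (hP : ∀ i, P i ≠ 0) (hS : ∀ a ∈ S, ∀ i, |a i| ≤ ν) (hν : 1 ≤ ν)
    (hF : ∀ j, Frob σ (l j) U (φ j) (exp (-lm))) (hl : ∀ j, (l j).1 ≤ N) (hN : 1 ≤ N) {L : ℝ}
    (h1 : log S.card + 2 ≤ L) (h2 : Fintype.card σ * log ν ≤ L) (h3 : 2 * L ≤ T * lm)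
    (h4 : N * ν * ∑ i, ht (P i) ≤ 1) (hT : 2 ≤ T) :
    finrank (Kf U) (span (Kf U) (Set.range fun (a : S) j => (φ j)⁻¹ (mon P a ^ (l j).1))) ≤
      2 * T ^ (Fintype.card σ + 1) *
        finrank (Kf U) (span (Kf U) (Set.range fun a : S => mon P a)) := by
  classical
  have h5 := col_le (U := U) (fun a : S => mon P a)
    fun (b : σ → Fin T) a => ∏ i, (a.1 i : Qb) ^ (b i : ℕ)
  obtain ⟨Z, hZ⟩ : ∃ Z, Z = span Qb {v : S → Qb | ∃ u ∈ U, ∃ b : σ → Fin T, v = jet P S u b} :=
    ⟨_, rfl⟩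
  obtain ⟨e1, h6, h7, h8⟩ := exists_fun_fin_finrank_span_eq Qb
    {v : S → Qb | ∃ u ∈ U, ∃ b : σ → Fin T, v = jet P S u b}
  obtain ⟨e2, h9, h10, h11⟩ := exists_fun_fin_finrank_span_eq Qb {w : (S → Qb) ⧸ Z | ∃ u ∈ U,
    ∃ j, w = Z.mkQ fun a => (u * (φ j)⁻¹) (mon P a) ^ (l j).1}
  choose u1 hu1 b hb using h6
  choose u2 hu2 j hj using h9
  obtain rfl := funext hb
  have hli := LinearIndependent.sumElim_of_quotient (M' := Z)
    (f := fun k => ⟨jet P S (u1 k) (b k), hZ ▸ subset_span ⟨_, hu1 k, _, rfl⟩⟩)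
    (LinearIndependent.of_comp Z.subtype h8)
    (fun k (a : S) => (u2 k * (φ (j k))⁻¹) (mon P a) ^ (l (j k)).1) (by
      rw [funext hj] at h11; exact h11)
  have h12 := detIneq hU hP hS hν hF hl hN hu1 b hu2 j hli fun u hu b' =>
    by rw [h7]; exact subset_span ⟨u, hu, b', rfl⟩
  have h13 := hli.fintype_card_le_finrank
  have h14 := col_ge (U := U) (fun (a : S) j => (φ j)⁻¹ (mon P a ^ (l j).1))
    (span Qb (Set.range fun k (a : S) => (u2 k * (φ (j k))⁻¹) (mon P a) ^ (l (j k)).1) ⊔ Z)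
    fun u hu j' => by
      rw [sup_comm, ← comap_map_mkQ, map_span, ← Set.range_comp, mem_comap,
        show _ ∘ _ = e2 from (funext hj).symm, h10]
      exact subset_span ⟨u, hu, j', by simp⟩
  have h15 := (finrank_add_le_finrank_add_finrank _ _).trans (Nat.add_le_add_right
    (finrank_range_le_card (R := Qb)
      fun k (a : S) => (u2 k * (φ (j k))⁻¹) (mon P a) ^ (l (j k)).1) (finrank Qb Z))
  change finrank Qb (span Qb {v : S → Qb | ∃ u ∈ U, ∃ b : σ → Fin T, v = jet P S u b}) ≤ _ at h5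
  rw [show finrank Qb Z = _ by rw [hZ]] at h15
  simp only [Fintype.card_sum, Fintype.card_fin, finrank_fintype_fun_eq_card,
    Fintype.card_coe, Fintype.card_fun] at h5 h12 h13 h15
  refine (h14.trans h15).trans ((rank_ar h1 h2 h3 h4 hT h12 h13).trans ?_)
  rw [pow_succ', ← mul_assoc, mul_assoc (2 * T)]
  exact Nat.mul_le_mul_left _ h5

end Pool.Agent.Lib.MP_f61260_nt
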