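import Pool.Agent.Lib.MP_f61260_nt.Ad7
import Pool.Agent.Lib.MP_f61260_nt.Ad1

/-! Linear independence of monomials over an abelian field. -/

set_option autoImplicit false
set_option maxHeartbeats 400000

namespace Pool.Agent.Lib.MP_f61260_nt

open Module Submodule Real

variable {σ ι : Type} [Fintype σ] [Fintype ι] {U : Subgroup GA} {P : σ → Qb}

lemma sep_ex (hP : ∀ i, P i ≠ 0) {Λ : Submodule ℤ (σ → ℤ)} {φ : ι → GA} {l : ι → Pr}
    {Z : (σ → ℤ) → ι → Qb} (hZ : Z = fun a j => (φ j)⁻¹ (mon P a ^ (l j).1)) {ν : ℕ} {i j : ι}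
    (hij : l i ≠ l j) (h1 : ∀ a ∈ Λ, Z a i ∈ (Sp (Kf U) Λ Z ν).map (LinearMap.proj i))
    {b : σ → ℤ} (hb : b ∈ bx Λ ν) (hb' : ¬ Tor (mon P b)) :
    ∃ F ∈ Sp (Kf U) Λ Z (ν + ν), F i = 0 ∧ F j ≠ 0 := by
  have z1 : ∀ a ∈ Λ, ∀ b ∈ Λ, Z (a + b) = Z a * Z b := fun a _ b _ => funext fun x => by
    simp [hZ, mon_add hP, mul_pow]
  have z0 : Z 0 = 1 := funext fun x => by simp [hZ, mon_zero]
  by_contra hc
  push Not at hc
  have h2 : ∀ F ∈ Sp (Kf U) Λ Z (ν + ν), ∃ F' ∈ Sp (Kf U) Λ Z ν, F' i = F i ∧ F' j = F j := by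
    intro F hF
    have : (Sp (Kf U) Λ Z (ν + ν)).map (LinearMap.proj i) ≤
        (Sp (Kf U) Λ Z ν).map (LinearMap.proj i) := by
      rw [Sp, map_span, span_le]
      rintro _ ⟨_, ⟨a, ha, rfl⟩, rfl⟩
      exact h1 a (mem_bx.1 ha).1
    obtain ⟨F', h3, h4⟩ := this ⟨F, hF, rfl⟩
    exact ⟨F', h3, h4, sub_eq_zero.1 (hc _ (sub_mem (Sp_mono (Nat.le_add_right _ _) h3) hF)
      (sub_eq_zero.2 h4))⟩
  have h3 : ∀ g : Polynomial ℚ, ∃ F ∈ Sp (Kf U) Λ Z ν,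
      F i = Polynomial.aeval (Z b i) g ∧ F j = Polynomial.aeval (Z b j) g := by
    intro g
    induction g using Polynomial.induction_on with
    | C a => exact ⟨(a : Kf U) • Z 0, smul_mem _ _ (mem_Sp (zero_bx _ _)), by
        simp [z0, IntermediateField.smul_def]⟩
    | add p q e1 e2 =>
      obtain ⟨F, f1, f2, f3⟩ := e1
      obtain ⟨F', f4, f5, f6⟩ := e2
      exact ⟨F + F', add_mem f1 f4, by simp [f2, f5], by simp [f3, f6]⟩
    | monomial n a e =>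
      obtain ⟨F, f1, f2, f3⟩ := e
      obtain ⟨F', f4, f5, f6⟩ := h2 _ (Sp_mul z1 _ _ (mul_mem_mul f1 (mem_Sp hb)))
      exact ⟨F', f4, by simp [f5, f2, pow_succ, mul_assoc], by simp [f6, f3, pow_succ, mul_assoc]⟩
  obtain ⟨F, f1, f2, f3⟩ := h3 (minpoly ℚ (Z b i))
  rw [minpoly.aeval] at f2
  obtain ⟨w, hw⟩ := minpoly.exists_algEquiv_of_root' (Algebra.IsAlgebraic.isAlgebraic (Z b i))
    (f3 ▸ hc F (Sp_mono (Nat.le_add_right _ _) f1) f2)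
  refine hb' (tor_of_conj2 (w := φ j * w * (φ i)⁻¹) (mon_ne hP b) (p := (l i).1) (q := (l j).1)
    (fun h => hij (Subtype.ext h)) ?_)
  simp only [hZ] at hw
  rw [AlgEquiv.mul_apply, AlgEquiv.mul_apply, hw, ← AlgEquiv.mul_apply, mul_inv_cancel,
    AlgEquiv.one_apply]

lemma sum_rank {k : Type} [Field k] [Algebra k Qb] {Λ : Submodule ℤ (σ → ℤ)}
    {Z : (σ → ℤ) → ι → Qb} (z1 : ∀ a ∈ Λ, ∀ b ∈ Λ, Z (a + b) = Z a * Z b) (z0 : Z 0 = 1) {ν : ℕ}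
    (h : ∀ i j, i ≠ j → ∃ F ∈ Sp k Λ Z (ν + ν), F i = 0 ∧ F j ≠ 0) :
    ∑ j, finrank k (Sp k Λ (fun a => Z a j) ν) ≤
      finrank k (Sp k Λ Z (2 * Fintype.card ι * ν)) := by
  classical
  choose! F h1 h2 h3 using h
  choose e e1 e2 e3 using fun j => exists_bas (k := k) _
    ((bx Λ ν).finite_toSet.image fun a => Z a j)
  choose a a1 a2 using e1
  have h4 : LinearIndependent k fun x : Σ j, Fin (finrank k (span k ((fun a => Z a j) ''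
      (bx Λ ν : Set (σ → ℤ))))) => (∏ i ∈ Finset.univ.erase x.1, F i x.1) * Z (a x.1 x.2) := by
    rw [Fintype.linearIndependent_iff]
    rintro g hg ⟨j, r⟩
    have h5 := congrFun hg j
    simp only [Finset.sum_apply, Fintype.sum_sigma, Pi.smul_apply, Pi.mul_apply, Finset.prod_apply,
      Pi.zero_apply, ← mul_smul_comm, ← Finset.mul_sum] at h5
    rw [Finset.sum_eq_single j (fun i _ hi => mul_eq_zero_of_left (Finset.prod_eq_zero (f := fun c => F c i j)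
      (Finset.mem_erase.2 ⟨hi.symm, Finset.mem_univ j⟩) (h2 j i hi.symm)) _) (by simp)] at h5
    simp only [a2] at h5
    exact Fintype.linearIndependent_iff.1 (e3 j) (fun r => g ⟨j, r⟩) ((mul_eq_zero.1 h5).resolve_left
      (Finset.prod_ne_zero_iff.2 fun i hi => h3 i j (Finset.ne_of_mem_erase hi))) r
  have h5 := finrank_span_eq_card h4
  rw [Fintype.card_sigma] at h5
  simp only [Fintype.card_fin] at h5
  refine h5.ge.trans (finrank_mono (span_le.2 ?_))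
  rintro _ ⟨⟨j, r⟩, rfl⟩
  refine Sp_mono ?_ (Sp_mul z1 _ _ (mul_mem_mul (Sp_prod z1 z0 _ fun i hi =>
    h1 i j (Finset.ne_of_mem_erase hi)) (mem_Sp (a1 j r))))
  have := Finset.card_erase_add_one (Finset.mem_univ j)
  rw [Finset.card_univ] at this
  rw [← this]
  nlinarith

lemma mon_alg (hP : ∀ i, P i ≠ 0) {κ : Type} {f : κ → σ → ℤ} {k : Type} [Field k] [Algebra k Qb]
    {A : Subalgebra k Qb} (h : ∀ i, mon P (f i) ∈ A ∧ mon P (-f i) ∈ A) :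
    ∀ a ∈ span ℤ (Set.range f), mon P a ∈ A := by
  intro a ha
  refine And.left (b := mon P (-a) ∈ A) ?_
  induction ha using span_induction with
  | mem x hx =>
    obtain ⟨k, rfl⟩ := hx
    exact h k
  | zero => simp [mon_zero]
  | add x y _ _ e1 e2 =>
    rw [neg_add, mon_add hP, mon_add hP]
    exact ⟨mul_mem e1.1 e2.1, mul_mem e1.2 e2.2⟩
  | smul n x _ e =>
    obtain ⟨m, rfl | rfl⟩ := n.eq_nat_or_neg
    · rw [← smul_neg, natCast_zsmul, natCast_zsmul, mon_nsmul, mon_nsmul]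
      exact ⟨pow_mem e.1 _, pow_mem e.2 _⟩
    · rw [neg_smul, neg_neg, ← smul_neg, natCast_zsmul, natCast_zsmul, mon_nsmul, mon_nsmul]
      exact ⟨pow_mem e.2 _, pow_mem e.1 _⟩

lemma rank_sp (hU : Ab U) (hP : ∀ i, P i ≠ 0) (Λ : Submodule ℤ (σ → ℤ)) {l : ι → Pr}
    {φ : ι → GA} {lm : ℝ} (hF : ∀ j, Frob σ (l j) U (φ j) (exp (-lm))) {N T : ℕ}
    (hN : ∀ j, (l j).1 ≤ N) (hN1 : 1 ≤ N) (hT : 2 ≤ T) {ν ν' : ℕ} (e0 : 1 ≤ ν') (e2 : ν' ≤ ν)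
    {L : ℝ} (h1 : Fintype.card σ * log (2 * ν + 1) + 2 ≤ L) (h3 : 2 * L ≤ T * lm)
    (h4 : N * ν * ∑ i, ht (P i) ≤ 1) :
    finrank (Kf U) (Sp (Kf U) Λ (fun a j => (φ j)⁻¹ (mon P a ^ (l j).1)) ν') ≤
      2 * T ^ (Fintype.card σ + 1) * finrank (Kf U) (Sp (Kf U) Λ (mon P) ν') := by
  have e3 : (1 : ℝ) ≤ ν' := by exact_mod_cast e0
  have e4 : (ν' : ℝ) ≤ ν := by exact_mod_cast e2
  have e5 : Fintype.card σ * log (2 * ν' + 1) ≤ Fintype.card σ * log (2 * ν + 1) := by gcongr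
  have e6 : Fintype.card σ * log ν' ≤ Fintype.card σ * log (2 * ν' + 1) := by gcongr; linarith
  have e7 : log (bx Λ ν').card ≤ Fintype.card σ * log (2 * ν' + 1) := by
    rw [← log_pow]
    exact log_le_log (by exact_mod_cast Finset.card_pos.2 ⟨_, zero_bx _ _⟩)
      (by exact_mod_cast card_bx Λ ν')
  have e8 := Finset.sum_nonneg fun i (_ : i ∈ Finset.univ) => ht_nonneg (P i)
  have e9 : N * ν' * ∑ i, ht (P i) ≤ N * ν * ∑ i, ht (P i) := by gcongr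
  rw [Sp, Sp, Set.image_eq_range, Set.image_eq_range]
  exact rank_le (S := bx Λ ν') (L := L) hU hP (fun a ha => (mem_bx.1 ha).2) e0 hF hN hN1
    (by linarith) (by linarith) h3 (e9.trans h4) hT

lemma indep_aux (hU : Ab U) (hP : ∀ i, P i ≠ 0) {Λ : Submodule ℤ (σ → ℤ)} {l : ι → Pr}
    (hl : Function.Injective l) {φ : ι → GA} {Z : (σ → ℤ) → ι → Qb}
    (hZ : Z = fun a j => (φ j)⁻¹ (mon P a ^ (l j).1)) {c μ : ℕ} (hM : c < Fintype.card ι)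
    (g0 : ∀ A : Subalgebra (Kf U) Qb, mon P '' (bx Λ μ : Set (σ → ℤ)) ⊆ A → ∀ a ∈ Λ, mon P a ∈ A)
    (g2 : ∀ j, ∀ c' ≤ 8 * c + 4, finrank (Kf U) (Sp (Kf U) Λ (mon P) (c' * μ)) ≤
      finrank (Kf U) (Sp (Kf U) Λ (fun a => mon P a ^ (l j).1) μ))
    (g3 : ∀ ν', μ ≤ ν' → ν' ≤ 2 * Fintype.card ι * μ → finrank (Kf U) (Sp (Kf U) Λ Z ν') ≤
      c * finrank (Kf U) (Sp (Kf U) Λ (mon P) ν')) {b : σ → ℤ} (hb : b ∈ bx Λ μ)
    (hb' : ¬ Tor (mon P b)) : False := by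
  obtain ⟨j0⟩ : Nonempty ι := Fintype.card_pos_iff.1 (by omega)
  have hν2 : μ ≤ 2 * Fintype.card ι * μ := Nat.le_mul_of_pos_left _ (by omega)
  have y1 : ∀ a ∈ Λ, ∀ b ∈ Λ, mon P (a + b) = mon P a * mon P b := fun a _ b _ => mon_add hP a b
  have g4 : ∀ j, (Sp (Kf U) Λ Z μ).map (LinearMap.proj j) = span (Kf U) (((φ j)⁻¹ : GA) ''
      ((fun a => mon P a ^ (l j).1) '' (bx Λ μ : Set (σ → ℤ)))) := fun j => by
    rw [Sp, map_span, Set.image_image, Set.image_image, hZ]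
    rfl
  have g5 : ∀ j, finrank (Kf U) (Sp (Kf U) Λ (fun a => mon P a ^ (l j).1) μ) ≤
      finrank (Kf U) ((Sp (Kf U) Λ Z μ).map (LinearMap.proj j)) := fun j => by
    rw [g4]
    exact hU.rank_le _ ((bx Λ μ).finite_toSet.image _)
  rcases grow' (K := Kf U) (mon P '' (bx Λ μ : Set (σ → ℤ))) ((bx Λ μ).finite_toSet.image _)
    (fun x _ => Algebra.IsIntegral.isIntegral x) ⟨0, zero_bx _ _, mon_zero P⟩ c with h | h
  · exact (h.trans_le ((finrank_mono (Sp_pow y1 (mon_zero P) _ _)).trans ((g2 j0 _ (by omega)).trans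
      ((g5 j0).trans ((finrank_map_le _ _).trans (g3 μ le_rfl hν2)))))).false
  obtain ⟨A, hA⟩ : ∃ A, A = Algebra.adjoin (Kf U) (mon P '' (bx Λ μ : Set (σ → ℤ))) := ⟨_, rfl⟩
  have a1 : ∀ a ∈ Λ, mon P a ∈ A := g0 A (hA ▸ Algebra.subset_adjoin)
  have a2 : A.toSubmodule ≤ Sp (Kf U) Λ (mon P) ((8 * c + 4) * μ) := by
    rw [hA, ← h]
    exact Sp_pow y1 (mon_zero P) _ _
  have := Submodule.finiteDimensional_of_le a2
  have a3 : ∀ j, Sp (Kf U) Λ (fun a => mon P a ^ (l j).1) μ = A.toSubmodule := fun j =>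
    eq_of_le_of_finrank_le (span_le.2 (by
      rintro _ ⟨a, ha, rfl⟩
      exact pow_mem (a1 a (mem_bx.1 ha).1) _)) ((finrank_mono a2).trans (g2 j _ le_rfl))
  have a4 := sum_rank (k := Kf U) (Λ := Λ) (Z := Z) (fun a _ b _ => funext fun x => by
    simp [hZ, mon_add hP, mul_pow]) (funext fun x => by simp [hZ, mon_zero]) (ν := μ) fun i j hij =>
      sep_ex hP hZ (hl.ne hij) (fun a ha => by
        rw [g4, hZ]
        exact hU.span _ ((a3 i).ge (pow_mem (a1 a ha) _))) hb hb'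
  have a5 : Fintype.card ι * finrank (Kf U) A.toSubmodule ≤
      ∑ j, finrank (Kf U) (Sp (Kf U) Λ (fun a => Z a j) μ) := by
    rw [← Finset.card_univ, ← smul_eq_mul]
    refine Finset.card_nsmul_le_sum _ _ _ fun j _ => ?_
    rw [← a3 j]
    refine (g5 j).trans (le_of_eq ?_)
    rw [Sp, map_span, Set.image_image]
    rfl
  have a6 : finrank (Kf U) (Sp (Kf U) Λ (mon P) (2 * Fintype.card ι * μ)) ≤
      finrank (Kf U) A.toSubmodule :=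
    finrank_mono (span_le.2 (by rintro _ ⟨a, ha, rfl⟩; exact a1 a (mem_bx.1 ha).1))
  have a7 : 0 < finrank (Kf U) A.toSubmodule := finrank_pos_iff.2
    ⟨⟨⟨1, A.one_mem⟩, 0, fun h => one_ne_zero (congrArg Subtype.val h)⟩⟩
  exact (Nat.mul_lt_mul_of_pos_right hM a7).not_ge (a5.trans (a4.trans ((g3 _ hν2 le_rfl).trans
    (Nat.mul_le_mul_left _ a6))))

theorem indep (hU : Ab U) (hP : ∀ i, P i ≠ 0) {Λ0 : Submodule ℤ (σ → ℤ)}
    (hnt : ∀ a ∈ Λ0, a ≠ 0 → ¬ Tor (mon P a)) {l : ι → Pr} (hl : Function.Injective l)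
    {φ : ι → GA} {lm : ℝ} (hF : ∀ j, Frob σ (l j) U (φ j) (exp (-lm))) {N T δ : ℕ}
    (hN : ∀ j, (l j).1 ≤ N) (hT : 2 ≤ T) (hT' : ∀ j, 16 * T ^ (Fintype.card σ + 1) + 5 ≤ (l j).1)
    (hM : 2 * T ^ (Fintype.card σ + 1) < Fintype.card ι)
    (hd : ∀ j, ∀ u ∈ U, ∃ u' ∈ U, (∀ ξ : Qb, ξ ^ (l j).1 = 1 → u' ξ = ξ) ∧
      ∀ a ∈ Λ0, u' (mon P a) = u (mon P a)) (hδ : 1 ≤ δ) {ν : ℕ}
    (hν : ν = 4 * Fintype.card ι * δ * N ^ Fintype.card σ) {L : ℝ}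
    (h1 : Fintype.card σ * log (2 * ν + 1) + 2 ≤ L) (h3 : 2 * L ≤ T * lm)
    (h4 : N * ν * ∑ i, ht (P i) ≤ 1) :
    LinearIndependent (Kf U) fun a : bx Λ0 δ => mon P a := by
  by_contra hc
  obtain ⟨κ, _, ⟨k0⟩, f, d, f1, f2, f3⟩ := circuit hP hc
  obtain ⟨μ, hμ⟩ : ∃ μ, μ = 2 * δ * N ^ Fintype.card σ := ⟨_, rfl⟩
  obtain ⟨j0⟩ : Nonempty ι := Fintype.card_pos_iff.1 (by omega)
  have hN1 : 1 ≤ N := (l j0).2.pos.trans_le (hN j0)
  have hμ1 : 2 * δ ≤ μ := hμ ▸ Nat.le_mul_of_pos_right _ (by positivity)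
  have hν1 : ν = 2 * Fintype.card ι * μ := by rw [hν, hμ]; ring
  have g1 : ∀ k, f k ∈ bx (span ℤ (Set.range f)) (2 * δ) := fun k =>
    mem_bx.2 ⟨subset_span ⟨k, rfl⟩, (mem_bx.1 (f1 k).1).2⟩
  refine indep_aux hU hP (Λ := span ℤ (Set.range f)) hl (φ := φ) rfl hM (μ := μ)
    (fun A hA => mon_alg hP fun k => ⟨hA ⟨_, bx_mono hμ1 (g1 k), rfl⟩,
      hA ⟨_, neg_bx (bx_mono hμ1 (g1 k)), rfl⟩⟩) (fun j c' hc' => ?_)
    (fun ν' e1 e2 => rank_sp hU hP _ hF hN hN1 hT (by omega) (hν1 ▸ e2) h1 h3 h4)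
    (bx_mono hμ1 (g1 k0)) (hnt _ (mem_bx.1 (f1 k0).1).1 (f1 k0).2.1)
  refine avgA hP g1 (fun k => (f1 k).2.2) f2 f3 (l j).2 (fun u hu => ?_) ?_
  · obtain ⟨u', e1, e2, e3⟩ := hd j u hu
    exact ⟨u', e1, e2, fun a ha => e3 a (span_le.2 (by
      rintro _ ⟨k, rfl⟩; exact (mem_bx.1 (f1 k).1).1) ha)⟩
  · have e1 : (l j).1 ^ Fintype.card σ * (2 * δ) ≤ μ := by
      rw [hμ, mul_comm]
      exact Nat.mul_le_mul_left _ (Nat.pow_le_pow_left (hN j) _)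
    have e2 : (c' + 1) * μ ≤ (l j).1 * μ := Nat.mul_le_mul_right _ (by have := hT' j; omega)
    linarith

end Pool.Agent.Lib.MP_f61260_nt
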