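import Pool.Agent.Lib.MP_f61260_nt.Glob6

set_option autoImplicit false
set_option maxHeartbeats 400000

namespace Pool.Agent.Lib.MP_f61260_nt

open Polynomial Real

lemma fg_basis {G : Type} [CommGroup G] (Γ : Subgroup G) (hΓ : Γ.FG) :
    ∃ (ι : Type) (_ : Fintype ι) (γ : ι → G) (N : ℕ), 0 < N ∧ (∀ a, γ a ∈ Γ) ∧
      (∀ w : ι → ℤ, ∏ a, γ a ^ w a = 1 → w = 0) ∧
      ∀ g ∈ Γ, ∃ w : ι → ℤ, g ^ N = ∏ a, γ a ^ w a := by
  classical
  obtain ⟨s, rfl⟩ := hΓ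
  obtain ⟨I, h1, h2⟩ := exists_maximal_linearIndepOn ℤ fun g : s => Additive.ofMul (g : G)
  have h3 : ∀ i : s, ∃ a : ℕ, 0 < a ∧ a • Additive.ofMul (i : G) ∈
      Submodule.span ℤ (Set.range fun a : I => Additive.ofMul ((a : s) : G)) := fun i => by
    by_cases hi : i ∈ I
    · exact ⟨1, one_pos, by rw [one_smul]; exact Submodule.subset_span ⟨⟨i, hi⟩, rfl⟩⟩
    · obtain ⟨a, ha, h⟩ := h2 i hi
      rw [Set.image_eq_range] at h
      refine ⟨a.natAbs, Int.natAbs_pos.2 ha, ?_⟩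
      rw [← natCast_zsmul, Int.natCast_natAbs]
      rcases abs_choice a with h' | h' <;> rw [h']
      · exact h
      · rw [neg_smul]; exact Submodule.neg_mem _ h
  choose A hA hA' using h3
  refine ⟨I, inferInstance, fun a => ((a : s) : G), ∏ i, A i, Finset.prod_pos fun i _ => hA i,
    fun a => Subgroup.subset_closure (a : s).2, fun w hw => ?_, fun g hg => ?_⟩
  · exact funext (Fintype.linearIndependent_iff.1 h1 w (by
      simpa [ofMul_prod, ofMul_zpow] using congrArg Additive.ofMul hw))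
  · have : (∏ i, A i) • Additive.ofMul g ∈
        Submodule.span ℤ (Set.range fun a : I => Additive.ofMul ((a : s) : G)) := by
      induction hg using Subgroup.closure_induction with
      | mem x hx =>
        obtain ⟨k, hk⟩ := Finset.dvd_prod_of_mem A (Finset.mem_univ ⟨x, hx⟩)
        rw [hk, mul_comm, mul_smul]
        exact nsmul_mem (hA' ⟨x, hx⟩) k
      | one => simp
      | mul x y _ _ h h' => rw [ofMul_mul, smul_add]; exact add_mem h h'
      | inv x _ h => rw [ofMul_inv, smul_neg]; exact neg_mem h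
    obtain ⟨w, hw⟩ := (Submodule.mem_span_range_iff_exists_fun ℤ).1 this
    exact ⟨w, Additive.ofMul.injective (by simpa [ofMul_prod, ofMul_zpow] using hw.symm)⟩

namespace Ctx

variable {ι : Type} [Fintype ι] (c : Ctx ι) (S : Finset ℕ)

/-- a family of elements lying in a field of finite level -/
def Lev {κ : Type} (s : Finset κ) (x : κ → Qb) : Prop :=
  ∃ m n : ℕ, 0 < m ∧ n ∣ m ∧ n.primeFactors ⊆ S ∧ ∀ i ∈ s, Fx (c.Lv m n) (x i)

variable {c S}

omit [Fintype ι] in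
lemma lev_all {κ : Type} (s : Finset κ) {x : κ → Qb} (h : ∀ i ∈ s, c.Lev S {i} x) :
    c.Lev S s x := by
  classical
  induction s using Finset.induction_on with
  | empty => exact ⟨1, 1, one_pos, dvd_rfl, by simp, by simp⟩
  | insert a s ha ih =>
    obtain ⟨m, n, h1, h2, h3, h4⟩ := h a (by simp)
    obtain ⟨m', n', h1', h2', h3', h4'⟩ := ih fun i hi => h i (by simp [hi])
    have hn := Nat.pos_of_dvd_of_pos h2 h1
    have hn' := Nat.pos_of_dvd_of_pos h2' h1'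
    refine ⟨m * m', n * n', Nat.mul_pos h1 h1', mul_dvd_mul h2 h2', ?_, fun i hi => ?_⟩
    · rw [Nat.primeFactors_mul hn.ne' hn'.ne']; exact Finset.union_subset h3 h3'
    · rcases Finset.mem_insert.1 hi with rfl | hi
      · exact (h4 i (by simp)).mono (Lv_mono (Nat.mul_pos h1 h1') (Nat.mul_pos hn hn')
          (dvd_mul_right _ _) (dvd_mul_right _ _))
      · exact (h4' i hi).mono (Lv_mono (Nat.mul_pos h1 h1') (Nat.mul_pos hn hn')
          (dvd_mul_left _ _) (dvd_mul_left _ _))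

omit [Fintype ι] in
lemma lev_adjoin {X : Set ℂ} (h : ∀ y ∈ X, ∃ x : Qb, (x : ℂ) = y ∧ c.Lev S {()} fun _ => x) :
    ∀ y ∈ IntermediateField.adjoin ℚ X, ∃ x : Qb, (x : ℂ) = y ∧ c.Lev S {()} fun _ => x := by
  have two : ∀ x y : Qb, (c.Lev S {()} fun _ => x) → (c.Lev S {()} fun _ => y) →
      ∃ m n : ℕ, 0 < m ∧ n ∣ m ∧ n.primeFactors ⊆ S ∧ Fx (c.Lv m n) x ∧ Fx (c.Lv m n) y := by
    intro x y ⟨m, n, h1, h2, h3, h4⟩ ⟨m', n', h1', h2', h3', h4'⟩
    obtain ⟨M, N, h5, h6, h7, h8⟩ := lev_all (c := c) (S := S) Finset.univ (x := ![x, y])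
      (Fin.forall_fin_two.2 ⟨fun _ => ⟨m, n, h1, h2, h3, by simpa using h4⟩,
        fun _ => ⟨m', n', h1', h2', h3', by simpa using h4'⟩⟩)
    exact ⟨M, N, h5, h6, h7, h8 0 (by simp), h8 1 (by simp)⟩
  intro y hy
  induction hy using IntermediateField.adjoin_induction with
  | mem y hy => exact h y hy
  | algebraMap q => exact ⟨algebraMap ℚ Qb q, rfl, 1, 1, one_pos, dvd_rfl, by simp,
      fun _ _ σ _ => σ.commutes q⟩
  | add _ _ _ _ h1 h2 =>
    obtain ⟨x, rfl, h1⟩ := h1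
    obtain ⟨y, rfl, h2⟩ := h2
    obtain ⟨m, n, h3, h4, h5, h6, h7⟩ := two x y h1 h2
    exact ⟨x + y, rfl, m, n, h3, h4, h5, fun _ _ => h6.add h7⟩
  | inv _ _ h1 =>
    obtain ⟨x, rfl, m, n, h3, h4, h5, h6⟩ := h1
    exact ⟨x⁻¹, rfl, m, n, h3, h4, h5, fun i hi => (h6 i hi).inv⟩
  | mul _ _ _ _ h1 h2 =>
    obtain ⟨x, rfl, h1⟩ := h1
    obtain ⟨y, rfl, h2⟩ := h2
    obtain ⟨m, n, h3, h4, h5, h6, h7⟩ := two x y h1 h2
    exact ⟨x * y, rfl, m, n, h3, h4, h5, fun _ _ => h6.mul h7⟩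

omit [Fintype ι] in
lemma idx_minpoly {K : IntermediateField ℚ ℂ}
    (h : ∀ y ∈ K, ∃ x : Qb, (x : ℂ) = y ∧ c.Lev S {()} fun _ => x) (α : Qb) :
    ∃ m n : ℕ, 0 < m ∧ n ∣ m ∧ n.primeFactors ⊆ S ∧
      IdxLe (c.Lv m n) (St ℚ α) (minpoly K (α : ℂ)).natDegree := by
  have hint : IsIntegral K (α : ℂ) :=
    ((mem_algebraicClosure_iff.1 α.2).tower_top K).isIntegral
  obtain ⟨P, h1, h2, h3⟩ := Polynomial.lifts_and_natDegree_eq_and_monic
    (f := algebraMap Qb ℂ) ((Polynomial.lifts_iff_coeff_lifts _).2 fun n => by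
      obtain ⟨x, hx, -⟩ := h _ ((minpoly K (α : ℂ)).coeff n).2
      exact ⟨x, by rw [Polynomial.coeff_map]; exact hx⟩) ((minpoly.monic hint).map (algebraMap K ℂ))
  obtain ⟨m, n, h4, h5, h6, h7⟩ := lev_all (c := c) (S := S) P.support (x := P.coeff) fun i _ => by
    obtain ⟨x, hx, m, n, h4, h5, h6, h7⟩ := h _ ((minpoly K (α : ℂ)).coeff i).2
    have := congrArg (fun f => Polynomial.coeff f i) h1
    simp only [Polynomial.coeff_map] at this
    obtain rfl : P.coeff i = x := Subtype.ext (this.trans hx.symm)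
    exact ⟨m, n, h4, h5, h6, by simpa using h7⟩
  refine ⟨m, n, h4, h5, h6, ?_⟩
  rw [← (minpoly.monic hint).natDegree_map (algebraMap K ℂ), ← h2]
  refine idx_of_poly h3.ne_zero fun σ hσ => ?_
  have h8 : P.eval α = 0 := (algebraMap Qb ℂ).injective (by
    rw [← Polynomial.eval₂_at_apply, ← Polynomial.eval_map, h1, map_zero,
      Polynomial.eval_map_algebraMap]
    exact minpoly.aeval K _)
  have h9 : P.map (σ : Qb →+* Qb) = P := Polynomial.ext fun i => by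
    rw [Polynomial.coeff_map]
    by_cases hi : i ∈ P.support
    · exact h7 i hi σ hσ
    · rw [Polynomial.notMem_support_iff.1 hi, map_zero]
  conv_lhs => rw [← h9]
  rw [Polynomial.eval_map]
  exact (Polynomial.eval₂_at_apply (σ : Qb →+* Qb) α).trans (by rw [h8, map_zero])

end Ctx

theorem tower_bound (S : Finset ℕ) (Γ : Subgroup ℂˣ) (hΓ : Γ.FG)
    (halg : ∀ g ∈ Γ, IsAlgebraic ℚ (g : ℂ)) (ε : ℝ) (hε : 0 < ε) :
    ∃ c : ℝ, 0 < c ∧ ∀ α : ℂ, α ≠ 0 → IsAlgebraic ℚ α →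
      α ∉ {z : ℂ | z ≠ 0 ∧ ∃ n : ℕ, 1 ≤ n ∧ ∃ g ∈ Γ, (g : ℂ) = z ^ n} →
      ∀ η ∈ {z : ℂ | z ≠ 0 ∧ ∃ n : ℕ, 1 ≤ n ∧ ∃ g ∈ Γ, (g : ℂ) = z ^ n},
      ∀ f : Polynomial ℤ, Irreducible f → Polynomial.aeval α f = 0 →
        c / ((minpoly (IntermediateField.adjoin ℚ {z : ℂ | ∃ n : ℕ, 1 ≤ n ∧
              (z ^ n = 1 ∨ (n.primeFactors ⊆ S ∧ ∃ g ∈ Γ, (g : ℂ) = z ^ n))})
            (α * η)).natDegree : ℝ) ^ (2 + ε)
          ≤ Real.log (Polynomial.mahlerMeasure (f.map (Int.castRingHom ℂ))) / (f.natDegree : ℝ) := by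
  classical
  obtain ⟨ι, _, γ, N, hN, h1, h2, h3⟩ := fg_basis Γ hΓ
  choose t ht1 ht2 using fun a => exists_sys (Complex.log (γ a)) (by
    rw [Complex.exp_log (γ a).ne_zero]; exact halg _ (h1 a))
  obtain ⟨z, hz1, hz2⟩ := exists_sys (2 * π * Complex.I) (by
    rw [Complex.exp_two_pi_mul_I]; exact isAlgebraic_one)
  let c : Ctx ι := ⟨z, t, hz1, fun n hn => IsPrimitiveRoot.coe_submonoidClass_iff.1 (by
    rw [hz2]; exact Complex.isPrimitiveRoot_exp n hn.ne'), ht1⟩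
  have h4 : ∀ w : ι → ℤ, ((∏ a, c.t a 1 ^ w a : Qb) : ℂ) = ((∏ a, γ a ^ w a : ℂˣ) : ℂ) := fun w => by
    simp only [Units.coe_prod, Units.val_zpow_eq_zpow_val]
    refine (map_prod (algebraMap Qb ℂ) _ _).trans (Finset.prod_congr rfl fun a _ => ?_)
    rw [map_zpow₀]
    exact congrArg (· ^ w a) ((ht2 a 1).trans (by simp [Complex.exp_log (γ _).ne_zero]))
  have h5 : ∀ x : Qb, c.Dv x ↔ (x : ℂ) ≠ 0 ∧ ∃ n : ℕ, 1 ≤ n ∧ ∃ g ∈ Γ, (g : ℂ) = (x : ℂ) ^ n := by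
    refine fun x => ⟨fun h => ⟨fun h' => h.ne (Subtype.ext h'), ?_⟩, fun ⟨_, n, hn, g, hg, h⟩ => ?_⟩
    · obtain ⟨n, hn, w, h⟩ := h
      exact ⟨n, hn, _, Γ.prod_mem fun a _ => Γ.zpow_mem (h1 a) (w a), by
        rw [← h4, ← h]; rfl⟩
    · obtain ⟨w, hw⟩ := h3 g hg
      exact ⟨n * N, Nat.mul_pos hn hN, w, Subtype.ext (by
        rw [h4, ← hw, pow_mul]; simp [h])⟩
  have hq : ∀ (y : ℂ) (n : ℕ), 1 ≤ n → IsAlgebraic ℚ (y ^ n) → ∃ x : Qb, (x : ℂ) = y :=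
    fun y n hn h => ⟨⟨y, mem_algebraicClosure_iff.2 (h.of_pow hn)⟩, rfl⟩
  obtain ⟨C, hC, h6⟩ := c.main' (S.filter Nat.Prime ∪ N.primeFactors) (fun p hp => by
    rcases Finset.mem_union.1 hp with h | h
    · exact (Finset.mem_filter.1 h).2
    · exact Nat.prime_of_mem_primeFactors h) (fun w ⟨n, hn, h⟩ => by
      have := h2 (fun a => w a * n) (Units.ext (by
        simp only [zpow_mul, zpow_natCast, Finset.prod_pow, Units.val_pow_eq_pow_val, ← h4]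
        exact congrArg Subtype.val h))
      exact funext fun a => (mul_eq_zero.1 (congrFun this a)).resolve_right
        (by exact_mod_cast hn.ne')) hε
  refine ⟨C, hC, fun α hα ha hnd η hη f hf hfα => ?_⟩
  lift α to Qb using mem_algebraicClosure_iff.2 ha
  obtain ⟨η, rfl⟩ : ∃ x : Qb, (x : ℂ) = η := by
    obtain ⟨-, n, hn, g, hg, h⟩ := hη
    exact hq η n hn (h ▸ halg g hg)
  have hη' := (h5 η).2 hη
  have hX : ∀ y ∈ {z : ℂ | ∃ n : ℕ, 1 ≤ n ∧
      (z ^ n = 1 ∨ (n.primeFactors ⊆ S ∧ ∃ g ∈ Γ, (g : ℂ) = z ^ n))}, ∃ x : Qb, (x : ℂ) = y ∧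
      c.Lev (S.filter Nat.Prime ∪ N.primeFactors) {()} fun _ => x := by
    rintro y ⟨n, hn, h | ⟨hnS, g, hg, h⟩⟩
    · obtain ⟨x, rfl⟩ := hq y n hn (h ▸ isAlgebraic_one)
      exact ⟨x, rfl, n, 1, hn, one_dvd _, by simp, fun _ _ σ hσ =>
        Ctx.fix hn hσ.1 dvd_rfl (Subtype.ext h)⟩
    · obtain ⟨x, rfl⟩ := hq y n hn (h ▸ halg g hg)
      obtain ⟨w, hw⟩ := h3 g hg
      have hM := Nat.mul_pos hn hN
      refine ⟨x, rfl, n * N, n * N, hM, dvd_rfl, ?_, fun _ _ σ hσ => ?_⟩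
      · rw [Nat.primeFactors_mul (by omega) hN.ne']
        exact Finset.union_subset_union_left fun p hp =>
          Finset.mem_filter.2 ⟨hnS hp, Nat.prime_of_mem_primeFactors hp⟩
      have h7 : (∏ a, c.t a (n * N) ^ w a) ≠ 0 :=
        Finset.prod_ne_zero_iff.2 fun a _ => zpow_ne_zero _ ((c.hs a).ne _)
      have h8 : (x / ∏ a, c.t a (n * N) ^ w a) ^ (n * N) = 1 := by
        have e : ∀ a, (c.t a (n * N) ^ w a) ^ (n * N) = c.t a 1 ^ w a := fun a => by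
          rw [← zpow_natCast, ← zpow_mul, mul_comm (w a), zpow_mul, zpow_natCast, (c.hs a).pw1 hM]
        rw [div_pow, div_eq_one_iff_eq (pow_ne_zero _ h7), ← Finset.prod_pow,
          Finset.prod_congr rfl fun a _ => e a]
        exact Subtype.ext (by rw [h4, ← hw, pow_mul]; simp [h])
      have h9 := Ctx.fix hM hσ.1 dvd_rfl h8
      rwa [map_div₀, Fx.prod (A := c.Lv (n * N) (n * N)) _ (fun a _ =>
        Fx.zpow (fun _ hσ => (Ctx.mem_Lv.1 hσ).2 a) _) σ hσ, div_left_inj' h7] at h9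
  obtain ⟨m, n, h7, h8, h9, h10⟩ := c.idx_minpoly (S := S.filter Nat.Prime ∪ N.primeFactors)
    (Ctx.lev_adjoin hX) (α * η)
  have h11 := h6 _ m n _ ⟨h7, h8, h9, mul_ne_zero (fun h => hα (congrArg Subtype.val h)) hη'.ne,
      fun h => hnd ((h5 α).1 (by
        have := h.mul hη'.inv
        rwa [mul_inv_cancel_right₀ hη'.ne] at this)), h10⟩ _ hη'.inv
  rw [mul_inv_cancel_right₀ hη'.ne] at h11
  exact h11.trans (ht_le_mahler hf ((algebraMap Qb ℂ).injective (by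
      rw [← Polynomial.aeval_algebraMap_apply, map_zero]; exact hfα)))

end Pool.Agent.Lib.MP_f61260_nt
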