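import Pool.Agent.Lib.MP_f61260_nt.Ad8
import Pool.Agent.Lib.MP_f61260_nt.Glob7

/-! Choice of parameters and counting primes. -/

set_option autoImplicit false
set_option maxHeartbeats 400000

namespace Pool.Agent.Lib.MP_f61260_nt

open Real

lemma IdxLe.half {𝒢 : Type} [Group 𝒢] {B A A' : Subgroup 𝒢} {D : ℕ} (h : IdxLe B A' D)
    (h1 : A' ≤ A) (h2 : A ≤ B) {σ : 𝒢} (h3 : σ ∈ A) (h4 : σ ∉ A') :
    ∃ D', IdxLe B A D' ∧ 2 * D' ≤ D := by
  obtain ⟨T, -⟩ := h.restrict le_rfl (inf_le_right.trans h1)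
  obtain ⟨T', -⟩ := h.restrict h2 inf_le_right
  obtain ⟨T0, hT⟩ := h
  refine ⟨_, ⟨T, le_rfl⟩, le_trans ?_ hT⟩
  rw [T0.card_eq (T.comp T' h2 h1), Trans.comp_card, mul_comm]
  refine Nat.mul_le_mul_left _ (Fintype.one_lt_card_iff.2
    ⟨T'.idx h3, T'.idx A.one_mem, fun h5 => h4 ?_⟩)
  have := A'.mul_mem (A'.inv_mem (T'.idx_spec A.one_mem)) (h5 ▸ T'.idx_spec h3)
  simpa using this

/-- automorphisms fixing the roots of unity of a given order -/
def Mu (n : ℕ) : Subgroup GA where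
  carrier := {σ | ∀ x : Qb, x ^ n = 1 → σ x = x}
  one_mem' _ _ := rfl
  mul_mem' {a b} ha hb x hx := by rw [AlgEquiv.mul_apply, hb x hx, ha x hx]
  inv_mem' {a} ha x hx := (St ℚ x).inv_mem (ha x hx)

instance (n : ℕ) : (Mu n).Normal := ⟨fun a ha g x hx => by
  rw [AlgEquiv.mul_apply, AlgEquiv.mul_apply, ha _ (by rw [← map_pow, hx, map_one]),
    ← AlgEquiv.mul_apply, mul_inv_cancel, AlgEquiv.one_apply]⟩

lemma exists_ctx : Nonempty (Ctx Empty) := by
  obtain ⟨z, hz1, hz2⟩ := exists_sys (2 * π * Complex.I) (by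
    rw [Complex.exp_two_pi_mul_I]; exact isAlgebraic_one)
  exact ⟨⟨z, fun a => a.elim, hz1, fun n hn => IsPrimitiveRoot.coe_submonoidClass_iff.1 (by
    rw [hz2]; exact Complex.isPrimitiveRoot_exp n hn.ne'), fun a => a.elim⟩⟩

lemma Cyc.loc {p : ℕ} [Fact p.Prime] {z : ℕ → Qb} (h : Cyc p z) : Cyc p fun i => io p (z i) :=
  ⟨fun i => (h.prim i).map_of_injective (io p).injective, fun i => by rw [← map_pow, h.pw]⟩

lemma ine_mu {p : ℕ} [Fact p.Prime] {σ : LA p} (h : σ ∈ Ine p) {m : ℕ} (hm : ¬ p ∣ m) :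
    res p σ ∈ Mu m := fun x hx => (io p).injective
  ((io_res σ x).trans (h _ ⟨m, hm, by rw [← map_pow, hx, map_one]⟩))

lemma ine_onto {p : ℕ} [hp : Fact p.Prime] (u : GA) (a : ℕ) :
    ∃ σ ∈ Ine p, (res p σ)⁻¹ * u ∈ Mu (p ^ (a + 1)) := by
  obtain ⟨c⟩ := exists_ctx
  have h := c.cyc (p := p)
  obtain ⟨σ, h1, h2⟩ := h.loc.trans_ine a
    (((h.prim (a + 1)).map_of_injective u.injective).map_of_injective (io p).injective)
  refine ⟨σ, h1, fun x hx => h.fix hp.out le_rfl ?_ hx⟩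
  rw [← io_res] at h2
  rw [AlgEquiv.mul_apply, ← (io p).injective h2, ← AlgEquiv.mul_apply, inv_mul_cancel,
    AlgEquiv.one_apply]

lemma bad_card {V : Subgroup GA} (B : Finset ℕ) (hB : ∀ p ∈ B, p.Prime ∧ V ⊔ Mu p ≠ ⊤) {D : ℕ}
    (hD : IdxLe ⊤ V D) : 2 ^ B.card ≤ D := by
  have h : IdxLe ⊤ (⨅ p ∈ B, V ⊔ Mu p) D :=
    hD.restrict le_rfl (inf_le_right.trans (le_iInf₂ fun _ _ => le_sup_left))
  clear hD
  induction B using Finset.induction_on generalizing D with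
  | empty => exact let ⟨T, hT⟩ := h; T.card_pos.trans_le hT
  | insert p B hp ih =>
    have := Fact.mk (hB p (by simp)).1
    obtain ⟨σ, h1, h2⟩ : ∃ σ ∈ Ine p, res p σ ∉ V ⊔ Mu p := by
      by_contra hc
      push Not at hc
      refine (hB p (by simp)).2 (eq_top_iff.2 fun u _ => ?_)
      obtain ⟨σ, h1, h2⟩ := ine_onto (p := p) u 0
      rw [zero_add, pow_one] at h2
      simpa using Subgroup.mul_mem _ (hc σ h1) (Subgroup.mem_sup_right h2)
    rw [Finset.iInf_insert] at h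
    obtain ⟨D', h3, h4⟩ := h.half inf_le_right le_top (σ := res p σ)
      (Subgroup.mem_iInf.2 fun q => Subgroup.mem_iInf.2 fun hq => Subgroup.mem_sup_right
        (ine_mu h1 fun h => hp (by
          rwa [(Nat.prime_dvd_prime_iff_eq this.out (hB q (by simp [hq])).1).1 h])))
      fun h => h2 h.1
    rw [Finset.card_insert_of_notMem hp, pow_succ']
    exact (Nat.mul_le_mul_left _ (ih (fun q hq => hB q (by simp [hq])) h3)).trans h4

/-- primes between `u` and `u ^ 2` -/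
def PS (u : ℕ) : Finset ℕ := (Finset.Ioc u (u ^ 2)).filter Nat.Prime

lemma card_PS {u : ℕ} (hu : 1024 ≤ u) : 3 * u ≤ (PS u).card := by
  have h := Chebyshev.pi_ge (u ^ 2)
  have hu' : (1024 : ℝ) ≤ u := by exact_mod_cast hu
  have hlog : ∀ t : ℝ, 0 < t → log t ≤ 2 * √t := fun t ht => by
    have := log_le_sub_one_of_pos (sqrt_pos.2 ht)
    rw [log_sqrt ht.le] at this
    linarith
  push_cast at h
  have h1 : log ((u : ℝ) ^ 2 + 1) ≤ u ^ 2 / 6 := by
    refine (hlog _ (by positivity)).trans ?_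
    have : √((u : ℝ) ^ 2 + 1) ≤ 2 * u := sqrt_le_iff.2 ⟨by positivity, by nlinarith⟩
    nlinarith
  have h2 : log ((u : ℝ) ^ 2) ≤ u / 8 := by
    rw [log_pow]
    have k1 := hlog u (by linarith)
    have k2 : (32 : ℝ) ≤ √u := le_sqrt_of_sq_le (by linarith)
    have k3 : √(u : ℝ) * √u = u := mul_self_sqrt (by positivity)
    push_cast
    nlinarith
  have h4 : (4 : ℝ) * u ≤ (u ^ 2 * log 2 - log (u ^ 2 + 1)) / log (u ^ 2) := by
    rw [le_div_iff₀ (log_pos (by nlinarith))]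
    have := log_two_gt_d9
    nlinarith
  have h5 : 4 * u ≤ (Nat.primesLE (u ^ 2)).card := by
    rw [Nat.primesLE_card_eq_primeCounting]
    exact_mod_cast h4.trans h
  have h6 := Finset.card_le_card (s := Nat.primesLE (u ^ 2)) (t := PS u ∪ Finset.Ioc 0 u)
    fun p hp => by
      have h7 := Nat.prime_of_mem_primesLE hp
      have h8 := Nat.le_of_mem_primesLE hp
      have := h7.pos
      simp only [PS, Finset.mem_union, Finset.mem_filter, Finset.mem_Ioc, h7, and_true]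
      omega
  have h7 := Finset.card_union_le (PS u) (Finset.Ioc 0 u)
  rw [Nat.card_Ioc] at h7
  omega

theorem indep2 (σ : Type) [Fintype σ] : ∃ x0 : ℕ, ∀ x ≥ x0, ∀ u, u = x ^ (7 * Fintype.card σ + 13) →
    ∀ (U : Subgroup GA) (P : σ → Qb) (Λ : Submodule ℤ (σ → ℤ)) (S : Finset ℕ) (δ : ℕ), Ab U →
    (∀ i, P i ≠ 0) → (∀ a ∈ Λ, a ≠ 0 → ¬ Tor (mon P a)) → S ⊆ PS u → u ≤ S.card →
    (∀ p ∈ S, ∀ _ : Fact p.Prime, IdxLe (Ine p) (U.comap (res p)) (x ^ 4)) →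
    (∀ p ∈ S, ∀ v ∈ U, ∃ v' ∈ U ⊓ Mu p, ∀ a ∈ Λ, v' (mon P a) = v (mon P a)) →
    1 ≤ δ → δ ≤ 4 ^ x → 4 * (u ^ 2) ^ (Fintype.card σ + 2) * δ * ∑ i, ht (P i) ≤ 1 →
    LinearIndependent (Kf U) fun a : bx Λ δ => mon P a := by
  obtain ⟨n, hn⟩ : ∃ n, n = Fintype.card σ := ⟨_, rfl⟩
  rw [← hn]
  refine ⟨n * (6 + (n + 1) * (14 * n + 26)) + 2, fun x hx u hu U P Λ S δ hU hP hnt hS hc hJ hd h1
    h2 h3 => ?_⟩
  have hx2 : 2 ≤ x := by omega
  have hS' : ∀ j : S, (u < j ∧ j ≤ u ^ 2) ∧ j.1.Prime := fun j => by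
    simpa [PS] using hS j.2
  have hu1 : 64 * (x ^ 7) ^ (n + 1) ≤ u := by
    rw [hu, ← pow_mul, show 7 * n + 13 = 6 + 7 * (n + 1) by ring, pow_add]
    exact Nat.mul_le_mul_right _ (Nat.pow_le_pow_left hx2 6)
  have hx1 : 1 ≤ (x ^ 7) ^ (n + 1) := Nat.one_le_pow _ _ (by positivity)
  have hxR : (2 : ℝ) ≤ x := by exact_mod_cast hx2
  choose φ hφ using fun j : S => @frob_ex σ _ j ⟨(hS' j).2⟩ U hU _ (hJ j j.2 _) (1 / x ^ 4)
    (by positivity) (by
      push_cast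
      rw [one_div_mul_cancel (by positivity), le_log_iff_exp_le (Nat.cast_pos.2 (hS' j).2.pos)]
      have : 3 ≤ (j : ℕ) := by have := (hS' j).1.1; omega
      exact exp_one_lt_three.le.trans (by exact_mod_cast this))
  have hM : S.card ≤ u ^ 2 := (Finset.card_le_card (hS.trans (Finset.filter_subset _ _))).trans
    (by simp)
  have hν : 4 * Fintype.card S * δ * (u ^ 2) ^ n ≤ 4 * (u ^ 2) ^ (n + 1) * δ := by
    rw [Fintype.card_coe, pow_succ _ n]
    nlinarith [Nat.mul_le_mul_right (δ * (u ^ 2) ^ n) hM]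
  refine indep (l := fun j : S => ⟨j, (hS' j).2⟩) hU hP hnt
    (fun i j h => Subtype.ext (congrArg (fun x : Pr => x.1) h)) hφ (N := u ^ 2) (T := x ^ 7)
    (fun j => (hS' j).1.2) (hx2.trans (Nat.le_self_pow (by norm_num) x))
    (fun j => by have := (hS' j).1.1; rw [← hn]; dsimp only; omega)
    (by rw [← hn, Fintype.card_coe]; omega)
    (fun j v hv => let ⟨v', e1, e2⟩ := hd j j.2 v hv; ⟨v', e1.1, e1.2, e2⟩) h1 rfl
    (L := x ^ 2) ?_ ?_ ?_
  · have e1 : 2 * (4 * Fintype.card S * δ * (u ^ 2) ^ n) + 1 ≤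
        2 ^ (x * (6 + (n + 1) * (14 * n + 26))) := by
      have e2 : (u ^ 2) ^ (n + 1) ≤ 2 ^ (x * ((n + 1) * (14 * n + 26))) := by
        rw [hu, ← pow_mul, ← pow_mul, pow_mul 2]
        exact (Nat.pow_le_pow_left Nat.lt_two_pow_self.le _).trans (le_of_eq (by congr 1; ring))
      have e3 : 4 ^ x * 16 ≤ 2 ^ (x * 6) := by
        rw [mul_comm x, pow_mul, show 2 ^ 6 = 4 * 16 by norm_num, mul_pow]
        exact Nat.mul_le_mul_left _ (Nat.le_self_pow (by omega) _)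
      have e4 := Nat.mul_le_mul e3 e2
      have e5 := Nat.mul_le_mul_left (4 * (u ^ 2) ^ (n + 1)) h2
      have e6 : 0 < 4 ^ x * (u ^ 2) ^ (n + 1) := by
        have : 0 < u := by omega
        positivity
      rw [mul_add, pow_add]
      nlinarith
    have e2 := log_le_log (by positivity) (show (2 * (4 * Fintype.card S * δ * (u ^ 2) ^ n : ℕ) + 1 : ℝ)
      ≤ 2 ^ (x * (6 + (n + 1) * (14 * n + 26))) by exact_mod_cast e1)
    rw [log_pow] at e2
    obtain ⟨K, hK⟩ : ∃ K, K = 6 + (n + 1) * (14 * n + 26) := ⟨_, rfl⟩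
    rw [← hK] at e2 hx
    have e3 : ((n * K + 2 : ℕ) : ℝ) ≤ x := by exact_mod_cast hx
    have e4 := log_two_lt_d9
    have e5 : ((x * K : ℕ) : ℝ) * log 2 ≤ x * K := by
      push_cast
      exact mul_le_of_le_one_right (by positivity) (by linarith)
    have e6 := mul_le_mul_of_nonneg_left (e2.trans e5) (Nat.cast_nonneg (α := ℝ) n)
    rw [← hn]
    push_cast at e3
    nlinarith
  · push_cast
    rw [mul_one_div, le_div_iff₀ (by positivity), show (x : ℝ) ^ 7 = x * (x ^ 2 * x ^ 4) by ring,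
      mul_assoc]
    gcongr
  · refine le_trans (mul_le_mul_of_nonneg_right ?_
      (Finset.sum_nonneg fun i _ => ht_nonneg (P i))) h3
    have := Nat.mul_le_mul_left (u ^ 2) hν
    rw [← hn]
    exact_mod_cast this.trans (le_of_eq (by ring))

end Pool.Agent.Lib.MP_f61260_nt
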