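import Pool.Agent.Lib.MP_f61260_nt.Ad9

/-! The discriminant argument at a ramified prime. -/

set_option autoImplicit false
set_option maxHeartbeats 400000

namespace Pool.Agent.Lib.MP_f61260_nt

open Polynomial Real

variable {p : ℕ} [hp : Fact p.Prime]

lemma block3 {U : Subgroup GA} {w : GA} {η : ℝ} (h0 : 0 ≤ η) (hη : η ^ p ≤ ‖(p : Om p)‖)
    (hw : ∀ x, Fx U x → ‖io p x‖ ≤ 1 → ‖io p (w x) - io p x‖ ≤ η)
    (iso : ∀ x, ‖io p (w x)‖ = ‖io p x‖) {β : Qb} (T : Trans U (St ℚ β)) :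
    ∏ k, ‖io p (β ^ p) - io p (w (T.r k (β ^ p)))‖ ≤ ‖(p : Om p)‖ *
      ∏ k, (max 1 ‖io p (β ^ p)‖ * max 1 ‖io p (w (T.r k (β ^ p)))‖) := by
  obtain ⟨n0, -, hn0⟩ := Finset.exists_max_image (Finset.range (T.card + 1))
    (fun n => ‖io p ((T.poly β).coeff n)‖) ⟨0, by simp⟩
  obtain ⟨c, hc⟩ : ∃ c, c = (T.poly β).coeff n0 := ⟨_, rfl⟩
  rw [← hc] at hn0
  have hmon : (T.poly β).Monic := Polynomial.monic_prod_of_monic _ _ fun i _ => monic_X_sub_C _
  have hc1 : 1 ≤ ‖io p c‖ := by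
    have := hn0 T.card (by simp)
    rwa [← T.poly_natDegree β, hmon.coeff_natDegree, map_one, norm_one] at this
  have hc0 : 0 < ‖io p c‖ := one_pos.trans_le hc1
  have h2 : (T.poly β).eval β = 0 := T.poly_eval_self (Fx.st β) U.one_mem
  have h3 : w c⁻¹ * ∏ k, (β - w (T.r k β)) = ∑ n ∈ Finset.range (T.card + 1),
      (w (c⁻¹ * (T.poly β).coeff n) - c⁻¹ * (T.poly β).coeff n) * β ^ n := by
    have h4 := congrArg (eval β) (T.poly_map β w)
    rw [eval_prod, eval_eq_sum_range' (n := T.card + 1) (Nat.lt_succ_of_le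
      (natDegree_map_le.trans (T.poly_natDegree β).le))] at h4
    rw [eval_eq_sum_range, T.poly_natDegree] at h2
    simp only [eval_sub, eval_X, eval_C, coeff_map] at h4
    simp only [sub_mul, Finset.sum_sub_distrib, map_mul, mul_assoc, ← Finset.mul_sum, h2, ← h4]
    simp
  have h1 : ‖io p (w c⁻¹ * ∏ k, (β - w (T.r k β)))‖ ≤ η * max 1 ‖io p β‖ ^ T.card := by
    rw [h3, map_sum]
    refine nsum_le (mul_nonneg h0 (pow_nonneg m10 _)) fun n hn => ?_
    rw [map_mul, map_sub, norm_mul, map_pow, norm_pow]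
    refine mul_le_mul (hw _ ((hc ▸ T.poly_coeff (Fx.st β) n0).inv.mul (T.poly_coeff (Fx.st β) n)) ?_)
      ((pow_le_pow_left₀ (norm_nonneg _) (le_max_right _ _) n).trans (pow_le_pow_right₀
        (le_max_left _ _) (Nat.lt_succ_iff.1 (Finset.mem_range.1 hn)))) (by positivity) h0
    rw [map_mul, map_inv₀, norm_mul, norm_inv, inv_mul_le_iff₀ hc0, mul_one]
    exact hn0 n hn
  have h4 : ‖io p c‖ ≤ ∏ k, max 1 ‖io p (T.r k β)‖ := by
    have := coeff_prod_le Finset.univ (fun k => (io p).toRingHom (T.r k β)) zero_le_one n0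
    rwa [← poly_mapK, Polynomial.coeff_map, one_pow, mul_one, ← hc] at this
  rw [map_mul, norm_mul, iso, map_inv₀, norm_inv, inv_mul_le_iff₀ hc0, map_prod, norm_prod] at h1
  have hη1 : η ≤ 1 := by
    by_contra hc
    exact absurd (hη.trans np_lt.le) (not_le.2 (one_lt_pow₀ (not_le.1 hc) hp.out.ne_zero))
  have := amp hp.out Finset.univ (y := fun _ => io p β) (z := fun k => io p (w (T.r k β)))
    (R := fun k => max 1 ‖io p β‖ * max 1 ‖io p (w (T.r k β))‖)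
    (fun _ _ => (le_max_left _ _).trans (max_le_mul _ _))
    (fun _ _ => (le_max_right _ _).trans (max_le_mul _ _)) h0 (by
      simp only [iso, ← map_sub]
      refine h1.trans ((mul_le_mul_of_nonneg_right h4
        (mul_nonneg h0 (pow_nonneg m10 _))).trans (le_of_eq ?_))
      rw [Finset.prod_mul_distrib, Finset.prod_const, Finset.card_univ, ← Trans.card]
      ring)
  simp only [map_pow]
  refine this.trans (mul_le_mul (max_le hη (mul_le_of_le_one_right (norm_nonneg _) hη1))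
    (le_of_eq ?_) (Finset.prod_nonneg fun _ _ => pow_nonneg (mul_nonneg m10 m10) _)
    (norm_nonneg _))
  refine Finset.prod_congr rfl fun k _ => ?_
  rw [mul_pow, max_one_pow (norm_nonneg _), max_one_pow (norm_nonneg _), ← norm_pow, ← norm_pow]

omit hp in
lemma ex_stab {G X W : Subgroup GA} (hXW : X ≤ W) (hW : W ≤ G)
    (ab : ∀ τ ∈ G, ∀ w ∈ W, τ⁻¹ * w * τ * w⁻¹ ∈ X) (a : Qb) : ∃ Y : Subgroup GA, X ≤ Y ∧ Y ≤ W ∧
      (∀ w ∈ Y, ∃ v ∈ X, w a = v a) ∧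
      ∀ θ ∈ G, ∀ w ∈ W, ∀ v ∈ X, ∀ v' ∈ X, w (v (θ a)) = v' (θ a) → w ∈ Y := by
  have nX : ∀ τ ∈ G, ∀ v ∈ X, τ⁻¹ * v * τ ∈ X := fun τ hτ v hv => by
    simpa using X.mul_mem (ab τ hτ v (hXW hv)) hv
  refine ⟨
    { carrier := {x | x ∈ W ∧ ∃ u ∈ X, x a = u a}
      one_mem' := ⟨W.one_mem, 1, X.one_mem, rfl⟩
      mul_mem' := ?_
      inv_mem' := ?_ }, fun v hv => ⟨hXW hv, v, hv, rfl⟩, fun _ h => h.1, fun _ h => h.2,
    fun θ hθ w hw v hv v' hv' h => ⟨hw, _, X.inv_mem (X.mul_mem (X.mul_mem (ab θ hθ _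
      (W.mul_mem (W.mul_mem (W.inv_mem (hXW hv')) hw) (hXW hv))) (X.inv_mem hv'))
      (nX _ (G.inv_mem (hW hw)) v hv)), ?_⟩⟩
  · rintro x x' ⟨h1, u, hu, h2⟩ ⟨h1', u', hu', h2'⟩
    refine ⟨W.mul_mem h1 h1', _, X.mul_mem (nX _ (G.inv_mem (hW h1)) _ hu') hu, ?_⟩
    rw [AlgEquiv.mul_apply, h2', AlgEquiv.mul_apply, ← h2]
    simp only [← AlgEquiv.mul_apply]
    congr 1
    group
  · rintro x ⟨h1, u, hu, h2⟩
    refine ⟨W.inv_mem h1, _, nX _ (hW h1) _ (X.inv_mem hu), ?_⟩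
    rw [AlgEquiv.mul_apply, h2]
    simp only [← AlgEquiv.mul_apply]
    congr 1
    group
  · have h1 : (θ⁻¹ * v'⁻¹ * (w * (v * θ))) a = a := by
      rw [AlgEquiv.mul_apply, AlgEquiv.mul_apply w, AlgEquiv.mul_apply v, h]
      simp only [← AlgEquiv.mul_apply]
      rw [mul_assoc, inv_mul_cancel_left, inv_mul_cancel, AlgEquiv.one_apply]
    conv_rhs => rw [← h1]
    simp only [← AlgEquiv.mul_apply]
    congr 1
    group

theorem azcore {G X W Y : Subgroup GA} {d D N J : ℕ} (hG : IdxLe ⊤ G d) (hXY : X ≤ Y)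
    (hYW : Y ≤ W) (hW : W ≤ G) (ab : ∀ τ ∈ G, ∀ w ∈ W, τ⁻¹ * w * τ * w⁻¹ ∈ X) {η : ℝ} (h0 : 0 ≤ η)
    (hη : η ^ p ≤ ‖(p : Om p)‖) (cl : ∀ w ∈ W, ∃ g, g⁻¹ * w ∈ X ∧
      (∀ x, ‖io p (g x)‖ = ‖io p x‖) ∧ ∀ x, Fx X x → ‖io p x‖ ≤ 1 → ‖io p (g x) - io p x‖ ≤ η)
    {α c : Qb} (hc : ∀ u ∈ G, ‖io p (u c)‖ = 1 ∧ ∃ ξ, Tor ξ ∧ u c = ξ * c) (hrig : Rig X α)
    (hD : IdxLe X (St ℚ α) D) (hN : IdxLe W X N) (hY : ∀ θ ∈ G, ∀ w ∈ W, ∀ v ∈ X, ∀ v' ∈ X,
      w (v (θ (α ^ p))) = v' (θ (α ^ p)) → w ∈ Y) (hJ : ¬ IdxLe W Y J) :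
    J * log p ≤ d * (2 * log (N * D) + 2 * (N * D) * (p * ht (α * c))) := by
  classical
  have hXW := hXY.trans hYW
  have hc0 : c ≠ 0 := fun h => by simpa [h] using (hc 1 G.one_mem).1
  have nX : ∀ τ ∈ G, ∀ v ∈ X, τ⁻¹ * v * τ ∈ X := fun τ hτ v hv => by
    simpa using X.mul_mem (ab τ hτ v (hXW hv)) hv
  have nW : ∀ τ ∈ G, ∀ v ∈ W, τ⁻¹ * v * τ ∈ W := fun τ hτ v hv => by
    simpa using W.mul_mem (hXW (ab τ hτ v hv)) hv
  obtain ⟨a, ha⟩ : ∃ a, a = α ^ p := ⟨_, rfl⟩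
  rw [← ha] at hY
  have ha' : ∀ u : GA, u a = u α ^ p := fun u => by rw [ha, map_pow]
  obtain ⟨T, hT⟩ : IdxLe W (St ℚ a) (N * D) :=
    (hN.trans' hD hXW).restrict le_rfl fun σ hσ => by rw [mem_St, ha, map_pow, mem_St.1 hσ.2]
  obtain ⟨T3, -⟩ := hN.restrict le_rfl (inf_le_right.trans hXY)
  have hJ' : J + 1 ≤ T3.card := not_le.1 fun h => hJ ⟨T3, h⟩
  choose g g1 g2 g3 using fun k => cl _ (T3.mem k)
  have g4 : ∀ k, g k ∈ W := fun k => by
    simpa using W.mul_mem (T3.mem k) (W.inv_mem (hXW (g1 k)))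
  let y : T.ι → Qb := fun i => T.r i a * c ^ p
  have hy : Function.Injective y := fun i i' h =>
    T.inj (y := a) (fun _ _ h => h) (mul_right_cancel₀ (pow_ne_zero _ hc0) h)
  obtain ⟨V, ⟨TV⟩, hV⟩ := trG y
  obtain ⟨T1, -⟩ := IdxLe.restrict (A' := G ⊓ V) ⟨TV, le_rfl⟩ (le_top : G ≤ ⊤) le_rfl
  have hH : ∀ i, ht (y i) ≤ p * ht (α * c) := fun i => by
    obtain ⟨-, ξ, h1, h2⟩ := hc _ (hW (T.mem i))
    have : ξ * (T.r i α * c) = T.r i (α * c) := by rw [map_mul, h2]; ring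
    change ht (T.r i a * c ^ p) ≤ _
    rw [ha', ← mul_pow, ht_pow, ← h1.ht, this, ht_conj]
  have key := vdm hy p hG (inf_le_left : G ⊓ V ≤ G) (fun i => (hV i).mono inf_le_right)
    T1 (fun _ => (J * T.card : ℕ) * log p) (fun τ hτ => by
      rw [← np_exp, pow_mul, Trans.card, ← Finset.card_univ, ← Finset.prod_const,
        ← Finset.prod_mul_distrib]
      refine Finset.prod_le_prod (fun _ _ => pn0) fun i _ => ?_
      have hθ := G.mul_mem hτ (hW (T.mem i))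
      obtain ⟨β, hβ⟩ : ∃ β, β = (τ * T.r i) α := ⟨_, rfl⟩
      have hβa : β ^ p = (τ * T.r i) a := by rw [ha', hβ]
      have hr : Rig X β := hβ ▸ hrig.conj (nX _ hθ)
      obtain ⟨_, h1⟩ := fiG β
      obtain ⟨T2, -⟩ := h1.restrict (le_top : X ≤ ⊤) inf_le_right
      have hex : ∀ x : T3.ι × T2.ι, ∃ i', τ (T.r i' a) = g x.1 (T2.r x.2 (β ^ p)) := by
        intro x
        obtain ⟨i', hi'⟩ := T.ex_eq (Fx.st a) (W.mul_mem
          (nW τ hτ _ (W.mul_mem (g4 x.1) (hXW (T2.mem x.2)))) (T.mem i))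
        refine ⟨i', ?_⟩
        rw [hi', hβa]
        simp only [← AlgEquiv.mul_apply]
        congr 1
        group
      choose ψ hψ using hex
      refine prod_le_of_inj _ (Finset.univ.erase (T3.idx W.one_mem) ×ˢ Finset.univ) ψ ?_ ?_
        (fun _ => norm_nonneg _)
        (fun _ => (nsub_le (le_max_left _ _) (le_max_right _ _)).trans (max_le_mul _ _)) ?_
      · rintro ⟨l, k⟩ - ⟨l', k'⟩ - h
        have h1 : g l (T2.r k (β ^ p)) = g l' (T2.r k' (β ^ p)) := by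
          rw [← hψ (l, k), ← hψ (l', k'), h]
        have h2 := hY _ hθ _ (W.mul_mem (W.inv_mem (g4 l')) (g4 l)) _ (T2.mem k) _ (T2.mem k') (by
          rw [← hβa, AlgEquiv.mul_apply, h1, ← AlgEquiv.mul_apply, inv_mul_cancel,
            AlgEquiv.one_apply])
        obtain rfl : l' = l := T3.uniq _ _ (by
          simpa [mul_assoc] using Y.mul_mem (Y.mul_mem (Y.inv_mem (hXY (g1 l'))) h2) (hXY (g1 l)))
        have hm := X.mul_mem (X.inv_mem (T2.mem k)) (T2.mem k')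
        rw [T2.uniq k k' (hr _ hm _ hp.out.pos (by
          rw [AlgEquiv.mul_apply, ← (g l').injective h1, ← AlgEquiv.mul_apply,
            inv_mul_cancel, AlgEquiv.one_apply]))]
      · rintro ⟨l, k⟩ hx
        refine Finset.mem_erase.2 ⟨fun h => Finset.ne_of_mem_erase (Finset.mem_product.1 hx).1
          (T3.uniq' ?_ (T3.idx_spec W.one_mem)), Finset.mem_univ _⟩
        have h2 := hY _ hθ _ (g4 l) _ (T2.mem k) _ X.one_mem (by
          rw [← hβa, ← hψ (l, k), h, hβa]; rfl)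
        simpa using Y.inv_mem (Y.mul_mem h2 (hXY (g1 l)))
      · rw [Finset.prod_product, Finset.prod_product]
        refine le_trans ?_ (mul_le_mul_of_nonneg_right (pow_le_pow_of_le_one (norm_nonneg _)
          np_lt.le (show J ≤ (Finset.univ.erase (T3.idx W.one_mem)).card by
            rw [Finset.card_erase_of_mem (Finset.mem_univ _)]
            exact Nat.le_sub_one_of_lt hJ')) (Finset.prod_nonneg fun _ _ =>
              Finset.prod_nonneg fun _ _ => mul_nonneg m10 m10))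
        rw [← Finset.prod_const, ← Finset.prod_mul_distrib]
        refine Finset.prod_le_prod (fun _ _ => pn0) fun l _ => ?_
        have h3 : ‖io p (τ (c ^ p))‖ = 1 := by rw [map_pow, map_pow, norm_pow, (hc τ hτ).1, one_pow]
        have h4 : τ (T.r i a) = β ^ p := hβa.symm
        simp only [y, map_mul, hψ, h4, ← sub_mul, norm_mul, h3, mul_one]
        exact block3 h0 hη (g3 l) (g2 l) T2) hH
  have h2 := card_posR T1
  have h3 := card_posR T
  have h4 : (T.card : ℝ) ≤ N * D := by exact_mod_cast hT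
  have h5 := ht_nonneg (α * c)
  rw [Trans.sum, Finset.sum_const, Finset.card_univ, nsmul_eq_mul, Nat.cast_mul] at key
  change T1.card * _ ≤ d * T1.card * (2 * T.card * log T.card + 2 * T.card ^ 2 * _) at key
  refine le_of_mul_le_mul_left (le_of_mul_le_mul_left ?_ h2) h3
  calc _ = T1.card * (J * T.card * log p) := by ring
    _ ≤ _ := key
    _ = T1.card * (T.card * (d * (2 * log T.card + 2 * T.card * (p * ht (α * c))))) := by ring
    _ ≤ _ := by gcongr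

end Pool.Agent.Lib.MP_f61260_nt
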