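import Pool.Agent.Lib.MP_f61260_nt.Az1

/-! Reduction of the ramification at many primes. -/

set_option autoImplicit false
set_option maxHeartbeats 400000

namespace Pool.Agent.Lib.MP_f61260_nt

open Polynomial Real Filter

lemma IdxLe.exists_pow' {𝒢 : Type} [Group 𝒢] {B A : Subgroup 𝒢} {n : ℕ} (h : IdxLe B A n)
    {σ : 𝒢} (hσ : σ ∈ B) : ∃ N : ℕ, 0 < N ∧ N ≤ n ∧ σ ^ N ∈ A := by
  obtain ⟨T, hT⟩ := h
  have key : ∀ i j : ℕ, i < j → j ≤ n → T.idx (B.pow_mem hσ i) = T.idx (B.pow_mem hσ j) →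
      ∃ N : ℕ, 0 < N ∧ N ≤ n ∧ σ ^ N ∈ A := by
    intro i j hij hj h
    obtain ⟨d, rfl⟩ := Nat.exists_eq_add_of_lt hij
    have := A.mul_mem (A.inv_mem (T.idx_spec (B.pow_mem hσ i)))
      (h ▸ T.idx_spec (B.pow_mem hσ (i + d + 1)))
    rw [add_assoc, pow_add] at this
    exact ⟨d + 1, d.succ_pos, by omega, by simpa [mul_assoc] using this⟩
  obtain ⟨i, hi, j, hj, hij, h⟩ := Finset.exists_ne_map_eq_of_card_lt_of_maps_to
    (s := Finset.range (n + 1)) (t := Finset.univ) (by rw [Finset.card_range]; exact Nat.lt_succ_of_le hT)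
    (f := fun i => T.idx (B.pow_mem hσ i)) fun _ _ => Finset.mem_univ _
  rw [Finset.mem_range] at hi hj
  rcases lt_or_gt_of_ne hij with h1 | h1
  · exact key i j h1 (by omega) h
  · exact key j i h1 (by omega) h.symm

lemma unit_ev {x : Qb} (hx : x ≠ 0) : ∀ᶠ p : ℕ in atTop, ∀ _ : Fact p.Prime, ‖io p x‖ = 1 := by
  obtain ⟨C, hC⟩ := ((fin_mu x).image fun v : Pl => v.elim 0 Subtype.val).bddAbove
  filter_upwards [eventually_gt_atTop C] with p hp h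
  by_contra hc
  refine hp.not_ge (hC ⟨some ⟨p, h.out⟩, fun h' => hc ?_, rfl⟩)
  exact eq_one_of_pos_of_log_eq_zero (av_pos (some ⟨p, h.out⟩) hx) h'

lemma orbit_eq {X Y : Subgroup GA} {β : Qb} {D : ℕ} (h : IdxLe X (St ℚ β) D) (hY : Y ≤ X)
    (hD : ∀ D1, IdxLe Y (St ℚ β) D1 → D1 ≤ D → D ≤ D1) : ∀ x ∈ X, ∃ y ∈ Y, x β = y β := by
  classical
  intro x hx
  by_contra hc
  obtain ⟨T, hT⟩ := h
  have h1 : ∀ y ∈ X, y β ∈ Finset.univ.image fun i => T.r i β := fun y hy =>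
    let ⟨i, hi⟩ := T.ex_eq (Fx.st β) hy; Finset.mem_image.2 ⟨i, Finset.mem_univ _, hi⟩
  have h2 := (Finset.card_erase_lt_of_mem (h1 x hx)).trans_le (Finset.card_image_le.trans hT)
  exact h2.not_ge (hD _ (idx_of_finset _ fun y hy =>
    Finset.mem_erase.2 ⟨fun h => hc ⟨y, hy, h.symm⟩, h1 y (hY hy)⟩) h2.le)

lemma twist {p : ℕ} (hp : p.Prime) {X Y : Subgroup GA} {β ζ : Qb} (hβ : β ≠ 0)
    (hζ : IsPrimitiveRoot ζ p) (hX : X ≤ Mu p) (hXY : X ≤ Y)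
    (ab : ∀ τ ∈ Y, ∀ w ∈ Y, τ⁻¹ * w * τ * w⁻¹ ∈ X) (h1 : ∀ w ∈ Y, w ζ = ζ → w ∈ X)
    (h2 : ∀ w ∈ Y, ∃ v ∈ X, w (β ^ p) = v (β ^ p)) (hrig : Rig X β) {D : ℕ}
    (hD : IdxLe X (St ℚ β) D) : ∃ ξ, Tor ξ ∧ IdxLe Y (St ℚ (ξ * β)) D := by
  have : NeZero p := ⟨hp.ne_zero⟩
  have hζ0 := hζ.ne_zero hp.ne_zero
  obtain ⟨ξ, h3, h4⟩ : ∃ ξ : Qb, ξ ^ p = 1 ∧ ∀ h ∈ Y ⊓ St ℚ (β ^ p), h (ξ * β) = ξ * β := by
    by_cases hc : ∀ h ∈ Y ⊓ St ℚ (β ^ p), h ζ = ζ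
    · exact ⟨1, one_pow p, fun h hh => by
        rw [one_mul, hrig h (h1 h hh.1 (hc h hh)) p hp.pos hh.2]⟩
    push Not at hc
    obtain ⟨h0, h3, h4⟩ := hc
    obtain ⟨ω0, h5, h6⟩ := mult_ex h0 hβ h3.2
    obtain ⟨e, -, he⟩ := (prim_of_ne hp (ω := h0 ζ / ζ) (by
      rw [div_pow, ← map_pow, hζ.pow_eq_one, map_one, div_one]) fun h =>
        h4 ((div_eq_one_iff_eq hζ0).1 h)).eq_pow_of_pow_eq_one (ξ := ω0⁻¹) (by
          rw [inv_pow, h5, inv_one])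
    have h7 : (ζ ^ e) ^ p = 1 := by rw [← pow_mul, mul_comm, pow_mul, hζ.pow_eq_one, one_pow]
    have h8 : h0 (ζ ^ e * β) = ζ ^ e * β := by
      have : ω0 ≠ 0 := fun h => by simp [h, hp.ne_zero] at h5
      rw [div_pow, div_eq_iff (pow_ne_zero _ hζ0)] at he
      rw [map_mul, map_pow, h6, he]
      field_simp
    refine ⟨ζ ^ e, h7, fun h hh => (St ℚ _).inv_mem_iff.1 ?_⟩
    have h9 := mul_ne_zero (pow_ne_zero e hζ0) hβ
    obtain ⟨ω, h10, h11⟩ := mult_ex h⁻¹ h9 (n := p) (by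
      rw [mul_pow, h7, one_mul]; exact (St ℚ _).inv_mem hh.2)
    have h12 := ab _ h3.1 _ hh.1
    have h13 : (h0⁻¹ * h * h0 * h⁻¹) (ζ ^ e * β) = ζ ^ e * β := by
      rw [map_mul, hX h12 _ h7, hrig _ h12 p hp.pos ((St ℚ _).mul_mem ((St ℚ _).mul_mem
        ((St ℚ _).mul_mem ((St ℚ _).inv_mem h3.2) hh.2) h3.2) ((St ℚ _).inv_mem hh.2))]
    have h14 : h0 (h⁻¹ (ζ ^ e * β)) = h⁻¹ (h0 (ζ ^ e * β)) := by
      conv_rhs => rw [← h13]
      simp only [← AlgEquiv.mul_apply]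
      congr 1
      group
    rw [h8, h11, map_mul, h8, mul_left_inj' h9] at h14
    by_contra hc
    exact h4 (fix_root hp.pos (prim_of_ne hp h10 fun h' => hc (by rw [mem_St, h11, h', one_mul]))
      h14 dvd_rfl hζ.pow_eq_one)
  refine ⟨ξ, ⟨p, hp.pos, h3⟩, IdxLe.cover (hD.restrict le_rfl fun σ hσ => ?_) fun w hw => ?_⟩
  · rw [mem_St, map_mul, hX hσ.1 _ h3, mem_St.1 hσ.2]
  · obtain ⟨v, hv, h5⟩ := h2 w hw
    have h6 := h4 _ ⟨Y.mul_mem (Y.inv_mem (hXY hv)) hw, mem_St.2 (by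
      rw [AlgEquiv.mul_apply, h5, ← AlgEquiv.mul_apply, inv_mul_cancel, AlgEquiv.one_apply])⟩
    refine ⟨v, hv, ?_⟩
    conv_rhs => rw [← h6, ← AlgEquiv.mul_apply, mul_inv_cancel_left]

namespace Ctx

variable {ι : Type} [Fintype ι] {c : Ctx ι}

variable (c) in
/-- primes of good reduction for the generators -/
def Good (p : ℕ) : Prop := ∀ _ : Fact p.Prime, ∀ a, ‖io p (c.t a 1)‖ = 1 ∧
  ∀ τ : GA, ‖io p (τ (c.t a 1) - c.t a 1)‖ < 1 → τ (c.t a 1) = c.t a 1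

lemma good_ev : ∀ᶠ p : ℕ in atTop, c.Good p := by
  have h : ∀ (a : ι) (i : (trS (c.t a 1)).ι), ∀ᶠ p : ℕ in atTop, ∀ _ : Fact p.Prime,
      ‖io p ((trS (c.t a 1)).r i (c.t a 1) - c.t a 1)‖ < 1 →
        (trS (c.t a 1)).r i (c.t a 1) = c.t a 1 := fun a i => by
    by_cases h : (trS (c.t a 1)).r i (c.t a 1) = c.t a 1
    · exact Eventually.of_forall fun _ _ _ => h
    · filter_upwards [unit_ev (sub_ne_zero.2 h)] with p hp h1 h2 using absurd (hp h1) h2.ne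
  filter_upwards [eventually_all.2 fun a => (unit_ev ((c.hs a).ne 1)).and
    (eventually_all.2 (h a))] with p hp h1 a
  refine ⟨(hp a).1 h1, fun τ => ?_⟩
  obtain ⟨i, hi⟩ := (trS (c.t a 1)).ex_eq (Fx.st _) (Subgroup.mem_top τ)
  exact hi ▸ (hp a).2 i h1

variable {p : ℕ} [hp : Fact p.Prime]

lemma Good.norm (h : c.Good p) {x : Qb} (hx : c.Dv x) : ‖io p x‖ = 1 := by
  obtain ⟨N, hN, w, h1⟩ := hx
  have := congrArg (fun y => ‖io p y‖) h1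
  simp only [map_pow, norm_pow, map_prod, norm_prod, map_zpow₀, norm_zpow, (h hp _).1, one_zpow,
    Finset.prod_const_one] at this
  exact (pow_eq_one_iff_of_nonneg (norm_nonneg _) hN.ne').1 this

lemma Good.lv (h : c.Good p) {m n : ℕ} (hm : ¬ p ∣ m) (hn : ¬ p ∣ n) {σ : LA p} (hσ : σ ∈ Ine p) :
    res p σ ∈ c.Lv m n := by
  refine mem_Lv.2 ⟨ine_mu hσ hm _ (c.prim _ (pos_of_nd hm)).pow_eq_one, fun a => ?_⟩
  obtain ⟨ξ, h1, h2⟩ := mult_ex (res p σ) ((c.hs a).ne n) (n := n) (by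
    rw [(c.hs a).pw1 (pos_of_nd hn)]
    exact (h hp a).2 _ (by rw [map_sub, io_res]; exact ine_near hσ (h hp a).1.le))
  have h3 := h.norm (dv_t a (pos_of_nd hn))
  have h4 := ine_near hσ h3.le
  rw [← io_res, h2, map_mul, ← sub_one_mul, norm_mul, h3, mul_one] at h4
  rw [h2, (io p).injective ((Tm.sep ⟨n, hn, by rw [← map_pow, h1, map_one]⟩
    ⟨n, hn, one_pow n⟩ h4).trans (map_one _).symm), one_mul]

omit [Fintype ι] hp in
lemma lv_ab {m n : ℕ} (hm : 0 < m) (hn : 0 < n) : ∀ τ ∈ c.G0, ∀ w ∈ c.Lv n n,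
    τ⁻¹ * w * τ * w⁻¹ ∈ c.Lv m n := fun τ hτ w hw => by
  refine ⟨mem_St.2 ?_, (Subgroup.mul_mem _ (Lv_normal hn dvd_rfl τ hτ w hw) (Subgroup.inv_mem _ hw)).2⟩
  rw [AlgEquiv.mul_apply, conj_root _ _ hm (by
    rw [← map_pow, (c.prim m hm).pow_eq_one, map_one]), ← AlgEquiv.mul_apply, mul_inv_cancel,
    AlgEquiv.one_apply]

lemma Good.lv' (h : c.Good p) {m n a : ℕ} (hm : ¬ p ∣ m) (hn : ¬ p ∣ n) {σ : LA p}
    (hσ : σ ∈ Ine p) (h1 : res p σ (c.z (p ^ a)) = c.z (p ^ a)) : res p σ ∈ c.Lv (m * p ^ a) n :=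
  ⟨c.hz.fix_mul (pos_of_nd hm) (pow_pos hp.out.pos a) (Nat.Coprime.pow_right _
    ((Nat.Prime.coprime_iff_not_dvd hp.out).2 hm).symm) (h.lv hm hn hσ).1 h1, (h.lv hm hn hσ).2⟩

variable (c) in
/-- the inequality given by the discriminant argument -/
def Big (d J D : ℕ) (α : Qb) (p : ℕ) : Prop := ∀ η, c.Dv η →
  J * log p ≤ d * (2 * log (p * D) + 2 * (p * D) * (p * ht (α * η)))

lemma azstep (h : c.Good p) {d J D m n a : ℕ} (hd : IdxLe ⊤ c.G0 d) (hm : ¬ p ∣ m) (hn : ¬ p ∣ n)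
    {X W : Subgroup GA} (h1 : c.Lv (m * p ^ (a + 1)) n ≤ X) (h2 : X ≤ W) (h3 : W ≤ c.Lv n n)
    (h4 : ∀ w ∈ W, ∃ σ ∈ Ine p, (res p σ)⁻¹ * w ∈ X ∧ res p σ (c.z (p ^ a)) = c.z (p ^ a))
    {β : Qb} (hrig : Rig X β) (hD : IdxLe X (St ℚ β) D) (hb : ¬ c.Big d J D β p) :
    ∃ Y, X ≤ Y ∧ Y ≤ W ∧ IdxLe W Y J ∧ ∀ w ∈ Y, ∃ v ∈ X, w (β ^ p) = v (β ^ p) := by
  classical
  have hn0 := pos_of_nd hn
  have hW := h3.trans (Lv_le hn0)
  have ab := fun τ hτ w hw => h1 (lv_ab (Nat.mul_pos (pos_of_nd hm) (pow_pos hp.out.pos _)) hn0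
    τ hτ w (h3 hw))
  obtain ⟨Y, h5, h6, h7, h8⟩ := ex_stab h2 hW ab (β ^ p)
  refine ⟨Y, h5, h6, by_contra fun hc => hb fun η hη => ?_, h7⟩
  have hz := (c.cyc (p := p)).loc
  choose! s s1 s2 s3 using h4
  refine azcore hd h5 h6 hW ab (norm_nonneg (io p (c.z (p ^ 1)) - 1)) (by
    rw [← hz.b0]
    exact pow_le_pow_of_le_one (norm_nonneg _) (hz.b_lt 1).le (Nat.sub_le _ _))
    (fun w hw => ⟨_, s2 w hw, fun x => by rw [io_res, niso], fun x hx hx' => by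
      rw [io_res]
      exact hz.close a (s1 w hw) (by rw [← io_res, s3 w hw]) ⟨fun σ hσ => by
        rw [← io_res, hx _ (h1 (h.lv' hm hn hσ.1 ((io p).injective ((io_res _ _).trans hσ.2))))],
        hx'⟩⟩) (fun u hu => ?_) hrig hD ?_ h8 hc
  · obtain ⟨ξ, h9, h10⟩ := hη.act u hu
    exact ⟨h10 ▸ h.norm ((dv_tor h9).mul hη), ξ, h9, h10⟩
  · obtain ⟨T, hT⟩ := exists_trans (B := W) (A := X) (nthRootsFinset p (c.z (p ^ a)))
      (fun w => res p (s w) (c.z (p ^ (a + 1)))) (fun w hw => (mem_nthRootsFinset hp.out.pos _).2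
        (by rw [← map_pow, (c.cyc (p := p)).pw, s3 w hw])) fun w hw w' hw' h9 => by
        have := h1 (h.lv' (a := a + 1) hm hn ((Ine p).mul_mem ((Ine p).inv_mem (s1 w hw)) (s1 w' hw'))
          (by rw [map_mul, map_inv, AlgEquiv.mul_apply, ← h9, ← AlgEquiv.mul_apply, inv_mul_cancel,
            AlgEquiv.one_apply]))
        rw [map_mul, map_inv] at this
        simpa [mul_assoc] using X.mul_mem (X.mul_mem (X.inv_mem (s2 w hw)) this) (s2 w' hw')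
    exact ⟨T, hT.trans (by
      rw [nthRootsFinset_def]; exact (Multiset.toFinset_card_le _).trans (card_nthRoots _ _))⟩

end Ctx

end Pool.Agent.Lib.MP_f61260_nt
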