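import Pool.Agent.Lib.MP_f61260_nt.Az2

/-! The wild and the tame descent. -/

set_option autoImplicit false
set_option maxHeartbeats 400000

namespace Pool.Agent.Lib.MP_f61260_nt

open Real

lemma IdxLe.comap {𝒢 𝒢' : Type} [Group 𝒢] [Group 𝒢'] (f : 𝒢' →* 𝒢) {B A : Subgroup 𝒢} {n : ℕ}
    (h : IdxLe B A n) {B' : Subgroup 𝒢'} (hB : ∀ σ ∈ B', f σ ∈ B) : IdxLe B' (A.comap f) n := by
  classical
  obtain ⟨T, hT⟩ := h
  obtain ⟨T', hT'⟩ := exists_trans (B := B') (A := A.comap f) (Finset.univ : Finset T.ι)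
    (fun σ => if h : f σ ∈ B then T.idx h else T.idx B.one_mem) (fun _ _ => Finset.mem_univ _)
    (fun σ hσ τ hτ hστ => by
      rw [dif_pos (hB _ hσ), dif_pos (hB _ hτ)] at hστ
      have h2 := T.idx_spec (hB _ hτ)
      rw [← hστ] at h2
      simpa [mul_assoc] using A.mul_mem (A.inv_mem (T.idx_spec (hB _ hσ))) h2)
  exact ⟨T', hT'.trans hT⟩

lemma Tor.pow {x : Qb} (h : Tor x) (e : ℕ) : Tor (x ^ e) :=
  let ⟨n, hn, h⟩ := h; ⟨n, hn, by rw [← pow_mul, mul_comm, pow_mul, h, one_pow]⟩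

namespace Ctx

variable {ι : Type} [Fintype ι] {c : Ctx ι} {d J n D : ℕ} {S : Finset ℕ} {α : Qb}

variable (c) in
/-- minimality of the degree -/
def Min (n D : ℕ) (α : Qb) : Prop := ∀ (M : ℕ) (ξ : Qb) (e D1 : ℕ), 0 < M → n ∣ M → Tor ξ → 0 < e →
  IdxLe (c.Lv M n) (St ℚ (ξ * α ^ e)) D1 → e * D1 ≤ D → D ≤ D1

variable (c) in
/-- the standing assumptions of the descent -/
structure Ok (d J n D : ℕ) (S : Finset ℕ) (α : Qb) : Prop where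
  ne : α ≠ 0
  min : c.Min n D α
  pr : ∀ p ∈ S, p.Prime ∧ ¬ p ∣ n ∧ J < p ∧ c.Good p ∧ ¬ c.Big d J D α p

lemma Ok.tor (h : c.Ok d J n D S α) {ξ : Qb} (hξ : Tor ξ) : c.Ok d J n D S (ξ * α) :=
  ⟨mul_ne_zero (dv_tor (c := c) hξ).ne h.ne, fun M ξ' e D1 h1 h2 h3 h4 h5 =>
    h.min M _ e D1 h1 h2 (h3.mul (hξ.pow e)) h4 (by rwa [mul_assoc, ← mul_pow]),
    fun p hp => let ⟨h1, h2, h3, h4, h5⟩ := h.pr p hp; ⟨h1, h2, h3, h4, fun h6 => h5 fun η hη => by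
      have := h6 η hη
      rwa [mul_assoc ξ, hξ.ht] at this⟩⟩

lemma Ok.rig (h : c.Ok d J n D S α) {M : ℕ} (h1 : 0 < M) (h2 : n ∣ M) {X : Subgroup GA}
    (h3 : c.Lv M n ≤ X) (h4 : IdxLe X (St ℚ α) D) :
    ∃ ξ, Tor ξ ∧ Rig X (ξ * α) ∧ IdxLe X (St ℚ (ξ * α)) D := by
  obtain ⟨e, D1, ξ, h5, h6, h7, h8, h9, h10⟩ := exists_rig h.ne h4
  have h11 := h.min M ξ e D1 h1 h2 h8 h5 (h9.restrict h3 inf_le_right) h7
  obtain rfl : e = 1 := by nlinarith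
  rw [pow_one] at h9 h10
  exact ⟨ξ, h8, h10, h9.mono (by omega)⟩

lemma wild (hd : IdxLe ⊤ c.G0 d) (m : ℕ) (h : c.Ok d J n D S α) (h1 : 0 < m) (h2 : n ∣ m)
    (h3 : ∀ p ∈ S, p ∣ m) (h4 : IdxLe (c.Lv m n) (St ℚ α) D) : ∃ m' ξ, Tor ξ ∧ 0 < m' ∧ n ∣ m' ∧
      (∀ p ∈ S, p ∣ m' ∧ ¬ p ^ 2 ∣ m') ∧ IdxLe (c.Lv m' n) (St ℚ (ξ * α)) D := by
  induction m using Nat.strong_induction_on generalizing α with
  | _ m ih =>
  by_cases hc : ∀ p ∈ S, ¬ p ^ 2 ∣ m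
  · exact ⟨m, 1, ⟨1, one_pos, one_pow 1⟩, h1, h2, fun p hp => ⟨h3 p hp, hc p hp⟩, by rwa [one_mul]⟩
  push Not at hc
  obtain ⟨p, hpS, h5⟩ := hc
  obtain ⟨hp, h6, h7, h8, -⟩ := h.pr p hpS
  have := Fact.mk hp
  obtain ⟨r, m', hm', rfl⟩ := Nat.exists_eq_pow_mul_and_not_dvd h1.ne' p hp.ne_one
  have hcop : ∀ {a : ℕ} (l : ℕ), ¬ p ∣ a → a.Coprime (p ^ l) := fun l h =>
    Nat.Coprime.pow_right l ((Nat.Prime.coprime_iff_not_dvd hp).2 h).symm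
  obtain ⟨a, rfl⟩ : ∃ a, r = a + 1 + 1 := ⟨r - 2, by
    have := (Nat.pow_dvd_pow_iff_le_right hp.one_lt).1
      ((hcop 2 hm').symm.dvd_of_dvd_mul_right h5)
    omega⟩
  have h9 : n ∣ m' := (hcop _ h6).dvd_of_dvd_mul_left h2
  rw [mul_comm] at h1 h2 h3 h4 ih
  have hm0 := pos_of_nd hm'
  have hn0 := pos_of_nd h6
  have hM := Nat.mul_pos hm0 (pow_pos hp.pos (a + 1))
  obtain ⟨ξ, h10, h11, h12⟩ := h.rig h1 h2 le_rfl h4
  have hXW : c.Lv (m' * p ^ (a + 1 + 1)) n ≤ c.Lv (m' * p ^ (a + 1)) n :=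
    Lv_mono h1 hn0 (mul_dvd_mul_left _ (pow_dvd_pow p (by omega))) dvd_rfl
  obtain ⟨ξ', h13, h14⟩ : ∃ ξ', Tor ξ' ∧ IdxLe (c.Lv (m' * p ^ (a + 1)) n) (St ℚ (ξ' * α)) D := by
    by_cases hc : ∀ w ∈ c.Lv (m' * p ^ (a + 1)) n,
      w (c.z (m' * p ^ (a + 1 + 1))) = c.z (m' * p ^ (a + 1 + 1))
    · exact ⟨ξ, h10, h12.restrict (fun w hw => ⟨hc w hw, hw.2⟩) inf_le_right⟩
    push Not at hc
    obtain ⟨w, hw, hw'⟩ := hc
    obtain ⟨Y, e1, e2, e3, e4⟩ := azstep h8 hd hm' h6 le_rfl hXW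
      (Lv_mono hM hn0 (h9.mul_right _) dvd_rfl) (fun w hw => by
        obtain ⟨σ, e1, e2⟩ := ine_onto (p := p) w (a + 1)
        have e3 : res p σ (c.z (p ^ (a + 1))) = c.z (p ^ (a + 1)) := by
          have e4 := e2 _ (((c.prim _ (pow_pos hp.pos (a + 1))).pow_eq_one_iff_dvd _).2
            (pow_dvd_pow p (by omega)))
          rw [AlgEquiv.mul_apply, c.hz.fix_dvd hM (dvd_mul_left _ _) hw.1] at e4
          exact (St ℚ _).inv_mem_iff.1 e4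
        have e4 := Subgroup.mul_mem _ (Subgroup.inv_mem _ (h8.lv' hm' h6 e1 e3)) hw
        exact ⟨σ, e1, ⟨c.hz.fix_mul hm0 (pow_pos hp.pos _) (hcop _ hm')
          (c.hz.fix_dvd hM (dvd_mul_right _ _) e4.1)
          (e2 _ (c.prim _ (pow_pos hp.pos _)).pow_eq_one), e4.2⟩, e3⟩) h11 h12
      ((h.tor h10).pr p hpS).2.2.2.2
    obtain ⟨N, e5, e6, e7⟩ := e3.exists_pow' hw
    obtain ⟨v, e8, e9⟩ := e4 _ e7
    have e10 : Fx (c.Lv (m' * p ^ (a + 1)) n) (c.z (m' * p ^ (a + 1 + 1)) ^ p) := by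
      rw [pow_succ p (a + 1), ← mul_assoc, c.hz.pw _ _ hM hp.pos]; exact Fx.of_le inf_le_left
    have hpM : p ∣ m' * p ^ (a + 1) := (dvd_pow_self p (by omega)).mul_left _
    have hU : c.Lv (m' * p ^ (a + 1)) n ⊓ ⨅ _ : Unit, St ℚ (c.z (m' * p ^ (a + 1 + 1))) =
        c.Lv (m' * p ^ (a + 1 + 1)) n := by
      rw [iInf_const]
      exact le_antisymm (fun σ hσ => ⟨hσ.2, hσ.1.2⟩) (le_inf hXW inf_le_left)
    obtain ⟨e, he⟩ := desc (κ := Unit) (y := fun _ => c.z (m' * p ^ (a + 1 + 1)))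
      (fun _ => c.hz.ne _) hp hM (c.prim _ hM) inf_le_left hpM hpM (fun _ => e10) (h.tor h10).ne
      (hU ▸ h11) (hU ▸ h12) (fun _ => v⁻¹ * w ^ N)
      (fun _ => Subgroup.mul_mem _ (Subgroup.inv_mem _ (hXW e8)) (e2 e7)) (fun _ e11 => by
        obtain ⟨ω, e12, e13⟩ := mult_ex w (c.hz.ne _) (e10 w hw)
        have e14 := mem_St.1 ((St ℚ _).mul_mem e8.1 e11)
        rw [mul_inv_cancel_left, pow_act e13 (fix hM hw.1 hpM e12), mul_eq_right₀ (c.hz.ne _),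
          (prim_of_ne hp e12 fun h' => hw' (by rw [e13, h', one_mul])).pow_eq_one_iff_dvd] at e14
        exact absurd (Nat.le_of_dvd e5 e14) (by omega)) (fun _ _ h => absurd rfl h) fun _ => by
        rw [AlgEquiv.mul_apply, e9, ← AlgEquiv.mul_apply, inv_mul_cancel, AlgEquiv.one_apply]
    exact ⟨_, (Tor.prod _ fun _ _ => Tor.pow ⟨_, h1, (c.prim _ h1).pow_eq_one⟩ _).mul h10, by
      rwa [mul_comm (ξ * α), ← mul_assoc] at he⟩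
  obtain ⟨m1, ξ1, e1, e2, e3, e4, e5⟩ := ih _ (Nat.mul_lt_mul_of_pos_left
    (Nat.pow_lt_pow_right hp.one_lt (by omega)) hm0) (h.tor h13) hM (h9.mul_right _)
    (fun q hq => by
      have := h3 q hq
      rw [pow_succ, ← mul_assoc, (h.pr q hq).1.dvd_mul] at this
      exact this.elim id fun h' => ((Nat.prime_dvd_prime_iff_eq (h.pr q hq).1 hp).1 h').symm ▸
        (dvd_pow_self p (by omega)).mul_left _) h14
  exact ⟨m1, _, e1.mul h13, e2, e3, e4, by rwa [mul_assoc]⟩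

lemma tame_all (hd : IdxLe ⊤ c.G0 d) {m : ℕ} (h : c.Ok d J n D S α) (h1 : 0 < m) (h2 : n ∣ m)
    (h3 : ∀ p ∈ S, p ∣ m ∧ ¬ p ^ 2 ∣ m) (h4 : IdxLe (c.Lv m n) (St ℚ α) D) (F : Finset ℕ)
    (hF : F ⊆ S) : ∃ ξ X, Tor ξ ∧ c.Lv m n ≤ X ∧ X ≤ c.Lv n n ∧ IdxLe X (St ℚ (ξ * α)) D ∧
      (∀ p ∈ F, ∀ _ : Fact p.Prime, IdxLe (Ine p) (X.comap (res p)) J) ∧
      ∀ p ∈ S, p ∉ F → X ≤ Mu p := by
  have hn0 := Nat.pos_of_dvd_of_pos h2 h1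
  induction F using Finset.induction_on with
  | empty => exact ⟨1, _, ⟨1, one_pos, one_pow 1⟩, le_rfl, Lv_mono h1 hn0 h2 dvd_rfl,
      by rwa [one_mul], by simp, fun p hp _ σ hσ x hx => fix h1 hσ.1 (h3 p hp).1 hx⟩
  | insert p F hpF ih =>
  obtain ⟨ξ, X, e1, e2, e3, e4, e5, e6⟩ := ih ((Finset.subset_insert _ _).trans hF)
  have hpS := hF (Finset.mem_insert_self _ _)
  obtain ⟨hp, h6, -, h8, -⟩ := h.pr p hpS
  have := Fact.mk hp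
  obtain ⟨m', hm⟩ := (h3 p hpS).1
  have hm' : ¬ p ∣ m' := fun h' => (h3 p hpS).2 (by rw [hm, sq]; exact mul_dvd_mul_left p h')
  rw [mul_comm, ← pow_one p, ← zero_add 1] at hm
  obtain ⟨ξ1, e7, e8, e9⟩ := (h.tor e1).rig h1 h2 e2 e4
  have ab := fun τ hτ w hw => e2 (lv_ab h1 hn0 τ hτ w hw)
  have g0 : ∀ σ ∈ Ine p, res p σ ∈ c.G0 := fun σ hσ => Lv_le hn0 (h8.lv h6 h6 hσ)
  have nX : ∀ τ ∈ c.G0, ∀ v ∈ X, τ⁻¹ * v * τ ∈ X := fun τ hτ v hv => by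
    simpa using X.mul_mem (ab τ hτ v (e3 hv)) hv
  let W : Subgroup GA :=
    { carrier := {w | ∃ σ ∈ Ine p, (res p σ)⁻¹ * w ∈ X}
      one_mem' := ⟨1, Subgroup.one_mem _, by simp⟩
      mul_mem' := fun ⟨σ, a1, a2⟩ ⟨σ', a3, a4⟩ => ⟨_, Subgroup.mul_mem _ a1 a3, by
        simpa [mul_assoc] using X.mul_mem (nX _ (g0 _ a3) _ a2) a4⟩
      inv_mem' := fun ⟨σ, a1, a2⟩ => ⟨_, Subgroup.inv_mem _ a1, by
        simpa [mul_assoc] using nX _ (Subgroup.inv_mem _ (g0 _ a1)) _ (X.inv_mem a2)⟩ }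
  have hW : ∀ Z : Subgroup GA, X ≤ Z → (∀ σ ∈ Ine p, res p σ ∈ Z) → W ≤ Z :=
    fun Z a1 a2 w ⟨σ, a3, a4⟩ => by simpa using Z.mul_mem (a2 σ a3) (a1 a4)
  have hW1 := hW _ e3 fun σ hσ => h8.lv h6 h6 hσ
  obtain ⟨Y, a1, a2, a3, a4⟩ := azstep (W := W) h8 hd hm' h6 (hm ▸ e2)
    (fun v hv => ⟨1, Subgroup.one_mem _, by simpa using hv⟩) hW1
    (fun w ⟨σ, a1, a2⟩ => ⟨σ, a1, a2, (h8.lv (by simpa using hp.one_lt.ne') h6 a1).1⟩) e8 e9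
    (((h.tor e1).tor e7).pr p hpS).2.2.2.2
  obtain ⟨ξ2, a5, a6⟩ := twist hp ((h.tor e1).tor e7).ne (c.prim p hp.pos) (e6 p hpS hpF) a1
    (fun τ hτ w hw => ab τ (Lv_le hn0 (hW1 (a2 hτ))) w (hW1 (a2 hw))) (fun w hw hw' => by
      obtain ⟨σ, a5, a6⟩ := a2 hw
      have a7 := e6 p hpS hpF a6 _ (c.prim p hp.pos).pow_eq_one
      rw [AlgEquiv.mul_apply, hw'] at a7
      have a8 := h8.lv' (a := 0 + 1) hm' h6 a5 (by
        simpa using mem_St.1 ((St ℚ _).inv_mem_iff.1 a7))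
      rw [← hm] at a8
      simpa using X.mul_mem (e2 a8) a6) a4 e8 e9
  refine ⟨_, Y, (a5.mul e7).mul e1, e2.trans a1, a2.trans hW1, by rwa [mul_assoc, mul_assoc],
    fun q hq _ => ?_, fun q hq hq' => a2.trans (hW _ (e6 q hq fun h => hq' (by simp [h]))
      fun σ hσ => ine_mu hσ fun h' => hq' (by
        simp [(Nat.prime_dvd_prime_iff_eq hp (h.pr q hq).1).1 h']))⟩
  rcases Finset.mem_insert.1 hq with rfl | hq
  · exact a3.comap _ fun σ hσ => ⟨σ, hσ, by simp⟩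
  · exact (e5 q hq _).restrict le_rfl (inf_le_right.trans (Subgroup.comap_mono a1))

theorem az (hd : IdxLe ⊤ c.G0 d) {m : ℕ} (h : c.Ok d J n D S α) (h1 : 0 < m) (h2 : n ∣ m)
    (h4 : IdxLe (c.Lv m n) (St ℚ α) D) : ∃ ξ U, Tor ξ ∧ Ab U ∧
      IdxLe U (St ℚ (ξ * α) ⊓ ⨅ a, St ℚ (c.t a n)) (d * n ^ Fintype.card ι * D) ∧
      (∀ p ∈ S, ∀ _ : Fact p.Prime, IdxLe (Ine p) (U.comap (res p)) J) ∧ ∀ p ∈ S, ∀ v ∈ U,
        ∃ g ∈ St ℚ (ξ * α) ⊓ ⨅ a, St ℚ (c.t a n), v * g⁻¹ ∈ U ⊓ Mu p := by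
  have hn0 := Nat.pos_of_dvd_of_pos h2 h1
  have hM := Nat.mul_pos h1 (Finset.prod_pos fun p hp => (h.pr p hp).1.pos : 0 < ∏ p ∈ S, p)
  obtain ⟨m', ξ, e1, e2, e3, e4, e5⟩ := wild hd _ h hM (h2.mul_right _)
    (fun p hp => (Finset.dvd_prod_of_mem _ hp).mul_left _)
    (h4.restrict (Lv_mono hM hn0 (dvd_mul_right _ _) dvd_rfl) inf_le_right)
  obtain ⟨ξ', X, a1, a2, a3, a4, a5, -⟩ := tame_all hd (h.tor e1) e2 e3 e4 e5 S le_rfl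
  rw [← mul_assoc] at a4
  have a6 := orbit_eq a4 a2 fun D1 b1 b2 => h.min m' _ 1 D1 e2 e3 (a1.mul e1) one_pos
    (by rwa [pow_one]) (by omega)
  refine ⟨_, X ⊔ Mu m', a1.mul e1, fun g g' => Subgroup.mem_sup_right fun x hx => ?_, ?_,
    fun p hp _ => (a5 p hp _).restrict le_rfl (inf_le_right.trans (Subgroup.comap_mono le_sup_left)),
    fun p hp v hv => ?_⟩
  · rw [mul_assoc, mul_assoc, ← mul_assoc g'⁻¹, AlgEquiv.mul_apply, conj_root _ _ e2 hx,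
      ← AlgEquiv.mul_apply, inv_mul_cancel, AlgEquiv.one_apply]
  · have b1 : IdxLe c.G0 (⨅ a, St ℚ (c.t a n)) (n ^ Fintype.card ι) := by
      simpa using IdxLe.iInf fun a => idx_pow (B := c.G0) (y := c.t a n) hn0 (by
        rw [(c.hs a).pw1 hn0]; exact Fx.of_le (iInf_le _ a))
    have b2 := ((hd.trans' b1 le_top).restrict (A' := X) (le_top : X ⊔ Mu m' ≤ ⊤) fun u hu => by
      obtain ⟨x, hx, y, hy, rfl⟩ := Subgroup.mem_sup_of_normal_right.1 hu.1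
      exact X.mul_mem hx (a2 ⟨hy _ (c.prim _ e2).pow_eq_one, by
        simpa using Subgroup.mul_mem _ (Subgroup.inv_mem _ (a3 hx).2) hu.2⟩)).trans
        (a4.restrict le_rfl le_rfl) le_sup_left inf_le_left
    exact b2.restrict le_rfl fun u hu => ⟨hu.2.2, (a3 hu.2.1).2⟩
  · obtain ⟨y, hy, x, hx, rfl⟩ := Subgroup.mem_sup_of_normal_left.1 (sup_comm X _ ▸ hv)
    obtain ⟨u, hu, hu'⟩ := a6 x hx
    refine ⟨u⁻¹ * x, ⟨mem_St.2 ?_, (a3 (X.mul_mem (X.inv_mem (a2 hu)) hx)).2⟩, ?_⟩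
    · rw [AlgEquiv.mul_apply, hu', ← AlgEquiv.mul_apply, inv_mul_cancel, AlgEquiv.one_apply]
    · rw [show y * x * (u⁻¹ * x)⁻¹ = y * u by group]
      exact ⟨Subgroup.mul_mem _ (Subgroup.mem_sup_right hy) (Subgroup.mem_sup_left (a2 hu)),
        fun z hz => by
          rw [AlgEquiv.mul_apply, fix e2 hu.1 (e4 p hp).1 hz,
            fix e2 (hy _ (c.prim _ e2).pow_eq_one) (e4 p hp).1 hz]⟩

end Ctx

end Pool.Agent.Lib.MP_f61260_nt
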