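import Pool.Agent.Lib.MP_f61260_nt.Az3

/-! The lower bound at a finite level. -/

set_option autoImplicit false
set_option maxHeartbeats 400000

namespace Pool.Agent.Lib.MP_f61260_nt

open Real Filter

variable {ι : Type} [Fintype ι]

/-- the lattice of exponents -/
def latZ (n A : ℕ) (w : ι → ℤ) : Submodule ℤ (Option ι → ℤ) where
  carrier := {x | ∃ (i : ℤ) (k : ι → ℤ), x none = n * i ∧ ∀ a, x (some a) = A * k a - i * w a}
  zero_mem' := ⟨0, 0, by simp⟩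
  add_mem' := fun ⟨i, k, h1, h2⟩ ⟨i', k', h3, h4⟩ =>
    ⟨i + i', k + k', by simp [h1, h3, mul_add], fun a => by simp [h2, h4]; ring⟩
  smul_mem' := fun s _ ⟨i, k, h1, h2⟩ =>
    ⟨s * i, s • k, by simp [h1]; ring, fun a => by simp [h2]; ring⟩

lemma card_lat {n A δ K : ℕ} (hn : 0 < n) (hA : 0 < A) (w : ι → ℤ)
    (h : n * A ^ Fintype.card ι * K ≤ δ ^ (Fintype.card ι + 1)) : K < (bx (latZ n A w) δ).card := by
  classical
  have hn' : (0 : ℤ) < n := by exact_mod_cast hn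
  have hA' : (0 : ℤ) < A := by exact_mod_cast hA
  obtain ⟨y, -, hy⟩ := Finset.exists_lt_card_fiber_of_mul_lt_card_of_maps_to
    (s := Fintype.piFinset fun _ : Option ι => Finset.Icc (0 : ℤ) δ)
    (t := Fintype.piFinset fun o : Option ι => Finset.Ico (0 : ℤ) (o.elim n fun _ => A)) (n := K)
    (f := fun y o => o.elim (y none % n) fun a => (y (some a) + y none / n * w a) % A)
    (fun y _ => Fintype.mem_piFinset.2 fun o => by
      rcases o with _ | a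
      · exact Finset.mem_Ico.2 ⟨Int.emod_nonneg _ hn'.ne', Int.emod_lt_of_pos _ hn'⟩
      · exact Finset.mem_Ico.2 ⟨Int.emod_nonneg _ hA'.ne', Int.emod_lt_of_pos _ hA'⟩) (by
      simp only [Fintype.card_piFinset, Fintype.prod_option, Int.card_Ico, Int.card_Icc]
      simp only [Option.elim, sub_zero, Int.toNat_natCast, Finset.prod_const, Finset.card_univ,
        Int.toNat_natCast_add_one]
      rw [← pow_succ']
      exact h.trans_lt (Nat.pow_lt_pow_left δ.lt_succ_self (by omega)))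
  obtain ⟨y0, hy0⟩ := Finset.card_pos.1 (K.zero_le.trans_lt hy)
  refine hy.trans_le (Finset.card_le_card_of_injOn (· - y0) (fun x hx => ?_)
    sub_left_injective.injOn)
  simp only [Finset.coe_filter, Set.mem_setOf_eq, Finset.mem_filter, Fintype.mem_piFinset,
    Finset.mem_Icc] at hx hy0
  have h1 := hx.2.trans hy0.2.symm
  refine (mem_bx (a := x - y0)).2 ⟨?_, fun o => ?_⟩
  · choose k hk using fun a =>
      exists_eq_mul_right_of_dvd (Int.ModEq.dvd (congrFun h1 (some a)).symm)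
    refine ⟨x none / n - y0 none / n, k, ?_, fun a => ?_⟩
    · have h2 : x none % n = y0 none % n := congrFun h1 none
      have h3 := Int.emod_add_mul_ediv (x none) n
      have h4 := Int.emod_add_mul_ediv (y0 none) n
      rw [Pi.sub_apply, mul_sub]
      omega
    · rw [Pi.sub_apply, ← hk]
      ring
  · have h2 := hx.1 o
    have h3 := hy0.1 o
    rw [Pi.sub_apply, abs_le]
    omega

namespace Ctx

variable {c : Ctx ι}

lemma ht_t (a : ι) {n : ℕ} (hn : 0 < n) : ht (c.t a n) = ht (c.t a 1) / n := by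
  rw [← (c.hs a).pw1 hn, ht_pow, mul_div_cancel_left₀ _ (by positivity)]

lemma approx {η : Qb} (hη : c.Dv η) {A : ℕ} (hA : 0 < A) (β : Qb) : ∃ w : ι → ℤ,
    ht (β * ∏ a, c.t a A ^ w a) ≤ ht (β * η) + (∑ a, ht (c.t a 1)) / A := by
  obtain ⟨N, hN, x, hx⟩ := id hη
  have hN' : (0 : ℤ) < N := by exact_mod_cast hN
  refine ⟨fun a => x a * A / N, ?_⟩
  rw [← inv_mul_cancel_right₀ hη.ne β, mul_right_comm β, mul_assoc (β * η), inv_mul_cancel_right₀
    hη.ne]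
  refine (ht_mul _ _).trans (add_le_add_right ?_ _)
  have e : (η⁻¹ * ∏ a, c.t a A ^ (x a * A / N)) ^ (N * A) =
      ∏ a, c.t a 1 ^ (-(x a * A % N)) := by
    rw [mul_pow, inv_pow, pow_mul η, hx, ← Finset.prod_pow, ← Finset.prod_pow,
      ← Finset.prod_inv_distrib, ← Finset.prod_mul_distrib]
    refine Finset.prod_congr rfl fun a _ => ?_
    rw [← (c.hs a).pw1 hA]
    simp only [← zpow_natCast, ← zpow_mul, ← zpow_neg, ← zpow_add₀ ((c.hs a).ne A), Int.emod_def]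
    congr 1
    push_cast
    ring
  have h1 := ht_prod Finset.univ fun a => c.t a 1 ^ (-(x a * A % N))
  rw [← e, ht_pow] at h1
  have hNR : (0 : ℝ) < N := by exact_mod_cast hN
  rw [le_div_iff₀ (by positivity)]
  refine le_of_mul_le_mul_left (le_trans (le_of_eq (by push_cast; ring)) (h1.trans ?_)) hNR
  rw [Finset.mul_sum]
  refine Finset.sum_le_sum fun a _ => ?_
  rw [ht_zpow]
  refine mul_le_mul_of_nonneg_right ?_ (ht_nonneg _)
  have h2 := Int.emod_nonneg (x a * A) hN'.ne'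
  have h3 := Int.emod_lt_of_pos (x a * A) hN'
  exact_mod_cast (show |-(x a * A % N)| ≤ N by rw [abs_le]; omega)

lemma Dv.of_zpow {x : Qb} {i : ℤ} (hi : i ≠ 0) (h : c.Dv (x ^ i)) : c.Dv x := by
  obtain ⟨m, rfl | rfl⟩ := i.eq_nat_or_neg
  · exact Dv.of_pow (n := m) (by omega) (by simpa using h)
  · exact Dv.of_pow (n := m) (by omega) (by simpa using h.inv)

lemma Dv.zpow {x : Qb} (h : c.Dv x) (i : ℤ) : c.Dv (x ^ i) := by
  obtain ⟨m, rfl | rfl⟩ := i.eq_nat_or_neg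
  · simpa using h.pow m
  · simpa using (h.pow m).inv

lemma base1 (hind : ∀ w : ι → ℤ, Tor (∏ a, c.t a 1 ^ w a) → w = 0) : ∃ x0 : ℕ, ∀ x ≥ x0, ∀ u,
    u = x ^ (7 * (Fintype.card ι + 1) + 13) → ∀ (U : Subgroup GA) (S : Finset ℕ) (β : Qb)
    (n K Z : ℕ), Ab U → S ⊆ PS u → u ≤ S.card → β ≠ 0 → ¬ c.Dv β → 0 < n →
    IdxLe U (St ℚ β ⊓ ⨅ a, St ℚ (c.t a n)) (n ^ Fintype.card ι * K) →
    (∀ p ∈ S, ∀ _ : Fact p.Prime, IdxLe (Ine p) (U.comap (res p)) (x ^ 4)) →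
    (∀ p ∈ S, ∀ v ∈ U, ∃ g ∈ St ℚ β ⊓ ⨅ a, St ℚ (c.t a n), v * g⁻¹ ∈ U ⊓ Mu p) →
    Z = x * (u ^ 2) ^ (Fintype.card ι + 3) → n * (K * Z ^ Fintype.card ι) ≤ 4 ^ x →
    c.Q β (8 * (u ^ 2) ^ (Fintype.card ι + 3) * (K * Z ^ Fintype.card ι)) := by
  obtain ⟨x0, h0⟩ := indep2 (Option ι)
  obtain ⟨x1, h1⟩ := exists_nat_ge (16 * ∑ a, ht (c.t a 1))
  obtain ⟨r, hr⟩ : ∃ r, r = Fintype.card ι := ⟨_, rfl⟩
  rw [Fintype.card_option, ← hr] at h0
  rw [← hr]
  refine ⟨x0 + x1 + 1, fun x hx u hu U S β n K Z h2 h3 h4 h5 h6 h7 h8 h9 h10 hZ h11 η hη => ?_⟩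
  have hu0 : 0 < u := hu ▸ pow_pos (by omega) _
  have hZ0 : 0 < Z := hZ ▸ Nat.mul_pos (by omega) (by positivity)
  have hK : 0 < K := Nat.pos_of_mul_pos_left (let ⟨T, hT⟩ := h8; T.card_pos.trans_le hT)
  obtain ⟨δ, hδ⟩ : ∃ δ, δ = K * Z ^ r := ⟨_, rfl⟩
  have hδ0 : 0 < δ := hδ ▸ by positivity
  have hA := Nat.mul_pos h7 (Nat.mul_pos hδ0 hZ0)
  obtain ⟨w, hw⟩ := approx hη hA β
  obtain ⟨θ, hθ⟩ := IsAlgClosed.exists_pow_nat_eq (β * ∏ a, c.t a (n * (δ * Z)) ^ w a) h7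
  have ht0 : ∀ a, c.t a (n * (δ * Z)) ≠ 0 := fun a => (c.hs a).ne _
  obtain ⟨P, hP⟩ : ∃ P : Option ι → Qb, P = fun o => o.elim θ fun a => c.t a (n * (δ * Z)) :=
    ⟨_, rfl⟩
  have hm : ∀ y ∈ latZ n (δ * Z) w, ∃ (i : ℤ) (k : ι → ℤ), mon P y = β ^ i * ∏ a, c.t a n ^ k a ∧
      (i = 0 → k = 0 → y = 0) := by
    rintro y ⟨i, k, e1, e2⟩
    refine ⟨i, k, ?_, fun e3 e4 => funext fun o => by rcases o with _ | a <;> simp [*]⟩
    simp only [mon, Fintype.prod_option, hP, Option.elim, e1, e2, zpow_mul, zpow_natCast, hθ,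
      mul_zpow, zpow_sub₀ (ht0 _), (c.hs _).pw n _ h7 (Nat.mul_pos hδ0 hZ0), mul_assoc,
      ← Finset.prod_zpow, ← Finset.prod_mul_distrib]
    refine congrArg _ (Finset.prod_congr rfl fun a _ => ?_)
    rw [← zpow_mul, ← zpow_mul, mul_comm i, mul_div_cancel₀ _ (zpow_ne_zero _ (ht0 a))]
  have hV : ∀ y ∈ latZ n (δ * Z) w, Fx (St ℚ β ⊓ ⨅ a, St ℚ (c.t a n)) (mon P y) := fun y hy => by
    obtain ⟨i, k, e, -⟩ := hm y hy
    exact e ▸ ((Fx.of_le inf_le_left).zpow _).mul (Fx.prod _ fun a _ =>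
      (Fx.of_le (inf_le_right.trans (iInf_le (fun a => St ℚ (c.t a n)) a))).zpow _)
  by_contra hc
  have := card_le_idx (h0 x (by omega) u hu U P (latZ n (δ * Z) w) S (n * δ) h2 (fun o => by
      rcases o with _ | a <;> rw [hP]
      · rintro (rfl : θ = 0)
        rw [zero_pow h7.ne'] at hθ
        exact mul_ne_zero h5 (Finset.prod_ne_zero_iff.2 fun a _ => zpow_ne_zero _ (ht0 a)) hθ.symm
      · exact ht0 a) (fun y hy hy0 e1 => by
      obtain ⟨i, k, e2, e3⟩ := hm y hy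
      have e4 : c.Dv (∏ a, c.t a n ^ k a) := dv_prod _ fun a _ => (dv_t a h7).zpow _
      have e5 : i = 0 := by_contra fun e5 => h6 (Dv.of_zpow e5 (by
        have := (dv_tor e1).mul e4.inv
        rwa [e2, mul_inv_cancel_right₀ e4.ne] at this))
      refine hy0 (e3 e5 (hind k ?_))
      have := e1.pow n
      rwa [e2, e5, zpow_zero, one_mul, ← Finset.prod_pow, Finset.prod_congr rfl fun a _ => by
        rw [← zpow_natCast, ← zpow_mul, mul_comm, zpow_mul, zpow_natCast, (c.hs a).pw1 h7]] at this)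
    h3 h4 h9 (fun p hp v hv => let ⟨g, e1, e2⟩ := h10 p hp v hv; ⟨_, e2, fun y hy => by
      rw [AlgEquiv.mul_apply, hV y hy _ (Subgroup.inv_mem _ e1)]⟩) (Nat.mul_pos h7 hδ0)
    (hδ ▸ h11) ?_) (fun y => hV y (mem_bx.1 y.2).1) h8
  · rw [Fintype.card_coe] at this
    refine (card_lat h7 (Nat.mul_pos hδ0 hZ0) w (le_of_eq ?_)).not_ge this
    rw [← hr, hδ]
    ring
  obtain ⟨G, hG⟩ : ∃ G, G = ∑ a, ht (c.t a 1) := ⟨_, rfl⟩
  have e0 : 0 ≤ G := hG ▸ Finset.sum_nonneg fun a _ => ht_nonneg _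
  have e1 : ∑ o, ht (P o) = ht θ + G / (n * (δ * Z) : ℕ) := by
    simp only [Fintype.sum_option, hP, Option.elim, ht_t _ hA, hG, Finset.sum_div]
  obtain ⟨M, hM⟩ : ∃ M : ℝ, M = (u ^ 2) ^ (r + 3) := ⟨_, rfl⟩
  have e2 : (Z : ℝ) = x * M := by rw [hZ, hM]; push_cast; rfl
  have e3 : (K * Z ^ r : ℝ) = δ := by rw [hδ]; push_cast; rfl
  have e4 : 16 * G ≤ x := by rw [hG]; exact h1.trans (by exact_mod_cast (by omega))
  have e5 : (1 : ℝ) ≤ n := by exact_mod_cast h7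
  have e6 : (0 : ℝ) < δ := by exact_mod_cast hδ0
  have e7 : (0 : ℝ) < x := by exact_mod_cast (by omega)
  have e8 : 0 < M := hM ▸ by positivity
  rw [← hθ, ht_pow, ← hG] at hw
  rw [← hM, e3, not_le] at hc
  rw [e1, ← hM]
  push_cast at hw ⊢
  obtain ⟨g, hg⟩ : ∃ g, g = G / (n * (δ * Z)) := ⟨_, rfl⟩
  have e9 : 16 * M * (n * δ) * g ≤ 1 := by
    rw [hg, e2, ← mul_div_assoc, div_le_one (by positivity)]
    nlinarith [mul_le_mul_of_nonneg_left e4 (show 0 ≤ M * (n * δ) by positivity)]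
  have e10 : 0 ≤ g := hg ▸ by positivity
  rw [← hg] at hw ⊢
  nlinarith [mul_le_mul_of_nonneg_left hw (show 0 ≤ M * δ by positivity),
    mul_le_mul_of_nonneg_left e5 (show 0 ≤ M * δ * g by positivity)]

theorem base2 (hind : ∀ w : ι → ℤ, Tor (∏ a, c.t a 1 ^ w a) → w = 0) : ∃ κ : ℕ,
    ∀ᶠ x : ℕ in atTop, ∀ n D : ℕ, n * D ≤ 2 ^ x → ∀ (α : Qb) (m : ℕ), 0 < m → n ∣ m → α ≠ 0 →
      ¬ c.Dv α → IdxLe (c.Lv m n) (St ℚ α) D → c.Q α (D * x ^ κ) := by
  classical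
  obtain ⟨x0, h0⟩ := base1 hind
  obtain ⟨d, hd⟩ := c.idx_G0
  obtain ⟨C, hC⟩ := eventually_atTop.1 (good_ev (c := c))
  obtain ⟨r, hr⟩ : ∃ r, r = Fintype.card ι := ⟨_, rfl⟩
  obtain ⟨E, hE⟩ : ∃ E, E = 7 * (r + 1) + 13 := ⟨_, rfl⟩
  obtain ⟨κ, hκ⟩ : ∃ κ, κ = 1 + r + E * 2 * (r + 3) * (r + 1) := ⟨_, rfl⟩
  rw [← hr, ← hE] at h0
  refine ⟨κ, ?_⟩
  filter_upwards [eventually_ge_atTop (x0 + C + 8 * d + 2),
    (tendsto_pow_const_div_const_pow_of_one_lt κ (one_lt_two (α := ℝ))).eventually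
      (gt_mem_nhds one_pos)] with x hx hx' n D
  induction D using Nat.strong_induction_on with
  | _ D ih =>
  intro h1 α m h2 h3 h4 h5 h6
  have hnd : ∀ ξ e, Tor ξ → 0 < e → ξ * α ^ e ≠ 0 ∧ ¬ c.Dv (ξ * α ^ e) := fun ξ e hξ he =>
    ⟨mul_ne_zero (dv_tor (c := c) hξ).ne (pow_ne_zero _ h4), fun h' => h5 (Dv.of_pow he (by
      have := (dv_tor hξ).inv.mul h'
      rwa [inv_mul_cancel_left₀ (dv_tor (c := c) hξ).ne] at this))⟩
  by_cases hmin : c.Min n D α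
  swap
  · unfold Min at hmin
    push Not at hmin
    obtain ⟨M, ξ, e, D1, e1, e2, e3, e4, e5, e6, e7⟩ := hmin
    refine (Q.of_pow e3 (ih D1 e7 ((Nat.mul_le_mul_left n e7.le).trans h1) _ M e1 e2
      (hnd ξ e e3 e4).1 (hnd ξ e e3 e4).2 e5)).mono ?_
    rw [← mul_assoc]
    exact mul_le_mul_of_nonneg_right (by exact_mod_cast e6) (by positivity)
  obtain ⟨u, hu⟩ : ∃ u, u = x ^ E := ⟨_, rfl⟩
  have hn0 := Nat.pos_of_dvd_of_pos h3 h2
  have hD0 : 0 < D := let ⟨T, hT⟩ := h6; T.card_pos.trans_le hT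
  have hd0 : 0 < d := let ⟨T, hT⟩ := hd; T.card_pos.trans_le hT
  have hu1 : x ^ 10 ≤ u := hu ▸ Nat.pow_le_pow_right (by omega) (by omega)
  have hu2 : x ^ 4 ≤ x ^ 10 := Nat.pow_le_pow_right (by omega) (by omega)
  have hu3 : x ≤ x ^ 4 := Nat.le_self_pow (by omega) x
  have hS : ∀ p ∈ PS u, (u < p ∧ p ≤ u ^ 2) ∧ p.Prime := fun p hp => by simpa [PS] using hp
  by_cases hb : ∃ p ∈ PS u, c.Big d (x ^ 4) D α p
  · obtain ⟨p, hp, hb⟩ := hb
    intro η hη
    have e1 := hb η hη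
    have e2 : (3 : ℝ) ≤ p := by exact_mod_cast (by have := (hS p hp).1.1; omega)
    have e3 : 1 ≤ log p := by
      rw [le_log_iff_exp_le (by positivity)]
      linarith [exp_one_lt_three]
    have e4 : log D ≤ x := by
      have := log_le_log (by positivity) (show (D : ℝ) ≤ 2 ^ x by
        exact_mod_cast (Nat.le_mul_of_pos_left D hn0).trans h1)
      rw [log_pow] at this
      exact this.trans (mul_le_of_le_one_right (by positivity) (by linarith [log_two_lt_d9]))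
    have e5 : 2 * d * (x + 2) ≤ x ^ 4 := by
      have : x ^ 2 ≤ x ^ 4 := Nat.pow_le_pow_right (by omega) (by omega)
      nlinarith
    have e6 : (2 * d * (x + 2) : ℝ) ≤ (x ^ 4 : ℕ) := by exact_mod_cast e5
    have e7 : (0 : ℝ) < d := by exact_mod_cast hd0
    have e8 : p * p ≤ x ^ κ := (Nat.mul_le_mul (hS p hp).1.2 (hS p hp).1.2).trans (by
      rw [hu, ← pow_mul, ← pow_add]
      exact Nat.pow_le_pow_right (by omega) (by rw [hκ]; nlinarith [Nat.zero_le (E * r * r)]))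
    rw [log_mul (by positivity) (by positivity)] at e1
    have e9 := le_of_mul_le_mul_left (((le_of_eq (by ring)).trans
      (mul_le_mul_of_nonneg_right e6 (by linarith))).trans e1 :
        d * (2 * (x + 2) * log p) ≤ _) e7
    have e10 : (p * p : ℝ) * (D * ht (α * η)) ≤ x ^ κ * (D * ht (α * η)) :=
      mul_le_mul_of_nonneg_right (by exact_mod_cast e8) (mul_nonneg (by positivity) (ht_nonneg _))
    nlinarith [mul_le_mul_of_nonneg_left e3 (Nat.cast_nonneg (α := ℝ) x)]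
  push Not at hb
  obtain ⟨ξ, U, e1, e2, e3, e4, e5⟩ := az (S := (PS u).filter fun p => ¬ p ∣ n) hd ⟨h4, hmin,
    fun p hp => by
      obtain ⟨a1, a2⟩ := Finset.mem_filter.1 hp
      have := (hS p a1).1.1
      exact ⟨(hS p a1).2, a2, by omega, hC p (by omega), hb p a1⟩⟩ h2 h3 h6
  obtain ⟨Z, hZ⟩ : ∃ Z, Z = x * (u ^ 2) ^ (r + 3) := ⟨_, rfl⟩
  have e6 : 8 * d * ((u ^ 2) ^ (r + 3) * Z ^ r) ≤ x ^ κ :=
    (Nat.mul_le_mul_right _ (show 8 * d ≤ x by omega)).trans (le_of_eq (by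
      rw [hZ, hu, hκ]; ring))
  refine Q.of_mul (dv_tor e1) (mul_comm ξ α ▸ (h0 x (by omega) u hu U _ (ξ * α) n (d * D) Z e2
    (Finset.filter_subset _ _) ?_ (by simpa using (hnd ξ 1 e1 one_pos).1)
    (by simpa using (hnd ξ 1 e1 one_pos).2) hn0 (e3.mono (le_of_eq (by rw [hr]; ring))) e4 e5 hZ
    ?_).mono (by exact_mod_cast (le_of_eq (by ring)).trans (Nat.mul_le_mul_left D e6)))
  · have a1 := card_PS (u := u) (le_trans (Nat.pow_le_pow_left (show 2 ≤ x by omega) 10) hu1)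
    have a2 := Finset.card_filter_add_card_filter_not (s := PS u) fun p => p ∣ n
    have a3 : 2 ^ ((PS u).filter fun p => p ∣ n).card ≤ 2 ^ x :=
      (Finset.pow_card_le_prod _ _ _ fun p hp => (hS p (Finset.mem_filter.1 hp).1).2.two_le).trans
        ((Nat.le_of_dvd hn0 (Finset.prod_primes_dvd n
          (fun p hp => (hS p (Finset.mem_filter.1 hp).1).2.prime)
          fun p hp => (Finset.mem_filter.1 hp).2)).trans
          ((Nat.le_mul_of_pos_right n hD0).trans h1))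
    rw [Nat.pow_le_pow_iff_right one_lt_two] at a3
    omega
  · rw [div_lt_one (by positivity)] at hx'
    have a1 : x ^ κ ≤ 2 ^ x := by exact_mod_cast hx'.le
    have a2 : 0 < (u ^ 2) ^ (r + 3) := by have : 0 < u := by omega
                                          positivity
    calc _ = n * D * (d * Z ^ r) := by ring
      _ ≤ 2 ^ x * 2 ^ x := Nat.mul_le_mul h1 (by nlinarith [Nat.zero_le (d * Z ^ r)])
      _ = _ := (mul_pow 2 2 x).symm

end Ctx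

end Pool.Agent.Lib.MP_f61260_nt
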