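import Pool.Agent.Lib.MP_f61260_nt.Az4
import Pool.Agent.Lib.MP_f61260_nt.AdAbs

/-! The descent with logarithmic loss and the final bound. -/

set_option autoImplicit false
set_option maxHeartbeats 400000

namespace Pool.Agent.Lib.MP_f61260_nt

open Polynomial Real Filter

lemma ineq_ev2 {p : ℕ} (hp : p.Prime) (d R : ℕ) : ∀ᶠ i : ℕ in atTop, ∀ j, j + 1 = 2 * i →
    ∀ (N D E : ℕ) (H : ℝ), 0 < N → N ≤ p ^ (R * (j + 1)) → 0 < D → D ≤ 2 ^ 2 ^ i →
    E ≤ R * (j + 1) → 0 ≤ H → Ineq p d N D E j H → 1 ≤ D * (p ^ (2 * R)) ^ (j + 1) * H := by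
  have hl2 : (1 / 2 : ℝ) < log 2 := by have := Real.log_two_gt_d9; linarith
  have hl2' : log 2 < 1 := by have := Real.log_two_lt_d9; linarith
  have hp2 : (2 : ℝ) ≤ p := by exact_mod_cast hp.two_le
  have hlp : log 2 ≤ log p := log_le_log two_pos hp2
  filter_upwards [tendsto_natCast_atTop_atTop.eventually_ge_atTop
    (16 * d * (R * log p + 1) + 2 : ℝ)] with i hi j hj N D E H hN hN' hD hD' hE hH h
  unfold Ineq at h
  by_contra hc
  rw [not_le] at hc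
  obtain ⟨y, hy⟩ : ∃ y : ℝ, y = 2 ^ i := ⟨_, rfl⟩
  have hk1 : (i : ℝ) ≤ y := by rw [hy]; exact_mod_cast Nat.lt_two_pow_self.le
  have h1 : log (N * D) ≤ R * (2 * i) * log p + y * log 2 := by
    rw [log_mul (by positivity) (by positivity)]
    refine add_le_add ?_ ?_
    · have := log_le_log (by positivity) (show (N : ℝ) ≤ p ^ (R * (2 * i)) by
        exact_mod_cast hj ▸ hN')
      rw [log_pow] at this
      exact_mod_cast this
    · have := log_le_log (by positivity) (show (D : ℝ) ≤ 2 ^ 2 ^ i by exact_mod_cast hD')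
      rw [log_pow] at this
      rw [hy]
      exact_mod_cast this
  have h2 : (N * D : ℝ) * (p ^ E * H) ≤ 1 := by
    refine le_trans ?_ hc.le
    have h3 : (N : ℝ) * p ^ E ≤ (p ^ (2 * R)) ^ (j + 1) := by
      rw [← pow_mul, mul_assoc, two_mul, pow_add]
      exact mul_le_mul (by exact_mod_cast hN') (pow_le_pow_right₀ (by linarith) hE)
        (by positivity) (by positivity)
    calc _ = D * ((N : ℝ) * p ^ E) * H := by ring
      _ ≤ _ := by gcongr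
  have h3 : y ^ 2 ≤ p ^ (j + 1) := by
    rw [hy, ← pow_mul, mul_comm, ← hj]
    exact pow_le_pow_left₀ zero_le_two hp2 _
  have h4 : (0 : ℝ) ≤ R * log p := mul_nonneg (Nat.cast_nonneg _) (by linarith)
  have h5 : (y ^ 2 - 1 : ℝ) * (1 / 2) ≤ (p ^ (j + 1) - 1 : ℝ) * log p :=
    mul_le_mul (by linarith) (by linarith) (by norm_num)
      (sub_nonneg.2 (one_le_pow₀ (by linarith)))
  have h8 : (0 : ℝ) ≤ d * (R * log p + 1) := by positivity
  have h6 : 2 * log (N * D) + 2 * (N * D) * (p ^ E * H) ≤ 4 * ((R * log p + 1) * y) := by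
    nlinarith [mul_le_mul_of_nonneg_left hk1 h4]
  have h7 := mul_le_mul_of_nonneg_left h6 (show (0 : ℝ) ≤ 2 * d by positivity)
  nlinarith [mul_le_mul_of_nonneg_right (hi.trans hk1) (show 0 ≤ y by linarith)]

namespace Ctx

variable {ι : Type} [Fintype ι] {c : Ctx ι}

variable (c) in
/-- data of an element of bounded degree at a given level -/
structure At2 (Pn : ℕ → Prop) (α : Qb) (m n D : ℕ) : Prop where
  pos : 0 < m
  dvd : n ∣ m
  sub : Pn n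
  ne : α ≠ 0
  nd : ¬ c.Dv α
  idx : IdxLe (c.Lv m n) (St ℚ α) D

theorem descent2 (S : Finset ℕ) (hS : ∀ p ∈ S, p.Prime) (hKF : ∀ p ∈ S, ∃ C, c.KF p C) :
    ∃ R P : ℕ, ∀ᶠ i : ℕ in atTop, ∀ Pn : ℕ → Prop, (∀ n n', Pn n → n' ∣ n → Pn n') →
      ∀ D0 ≤ 2 ^ 2 ^ i, ∀ B : ℝ, (P : ℝ) ^ (2 * i) ≤ B →
      (∀ D ≤ D0, ∀ α m n, c.At2 Pn α m n D → (∀ p ∈ S, ¬ p ^ (R * (2 * i)) ∣ m) →
        c.Q α (D * B)) → ∀ D ≤ D0, ∀ α m n, c.At2 Pn α m n D → c.Q α (D * B) := by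
  obtain ⟨d0, hd0⟩ := c.idx_G0
  set ρ := Fintype.card ι with hρ
  refine ⟨10 + 3 * ρ, ∏ p ∈ S, p ^ (2 * (10 + 3 * ρ)), ?_⟩
  have hev : ∀ p ∈ S, ∀ᶠ i : ℕ in atTop, ∀ j, j + 1 = 2 * i → ∀ Pn : ℕ → Prop,
      (∀ n n', Pn n → n' ∣ n → Pn n') → ∀ D ≤ 2 ^ 2 ^ i, ∀ α m n, c.At2 Pn α m n D →
      Rig (c.Lv m n) α → p ^ ((10 + 3 * ρ) * (j + 1)) ∣ m →
      c.Q α (D * (p ^ (2 * (10 + 3 * ρ))) ^ (j + 1)) ∨
        ∃ η m1 n1, c.Dv η ∧ m1 + n1 < m + n ∧ c.At2 Pn (α * η) m1 n1 D := by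
    intro p hpS
    have : Fact p.Prime := ⟨hS p hpS⟩
    have hp := hS p hpS
    obtain ⟨C, hC⟩ := c.gd (p := p)
    obtain ⟨C', hC'⟩ := hKF p hpS
    filter_upwards [ineq_ev2 hp d0 (10 + 3 * ρ), eventually_ge_atTop (C + 1),
      eventually_ge_atTop (C' + 1)] with i0 hj hj1 hj2 j hji Pn hPn D hD α m n h hrig hpm
    replace hj := hj j hji
    have hn0 := Nat.pos_of_dvd_of_pos h.dvd h.pos
    obtain ⟨r, m', hm', rfl⟩ := Nat.exists_eq_pow_mul_and_not_dvd h.pos.ne' p hp.ne_one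
    obtain ⟨s, n', hn', rfl⟩ := Nat.exists_eq_pow_mul_and_not_dvd hn0.ne' p hp.ne_one
    have hcop : ∀ {a : ℕ} (l : ℕ), ¬ p ∣ a → (p ^ l).Coprime a := fun l h =>
      Nat.Coprime.pow_left l ((Nat.Prime.coprime_iff_not_dvd hp).2 h)
    have hnm : n' ∣ m' := (hcop r hn').symm.dvd_of_dvd_mul_left ((dvd_mul_left _ _).trans h.dvd)
    have hsr : s ≤ r := (Nat.pow_dvd_pow_iff_le_right hp.one_lt).1
      ((hcop s hm').dvd_of_dvd_mul_right ((dvd_mul_right _ _).trans h.dvd))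
    have hr : (10 + 3 * ρ) * (j + 1) ≤ r := (Nat.pow_dvd_pow_iff_le_right hp.one_lt).1
      ((hcop _ hm').dvd_of_dvd_mul_right hpm)
    have hD0 : 0 < D := let ⟨T, hT⟩ := h.idx; T.card_pos.trans_le hT
    have hnd : ∀ η, c.Dv η → ¬ c.Dv (α * η) := fun η hη h' => h.nd (by
      have := h'.mul hη.inv
      rwa [mul_inv_cancel_right₀ hη.ne] at this)
    have hm0 : 0 < m' := Nat.pos_of_mul_pos_left h.pos
    have hn0' : 0 < n' := Nat.pos_of_mul_pos_left hn0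
    have hidx := h.idx
    rw [mul_comm (p ^ r), mul_comm (p ^ s)] at hrig hidx
    have hρ' : (10 + 3 * ρ) * (j + 1) = 10 * (j + 1) + ρ * (3 * (j + 1)) := by ring
    by_cases hA : s + 3 * (j + 1) ≤ r
    · obtain ⟨i, rfl⟩ : ∃ i, r = i + j + 1 := ⟨r - (j + 1), by omega⟩
      rcases caseA hC hd0 hm' hnm (by omega) (by omega) h.ne hrig hidx with h1 | ⟨η, h1, h2⟩
      · exact Or.inl fun η hη => hj _ _ _ _ (pow_pos hp.pos _)
          (Nat.pow_le_pow_right hp.pos (by omega)) hD0 hD (by omega) (ht_nonneg _) (h1 η hη)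
      · refine Or.inr ⟨η, _, _, h1, ?_, Nat.mul_pos hm0 (pow_pos hp.pos _),
          mul_dvd_mul hnm (pow_dvd_pow p (by omega)), by rw [mul_comm]; exact h.sub,
          mul_ne_zero h.ne h1.ne, hnd η h1, h2⟩
        rw [mul_comm m', mul_comm n']
        exact Nat.add_lt_add_right (Nat.mul_lt_mul_of_pos_right
          (Nat.pow_lt_pow_right hp.one_lt (by omega)) hm0) _
    · obtain ⟨s0, rfl⟩ : ∃ s0, s = s0 + (3 * j + 2 + 1) := ⟨s - (3 * j + 3), by omega⟩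
      obtain ⟨J, rfl⟩ : ∃ J, r = s0 + (j + 1) + J + 1 := ⟨r - (s0 + j + 2), by omega⟩
      have e : 3 * (j + 1) = 3 * j + 2 + 1 := by ring
      rw [e] at hρ'
      rcases caseB (j := j) hC hC' hd0 hm' hnm (by omega) (by omega) (by omega) (by omega)
        (by omega) (by omega) (by rw [← hρ]; omega) h.ne hrig hidx with h1 | ⟨η, h1, h2⟩
      · exact Or.inl fun η hη => hj _ _ _ _ (pow_pos hp.pos _)
          (Nat.pow_le_pow_right hp.pos (by rw [← hρ]; omega)) hD0 hD (by rw [← hρ]; omega)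
          (ht_nonneg _) (h1 η hη)
      · refine Or.inr ⟨η, _, _, h1, ?_, Nat.mul_pos hm0 (pow_pos hp.pos _),
          mul_dvd_mul hnm (pow_dvd_pow p (by omega)), hPn _ _ h.sub ?_,
          mul_ne_zero h.ne h1.ne, hnd η h1, h2⟩
        · rw [mul_comm m', mul_comm n']
          exact Nat.add_lt_add_left (Nat.mul_lt_mul_of_pos_right
            (Nat.pow_lt_pow_right hp.one_lt (by omega)) hn0') _
        · rw [mul_comm]; exact mul_dvd_mul_right (pow_dvd_pow p (by omega)) _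
  rw [← eventually_all_finset] at hev
  filter_upwards [hev, eventually_ge_atTop 1] with i hi hi1 Pn hPn D0 hD0 B hB base D
  obtain ⟨j, hj⟩ : ∃ j, j + 1 = 2 * i := ⟨2 * i - 1, by omega⟩
  rw [← hj] at hB base
  induction D using Nat.strong_induction_on with
  | _ D ihD =>
  intro hD α m n
  induction hmn : m + n using Nat.strong_induction_on generalizing α m n with
  | _ l ihl =>
  intro h
  obtain ⟨e, D1, ξ, he, hD1, heD, hξ, h1, h2⟩ := exists_rig h.ne h.idx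
  have hξ0 := (dv_tor (c := c) hξ).ne
  have h3 : c.At2 Pn (ξ * α ^ e) m n D1 := ⟨h.pos, h.dvd, h.sub,
    mul_ne_zero hξ0 (pow_ne_zero _ h.ne), fun h' => h.nd (Dv.of_pow he (by
      have := (dv_tor hξ).inv.mul h'
      rwa [inv_mul_cancel_left₀ hξ0] at this)), h1⟩
  refine (Q.of_pow hξ (B := D1 * B) ?_).mono (by
    rw [← mul_assoc]
    exact mul_le_mul_of_nonneg_right (by exact_mod_cast heD) (le_trans (by positivity) hB))
  rcases (show D1 ≤ D by nlinarith).lt_or_eq with h4 | rfl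
  · exact ihD D1 h4 (h4.le.trans hD) _ m n h3
  by_cases hc : ∃ p ∈ S, p ^ ((10 + 3 * ρ) * (j + 1)) ∣ m
  · obtain ⟨p, hpS, hc⟩ := hc
    rcases hi p hpS j hj Pn hPn D1 (hD.trans hD0) _ m n h3 h2 hc with h5 | ⟨η, m1, n1, h5, h6, h7⟩
    · refine h5.mono (mul_le_mul_of_nonneg_left (le_trans ?_ hB) (by positivity))
      gcongr
      exact_mod_cast Finset.single_le_prod' (f := fun p => p ^ (2 * (10 + 3 * ρ)))
        (fun q hq => Nat.one_le_pow _ _ (hS q hq).pos) hpS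
    · exact Q.of_mul h5 (ihl _ (hmn ▸ h6) _ m1 n1 rfl h7)
  · push Not at hc
    exact base D1 hD _ m n h3 hc

theorem main2 (S : Finset ℕ) (hS : ∀ p ∈ S, p.Prime)
    (hind : ∀ w : ι → ℤ, Tor (∏ a, c.t a 1 ^ w a) → w = 0) : ∃ C : ℝ, 0 < C ∧ ∃ κ : ℕ,
    ∀ n0 s : ℕ, 0 < n0 → 0 < s → s.primeFactors ⊆ S → ∀ α m n D,
      c.At2 (· ∣ n0 * s) α m n D → ∀ η, c.Dv η → C / (D * log (3 * (n0 * D)) ^ κ) ≤ ht (α * η) := by
  obtain ⟨R, P, h1⟩ := c.descent2 S hS fun p hp => kf hind (hS p hp)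
  obtain ⟨κ, h2⟩ := base2 hind
  obtain ⟨P1, hP1⟩ : ∃ P1, P1 = ∏ p ∈ S, p ^ (R * 2) := ⟨_, rfl⟩
  obtain ⟨i0, h3⟩ := eventually_atTop.1 (h1.and (((tendsto_pow_atTop_atTop_of_one_lt
    one_lt_two).comp (tendsto_add_atTop_nat 1)).eventually h2 |>.and ((ev_sq 1).and
      (eventually_ge_atTop P1))))
  refine ⟨1 / (2 * ((2 ^ i0 : ℕ) + 3)) ^ (2 * (κ + P)), by positivity, 2 * (κ + P),
    fun n0 s h4 h5 h6 α m n D h η hη => ?_⟩
  have hD0 : 0 < D := let ⟨T, hT⟩ := h.idx; T.card_pos.trans_le hT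
  obtain ⟨x, hx1, hx2, hx3⟩ := ex_lev (2 ^ i0) (Nat.mul_pos h4 hD0)
  have hx0 : x ≠ 0 := ((pow_pos two_pos i0).trans_le hx1).ne'
  obtain ⟨i, hi⟩ : ∃ i, i = Nat.log 2 x + 1 := ⟨_, rfl⟩
  have e1 : x ≤ 2 ^ i := hi ▸ (Nat.lt_pow_succ_log_self one_lt_two x).le
  have e2 : 2 ^ i ≤ 2 * x := by
    rw [hi, pow_succ']; exact Nat.mul_le_mul_left _ (Nat.pow_log_le_self 2 hx0)
  obtain ⟨a1, a2, a3, a4⟩ := h3 i ((Nat.pow_le_pow_iff_right one_lt_two).1 (hx1.trans e1))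
  have e3 : n0 * D ≤ 2 ^ 2 ^ i := hx2.trans (Nat.pow_le_pow_right two_pos e1)
  have e4 : 1 ≤ i := by omega
  have e5 := a1 (· ∣ n0 * s) (fun _ _ a b => b.trans a) D ((Nat.le_mul_of_pos_left D h4).trans e3)
    (((2 ^ i : ℕ) : ℝ) ^ (2 * (κ + P))) (by
      exact_mod_cast (Nat.pow_le_pow_left (Nat.lt_two_pow_self (n := P)).le _).trans (by
        rw [← pow_mul, ← pow_mul]; exact Nat.pow_le_pow_right two_pos (by nlinarith)))
    (fun D' hD' α m n h h7 => (a2 n D' ?_ α m h.pos h.dvd h.ne h.nd h.idx).mono (by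
      refine mul_le_mul_of_nonneg_left ?_ (by positivity)
      exact_mod_cast (show (2 ^ (i + 1)) ^ κ ≤ (2 ^ i) ^ (2 * (κ + P)) by
        rw [← pow_mul, ← pow_mul]; exact Nat.pow_le_pow_right two_pos (by nlinarith)))) D le_rfl
    α m n h η hη
  · have e6 : ((2 ^ i : ℕ) : ℝ) ≤ 2 * ((2 ^ i0 : ℕ) + 3) * log (3 * (n0 * D)) := by
      have : ((2 ^ i : ℕ) : ℝ) ≤ 2 * x := by exact_mod_cast e2
      rw [Nat.cast_mul] at hx3
      linarith
    have e7 : 0 < log (3 * (n0 * D)) := log_pos (by exact_mod_cast (by nlinarith : 1 < 3 * (n0 * D)))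
    have := ht_nonneg (α * η)
    rw [div_div, div_le_iff₀ (by positivity)]
    refine e5.trans (le_trans (mul_le_mul_of_nonneg_right (mul_le_mul_of_nonneg_left
      (pow_le_pow_left₀ (by positivity) e6 _) (by positivity)) this) (le_of_eq ?_))
    rw [mul_pow _ (log _)]
    ring
  have hn : n ∣ n0 * P1 ^ i := by
    rw [Nat.dvd_iff_prime_pow_dvd_dvd]
    intro p j hp hj
    by_cases hpS : p ∈ S
    · refine Dvd.dvd.mul_left ((pow_dvd_pow p ?_).trans (hP1 ▸ (pow_mul p _ i).symm ▸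
        pow_dvd_pow_of_dvd (Finset.dvd_prod_of_mem (fun p => p ^ (R * 2)) hpS) i)) _
      by_contra hc
      exact h7 p hpS (((pow_dvd_pow p (by rw [← mul_assoc]; omega)).trans hj).trans h.dvd)
    · exact ((Nat.Coprime.pow_left j ((Nat.Prime.coprime_iff_not_dvd hp).2 fun h' => hpS (h6
        (Nat.mem_primeFactors.2 ⟨hp, h', h5.ne'⟩)))).dvd_of_dvd_mul_right
        (hj.trans h.sub)).mul_right _
  have e6 : P1 ^ i ≤ 2 ^ 2 ^ i := (Nat.pow_le_pow_left (a4.trans Nat.lt_two_pow_self.le) i).trans (by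
    rw [← pow_mul, ← sq]
    exact Nat.pow_le_pow_right two_pos (by rw [one_mul] at a3; exact_mod_cast a3))
  calc n * D' ≤ n0 * P1 ^ i * D := Nat.mul_le_mul (Nat.le_of_dvd (Nat.mul_pos h4 (pow_pos
        (hP1 ▸ Finset.prod_pos fun p hp => pow_pos (hS p hp).pos _) _)) hn) hD'
    _ = n0 * D * P1 ^ i := by ring
    _ ≤ 2 ^ 2 ^ i * 2 ^ 2 ^ i := Nat.mul_le_mul e3 e6
    _ = _ := by rw [← pow_add, ← two_mul, ← pow_succ']; rfl

end Ctx

end Pool.Agent.Lib.MP_f61260_nt
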