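import Pool.Agent.Lib.MP_f61260_nt.Az5

/-! Translation to complex numbers and Mahler measures. -/

set_option autoImplicit false
set_option maxHeartbeats 400000

namespace Pool.Agent.Lib.MP_f61260_nt

open Polynomial Real

theorem tower_log (S : Finset ℕ) (Γ : Subgroup ℂˣ) (hΓ : Γ.FG)
    (halg : ∀ g ∈ Γ, IsAlgebraic ℚ (g : ℂ)) :
    ∃ c : ℝ, 0 < c ∧ ∃ κ : ℕ, ∀ n : ℕ, 1 ≤ n → ∀ α : ℂ, α ≠ 0 → IsAlgebraic ℚ α →
      α ∉ {z : ℂ | z ≠ 0 ∧ ∃ k : ℕ, 1 ≤ k ∧ ∃ g ∈ Γ, (g : ℂ) = z ^ k} →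
      ∀ η ∈ {z : ℂ | z ≠ 0 ∧ ∃ k : ℕ, 1 ≤ k ∧ ∃ g ∈ Γ, (g : ℂ) = z ^ k},
      ∀ D : ℕ, D = (minpoly (IntermediateField.adjoin ℚ {z : ℂ | ∃ s : ℕ, 1 ≤ s ∧
          (z ^ s = 1 ∨ (s.primeFactors ⊆ S ∧ ∃ g ∈ Γ, (g : ℂ) = z ^ (n * s)))}) (α * η)).natDegree →
      ∀ f : Polynomial ℤ, Irreducible f → Polynomial.aeval α f = 0 →
        c / (D * Real.log (3 * (n * D)) ^ κ)
          ≤ Real.log (Polynomial.mahlerMeasure (f.map (Int.castRingHom ℂ))) / (f.natDegree : ℝ) := by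
  classical
  obtain ⟨ι, _, γ, N, hN, h1, h2, h3⟩ := fg_basis Γ hΓ
  choose t ht1 ht2 using fun a => exists_sys (Complex.log (γ a)) (by
    rw [Complex.exp_log (γ a).ne_zero]; exact halg _ (h1 a))
  obtain ⟨c0⟩ := exists_ctx
  let c : Ctx ι := ⟨c0.z, t, c0.hz, c0.prim, ht1⟩
  have h4 : ∀ w : ι → ℤ, ((∏ a, c.t a 1 ^ w a : Qb) : ℂ) = ((∏ a, γ a ^ w a : ℂˣ) : ℂ) := fun w => by
    simp only [Units.coe_prod, Units.val_zpow_eq_zpow_val]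
    refine (map_prod (algebraMap Qb ℂ) _ _).trans (Finset.prod_congr rfl fun a _ => ?_)
    rw [map_zpow₀]
    exact congrArg (· ^ w a) ((ht2 a 1).trans (by simp [Complex.exp_log (γ _).ne_zero]))
  have h5 : ∀ x : Qb, c.Dv x ↔ (x : ℂ) ≠ 0 ∧ ∃ n : ℕ, 1 ≤ n ∧ ∃ g ∈ Γ, (g : ℂ) = (x : ℂ) ^ n := by
    refine fun x => ⟨fun h => ⟨fun h' => h.ne (Subtype.ext h'), ?_⟩, fun ⟨_, n, hn, g, hg, h⟩ => ?_⟩
    · obtain ⟨n, hn, w, h⟩ := h
      exact ⟨n, hn, _, Γ.prod_mem fun a _ => Γ.zpow_mem (h1 a) (w a), by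
        rw [← h4, ← h]; rfl⟩
    · obtain ⟨w, hw⟩ := h3 g hg
      exact ⟨n * N, Nat.mul_pos hn hN, w, Subtype.ext (by
        rw [h4, ← hw, pow_mul]; simp [h])⟩
  have hq : ∀ (y : ℂ) (n : ℕ), 1 ≤ n → IsAlgebraic ℚ (y ^ n) → ∃ x : Qb, (x : ℂ) = y :=
    fun y n hn h => ⟨⟨y, mem_algebraicClosure_iff.2 (h.of_pow hn)⟩, rfl⟩
  obtain ⟨C, hC, κ, h6⟩ := c.main2 (S.filter Nat.Prime ∪ N.primeFactors) (fun p hp => by
    rcases Finset.mem_union.1 hp with h | h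
    · exact (Finset.mem_filter.1 h).2
    · exact Nat.prime_of_mem_primeFactors h) fun w ⟨n, hn, h⟩ => by
      have := h2 (fun a => w a * n) (Units.ext (by
        simp only [zpow_mul, zpow_natCast, Finset.prod_pow, Units.val_pow_eq_pow_val, ← h4]
        exact congrArg Subtype.val h))
      exact funext fun a => (mul_eq_zero.1 (congrFun this a)).resolve_right
        (by exact_mod_cast hn.ne')
  refine ⟨C, hC, κ, fun n0 hn0 α hα ha hnd η hη D hD f hf hfα => ?_⟩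
  lift α to Qb using mem_algebraicClosure_iff.2 ha
  obtain ⟨η, rfl⟩ : ∃ x : Qb, (x : ℂ) = η := by
    obtain ⟨-, n, hn, g, hg, h⟩ := hη
    exact hq η n hn (h ▸ halg g hg)
  have hη' := (h5 η).2 hη
  let c' : Ctx ι := ⟨c0.z, fun a k => t a (n0 * k), c0.hz, c0.prim, fun a => ⟨fun _ => (ht1 a).ne _,
    fun n k hn hk => by rw [← mul_assoc, (ht1 a).pw _ _ (Nat.mul_pos hn0 hn) hk]⟩⟩
  have hX : ∀ y ∈ {z : ℂ | ∃ s : ℕ, 1 ≤ s ∧
      (z ^ s = 1 ∨ (s.primeFactors ⊆ S ∧ ∃ g ∈ Γ, (g : ℂ) = z ^ (n0 * s)))}, ∃ x : Qb, (x : ℂ) = y ∧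
      c'.Lev (S.filter Nat.Prime ∪ N.primeFactors) {()} fun _ => x := by
    rintro y ⟨n, hn, h | ⟨hnS, g, hg, h⟩⟩
    · obtain ⟨x, rfl⟩ := hq y n hn (h ▸ isAlgebraic_one)
      exact ⟨x, rfl, n, 1, hn, one_dvd _, by simp, fun _ _ σ hσ =>
        Ctx.fix hn hσ.1 dvd_rfl (Subtype.ext h)⟩
    · obtain ⟨x, rfl⟩ := hq y _ (Nat.mul_pos hn0 hn) (h ▸ halg g hg)
      obtain ⟨w, hw⟩ := h3 g hg
      have hM := Nat.mul_pos hn0 (Nat.mul_pos hn hN)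
      refine ⟨x, rfl, n0 * (n * N), n * N, hM, dvd_mul_left _ _, ?_, fun _ _ σ hσ => ?_⟩
      · rw [Nat.primeFactors_mul (by omega) hN.ne']
        exact Finset.union_subset_union_left fun p hp =>
          Finset.mem_filter.2 ⟨hnS hp, Nat.prime_of_mem_primeFactors hp⟩
      have h7 : (∏ a, c'.t a (n * N) ^ w a) ≠ 0 :=
        Finset.prod_ne_zero_iff.2 fun a _ => zpow_ne_zero _ ((c'.hs a).ne _)
      have h8 : (x / ∏ a, c'.t a (n * N) ^ w a) ^ (n0 * (n * N)) = 1 := by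
        have e : ∀ a, (c'.t a (n * N) ^ w a) ^ (n0 * (n * N)) = c.t a 1 ^ w a := fun a => by
          rw [← zpow_natCast, ← zpow_mul, mul_comm (w a), zpow_mul, zpow_natCast]
          exact congrArg (· ^ w a) ((ht1 a).pw1 hM)
        rw [div_pow, div_eq_one_iff_eq (pow_ne_zero _ h7), ← Finset.prod_pow,
          Finset.prod_congr rfl fun a _ => e a]
        exact Subtype.ext (by rw [h4, ← hw, ← mul_assoc, pow_mul]; simp [h])
      have h9 := Ctx.fix hM hσ.1 dvd_rfl h8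
      rwa [map_div₀, Fx.prod (A := c'.Lv (n0 * (n * N)) (n * N)) _ (fun a _ =>
        Fx.zpow (fun _ hσ => (Ctx.mem_Lv.1 hσ).2 a) _) σ hσ, div_left_inj' h7] at h9
  obtain ⟨m, n, h7, h8, h9, h10⟩ := c'.idx_minpoly (S := S.filter Nat.Prime ∪ N.primeFactors)
    (Ctx.lev_adjoin hX) (α * η)
  have hn := Nat.pos_of_dvd_of_pos h8 h7
  have h11 := h6 n0 n hn0 hn h9 _ (n0 * m) _ _ ⟨Nat.mul_pos hn0 h7, mul_dvd_mul_left _ h8, dvd_rfl,
    mul_ne_zero (fun h => hα (congrArg Subtype.val h)) hη'.ne, fun h => hnd ((h5 α).1 (by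
      have := h.mul hη'.inv
      rwa [mul_inv_cancel_right₀ hη'.ne] at this)), h10.restrict (Ctx.Lv_mono (c := c)
        (Nat.mul_pos hn0 h7) (Nat.mul_pos hn0 hn) (dvd_mul_left _ _) dvd_rfl) inf_le_right⟩ _ hη'.inv
  rw [mul_inv_cancel_right₀ hη'.ne] at h11
  rw [hD]
  exact h11.trans (ht_le_mahler hf ((algebraMap Qb ℂ).injective (by
      rw [← Polynomial.aeval_algebraMap_apply, map_zero]; exact hfα)))

end Pool.Agent.Lib.MP_f61260_nt
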