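import Pool.Agent.Lib.MP_f61260_nt.Loc4

set_option autoImplicit false
set_option maxHeartbeats 400000

namespace Pool.Agent.Lib.MP_f61260_nt

open Polynomial

lemma interp_fx {k E ι : Type} [Field k] [Field E] [Algebra k E] {A : Subgroup (E ≃ₐ[k] E)}
    (s : Finset ι) {v y : ι → E} (hv : Set.InjOn v s)
    (h : ∀ σ ∈ A, ∀ i ∈ s, ∃ j ∈ s, σ (v j) = v i ∧ σ (y j) = y i) :
    ∃ P : E[X], P.degree < s.card ∧ (∀ n, Fx A (P.coeff n)) ∧ ∀ i ∈ s, P.eval (v i) = y i := by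
  classical
  have hdeg := Lagrange.degree_interpolate_lt y hv
  have hev := fun i hi => Lagrange.eval_interpolate_at_node y hv (i := i) hi
  refine ⟨_, hdeg, fun n g hg => ?_, hev⟩
  have : (Lagrange.interpolate s v y).map (g : E →+* E) = Lagrange.interpolate s v y := by
    refine Lagrange.eq_interpolate_of_eval_eq _ hv (degree_map_le.trans_lt hdeg) fun i hi => ?_
    obtain ⟨j, hj, h1, h2⟩ := h g hg i hi
    rw [← h1, ← h2, ← hev j hj, eval_map]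
    exact eval₂_at_apply (g : E →+* E) _
  conv_rhs => rw [← this, coeff_map]
  rfl

lemma ndet_le {K n : Type} [NormedField K] [IsUltrametricDist K] [Fintype n] [DecidableEq n]
    (M : Matrix n n K) {R : n → ℝ} (h : ∀ x i, ‖M x i‖ ≤ R i) : ‖M.det‖ ≤ ∏ i, R i := by
  rw [Matrix.det_apply']
  refine nsum_le (Finset.prod_nonneg fun i _ => (norm_nonneg _).trans (h i i)) fun σ _ => ?_
  rw [norm_mul, norm_prod]
  exact (mul_le_of_le_one_left (Finset.prod_nonneg fun _ _ => norm_nonneg _)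
    (IsUltrametricDist.norm_intCast_le_one K _)).trans
    (Finset.prod_le_prod (fun _ _ => norm_nonneg _) fun i _ => h _ i)

variable {p : ℕ} [hp : Fact p.Prime] {A : Subgroup (LA p)}

variable (p) in
/-- the group fixing the roots of unity of order `m` -/
noncomputable def In (m : ℕ) : Subgroup (LA p) := ⨅ ξ : {ξ : Om p // ξ ^ m = 1}, St ℚ_[p] ξ.1

lemma mem_In {m : ℕ} {σ : LA p} : σ ∈ In p m ↔ ∀ ξ : Om p, ξ ^ m = 1 → σ ξ = ξ := by
  simp [In, Subgroup.mem_iInf]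

lemma In_mono {m m' : ℕ} (h : m ∣ m') : In p m' ≤ In p m := fun _ hσ => mem_In.2 fun ξ hξ =>
  mem_In.1 hσ ξ (by obtain ⟨c, rfl⟩ := h; rw [pow_mul, hξ, one_pow])

lemma ex_prim {m : ℕ} (hm : 0 < m) : ∃ ζ : Om p, IsPrimitiveRoot ζ m :=
  have : NeZero (m : Om p) := ⟨Nat.cast_ne_zero.2 hm.ne'⟩
  HasEnoughRootsOfUnity.exists_primitiveRoot (Om p) m

/-- bound for the norm of a uniformiser -/
def Val (A : Subgroup (LA p)) (l : ℝ) : Prop := ∀ x, Fx A x → ‖x‖ < 1 → ‖x‖ ≤ l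

lemma val_In {m : ℕ} (hm : ¬ p ∣ m) : Val (In p m) ‖(p : Om p)‖ := fun x hx h => by
  have hm0 : 0 < m := Nat.pos_of_ne_zero fun h => hm (h ▸ dvd_zero p)
  obtain ⟨ζ, hζ⟩ := ex_prim (p := p) hm0
  obtain ⟨φ, hφ⟩ := loc_frob hm hζ.pow_eq_one
  have h1 := hφ x (hx.mono fun σ hσ => mem_In.2 fun ξ hξ => fix_root hm0 hζ hσ dvd_rfl hξ) h.le
  rcases eq_or_ne x 0 with rfl | h0
  · simp
  have h2 : ‖x ^ p‖ < ‖φ x‖ := by
    rw [niso, norm_pow]
    exact pow_lt_self_of_lt_one₀ (norm_pos_iff.2 h0) h hp.out.one_lt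
  rwa [norm_eq_of_sub_lt (y := φ x) (by simpa using h2), niso] at h1

lemma near_root {x : Om p} (hx : ‖x‖ ≤ 1) :
    ∃ m, ¬ p ∣ m ∧ ∃ ξ, (ξ = 0 ∨ ξ ^ m = 1) ∧ ‖x - ξ‖ < 1 := by
  rcases hx.lt_or_eq with h | h
  · exact ⟨1, hp.out.not_dvd_one, 0, Or.inl rfl, by simpa using h⟩
  obtain ⟨σ, hσ⟩ := frob hx
  have h1 : ∀ n : ℕ, ‖x ^ p ^ n - (σ ^ n) x‖ < 1 := by
    intro n
    induction n with
    | zero => simp
    | succ n ih =>
      have h2 : ‖(x ^ p ^ n) ^ p - ((σ ^ n) x) ^ p‖ < 1 :=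
        (pow_sub_le_one (by rw [norm_pow]; exact pow_le_one₀ (norm_nonneg _) hx)
          (by rw [niso]; exact hx) p).trans_lt ih
      have h3 : ‖((σ ^ n) x) ^ p - (σ ^ (n + 1)) x‖ < 1 := by
        rw [pow_succ, AlgEquiv.mul_apply, ← map_pow, ← map_sub, niso]; exact hσ
      have := nadd_lt h2 h3
      rwa [sub_add_sub_cancel, ← pow_mul, ← pow_succ] at this
  obtain ⟨_, hT⟩ := fi_St x
  obtain ⟨N, hN, hN'⟩ := hT.exists_pow (Subgroup.mem_top σ)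
  obtain ⟨M, hM⟩ : ∃ M, p ^ N = M + 1 := ⟨p ^ N - 1, by have := pow_pos hp.out.pos N; omega⟩
  have hM0 : 0 < M := by have := Nat.one_lt_pow hN.ne' hp.out.one_lt; omega
  have h2 := h1 N
  obtain ⟨ζ, hζ⟩ := ex_prim (p := p) hM0
  rw [mem_St.1 hN', hM, pow_succ, ← sub_one_mul, norm_mul, h, mul_one, ← one_pow M,
    hζ.pow_sub_pow_eq_prod_sub_mul x 1 hM0, norm_prod] at h2
  obtain ⟨ξ, h3, h4⟩ := exists_lt_of_prod_lt h2
  exact ⟨M, fun h => hp.out.not_dvd_one ((Nat.dvd_add_right h).1 (hM ▸ dvd_pow_self p hN.ne')), ξ,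
    Or.inr ((mem_nthRootsFinset hM0 1).1 h3), by simpa using h4⟩

/-- unramified elements -/
def UnrD (y : Om p) : Prop := ∃ m, ¬ p ∣ m ∧ Fx (In p m) y

lemma unr_of_sep {y : Om p} (hy : ‖y‖ ≤ 1) {m : ℕ} (hm : ¬ p ∣ m)
    (h : ∀ σ ∈ In p m, σ y ≠ y → 1 ≤ ‖σ y - y‖) : UnrD y := by
  obtain ⟨m', hm', ξ, h1, h2⟩ := near_root hy
  refine ⟨m * m', fun h => (hp.out.dvd_mul.1 h).elim hm hm', fun σ hσ => ?_⟩
  by_contra hc
  have h3 : σ ξ = ξ := by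
    rcases h1 with rfl | h1
    · exact map_zero σ
    · exact mem_In.1 (In_mono (dvd_mul_left _ _) hσ) ξ h1
  have := nsub_lt (x := σ (y - ξ)) (by rwa [niso]) h2
  rw [map_sub, h3, sub_sub_sub_cancel_right] at this
  exact absurd this (not_lt.2 (h σ (In_mono (dvd_mul_right _ _) hσ) hc))

lemma eis' {ϖ ϖ0 : Om p} {e : ℕ} (h0 : Fx A ϖ0) (h1 : ‖ϖ0‖ = ‖ϖ‖ ^ e) (h2 : ϖ ≠ 0) (h3 : ‖ϖ‖ < 1)
    (hV : Val A ‖ϖ0‖) {P : (Om p)[X]} (hP : P.degree < e) (hf : ∀ n, Fx A (P.coeff n)) :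
    (‖P.eval ϖ‖ ≤ 1 → ∀ n, ‖P.coeff n‖ ≤ 1) ∧ (‖P.eval ϖ‖ < 1 → ‖P.eval ϖ‖ ≤ ‖ϖ‖) := by
  have hn := norm_pos_iff.2 h2
  have h4 : ∀ n, P.coeff n ≠ 0 → n < e ∧ ∃ a : ℤ, ‖P.coeff n‖ = ‖ϖ‖ ^ (e * a) := fun n hn' => by
    have he : n < e := Nat.cast_lt.1 ((le_degree_of_ne_zero hn').trans_lt hP)
    have h5 : 0 < ‖ϖ0‖ := h1 ▸ pow_pos hn e
    have h6 : ‖ϖ0‖ < 1 := h1 ▸ pow_lt_one₀ hn.le h3 (by omega)
    obtain ⟨a, h7, h8⟩ := exists_mem_Ioc_zpow (norm_pos_iff.2 hn') ((one_lt_inv₀ h5).2 h6)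
    refine ⟨he, -(a + 1), ?_⟩
    rw [zpow_mul, zpow_natCast, ← h1, zpow_neg, ← inv_zpow]
    refine h8.antisymm (not_lt.1 fun h9 => ?_)
    have := hV _ ((hf n).mul (h0.zpow (a + 1))) (by
      rwa [norm_mul, norm_zpow, ← lt_div_iff₀ (zpow_pos h5 _), one_div, ← inv_zpow])
    rw [norm_mul, norm_zpow, zpow_add_one₀ h5.ne', ← mul_assoc, mul_le_iff_le_one_left h5,
      ← le_div_iff₀ (zpow_pos h5 _), one_div, ← inv_zpow] at this
    exact absurd h7 (not_lt.2 this)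
  have h5 := ortho (P := P) (x := ϖ) fun k l hkl hk hl h => by
    obtain ⟨hk1, a, ha⟩ := h4 k hk
    obtain ⟨hl1, b, hb⟩ := h4 l hl
    rw [ha, hb, ← zpow_natCast, ← zpow_natCast, ← zpow_add₀ hn.ne', ← zpow_add₀ hn.ne',
      zpow_right_inj₀ hn h3.ne] at h
    have := congrArg (· % (e : ℤ)) h
    simp only [Int.mul_add_emod_self_left] at this
    rw [Int.emod_eq_of_lt (by omega) (by omega), Int.emod_eq_of_lt (by omega) (by omega)] at this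
    omega
  refine ⟨fun h n => ?_, fun h => eval_le hn.le fun n => ?_⟩ <;> by_cases hn' : P.coeff n = 0
  · simp [hn']
  · obtain ⟨h6, a, ha⟩ := h4 n hn'
    have := (h5 n).trans h
    rw [ha, ← zpow_natCast, ← zpow_add₀ hn.ne', zpow_le_one_iff_right_of_lt_one₀ hn h3] at this
    rw [ha, zpow_le_one_iff_right_of_lt_one₀ hn h3]
    by_contra hc
    have : a ≤ -1 := by by_contra h'; exact hc (mul_nonneg (by omega) (by omega))
    nlinarith
  · simp [hn']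
  · obtain ⟨h6, a, ha⟩ := h4 n hn'
    have := (h5 n).trans_lt h
    rw [ha, ← zpow_natCast, ← zpow_add₀ hn.ne'] at this ⊢
    rw [zpow_lt_one_iff_right_of_lt_one₀ hn h3] at this
    simpa using zpow_le_zpow_right_of_le_one₀ hn h3.le (show 1 ≤ e * a + n by omega)

lemma val_step {ϖ ϖ0 : Om p} {e : ℕ} (h0 : Fx A ϖ0) (h1 : ‖ϖ0‖ = ‖ϖ‖ ^ e) (h2 : ϖ ≠ 0)
    (h3 : ‖ϖ‖ < 1) (hV : Val A ‖ϖ0‖) (h : IdxLe A (St ℚ_[p] ϖ) e) :
    Val (A ⊓ St ℚ_[p] ϖ) ‖ϖ‖ := fun x hx hx1 => by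
  obtain ⟨T, hT⟩ := h.restrict (A' := A ⊓ St ℚ_[p] ϖ) le_rfl le_rfl
  obtain ⟨P, h4, h5, h6⟩ := T.cond (y := ϖ) (fun σ hσ h => ⟨hσ, h⟩) (Fx.of_le inf_le_right) hx
  have h7 := h6 1 A.one_mem
  rw [AlgEquiv.one_apply, AlgEquiv.one_apply] at h7
  rw [← h7] at hx1 ⊢
  exact (eis' h0 h1 h2 h3 hV (h4.trans_le (Nat.cast_le.2 hT)) h5).2 hx1

/-- the invariant of a radical tower over an unramified field -/
def TInv (A : Subgroup (LA p)) (b : Om p) : Prop :=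
  Val A ‖(p : Om p)‖ ∨ (‖(p : Om p)‖ ≤ ‖b - 1‖ ∧ Val A ‖b - 1‖)

lemma prim_facts {ω : Om p} (hω : IsPrimitiveRoot ω p) : 0 < ‖ω - 1‖ ∧ ‖ω - 1‖ < 1 ∧
    ∀ ξ : Om p, ξ ^ p = 1 → ξ ≠ 1 → ‖ξ - 1‖ = ‖ω - 1‖ :=
  ⟨norm_pos_iff.2 (sub_ne_zero.2 (hω.ne_one hp.out.one_lt)),
    sub_lt_one_of_pow hp.out np_lt (norm_root hp.out.pos hω.pow_eq_one).le (by simp)
      (by simp [hω.pow_eq_one]),
    fun _ h h1 => norm_prim_eq hp.out.pos (prim_of_ne hp.out h h1) hω⟩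

lemma dich (hp2 : p ≠ 2) {ω b : Om p} (hω : IsPrimitiveRoot ω p) (h : TInv A b) (hb : Fx A b)
    (h1 : ‖b - 1‖ < 1) : (‖(p : Om p)‖ ≤ ‖b - 1‖ ∧ Val A ‖b - 1‖) ∨
      (Val A ‖(p : Om p)‖ ∧ ∃ w, Fx A w ∧ w ^ p = b ∧ ‖w - 1‖ < ‖ω - 1‖) := by
  rcases h with h | h
  swap
  · exact Or.inl h
  by_cases h2 : ‖(p : Om p)‖ ≤ ‖b - 1‖
  · exact Or.inl ⟨h2, fun x hx hx1 => (h x hx hx1).trans h2⟩
  obtain ⟨f1, f2, f3⟩ := prim_facts hω
  have hq := np_pos (p := p)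
  have h3 := h ((b - 1) / p) ((hb.sub Fx.one).div fun σ _ => map_natCast σ p)
    (by rw [norm_div, div_lt_one hq]; exact not_le.1 h2)
  rw [norm_div, div_le_iff₀ hq] at h3
  obtain ⟨w0, hw0⟩ := IsAlgClosed.exists_pow_nat_eq b hp.out.pos
  obtain ⟨w, hw, hw1⟩ : ∃ w : Om p, w ^ p = b ∧ ‖w - 1‖ < ‖ω - 1‖ := by
    by_contra hc
    push Not at hc
    rw [norm_sub_rev, ← hw0, ← one_pow p, hω.pow_sub_pow_eq_prod_sub_mul 1 w0 hp.out.pos,
      norm_prod] at h3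
    have h4 := (Finset.prod_le_prod (s := nthRootsFinset p (1 : Om p)) (fun _ _ => f1.le)
      fun ξ hξ => (hc (ξ * w0) (by
        rw [mul_pow, (mem_nthRootsFinset hp.out.pos 1).1 hξ, one_mul, hw0])).trans_eq
        (norm_sub_rev _ _)).trans h3
    have h5 := hp.out.two_le
    rw [Finset.prod_const, hω.card_nthRootsFinset, ← norm_prim_pow hω, ← pow_add,
      pow_le_pow_iff_right_of_lt_one₀ f1 f2] at h4
    omega
  have hw2 : ‖w‖ = 1 := by simpa using norm_one_add (hw1.trans f2)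
  refine Or.inr ⟨h, w, fun σ hσ => ?_, hw, hw1⟩
  obtain ⟨ξ, h4, h5⟩ := mult_ex σ (norm_pos_iff.1 (hw2 ▸ one_pos)) (n := p) (by rw [hw, hb σ hσ])
  by_contra hc
  have := nsub_lt (x := σ (w - 1)) (by rwa [niso]) hw1
  rw [map_sub, map_one, sub_sub_sub_cancel_right, h5, ← sub_one_mul, norm_mul, hw2, mul_one,
    f3 ξ h4 fun h => hc (by rw [h5, h, one_mul])] at this
  exact lt_irrefl _ this

lemma root_norm {ρ : Om p} (h1 : ‖ρ - 1‖ < 1) (h2 : ‖(p : Om p)‖ ≤ ‖ρ ^ p - 1‖) :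
    ‖ρ ^ p - 1‖ = ‖ρ - 1‖ ^ p := by
  have hρ : ‖ρ‖ ≤ 1 := by simpa using (norm_one_add h1).le
  have h3 := pow_p_sub hp.out hρ (norm_one (α := Om p)).le
  have h4 := sub_pow_le hp.out hρ (norm_one (α := Om p)).le
  rw [one_pow, one_pow, mul_one] at h3 h4
  have h5 : ‖(p : Om p)‖ * ‖ρ - 1‖ < ‖ρ ^ p - 1‖ := (mul_lt_of_lt_one_right np_pos h1).trans_le h2
  rw [max_eq_left h5.le] at h4
  exact le_antisymm ((le_max_iff.1 h3).resolve_right (not_le.2 h5)) h4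

lemma St_sub (x : Om p) : St ℚ_[p] (x - 1) = St ℚ_[p] x := by
  ext σ; simp [mem_St]

lemma tinv_step (hp2 : p ≠ 2) {ρ : Om p} (h : TInv A (ρ ^ p)) (hb : Fx A (ρ ^ p))
    (h1 : ‖ρ - 1‖ < 1) : TInv (A ⊓ St ℚ_[p] ρ) ρ := by
  classical
  obtain ⟨ω, hω⟩ := ex_prim (p := p) hp.out.pos
  obtain ⟨f1, f2, f3⟩ := prim_facts hω
  have hρ : ‖ρ‖ ≤ 1 := by simpa using (norm_one_add h1).le
  have h2 : ‖ρ ^ p - 1‖ ≤ ‖ρ - 1‖ := by simpa using pow_sub_le_one hρ (norm_one (α := Om p)).le p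
  rcases dich hp2 hω h hb (h2.trans_lt h1) with ⟨h3, h4⟩ | ⟨h3, w, h4, h5, h6⟩
  · refine Or.inr ⟨h3.trans h2, ?_⟩
    rw [← St_sub]
    exact val_step (hb.sub Fx.one) (root_norm h1 h3)
      (norm_pos_iff.1 (np_pos.trans_le (h3.trans h2))) h1 h4 (St_sub ρ ▸ idx_pow hp.out.pos hb)
  have hw : ‖w‖ = 1 := by simpa using norm_one_add (h6.trans f2)
  have hw0 : w ≠ 0 := norm_pos_iff.1 (hw ▸ one_pos)
  obtain ⟨ξ, rfl⟩ : ∃ ξ, ρ = ξ * w := ⟨ρ / w, by field_simp⟩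
  have h7 : ξ ^ p = 1 := by rwa [mul_pow, eq_comm, mul_eq_right₀ (pow_ne_zero _ hw0)] at h5
  by_cases h8 : ξ = 1
  · exact Or.inl fun x hx => h3 x (hx.mono (le_inf le_rfl (by rw [h8, one_mul]; exact h4)))
  have h9 := f3 ξ h7 h8
  have h10 : ‖ξ * w - 1‖ = ‖ξ - 1‖ := norm_eq_of_sub_lt (by
    rwa [sub_sub_sub_cancel_right, ← mul_sub_one, norm_mul, norm_root hp.out.pos h7, one_mul, h9])
  have h11 := val_step (ϖ := ξ - 1) (fun σ _ => map_natCast σ p)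
    (norm_prim_pow (prim_of_ne hp.out h7 h8)).symm (sub_ne_zero.2 h8) (h9 ▸ f2) h3 (by
      rw [St_sub]
      exact (idx_of_finset ((nthRootsFinset p (1 : Om p)).erase 1) fun σ _ => Finset.mem_erase.2
        ⟨fun h => h8 (σ.injective (by rw [h, map_one])), (mem_nthRootsFinset hp.out.pos 1).2
          (by rw [← map_pow, h7, map_one])⟩).mono (by
        rw [Finset.card_erase_of_mem ((mem_nthRootsFinset hp.out.pos 1).2 (one_pow p)),
          hω.card_nthRootsFinset]))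
  refine Or.inr ⟨?_, h10 ▸ fun x hx => h11 x (hx.mono fun σ hσ => ⟨hσ.1, ?_⟩)⟩
  · rw [h10, h9, ← norm_prim_pow hω]
    exact pow_le_of_le_one f1.le f2.le (by have := hp.out.two_le; omega)
  · rw [St_sub] at hσ
    refine mem_St.2 ?_
    rw [map_mul, h4 σ hσ.1, mem_St.1 hσ.2]

lemma tinv (hp2 : p ≠ 2) (hA : Val A ‖(p : Om p)‖) (k : ℕ) {ρ : Om p} (hb : Fx A (ρ ^ p ^ k))
    (h1 : ‖ρ - 1‖ < 1) : TInv (A ⊓ St ℚ_[p] ρ) ρ := by
  induction k generalizing ρ with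
  | zero => exact Or.inl fun x hx => hA x (hx.mono (le_inf le_rfl (by simpa using hb.le)))
  | succ k ih =>
    have hρ : ‖ρ‖ ≤ 1 := by simpa using (norm_one_add h1).le
    have := tinv_step hp2 (ih (ρ := ρ ^ p) (by rwa [← pow_mul, ← pow_succ']) (lt_of_le_of_lt
      (by simpa using pow_sub_le_one hρ (norm_one (α := Om p)).le p) h1)) (Fx.of_le inf_le_right) h1
    rwa [inf_assoc, inf_eq_right.2 (show St ℚ_[p] ρ ≤ _ from ((Fx.st ρ).pow p).le)] at this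

/-- integral polynomials -/
def IntP (P : (Om p)[X]) : Prop := ∀ n, ‖P.coeff n‖ ≤ 1

lemma IntP.add {P Q : (Om p)[X]} (h : IntP P) (h' : IntP Q) : IntP (P + Q) := fun n => by
  rw [coeff_add]; exact nadd_le (h n) (h' n)

lemma IntP.mul {P Q : (Om p)[X]} (h : IntP P) (h' : IntP Q) : IntP (P * Q) := fun n => by
  rw [coeff_mul]
  exact nsum_le zero_le_one fun x _ => by
    rw [norm_mul]; exact mul_le_one₀ (h _) (norm_nonneg _) (h' _)

lemma intP_C {c : Om p} (h : ‖c‖ ≤ 1) : IntP (C c) := fun n => by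
  rw [coeff_C]; split_ifs <;> simp [h]

lemma intP_X : IntP (X : (Om p)[X]) := fun n => by rw [coeff_X]; split_ifs <;> simp

lemma loc_lat (hp2 : p ≠ 2) {ω ρ : Om p} (hω : IsPrimitiveRoot ω p) (h : TInv A (ρ ^ p))
    (hb : Fx A (ρ ^ p)) (h1 : ‖ρ - 1‖ < 1) : ∃ v g : Fin p → Om p,
    (∀ i j, i ≠ j → ‖v i - v j‖ = ‖ω - 1‖) ∧ ‖(p : Om p)‖ ^ 2 ≤ ∏ i, ‖g i‖ ∧
    ∀ y : Fin p → Om p, (∀ i, ‖y i‖ ≤ 1) →
      (∀ σ ∈ A, ∀ i j : Fin p, σ (ω ^ (i : ℕ) * ρ) = ω ^ (j : ℕ) * ρ → σ (y i) = y j) →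
      ∃ Q : (Om p)[X], Q.degree < p ∧ IntP Q ∧ ∀ i, g i * y i = Q.eval (v i) := by
  classical
  have : NeZero p := ⟨hp.out.ne_zero⟩
  obtain ⟨f1, f2, f3⟩ := prim_facts hω
  have hρ : ‖ρ‖ = 1 := by simpa using norm_one_add h1
  have hρ0 : ρ ≠ 0 := norm_pos_iff.1 (hρ ▸ one_pos)
  have hω1 := norm_root hp.out.pos hω.pow_eq_one
  have hω0 := hω.ne_zero hp.out.ne_zero
  have hr : ∀ i : ℕ, (ω ^ i) ^ p = 1 := fun i => by
    rw [← pow_mul, mul_comm, pow_mul, hω.pow_eq_one, one_pow]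
  have h2 : ‖ρ ^ p - 1‖ ≤ ‖ρ - 1‖ := by simpa using pow_sub_le_one hρ.le (norm_one (α := Om p)).le p
  have hd : ∀ i j : Fin p, i ≠ j → ‖ω ^ (i : ℕ) * ρ - ω ^ (j : ℕ) * ρ‖ = ‖ω - 1‖ := fun i j hij => by
    have : ω ^ (i : ℕ) * ρ - ω ^ (j : ℕ) * ρ = (ω ^ (i : ℕ) / ω ^ (j : ℕ) - 1) * (ω ^ (j : ℕ) * ρ) := by
      field_simp
    rw [this, norm_mul, norm_mul, norm_pow, hω1, hρ, one_pow, mul_one, mul_one]
    exact f3 _ (by rw [div_pow, hr, hr, div_one]) fun h => hij (Fin.ext (hω.pow_inj i.2 j.2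
      ((div_eq_one_iff_eq (pow_ne_zero _ hω0)).1 h)))
  have hperm : ∀ σ ∈ A, ∀ i : Fin p, ∃ j : Fin p, σ (ω ^ (j : ℕ) * ρ) = ω ^ (i : ℕ) * ρ := by
    intro σ hσ i
    obtain ⟨j, hj, h3⟩ := hω.eq_pow_of_pow_eq_one (ξ := σ⁻¹ (ω ^ (i : ℕ) * ρ) / ρ) (by
      rw [div_pow, ← map_pow, mul_pow, hr, one_mul, hb _ (A.inv_mem hσ),
        div_self (pow_ne_zero _ hρ0)])
    exact ⟨⟨j, hj⟩, by
      rw [h3, div_mul_cancel₀ _ hρ0, ← AlgEquiv.mul_apply, mul_inv_cancel, AlgEquiv.one_apply]⟩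
  rcases dich hp2 hω h hb (h2.trans_lt h1) with ⟨h3, h4⟩ | ⟨h3, w, h4, h5, h6⟩
  · refine ⟨fun i => ω ^ (i : ℕ) * ρ - 1, fun _ => 1, fun i j hij => by simpa using hd i j hij,
      by simpa using (np_lt (p := p)).le, fun y hy1 hy2 => ?_⟩
    obtain ⟨P, h5, h6, h7⟩ := interp_fx (A := A) Finset.univ (y := y)
      (v := fun i : Fin p => ω ^ (i : ℕ) * ρ - 1) (fun i _ j _ hij => by
        by_contra hc
        have := hd i j hc
        rw [sub_left_injective hij, sub_self, norm_zero] at this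
        exact f1.ne this) fun σ hσ i _ => by
        obtain ⟨j, hj⟩ := hperm σ hσ i
        exact ⟨j, Finset.mem_univ _, by rw [map_sub, map_one, hj], hy2 σ hσ j i hj⟩
    rw [Finset.card_univ, Fintype.card_fin] at h5
    refine ⟨P, h5, (eis' (hb.sub Fx.one) (root_norm h1 h3)
      (norm_pos_iff.1 (np_pos.trans_le (h3.trans h2))) h1 h4 h5 h6).1 ?_,
      fun i => by rw [one_mul, h7 i (Finset.mem_univ _)]⟩
    have := h7 0 (Finset.mem_univ _)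
    simp only [Fin.val_zero, pow_zero, one_mul] at this
    rw [this]
    exact hy1 _
  have hw : ‖w‖ = 1 := by simpa using norm_one_add (h6.trans f2)
  have hw0 : w ≠ 0 := norm_pos_iff.1 (hw ▸ one_pos)
  obtain ⟨i0, hi0, h7⟩ := hω.eq_pow_of_pow_eq_one (ξ := w / ρ) (by
    rw [div_pow, h5, div_self (pow_ne_zero _ hρ0)])
  set v : Fin p → Om p := fun i => ω ^ (i : ℕ) * ρ / w - 1 with hv
  have v0 : v ⟨i0, hi0⟩ = 0 := by simp [hv, h7, hρ0, hw0]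
  have v1 : ∀ i j, i ≠ j → ‖v i - v j‖ = ‖ω - 1‖ := fun i j hij => by
    simp only [hv, sub_sub_sub_cancel_right, ← sub_div, norm_div, hw, div_one, hd i j hij]
  have v2 : ∀ i, i ≠ ⟨i0, hi0⟩ → ‖v i‖ = ‖ω - 1‖ := fun i hi => by simpa [v0] using v1 i _ hi
  have v3 : ∀ i, (v i + 1) ^ p = 1 := fun i => by
    simp only [hv, sub_add_cancel, div_pow, mul_pow, hr, one_mul, h5, div_self (pow_ne_zero _ hρ0)]
  have hp3 : 3 ≤ p := by have := hp.out.two_le; omega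
  have hc : (Finset.univ.erase (⟨i0, hi0⟩ : Fin p)).card = p - 1 := by simp
  refine ⟨v, fun i => v i + p, v1, ?_, fun y hy1 hy2 => ?_⟩
  · beta_reduce
    rw [← Finset.mul_prod_erase _ _ (Finset.mem_univ ⟨i0, hi0⟩), v0, zero_add,
      Finset.prod_congr rfl (g := fun _ => ‖ω - 1‖) fun i hi => ?_, Finset.prod_const, hc,
      norm_prim_pow hω, sq]
    rw [← v2 i (Finset.ne_of_mem_erase hi)]
    refine norm_eq_of_sub_lt ?_
    rw [add_sub_cancel_left, v2 i (Finset.ne_of_mem_erase hi), ← norm_prim_pow hω]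
    exact pow_lt_self_of_lt_one₀ f1 f2 (by omega)
  obtain ⟨P, h8, h9, h10⟩ := interp_fx (A := A) (Finset.univ.erase ⟨i0, hi0⟩) (y := y) (v := v)
    (fun i _ j _ hij => by
      by_contra hc
      have := v1 i j hc
      rw [hij, sub_self, norm_zero] at this
      exact f1.ne this) fun σ hσ i hi => by
      obtain ⟨j, hj⟩ := hperm σ hσ i
      have e : σ (v j) = v i := by simp only [hv, map_sub, map_div₀, map_one, hj, h4 σ hσ]
      refine ⟨j, Finset.mem_erase.2 ⟨fun h => ?_, Finset.mem_univ _⟩, e, hy2 σ hσ j i hj⟩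
      have := v2 i (Finset.ne_of_mem_erase hi)
      rw [← e, h, v0, map_zero, norm_zero] at this
      exact f1.ne this
  rw [hc] at h8
  obtain ⟨i1, hi1⟩ := Finset.card_pos.1 (show 0 < (Finset.univ.erase (⟨i0, hi0⟩ : Fin p)).card by
    omega)
  have h11 := v2 i1 (Finset.ne_of_mem_erase hi1)
  have h12 : IntP P := (eis' (ϖ := v i1) (fun σ _ => map_natCast σ p)
    (by rw [h11, norm_prim_pow hω]) (norm_pos_iff.1 (h11 ▸ f1)) (h11 ▸ f2) h3 h8 h9).1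
    (by rw [h10 i1 hi1]; exact hy1 _)
  refine ⟨(X + C (p : Om p)) * P + C (y ⟨i0, hi0⟩ - P.coeff 0) * ∑ j ∈ Finset.range p, (X + C 1) ^ j,
    degree_le_natDegree.trans_lt (Nat.cast_lt.2 ((natDegree_add_le _ _).trans_lt (max_lt
      (natDegree_mul_le.trans_lt ?_) ((natDegree_C_mul_le _ _).trans_lt ?_)))),
    ((intP_X.add (intP_C (nnat p))).mul h12).add ((intP_C (nsub_le (hy1 _) (h12 0))).mul
      (Finset.sum_induction _ _ (fun _ _ => IntP.add) (fun n => by simp) fun j _ => ?_)),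
    fun i => ?_⟩
  · rw [natDegree_X_add_C]
    rcases eq_or_ne P 0 with rfl | hP
    · rw [natDegree_zero]; omega
    · have := (natDegree_lt_iff_degree_lt hP).2 h8; omega
  · refine (natDegree_sum_le_of_forall_le _ _ (n := p - 1) fun j hj => ?_).trans_lt (by omega)
    rw [natDegree_pow, natDegree_X_add_C]
    have := Finset.mem_range.1 hj
    omega
  · induction j with
    | zero => simpa using intP_C (norm_one (α := Om p)).le
    | succ j ih => rw [pow_succ]; exact (ih (Finset.mem_range.2 (by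
        have := Finset.mem_range.1 ‹_›; omega))).mul (intP_X.add (intP_C norm_one.le))
  · simp only [eval_add, eval_mul, eval_X, eval_C, eval_finsetSum, eval_pow]
    by_cases hi : i = ⟨i0, hi0⟩
    · simp [hi, v0, coeff_zero_eq_eval_zero]; ring
    · have := mul_geom_sum (v i + 1) p
      rw [v3, sub_self, add_sub_cancel_right, mul_eq_zero] at this
      rw [this.resolve_left (norm_pos_iff.1 (v2 i hi ▸ f1)), mul_zero, add_zero,
        h10 i (Finset.mem_erase.2 ⟨hi, Finset.mem_univ _⟩)]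

lemma qdet {ω : Om p} (hω : IsPrimitiveRoot ω p) {v u : Fin p → Om p}
    (hv : ∀ i j, i ≠ j → ‖v i - v j‖ = ‖ω - 1‖) (M : Matrix (Fin p) (Fin p) (Om p))
    (h : ∀ x, ∃ Q : (Om p)[X], Q.degree < p ∧ IntP Q ∧ ∀ i, M x i * u i = Q.eval (v i)) :
    (‖M.det‖ * ∏ i, ‖u i‖) ^ 2 ≤ ‖(p : Om p)‖ ^ p := by
  choose Q h1 h2 h3 using h
  have e : M * Matrix.diagonal u =
      Matrix.of (fun x (j : Fin p) => (Q x).coeff j) * (Matrix.vandermonde v).transpose := by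
    ext x i
    rw [Matrix.mul_diagonal, h3, Matrix.mul_apply, eval_eq_sum_degreeLTEquiv (mem_degreeLT.2 (h1 x))]
    rfl
  have h4 := congrArg (fun M => ‖M.det‖) e
  simp only [Matrix.det_mul, Matrix.det_diagonal, Matrix.det_transpose, norm_mul, norm_prod] at h4
  have h5 := ndet_le (Matrix.of fun x (j : Fin p) => (Q x).coeff j) (R := fun _ => 1)
    fun x j => h2 x j
  have h6 : ‖(Matrix.vandermonde v).det‖ ^ 2 = ‖(p : Om p)‖ ^ p := by
    have := Finset.prod_prod_Ioi_mul_eq_prod_prod_off_diag (fun j i => ‖v i - v j‖)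
    rw [Finset.prod_congr rfl (g := fun _ => ‖(p : Om p)‖) (s₁ := Finset.univ)
      (f := fun i => ∏ j ∈ ({i}ᶜ : Finset (Fin p)), ‖v i - v j‖) fun i _ => by
        rw [Finset.prod_congr rfl (g := fun _ => ‖ω - 1‖) fun j hj => hv i j (by
          simpa [eq_comm] using hj), Finset.prod_const, Finset.card_compl, Finset.card_singleton,
          Fintype.card_fin, norm_prim_pow hω], Finset.prod_const, Finset.card_univ,
      Fintype.card_fin] at this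
    rw [← this, Matrix.det_vandermonde, norm_prod, ← Finset.prod_pow]
    refine Finset.prod_congr rfl fun i _ => ?_
    rw [norm_prod, ← Finset.prod_pow]
    exact Finset.prod_congr rfl fun j _ => by rw [norm_sub_rev (v i), sq]
  rw [h4, mul_pow, h6]
  exact mul_le_of_le_one_left (pow_nonneg (norm_nonneg _) _)
    (pow_le_one₀ (norm_nonneg _) (by simpa using h5))

end Pool.Agent.Lib.MP_f61260_nt
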