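import Pool.Agent.Lib.MP_f61260_nt.Det2
import Pool.Agent.Lib.MP_f61260_nt.Det3
import Pool.Agent.Lib.MP_f61260_nt.Glob7

set_option autoImplicit false
set_option maxHeartbeats 400000

namespace Pool.Agent.Lib.MP_f61260_nt

open Polynomial Real

lemma Mt_map {K L : Type} [CommRing K] [CommRing L] (φ : K →+* L) {N : ℕ} (ϖ : K) (γ : Fin N → K)
    (s t : ℕ) : φ (Mt ϖ γ s t).det = (Mt (φ ϖ) (fun i => φ (γ i)) s t).det := by
  rw [RingHom.map_det]
  congr 1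
  ext x i
  simp [Mt, apply_ite φ]

lemma Mt_mul {K : Type} [CommRing K] {N : ℕ} (ϖ η : K) (γ : Fin N → K) (s : ℕ) :
    ∃ k : ℕ, ∀ t, (Mt ϖ (fun i => γ i * η) s t).det = η ^ k * (Mt ϖ γ s t).det := by
  refine ⟨(Finset.univ.filter fun x : Fin N => (x : ℕ) < s).card, fun t => ?_⟩
  have : Mt ϖ (fun i => γ i * η) s t =
      Matrix.diagonal (fun x : Fin N => if (x : ℕ) < s then η else 1) * Mt ϖ γ s t := by
    ext x i
    rw [Matrix.diagonal_mul]
    simp only [Mt, Matrix.of_apply]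
    split_ifs <;> ring
  rw [this, Matrix.det_mul, Matrix.det_diagonal, Finset.prod_ite]
  simp

lemma Mt_per {K : Type} [CommRing K] {N : ℕ} {ϖ : K} (h : ϖ ^ N = 1) (γ : Fin N → K) (s t : ℕ) :
    Mt ϖ γ s (t + N) = Mt ϖ γ s t := by
  ext x i
  simp only [Mt, Matrix.of_apply]
  rw [add_right_comm, pow_add _ _ N, ← pow_mul _ _ N, mul_comm _ N, pow_mul _ N, h, one_pow, mul_one]

lemma Mt_le {K : Type} [NormedField K] [IsUltrametricDist K] {N : ℕ} {ϖ : K} (h : ‖ϖ‖ = 1)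
    (γ : Fin N → K) (s t : ℕ) : ‖(Mt ϖ γ s t).det‖ ≤ ∏ i, max 1 ‖γ i‖ :=
  ndet_le _ fun x i => by
    simp only [Mt, Matrix.of_apply]
    split_ifs <;> simp [h]

lemma pf_ineq {ι : Type} [Fintype ι] {Δ : Qb} (h0 : Δ ≠ 0) (y : ι → Qb) (q : ℕ)
    [hq : Fact q.Prime] {a b : ℝ} (ha : 0 < a) (hb : 0 < b)
    (h1 : ∀ τ : GA, ‖(τ Δ : ℂ)‖ ≤ a * (∏ i, max 1 ‖(τ (y i) : ℂ)‖) ^ 2)
    (h2 : ∀ τ : GA, ‖io q (τ Δ)‖ ≤ b * (∏ i, max 1 ‖io q (τ (y i))‖) ^ 2)
    (h3 : ∀ (τ : GA) (l : ℕ) [Fact l.Prime], ‖io l (τ Δ)‖ ≤ (∏ i, max 1 ‖io l (τ (y i))‖) ^ 2) :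
    0 ≤ log a + log b + 2 * ∑ i, ht (y i) := by
  classical
  have hs : ∀ (a : Pl) (c : ℝ),
      Function.HasFiniteSupport (fun v => Pi.single (M := fun _ => ℝ) a c v) ∧
      ∑ᶠ v, Pi.single (M := fun _ => ℝ) a c v = c := fun a c =>
    ⟨(Set.finite_singleton a).subset Pi.support_single_subset, by
      rw [finsum_eq_single _ a fun x hx => Pi.single_eq_of_ne hx _, Pi.single_eq_same]⟩
  have key : ∀ τ : GA, mu (τ Δ) ≤ log a + log b + 2 * ∑ i, lam (τ (y i)) := fun τ => by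
    have hl : ∀ (v : Pl) (c : ℝ), 0 < c → av v (τ Δ) ≤ c * (∏ i, max 1 (av v (τ (y i)))) ^ 2 →
        log (av v (τ Δ)) ≤ log c + ∑ i, 2 * log⁺ (av v (τ (y i))) := fun v c hc h => by
      refine (log_le_log (av_pos v ((_root_.map_ne_zero _).2 h0)) h).trans_eq ?_
      rw [log_mul hc.ne' (by positivity), log_pow, log_prod fun i _ => by positivity,
        ← Finset.mul_sum]
      simp only [posLog_eq_log_max_one (av_nonneg _ _)]
      norm_num
    have h4 : ∀ v, log (av v (τ Δ)) ≤ (Pi.single (M := fun _ => ℝ) none (log a) v +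
        Pi.single (M := fun _ => ℝ) (some ⟨q, hq.out⟩) (log b) v) +
        ∑ i, 2 * log⁺ (av v (τ (y i))) := by
      rintro (_ | ⟨l, hl'⟩)
      · rw [Pi.single_eq_same, Pi.single_eq_of_ne (by simp), add_zero]
        exact hl _ _ ha (h1 τ)
      · have : Fact l.Prime := ⟨hl'⟩
        rw [Pi.single_eq_of_ne (i := none) (by simp), zero_add]
        by_cases hlp : l = q
        · subst hlp
          rw [Pi.single_eq_same]
          exact hl _ _ hb (h2 τ)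
        · rw [Pi.single_eq_of_ne (by simpa using hlp), ← log_one]
          exact hl _ _ one_pos (by rw [one_mul]; exact h3 τ l)
    have hf : ∀ i, Function.HasFiniteSupport fun v => 2 * log⁺ (av v (τ (y i))) := fun i =>
      fin_of (fun t => 2 * log⁺ t) (by simp) (by simp) _
    have hf' : Function.HasFiniteSupport fun v => ∑ i, 2 * log⁺ (av v (τ (y i))) := by fun_prop
    have := finsum_le_finsum' (fin_mu _) (((hs _ _).1.add (hs _ _).1).add hf') h4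
    simp only [Pi.add_apply] at this
    rw [finsum_add_distrib (f := fun v => Pi.single (M := fun _ => ℝ) none (log a) v +
        Pi.single (M := fun _ => ℝ) (some ⟨q, hq.out⟩) (log b) v) ((hs _ _).1.add (hs _ _).1) hf',
      finsum_add_distrib (hs _ _).1 (hs _ _).1,
      (hs _ _).2, (hs _ _).2, finsum_sum_comm _ _ fun i _ => hf i] at this
    refine this.trans (le_of_eq ?_)
    rw [Finset.mul_sum]
    congr 1
    exact Finset.sum_congr rfl fun i _ => (mul_finsum _ _).symm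
  obtain ⟨V, ⟨T⟩, hV⟩ := trG fun i : Option ι => i.elim Δ y
  have h4 := Finset.sum_le_sum fun x (_ : x ∈ Finset.univ) => key (T.r x)
  have h5 := sum_mu T (hV none) h0
  have h6 := fun i => ht_eq T (hV (some i))
  simp only [Trans.sum, Option.elim] at h5 h6
  rw [h5, Finset.sum_add_distrib, Finset.sum_const, ← Finset.mul_sum, Finset.sum_comm,
    Finset.card_univ, nsmul_eq_mul, Finset.sum_congr rfl fun i _ => h6 i, ← Finset.mul_sum,
    ← Trans.card, mul_left_comm, ← mul_add] at h4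
  exact nonneg_of_mul_nonneg_right h4 (card_posR T) |> fun h => by
    simpa using h

variable {p : ℕ} [hp : Fact p.Prime]

lemma qloc {A : Subgroup (LA p)} (hp2 : p ≠ 2) {ω ρ : Om p} (hω : IsPrimitiveRoot ω p)
    (h : TInv A (ρ ^ p)) (hb : Fx A (ρ ^ p)) (h1 : ‖ρ - 1‖ < 1) (γ : Fin p → Om p)
    (hγ : ∀ σ ∈ A, ∀ i j : Fin p, σ (ω ^ (i : ℕ) * ρ) = ω ^ (j : ℕ) * ρ → σ (γ i) = γ j)
    (a s t : ℕ) : ‖(Mt (ω ^ a) γ s t).det‖ ^ 2 * ‖(p : Om p)‖ ^ 4 ≤
      ‖(p : Om p)‖ ^ p * (∏ i, max 1 ‖γ i‖) ^ 2 := by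
  obtain ⟨v, g, hv, hg, hQ⟩ := loc_lat hp2 hω h hb h1
  have hρ : ‖ρ‖ = 1 := by simpa using norm_one_add h1
  have hρ0 : ρ ≠ 0 := norm_pos_iff.1 (hρ ▸ one_pos)
  have hω1 := norm_root hp.out.pos hω.pow_eq_one
  obtain ⟨u, hu⟩ : ∃ u : Fin p → Om p, ∀ i, u i = if ‖γ i‖ ≤ 1 then 1 else (γ i)⁻¹ := ⟨_, fun _ => rfl⟩
  have u1 : ∀ i, ‖u i‖ * max 1 ‖γ i‖ = 1 := fun i => by
    rw [hu]
    split_ifs with h
    · simp [h]
    · rw [max_eq_right (not_le.1 h).le, norm_inv, inv_mul_cancel₀ (by linarith)]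
  have u2 : ∀ σ ∈ A, ∀ i j : Fin p, σ (ω ^ (i : ℕ) * ρ) = ω ^ (j : ℕ) * ρ → σ (u i) = u j :=
    fun σ hσ i j h => by
      rw [hu, hu, ← hγ σ hσ i j h, niso]
      split_ifs <;> simp
  have key : ∀ (y : Fin p → Om p) (e : ℕ), (∀ i, ‖y i‖ ≤ max 1 ‖γ i‖) →
      (∀ σ ∈ A, ∀ i j : Fin p, σ (ω ^ (i : ℕ) * ρ) = ω ^ (j : ℕ) * ρ → σ (y i) = y j) →
      ∃ Q : (Om p)[X], Q.degree < p ∧ IntP Q ∧
        ∀ i, y i * ((ω ^ a) ^ (i : ℕ)) ^ e * (u i * g i) = Q.eval (v i) := by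
    intro y e h2 h3
    obtain ⟨Q, h4, h5, h6⟩ := hQ (fun i => u i * y i * (ω ^ (i : ℕ) * ρ) ^ (a * e))
      (fun i => by
        simp only [norm_mul, norm_pow, hω1, hρ, one_pow, mul_one]
        exact (mul_le_mul_of_nonneg_left (h2 i) (norm_nonneg _)).trans_eq (u1 i))
      fun σ hσ i j h => by rw [map_mul, map_mul, map_pow, h, u2 σ hσ i j h, h3 σ hσ i j h]
    refine ⟨C (ρ ^ (a * e))⁻¹ * Q, ?_, (intP_C (by simp [hρ])).mul h5, fun i => ?_⟩
    · rwa [degree_C_mul (inv_ne_zero (pow_ne_zero _ hρ0))]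
    · rw [eval_mul, eval_C, ← h6]
      field_simp
      ring
  have h2 := qdet hω hv (u := fun i => u i * g i) (Mt (ω ^ a) γ s t) fun x => by
    simp only [Mt, Matrix.of_apply]
    split_ifs
    · exact key γ x (fun _ => le_max_right _ _) hγ
    · simpa using key (fun _ => 1) (t + x) (fun _ => by simp) fun _ _ _ _ _ => map_one _
  have h3 : (∏ i, ‖u i‖) * ∏ i, max 1 ‖γ i‖ = 1 := by
    rw [← Finset.prod_mul_distrib]; exact Finset.prod_eq_one fun i _ => u1 i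
  simp only [norm_mul, Finset.prod_mul_distrib] at h2
  calc _ ≤ ‖(Mt (ω ^ a) γ s t).det‖ ^ 2 * (∏ i, ‖g i‖) ^ 2 := by
        rw [show 4 = 2 * 2 by rfl, pow_mul]; gcongr
    _ = (‖(Mt (ω ^ a) γ s t).det‖ * ((∏ i, ‖u i‖) * ∏ i, ‖g i‖)) ^ 2 * (∏ i, max 1 ‖γ i‖) ^ 2 := by
        rw [← mul_pow, ← mul_pow, mul_assoc, mul_right_comm (∏ i, ‖u i‖), h3, one_mul]
    _ ≤ _ := by gcongr

variable (p) in
/-- units at all places above `p` -/
def Un (y : Qb) : Prop := ∀ τ : GA, ‖io p (τ y)‖ = 1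

variable (p) in
/-- groups whose fixed field is unramified above `p` -/
def UnrG (W : Subgroup GA) : Prop := ∀ τ : GA, ∃ m, ¬ p ∣ m ∧ ∀ σ ∈ In p m, ∀ g : GA,
  (∀ x, io p (g x) = σ (io p x)) → τ⁻¹ * g * τ ∈ W

lemma act_eq {σ : LA p} {g : GA} (h : ∀ x, io p (g x) = σ (io p x)) (τ : GA) (x : Qb) :
    σ (io p (τ x)) = io p (τ ((τ⁻¹ * g * τ) x)) := by
  rw [← h, ← AlgEquiv.mul_apply τ, ← mul_assoc, mul_inv_cancel_left, AlgEquiv.mul_apply]

lemma qglob (hp2 : p ≠ 2) {W : Subgroup GA} (hW : UnrG p W) {x ω : Qb} {k : ℕ} (hx : Un p x)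
    (hk : Fx W (x ^ p ^ (k + 1))) (hω : IsPrimitiveRoot ω p) (γ : Fin p → Qb)
    (hγ : ∀ σ ∈ W, ∀ i j : Fin p, σ (ω ^ (i : ℕ) * x) = ω ^ (j : ℕ) * x → σ (γ i) = γ j)
    (a s t : ℕ) (τ : GA) : ‖io p (τ (Mt (ω ^ a) γ s t).det)‖ ^ 2 * ‖(p : Om p)‖ ^ 4 ≤
      ‖(p : Om p)‖ ^ p * (∏ i, max 1 ‖io p (τ (γ i))‖) ^ 2 := by
  obtain ⟨m, hm, hW⟩ := hW τ
  obtain ⟨m', hm', c, h1, h2⟩ := near_root (hx τ).le
  have h3 : c ^ m' = 1 := h1.resolve_left fun h => by simp [h, hx τ] at h2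
  have hm0 : 0 < m' := Nat.pos_of_ne_zero fun h => hm' (h ▸ dvd_zero p)
  have hc := norm_root hm0 h3
  have hc0 : c ≠ 0 := norm_pos_iff.1 (hc ▸ one_pos)
  have h4 : ‖io p (τ x) / c - 1‖ < 1 := by rwa [div_sub_one hc0, norm_div, hc, div_one]
  have h5 : ∀ σ ∈ In p (m * m'), σ c = c := fun σ hσ =>
    mem_In.1 (In_mono (dvd_mul_left _ _) hσ) c h3
  let φ : Qb →+* Om p := (io p).toRingHom.comp (τ : Qb →+* Qb)
  have hφ : ∀ y, φ y = io p (τ y) := fun _ => rfl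
  have := qloc (A := In p (m * m') ⊓ St ℚ_[p] ((io p (τ x) / c) ^ p)) hp2
    (hω.map_of_injective φ.injective) (tinv hp2 (val_In fun h => (hp.out.dvd_mul.1 h).elim hm hm') k
      (fun σ hσ => ?_) (lt_of_le_of_lt (by
        simpa using pow_sub_le_one (by rw [norm_div, hc, hx τ, div_one]) (norm_one (α := Om p)).le p)
        h4)) (Fx.of_le inf_le_right) h4 (fun i => φ (γ i)) (fun σ hσ i j h => ?_) a s t
  · rwa [← map_pow, ← Mt_map] at this
  · obtain ⟨g, hg⟩ := res_ex σ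
    rw [← pow_mul, ← pow_succ', div_pow, map_div₀, map_pow σ c, h5 σ hσ, ← map_pow, ← map_pow,
      act_eq hg, hk _ (hW σ (In_mono (dvd_mul_right _ _) hσ) g hg)]
  · obtain ⟨g, hg⟩ := res_ex σ
    rw [← mul_div_assoc, ← mul_div_assoc, map_div₀, h5 σ hσ.1, div_left_inj' hc0, ← hφ, ← map_pow,
      ← map_pow, ← map_mul, ← map_mul, hφ, act_eq hg, ← hφ] at h
    rw [hφ, act_eq hg, hγ _ (hW σ (In_mono (dvd_mul_right _ _) hσ.1) g hg) i j (φ.injective h), hφ]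

lemma two_ne (hp2 : p ≠ 2) {W : Subgroup GA} (hW : UnrG p W) {x ω η : Qb} {k : ℕ} (hx : Un p x)
    (hk : Fx W (x ^ p ^ (k + 1))) (hω : IsPrimitiveRoot ω p) (γ : Fin p → Qb)
    (hγ : ∀ σ ∈ W, ∀ i j : Fin p, σ (ω ^ (i : ℕ) * x) = ω ^ (j : ℕ) * x → σ (γ i) = γ j)
    (hη : Un p η) {a s r : ℕ} (ha : a.Coprime p) (t : ℕ) (h1 : r ≤ s) (h2 : s + r ≤ p)
    (h3 : (Mt (ω ^ a) γ s t).det ≠ 0) (h4 : (Mt (ω ^ a) γ s (t + r)).det ≠ 0) :
    r * log 2 ≤ 4 * log p + 2 * ∑ i, ht (γ i * η) := by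
  obtain ⟨e, he⟩ := Mt_mul (ω ^ a) η γ s
  have hη0 : η ≠ 0 := fun h => by simpa [h] using hη 1
  have hϖ := hω.pow_of_coprime a ha
  have hp0 : (0 : ℝ) < p := Nat.cast_pos.2 hp.out.pos
  have := pf_ineq (Δ := (Mt (ω ^ a) (fun i => γ i * η) s t).det *
      (Mt (ω ^ a) (fun i => γ i * η) s (t + r)).det) (by simp [he, hη0, h3, h4])
    (fun i => γ i * η) p (a := p ^ p / 2 ^ r) (b := p ^ 4 / p ^ p) (by positivity) (by positivity)
    (fun τ => ?_) (fun τ => ?_) fun τ l _ => ?_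
  · rw [log_div (by positivity) (by positivity), log_div (by positivity) (by positivity), log_pow,
      log_pow, log_pow] at this
    push_cast at this
    linarith
  · let φ : Qb →+* ℂ := (algebraMap Qb ℂ).comp (τ : Qb →+* Qb)
    have := arch (hϖ.map_of_injective φ.injective) hp.out.pos (fun i => φ (γ i * η)) t h1 h2
    rw [← Mt_map, ← Mt_map, ← norm_mul, ← map_mul] at this
    rw [div_mul_eq_mul_div, le_div_iff₀' (by positivity)]
    exact this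
  · have h5 := qglob hp2 hW hx hk hω γ hγ a s t τ
    have h6 := qglob hp2 hW hx hk hω γ hγ a s (t + r) τ
    simp only [he, map_mul, map_pow, norm_mul, norm_pow, hη τ, one_pow, one_mul, mul_one]
    rw [np_eq, inv_pow, inv_pow, ← div_eq_mul_inv, div_le_iff₀ (by positivity)] at h5 h6
    rw [div_eq_mul_inv]
    nlinarith [sq_nonneg (‖io p (τ (Mt (ω ^ a) γ s t).det)‖ -
      ‖io p (τ (Mt (ω ^ a) γ s (t + r)).det)‖)]
  · let φ : Qb →+* Om l := (io l).toRingHom.comp (τ : Qb →+* Qb)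
    have h5 := fun t => Mt_le (norm_root hp.out.pos (hϖ.map_of_injective φ.injective).pow_eq_one)
      (fun i => φ (γ i * η)) s t
    simp only [← Mt_map] at h5
    rw [map_mul, map_mul, norm_mul, sq]
    exact mul_le_mul (h5 t) (h5 (t + r)) (norm_nonneg _) ((norm_nonneg _).trans (h5 t))

theorem detq (hq : 400 ≤ p) {W : Subgroup GA} (hW : UnrG p W) {x ω α η : Qb} {k : ℕ} (hx : Un p x)
    (hk : Fx W (x ^ p ^ (k + 1))) (hω : IsPrimitiveRoot ω p) {σ : GA} (hσ : σ ∈ W)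
    (h1 : σ x = ω * x) (h2 : σ ω = ω) (hα : Fx (W ⊓ St ℚ x) α) (hα0 : α ≠ 0) (hη : Un p η)
    (hht : ∀ i : ℕ, ht ((σ ^ i) α * η) ≤ 1 / 50) :
    ∃ (β : Qb) (e : ℤ), α = β * x ^ e ∧ Fx (W ⊓ St ℚ (x ^ p)) β := by
  have : NeZero p := ⟨hp.out.ne_zero⟩
  have hx0 : x ≠ 0 := fun h => by simpa [h] using hx 1
  have hω0 := hω.ne_zero hp.out.ne_zero
  have h3 := pow_act h1 h2
  set γ : Fin p → Qb := fun i => (σ ^ (i : ℕ)) α with hγd
  have hγ : ∀ g ∈ W, ∀ i j : Fin p, g (ω ^ (i : ℕ) * x) = ω ^ (j : ℕ) * x → g (γ i) = γ j := by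
    intro g hg i j h
    have := hα ((σ ^ (j : ℕ))⁻¹ * g * σ ^ (i : ℕ)) ⟨W.mul_mem (W.mul_mem (W.inv_mem
      (W.pow_mem hσ _)) hg) (W.pow_mem hσ _), mem_St.2 (by
        rw [AlgEquiv.mul_apply, AlgEquiv.mul_apply, h3, h, ← h3,
          ← AlgEquiv.mul_apply, inv_mul_cancel, AlgEquiv.one_apply])⟩
    rw [AlgEquiv.mul_apply, AlgEquiv.mul_apply] at this
    conv_rhs => rw [hγd]; beta_reduce; rw [← this, ← AlgEquiv.mul_apply, mul_inv_cancel,
      AlgEquiv.one_apply]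
  obtain ⟨s, hs⟩ := hp.out.odd_of_ne_two (by omega)
  have hco : ∀ m, (2 ^ m).Coprime p := fun m =>
    ((Nat.coprime_primes Nat.prime_two hp.out).2 (by omega)).pow_left m
  have hθ : ∀ (m : ℕ) (i : Fin p), (ω ^ (i : ℕ) * x) ^ 2 ^ m = (ω ^ 2 ^ m) ^ (i : ℕ) * x ^ 2 ^ m :=
    fun m i => by ring
  have hinj : ∀ m, Function.Injective fun i : Fin p => (ω ^ 2 ^ m) ^ (i : ℕ) * x ^ 2 ^ m :=
    fun m i j h => Fin.ext ((hω.pow_of_coprime _ (hco m)).pow_inj i.2 j.2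
      (mul_right_cancel₀ (pow_ne_zero _ hx0) h))
  have hb : ∀ i : ℕ, (ω ^ i * x) ^ p = x ^ p := fun i => by
    rw [mul_pow, ← pow_mul, mul_comm i, pow_mul, hω.pow_eq_one, one_pow, one_mul]
  obtain ⟨κ, e, h4⟩ := monom (θ := fun i : Fin p => ω ^ (i : ℕ) * x) (γ := γ) (ρ := 2 * ((p - 1) / 6))
    hp.out.pos (pow_ne_zero p hx0) (fun i => hb i) (by omega) (fun m => by simpa only [hθ] using hinj m)
    fun m => by
      have h4 : ∀ t r, r ≤ s → (Mt (ω ^ 2 ^ m) γ s t).det ≠ 0 →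
          (Mt (ω ^ 2 ^ m) γ s (t + r)).det ≠ 0 → r ≤ (p - 1) / 6 := by
        intro t r hr h4 h5
        have h6 := two_ne (by omega) hW hx hk hω γ hγ hη (hco m) t hr (by omega) h4 h5
        have h7 := Finset.sum_le_card_nsmul Finset.univ (fun i => ht (γ i * η)) _ fun i _ => hht i
        rw [Finset.card_univ, Fintype.card_fin, nsmul_eq_mul] at h7
        have h8 : (400 : ℝ) ≤ p := by exact_mod_cast hq
        have h9 := log_le_sub_one_of_pos (show (0 : ℝ) < p / 2 ^ 10 by positivity)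
        rw [log_div (by positivity) (by positivity), log_pow] at h9
        by_contra hc
        have h10 : (p : ℝ) ≤ 6 * r := by exact_mod_cast (by omega : p ≤ 6 * r)
        have := log_two_gt_d9
        have := log_two_lt_d9
        push_cast at h9
        nlinarith
      obtain ⟨t, ht⟩ : ∃ t, ∀ l ≤ p - 2 * ((p - 1) / 6) - 2, (Mt (ω ^ 2 ^ m) γ s (t + l)).det = 0 := by
        by_cases h5 : ∀ t, (Mt (ω ^ 2 ^ m) γ s t).det = 0
        · exact ⟨0, fun _ _ => h5 _⟩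
        obtain ⟨t, h5⟩ := not_forall.1 h5
        refine ⟨t + ((p - 1) / 6 + 1), fun l hl => by_contra fun h6 => ?_⟩
        by_cases h7 : (p - 1) / 6 + 1 + l ≤ s
        · have := h4 t _ h7 h5 (by rwa [← add_assoc]); omega
        · have := h4 _ (p - ((p - 1) / 6 + 1 + l)) (by omega) h6 (by
            rwa [show t + ((p - 1) / 6 + 1) + l + (p - ((p - 1) / 6 + 1 + l)) = t + p by omega,
              Mt_per (hω.pow_of_coprime _ (hco m)).pow_eq_one])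
          omega
      have h5 : ∀ i : Fin p, (ω ^ 2 ^ m) ^ (i : ℕ) * x ^ 2 ^ m ≠ 0 := fun i => by simp [hω0, hx0]
      have h6 : ∀ (l : ℕ) (i j : Fin p), (l + i) % p = j → (σ ^ l) (ω ^ (i : ℕ) * x) = ω ^ (j : ℕ) * x := by
        intro l i j h
        rw [← h3, ← AlgEquiv.mul_apply, ← pow_add, h3, ← h, ← pow_eq_pow_mod _ hω.pow_eq_one]
      have h7 : ∀ i j : Fin p, ∃ l, (l + i) % p = j := fun i j =>
        ⟨p - i + j, by rw [show p - i + j + i = j + p by omega, Nat.add_mod_right, Nat.mod_eq_of_lt j.2]⟩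
      obtain ⟨n, h8, h9⟩ := chain (γ := γ) (hinj m) h5 (fun i => (_root_.map_ne_zero _).2 hα0)
        hp.out.pos (s := s) (e := t + s) (by omega) fun l hl => sol_min (hinj m) h5 σ
          (fun i => by
            obtain ⟨j, hj⟩ : ∃ j : Fin p, (1 + j) % p = i := ⟨⟨(p - 1 + i) % p, Nat.mod_lt _ hp.out.pos⟩,
              by rw [Nat.add_mod_mod, show 1 + (p - 1 + i) = i + p by omega, Nat.add_mod_right,
                Nat.mod_eq_of_lt i.2]⟩
            have := h6 1 j i hj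
            rw [pow_one] at this
            exact ⟨j, by rw [← hθ, ← hθ, map_pow, this], hγ σ hσ j i this⟩)
          (fun i j => by
            obtain ⟨l, hl⟩ := h7 i j
            exact ⟨l, by rw [← hθ, ← hθ, map_pow, h6 l i j hl]⟩) (by omega)
          (by simpa only [add_right_comm t s l] using sol_ex (pow_ne_zero _ hx0) (ht l hl))
      exact ⟨n, by omega, by simpa only [hθ] using h9⟩
  have h5 : α = κ * x ^ e := by simpa [hγd] using h4 0
  refine ⟨κ, e, h5, fun g hg => ?_⟩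
  obtain ⟨ξ, h6, h7⟩ := mult_ex g hx0 hg.2
  obtain ⟨j, hj, rfl⟩ := hω.eq_pow_of_pow_eq_one h6
  have h8 := hγ g hg.1 0 ⟨j, hj⟩ (by simpa using h7)
  rw [h4, h4, map_mul, map_zpow₀] at h8
  simp only [Fin.val_zero, pow_zero, one_mul, h7] at h8
  exact mul_right_cancel₀ (zpow_ne_zero _ (mul_ne_zero (pow_ne_zero _ hω0) hx0)) h8

end Pool.Agent.Lib.MP_f61260_nt
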