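import Pool.Agent.Lib.MP_f61260_nt.Bd.LenTop

/-! The former hand-in `BoundedRadical`, derived from the statement of `BoundedLength`. -/

set_option autoImplicit false

namespace Pool.Agent.Lib.MP_f61260_nt

open Polynomial

theorem boundedRadical_of_length (S : Finset ℕ) (Γ : Subgroup ℂˣ) (hΓ : Γ.FG)
    (halg : ∀ g ∈ Γ, IsAlgebraic ℚ (g : ℂ)) (θ : ℂ) (hθ : IsAlgebraic ℚ θ) (D : ℕ) :
    ∃ c : ℝ, 0 < c ∧ ∀ z ∈ {z : ℂ | z ≠ 0 ∧ ∃ n : ℕ, 1 ≤ n ∧ ∃ g ∈ Γ, (g : ℂ) = z ^ n},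
      ∀ α : ℂ, α ≠ 0 → α ∉ {z : ℂ | z ≠ 0 ∧ ∃ n : ℕ, 1 ≤ n ∧ ∃ g ∈ Γ, (g : ℂ) = z ^ n} →
      (minpoly (IntermediateField.adjoin ℚ ({θ, z} ∪
        {y : ℂ | ∃ n : ℕ, 1 ≤ n ∧ n.primeFactors ⊆ S ∧ ∃ g ∈ Γ, (g : ℂ) = y ^ n} ∪
        {t : ℂ | t ∈ IntermediateField.adjoin ℚ {ζ : ℂ | ∃ n : ℕ, 1 ≤ n ∧ ζ ^ n = 1} ∧
          (minpoly ℚ t).natDegree ≤ D})) α).natDegree ≤ D →
      ∀ η ∈ {z : ℂ | z ≠ 0 ∧ ∃ n : ℕ, 1 ≤ n ∧ ∃ g ∈ Γ, (g : ℂ) = z ^ n},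
      ∀ f : Polynomial ℤ, Irreducible f → Polynomial.aeval (α * η) f = 0 →
        c ≤ Real.log (Polynomial.mahlerMeasure (f.map (Int.castRingHom ℂ))) / (f.natDegree : ℝ) := by
  obtain ⟨c, hc, H⟩ := length_bound S Γ hΓ halg θ hθ (D + 2)
  refine ⟨c, hc, fun z hz α h0 hnd hD η ⟨hη, n, hn, g, hg, hgη⟩ f hf hfα => ?_⟩
  have h1 : IsAlgebraic ℚ α := by
    have := (IsAlgebraic.extendScalars (RingHom.injective_int (algebraMap ℤ ℚ))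
      ⟨f, hf.ne_zero, hfα⟩).mul ((hgη ▸ halg g hg).of_pow hn).inv
    rwa [mul_inv_cancel_right₀ hη] at this
  have h2 : ∀ (K : IntermediateField ℚ ℂ) (q : ℚ) (x : ℂ), x = q → IsAlgebraic ℚ x ∧
      (minpoly K x).natDegree ≤ D + 2 := fun K q x hx => hx ▸ ⟨isAlgebraic_algebraMap q, by
    rw [show (q : ℂ) = algebraMap K ℂ q by simp, minpoly.eq_X_sub_C, natDegree_X_sub_C]
    omega⟩
  have h3 : ∀ K K' : IntermediateField ℚ ℂ, K ≤ K' →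
      (minpoly K' α).natDegree ≤ (minpoly K α).natDegree := fun K K' h => by
    have h3 : IsIntegral K α := h1.isIntegral.tower_top
    rw [← natDegree_map (p := minpoly K α) (IntermediateField.inclusion h).toRingHom]
    refine natDegree_le_natDegree (minpoly.min _ _ ((minpoly.monic h3).map _) ?_)
    rw [aeval_def, eval₂_map]
    exact minpoly.aeval K α
  have h4 := H z hz (α * η) (mul_ne_zero h0 hη) (fun ⟨_, m, hm, g', hg', h⟩ => hnd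
    ⟨h0, m * n, Nat.mul_pos hm hn, g' ^ n * (g ^ m)⁻¹,
      Γ.mul_mem (Γ.pow_mem hg' n) (Γ.inv_mem (Γ.pow_mem hg m)), by
        simp only [Units.val_mul, Units.val_pow_eq_pow_val, Units.val_inv_eq_inv_val, h, hgη,
          ← pow_mul, mul_pow, mul_comm n m]
        field_simp⟩) (Fin.cons α (Fin.cons (-1) 0)) (Fin.cons η 1) (Fin.cons 0 1)
    (Fin.cases ⟨h1, (h3 _ _ (IntermediateField.adjoin.mono _ _ _ (Set.union_subset_union_right _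
      fun _ h => by exact ⟨h.1, h.2.trans (by omega)⟩))).trans (hD.trans (by omega))⟩
        (Fin.cases (h2 _ (-1) _ (by simp)) fun _ => h2 _ 0 _ (by simp)))
    (Fin.cases ⟨hη, n, hn, g, hg, hgη⟩ fun _ => ⟨by simp, 1, le_rfl, 1, Γ.one_mem, by simp⟩)
    (-(X - C (α * η))) (by simp [Fin.sum_univ_succ, sub_eq_add_neg])
    (neg_ne_zero.2 (X_sub_C_ne_zero _)) (by simp) f hf hfα
  rwa [natDegree_neg, natDegree_X_sub_C, Nat.cast_one, div_one] at h4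

end Pool.Agent.Lib.MP_f61260_nt
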