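import Mathlib

set_option autoImplicit false
set_option maxHeartbeats 400000

namespace Pool.Agent.Lib.MP_f61260_nt

open Real Matrix Finset
open scoped ComplexOrder

section

variable {n : Type} [Fintype n] [DecidableEq n]

lemma det_amgm (M : Matrix n n ℂ) {c : ℝ} (hc : 0 < c) :
    ‖M.det‖ ^ 2 ≤ c ^ Fintype.card n * exp ((∑ i, ∑ j, ‖M i j‖ ^ 2) / c - Fintype.card n) := by
  have hP := posSemidef_self_mul_conjTranspose M
  have h1 : ‖M.det‖ ^ 2 = ∏ i, hP.1.eigenvalues i := by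
    have := hP.1.det_eq_prod_eigenvalues
    have e : (M * Mᴴ).det = ((‖M.det‖ ^ 2 : ℝ) : ℂ) := by
      rw [det_mul, det_conjTranspose, Complex.star_def, Complex.mul_conj, Complex.normSq_eq_norm_sq]
    exact Complex.ofReal_injective (e.symm.trans (this.trans (by simp)))
  have h2 : ∑ i, ∑ j, ‖M i j‖ ^ 2 = ∑ i, hP.1.eigenvalues i := by
    have := hP.1.trace_eq_sum_eigenvalues
    have e : (M * Mᴴ).trace = ((∑ i, ∑ j, ‖M i j‖ ^ 2 : ℝ) : ℂ) := by
      simp [trace, mul_apply, Complex.mul_conj']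
    exact Complex.ofReal_injective (e.symm.trans (this.trans (by simp)))
  rw [h1, h2, Finset.sum_div]
  calc _ ≤ ∏ i, c * exp (hP.1.eigenvalues i / c - 1) :=
        Finset.prod_le_prod (fun i _ => hP.eigenvalues_nonneg i) fun i _ => by
          rw [← div_le_iff₀' hc]; linarith [add_one_le_exp (hP.1.eigenvalues i / c - 1)]
    _ = _ := by rw [Finset.prod_mul_distrib, ← exp_sum]; simp

lemma det_rowop {R : Type} [CommRing R] (M M' : Matrix n n R) (p : n → Prop) [DecidablePred p]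
    (c : R) (h1 : ∀ x, ¬ p x → M' x = M x)
    (h2 : ∀ x, p x → M' x - c • M x ∈ Submodule.span R (M '' {y | ¬ p y})) :
    M'.det = c ^ (univ.filter p).card * M.det := by
  have h3 : ∀ v ∈ Submodule.span R (M '' {y | ¬ p y}), ∃ e : n → R, (∀ y, p y → e y = 0) ∧
      v = ∑ y, e y • M y := by
    intro v hv
    induction hv using Submodule.span_induction with
    | mem v hv =>
      obtain ⟨y, hy, rfl⟩ := hv
      exact ⟨Pi.single y 1, fun z hz => Pi.single_eq_of_ne (by rintro rfl; exact hy hz) _, by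
        simp [Pi.single_apply]⟩
    | zero => exact ⟨0, fun _ _ => rfl, by simp⟩
    | add _ _ _ _ h h' =>
      obtain ⟨e, h4, rfl⟩ := h
      obtain ⟨e', h4', rfl⟩ := h'
      exact ⟨e + e', fun y hy => by simp [h4 y hy, h4' y hy], by simp [add_smul, sum_add_distrib]⟩
    | smul a _ _ h =>
      obtain ⟨e, h4, rfl⟩ := h
      exact ⟨a • e, fun y hy => by simp [h4 y hy], by simp [smul_sum, mul_smul]⟩
  choose! e he1 he2 using fun x hx => h3 _ (h2 x hx)
  let E : Matrix n n R := of fun x y => if p x then e x y + (if x = y then c else 0)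
    else if x = y then 1 else 0
  have h4 : M' = E * M := by
    ext x j
    by_cases hx : p x
    · have := congrFun (he2 x hx) j
      simp only [Pi.sub_apply, Pi.smul_apply, smul_eq_mul, Finset.sum_apply] at this
      simp [E, mul_apply, hx, add_mul, sum_add_distrib, ← this]
    · simp [E, mul_apply, hx, h1 x hx]
  rw [h4, det_mul, twoBlockTriangular_det E p fun i hi j hj => by
    simp [E, hi, show i ≠ j from fun h => hi (h ▸ hj)]]
  have h5 : E.toSquareBlockProp p = c • (1 : Matrix _ _ R) := by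
    ext ⟨x, hx⟩ ⟨y, hy⟩
    simp [E, toSquareBlockProp, toBlock, hx, he1 x hx y hy, one_apply]
  have h6 : (E.toSquareBlockProp fun i => ¬ p i) = (1 : Matrix _ _ R) := by
    ext ⟨x, hx⟩ ⟨y, hy⟩
    simp [E, toSquareBlockProp, toBlock, hx, one_apply]
  rw [h5, h6, det_smul, det_one, det_one, Fintype.card_subtype, mul_one, mul_one]

lemma two_det (A0 A1 : Matrix n n ℂ) (p0 p1 : n → Prop) [DecidablePred p0] [DecidablePred p1]
    {r : ℕ} (hr0 : (univ.filter p0).card = r) (hr1 : (univ.filter p1).card = r)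
    (h01 : ∀ x, ¬ p0 x → ∃ y, ¬ p1 y ∧ A1 y = A0 x) {N : ℝ} (hN : 0 < N)
    (h0 : ∀ x, ¬ p0 x → ∑ i, ‖A0 x i‖ ^ 2 ≤ N) (h1 : ∀ x, ¬ p1 x → ∑ i, ‖A1 x i‖ ^ 2 ≤ N)
    (hB : ∀ y : n → ℂ, ∑ x with p0 x, ‖∑ i, y i * A0 x i‖ ^ 2 +
      ∑ x with p1 x, ‖∑ i, y i * A1 x i‖ ^ 2 ≤ N * ∑ i, ‖y i‖ ^ 2) :
    2 ^ r * (‖A0.det‖ * ‖A1.det‖) ≤ N ^ Fintype.card n := by
  by_cases hd : A0.det = 0
  · rw [hd, norm_zero, zero_mul, mul_zero]; positivity
  let L := (WithLp.linearEquiv 2 ℂ (n → ℂ)).symm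
  set H := (Submodule.span ℂ (A0 '' {y | ¬ p0 y})).map L.toLinearMap with hH
  let P : (n → ℂ) → n → ℂ := fun v => L.symm (Hᗮ.starProjection (L v))
  have hP : ∀ v, P v - v ∈ Submodule.span ℂ (A0 '' {y | ¬ p0 y}) := fun v => by
    have := H.neg_mem (H.starProjection_apply_mem (L v))
    obtain ⟨w, hw, h⟩ := this
    have e : P v - v = w := by
      apply L.injective
      simp only [P, map_sub, LinearEquiv.apply_symm_apply, Submodule.starProjection_orthogonal_val]
      rw [sub_sub_cancel_left]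
      exact h.symm
    rwa [e]
  have hdim : Module.finrank ℂ Hᗮ ≤ r := by
    have h2 := H.finrank_add_finrank_orthogonal
    have h3 : LinearIndependent ℂ fun x : {y | ¬ p0 y} => A0 x :=
      (linearIndependent_rows_iff_isUnit.2 ((isUnit_iff_isUnit_det _).2 (Ne.isUnit hd))).comp _
        Subtype.val_injective
    have h4 := finrank_span_eq_card h3
    rw [← Set.image_eq_range] at h4
    rw [hH, LinearEquiv.finrank_map_eq, h4, finrank_euclideanSpace, ← hH] at h2
    have h5 := Finset.card_filter_add_card_filter_not (s := univ) p0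
    rw [Fintype.card_subtype] at h2
    simp only [Set.mem_setOf_eq, card_univ] at h2 h5
    omega
  have hsum : ∑ x with p0 x, ∑ i, ‖P (A0 x) i‖ ^ 2 + ∑ x with p1 x, ∑ i, ‖P (A1 x) i‖ ^ 2 ≤
      N * r := by
    let b := stdOrthonormalBasis ℂ Hᗮ
    have h2 : ∀ v, ∑ i, ‖P v i‖ ^ 2 = ∑ l, ‖∑ i, star ((b l : EuclideanSpace ℂ n) i) * v i‖ ^ 2 := by
      intro v
      have := b.sum_sq_norm_inner_right (Hᗮ.orthogonalProjectionOnto (L v))
      simp only [Submodule.inner_orthogonalProjectionOnto_eq_of_mem_left, PiLp.inner_apply] at this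
      rw [Submodule.coe_norm, EuclideanSpace.norm_sq_eq] at this
      refine this.symm.trans (Finset.sum_congr rfl fun l _ => ?_)
      simp [L, mul_comm]
    simp only [h2]
    rw [Finset.sum_comm, Finset.sum_comm (s := univ.filter p1), ← sum_add_distrib]
    refine (Finset.sum_le_card_nsmul _ _ N fun l _ => (hB _).trans (le_of_eq ?_)).trans ?_
    · have := b.orthonormal.1 l
      rw [Submodule.coe_norm] at this
      simp only [norm_star]
      rw [← EuclideanSpace.norm_sq_eq, this, one_pow, mul_one]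
    · rw [card_univ, Fintype.card_fin, nsmul_eq_mul, mul_comm]
      exact mul_le_mul_of_nonneg_left (by exact_mod_cast hdim) hN.le
  have key : ∀ (A : Matrix n n ℂ) (p : n → Prop) [DecidablePred p], (univ.filter p).card = r →
      (∀ x, ¬ p0 x → ∃ y, ¬ p y ∧ A y = A0 x) → (∀ x, ¬ p x → ∑ i, ‖A x i‖ ^ 2 ≤ N) →
      2 ^ r * ‖A.det‖ ^ 2 ≤ N ^ Fintype.card n *
        exp (2 * (∑ x with p x, ∑ i, ‖P (A x) i‖ ^ 2) / N - r) := by
    intro A p _ hr h2 h3
    let A' : Matrix n n ℂ := fun x => if p x then (√2 : ℂ) • P (A x) else A x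
    have h4 := det_rowop A A' p (√2 : ℂ) (fun x hx => by simp [A', hx]) fun x hx => by
      simp only [A', hx, if_true, ← smul_sub]
      refine Submodule.smul_mem _ _ (Submodule.span_mono ?_ (hP (A x)))
      rintro _ ⟨y, hy, rfl⟩
      exact h2 y hy
    have h5 := det_amgm A' hN
    rw [h4, hr, norm_mul, mul_pow, norm_pow, ← pow_mul, mul_comm r, pow_mul, Complex.norm_real,
      Real.norm_eq_abs, sq_abs, Real.sq_sqrt zero_le_two] at h5
    refine h5.trans (mul_le_mul_of_nonneg_left (exp_le_exp.2 ?_) (by positivity))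
    have h6 : ∑ x, ∑ i, ‖A' x i‖ ^ 2 ≤ 2 * (∑ x with p x, ∑ i, ‖P (A x) i‖ ^ 2) +
        (univ.filter fun x => ¬ p x).card * N := by
      rw [← Finset.sum_filter_add_sum_filter_not univ p, Finset.mul_sum]
      refine add_le_add (le_of_eq (Finset.sum_congr rfl fun x hx => ?_))
        ((Finset.sum_le_card_nsmul _ _ N fun x hx => ?_).trans (by simp))
      · simp [A', (mem_filter.1 hx).2, mul_pow, Finset.mul_sum]
      · simpa [A', (mem_filter.1 hx).2] using h3 x (mem_filter.1 hx).2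
    have h7 := Finset.card_filter_add_card_filter_not (s := univ) p
    rw [hr, card_univ] at h7
    rw [← h7, sub_le_sub_iff, div_add' _ _ _ hN.ne', div_add' _ _ _ hN.ne',
      div_le_div_iff_of_pos_right hN]
    push_cast
    linarith
  have k0 := key A0 p0 hr0 (fun x hx => ⟨x, hx, rfl⟩) h0
  have k1 := key A1 p1 hr1 h01 h1
  refine le_of_pow_le_pow_left₀ two_ne_zero (by positivity) ?_
  calc _ = (2 ^ r * ‖A0.det‖ ^ 2) * (2 ^ r * ‖A1.det‖ ^ 2) := by ring
    _ ≤ _ := mul_le_mul k0 k1 (by positivity) (by positivity)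
    _ ≤ _ := by
      rw [mul_mul_mul_comm, ← exp_add, ← sq]
      refine mul_le_of_le_one_right (by positivity) (exp_le_one_iff.2 ?_)
      rw [← sub_nonneg] at hsum ⊢
      have : 0 ≤ 2 * (N * r - (∑ x with p0 x, ∑ i, ‖P (A0 x) i‖ ^ 2 +
        ∑ x with p1 x, ∑ i, ‖P (A1 x) i‖ ^ 2)) / N := by positivity
      refine this.trans (le_of_eq ?_)
      field_simp
      ring

end

/-- the interpolation matrices -/
def Mt {K : Type} [CommRing K] {N : ℕ} (ϖ : K) (γ : Fin N → K) (s t : ℕ) :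
    Matrix (Fin N) (Fin N) K :=
  of fun x i => if (x : ℕ) < s then γ i * (ϖ ^ (i : ℕ)) ^ (x : ℕ) else (ϖ ^ (i : ℕ)) ^ (t + x)

lemma parseval {N : ℕ} {ϖ : ℂ} (h : IsPrimitiveRoot ϖ N) (y : Fin N → ℂ) (a : ℕ) :
    ∑ e ∈ Ico a (a + N), ‖∑ i, y i * (ϖ ^ (i : ℕ)) ^ e‖ ^ 2 = N * ∑ i, ‖y i‖ ^ 2 := by
  rcases Nat.eq_zero_or_pos N with rfl | hN
  · simp
  have h1 : ∀ k : ℕ, ϖ ^ k * (starRingEnd ℂ) (ϖ ^ k) = 1 := fun k => by
    rw [Complex.mul_conj, Complex.normSq_eq_norm_sq, norm_pow, h.norm'_eq_one hN.ne']; simp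
  have h2 : ∀ i j : Fin N, ∑ e ∈ Ico a (a + N), (ϖ ^ (i : ℕ) * (starRingEnd ℂ) (ϖ ^ (j : ℕ))) ^ e =
      if i = j then (N : ℂ) else 0 := by
    intro i j
    split_ifs with hij
    · simp [hij, h1, -map_pow]
    set w := ϖ ^ (i : ℕ) * (starRingEnd ℂ) (ϖ ^ (j : ℕ)) with hw
    have h3 : w ≠ 1 := fun h3 => hij (Fin.ext (h.pow_inj i.2 j.2 (mul_right_cancel₀
      (right_ne_zero_of_mul_eq_one (h1 j)) (h3.trans (h1 j).symm))))
    have h4 : w ^ N = 1 := by
      rw [hw, mul_pow, ← map_pow, ← pow_mul, ← pow_mul, mul_comm _ N, mul_comm _ N, pow_mul, pow_mul,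
        h.pow_eq_one]; simp
    rw [geom_sum_Ico h3 (Nat.le_add_right _ _), pow_add, h4, mul_one, sub_self, zero_div]
  apply Complex.ofReal_injective
  push_cast
  simp only [← Complex.mul_conj', map_sum, Finset.sum_mul_sum]
  rw [Finset.sum_comm, Finset.mul_sum]
  refine Finset.sum_congr rfl fun i _ => ?_
  have h3 : ∀ j : Fin N, ∑ e ∈ Ico a (a + N), y i * (ϖ ^ (i : ℕ)) ^ e *
      (starRingEnd ℂ) (y j * (ϖ ^ (j : ℕ)) ^ e) =
      y i * (starRingEnd ℂ) (y j) * if i = j then (N : ℂ) else 0 := fun j => by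
    rw [← h2, Finset.mul_sum]
    exact Finset.sum_congr rfl fun e _ => by rw [map_mul, map_pow _ _ e]; ring
  rw [Finset.sum_comm, Finset.sum_congr rfl fun j _ => h3 j]
  simp [mul_comm]

lemma arch {N : ℕ} {ϖ : ℂ} (h : IsPrimitiveRoot ϖ N) (hN : 0 < N) (γ : Fin N → ℂ) {s r : ℕ} (t : ℕ)
    (h1 : r ≤ s) (h2 : s + r ≤ N) :
    2 ^ r * (‖(Mt ϖ γ s t).det‖ * ‖(Mt ϖ γ s (t + r)).det‖) ≤ N ^ N * (∏ i, max 1 ‖γ i‖) ^ 2 := by
  set D : Matrix (Fin N) (Fin N) ℂ := diagonal fun i => ((max 1 ‖γ i‖ : ℝ) : ℂ)⁻¹ with hD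
  have hμ : ∀ i, 0 < max 1 ‖γ i‖ := fun i => lt_max_of_lt_left one_pos
  have hϖ := h.norm'_eq_one hN.ne'
  have hrow : ∀ t x, ∑ i, ‖(Mt ϖ γ s t * D) x i‖ ^ 2 ≤ N := fun t x => by
    refine (Finset.sum_le_card_nsmul _ _ 1 fun i _ => pow_le_one₀ (norm_nonneg _) ?_).trans
      (by simp)
    rw [hD, mul_diagonal, norm_mul, norm_inv, Complex.norm_real, Real.norm_of_nonneg (hμ i).le,
      ← div_eq_mul_inv, div_le_one (hμ i), Mt, of_apply]
    split_ifs <;> simp [hϖ]
  have hc : ∀ a, a + r ≤ N → (univ.filter fun x : Fin N => a ≤ x ∧ x < a + r).card = r := by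
    intro a ha
    rw [← Finset.card_map Fin.valEmbedding]
    refine Eq.trans (congrArg card ?_) ((Nat.card_Ico a (a + r)).trans (by omega))
    ext x
    simp only [mem_map, mem_filter, mem_univ, true_and, Fin.valEmbedding_apply, mem_Ico]
    exact ⟨fun ⟨y, hy, e⟩ => by omega, fun hx => ⟨⟨x, by omega⟩, by simpa using hx, rfl⟩⟩
  have := two_det (Mt ϖ γ s t * D) (Mt ϖ γ s (t + r) * D) (fun x => s ≤ x ∧ x < s + r)
    (fun x => N - r ≤ x ∧ x < N - r + r) (hc s h2) (hc _ (by omega)) (fun x hx => ?_)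
    (by exact_mod_cast hN : (0 : ℝ) < N) (fun x _ => hrow _ x) (fun x _ => hrow _ x) fun y => ?_
  · rw [det_mul, det_mul, hD, det_diagonal, norm_mul, norm_mul, Fintype.card_fin,
      Finset.prod_inv_distrib, norm_inv, ← Complex.ofReal_prod, Complex.norm_real,
      Real.norm_of_nonneg (Finset.prod_pos fun i _ => hμ i).le] at this
    have h3 := Finset.prod_pos fun i (_ : i ∈ univ) => hμ i
    rw [← div_le_iff₀ (pow_pos h3 2)]
    refine le_trans (le_of_eq ?_) this
    field_simp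
  · by_cases hs : (x : ℕ) < s
    · exact ⟨x, by omega, by ext i; simp [hD, Mt, hs]⟩
    · refine ⟨⟨x - r, by omega⟩, by simp only; omega, ?_⟩
      ext i
      simp [hD, Mt, hs, show ¬ (x - r < s) by omega, show t + r + (x - r) = t + x by omega]
  · set f : ℕ → ℝ := fun e => ‖∑ i, y i * ((max 1 ‖γ i‖ : ℝ) : ℂ)⁻¹ * (ϖ ^ (i : ℕ)) ^ e‖ ^ 2
    have h3 : ∀ t a : ℕ, s ≤ a → a + r ≤ N →
        ∑ x ∈ univ.filter fun x : Fin N => a ≤ x ∧ x < a + r,
        ‖∑ i, y i * (Mt ϖ γ s t * D) x i‖ ^ 2 = ∑ e ∈ Ico (t + a) (t + a + r), f e := by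
      intro t a h3 h4
      refine Finset.sum_bij (fun x _ => t + x) (fun x hx => ?_) (fun x _ x' _ h => Fin.ext ?_)
        (fun e he => ⟨⟨e - t, ?_⟩, ?_, ?_⟩) fun x hx => ?_
      · simp only [mem_filter, mem_Ico] at hx ⊢; omega
      · omega
      · simp only [mem_Ico] at he; omega
      · simp only [mem_filter, mem_Ico, mem_univ, true_and] at he ⊢; omega
      · simp only [mem_Ico] at he ⊢; omega
      · have : ¬ ((x : ℕ) < s) := by simp only [mem_filter] at hx; omega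
        simp only [f, hD, mul_diagonal, Mt, of_apply, this, if_false, mul_assoc, mul_comm (_ ^ _)]
    rw [h3 t s le_rfl h2, h3 (t + r) (N - r) (by omega) (by omega), ← Finset.sum_union (by
      rw [Finset.disjoint_left]; intro e; simp only [mem_Ico]; omega)]
    refine (Finset.sum_le_sum_of_subset_of_nonneg (t := Ico (t + s) (t + s + N)) (fun e => ?_)
      fun _ _ _ => sq_nonneg _).trans ((parseval h _ _).le.trans ?_)
    · simp only [mem_union, mem_Ico]; omega
    · refine mul_le_mul_of_nonneg_left (Finset.sum_le_sum fun i _ =>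
        pow_le_pow_left₀ (norm_nonneg _) ?_ _) (Nat.cast_nonneg _)
      rw [norm_mul, norm_inv, Complex.norm_real, Real.norm_of_nonneg (hμ i).le]
      exact mul_le_of_le_one_right (norm_nonneg _) (inv_le_one_of_one_le₀ (le_max_left _ _))

end Pool.Agent.Lib.MP_f61260_nt
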