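import Pool.Agent.Lib.MP_f61260_nt.Det1

set_option autoImplicit false
set_option maxHeartbeats 400000

namespace Pool.Agent.Lib.MP_f61260_nt

open Polynomial Finset

variable {k K : Type} [Field k] [Field K] [Algebra k K] {N : ℕ} {θ γ : Fin N → K}

/-- a rational approximation -/
def Sol (θ γ : Fin N → K) (s e : ℕ) (V W : K[X]) : Prop :=
  V.degree < s ∧ W.degree < (N - s : ℕ) ∧ ∀ i, γ i * V.eval (θ i) = θ i ^ e * W.eval (θ i)

/-- the values are those of a rational function with `n` nonzero zeros and poles -/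
def RatF (θ γ : Fin N → K) (n : ℕ) : Prop := ∃ (A B : K[X]) (τ : ℤ), IsCoprime A B ∧ ¬ X ∣ A ∧
  ¬ X ∣ B ∧ A.natDegree + B.natDegree = n ∧ ∀ i, γ i * B.eval (θ i) = θ i ^ τ * A.eval (θ i)

lemma van (h : Function.Injective θ) {P : K[X]} (hP : P.degree < N) (h0 : ∀ i, P.eval (θ i) = 0) :
    P = 0 := by
  by_contra hc
  exact hc (eq_zero_of_natDegree_lt_card_of_eval_eq_zero P h h0
    (by simpa using (natDegree_lt_iff_degree_lt hc).2 hP))

lemma sol_ex {ϖ θ0 : K} (h0 : θ0 ≠ 0) {s t : ℕ} (h : (Mt ϖ γ s t).det = 0) :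
    ∃ V W, (V ≠ 0 ∨ W ≠ 0) ∧ Sol (fun i => ϖ ^ (i : ℕ) * θ0) γ s (t + s) V W := by
  obtain ⟨v, hv, h⟩ := Matrix.exists_vecMul_eq_zero_iff.2 h
  refine ⟨∑ x ∈ univ.filter fun x : Fin N => (x : ℕ) < s, monomial x (v x / θ0 ^ (x : ℕ)),
    - ∑ x ∈ univ.filter fun x : Fin N => ¬ (x : ℕ) < s, monomial (x - s) (v x / θ0 ^ (t + x)),
    ?_, ?_, ?_, fun i => ?_⟩
  · obtain ⟨x, hx⟩ := Function.ne_iff.1 hv
    by_cases hs : (x : ℕ) < s
    · refine Or.inl fun h => hx ?_
      have := congrArg (coeff · x) h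
      simp only [finsetSum_coeff, coeff_monomial, Fin.val_inj, sum_ite_eq', mem_filter, mem_univ,
        hs, and_self, if_true, coeff_zero] at this
      simpa [h0] using this
    · refine Or.inr fun h => hx ?_
      have := congrArg (coeff · (x - s)) (neg_eq_zero.1 h)
      simp only [finsetSum_coeff, coeff_monomial, coeff_zero] at this
      rw [Finset.sum_eq_single x (fun y hy hxy => if_neg fun h => hxy (Fin.ext (by
        simp only [mem_filter] at hy; omega))) (by simp [hs])] at this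
      simpa [h0] using this
  · refine (degree_sum_le _ _).trans_lt ((Finset.sup_lt_iff (WithBot.bot_lt_coe _)).2 fun x hx => ?_)
    exact (degree_monomial_le _ _).trans_lt (by exact_mod_cast (mem_filter.1 hx).2)
  · rw [degree_neg]
    refine (degree_sum_le _ _).trans_lt ((Finset.sup_lt_iff (WithBot.bot_lt_coe _)).2 fun x hx => ?_)
    refine (degree_monomial_le _ _).trans_lt (Nat.cast_lt.2 ?_)
    simp only [mem_filter] at hx
    omega
  · have := congrFun h i
    simp only [Matrix.vecMul, dotProduct, Mt, Matrix.of_apply, Pi.zero_apply, mul_ite,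
      Finset.sum_ite] at this
    rw [eval_neg, mul_neg, eq_neg_iff_add_eq_zero, ← this, eval_finsetSum, eval_finsetSum,
      Finset.mul_sum, Finset.mul_sum]
    congr 1
    · exact Finset.sum_congr rfl fun x _ => by rw [eval_monomial, mul_pow]; field_simp
    · refine Finset.sum_congr rfl fun x hx => ?_
      rw [eval_monomial, mul_left_comm, ← pow_add, show t + s + (x - s) = t + x by
        simp only [mem_filter] at hx; omega, mul_pow]
      field_simp

lemma sol_min (hθ : Function.Injective θ) (h0 : ∀ i, θ i ≠ 0) (σ : K ≃ₐ[k] K)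
    (h1 : ∀ i, ∃ j, σ (θ j) = θ i ∧ σ (γ j) = γ i) (h2 : ∀ i j, ∃ l : ℕ, (σ ^ l) (θ i) = θ j)
    {s e : ℕ} (hs : s ≤ N) (h : ∃ V W, (V ≠ 0 ∨ W ≠ 0) ∧ Sol θ γ s e V W) :
    ∃ V W, (∀ i, V.eval (θ i) ≠ 0) ∧ Sol θ γ s e V W := by
  classical
  have hex : ∃ n, ∃ V W : K[X], V ≠ 0 ∧ V.natDegree = n ∧ Sol θ γ s e V W := by
    obtain ⟨V, W, h3, h4⟩ := h
    refine ⟨_, V, W, fun h5 => ?_, rfl, h4⟩
    exact h3.resolve_left (not_not.2 h5) (van hθ (h4.2.1.trans_le (Nat.cast_le.2 (by omega)))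
      fun i => by simpa [h5, h0 i] using h4.2.2 i)
  obtain ⟨V0, W0, h3, h4, h5⟩ := Nat.find_spec hex
  have hV := monic_mul_leadingCoeff_inv h3
  have hd := degree_mul_leadingCoeff_inv V0 h3
  set V := V0 * C V0.leadingCoeff⁻¹ with hVd
  set W := W0 * C V0.leadingCoeff⁻¹ with hWd
  have h6 : Sol θ γ s e V W := ⟨hd ▸ h5.1, by rw [hWd, degree_mul_leadingCoeff_inv _ h3]; exact h5.2.1,
    fun i => by simp only [hVd, hWd, eval_mul, ← mul_assoc, h5.2.2 i]⟩
  have h7 : V - V.map (σ : K →+* K) = 0 := by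
    by_contra hc
    have h8 : (V - V.map (σ : K →+* K)).degree < V.degree :=
      degree_sub_lt (degree_map _ _).symm hV.ne_zero (by rw [hV.leadingCoeff, (hV.map _).leadingCoeff])
    refine Nat.find_min hex (h4 ▸ natDegree_lt_natDegree hc (h8.trans_eq hd))
      ⟨_, W - W.map (σ : K →+* K), hc, rfl, h8.trans h6.1,
        (degree_sub_le _ _).trans_lt (by rw [degree_map, max_self]; exact h6.2.1), fun i => ?_⟩
    obtain ⟨j, h9, h10⟩ := h1 i
    have := congrArg σ (h6.2.2 j)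
    have e : ∀ P : K[X], σ (P.eval (θ j)) = (P.map (σ : K →+* K)).eval (θ i) := fun P => by
      rw [← h9, eval_map]; exact (eval₂_at_apply (σ : K →+* K) _).symm
    rw [map_mul, map_mul, map_pow, e, e, h9, h10] at this
    rw [eval_sub, eval_sub, mul_sub, mul_sub, this, h6.2.2]
  refine ⟨V, W, fun i hi => hV.ne_zero (van hθ (h6.1.trans_le (Nat.cast_le.2 hs)) fun j => ?_), h6⟩
  obtain ⟨l, hl⟩ := h2 i j
  rw [← hl]
  clear hl
  induction l with
  | zero => exact hi
  | succ l ih =>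
    rw [pow_succ', AlgEquiv.mul_apply, sub_eq_zero.1 h7, eval_map]
    exact (eval₂_at_apply (σ : K →+* K) _).trans (by rw [ih, map_zero])

lemma chain (hθ : Function.Injective θ) (h0 : ∀ i, θ i ≠ 0) (hγ : ∀ i, γ i ≠ 0) (hN : 0 < N)
    {s e L : ℕ} (hs : s ≤ N)
    (h : ∀ l ≤ L, ∃ V W, (∀ i, V.eval (θ i) ≠ 0) ∧ Sol θ γ s (e + l) V W) :
    ∃ n, n + L + 2 ≤ N ∧ RatF θ γ n := by
  classical
  choose! V W h1 h2 using h
  have hV : ∀ l ≤ L, V l ≠ 0 := fun l hl h => h1 l hl ⟨0, hN⟩ (by simp [h])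
  have hW : ∀ l ≤ L, W l ≠ 0 := fun l hl h => h1 l hl ⟨0, hN⟩ (by
    simpa [h, hγ] using (h2 l hl).2.2 ⟨0, hN⟩)
  have dV : ∀ l ≤ L, (V l).natDegree < s := fun l hl =>
    (natDegree_lt_iff_degree_lt (hV l hl)).2 (h2 l hl).1
  have dW : ∀ l ≤ L, (W l).natDegree < N - s := fun l hl =>
    (natDegree_lt_iff_degree_lt (hW l hl)).2 (h2 l hl).2.1
  have h3 : ∀ l ≤ L, V l * W 0 = X ^ l * V 0 * W l := by
    intro l
    induction l with
    | zero => simp
    | succ l ih =>
      intro hl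
      have h4 : V (l + 1) * W l - X * V l * W (l + 1) = 0 := by
        refine van hθ (degree_le_natDegree.trans_lt (Nat.cast_lt.2 ((natDegree_sub_le _ _).trans_lt
          (max_lt (natDegree_mul_le.trans_lt ?_) (natDegree_mul_le.trans_lt ?_))))) fun i => ?_
        · have := dV _ hl; have := dW l (by omega); omega
        · have := natDegree_mul_le (p := X) (q := V l)
          have := dV l (by omega); have := dW _ hl
          rw [natDegree_X] at *
          omega
        · refine mul_left_cancel₀ (pow_ne_zero (e + l) (h0 i)) ?_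
          have h5 := (h2 l (by omega)).2.2 i
          have h6 := (h2 _ hl).2.2 i
          simp only [eval_sub, eval_mul, eval_X]
          rw [← add_assoc, pow_succ] at h6
          linear_combination (V l).eval (θ i) * h6 - (V (l + 1)).eval (θ i) * h5
      refine mul_left_cancel₀ (hW l (by omega)) ?_
      linear_combination W 0 * h4 + X * W (l + 1) * ih (by omega)
  obtain ⟨W1, V1, h4, h5, h6⟩ := extract_gcd (W 0) (V 0)
  have hc : IsCoprime W1 V1 := (gcd_isUnit_iff _ _).1 h6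
  set G := gcd (W 0) (V 0) with hG
  have hW0 := hW 0 L.zero_le
  have hV0 := hV 0 L.zero_le
  have hG0 : G ≠ 0 := fun h => hW0 (by rw [h4, h, zero_mul])
  have hW1 : W1 ≠ 0 := fun h => hW0 (by rw [h4, h, mul_zero])
  have hV1 : V1 ≠ 0 := fun h => hV0 (by rw [h5, h, mul_zero])
  obtain ⟨a, A, hA, rfl⟩ := WfDvdMonoid.max_power_factor hW1 irreducible_X
  obtain ⟨b, B, hB, rfl⟩ := WfDvdMonoid.max_power_factor hV1 irreducible_X
  have hAB : IsCoprime A B := hc.of_mul_left_right.of_mul_right_right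
  refine ⟨_, ?_, A, B, e + a - b, hAB, hA, hB, rfl, fun i => ?_⟩
  · have h7 : X ^ (L + b) * B ∣ (V L * X ^ a) * A := ⟨W L, mul_left_cancel₀ hG0 (by
      have := h3 L le_rfl
      rw [h4, h5] at this
      linear_combination this)⟩
    have h8 := natDegree_le_of_dvd ((((irreducible_X.coprime_iff_not_dvd.2 hA).pow_left).mul_left
      hAB.symm).dvd_of_dvd_mul_right h7) (mul_ne_zero (hV L le_rfl) (pow_ne_zero _ X_ne_zero))
    have h9 := dW 0 L.zero_le
    rw [h4, natDegree_mul hG0 hW1, natDegree_X_pow_mul _ (right_ne_zero_of_mul hW1)] at h9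
    rw [natDegree_X_pow_mul _ (right_ne_zero_of_mul hV1), natDegree_mul_X_pow _ (hV L le_rfl)] at h8
    have := dV L le_rfl
    omega
  · have h7 := (h2 0 L.zero_le).2.2 i
    have h8 := h1 0 L.zero_le i
    rw [h5, eval_mul] at h8
    rw [h4, h5] at h7
    simp only [eval_mul, eval_pow, eval_X, add_zero] at h7
    rw [zpow_sub₀ (h0 i), zpow_add₀ (h0 i), zpow_natCast, zpow_natCast, zpow_natCast,
      div_mul_eq_mul_div, eq_div_iff (pow_ne_zero _ (h0 i))]
    refine mul_left_cancel₀ (left_ne_zero_of_mul h8) ?_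
    linear_combination h7

lemma dbl (hθ : Function.Injective θ) (hN : 0 < N) {b : K} (hb0 : b ≠ 0) (hb : ∀ i, θ i ^ N = b)
    {n n' : ℕ} (h : RatF θ γ n) (h' : RatF (fun i => θ i ^ 2) γ n') (hn : n + 2 * n' < N) :
    n = 2 * n' := by
  obtain ⟨A, B, τ, h1, h2, h3, rfl, h4⟩ := h
  obtain ⟨A', B', τ', h1', h2', h3', rfl, h4'⟩ := h'
  have h0 : ∀ i, θ i ≠ 0 := fun i h => hb0 (by rw [← hb i, h, zero_pow hN.ne'])
  have hx : ∀ P : K[X], ¬ X ∣ P → ¬ X ∣ expand K 2 P := fun P h => by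
    rwa [X_dvd_iff, coeff_expand two_pos, if_pos (dvd_zero _), Nat.zero_div, ← X_dvd_iff]
  have hz : ∀ P : K[X], ¬ X ∣ P → P ≠ 0 := fun P h h' => h (h' ▸ dvd_zero _)
  set A2 := expand K 2 A' with hA2
  set B2 := expand K 2 B' with hB2
  have dA : A2.natDegree = A'.natDegree * 2 := natDegree_expand _ _
  have dB : B2.natDegree = B'.natDegree * 2 := natDegree_expand _ _
  have d1 := natDegree_mul_le (p := A) (q := B2)
  have d2 := natDegree_mul_le (p := A2) (q := B)
  obtain ⟨e, he⟩ := Int.eq_ofNat_of_zero_le (Int.emod_nonneg (τ - 2 * τ') (b := N) (by omega))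
  have he' : e < N := by have := Int.emod_lt_of_pos (τ - 2 * τ') (b := N) (by omega); omega
  have h5 : ∀ i, b ^ ((τ - 2 * τ') / N) * θ i ^ e * (A * B2).eval (θ i) = (A2 * B).eval (θ i) := by
    intro i
    refine mul_left_cancel₀ (zpow_ne_zero (2 * τ') (h0 i)) ?_
    rw [← hb i, ← zpow_natCast, ← zpow_mul, ← zpow_natCast, ← he, ← zpow_add₀ (h0 i),
      Int.mul_ediv_add_emod, ← mul_assoc, ← zpow_add₀ (h0 i), add_sub_cancel, zpow_mul]
    have := h4' i
    simp only [eval_mul, hA2, hB2, expand_eval, zpow_ofNat] at this ⊢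
    linear_combination B.eval (θ i) * this - B'.eval (θ i ^ 2) * h4 i
  obtain ⟨κ, a, a', hκ, h6⟩ : ∃ (κ : K) (a a' : ℕ), κ ≠ 0 ∧
      C κ * X ^ a * (A * B2) = X ^ a' * (A2 * B) := by
    have dd : ∀ (κ : K) (a a' : ℕ), a + (A * B2).natDegree < N → a' + (A2 * B).natDegree < N →
        degree (C κ * X ^ a * (A * B2) - X ^ a' * (A2 * B)) < (N : WithBot ℕ) := fun κ a a' h h' =>
      degree_le_natDegree.trans_lt (Nat.cast_lt.2 ((natDegree_sub_le _ _).trans_lt (max_lt
        (natDegree_mul_le.trans_lt (by have := natDegree_C_mul_X_pow_le κ a; omega))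
        (natDegree_mul_le.trans_lt (by rwa [natDegree_X_pow])))))
    by_cases hc : e + (A * B2).natDegree < N
    · exact ⟨_, e, 0, zpow_ne_zero _ hb0, sub_eq_zero.1 (van hθ (dd _ _ _ hc (by omega)) fun i => by
        simpa [sub_eq_zero] using h5 i)⟩
    · refine ⟨b ^ ((τ - 2 * τ') / N) * b, 0, N - e, mul_ne_zero (zpow_ne_zero _ hb0) hb0,
        sub_eq_zero.1 (van hθ (dd _ _ _ (by omega) (by omega)) fun i => ?_)⟩
      have h7 := hb i
      rw [← Nat.sub_add_cancel he'.le, pow_add] at h7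
      have h8 := h5 i
      simp only [eval_sub, eval_mul, eval_C, eval_pow, eval_X] at h8 ⊢
      linear_combination (-b ^ ((τ - 2 * τ') / N) * (A.eval (θ i) * B2.eval (θ i))) * h7 +
        θ i ^ (N - e) * h8
  have cx : ∀ (P : K[X]) (l : ℕ), ¬ X ∣ P → IsCoprime P (X ^ l) := fun P l h =>
    (irreducible_X.coprime_iff_not_dvd.2 h).symm.pow_right
  have cu : ∀ P : K[X], IsCoprime P (C κ) := fun P =>
    (isCoprime_mul_unit_right_right (isUnit_C.2 hκ.isUnit) _ 1).2 isCoprime_one_right |>.symm.symm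
      |> fun h => by simpa using h
  have h7 : IsCoprime A2 B2 := h1'.map (expand K 2).toRingHom
  have e1 := natDegree_le_of_dvd (((cx A a' h2).mul_right h1).dvd_of_dvd_mul_left
    (⟨C κ * X ^ a * B2, by linear_combination -h6⟩ : A ∣ X ^ a' * B * A2)) (hz _ (hx _ h2'))
  have e2 := natDegree_le_of_dvd ((((cu A2).mul_right (cx A2 a (hx _ h2'))).mul_right
    h7).dvd_of_dvd_mul_left (⟨X ^ a' * B, by linear_combination h6⟩ :
      A2 ∣ C κ * X ^ a * B2 * A)) (hz _ h2)
  have e3 := natDegree_le_of_dvd ((((cu B).mul_right (cx B a h3)).mul_right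
    h1.symm).dvd_of_dvd_mul_left (⟨X ^ a' * A2, by linear_combination h6⟩ :
      B ∣ C κ * X ^ a * A * B2)) (hz _ (hx _ h3'))
  have e4 := natDegree_le_of_dvd (((cx B2 a' (hx _ h3')).mul_right h7.symm).dvd_of_dvd_mul_left
    (⟨C κ * X ^ a * A, by linear_combination -h6⟩ : B2 ∣ X ^ a' * A2 * B)) (hz _ h3)
  omega

lemma monom (hN : 0 < N) {b : K} (hb0 : b ≠ 0) (hb : ∀ i, θ i ^ N = b) {ρ : ℕ} (hρ : 3 * ρ < N)
    (hθ : ∀ m, Function.Injective fun i => θ i ^ 2 ^ m)
    (h : ∀ m, ∃ n ≤ ρ, RatF (fun i => θ i ^ 2 ^ m) γ n) :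
    ∃ (κ : K) (τ : ℤ), ∀ i, γ i = κ * θ i ^ τ := by
  have h1 : ∀ l m n, n ≤ ρ → RatF (fun i => θ i ^ 2 ^ m) γ n → 2 ^ l ∣ n := by
    intro l
    induction l with
    | zero => simp
    | succ l ih =>
      intro m n hn h1
      obtain ⟨n', hn', h2⟩ := h (m + 1)
      rw [dbl (hθ m) hN (pow_ne_zero (2 ^ m) hb0) (fun i => by
        rw [← pow_mul, mul_comm, pow_mul, hb]) h1 (by simpa only [← pow_mul, ← pow_succ] using h2)
        (by omega), pow_succ']
      exact mul_dvd_mul_left 2 (ih _ _ hn' h2)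
  obtain ⟨n, hn, h2⟩ := h 0
  have h3 := Nat.eq_zero_of_dvd_of_lt (h1 n 0 n hn h2) (Nat.lt_pow_self one_lt_two)
  obtain ⟨A, B, τ, -, -, h4, h5, h6⟩ := h2
  rw [eq_C_of_natDegree_eq_zero (p := A) (by omega), eq_C_of_natDegree_eq_zero (p := B) (by omega)]
    at h6
  rw [X_dvd_iff] at h4
  refine ⟨A.coeff 0 / B.coeff 0, τ, fun i => ?_⟩
  have := h6 i
  simp only [eval_C, pow_zero, pow_one] at this
  field_simp
  linear_combination this

end Pool.Agent.Lib.MP_f61260_nt
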