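import Pool.Agent.Lib.MP_f61260_nt.Det4

set_option autoImplicit false
set_option maxHeartbeats 400000

namespace Pool.Agent.Lib.MP_f61260_nt

open Polynomial Real Filter

section unr

variable {p : ℕ} [hp : Fact p.Prime] {W W' : Subgroup GA}

lemma UnrG.mono (h : UnrG p W) (h' : W ≤ W') : UnrG p W' := fun τ =>
  let ⟨m, h1, h2⟩ := h τ; ⟨m, h1, fun σ hσ g hg => h' (h2 σ hσ g hg)⟩

lemma UnrG.inf (h : UnrG p W) (h' : UnrG p W') : UnrG p (W ⊓ W') := fun τ =>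
  let ⟨m, h1, h2⟩ := h τ; let ⟨m', h1', h2'⟩ := h' τ
  ⟨m * m', fun h => (hp.out.dvd_mul.1 h).elim h1 h1', fun σ hσ g hg =>
    ⟨h2 σ (In_mono (dvd_mul_right _ _) hσ) g hg, h2' σ (In_mono (dvd_mul_left _ _) hσ) g hg⟩⟩

lemma unrG_top : UnrG p ⊤ := fun _ => ⟨1, hp.out.not_dvd_one, fun _ _ _ _ => Subgroup.mem_top _⟩

lemma unrG_iInf {ι : Type} [Fintype ι] {V : ι → Subgroup GA} (h : ∀ a, UnrG p (V a)) :
    UnrG p (⨅ a, V a) := by
  rw [← Finset.inf_univ_eq_iInf]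
  exact Finset.inf_induction unrG_top (fun _ h _ h' => h.inf h') fun a _ => h a

lemma unrG_St (hW : UnrG p W) {y : Qb} (hy : ∀ τ : GA, ‖io p (τ y)‖ ≤ 1)
    (h : ∀ g ∈ W, g y ≠ y → Un p (g y - y)) : UnrG p (St ℚ y) := fun τ => by
  obtain ⟨m, h1, h2⟩ := hW τ
  obtain ⟨m', h3, h4⟩ := unr_of_sep (hy τ) h1 fun σ hσ hne => by
    obtain ⟨g, hg⟩ := res_ex σ
    rw [act_eq hg] at hne ⊢
    rw [← map_sub, ← map_sub, h _ (h2 σ hσ g hg) (fun h => hne (by rw [h])) τ]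
  exact ⟨m', h3, fun σ hσ g hg => τ.injective ((io p).injective
    ((act_eq hg τ y).symm.trans (h4 σ hσ)))⟩

lemma unrG_root (hW : UnrG p W) {y : Qb} (hy : Un p y) {n : ℕ} (hn : ¬ p ∣ n)
    (h : Fx W (y ^ n)) : UnrG p (St ℚ y) :=
  unrG_St hW (fun τ => (hy τ).le) fun g hg hne τ => by
    obtain ⟨ξ, h1, h2⟩ := mult_ex g (y := y) (fun h => by simpa [h] using hy 1) (h g hg)
    rw [h2, ← sub_one_mul, map_mul, map_mul, norm_mul, hy τ, mul_one, map_sub, map_sub, map_one,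
      map_one]
    exact tame hn (by rw [← map_pow, ← map_pow, h1, map_one, map_one]) fun h3 =>
      hne (by rw [h2, (map_eq_one_iff _ τ.injective).1 ((map_eq_one_iff _ (io p).injective).1 h3),
        one_mul])

lemma Un.of_pow {y : Qb} {n : ℕ} (hn : 0 < n) (h : Un p (y ^ n)) : Un p y := fun τ => by
  have := h τ
  rwa [map_pow, map_pow, norm_pow, pow_eq_one_iff_of_nonneg (norm_nonneg _) hn.ne'] at this

end unr

lemma ev_int (y : Qb) : ∀ᶠ q : ℕ in atTop, ∀ [Fact q.Prime] (τ : GA), ‖io q (τ y)‖ ≤ 1 := by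
  have h1 : ∀ x : Qb, ∀ᶠ q : ℕ in atTop, ∀ [Fact q.Prime], ‖io q x‖ ≤ 1 := fun x => by
    rw [← Nat.cofinite_eq_atTop]
    filter_upwards [((fin_gt x).image fun v => v.elim 0 Subtype.val).eventually_cofinite_notMem]
      with q hq hp
    exact not_lt.1 fun h => hq ⟨some ⟨q, hp.out⟩, h, rfl⟩
  filter_upwards [eventually_all.2 fun i => h1 ((trS y).r i y)] with q hq hp τ
  obtain ⟨i, hi⟩ := (trS y).ex_eq (Fx.st y) (Subgroup.mem_top τ)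
  exact hi ▸ hq i

lemma ev_un (y : Qb) : ∀ᶠ q : ℕ in atTop, ∀ [Fact q.Prime], y ≠ 0 → Un q y := by
  filter_upwards [ev_int y, ev_int y⁻¹] with q h1 h2 hp hy τ
  have h3 := h2 τ
  rw [map_inv₀, map_inv₀, norm_inv, inv_le_one₀ (by simpa using hy)] at h3
  exact (h1 τ).antisymm h3

lemma ev_unr (y : Qb) : ∀ᶠ q : ℕ in atTop, ∀ [Fact q.Prime], UnrG q (St ℚ y) := by
  filter_upwards [ev_int y, eventually_all.2 fun i => ev_un ((trS y).r i y - y)] with q h1 h2 hp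
  refine unrG_St unrG_top h1 fun g hg hne => ?_
  obtain ⟨i, hi⟩ := (trS y).ex_eq (Fx.st y) hg
  rw [← hi] at hne ⊢
  exact h2 i (sub_ne_zero.2 hne)

namespace Ctx

variable {ι : Type} [Fintype ι] {c : Ctx ι}

lemma tower {p : ℕ} [hp : Fact p.Prime] (hq : 400 ≤ p) (hun : ∀ η, c.Dv η → Un p η)
    {W U : Subgroup GA} (hW : UnrG p W) (hG : W ≤ c.G0) (hU : U ≤ W) {K : ℕ}
    (hK : ∀ σ ∈ U, ∀ ξ : Qb, ξ ^ p ^ K = 1 → σ ξ = ξ) (k : ℕ) (hk : k ≤ K) : ∀ x α : Qb, c.Dv x →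
      Fx W (x ^ p ^ k) → α ≠ 0 → Fx (W ⊓ St ℚ x) α →
      (∀ η, c.Dv η → 1 / 50 ≤ ht (α * η)) ∨ ∃ β y, c.Dv y ∧ α = β * y ∧ Fx U β := by
  induction k with
  | zero => exact fun x α hx h1 _ h2 => Or.inr ⟨α, 1, dv_tor ⟨1, one_pos, one_pow 1⟩, (mul_one _).symm,
      h2.mono (le_inf hU (hU.trans (by simpa using h1.le)))⟩
  | succ k ih =>
    intro x α hx h1 h0 h2
    by_cases hA : ∃ σ ∈ W, ∃ ω, IsPrimitiveRoot ω p ∧ σ x = ω * x ∧ σ ω = ω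
    · obtain ⟨σ, hσ, ω, hω, h3, h4⟩ := hA
      by_cases hB : ∀ η, c.Dv η → 1 / 50 ≤ ht (α * η)
      · exact Or.inl hB
      push Not at hB
      obtain ⟨η, hη, hB⟩ := hB
      obtain ⟨β, e, h5, h6⟩ := detq hq hW (hun x hx) h1 hω hσ h3 h4 h2 h0 (hun η hη) fun i => by
        obtain ⟨ξ, h5, h6⟩ := hη.act _ (hG (W.pow_mem hσ i))
        rw [← h5.ht, mul_left_comm, ← h6, ← map_mul, ht_conj]
        exact hB.le
      have h7 : c.Dv (x ^ e) := by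
        rcases e with e | e
        · simpa using hx.pow e
        · simpa using (hx.pow (e + 1)).inv
      rcases ih (by omega) (x ^ p) β (hx.pow p) (by rwa [← pow_mul, ← pow_succ'])
        (fun h => h0 (by rw [h5, h, zero_mul])) h6 with h | ⟨β', y, h8, h9, h10⟩
      · exact absurd (h _ (h7.mul hη)) (by rwa [← mul_assoc, ← h5, not_le])
      · exact Or.inr ⟨β', y * x ^ e, h8.mul h7, by rw [h5, h9, mul_assoc], h10⟩
    refine Or.inr ⟨α, 1, dv_tor ⟨1, one_pos, one_pow 1⟩, (mul_one _).symm,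
      h2.mono (le_inf hU fun σ hσ => ?_)⟩
    obtain ⟨ξ, h3, h4⟩ := mult_ex σ hx.ne (h1 σ (hU hσ))
    have h5 := hK σ hσ ξ (by obtain ⟨l, rfl⟩ := Nat.exists_eq_add_of_le hk; rw [pow_add, pow_mul, h3, one_pow])
    have h6 : ∀ j, ξ ^ p ^ j = 1 → ξ = 1 := fun j => by
      induction j with
      | zero => simp
      | succ j ih =>
        refine fun h => ih (by_contra fun h' => hA ⟨σ ^ p ^ j, W.pow_mem (hU hσ) _, _,
          prim_of_ne hp.out (by rwa [← pow_mul, ← pow_succ]) h', pow_act h4 h5 _, ?_⟩)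
        rw [map_pow, mem_St.1 ((St ℚ ξ).pow_mem h5 _)]
    rw [mem_St, h4, h6 _ h3, one_mul]

lemma fx_rad {M : ℕ} (hM : 0 < M) {w : ι → ℤ} {x : Qb} (h : x ^ M = ∏ a, c.t a 1 ^ w a) :
    Fx (c.Lv M M) x := fun σ hσ => by
  have h7 : (∏ a, c.t a M ^ w a) ≠ 0 :=
    Finset.prod_ne_zero_iff.2 fun a _ => zpow_ne_zero _ ((c.hs a).ne _)
  have h8 : (x / ∏ a, c.t a M ^ w a) ^ M = 1 := by
    have e : ∀ a, (c.t a M ^ w a) ^ M = c.t a 1 ^ w a := fun a => by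
      rw [← zpow_natCast, ← zpow_mul, mul_comm (w a), zpow_mul, zpow_natCast, (c.hs a).pw1 hM]
    rw [div_pow, div_eq_one_iff_eq (pow_ne_zero _ h7), ← Finset.prod_pow,
      Finset.prod_congr rfl fun a _ => e a, h]
  have h9 := Ctx.fix hM hσ.1 dvd_rfl h8
  rwa [map_div₀, Fx.prod (A := c.Lv M M) _ (fun a _ =>
    Fx.zpow (fun _ hσ => (Ctx.mem_Lv.1 hσ).2 a) _) σ hσ, div_left_inj' h7] at h9

theorem simple (S : Finset ℕ) (hS : ∀ p ∈ S, p.Prime)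
    (hind : ∀ w : ι → ℤ, Tor (∏ a, c.t a 1 ^ w a) → w = 0) (θ : Qb) :
    ∃ C : ℝ, 0 < C ∧ ∀ (n : ℕ) (x α : Qb), 0 < n → n.primeFactors ⊆ S → c.Dv x → α ≠ 0 → ¬ c.Dv α →
      Fx (St ℚ θ ⊓ c.Lv n n ⊓ St ℚ x) α → ∀ η, c.Dv η → C ≤ ht (α * η) := by
  classical
  obtain ⟨Q, hQ⟩ := eventually_atTop.1 (((eventually_ge_atTop 400).and (ev_unr θ)).and
    (eventually_all.2 fun a => (ev_unr (c.t a 1)).and (ev_un (c.t a 1))))
  set S' := S ∪ (Finset.range Q).filter Nat.Prime with hS'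
  obtain ⟨C, hC, h⟩ := c.main' S' (fun p hp => (Finset.mem_union.1 hp).elim (hS p)
    fun h => (Finset.mem_filter.1 h).2) hind one_pos
  obtain ⟨D, hD⟩ := fiG θ
  have hD0 : 0 < D := let ⟨T, hT⟩ := hD; T.card_pos.trans_le hT
  have hg : ∀ w : ι → ℤ, Fx c.G0 (∏ a, c.t a 1 ^ w a) := fun w =>
    Fx.prod _ fun a _ => Fx.zpow (fun _ hσ => mem_G0.1 hσ a) _
  have key : ∀ N : ℕ, 0 < N → ∀ (m n : ℕ) (x α : Qb) (w : ι → ℤ), 0 < m → n ∣ m →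
      n.primeFactors ⊆ S' → (∀ q, q.Prime → q ∣ N → q ∣ m → q ∈ S') → x ^ N = ∏ a, c.t a 1 ^ w a →
      α ≠ 0 → ¬ c.Dv α → Fx (St ℚ θ ⊓ c.Lv m n ⊓ St ℚ x) α → ∀ η, c.Dv η →
      min (C / (D : ℝ) ^ (2 + 1 : ℝ)) (1 / 50) ≤ ht (α * η) := by
    intro N
    induction N using Nat.recOnPrimePow with
    | zero => simp
    | one =>
      intro _ m n x α w h1 h2 h3 _ h4 h5 h6 h7 η hη
      refine (min_le_left _ _).trans (h α m n D ⟨h1, h2, h3, h5, h6, hD.restrict le_top fun σ hσ =>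
        h7 σ ⟨⟨hσ.2, hσ.1⟩, ?_⟩⟩ η hη)
      rw [← pow_one x, h4]
      exact hg w σ (Lv_le (Nat.pos_of_dvd_of_pos h2 h1) hσ.1)
    | prime_pow_mul a q k hq hqa hk ih =>
      intro hN m n x α w h1 h2 h3 h4 h5 h6 h7 h8
      have ha := Nat.pos_of_mul_pos_left hN
      have hn := Nat.pos_of_dvd_of_pos h2 h1
      have hqk := pow_pos hq.pos k
      have hm := Nat.mul_pos h1 hqk
      have hx : c.Dv x := ⟨_, hN, w, h5⟩
      have h9 : ∀ q', q'.Prime → q' ∣ a → q' ∣ m * q ^ k → q' ∈ S' := fun q' hq' h h' =>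
        h4 q' hq' (h.mul_left _) ((hq'.dvd_mul.1 h').resolve_right fun h'' => hqa
          ((Nat.prime_dvd_prime_iff_eq hq' hq).1 (hq'.dvd_of_dvd_pow h'') ▸ h))
      have h10 : St ℚ (x ^ q ^ k) ⊓ St ℚ (x ^ a) ≤ St ℚ x := fun σ hσ =>
        fix_coprime hx.ne ((hq.coprime_iff_not_dvd.2 hqa).pow_left k) hσ.1 hσ.2
      have h11 : (x ^ q ^ k) ^ a = ∏ a, c.t a 1 ^ w a := by rwa [← pow_mul]
      have h12 : (x ^ a) ^ q ^ k = ∏ a, c.t a 1 ^ w a := by rwa [← pow_mul, mul_comm]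
      by_cases hqS : q ∈ S'
      · refine ih ha (m * q ^ k) (n * q ^ k) _ α w hm (mul_dvd_mul_right h2 _) ?_ h9 h11 h6 h7
          (h8.mono fun σ hσ => ⟨⟨hσ.1.1, Lv_mono hm (Nat.mul_pos hn hqk) (dvd_mul_right _ _)
            (dvd_mul_right _ _) hσ.1.2⟩, h10 ⟨hσ.2, fx_rad hqk h12 σ (Lv_mono hm (Nat.mul_pos hn hqk)
              (dvd_mul_left _ _) (dvd_mul_left _ _) hσ.1.2)⟩⟩)
        rw [Nat.primeFactors_mul hn.ne' hqk.ne', Nat.primeFactors_prime_pow hk.ne' hq]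
        exact Finset.union_subset h3 (by simpa using hqS)
      have : Fact q.Prime := ⟨hq⟩
      obtain ⟨⟨g1, g2⟩, g3⟩ := hQ q (not_lt.1 fun h => hqS (by simp [hS', h, hq]))
      have hun : ∀ η, c.Dv η → Un q η := fun η ⟨N, hN, w, h⟩ => Un.of_pow hN fun τ => by
        simp [h, (g3 _).2 ((c.hs _).ne 1) τ]
      have hqm : ¬ q ∣ m := fun h => hqS (h4 q hq ((dvd_pow_self q hk.ne').mul_right _) h)
      rcases tower (W := St ℚ θ ⊓ c.Lv m n ⊓ St ℚ (x ^ q ^ k))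
        (U := St ℚ θ ⊓ c.Lv (m * q ^ k) n ⊓ St ℚ (x ^ q ^ k)) g1 hun
        ((g2.inf ((unrG_root unrG_top (hun _ (dv_tor ⟨m, h1, (c.prim m h1).pow_eq_one⟩)) hqm
          (by rw [(c.prim m h1).pow_eq_one]; exact Fx.one)).inf (unrG_iInf fun a => unrG_root (g3 a).1
            (hun _ (dv_t a hn)) (fun h => hqm (h.trans h2)) (by
              rw [(c.hs a).pw1 hn]; exact Fx.st _)))).inf
          (unrG_root (unrG_iInf fun a => (g3 a).1) (hun _ (hx.pow _)) hqa (h11 ▸ hg w)))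
        (inf_le_left.trans (inf_le_right.trans (Lv_le hn)))
        (inf_le_inf_right _ (inf_le_inf_left _ (Lv_mono hm hn (dvd_mul_right _ _) dvd_rfl)))
        (fun σ hσ ξ hξ => fix hm hσ.1.2.1 (dvd_mul_left _ _) hξ) k le_rfl (x ^ a) α (hx.pow a)
        (h12 ▸ (hg w).mono (inf_le_left.trans (inf_le_right.trans (Lv_le hn)))) h6
        (h8.mono fun σ hσ => ⟨hσ.1.1, h10 ⟨hσ.1.2, hσ.2⟩⟩) with h13 | ⟨β, y, h13, rfl, h14⟩
      · exact fun η hη => (min_le_right _ _).trans (h13 η hη)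
      · intro η hη
        rw [mul_assoc]
        exact ih ha _ n _ β w hm (h2.mul_right _) h3 h9 h11 (left_ne_zero_of_mul h6)
          (fun h => h7 (h.mul h13)) h14 _ (h13.mul hη)
  refine ⟨_, lt_min (by positivity) (by norm_num), fun n x α hn h1 ⟨N, hN, w, h2⟩ =>
    key N hN n n x α w hn dvd_rfl (h1.trans Finset.subset_union_left) (fun q hq _ h =>
      Finset.mem_union_left _ (h1 (Nat.mem_primeFactors.2 ⟨hq, h, hn.ne'⟩))) h2⟩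

end Ctx

theorem simple_bound (S : Finset ℕ) (Γ : Subgroup ℂˣ) (hΓ : Γ.FG)
    (halg : ∀ g ∈ Γ, IsAlgebraic ℚ (g : ℂ)) (θ : ℂ) (hθ : IsAlgebraic ℚ θ) :
    ∃ c : ℝ, 0 < c ∧ ∀ z ∈ {z : ℂ | z ≠ 0 ∧ ∃ n : ℕ, 1 ≤ n ∧ ∃ g ∈ Γ, (g : ℂ) = z ^ n},
      ∀ α ∈ IntermediateField.adjoin ℚ ({θ, z} ∪
        {y : ℂ | ∃ n : ℕ, 1 ≤ n ∧ n.primeFactors ⊆ S ∧ ∃ g ∈ Γ, (g : ℂ) = y ^ n}), α ≠ 0 →
      α ∉ {z : ℂ | z ≠ 0 ∧ ∃ n : ℕ, 1 ≤ n ∧ ∃ g ∈ Γ, (g : ℂ) = z ^ n} →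
      ∀ η ∈ {z : ℂ | z ≠ 0 ∧ ∃ n : ℕ, 1 ≤ n ∧ ∃ g ∈ Γ, (g : ℂ) = z ^ n},
      ∀ f : Polynomial ℤ, Irreducible f → Polynomial.aeval (α * η) f = 0 →
        c ≤ Real.log (Polynomial.mahlerMeasure (f.map (Int.castRingHom ℂ))) / (f.natDegree : ℝ) := by
  classical
  obtain ⟨ι, _, γ, N, hN, h1, h2, h3⟩ := fg_basis Γ hΓ
  choose t ht1 ht2 using fun a => exists_sys (Complex.log (γ a)) (by
    rw [Complex.exp_log (γ a).ne_zero]; exact halg _ (h1 a))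
  obtain ⟨z, hz1, hz2⟩ := exists_sys (2 * π * Complex.I) (by
    rw [Complex.exp_two_pi_mul_I]; exact isAlgebraic_one)
  let c : Ctx ι := ⟨z, t, hz1, fun n hn => IsPrimitiveRoot.coe_submonoidClass_iff.1 (by
    rw [hz2]; exact Complex.isPrimitiveRoot_exp n hn.ne'), ht1⟩
  have h4 : ∀ w : ι → ℤ, ((∏ a, c.t a 1 ^ w a : Qb) : ℂ) = ((∏ a, γ a ^ w a : ℂˣ) : ℂ) := fun w => by
    simp only [Units.coe_prod, Units.val_zpow_eq_zpow_val]
    refine (map_prod (algebraMap Qb ℂ) _ _).trans (Finset.prod_congr rfl fun a _ => ?_)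
    rw [map_zpow₀]
    exact congrArg (· ^ w a) ((ht2 a 1).trans (by simp [Complex.exp_log (γ _).ne_zero]))
  have h5 : ∀ x : Qb, c.Dv x ↔ (x : ℂ) ≠ 0 ∧ ∃ n : ℕ, 1 ≤ n ∧ ∃ g ∈ Γ, (g : ℂ) = (x : ℂ) ^ n := by
    refine fun x => ⟨fun h => ⟨fun h' => h.ne (Subtype.ext h'), ?_⟩, fun ⟨_, n, hn, g, hg, h⟩ => ?_⟩
    · obtain ⟨n, hn, w, h⟩ := h
      exact ⟨n, hn, _, Γ.prod_mem fun a _ => Γ.zpow_mem (h1 a) (w a), by
        rw [← h4, ← h]; rfl⟩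
    · obtain ⟨w, hw⟩ := h3 g hg
      exact ⟨n * N, Nat.mul_pos hn hN, w, Subtype.ext (by
        rw [h4, ← hw, pow_mul]; simp [h])⟩
  have hq : ∀ (y : ℂ) (n : ℕ), 1 ≤ n → IsAlgebraic ℚ (y ^ n) → ∃ x : Qb, (x : ℂ) = y :=
    fun y n hn h => ⟨⟨y, mem_algebraicClosure_iff.2 (h.of_pow hn)⟩, rfl⟩
  lift θ to Qb using mem_algebraicClosure_iff.2 hθ
  set S' := S.filter Nat.Prime ∪ N.primeFactors with hS'
  obtain ⟨C, hC, h6⟩ := c.simple S' (fun p hp => by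
    rcases Finset.mem_union.1 hp with h | h
    · exact (Finset.mem_filter.1 h).2
    · exact Nat.prime_of_mem_primeFactors h) (fun w ⟨n, hn, h⟩ => by
      have := h2 (fun a => w a * n) (Units.ext (by
        simp only [zpow_mul, zpow_natCast, Finset.prod_pow, Units.val_pow_eq_pow_val, ← h4]
        exact congrArg Subtype.val h))
      exact funext fun a => (mul_eq_zero.1 (congrFun this a)).resolve_right
        (by exact_mod_cast hn.ne')) θ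
  refine ⟨C, hC, fun y hy α hα h0 hnd η hη f hf hfα => ?_⟩
  have hD : ∀ η ∈ {z : ℂ | z ≠ 0 ∧ ∃ n : ℕ, 1 ≤ n ∧ ∃ g ∈ Γ, (g : ℂ) = z ^ n}, ∃ x : Qb, (x : ℂ) = η :=
    fun η ⟨_, n, hn, g, hg, h⟩ => hq η n hn (h ▸ halg g hg)
  obtain ⟨η, rfl⟩ := hD η hη
  obtain ⟨y, rfl⟩ := hD y hy
  let L : Qb → Prop := fun x => ∃ n, 0 < n ∧ n.primeFactors ⊆ S' ∧ Fx (St ℚ θ ⊓ c.Lv n n ⊓ St ℚ y) x
  have two : ∀ x x', L x → L x' → ∃ n, 0 < n ∧ n.primeFactors ⊆ S' ∧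
      Fx (St ℚ θ ⊓ c.Lv n n ⊓ St ℚ y) x ∧ Fx (St ℚ θ ⊓ c.Lv n n ⊓ St ℚ y) x' := by
    intro x x' ⟨n, h7, h8, h9⟩ ⟨n', h7', h8', h9'⟩
    have := Nat.mul_pos h7 h7'
    refine ⟨n * n', this, ?_, h9.mono ?_, h9'.mono ?_⟩
    · rw [Nat.primeFactors_mul h7.ne' h7'.ne']; exact Finset.union_subset h8 h8'
    all_goals exact inf_le_inf_right _ (inf_le_inf_left _ (Ctx.Lv_mono this this (by simp) (by simp)))
  obtain ⟨α, rfl, n, h7, h8, h9⟩ : ∃ x : Qb, (x : ℂ) = α ∧ L x := by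
    clear h0 hnd hfα
    induction hα using IntermediateField.adjoin_induction with
    | mem x hx =>
      rcases hx with (rfl | rfl) | ⟨n, hn, hnS, g, hg, h⟩
      · exact ⟨θ, rfl, 1, one_pos, by simp, fun _ h => h.1.1⟩
      · exact ⟨y, rfl, 1, one_pos, by simp, fun _ h => h.2⟩
      obtain ⟨x, rfl⟩ := hq x n hn (h ▸ halg g hg)
      obtain ⟨w, hw⟩ := h3 g hg
      refine ⟨x, rfl, n * N, Nat.mul_pos hn hN, ?_, (Ctx.fx_rad (w := w) (Nat.mul_pos hn hN)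
        (Subtype.ext (by rw [h4, ← hw, pow_mul]; simp [h]))).mono (inf_le_left.trans inf_le_right)⟩
      rw [Nat.primeFactors_mul (by omega) hN.ne']
      exact Finset.union_subset_union_left fun p hp =>
        Finset.mem_filter.2 ⟨hnS hp, Nat.prime_of_mem_primeFactors hp⟩
    | algebraMap q => exact ⟨algebraMap ℚ Qb q, rfl, 1, one_pos, by simp, fun σ _ => σ.commutes q⟩
    | add _ _ _ _ h1 h2 =>
      obtain ⟨x, rfl, h1⟩ := h1
      obtain ⟨x', rfl, h2⟩ := h2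
      obtain ⟨n, h3, h4, h5, h6⟩ := two x x' h1 h2
      exact ⟨x + x', rfl, n, h3, h4, h5.add h6⟩
    | inv _ _ h1 =>
      obtain ⟨x, rfl, n, h3, h4, h5⟩ := h1
      exact ⟨x⁻¹, rfl, n, h3, h4, h5.inv⟩
    | mul _ _ _ _ h1 h2 =>
      obtain ⟨x, rfl, h1⟩ := h1
      obtain ⟨x', rfl, h2⟩ := h2
      obtain ⟨n, h3, h4, h5, h6⟩ := two x x' h1 h2
      exact ⟨x * x', rfl, n, h3, h4, h5.mul h6⟩
  exact (h6 n y α h7 h8 ((h5 y).2 hy) (fun h => h0 (congrArg Subtype.val h))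
    (fun h => hnd ((h5 α).1 h)) h9 η ((h5 η).2 hη)).trans (ht_le_mahler hf
      ((algebraMap Qb ℂ).injective (by
        rw [← Polynomial.aeval_algebraMap_apply, map_zero]; exact hfα)))

end Pool.Agent.Lib.MP_f61260_nt
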