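import Pool.Agent.Lib.MP_f61260_nt.Trans

set_option autoImplicit false

namespace Pool.Agent.Lib.MP_f61260_nt

open Polynomial

/-- stabiliser of an element -/
abbrev St (k : Type) {E : Type} [Field k] [Field E] [Algebra k E] (x : E) :
    Subgroup (E ≃ₐ[k] E) := MulAction.stabilizer (E ≃ₐ[k] E) x

variable {k E : Type} [Field k] [Field E] [Algebra k E]

lemma mem_St {σ : E ≃ₐ[k] E} {x : E} : σ ∈ St k x ↔ σ x = x := Iff.rfl

/-- fixed by a subgroup -/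
def Fx (A : Subgroup (E ≃ₐ[k] E)) (x : E) : Prop := ∀ σ ∈ A, σ x = x

namespace Fx

variable {A B : Subgroup (E ≃ₐ[k] E)} {x y : E}

lemma mono (h : Fx A x) (hB : B ≤ A) : Fx B x := fun σ hσ => h σ (hB hσ)
lemma le (h : Fx A x) : A ≤ St k x := h
lemma st (x : E) : Fx (St k x) x := fun _ h => h
lemma of_le (h : A ≤ St k x) : Fx A x := h
lemma add (h : Fx A x) (h' : Fx A y) : Fx A (x + y) := fun σ hσ => by
  rw [map_add, h σ hσ, h' σ hσ]
lemma sub (h : Fx A x) (h' : Fx A y) : Fx A (x - y) := fun σ hσ => by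
  rw [map_sub, h σ hσ, h' σ hσ]
lemma mul (h : Fx A x) (h' : Fx A y) : Fx A (x * y) := fun σ hσ => by
  rw [map_mul, h σ hσ, h' σ hσ]
lemma div (h : Fx A x) (h' : Fx A y) : Fx A (x / y) := fun σ hσ => by
  rw [map_div₀, h σ hσ, h' σ hσ]
lemma inv (h : Fx A x) : Fx A x⁻¹ := fun σ hσ => by rw [map_inv₀, h σ hσ]
lemma pow (h : Fx A x) (n : ℕ) : Fx A (x ^ n) := fun σ hσ => by rw [map_pow, h σ hσ]
lemma zpow (h : Fx A x) (n : ℤ) : Fx A (x ^ n) := fun σ hσ => by rw [map_zpow₀, h σ hσ]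
lemma zero : Fx A (0 : E) := fun σ _ => map_zero σ
lemma one : Fx A (1 : E) := fun σ _ => map_one σ
lemma prod {ι : Type} (s : Finset ι) {f : ι → E} (h : ∀ i ∈ s, Fx A (f i)) :
    Fx A (∏ i ∈ s, f i) := fun σ hσ => by
  rw [map_prod]; exact Finset.prod_congr rfl fun i hi => h i hi σ hσ
lemma rinv {M : Type} (h : Fx A x) (f : E → M) : RInv A (fun σ => f (σ x)) := fun σ a ha => by
  simp only [AlgEquiv.mul_apply, h a ha]

end Fx

namespace Trans

variable {A B : Subgroup (E ≃ₐ[k] E)}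

lemma sum_fx (T : Trans B A) {x : E} (h : Fx A x) : Fx B (T.sum fun σ => σ x) := fun g hg => by
  refine Eq.trans ?_ (T.sum_lmul (h.rinv id) hg)
  simp only [sum, map_sum, id, AlgEquiv.mul_apply]

lemma prod_fx (T : Trans B A) {x : E} (h : Fx A x) : Fx B (T.prod fun σ => σ x) := fun g hg => by
  refine Eq.trans ?_ (T.prod_lmul (h.rinv id) hg)
  simp only [prod, map_prod, id, AlgEquiv.mul_apply]

/-- orbit polynomial -/
noncomputable def poly (T : Trans B A) (x : E) : E[X] := ∏ i, (X - C (T.r i x))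

lemma poly_map (T : Trans B A) (x : E) (g : E ≃ₐ[k] E) :
    (T.poly x).map (g : E →+* E) = ∏ i, (X - C (g (T.r i x))) := by
  simp [poly, Polynomial.map_prod]

lemma poly_map_eq (T : Trans B A) {x : E} (h : Fx A x) {g : E ≃ₐ[k] E} (hg : g ∈ B) :
    (T.poly x).map (g : E →+* E) = T.poly x := by
  rw [poly_map]
  exact T.prod_lmul (h.rinv fun z => (X - C z : E[X])) hg

lemma poly_coeff (T : Trans B A) {x : E} (h : Fx A x) (n : ℕ) : Fx B ((T.poly x).coeff n) :=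
  fun g hg => by
    conv_rhs => rw [← T.poly_map_eq h hg, Polynomial.coeff_map]
    rfl

lemma poly_natDegree (T : Trans B A) (x : E) : (T.poly x).natDegree = T.card := by
  unfold poly
  rw [Polynomial.natDegree_prod_of_monic _ _ fun i _ => Polynomial.monic_X_sub_C _]
  simp [card]

lemma poly_eval (T : Trans B A) (x y : E) : (T.poly x).eval y = ∏ i, (y - T.r i x) := by
  simp [poly, Polynomial.eval_prod]

lemma ex_eq (T : Trans B A) {x : E} (h : Fx A x) {σ : E ≃ₐ[k] E} (hσ : σ ∈ B) :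
    ∃ i, T.r i x = σ x := by
  obtain ⟨i, hi⟩ := T.ex σ hσ
  refine ⟨i, ?_⟩
  have := h _ hi
  rw [AlgEquiv.mul_apply] at this
  conv_lhs => rw [← this]
  rw [← AlgEquiv.mul_apply, mul_inv_cancel, AlgEquiv.one_apply]

lemma poly_eval_self (T : Trans B A) {x : E} (h : Fx A x) {σ : E ≃ₐ[k] E} (hσ : σ ∈ B) :
    (T.poly x).eval (σ x) = 0 := by
  obtain ⟨i, hi⟩ := T.ex_eq h hσ
  rw [poly_eval]
  exact Finset.prod_eq_zero (Finset.mem_univ i) (by rw [hi, sub_self])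

lemma inj {y : E} (T : Trans B A) (hA : ∀ σ ∈ B, σ y = y → σ ∈ A) :
    Function.Injective fun i => T.r i y := by
  intro i j hij
  refine T.uniq i j (hA _ (B.mul_mem (B.inv_mem (T.mem i)) (T.mem j)) ?_)
  have hij' : T.r i y = T.r j y := hij
  rw [AlgEquiv.mul_apply, ← hij', ← AlgEquiv.mul_apply, inv_mul_cancel, AlgEquiv.one_apply]

/-- interpolation over an orbit -/
lemma cond {y x : E} (T : Trans B A) (hA : ∀ σ ∈ B, σ y = y → σ ∈ A) (hy : Fx A y) (hx : Fx A x) :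
    ∃ P : E[X], P.degree < T.card ∧ (∀ n, Fx B (P.coeff n)) ∧ ∀ σ ∈ B, P.eval (σ y) = σ x := by
  classical
  have hinj : Set.InjOn (fun i => T.r i y) (Finset.univ : Finset T.ι) := (T.inj hA).injOn
  set P := Lagrange.interpolate Finset.univ (fun i => T.r i y) (fun i => T.r i x) with hP
  have hdeg : P.degree < (Finset.univ : Finset T.ι).card := Lagrange.degree_interpolate_lt _ hinj
  have hev : ∀ σ ∈ B, P.eval (σ y) = σ x := by
    intro σ hσ
    obtain ⟨i, hi⟩ := T.ex σ hσ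
    have e : σ = T.r i * ((T.r i)⁻¹ * σ) := by group
    rw [e, AlgEquiv.mul_apply, AlgEquiv.mul_apply (T.r i), hy _ hi, hx _ hi]
    exact Lagrange.eval_interpolate_at_node _ hinj (Finset.mem_univ i)
  refine ⟨P, by simpa [card] using hdeg, fun n g hg => ?_, hev⟩
  have : P.map (g : E →+* E) = P := by
    rw [hP]
    refine Lagrange.eq_interpolate_of_eval_eq _ hinj ?_ fun i _ => ?_
    · exact (Polynomial.degree_map_le).trans_lt hdeg
    · have h1 := hev (g⁻¹ * T.r i) (B.mul_mem (B.inv_mem hg) (T.mem i))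
      have h2 : T.r i y = (g : E →+* E) ((g⁻¹ * T.r i) y) := by
        change _ = g _
        rw [← AlgEquiv.mul_apply, mul_inv_cancel_left]
      rw [← hP, h2, Polynomial.eval_map, Polynomial.eval₂_at_apply, h1]
      change g _ = _
      rw [← AlgEquiv.mul_apply, mul_inv_cancel_left]
  conv_rhs => rw [← this, Polynomial.coeff_map]
  rfl

end Trans

section idx

variable {A B : Subgroup (E ≃ₐ[k] E)}

lemma idx_of_finset {y : E} (R : Finset E) (h : ∀ σ ∈ B, σ y ∈ R) : IdxLe B (St k y) R.card :=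
  exists_trans R (fun σ => σ y) h fun σ _ τ _ hστ => by
    rw [mem_St, AlgEquiv.mul_apply, ← hστ, ← AlgEquiv.mul_apply, inv_mul_cancel,
      AlgEquiv.one_apply]

lemma idx_of_poly {y : E} {P : E[X]} (hP : P ≠ 0) (h : ∀ σ ∈ B, P.eval (σ y) = 0) :
    IdxLe B (St k y) P.natDegree := by
  classical
  refine (idx_of_finset P.roots.toFinset fun σ hσ => ?_).mono
    ((Multiset.toFinset_card_le _).trans (Polynomial.card_roots' P))
  rw [Multiset.mem_toFinset, Polynomial.mem_roots hP]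
  exact h σ hσ

lemma idx_pow {y : E} {n : ℕ} (hn : 0 < n) (h : Fx B (y ^ n)) : IdxLe B (St k y) n := by
  have := idx_of_poly (B := B) (y := y) (Polynomial.X_pow_sub_C_ne_zero hn (y ^ n))
    fun σ hσ => by simp [← map_pow, h σ hσ]
  rwa [Polynomial.natDegree_X_pow_sub_C] at this

lemma idx_alg {y : E} (hy : IsIntegral k y) : ∃ n, IdxLe B (St k y) n :=
  ⟨_, idx_of_poly (P := (minpoly k y).map (algebraMap k E))
    (Polynomial.map_ne_zero (minpoly.ne_zero hy)) fun σ _ => by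
      rw [Polynomial.eval_map_algebraMap, Polynomial.aeval_algHom_apply, minpoly.aeval, map_zero]⟩

lemma IdxLe.cover {y : E} {D : ℕ} (h : IdxLe A (St k y) D)
    (h' : ∀ σ ∈ B, ∃ u ∈ A, σ y = u y) : IdxLe B (St k y) D := by
  classical
  obtain ⟨T, hT⟩ := h
  refine (idx_of_finset (Finset.univ.image fun i => T.r i y) fun σ hσ => ?_).mono
    (Finset.card_image_le.trans (by rw [Finset.card_univ]; exact hT))
  obtain ⟨u, hu, hu'⟩ := h' σ hσ
  obtain ⟨i, hi⟩ := T.ex_eq (Fx.st y) hu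
  exact Finset.mem_image.2 ⟨i, Finset.mem_univ _, by rw [hi, hu']⟩

lemma IdxLe.iInf {𝒢 : Type} [Group 𝒢] {B : Subgroup 𝒢} {ι : Type} [Fintype ι]
    {V : ι → Subgroup 𝒢} {n : ι → ℕ} (h : ∀ a, IdxLe B (V a) (n a)) :
    IdxLe B (⨅ a, V a) (∏ a, n a) := by
  classical
  have : ∀ s : Finset ι, IdxLe B (⨅ a ∈ s, V a) (∏ a ∈ s, n a) := by
    intro s
    induction s using Finset.induction_on with
    | empty => simpa using idxLe_of_le (le_top : B ≤ ⊤)
    | insert a s ha ih =>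
      rw [Finset.prod_insert ha, Finset.iInf_insert]
      exact (h a).inf ih
  simpa using this Finset.univ

end idx

section roots

lemma act_pow (σ : E ≃ₐ[k] E) {ξ : E} {n : ℕ} (hn : 0 < n) (h : ξ ^ n = 1) :
    ∃ c : ℕ, σ ξ = ξ ^ c := by
  have : NeZero n := ⟨hn.ne'⟩
  exact map_rootsOfUnity_eq_pow_self σ (rootsOfUnity.mkOfPowEq ξ h)

lemma comm_root (σ τ : E ≃ₐ[k] E) {ξ : E} {n : ℕ} (hn : 0 < n) (h : ξ ^ n = 1) :
    σ (τ ξ) = τ (σ ξ) := by
  obtain ⟨a, ha⟩ := act_pow σ hn h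
  obtain ⟨b, hb⟩ := act_pow τ hn h
  rw [ha, hb, map_pow, map_pow, ha, hb, ← pow_mul, ← pow_mul, mul_comm]

lemma conj_root (σ τ : E ≃ₐ[k] E) {ξ : E} {n : ℕ} (hn : 0 < n) (h : ξ ^ n = 1) :
    (τ⁻¹ * σ * τ) ξ = σ ξ := by
  rw [AlgEquiv.mul_apply, AlgEquiv.mul_apply, comm_root σ τ hn h, ← AlgEquiv.mul_apply,
    inv_mul_cancel, AlgEquiv.one_apply]

lemma fix_root {σ : E ≃ₐ[k] E} {ζ ξ : E} {m n : ℕ} (hm : 0 < m) (hζ : IsPrimitiveRoot ζ m)
    (hσ : σ ζ = ζ) (hn : n ∣ m) (h : ξ ^ n = 1) : σ ξ = ξ := by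
  have : NeZero m := ⟨hm.ne'⟩
  obtain ⟨c, rfl⟩ := hn
  obtain ⟨i, -, rfl⟩ := hζ.eq_pow_of_pow_eq_one (ξ := ξ) (by rw [pow_mul, h, one_pow])
  rw [map_pow, hσ]

lemma mult_ex (σ : E ≃ₐ[k] E) {y : E} (hy : y ≠ 0) {n : ℕ} (h : σ (y ^ n) = y ^ n) :
    ∃ ξ : E, ξ ^ n = 1 ∧ σ y = ξ * y :=
  ⟨σ y / y, by rw [div_pow, ← map_pow, h, div_self (pow_ne_zero _ hy)], by field_simp⟩

lemma pow_act {σ : E ≃ₐ[k] E} {y ξ : E} (h : σ y = ξ * y) (hξ : σ ξ = ξ) (l : ℕ) :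
    (σ ^ l) y = ξ ^ l * y := by
  induction l with
  | zero => simp
  | succ l ih => rw [pow_succ', AlgEquiv.mul_apply, ih, map_mul, map_pow, hξ, h]; ring

lemma fix_coprime {σ : E ≃ₐ[k] E} {y : E} (hy : y ≠ 0) {a b : ℕ} (hab : a.Coprime b)
    (ha : σ (y ^ a) = y ^ a) (hb : σ (y ^ b) = y ^ b) : σ y = y := by
  have h1 : (σ y / y) ^ a = 1 := by rw [div_pow, ← map_pow, ha, div_self (pow_ne_zero _ hy)]
  have h2 : (σ y / y) ^ b = 1 := by rw [div_pow, ← map_pow, hb, div_self (pow_ne_zero _ hy)]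
  have h3 := (pow_gcd_eq_one.2 ⟨h1, h2⟩ : (σ y / y) ^ a.gcd b = 1)
  rw [hab, pow_one, div_eq_one_iff_eq hy] at h3
  exact h3

lemma prim_of_ne {p : ℕ} (hp : p.Prime) {ω : E} (h : ω ^ p = 1) (h1 : ω ≠ 1) :
    IsPrimitiveRoot ω p := by
  have : Fact p.Prime := ⟨hp⟩
  have := orderOf_eq_prime h h1
  exact this ▸ IsPrimitiveRoot.orderOf ω

/-- a compatible system of primitive roots of unity of `p`-power order -/
structure Cyc (p : ℕ) (z : ℕ → E) : Prop where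
  prim : ∀ i, IsPrimitiveRoot (z i) (p ^ i)
  pw : ∀ i, z (i + 1) ^ p = z i

lemma Cyc.pw' {p : ℕ} {z : ℕ → E} (hz : Cyc p z) (i l : ℕ) : z (i + l) ^ p ^ l = z i := by
  induction l with
  | zero => simp
  | succ l ih => rw [pow_succ', pow_mul, ← add_assoc, hz.pw, ih]

lemma Cyc.ne {p : ℕ} (hp : p.Prime) {z : ℕ → E} (hz : Cyc p z) (i : ℕ) : z i ≠ 0 :=
  (hz.prim i).ne_zero (pow_pos hp.pos i).ne'

lemma Cyc.fix_le {p : ℕ} {z : ℕ → E} (hz : Cyc p z) {σ : E ≃ₐ[k] E} {i j : ℕ} (hij : i ≤ j)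
    (h : σ (z j) = z j) : σ (z i) = z i := by
  obtain ⟨l, rfl⟩ := Nat.exists_eq_add_of_le hij
  rw [← hz.pw' i l, map_pow, h]

lemma Cyc.fix {p : ℕ} (hp : p.Prime) {z : ℕ → E} (hz : Cyc p z) {σ : E ≃ₐ[k] E} {i j : ℕ}
    (hij : i ≤ j) (h : σ (z j) = z j) {ξ : E} (hξ : ξ ^ p ^ i = 1) : σ ξ = ξ :=
  fix_root (pow_pos hp.pos j) (hz.prim j) h (pow_dvd_pow p hij) hξ

lemma Cyc.move_pow {p : ℕ} (hp : p.Prime) {z : ℕ → E} (hz : Cyc p z) {σ : E ≃ₐ[k] E} {i l : ℕ}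
    (hl : l + 1 ≤ i) (h : σ (z i) = z i) (h' : σ (z (i + 1)) ≠ z (i + 1)) :
    (σ ^ p ^ l) (z (i + l)) = z (i + l) ∧ (σ ^ p ^ l) (z (i + l + 1)) ≠ z (i + l + 1) := by
  have h1 : z (i + l + 1) ^ p ^ (l + 1) = z i := by rw [add_assoc]; exact hz.pw' i (l + 1)
  have h2 : z (i + l + 1) ^ p ^ l = z (i + 1) := by
    rw [show i + l + 1 = i + 1 + l by ring]; exact hz.pw' (i + 1) l
  obtain ⟨ξ, hξ, hσ⟩ := mult_ex σ (hz.ne hp (i + l + 1)) (n := p ^ (l + 1)) (by rw [h1, h])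
  have h3 := pow_act hσ (hz.fix hp hl h hξ) (p ^ l)
  constructor
  · rw [← hz.pw (i + l), map_pow, h3, mul_pow, ← pow_mul, ← pow_succ, hξ, one_mul]
  · rw [h3]
    intro h4
    apply h'
    have h5 : ξ ^ p ^ l = 1 := mul_right_cancel₀ (hz.ne hp _) (by rw [h4, one_mul])
    rw [← h2, map_pow, hσ, mul_pow, h5, one_mul]

end roots

end Pool.Agent.Lib.MP_f61260_nt
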