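import Pool.Agent.Lib.MP_f61260_nt.Loc1

set_option autoImplicit false

namespace Pool.Agent.Lib.MP_f61260_nt

open Polynomial

lemma eval_sub_le {K : Type} [NormedField K] [IsUltrametricDist K] {P P' : K[X]} {x x' : K}
    {η R C : ℝ} (hη : 0 ≤ η) (hC : 0 ≤ C) (hc : ∀ k, ‖P.coeff k‖ * R ^ k ≤ C)
    (hc' : ∀ k, ‖P'.coeff k - P.coeff k‖ ≤ η * ‖P.coeff k‖) (hx : ‖x‖ ≤ R) (hx' : ‖x'‖ ≤ R)
    (h : ‖x' - x‖ ≤ η * R) : ‖P'.eval x' - P.eval x‖ ≤ η * C := by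
  have hR : 0 ≤ R := (norm_nonneg _).trans hx
  rw [Polynomial.eval_eq_sum_range' (Nat.lt_succ_of_le (le_max_left P'.natDegree P.natDegree)),
    Polynomial.eval_eq_sum_range' (Nat.lt_succ_of_le (le_max_right P'.natDegree P.natDegree)),
    ← Finset.sum_sub_distrib]
  refine nsum_le (by positivity) fun k _ => ?_
  have : P'.coeff k * x' ^ k - P.coeff k * x ^ k =
      (P'.coeff k - P.coeff k) * x' ^ k + P.coeff k * (x' ^ k - x ^ k) := by ring
  rw [this]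
  refine nadd_le ?_ ?_
  · rw [norm_mul, norm_pow]
    calc _ ≤ η * ‖P.coeff k‖ * R ^ k := by gcongr; exact hc' k
      _ ≤ η * C := by rw [mul_assoc]; gcongr; exact hc k
  · rcases k with _ | k
    · simp; positivity
    · rw [norm_mul]
      calc _ ≤ ‖P.coeff (k + 1)‖ * (η * R * R ^ k) := by
            gcongr
            exact (pow_succ_sub_le hx' hx k).trans (by gcongr)
        _ = η * (‖P.coeff (k + 1)‖ * R ^ (k + 1)) := by ring
        _ ≤ η * C := by gcongr; exact hc _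

variable {p : ℕ} [hp : Fact p.Prime]

/-- existence of an element of trace one and bounded size -/
def Eul (B A : Subgroup (LA p)) (L : ℝ) : Prop :=
  ∃ T : Trans B A, ∃ e : Om p, Fx A e ∧ T.sum (fun σ => σ e) = 1 ∧ ‖e‖ ≤ L

/-- the trace map shrinks -/
def Gain (B A : Subgroup (LA p)) (γ : ℝ) : Prop :=
  ∃ T : Trans B A, ∀ x : Om p, Fx A x → ‖T.sum (fun σ => σ x)‖ ≤ γ * ‖x‖

def Loss (A V : Subgroup (LA p)) (L : ℝ) : Prop := ∀ B ≤ A, Eul B (B ⊓ V) L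

def Deep (σ : LA p) (A : Subgroup (LA p)) (η : ℝ) : Prop := ∀ x, Fx A x → Rel η (σ x) x

section eul

variable {A B A' V V' : Subgroup (LA p)} {L L' : ℝ}

lemma Eul.mono (h : Eul B A L) (h' : L ≤ L') : Eul B A L' :=
  let ⟨T, e, h1, h2, h3⟩ := h; ⟨T, e, h1, h2, h3.trans h'⟩

lemma Eul.trans (h : Eul B A L) (h' : Eul A A' L') (hA : A ≤ B) (hA' : A' ≤ A) :
    Eul B A' (L * L') := by
  obtain ⟨T, e, h1, h2, h3⟩ := h
  obtain ⟨T', e', h1', h2', h3'⟩ := h'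
  refine ⟨T.comp T' hA hA', e * e', (h1.mono hA').mul h1', ?_, ?_⟩
  · rw [Trans.comp_sum, ← h2]
    refine Finset.sum_congr rfl fun i _ => ?_
    have : T.r i e = T.r i (e * T'.sum fun σ => σ e') := by rw [h2', mul_one]
    beta_reduce
    rw [this, Trans.sum, Trans.sum, Finset.mul_sum, map_sum]
    refine Finset.sum_congr rfl fun j _ => ?_
    rw [AlgEquiv.mul_apply, map_mul (T'.r j), h1 _ (T'.mem j)]
  · rw [norm_mul]; exact mul_le_mul h3 h3' (norm_nonneg _) ((norm_nonneg _).trans h3)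

lemma eul_triv (h : B ≤ A) : Eul B A 1 :=
  ⟨Trans.triv h, 1, Fx.one, by simp [Trans.sum, Trans.triv], by simp⟩

lemma Gain.mono (h : Gain B A L) (h' : L ≤ L') : Gain B A L' :=
  let ⟨T, h1⟩ := h
  ⟨T, fun x hx => (h1 x hx).trans (mul_le_mul_of_nonneg_right h' (norm_nonneg _))⟩

lemma gain_one (T : Trans B A) : Gain B A 1 :=
  ⟨T, fun x _ => nsum_le (by positivity) fun i _ => by rw [niso, one_mul]⟩

lemma Gain.trans (h : Gain B A L) (h' : Gain A A' L') (hA : A ≤ B) (hA' : A' ≤ A)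
    (hL : 0 ≤ L) : Gain B A' (L * L') := by
  obtain ⟨T, h1⟩ := h
  obtain ⟨T', h1'⟩ := h'
  refine ⟨T.comp T' hA hA', fun x hx => ?_⟩
  have : (T.comp T' hA hA').sum (fun σ => σ x) = T.sum fun σ => σ (T'.sum fun τ => τ x) := by
    rw [Trans.comp_sum]
    simp only [Trans.sum, map_sum, AlgEquiv.mul_apply]
  rw [this, mul_assoc]
  exact (h1 _ (T'.sum_fx hx)).trans (mul_le_mul_of_nonneg_left (h1' x hx) hL)

lemma Eul.gain (h : Eul B A L) (h' : Gain B A L') (hL : 0 ≤ L') : 1 ≤ L' * L := by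
  obtain ⟨T, e, h1, h2, h3⟩ := h
  obtain ⟨T', h4⟩ := h'
  have := h4 e h1
  rw [T'.sum_eq T (h1.rinv fun x => x), h2, norm_one] at this
  exact this.trans (mul_le_mul_of_nonneg_left h3 hL)

lemma Loss.mono (h : Loss A V L) (hA : A' ≤ A) (h' : L ≤ L') : Loss A' V L' :=
  fun B hB => (h B (hB.trans hA)).mono h'

lemma Loss.inf (h : Loss A V L) (h' : Loss (A ⊓ V) V' L') : Loss A (V ⊓ V') (L * L') :=
  fun B hB => by
    rw [← inf_assoc]
    exact (h B hB).trans (h' _ (inf_le_inf_right _ hB)) inf_le_left inf_le_left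

lemma loss_triv (h : A ≤ V) : Loss A V 1 := fun _ hB => eul_triv (le_inf le_rfl (hB.trans h))

lemma Loss.iInf {ι : Type} [Fintype ι] {W : ι → Subgroup (LA p)} {M : ι → ℝ}
    (h : ∀ a, Loss A (W a) (M a)) : Loss A (⨅ a, W a) (∏ a, M a) := by
  classical
  have : ∀ s : Finset ι, Loss A (⨅ a ∈ s, W a) (∏ a ∈ s, M a) := by
    intro s
    induction s using Finset.induction_on with
    | empty => simpa using loss_triv (le_top : A ≤ ⊤)
    | insert a s ha ih =>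
      rw [Finset.prod_insert ha, Finset.iInf_insert]
      exact (h a).inf (ih.mono inf_le_left le_rfl)
  simpa using this Finset.univ

lemma Loss.chg (h : Loss A V L) (h' : A ⊓ V = A ⊓ V') : Loss A V' L := fun B hB => by
  have : B ⊓ V' = B ⊓ V := by
    rw [← inf_eq_left.2 hB, inf_assoc, inf_assoc, h']
  rw [this]; exact h B hB

lemma eul_step {y : Om p} (hy : y ≠ 0) {ϑ : ℝ} (h0 : 0 < ϑ) (h1 : ϑ ≤ 1)
    (hs : ∀ σ ∈ A, σ y ≠ y → ϑ * ‖y‖ ≤ ‖σ y - y‖) {n : ℕ} (hn : IdxLe A (St ℚ_[p] y) (n + 1)) :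
    Loss A (St ℚ_[p] y) (ϑ ^ n)⁻¹ := by
  classical
  intro B hB
  obtain ⟨T, hT⟩ : IdxLe B (B ⊓ St ℚ_[p] y) (n + 1) :=
    hn.restrict hB (le_inf inf_le_left inf_le_right)
  have hfy : Fx (B ⊓ St ℚ_[p] y) y := (Fx.st y).mono inf_le_right
  have hinj := T.inj (y := y) fun σ hσ h => ⟨hσ, h⟩
  have hder : ∀ i, (derivative (T.poly y)).eval (T.r i y) =
      ∏ j ∈ Finset.univ.erase i, (T.r i y - T.r j y) := fun i => by
    have := Lagrange.eval_nodal_derivative_eval_node_eq (s := Finset.univ)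
      (v := fun i => T.r i y) (Finset.mem_univ i)
    rwa [Lagrange.eval_nodal] at this
  have hact : ∀ σ ∈ B, σ (y ^ (T.card - 1) / (derivative (T.poly y)).eval y) =
      σ y ^ (T.card - 1) / (derivative (T.poly y)).eval (σ y) := by
    intro σ hσ
    rw [map_div₀, map_pow]
    congr 1
    conv_rhs => rw [← T.poly_map_eq hfy hσ, Polynomial.derivative_map, Polynomial.eval_map]
    exact (Polynomial.eval₂_at_apply (σ : Om p →+* Om p) y).symm
  refine ⟨T, y ^ (T.card - 1) / (derivative (T.poly y)).eval y, fun σ hσ => ?_, ?_, ?_⟩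
  · rw [hact σ hσ.1, hfy σ hσ]
  · have := Lagrange.coeff_eq_sum (s := Finset.univ) hinj.injOn (P := X ^ (T.card - 1)) (by
      rw [Polynomial.degree_X_pow, Finset.card_univ]
      exact_mod_cast Nat.sub_lt T.card_pos one_pos)
    rw [Finset.card_univ, Polynomial.coeff_X_pow, if_pos (by rfl)] at this
    rw [this, Trans.sum]
    refine Finset.sum_congr rfl fun i _ => ?_
    rw [hact _ (T.mem i), hder, Polynomial.eval_pow, Polynomial.eval_X]
  · obtain ⟨i, hi⟩ := T.ex_eq hfy B.one_mem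
    rw [AlgEquiv.one_apply] at hi
    have h2 := hder i
    rw [hi] at h2
    have hy' := norm_pos_iff.2 hy
    have h3 : (ϑ * ‖y‖) ^ (T.card - 1) ≤ ‖(derivative (T.poly y)).eval y‖ := by
      rw [h2, norm_prod, Trans.card, ← Finset.card_univ,
        ← Finset.card_erase_of_mem (Finset.mem_univ i), ← Finset.prod_const]
      refine Finset.prod_le_prod (fun _ _ => by positivity) fun j hj => ?_
      rw [norm_sub_rev]
      refine hs _ (hB (T.mem j)) fun h => Finset.ne_of_mem_erase hj (hinj ?_)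
      simp only [h, hi]
    rw [norm_div, norm_pow]
    calc _ ≤ ‖y‖ ^ (T.card - 1) / (ϑ * ‖y‖) ^ (T.card - 1) := by gcongr
      _ = (ϑ ^ (T.card - 1))⁻¹ := by rw [mul_pow]; field_simp
      _ ≤ _ := inv_anti₀ (by positivity) (pow_le_pow_of_le_one h0.le h1 (by omega))

lemma loss_ex (y : Om p) : ∃ L, Loss ⊤ (St ℚ_[p] y) L := by
  by_cases hy : y = 0
  · exact ⟨1, loss_triv (hy ▸ Fx.zero)⟩
  obtain ⟨n, T, hT⟩ := fi_St y
  have hy' := norm_pos_iff.2 hy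
  obtain ⟨ϑ, h0, h1, h2⟩ : ∃ ϑ : ℝ, 0 < ϑ ∧ ϑ ≤ 1 ∧
      ∀ i ∈ (Finset.univ : Finset T.ι), T.r i y ≠ y → ϑ * ‖y‖ ≤ ‖T.r i y - y‖ := by
    generalize (Finset.univ : Finset T.ι) = s
    classical
    induction s using Finset.induction_on with
    | empty => exact ⟨1, one_pos, le_rfl, by simp⟩
    | insert a s _ ih =>
      obtain ⟨ϑ, h0, h1, h2⟩ := ih
      by_cases ha : T.r a y = y
      · refine ⟨ϑ, h0, h1, fun i hi => ?_⟩
        rcases Finset.mem_insert.1 hi with rfl | hi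
        · exact fun h => absurd ha h
        · exact h2 i hi
      · refine ⟨min ϑ (‖T.r a y - y‖ / ‖y‖), lt_min h0 (div_pos (norm_pos_iff.2
          (sub_ne_zero.2 ha)) hy'), min_le_of_left_le h1, fun i hi h => ?_⟩
        rcases Finset.mem_insert.1 hi with rfl | hi
        · exact (le_div_iff₀ hy').1 (min_le_right _ _)
        · exact (mul_le_mul_of_nonneg_right (min_le_left _ _) hy'.le).trans (h2 i hi h)
  refine ⟨_, eul_step hy h0 h1 (fun σ hσ h => ?_) (n := n) ⟨T, hT.trans n.le_succ⟩⟩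
  obtain ⟨i, hi⟩ := T.ex_eq (Fx.st y) hσ
  rw [← hi] at h ⊢
  exact h2 i (Finset.mem_univ _) h

lemma loss_tame {y : Om p} (hy : y ≠ 0) {n : ℕ} (hn : ¬ p ∣ n) (h : Fx A (y ^ n)) :
    Loss A (St ℚ_[p] y) 1 := by
  have hn0 : 0 < n := Nat.pos_of_ne_zero fun h => hn (h ▸ dvd_zero p)
  have := eul_step (A := A) hy one_pos le_rfl (fun σ hσ h' => ?_) ((idx_pow hn0 h).mono n.le_succ)
  · simpa using this
  obtain ⟨ξ, h1, h2⟩ := mult_ex σ hy (h σ hσ)
  rw [h2, ← sub_one_mul, norm_mul, tame hn h1 fun h => h' (by rw [h2, h, one_mul])]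

end eul

/-- a Kummer layer -/
structure Kum (z : ℕ → Om p) (A : Subgroup (LA p)) (y : Om p) : Prop where
  cyc : Cyc p z
  le : A ≤ St ℚ_[p] (z 1)
  ne : y ≠ 0
  fx : Fx A (y ^ p)

/-- optimal approximation in a nontrivial Kummer layer -/
structure Lay (z : ℕ → Om p) (A : Subgroup (LA p)) (y b : Om p) (ϑ : ℝ) : Prop
    extends Kum z A y where
  nt : ¬ Fx A y
  fb : Fx A b
  eq : ‖y - b‖ * ϑ = ‖z 1 - 1‖ * ‖y‖
  opt : ∀ b', Fx A b' → ‖y - b‖ ≤ ‖y - b'‖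

variable {z : ℕ → Om p} {A : Subgroup (LA p)} {y b : Om p} {ϑ : ℝ}

namespace Kum

lemma mono (h : Kum z A y) {B : Subgroup (LA p)} (hB : B ≤ A) : Kum z B y :=
  ⟨h.cyc, hB.trans h.le, h.ne, h.fx.mono hB⟩

lemma act (h : Kum z A y) {σ : LA p} (hσ : σ ∈ A) : ∃ ω : Om p, ω ^ p = 1 ∧ Fx A ω ∧ σ y = ω * y := by
  obtain ⟨ω, h1, h2⟩ := mult_ex σ h.ne (h.fx σ hσ)
  exact ⟨ω, h1, fun τ hτ => h.cyc.fix hp.out le_rfl (h.le hτ) (by rwa [pow_one]), h2⟩

lemma norm_eq (h : Kum z A y) {σ : LA p} (hσ : σ ∈ A) (h' : σ y ≠ y) :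
    ‖σ y - y‖ = ‖z 1 - 1‖ * ‖y‖ := by
  obtain ⟨ω, h1, -, h2⟩ := h.act hσ
  rw [h2, ← sub_one_mul, norm_mul, h.cyc.b0_eq h1 fun h => h' (by rw [h2, h, one_mul])]

lemma norm_le (h : Kum z A y) {σ : LA p} (hσ : σ ∈ A) : ‖σ y - y‖ ≤ ‖z 1 - 1‖ * ‖y‖ := by
  by_cases h' : σ y = y
  · rw [h', sub_self, norm_zero]; positivity
  · exact (h.norm_eq hσ h').le

lemma idx (h : Kum z A y) : IdxLe A (A ⊓ St ℚ_[p] y) p :=
  (idx_pow hp.out.pos h.fx).restrict le_rfl (le_inf inf_le_left inf_le_right)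

lemma low (h : Kum z A y) (nt : ¬ Fx A y) (hb : Fx A b) : ‖z 1 - 1‖ * ‖y‖ ≤ ‖y - b‖ := by
  obtain ⟨σ, hσ, hσy⟩ : ∃ σ ∈ A, σ y ≠ y := by
    by_contra h; push Not at h; exact nt h
  have : σ y - y = σ (y - b) - (y - b) := by rw [map_sub, hb σ hσ]; ring
  rw [← h.norm_eq hσ hσy, this]
  exact nsub_le (niso _ _).le le_rfl

lemma ex_lay (h : Kum z A y) (hA : Fi A) (nt : ¬ Fx A y) : ∃ b ϑ, Lay z A y b ϑ := by
  obtain ⟨b, hb, hb'⟩ := exists_opt hA nt
  have : 0 < ‖y - b‖ :=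
    (mul_pos (h.cyc.b_pos 0) (norm_pos_iff.2 h.ne)).trans_le (h.low nt hb)
  exact ⟨b, ‖z 1 - 1‖ * ‖y‖ / ‖y - b‖, h, nt, hb, by field_simp, hb'⟩

lemma loss (h : Kum z A y) (hb : Fx A b) (h0 : 0 < ϑ) (h1 : ϑ ≤ 1)
    (h2 : ‖y - b‖ * ϑ ≤ ‖z 1 - 1‖ * ‖y‖) : Loss A (St ℚ_[p] y) (ϑ ^ (p - 1))⁻¹ := by
  have hst : A ⊓ St ℚ_[p] (y - b) = A ⊓ St ℚ_[p] y := by
    ext σ
    simp only [Subgroup.mem_inf, mem_St, and_congr_right_iff]
    intro hσ
    rw [map_sub, hb σ hσ, sub_left_inj]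
  by_cases hx : y - b = 0
  · refine (loss_triv ?_).mono le_rfl (one_le_inv_iff₀.2 ⟨by positivity, pow_le_one₀ h0.le h1⟩)
    rw [sub_eq_zero.1 hx]; exact hb
  refine (eul_step hx h0 h1 (fun σ hσ h' => ?_) ?_).chg hst
  · have : σ (y - b) - (y - b) = σ y - y := by rw [map_sub, hb σ hσ]; ring
    rw [this, h.norm_eq hσ fun h'' => h' (by rw [map_sub, hb σ hσ, h'']), mul_comm]
    exact h2
  · rw [Nat.sub_add_cancel hp.out.pos]
    exact h.idx.restrict le_rfl (by rw [← hst]; exact inf_le_right.trans inf_le_right)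

lemma approx (h : Kum z A y) (hb : ‖y - b‖ ≤ ‖y‖) (h2 : ‖y - b‖ * ϑ = ‖z 1 - 1‖ * ‖y‖) :
    Rel (ϑ ^ (p - 1)) (y ^ p - b ^ p) ((y - b) ^ p) := by
  have hb' : ‖b‖ ≤ ‖y‖ := by
    have : b = y - (y - b) := by ring
    rw [this]; exact nsub_le le_rfl hb
  have := add_pow_q hp.out 1 hb hb'
  rw [pow_one, sub_add_cancel] at this
  unfold Rel
  rw [sub_right_comm]
  refine this.trans (le_of_eq ?_)
  have hp1 : p = (p - 1) + 1 := by have := hp.out.pos; omega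
  rw [← h.cyc.b0, norm_pow, mul_left_comm, ← mul_pow, ← h2]
  have : ‖y - b‖ ^ p = ‖y - b‖ ^ (p - 1) * ‖y - b‖ := by rw [← pow_succ, ← hp1]
  rw [this]
  ring

lemma card_eq (h : Kum z A y) (nt : ¬ Fx A y) (T : Trans A (A ⊓ St ℚ_[p] y)) : T.card = p := by
  obtain ⟨σ, hσ, hσy⟩ : ∃ σ ∈ A, σ y ≠ y := by
    by_contra h; push Not at h; exact nt h
  obtain ⟨ω, h1, h2, h3⟩ := h.act hσ
  have hω := prim_of_ne hp.out h1 fun h => hσy (by rw [h3, h, one_mul])
  have h4 := T.prod_lmul (((Fx.st y).mono inf_le_right).rinv id) hσ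
  have h5 : ∀ i, (σ * T.r i) y = ω * T.r i y := fun i => by
    obtain ⟨ω', -, h2', h3'⟩ := h.act (T.mem i)
    rw [AlgEquiv.mul_apply, h3', map_mul, h2' σ hσ, h3]; ring
  simp only [Trans.prod, id, h5, Finset.prod_mul_distrib, Finset.prod_const, Finset.card_univ] at h4
  have h6 : ω ^ T.card = 1 := mul_right_cancel₀ (Finset.prod_ne_zero_iff.2 fun i _ =>
    (map_ne_zero (T.r i)).2 h.ne) (by rw [one_mul]; exact h4)
  obtain ⟨T', hT'⟩ := h.idx
  exact le_antisymm (T.card_eq T' ▸ hT') (Nat.le_of_dvd T.card_pos (hω.dvd_of_pow_eq_one _ h6))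

lemma tr_poly (h : Kum z A y) (nt : ¬ Fx A y) (T : Trans A (A ⊓ St ℚ_[p] y)) {Q : (Om p)[X]}
    (hQ : Q.natDegree < p) : ∑ i, Q.eval (T.r i y) = p * Q.eval 0 := by
  obtain ⟨σ, hσ, hσy⟩ : ∃ σ ∈ A, σ y ≠ y := by
    by_contra h; push Not at h; exact nt h
  obtain ⟨ω, h1, h2, h3⟩ := h.act hσ
  have hω := prim_of_ne hp.out h1 fun h => hσy (by rw [h3, h, one_mul])
  have h5 : ∀ i, (σ * T.r i) y = ω * T.r i y := fun i => by
    obtain ⟨ω', -, h2', h3'⟩ := h.act (T.mem i)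
    rw [AlgEquiv.mul_apply, h3', map_mul, h2' σ hσ, h3]; ring
  have h6 : ∀ l, 0 < l → l < p → ∑ i, T.r i y ^ l = 0 := by
    intro l hl hl'
    have h4 := T.sum_lmul (((Fx.st y).mono inf_le_right).rinv fun x => x ^ l) hσ
    simp only [Trans.sum, h5, mul_pow, ← Finset.mul_sum] at h4
    by_contra h0
    exact hω.pow_ne_one_of_pos_of_lt hl.ne' hl' (mul_right_cancel₀ h0 (by rw [one_mul]; exact h4))
  simp only [Polynomial.eval_eq_sum_range' hQ]
  rw [Finset.sum_comm, Finset.mul_sum]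
  refine Finset.sum_congr rfl fun l hl => ?_
  rw [← Finset.mul_sum]
  rcases Nat.eq_zero_or_pos l with rfl | hl0
  · simp only [pow_zero, Finset.sum_const, Finset.card_univ, nsmul_eq_mul, mul_one]
    rw [← Trans.card, h.card_eq nt T, mul_comm]
  · rw [h6 l hl0 (Finset.mem_range.1 hl), zero_pow hl0.ne']; simp

end Kum

namespace Lay

variable (h : Lay z A y b ϑ)
include h

lemma xpos : 0 < ‖y - b‖ :=
  (mul_pos (h.cyc.b_pos 0) (norm_pos_iff.2 h.ne)).trans_le (h.toKum.low h.nt h.fb)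

lemma xle : ‖y - b‖ ≤ ‖y‖ := by simpa using h.opt 0 Fx.zero

lemma le_one : ϑ ≤ 1 :=
  le_of_mul_le_mul_left (by rw [h.eq, mul_one]; exact h.toKum.low h.nt h.fb) h.xpos

lemma b0_le : ‖z 1 - 1‖ ≤ ϑ :=
  le_of_mul_le_mul_left (by
    rw [h.eq, mul_comm]; exact mul_le_mul_of_nonneg_left h.xle (norm_nonneg _)) h.xpos

lemma pos : 0 < ϑ := (h.cyc.b_pos 0).trans_le h.b0_le

lemma loss : Loss A (St ℚ_[p] y) (ϑ ^ (p - 1))⁻¹ := h.toKum.loss h.fb h.pos h.le_one h.eq.le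

lemma rel_r : Rel (ϑ ^ (p - 1)) (y ^ p - b ^ p) ((y - b) ^ p) := h.toKum.approx h.xle h.eq

lemma pow_lt (h1 : ϑ < 1) : ϑ ^ (p - 1) < 1 :=
  pow_lt_one₀ h.pos.le h1 (by have := hp.out.two_le; omega)

lemma ram (h1 : ϑ < 1) {c : Om p} (hc : Fx A c) : ‖y - b‖ ≠ ‖c‖ := by
  intro he
  have hc0 : 0 < ‖c‖ := he ▸ h.xpos
  have hc1 : c ≠ 0 := norm_pos_iff.1 hc0
  have h2 := h.rel_r
  have h3 := h2.norm_eq (h.pow_lt h1)
  obtain ⟨d, hd, hd1, hd2⟩ := res_root (x := (y ^ p - b ^ p) / c ^ p)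
    ((h.fx.sub (h.fb.pow p)).div (hc.pow p))
    (by rw [norm_div, h3, norm_pow, norm_pow, he, div_self (by positivity)])
  have h4 : ‖((y - b) / c) ^ p - (y ^ p - b ^ p) / c ^ p‖ < 1 := by
    rw [div_pow, ← sub_div, norm_div, norm_sub_rev, div_lt_one (by rw [norm_pow]; positivity)]
    refine lt_of_le_of_lt h2 ?_
    rw [norm_pow, norm_pow, he]
    exact mul_lt_of_lt_one_left (by positivity) (h.pow_lt h1)
  have h5 := nadd_lt h4 hd2
  rw [sub_add_sub_cancel] at h5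
  have h6 := sub_lt_one_of_pow hp.out np_lt (by rw [norm_div, he, div_self hc0.ne']) hd1 h5
  have h7 := h.opt (b + c * d) (h.fb.add (hc.mul hd))
  have : y - (b + c * d) = ((y - b) / c - d) * c := by field_simp; ring
  rw [this, norm_mul, he] at h7
  exact absurd (mul_lt_of_lt_one_left hc0 h6) (not_lt.2 h7)

lemma ram_pow (h1 : ϑ < 1) {c : Om p} (hc : Fx A c) {k : ℕ} (hk : ¬ p ∣ k) :
    ‖y - b‖ ^ k ≠ ‖c‖ := by
  intro he
  have h3 := h.rel_r.norm_eq (h.pow_lt h1)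
  have h4 := Nat.gcd_eq_gcd_ab k p
  rw [((Nat.Prime.coprime_iff_not_dvd hp.out).2 hk).symm] at h4
  refine h.ram h1 ((hc.zpow (k.gcdA p)).mul ((h.fx.sub (h.fb.pow p)).zpow (k.gcdB p))) ?_
  rw [norm_mul, norm_zpow, norm_zpow, h3, ← he, norm_pow, ← zpow_natCast, ← zpow_natCast,
    ← zpow_mul, ← zpow_mul, ← zpow_add₀ h.xpos.ne', ← h4]
  simp

lemma expand {x : Om p} (hx : Fx (A ⊓ St ℚ_[p] y) x) :
    ∃ P : (Om p)[X], P.natDegree < p ∧ (∀ n, Fx A (P.coeff n)) ∧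
      (∀ σ ∈ A, P.eval (σ (y - b)) = σ x) ∧ ∀ n, ‖P.coeff n‖ * ‖y - b‖ ^ n ≤ ‖x‖ := by
  classical
  obtain ⟨T, hT⟩ := h.toKum.idx
  have hA : ∀ σ ∈ A, σ (y - b) = y - b → σ ∈ A ⊓ St ℚ_[p] y := fun σ hσ h' =>
    ⟨hσ, by rwa [map_sub, h.fb σ hσ, sub_left_inj] at h'⟩
  obtain ⟨P, h1, h2, h3⟩ := T.cond hA
    (((Fx.st y).mono inf_le_right).sub (h.fb.mono inf_le_left)) hx
  have hdeg : P.natDegree < p := by
    by_cases h0 : P = 0
    · rw [h0]; simpa using hp.out.pos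
    · exact ((Polynomial.natDegree_lt_iff_degree_lt h0).2 h1).trans_le hT
  refine ⟨P, hdeg, h2, h3, fun n => ?_⟩
  rcases h.le_one.lt_or_eq with h4 | h4
  · have h5 := h3 1 A.one_mem
    rw [AlgEquiv.one_apply, AlgEquiv.one_apply] at h5
    rw [← h5]
    have key : ∀ k l, k < l → P.coeff k ≠ 0 → P.coeff l ≠ 0 →
        ‖P.coeff k‖ * ‖y - b‖ ^ k ≠ ‖P.coeff l‖ * ‖y - b‖ ^ l := by
      intro k l hkl hk hl he
      obtain ⟨d, rfl⟩ := Nat.exists_eq_add_of_lt hkl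
      have hl' := (Polynomial.le_natDegree_of_ne_zero hl).trans_lt hdeg
      refine h.ram_pow h4 ((h2 k).div (h2 (k + d + 1))) (k := d + 1)
        (Nat.not_dvd_of_pos_of_lt (by omega) (by omega)) ?_
      have := h.xpos
      rw [norm_div, eq_div_iff (norm_pos_iff.2 hl).ne']
      refine mul_right_cancel₀ (pow_pos this k).ne' ?_
      rw [he]; ring
    refine ortho (fun k l hkl hk hl => ?_) n
    rcases lt_or_gt_of_ne hkl with h' | h'
    · exact key k l h' hk hl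
    · exact (key l k h' hl hk).symm
  · have hinj := T.inj hA
    refine interp_le (O := Finset.univ) hinj.injOn (by simpa [Trans.card] using h1)
      (norm_nonneg _) (norm_nonneg _) (fun i _ => (niso _ _).le) (fun i _ j _ hij => ?_)
      (fun i _ => by rw [h3 _ (T.mem i), niso]) n
    have hm := A.mul_mem (A.inv_mem (T.mem j)) (T.mem i)
    have h5 : T.r i (y - b) - T.r j (y - b) = T.r j (((T.r j)⁻¹ * T.r i) y - y) := by
      rw [map_sub, map_sub, map_sub, h.fb _ (T.mem i), h.fb _ (T.mem j), ← AlgEquiv.mul_apply,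
        mul_inv_cancel_left]
      ring
    rw [h5, niso, h.toKum.norm_eq hm fun h' => hij (T.uniq j i ⟨hm, h'⟩), ← h.eq, h4, mul_one]

lemma deep {σ : LA p} (hσ : σ ∈ A) : Deep σ (A ⊓ St ℚ_[p] y) ϑ := by
  intro x hx
  obtain ⟨P, -, -, h3, h4⟩ := h.expand hx
  have h5 := h3 1 A.one_mem
  rw [AlgEquiv.one_apply, AlgEquiv.one_apply] at h5
  have := eval_sub_le (P := P) (P' := P) (x := y - b) (x' := σ (y - b)) h.pos.le (norm_nonneg x) h4
    (fun k => by simp only [sub_self, norm_zero]; exact mul_nonneg h.pos.le (norm_nonneg _))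
    le_rfl (niso _ _).le (by
      have : σ (y - b) - (y - b) = σ y - y := by rw [map_sub, h.fb σ hσ]; ring
      rw [this, mul_comm, h.eq]; exact h.toKum.norm_le hσ)
  rwa [h3 σ hσ, h5] at this

lemma gain : Gain A (A ⊓ St ℚ_[p] y) (ϑ ^ (p - 1)) := by
  obtain ⟨T, hT⟩ := h.toKum.idx
  refine ⟨T, fun x hx => ?_⟩
  obtain ⟨P, h1, -, h3, h4⟩ := h.expand hx
  have h5 := h.toKum.tr_poly h.nt T (Q := P.comp (X - C b)) (by
    rwa [Polynomial.natDegree_comp, Polynomial.natDegree_X_sub_C, mul_one])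
  have h6 : T.sum (fun σ => σ x) = p * P.eval (-b) := by
    simp only [Polynomial.eval_comp, Polynomial.eval_sub, Polynomial.eval_X, Polynomial.eval_C,
      zero_sub] at h5
    rw [← h5]
    refine Finset.sum_congr rfl fun i _ => ?_
    beta_reduce
    rw [← h3 _ (T.mem i), map_sub, h.fb _ (T.mem i)]
  have hb' : ‖b‖ ≤ ‖y‖ := by
    have : b = y - (y - b) := by ring
    rw [this]; exact nsub_le le_rfl h.xle
  have hx0 := h.xpos
  have hy0 := norm_pos_iff.2 h.ne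
  have h7 : ‖P.eval (-b)‖ ≤ (‖y‖ / ‖y - b‖) ^ (p - 1) * ‖x‖ := by
    refine eval_le (by positivity) fun k => ?_
    by_cases hk : P.coeff k = 0
    · rw [hk, norm_zero, zero_mul]; positivity
    have hk' := (Polynomial.le_natDegree_of_ne_zero hk).trans_lt h1
    calc ‖P.coeff k‖ * ‖-b‖ ^ k ≤ ‖P.coeff k‖ * ‖y‖ ^ k := by rw [norm_neg]; gcongr
      _ = (‖y‖ / ‖y - b‖) ^ k * (‖P.coeff k‖ * ‖y - b‖ ^ k) := by rw [div_pow]; field_simp
      _ ≤ _ := mul_le_mul (pow_le_pow_right₀ ((one_le_div hx0).2 h.xle) (by omega)) (h4 k)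
          (by positivity) (by positivity)
  rw [h6, norm_mul]
  refine (mul_le_mul_of_nonneg_left h7 (norm_nonneg _)).trans (le_of_eq ?_)
  rw [← mul_assoc, ← h.cyc.b0, ← mul_pow, mul_div_assoc', ← h.eq, mul_div_cancel_left₀ _ hx0.ne']

lemma nrm (T : Trans A (A ⊓ St ℚ_[p] y)) {x : Om p} (hx : Fx (A ⊓ St ℚ_[p] y) x) :
    Rel ϑ (T.prod fun σ => σ x) (x ^ p) := by
  have := Rel.prod Finset.univ (f := fun i => T.r i x) (g := fun _ => x)
    (fun i _ => h.deep (T.mem i) x hx) h.pos.le h.le_one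
  rwa [Finset.prod_const, Finset.card_univ, ← Trans.card, h.toKum.card_eq h.nt T] at this

lemma two_step {σ : LA p} {η η' : ℝ} (hσ : Deep σ A η) (h1 : ϑ ≤ η) (h2 : η < 1)
    (h3 : η ≤ η' ^ p) (h4 : ‖z 1 - 1‖ ≤ η') : Deep σ (A ⊓ St ℚ_[p] y) η' := by
  intro x hx
  obtain ⟨T, -⟩ := h.toKum.idx
  have h0 : 0 ≤ η := h.pos.le.trans h1
  have h5 := (h.nrm T hx).mono h1
  have h6 : Rel η (σ x ^ p) (σ (T.prod fun σ => σ x)) := by
    have := h5.symm h2
    unfold Rel at this ⊢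
    rwa [← map_pow, ← map_sub, niso, niso]
  exact ((h6.trans (hσ _ (T.prod_fx hx)) h0 h2.le).trans h5 h0 h2.le).root hp.out (norm_nonneg _)
    h.cyc.b0 h2.le ((norm_nonneg _).trans h4) h3 h4

lemma lift {σ : LA p} {η η' : ℝ} (hσ : Deep σ A η) (h0 : 0 ≤ η) (h1 : η ≤ η')
    (h3 : η ≤ η' ^ p) : ∃ τ ∈ A, Deep (σ * τ) (A ⊓ St ℚ_[p] y) η' := by
  obtain ⟨T, -⟩ := h.toKum.idx
  have hcard := h.toKum.card_eq h.nt T
  have hfx : Fx (A ⊓ St ℚ_[p] y) (y - b) :=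
    ((Fx.st y).mono inf_le_right).sub (h.fb.mono inf_le_left)
  have h0' : 0 ≤ η' := h0.trans h1
  have h5 := eval_sub_le (P := T.poly (y - b)) (P' := (T.poly (y - b)).map (σ : Om p →+* Om p))
    (x := y - b) (x' := y - b) h0 (by positivity)
    (fun n => poly_coeff_le T (y - b) (norm_nonneg (y - b)) n)
    (fun n => by rw [Polynomial.coeff_map]; exact hσ _ (T.poly_coeff hfx n)) le_rfl le_rfl
    (by rw [sub_self, norm_zero]; positivity)
  have h6 : (T.poly (y - b)).eval (y - b) = 0 := T.poly_eval_self hfx A.one_mem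
  rw [h6, sub_zero, T.poly_map, max_self, Polynomial.eval_prod, norm_prod] at h5
  obtain ⟨i, hi⟩ : ∃ i, ‖σ (T.r i (y - b)) - (y - b)‖ ≤ η' * ‖y - b‖ := by
    by_contra hc
    push Not at hc
    have h7 : ∏ _i : T.ι, (η' * ‖y - b‖) < ∏ i, ‖eval (y - b) (X - C (σ (T.r i (y - b))))‖ := by
      rcases h0'.lt_or_eq with h8 | h8
      · refine Finset.prod_lt_prod_of_nonempty (fun _ _ => mul_pos h8 h.xpos) (fun i _ => ?_)
          ⟨T.idx A.one_mem, Finset.mem_univ _⟩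
        rw [Polynomial.eval_sub, Polynomial.eval_X, Polynomial.eval_C, norm_sub_rev (y - b)]
        exact hc i
      · rw [← h8, zero_mul, Finset.prod_const, Finset.card_univ, ← Trans.card,
          zero_pow T.card_pos.ne']
        refine Finset.prod_pos fun i _ => ?_
        rw [Polynomial.eval_sub, Polynomial.eval_X, Polynomial.eval_C, norm_sub_rev]
        exact lt_of_le_of_lt (by positivity) (hc i)
    rw [Finset.prod_const, Finset.card_univ, ← Trans.card, mul_pow] at h7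
    rw [hcard] at h5 h7
    exact absurd (h7.trans_le h5) (not_lt.2 (mul_le_mul_of_nonneg_right h3 (by positivity)))
  refine ⟨T.r i, T.mem i, fun x hx => ?_⟩
  obtain ⟨P, -, h7, h8, h9⟩ := h.expand hx
  have h10 := h8 1 A.one_mem
  rw [AlgEquiv.one_apply, AlgEquiv.one_apply] at h10
  have := eval_sub_le (P := P) (P' := P.map (σ : Om p →+* Om p)) (x := y - b)
    (x' := σ (T.r i (y - b))) h0' (norm_nonneg x) h9
    (fun n => by rw [Polynomial.coeff_map]; exact (hσ _ (h7 n)).mono h1) le_rfl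
    (by rw [niso, niso]) hi
  rw [h10, Polynomial.eval_map] at this
  have h11 : eval₂ (σ : Om p →+* Om p) (σ (T.r i (y - b))) P = σ (P.eval (T.r i (y - b))) :=
    Polynomial.eval₂_at_apply (σ : Om p →+* Om p) _
  rw [h11, h8 _ (T.mem i)] at this
  exact this

end Lay

end Pool.Agent.Lib.MP_f61260_nt
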