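import Pool.Agent.Lib.MP_f61260_nt.Glob1
import Pool.Agent.Lib.MP_f61260_nt.Loc2

set_option autoImplicit false
set_option maxHeartbeats 400000

namespace Pool.Agent.Lib.MP_f61260_nt

open Polynomial Real

lemma gauss_le {K : Type} [NormedField K] [IsUltrametricDist K] {ι : Type} (s : Finset ι)
    (y : ι → K) (a : K) (h : ∀ n, ‖(C a * ∏ i ∈ s, (X - C (y i))).coeff n‖ ≤ 1) :
    ‖a‖ * ∏ i ∈ s, max 1 ‖y i‖ ≤ 1 := by
  classical
  let v := NormedField.toAbsoluteValue K
  have hna : IsNonarchimedean v := IsUltrametricDist.norm_add_le_max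
  have h1 : ∀ s : Finset ι, ∏ i ∈ s, max 1 ‖y i‖ ≤ (∏ i ∈ s, (X - C (y i))).gaussNorm v 1 := by
    intro s
    induction s using Finset.induction_on with
    | empty => rw [Finset.prod_empty, Finset.prod_empty, ← C_1, gaussNorm_C]; simp
    | insert a s ha ih =>
      rw [Finset.prod_insert ha, Finset.prod_insert ha, gaussNorm_mul hna one_pos]
      refine mul_le_mul (max_le ?_ ?_) ih (by positivity) (gaussNorm_nonneg _ _ zero_le_one)
      · refine le_trans (le_of_eq ?_) (le_gaussNorm v (X - C (y a)) zero_le_one 1)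
        simp [Polynomial.coeff_C]
      · refine le_trans (le_of_eq ?_) (le_gaussNorm v (X - C (y a)) zero_le_one 0)
        simp only [Polynomial.coeff_sub, Polynomial.coeff_X_zero, Polynomial.coeff_C_zero,
          zero_sub, pow_zero, mul_one]
        exact (norm_neg _).symm
  obtain ⟨n, hn⟩ := exists_eq_gaussNorm v 1 (C a * ∏ i ∈ s, (X - C (y i)))
  rw [gaussNorm_mul hna one_pos, gaussNorm_C, one_pow, mul_one] at hn
  exact (mul_le_mul_of_nonneg_left (h1 s) (norm_nonneg a)).trans (hn.le.trans (h n))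

lemma mahler_pt {ι : Type} [Fintype ι] (y : ι → Qb) {f : ℤ[X]} {a : ℤ} (ha : a ≠ 0)
    (h : f.map (Int.castRingHom Qb) = C (a : Qb) * ∏ i, (X - C (y i))) :
    ∑ i, lam (y i) ≤ log (f.map (Int.castRingHom ℂ)).mahlerMeasure := by
  classical
  have ha' : (a : Qb) ≠ 0 := by exact_mod_cast ha
  have hmap : ∀ {K : Type} [Field K] (φ : Qb →+* K),
      f.map (Int.castRingHom K) = C (φ a) * ∏ i, (X - C (φ (y i))) := fun φ => by
    have := congrArg (Polynomial.map φ) h
    rw [Polynomial.map_map, RingHom.ext_int (φ.comp _) (Int.castRingHom _)] at this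
    simpa [Polynomial.map_prod] using this
  have hlog : ∀ v, log (av v a) + ∑ i, log⁺ (av v (y i)) =
      log (av v a * ∏ i, max 1 (av v (y i))) := fun v => by
    rw [log_mul (av_pos v ha').ne' (by positivity), log_prod fun i _ => by positivity]
    simp only [posLog_eq_log_max_one (av_nonneg _ _)]
  have h1 : ∀ v, log (av v a) + ∑ i, log⁺ (av v (y i)) ≤
      Pi.single (M := fun _ => ℝ) none (log (f.map (Int.castRingHom ℂ)).mahlerMeasure) v := by
    rintro (_ | ⟨l, hl⟩)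
    · rw [Pi.single_eq_same, hlog, hmap (algebraMap Qb ℂ), mahlerMeasure_mul, mahlerMeasure_const]
      refine le_of_eq (congrArg log (congrArg₂ _ rfl ?_))
      induction (Finset.univ : Finset ι) using Finset.induction_on with
      | empty => simp
      | insert a s ha ih =>
        rw [Finset.prod_insert ha, Finset.prod_insert ha, mahlerMeasure_mul, mahlerMeasure_X_sub_C,
          ih]
        rfl
    · have : Fact l.Prime := ⟨hl⟩
      rw [Pi.single_eq_of_ne (by simp), hlog]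
      refine log_nonpos (mul_nonneg (av_nonneg _ _) (by positivity))
        (gauss_le Finset.univ (fun i => io l (y i)) (io l a) fun n => ?_)
      have := hmap (io l).toRingHom
      simp only [AlgHom.toRingHom_eq_coe, RingHom.coe_coe] at this
      rw [← this, Polynomial.coeff_map]
      exact IsUltrametricDist.norm_intCast_le_one _ _
  have hf' : Function.HasFiniteSupport fun v => ∑ i, log⁺ (av v (y i)) := by fun_prop
  have := finsum_le_finsum' ((fin_mu (a : Qb)).add hf')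
    ((Set.finite_singleton none).subset Pi.support_single_subset) h1
  simp only [Pi.add_apply] at this
  rw [finsum_add_distrib (fin_mu _) hf', finsum_sum_comm _ _ fun i _ => fin_lam (y i),
    finsum_eq_single (Pi.single (M := fun _ => ℝ) none _) none fun x hx => Pi.single_eq_of_ne hx _,
    Pi.single_eq_same] at this
  have h2 : mu (a : Qb) = 0 := by simpa using mu_rat a
  rw [mu] at h2
  rwa [h2, zero_add] at this

theorem ht_le_mahler {α : Qb} {f : ℤ[X]} (hf : Irreducible f) (hα : aeval α f = 0) :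
    ht α ≤ log (f.map (Int.castRingHom ℂ)).mahlerMeasure / f.natDegree := by
  classical
  have hf0 := hf.ne_zero
  have hdeg : 0 < f.natDegree := Polynomial.natDegree_pos_of_aeval_root hf0 hα
    fun x hx => by simpa using hx
  have hinj : Function.Injective (Int.castRingHom Qb) := Int.cast_injective
  set F := f.map (Int.castRingHom Qb) with hF
  have hF0 : F ≠ 0 := (Polynomial.map_ne_zero_iff hinj).2 hf0
  have hs := IsAlgClosed.splits F
  obtain ⟨ι, _, y, h1, hcard⟩ : ∃ (ι : Type) (_ : Fintype ι) (y : ι → Qb),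
      F = C (f.leadingCoeff : Qb) * ∏ x, (X - C (y x)) ∧ Fintype.card ι = f.natDegree := by
    refine ⟨F.roots, inferInstance, fun x => (x : Qb), ?_, ?_⟩
    · rw [Finset.prod, Multiset.map_univ F.roots fun x => X - C x]
      conv_lhs => rw [hs.eq_prod_roots]
      rw [hF, Polynomial.leadingCoeff_map_of_injective hinj]
      rfl
    · rw [Multiset.card_coe, ← hs.natDegree_eq_card_roots, hF,
        Polynomial.natDegree_map_eq_of_injective hinj]
  have h2 : ∀ x, ht (y x) = ht α := by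
    intro x
    have hq := (Polynomial.IsPrimitive.Int.irreducible_iff_irreducible_map_cast
      (hf.isPrimitive hdeg.ne')).1 hf
    have h3 : ∀ z : Qb, aeval z (f.map (Int.castRingHom ℚ)) = aeval z f := fun z =>
      Polynomial.aeval_map_algebraMap ℚ z f
    obtain ⟨σ, hσ⟩ := minpoly.exists_algEquiv_of_root' (K := ℚ) (x := y x)
      (Algebra.IsAlgebraic.isAlgebraic α) (by
        rw [← minpoly.eq_of_irreducible hq (by rw [h3, hα]), map_mul, h3]
        have : F.eval (y x) = 0 := by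
          rw [h1, Polynomial.eval_mul, Polynomial.eval_prod,
            Finset.prod_eq_zero (Finset.mem_univ x) (by simp), mul_zero]
        rw [hF, Polynomial.eval_map] at this
        rw [Polynomial.aeval_def, RingHom.ext_int (algebraMap ℤ Qb) (Int.castRingHom Qb), this,
          zero_mul])
    rw [← hσ, ht_conj]
  obtain ⟨V, ⟨T⟩, hV⟩ := trG y
  have h3 : ∀ i, ∑ x, lam (T.r i (y x)) ≤ log (f.map (Int.castRingHom ℂ)).mahlerMeasure := by
    intro i
    refine mahler_pt _ (Polynomial.leadingCoeff_ne_zero.2 hf0) ?_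
    have := congrArg (Polynomial.map (T.r i : Qb →+* Qb)) h1
    rw [hF, Polynomial.map_map, RingHom.ext_int (RingHom.comp _ _) (Int.castRingHom _)] at this
    simpa [Polynomial.map_prod] using this
  have h4 := Finset.sum_le_card_nsmul Finset.univ _ _ fun i _ => h3 i
  have h5 : ∀ x, ∑ i, lam (T.r i (y x)) = T.card * ht α := fun x =>
    (ht_eq T (hV x)).trans (by rw [h2])
  rw [Finset.sum_comm, Finset.sum_congr rfl fun x _ => h5 x,
    Finset.sum_const, Finset.card_univ, Finset.card_univ, hcard, nsmul_eq_mul,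
    nsmul_eq_mul, mul_left_comm] at h4
  rw [le_div_iff₀ (by exact_mod_cast hdeg), mul_comm]
  exact le_of_mul_le_mul_left h4 (card_posR T)

lemma res_ex {p : ℕ} [Fact p.Prime] (σ : LA p) : ∃ g : GA, ∀ x, io p (g x) = σ (io p x) := by
  letI : Algebra Qb (Om p) := (io p).toRingHom.toAlgebra
  have : IsScalarTower ℚ Qb (Om p) := IsScalarTower.of_algebraMap_eq' (RingHom.ext_rat _ _)
  exact ⟨AlgHom.restrictNormal' ((σ : Om p →+* Om p).toRatAlgHom) Qb, fun x =>
    AlgHom.restrictNormal_commutes ((σ : Om p →+* Om p).toRatAlgHom) Qb x⟩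

/-- root of unity -/
def Tor (x : Qb) : Prop := ∃ n : ℕ, 0 < n ∧ x ^ n = 1

lemma Tor.mul {x y : Qb} (h : Tor x) (h' : Tor y) : Tor (x * y) := by
  obtain ⟨n, hn, h⟩ := h
  obtain ⟨m, hm, h'⟩ := h'
  exact ⟨n * m, Nat.mul_pos hn hm, by
    rw [mul_pow, pow_mul, h, mul_comm n, pow_mul, h', one_pow, one_pow, one_mul]⟩

lemma Tor.prod {ι : Type} (s : Finset ι) {f : ι → Qb} (h : ∀ i ∈ s, Tor (f i)) :
    Tor (∏ i ∈ s, f i) :=
  Finset.prod_induction _ _ (fun _ _ => Tor.mul) ⟨1, one_pos, one_pow 1⟩ h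

lemma Tor.ht {x : Qb} (h : Tor x) (y : Qb) : ht (x * y) = ht y :=
  let ⟨_, hn, h⟩ := h; ht_root hn h y

lemma Tor.of_pow {x : Qb} {n : ℕ} (hn : 0 < n) (h : Tor (x ^ n)) : Tor x :=
  let ⟨m, hm, h⟩ := h; ⟨n * m, Nat.mul_pos hn hm, by rwa [pow_mul]⟩

lemma tor_of_conj {w : GA} {a : Qb} (ha : a ≠ 0) {e : ℕ} (he : 1 < e) (h : w a = a ^ e) :
    Tor a := by
  have h1 : ∀ n : ℕ, (w ^ n) a = a ^ e ^ n := fun n => by
    induction n with
    | zero => simp
    | succ n ih => rw [pow_succ', AlgEquiv.mul_apply, ih, map_pow, h, ← pow_mul, pow_succ']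
  obtain ⟨_, hT⟩ := fiG a
  obtain ⟨N, hN, hN'⟩ := hT.exists_pow (Subgroup.mem_top w)
  have h2 := Nat.one_lt_pow hN.ne' he
  refine ⟨e ^ N - 1, by omega, mul_right_cancel₀ ha ?_⟩
  rw [← pow_succ, Nat.sub_add_cancel h2.le, ← h1, one_mul]
  exact hN'

/-- powers of distinct conjugates stay distinct -/
def Rig (U : Subgroup GA) (α : Qb) : Prop :=
  ∀ u ∈ U, ∀ n : ℕ, 0 < n → u (α ^ n) = α ^ n → u α = α

lemma exists_rig {U : Subgroup GA} {α : Qb} (hα : α ≠ 0) {D : ℕ} (h : IdxLe U (St ℚ α) D) :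
    ∃ (e D1 : ℕ) (ξ : Qb), 0 < e ∧ 0 < D1 ∧ e * D1 ≤ D ∧ Tor ξ ∧ IdxLe U (St ℚ (ξ * α ^ e)) D1 ∧
      Rig U (ξ * α ^ e) := by
  let H : Subgroup GA :=
    { carrier := {u | u ∈ U ∧ ∃ n : ℕ, 0 < n ∧ u (α ^ n) = α ^ n}
      one_mem' := ⟨U.one_mem, 1, one_pos, rfl⟩
      mul_mem' := by
        rintro u u' ⟨h1, n, hn, h2⟩ ⟨h1', n', hn', h2'⟩
        refine ⟨U.mul_mem h1 h1', n * n', Nat.mul_pos hn hn', ?_⟩
        rw [AlgEquiv.mul_apply, mul_comm, pow_mul, map_pow u', h2', ← pow_mul, mul_comm, pow_mul,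
          map_pow, h2]
      inv_mem' := by
        rintro u ⟨h1, n, hn, h2⟩
        exact ⟨U.inv_mem h1, n, hn, mem_St.1 ((St ℚ (α ^ n)).inv_mem h2)⟩ }
  have hH : H ≤ U := fun u hu => hu.1
  obtain ⟨T1, -⟩ := h.restrict (A' := H) le_rfl fun u hu =>
    ⟨hu.1, 1, one_pos, by rw [pow_one]; exact hu.2⟩
  obtain ⟨T2, -⟩ := h.restrict (A' := H ⊓ St ℚ α) hH le_rfl
  obtain ⟨T, hT⟩ := h
  have h1 : T2.card * T1.card ≤ D := by
    rw [mul_comm, ← Trans.comp_card T1 T2 hH inf_le_left]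
    refine le_trans (le_of_eq (Trans.card_eq _ (T.chg (A' := H ⊓ St ℚ α) fun σ hσ =>
      ⟨fun h => ⟨⟨hσ, 1, one_pos, by rw [pow_one]; exact h⟩, h⟩, fun h => h.2⟩))) hT
  have h2 : (∏ i, T2.r i α / α) * α ^ T2.card = T2.prod fun σ => σ α := by
    rw [Finset.prod_div_distrib, Finset.prod_const, Finset.card_univ, ← Trans.card,
      div_mul_cancel₀ _ (pow_ne_zero _ hα), Trans.prod]
  have h3 : Fx H ((∏ i, T2.r i α / α) * α ^ T2.card) :=
    h2 ▸ T2.prod_fx ((Fx.st α).mono inf_le_right)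
  have h4 : Tor (∏ i, T2.r i α / α) := Tor.prod _ fun i _ => by
    obtain ⟨-, n, hn, h⟩ := T2.mem i
    exact ⟨n, hn, by rw [div_pow, ← map_pow, h, div_self (pow_ne_zero _ hα)]⟩
  refine ⟨T2.card, T1.card, _, T2.card_pos, T1.card_pos, h1, h4,
    IdxLe.restrict ⟨T1, le_rfl⟩ le_rfl (inf_le_right.trans h3.le), fun u hu n hn h => ?_⟩
  obtain ⟨N, hN, h5⟩ := h4
  refine h3 u ⟨hu, T2.card * (n * N), Nat.mul_pos T2.card_pos (Nat.mul_pos hn hN), ?_⟩
  have := congrArg (· ^ N) h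
  simp only [← map_pow, ← pow_mul] at this
  rwa [mul_pow, mul_comm n, pow_mul, h5, one_pow, one_mul, ← pow_mul, mul_comm N] at this

lemma prod_le_of_inj {ι κ : Type} (s : Finset ι) (t : Finset κ) (ψ : κ → ι)
    (hψ : Set.InjOn ψ t) (hm : ∀ k ∈ t, ψ k ∈ s) {f R : ι → ℝ} (h0 : ∀ i, 0 ≤ f i)
    (h1 : ∀ i, f i ≤ R i) {c : ℝ} (h : ∏ k ∈ t, f (ψ k) ≤ c * ∏ k ∈ t, R (ψ k)) :
    ∏ i ∈ s, f i ≤ c * ∏ i ∈ s, R i := by
  classical
  have hs : t.image ψ ⊆ s := Finset.image_subset_iff.2 hm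
  rw [← Finset.prod_sdiff hs, ← Finset.prod_sdiff hs, Finset.prod_image hψ, Finset.prod_image hψ,
    mul_left_comm]
  exact mul_le_mul (Finset.prod_le_prod (fun i _ => h0 i) fun i _ => h1 i) h
    (Finset.prod_nonneg fun _ _ => h0 _) (Finset.prod_nonneg fun i _ => (h0 i).trans (h1 i))

lemma pn0 {ι K : Type} [SeminormedAddGroup K] {s : Finset ι} {f : ι → K} : 0 ≤ ∏ i ∈ s, ‖f i‖ :=
  Finset.prod_nonneg fun _ _ => norm_nonneg _

lemma m10 {t : ℝ} : 0 ≤ max 1 t := le_max_of_le_left zero_le_one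

lemma max_le_mul (a b : ℝ) : max a b ≤ max 1 a * max 1 b := max_le
  ((le_max_right _ _).trans (le_mul_of_one_le_right m10 (le_max_left _ _)))
  ((le_max_right _ _).trans (le_mul_of_one_le_left m10 (le_max_left _ _)))

variable {p : ℕ} [hp : Fact p.Prime]

lemma np_exp (n : ℕ) : ‖(p : Om p)‖ ^ n = exp (-(n * log p)) := by
  rw [← mul_neg, exp_nat_mul, exp_neg, exp_log (Nat.cast_pos.2 hp.out.pos), np_eq]

lemma Rig.conj {U : Subgroup GA} {α : Qb} (h : Rig U α) {x : GA}
    (hx : ∀ u ∈ U, x⁻¹ * u * x ∈ U) : Rig U (x α) := fun u hu n hn h' => by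
  have := h _ (hx u hu) n hn (by
    rw [AlgEquiv.mul_apply, AlgEquiv.mul_apply, map_pow x, h', ← map_pow, ← AlgEquiv.mul_apply,
      inv_mul_cancel, AlgEquiv.one_apply])
  conv_rhs => rw [← this]
  simp only [← AlgEquiv.mul_apply]
  congr 1
  group

lemma poly_mapK {K : Type} [Field K] {B A : Subgroup GA} (T : Trans B A) (x : Qb)
    (φ : Qb →+* K) : (T.poly x).map φ = ∏ i, (X - C (φ (T.r i x))) := by
  simp [Trans.poly, Polynomial.map_prod]

lemma block {U : Subgroup GA} {w : GA} {η : ℝ} {E : ℕ} (h0 : 0 ≤ η)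
    (hη : η ^ p ^ E ≤ ‖(p : Om p)‖) (hw : ∀ x, Fx U x → Rel η (io p (w x)) (io p x))
    (iso : ∀ x, ‖io p (w x)‖ = ‖io p x‖) {β : Qb} (T : Trans U (St ℚ β)) :
    ∏ k, ‖io p (β ^ p ^ E) - io p (w (T.r k (β ^ p ^ E)))‖ ≤
      ‖(p : Om p)‖ * ∏ k, max ‖io p (β ^ p ^ E)‖ ‖io p (w (T.r k (β ^ p ^ E)))‖ := by
  have h1 := eval_sub_le (P := (T.poly β).map (io p).toRingHom)
    (P' := (T.poly β).map ((io p).toRingHom.comp (w : Qb →+* Qb))) (x := io p β) (x' := io p β)
    (R := ‖io p β‖) (C := ∏ k, max ‖io p β‖ ‖io p (T.r k β)‖) h0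
    (Finset.prod_nonneg fun _ _ => le_max_of_le_left (norm_nonneg _))
    (fun n => by rw [poly_mapK]; exact coeff_prod_le _ _ (norm_nonneg _) n)
    (fun n => by
      rw [Polynomial.coeff_map, Polynomial.coeff_map]; exact hw _ (T.poly_coeff (Fx.st β) n))
    le_rfl le_rfl (by rw [sub_self, norm_zero]; exact mul_nonneg h0 (norm_nonneg _))
  have h2 : ((T.poly β).map (io p).toRingHom).eval (io p β) = 0 := by
    have h3 : (T.poly β).eval β = 0 := T.poly_eval_self (Fx.st β) U.one_mem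
    rw [Polynomial.eval_map]
    exact (Polynomial.eval₂_at_apply (io p).toRingHom β).trans (by rw [h3, map_zero])
  rw [h2, sub_zero, poly_mapK, Polynomial.eval_prod, norm_prod] at h1
  have hη1 : η ≤ 1 := by
    by_contra hc
    exact absurd (hη.trans np_lt.le) (not_le.2 (one_lt_pow₀ (not_le.1 hc)
      (pow_pos hp.out.pos _).ne'))
  have := amp_iter hp.out Finset.univ (y := fun _ => io p β) (z := fun k => io p (w (T.r k β)))
    (R := fun k => max ‖io p β‖ ‖io p (w (T.r k β))‖) (fun _ _ => le_max_left _ _)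
    (fun _ _ => le_max_right _ _) (fun t => max (η ^ p ^ t) ‖(p : Om p)‖)
    (fun t => le_max_of_le_right (norm_nonneg _))
    (fun t => ⟨by
      rcases le_total (η ^ p ^ t) ‖(p : Om p)‖ with h | h
      · rw [max_eq_right h]
        exact le_max_of_le_right (pow_le_of_le_one (norm_nonneg _) np_lt.le hp.out.ne_zero)
      · rw [max_eq_left h, ← pow_mul, ← pow_succ]; exact le_max_left _ _,
      le_max_of_le_right (mul_le_of_le_one_right (norm_nonneg _)
        (max_le (pow_le_one₀ h0 hη1) np_lt.le))⟩)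
    (by
      simp only [iso]
      refine le_trans (le_of_eq ?_) (h1.trans (mul_le_mul_of_nonneg_right ?_
        (Finset.prod_nonneg fun _ _ => le_max_of_le_left (norm_nonneg _))))
      · simp
      · simp) E
  simp only [max_eq_right hη] at this
  simp only [map_pow, norm_pow]
  refine this.trans (le_of_eq ?_)
  congr 1
  exact Finset.prod_congr rfl fun k _ =>
    (pow_left_monotoneOn (n := p ^ E)).map_max (norm_nonneg _) (norm_nonneg _)

/-- The discriminant argument with a deeply ramified automorphism. -/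
theorem core {G0 U W : Subgroup GA} {d D N E j T0 : ℕ} (hG : IdxLe ⊤ G0 d) (hUW : U ≤ W)
    (hW : W ≤ G0) (nU : ∀ τ ∈ G0, ∀ u ∈ U, τ⁻¹ * u * τ ∈ U)
    (nW : ∀ τ ∈ G0, ∀ u ∈ W, τ⁻¹ * u * τ ∈ W) {g : GA} (hg : g ∈ W) {η : ℝ} (h0 : 0 ≤ η)
    (hη : η ^ p ^ E ≤ ‖(p : Om p)‖) (hw : ∀ x, Fx U x → Rel η (io p (g x)) (io p x))
    (iso : ∀ x, ‖io p (g x)‖ = ‖io p x‖) (hT0 : g ^ p ^ T0 ∈ U) {α c : Qb} (hc0 : c ≠ 0)
    (hc : ∀ u ∈ G0, ∃ ξ, Tor ξ ∧ u c = ξ * c) (hrig : Rig U α) (hD : IdxLe U (St ℚ α) D)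
    (hN : IdxLe W U N) {b : GA} (hb : b ∈ G0)
    (hgood : ∀ τ ∈ G0, ∃ τ' ∈ ({τ, b * τ} : Set GA), ∀ ν ∈ W, ∀ u ∈ U,
      (g ^ p ^ j) (ν (τ' (α ^ p ^ E))) ≠ u (ν (τ' (α ^ p ^ E)))) :
    (p ^ (j + 1) - 1 : ℝ) * log p ≤
      2 * d * (2 * log (N * D) + 2 * (N * D) * (p ^ E * ht (α * c))) := by
  classical
  set a := α ^ p ^ E with ha
  have hq := pow_pos hp.out.pos E
  obtain ⟨T, hT⟩ : IdxLe W (St ℚ a) (N * D) :=
    (hN.trans (hD.restrict le_rfl le_rfl) hUW inf_le_left).restrict le_rfl fun σ hσ => by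
      rw [mem_St, ha, map_pow, mem_St.1 hσ.2.2]
  let y : T.ι → Qb := fun i => T.r i a * c ^ p ^ E
  have hinj := T.inj (y := a) fun _ _ h => h
  have hy : Function.Injective y := fun i i' h =>
    hinj (mul_right_cancel₀ (pow_ne_zero _ hc0) h)
  obtain ⟨V, ⟨TV⟩, hV⟩ := trG fun o : Option T.ι => o.elim a y
  obtain ⟨T1, -⟩ := IdxLe.restrict (A' := G0 ⊓ V) ⟨TV, le_rfl⟩ (le_top : G0 ≤ ⊤) le_rfl
  let Good : GA → Prop := fun τ => ∀ ν ∈ W, ∀ u ∈ U, (g ^ p ^ j) (ν (τ a)) ≠ u (ν (τ a))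
  let gf : GA → ℝ := fun τ => if Good τ then T.card * ((p ^ (j + 1) - 1 : ℝ) * log p) else 0
  have hpw : ∀ l : ℕ, (∀ x, ‖io p ((g ^ l) x)‖ = ‖io p x‖) ∧
      ∀ x, Fx U x → Rel η (io p ((g ^ l) x)) (io p x) := by
    intro l
    induction l with
    | zero => exact ⟨fun _ => rfl, fun x _ => Rel.refl h0 _⟩
    | succ l ih =>
      refine ⟨fun x => by rw [pow_succ, AlgEquiv.mul_apply, ih.1, iso], fun x hx => ?_⟩
      have h1 := hw x hx
      have h2 := ih.2 x hx
      unfold Rel at h1 h2 ⊢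
      rw [← map_sub, ← ih.1, map_sub, map_sub, ← AlgEquiv.mul_apply, ← pow_succ] at h1
      rw [← sub_add_sub_cancel _ (io p ((g ^ l) x))]
      exact nadd_le h1 h2
  have hH : ∀ i, ht (y i) ≤ p ^ E * ht (α * c) := fun i => by
    obtain ⟨ξ, h1, h2⟩ := hc _ (hW (T.mem i))
    have : ξ * (T.r i α * c) = T.r i (α * c) := by rw [map_mul, h2]; ring
    change ht (T.r i (α ^ p ^ E) * c ^ p ^ E) ≤ _
    rw [map_pow, ← mul_pow, ht_pow, ← h1.ht, this, ht_conj]
    push_cast
    exact le_rfl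
  have key := vdm hy p hG (inf_le_left : G0 ⊓ V ≤ G0) (fun i => (hV (some i)).mono inf_le_right)
    T1 gf (fun τ hτ => by
      have hle : ∀ i i', ‖io p (τ (y i)) - io p (τ (y i'))‖ ≤
          max ‖io p (τ (y i))‖ ‖io p (τ (y i'))‖ := fun i i' =>
        nsub_le (le_max_left _ _) (le_max_right _ _)
      have hle' : ∀ i i', max ‖io p (τ (y i))‖ ‖io p (τ (y i'))‖ ≤
          max 1 ‖io p (τ (y i))‖ * max 1 ‖io p (τ (y i'))‖ := fun i i' => max_le_mul _ _
      by_cases hG : Good τ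
      swap
      · simp only [gf, if_neg hG, neg_zero, exp_zero, one_mul]
        exact Finset.prod_le_prod (fun _ _ => pn0) fun i _ =>
          Finset.prod_le_prod (fun _ _ => norm_nonneg _) fun i' _ => (hle i i').trans (hle' i i')
      have e1 : exp (-gf τ) = ∏ _i : T.ι, ‖(p : Om p)‖ ^ (p ^ (j + 1) - 1) := by
        simp only [gf, if_pos hG]
        rw [Finset.prod_const, Finset.card_univ, ← Trans.card, ← pow_mul, np_exp, Nat.cast_mul,
          Nat.cast_sub (Nat.one_le_pow _ _ hp.out.pos)]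
        push_cast
        ring_nf
      rw [e1, ← Finset.prod_mul_distrib]
      refine Finset.prod_le_prod (fun _ _ => pn0) fun i _ => ?_
      refine le_trans ?_ (mul_le_mul_of_nonneg_left (Finset.prod_le_prod
        (fun _ _ => le_max_of_le_left (norm_nonneg _)) fun i' _ => hle' i i')
        (pow_nonneg (norm_nonneg _) _))
      set β := τ (T.r i α) with hβ
      have hβa : β ^ p ^ E = τ (T.r i a) := by rw [hβ, ← map_pow, ← map_pow]
      obtain ⟨_, h1⟩ := fiG β
      obtain ⟨T2, -⟩ := h1.restrict (le_top : U ≤ ⊤) inf_le_right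
      have hex : ∀ x : ℕ × T2.ι, ∃ i', τ (T.r i' a) = (g ^ x.1) (T2.r x.2 (β ^ p ^ E)) := by
        intro x
        obtain ⟨i', hi'⟩ := T.ex_eq (Fx.st a) (W.mul_mem
          (nW τ hτ _ (W.mul_mem (W.pow_mem hg x.1) (hUW (T2.mem x.2)))) (T.mem i))
        refine ⟨i', ?_⟩
        rw [hi', hβa]
        simp only [← AlgEquiv.mul_apply]
        congr 1
        group
      choose ψ hψ using hex
      have hnot : ∀ l : ℕ, 0 < l → l < p ^ (j + 1) → ∀ u ∈ U,
          (g ^ l) (β ^ p ^ E) ≠ u (β ^ p ^ E) := by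
        intro l hl hl' u hu h
        let S : Subgroup GA :=
          { carrier := {x | x ∈ G0 ∧ ∃ u ∈ U, x (β ^ p ^ E) = u (β ^ p ^ E)}
            one_mem' := ⟨G0.one_mem, 1, U.one_mem, rfl⟩
            mul_mem' := by
              rintro x x' ⟨h1, u, hu, h2⟩ ⟨h1', u', hu', h2'⟩
              refine ⟨G0.mul_mem h1 h1', _, U.mul_mem (nU _ (G0.inv_mem h1) _ hu') hu, ?_⟩
              rw [AlgEquiv.mul_apply, h2', AlgEquiv.mul_apply, ← h2]
              simp only [← AlgEquiv.mul_apply]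
              congr 1
              group
            inv_mem' := by
              rintro x ⟨h1, u, hu, h2⟩
              refine ⟨G0.inv_mem h1, _, nU _ h1 _ (U.inv_mem hu), ?_⟩
              rw [AlgEquiv.mul_apply, h2]
              simp only [← AlgEquiv.mul_apply]
              congr 1
              group }
        have h1 : g ^ l ∈ S := ⟨hW (W.pow_mem hg _), u, hu, h⟩
        have h2 : g ^ p ^ T0 ∈ S := ⟨hW (W.pow_mem hg _), _, hT0, rfl⟩
        have h3 : g ^ l.gcd (p ^ T0) ∈ S := by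
          rw [← zpow_natCast, Nat.gcd_eq_gcd_ab, zpow_add, zpow_mul, zpow_mul, zpow_natCast,
            zpow_natCast]
          exact S.mul_mem (S.zpow_mem h1 _) (S.zpow_mem h2 _)
        obtain ⟨v, -, hv⟩ := (Nat.dvd_prime_pow hp.out).1 (Nat.gcd_dvd_right l (p ^ T0))
        have h4 : v ≤ j := Nat.lt_succ_iff.1 ((Nat.pow_lt_pow_iff_right hp.out.one_lt).1
          ((hv ▸ Nat.gcd_le_left _ hl).trans_lt hl'))
        obtain ⟨v', rfl⟩ := Nat.exists_eq_add_of_le h4
        obtain ⟨-, u', hu', h5⟩ := S.pow_mem h3 (p ^ v')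
        rw [hv, ← pow_mul, ← pow_add, hβa] at h5
        have h6 : τ (T.r i a) = (τ⁻¹⁻¹ * T.r i * τ⁻¹) (τ a) := by
          simp only [← AlgEquiv.mul_apply]
          congr 1
          group
        rw [h6] at h5
        exact hG _ (nW _ (G0.inv_mem hτ) _ (T.mem i)) u' hu' h5
      have hlt : ∀ l l' : ℕ, l < l' → l' < p ^ (j + 1) → ∀ u ∈ U, ∀ u' ∈ U,
          (g ^ l) (u (β ^ p ^ E)) ≠ (g ^ l') (u' (β ^ p ^ E)) := by
        intro l l' h1 h2 u hu u' hu' h
        obtain ⟨e, rfl⟩ := Nat.exists_eq_add_of_lt h1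
        rw [add_assoc, pow_add, AlgEquiv.mul_apply] at h
        refine hnot (e + 1) (by omega) (by omega) _ (U.mul_mem
          (nU _ (G0.inv_mem (hW (W.pow_mem hg (e + 1)))) _ (U.inv_mem hu')) hu) ?_
        rw [AlgEquiv.mul_apply, (g ^ l).injective h]
        simp only [← AlgEquiv.mul_apply]
        congr 1
        group
      refine prod_le_of_inj _ (Finset.Ico 1 (p ^ (j + 1)) ×ˢ Finset.univ) ψ ?_ ?_
        (fun _ => norm_nonneg _) (hle i) ?_
      · rintro ⟨l, k⟩ hx ⟨l', k'⟩ hx' h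
        simp only [Finset.coe_product, Set.mem_prod, Finset.mem_coe, Finset.mem_Ico] at hx hx'
        have h1 : (g ^ l) (T2.r k (β ^ p ^ E)) = (g ^ l') (T2.r k' (β ^ p ^ E)) := by
          rw [← hψ (l, k), ← hψ (l', k'), h]
        rcases lt_trichotomy l l' with h2 | rfl | h2
        · exact absurd h1 (hlt _ _ h2 hx'.1.2 _ (T2.mem k) _ (T2.mem k'))
        · have hm := U.mul_mem (U.inv_mem (T2.mem k)) (T2.mem k')
          have h3 : ((T2.r k)⁻¹ * T2.r k') (β ^ p ^ E) = β ^ p ^ E := by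
            rw [AlgEquiv.mul_apply, ← (g ^ l).injective h1, ← AlgEquiv.mul_apply, inv_mul_cancel,
              AlgEquiv.one_apply]
          rw [T2.uniq k k' (hrig.conj (nU _ (G0.mul_mem hτ (hW (T.mem i)))) _ hm _ hq h3)]
        · exact absurd h1.symm (hlt _ _ h2 hx.1.2 _ (T2.mem k') _ (T2.mem k))
      · rintro ⟨l, k⟩ hx
        simp only [Finset.mem_product, Finset.mem_Ico] at hx
        refine Finset.mem_erase.2 ⟨fun h => ?_, Finset.mem_univ _⟩
        refine hlt 0 l hx.1.1 hx.1.2 1 U.one_mem _ (T2.mem k) ?_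
        rw [← hψ (l, k), h, hβa]; rfl
      · rw [Finset.prod_product, Finset.prod_product, ← Nat.card_Ico, ← Finset.prod_const,
          ← Finset.prod_mul_distrib]
        refine Finset.prod_le_prod (fun _ _ => pn0) fun l _ => ?_
        have := mul_le_mul_of_nonneg_right (block h0 hη (hpw l).2 (hpw l).1 T2)
          (show 0 ≤ ∏ _k : T2.ι, ‖io p (τ (c ^ p ^ E))‖ from pn0)
        rw [mul_assoc, ← Finset.prod_mul_distrib, ← Finset.prod_mul_distrib] at this
        simp only [y, map_mul, hψ, ← hβa, ← sub_mul, norm_mul]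
        refine this.trans (le_of_eq ?_)
        congr 1
        exact Finset.prod_congr rfl fun k _ => max_mul_of_nonneg _ _ (norm_nonneg _)) hH
  have hlp : 0 ≤ (p ^ (j + 1) - 1 : ℝ) * log p :=
    mul_nonneg (sub_nonneg.2 (one_le_pow₀ (by exact_mod_cast hp.out.pos))) (log_natCast_nonneg _)
  have h1 : T1.card * (T.card * ((p ^ (j + 1) - 1 : ℝ) * log p)) ≤ 2 * T1.sum gf := by
    have hinv : RInv (G0 ⊓ V) gf := fun σ x hx => by
      have : x a = a := hV none x hx.2
      simp only [gf, Good, AlgEquiv.mul_apply, this]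
    rw [two_mul]
    nth_rewrite 2 [← T1.sum_lmul hinv hb]
    rw [Trans.sum, Trans.sum, ← Finset.sum_add_distrib, Trans.card, ← Finset.card_univ,
      ← nsmul_eq_mul]
    refine Finset.card_nsmul_le_sum _ _ _ fun i _ => ?_
    have h2 : ∀ τ, 0 ≤ gf τ := fun τ => by
      simp only [gf]; split_ifs
      · exact mul_nonneg (Nat.cast_nonneg _) hlp
      · exact le_rfl
    obtain ⟨τ', h3, h4⟩ := hgood _ (T1.mem i)
    have h5 : gf τ' = T.card * ((p ^ (j + 1) - 1 : ℝ) * log p) := if_pos h4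
    rcases h3 with rfl | rfl
    · rw [h5]; exact le_add_of_nonneg_right (h2 _)
    · rw [h5]; exact le_add_of_nonneg_left (h2 _)
  have h2 := card_posR T1
  have h3 := card_posR T
  have h4 : (T.card : ℝ) ≤ N * D := by exact_mod_cast hT
  have h5 := ht_nonneg (α * c)
  clear hη hw iso hpw
  change _ ≤ d * T1.card * (2 * T.card * log T.card + 2 * T.card ^ 2 * _) at key
  refine le_of_mul_le_mul_left (le_of_mul_le_mul_left (h1.trans ?_) h2) h3
  calc _ ≤ 2 * (d * T1.card * (2 * T.card * log T.card + 2 * T.card ^ 2 * (p ^ E * ht (α * c)))) :=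
        by gcongr
    _ = T1.card * (T.card * (2 * d * (2 * log T.card + 2 * T.card * (p ^ E * ht (α * c))))) := by
        ring
    _ ≤ _ := by gcongr

end Pool.Agent.Lib.MP_f61260_nt
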