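import Pool.Agent.Lib.MP_f61260_nt.Loc3

set_option autoImplicit false

namespace Pool.Agent.Lib.MP_f61260_nt

open Polynomial

variable {p : ℕ} [hp : Fact p.Prime] {z : ℕ → Om p} {A : Subgroup (LA p)} {y b : Om p} {ϑ : ℝ}

/-- quality of approximation of a Kummer generator -/
def App (z : ℕ → Om p) (A : Subgroup (LA p)) (y : Om p) (ϑ : ℝ) : Prop :=
  ∃ b, Fx A b ∧ ‖y - b‖ ≤ ‖y‖ ∧ ‖y - b‖ * ϑ ≤ ‖z 1 - 1‖ * ‖y‖

lemma App.mono (h : App z A y ϑ) {B : Subgroup (LA p)} (hB : B ≤ A) : App z B y ϑ :=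
  let ⟨b, h1, h2⟩ := h; ⟨b, h1.mono hB, h2⟩

lemma app_step (hK : Kum z A y) (hA : Fi A) {y' b' : Om p} {c : ℝ} (hL : Lay z A y' b' c)
    (hc : c ≤ ee z 1) (h : App z A y ϑ) {ϑ' : ℝ} (h0 : 0 < ϑ') (h1 : ϑ' ≤ 1)
    (h2 : ϑ' * ee z 2 ≤ ϑ) (h3 : ϑ' ^ p ≤ ϑ) : App z (A ⊓ St ℚ_[p] y') y ϑ' := by
  have hz := hK.cyc
  obtain ⟨b, hb, hb1, hb2⟩ := h
  by_cases h4 : ‖y - b‖ * ϑ' ≤ ‖z 1 - 1‖ * ‖y‖
  · exact ⟨b, hb.mono inf_le_left, hb1, h4⟩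
  rw [not_le] at h4
  have hβ : 0 < ‖z 1 - 1‖ * ‖y‖ := mul_pos (hz.b_pos 0) (norm_pos_iff.2 hK.ne)
  have hx : 0 < ‖y - b‖ := pos_of_mul_pos_left (hβ.trans h4) h0.le
  set t := ‖z 1 - 1‖ * ‖y‖ / ‖y - b‖ with ht
  have ht0 : 0 < t := div_pos hβ hx
  have ht1 : ‖y - b‖ * t = ‖z 1 - 1‖ * ‖y‖ := by rw [ht]; field_simp
  have ht2 : ϑ ≤ t := le_of_mul_le_mul_left (ht1 ▸ hb2) hx
  have ht3 : t < ϑ' := lt_of_mul_lt_mul_left (ht1 ▸ h4) hx.le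
  have h5 := hK.approx hb1 ht1
  obtain ⟨w, hw, hw'⟩ := hL.rperf hA (hc.trans_lt (hz.ee_lt 1)) (hK.fx.sub (hb.pow p))
  have hp1 : p = (p - 1) + 1 := by have := hp.out.pos; omega
  have h6 : ee z 2 ≤ t / ϑ' := by rw [le_div_iff₀ h0, mul_comm]; exact h2.trans ht2
  have h7 : t / ϑ' ≤ 1 := (div_le_one h0).2 ht3.le
  have h8 : (t / ϑ') ^ p ≤ 1 := pow_le_one₀ (by positivity) h7
  have h9 : Rel ((t / ϑ') ^ p) (w ^ p) ((y - b) ^ p) := by
    refine (hw'.mono ?_).trans (h5.mono ?_) (by positivity) h8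
    · refine hc.trans ?_
      rw [← hz.ee_pow 1]
      exact pow_le_pow_left₀ (hz.ee_pos _).le h6 _
    · rw [div_pow t, le_div_iff₀ (pow_pos h0 _)]
      have : t ^ p = t ^ (p - 1) * t := by rw [← pow_succ, ← hp1]
      rw [this]
      exact mul_le_mul_of_nonneg_left (h3.trans ht2) (by positivity)
  have h10 := h9.root hp.out (norm_nonneg _) hz.b0 h8 (by positivity) le_rfl
    (hz.b0_le_ee.trans ((hz.ee_mono one_le_two).trans h6))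
  have e : ‖y - (b + w)‖ = ‖w - (y - b)‖ := by rw [norm_sub_rev]; congr 1; ring
  refine ⟨b + w, (hb.mono inf_le_left).add hw, ?_, ?_⟩
  · rw [e]; exact (le_trans h10 (mul_le_of_le_one_left hx.le h7)).trans hb1
  · rw [e, ← ht1]
    refine (mul_le_mul_of_nonneg_right h10 h0.le).trans (le_of_eq ?_)
    field_simp

lemma app_iter {i0 : ℕ} (hK : Kum z (A ⊓ St ℚ_[p] (z i0)) y)
    (hL : ∀ i, i0 ≤ i → Fi (A ⊓ St ℚ_[p] (z i)) ∧
      ∃ b ϑ, Lay z (A ⊓ St ℚ_[p] (z i)) (z (i + 1)) b ϑ ∧ ϑ ≤ ee z 1) (l : ℕ) :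
    App z (A ⊓ St ℚ_[p] (z (i0 + p ^ 2 + l))) y (ee z (2 + l)) := by
  have hz := hK.cyc
  have step : ∀ i, i0 ≤ i → ∀ ϑ ϑ' : ℝ, App z (A ⊓ St ℚ_[p] (z i)) y ϑ → 0 < ϑ' → ϑ' ≤ 1 →
      ϑ' * ee z 2 ≤ ϑ → ϑ' ^ p ≤ ϑ → App z (A ⊓ St ℚ_[p] (z (i + 1))) y ϑ' := by
    intro i hi ϑ ϑ' h h0 h1 h2 h3
    obtain ⟨hfi, b, c, h4, h5⟩ := hL i hi
    rw [← hz.st_inf]
    exact app_step (hK.mono (inf_le_inf_left _ fun _ hσ => hz.fix_le hi hσ)) hfi h4 h5 h h0 h1 h2 h3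
  have h0 := hz.ee_pos 2
  have h1 := (hz.ee_lt 2).le
  have ph1 : ∀ u v, u + v = p ^ 2 → 1 ≤ v → App z (A ⊓ St ℚ_[p] (z (i0 + u))) y (ee z 2 ^ v) := by
    intro u
    induction u with
    | zero =>
      intro v hv _
      rw [zero_add] at hv
      refine ⟨0, Fx.zero, by simp, ?_⟩
      rw [sub_zero, hv, hz.ee_pow', mul_comm]
      exact mul_le_mul_of_nonneg_right hz.np_le (norm_nonneg _)
    | succ u ih =>
      intro v hv hv1
      refine step (i0 + u) (by omega) _ _ (ih (v + 1) (by omega) (by omega)) (by positivity)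
        (pow_le_one₀ h0.le h1) (by rw [pow_succ]) ?_
      rw [← pow_mul]
      exact pow_le_pow_of_le_one h0.le h1 (by have := hp.out.two_le; nlinarith)
  induction l with
  | zero =>
    have h2 : 1 ≤ p ^ 2 := Nat.one_le_pow _ _ hp.out.pos
    have := ph1 (p ^ 2 - 1) 1 (by omega) le_rfl
    rw [pow_one] at this
    exact this.mono (inf_le_inf_left _ fun _ hσ => hz.fix_le (by omega) hσ)
  | succ l ih =>
    refine step (i0 + p ^ 2 + l) (by omega) _ _ ih (hz.ee_pos _) (hz.ee_lt _).le ?_ (hz.ee_pow _).le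
    exact (mul_le_of_le_one_left h0.le (hz.ee_lt _).le).trans (hz.ee_mono (by omega))

lemma loss_pow {V : Subgroup (LA p)} {L : ℝ} (h : Loss A V L) :
    ∃ Λ : ℕ, Loss A V (‖(p : Om p)‖ ^ Λ)⁻¹ := by
  obtain ⟨n, hn⟩ := pow_unbounded_of_one_lt L ((one_lt_inv₀ (np_pos (p := p))).2 np_lt)
  exact ⟨n, h.mono le_rfl (by rw [← inv_pow]; exact hn.le)⟩

/-- a compatible system of `p`-power roots -/
structure Tow (p : ℕ) {E : Type} [Field E] (t : ℕ → E) : Prop where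
  ne : t 0 ≠ 0
  pw : ∀ j, t (j + 1) ^ p = t j

lemma Tow.ne' {p : ℕ} (hp : p.Prime) {E : Type} [Field E] {t : ℕ → E} (h : Tow p t) (j : ℕ) :
    t j ≠ 0 := by
  induction j with
  | zero => exact h.ne
  | succ j ih => intro h0; apply ih; rw [← h.pw, h0, zero_pow hp.ne_zero]

lemma Tow.st {t : ℕ → Om p} (h : Tow p t) (j : ℕ) :
    St ℚ_[p] (t j) ⊓ St ℚ_[p] (t (j + 1)) = St ℚ_[p] (t (j + 1)) :=
  inf_eq_right.2 fun σ hσ => by rw [mem_St, ← h.pw, map_pow, mem_St.1 hσ]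

lemma Tow.kum (hz : Cyc p z) {t : ℕ → Om p} (h : Tow p t) {j : ℕ} (h1 : A ≤ St ℚ_[p] (z 1))
    (h2 : A ≤ St ℚ_[p] (t j)) : Kum z A (t (j + 1)) :=
  ⟨hz, h1, h.ne' hp.out _, by rw [h.pw]; exact h2⟩

lemma Tow.loss1 (hz : Cyc p z) {t : ℕ → Om p} (h : Tow p t) (h1 : A ≤ St ℚ_[p] (z 1))
    (h2 : A ≤ St ℚ_[p] (t 0)) (j : ℕ) : Loss A (St ℚ_[p] (t j)) (‖(p : Om p)‖ ^ j)⁻¹ := by
  induction j with
  | zero => simpa using loss_triv h2
  | succ j ih =>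
    have := (h.kum hz (inf_le_left.trans h1) (inf_le_right : A ⊓ _ ≤ St ℚ_[p] (t j))).loss
      (b := 0) Fx.zero (hz.b_pos 0) (hz.b_lt _).le (by rw [sub_zero, mul_comm])
    rw [zero_add, hz.b0] at this
    rw [← h.st, pow_succ, mul_inv]
    exact ih.inf this

lemma Tow.loss2 (hz : Cyc p z) {t : ℕ → Om p} (h : Tow p t) {G0 : Subgroup (LA p)} {Λ : ℕ}
    (hG : Loss ⊤ G0 (‖(p : Om p)‖ ^ Λ)⁻¹) (h0 : G0 ≤ St ℚ_[p] (t 0)) {s m : ℕ}
    (hm : s + (2 + Λ + p + p ^ 2) ≤ m) :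
    Loss (St ℚ_[p] (z m) ⊓ G0) (St ℚ_[p] (t s)) ‖(p : Om p)‖⁻¹ := by
  have key : ∀ j l, j + l = s →
      Loss (St ℚ_[p] (z m) ⊓ G0) (St ℚ_[p] (t j)) (ee z (1 + l) ^ (p - 1))⁻¹ := by
    intro j
    induction j with
    | zero =>
      intro l _
      exact (loss_triv (inf_le_right.trans h0)).mono le_rfl (one_le_inv_iff₀.2
        ⟨pow_pos (hz.ee_pos _) _, pow_le_one₀ (hz.ee_pos _).le (hz.ee_lt _).le⟩)
    | succ j ih =>
      intro l hl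
      have h1 : Loss (St ℚ_[p] (z 2)) (G0 ⊓ St ℚ_[p] (t j)) (‖(p : Om p)‖ ^ (Λ + j))⁻¹ := by
        rw [pow_add, mul_inv]
        exact (hG.mono le_top le_rfl).inf (h.loss1 hz (A := St ℚ_[p] (z 2) ⊓ G0)
          (fun _ hσ => hz.fix_le one_le_two hσ.1) (inf_le_right.trans h0) j)
      obtain ⟨b, hb, -, hb2⟩ := (app_iter (i0 := 2 + (Λ + j) + p) (y := t (j + 1))
        (h.kum hz (fun _ hσ => hz.fix_le (by omega) hσ.2) (inf_le_left.trans inf_le_right))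
        (fun i hi => lemS hz le_rfl h1 hi) l).mono
        (B := St ℚ_[p] (z m) ⊓ G0 ⊓ St ℚ_[p] (t j))
        fun σ hσ => ⟨⟨hσ.1.2, hσ.2⟩, hz.fix_le (by omega) hσ.1.1⟩
      have h2 := (h.kum hz (A := St ℚ_[p] (z m) ⊓ G0 ⊓ St ℚ_[p] (t j))
        (fun _ hσ => hz.fix_le (by omega) hσ.1.1) inf_le_right).loss hb
        (hz.ee_pos _) (hz.ee_lt _).le hb2
      rw [← h.st]
      refine ((ih (l + 1) (by omega)).inf h2).mono le_rfl ?_
      rw [← mul_inv, ← mul_pow, show 1 + (l + 1) = 1 + l + 1 by ring,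
        show 2 + l = 1 + l + 1 by ring]
      exact inv_anti₀ (pow_pos (hz.ee_pos _) _)
        (pow_le_pow_left₀ (hz.ee_pos _).le (hz.ee_succ _) _)
  refine (key s 0 rfl).mono le_rfl (inv_anti₀ np_pos ?_)
  rw [← hz.ee_zero, ← hz.ee_pow 0]
  exact pow_le_pow_of_le_one (hz.ee_pos _).le (hz.ee_lt _).le (Nat.sub_le _ _)

lemma Kum.lift (hK : Kum z A y) (hA : Fi A) {σ : LA p} {E : ℕ} (h : Deep σ A (ee z E)) :
    ∃ τ ∈ A, Deep (σ * τ) (A ⊓ St ℚ_[p] y) (ee z (E + 1)) := by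
  have hz := hK.cyc
  by_cases nt : Fx A y
  · refine ⟨1, A.one_mem, ?_⟩
    rw [mul_one, inf_eq_left.2 nt.le]
    exact fun x hx => (h x hx).mono (hz.ee_mono E.le_succ)
  · obtain ⟨b, ϑ, hL⟩ := hK.ex_lay hA nt
    exact hL.lift h (hz.ee_pos _).le (hz.ee_mono E.le_succ) (hz.ee_pow _).ge

lemma lift_fam {ι : Type} [Fintype ι] {y : ι → Om p} (hK : ∀ a, Kum z A (y a)) (hA : Fi A)
    {σ : LA p} {E : ℕ} (h : Deep σ A (ee z E)) :
    ∃ τ ∈ A, Deep (σ * τ) (A ⊓ ⨅ a, St ℚ_[p] (y a)) (ee z (E + Fintype.card ι)) := by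
  classical
  have : ∀ s : Finset ι, Fi (A ⊓ ⨅ a ∈ s, St ℚ_[p] (y a)) ∧
      ∃ τ ∈ A, Deep (σ * τ) (A ⊓ ⨅ a ∈ s, St ℚ_[p] (y a)) (ee z (E + s.card)) := by
    intro s
    induction s using Finset.induction_on with
    | empty => exact ⟨by simpa using hA, 1, A.one_mem, by simpa using h⟩
    | insert a s ha ih =>
      obtain ⟨h1, τ, hτ, h2⟩ := ih
      obtain ⟨τ', hτ', h3⟩ := ((hK a).mono inf_le_left).lift h1 h2
      rw [Finset.iInf_insert, inf_comm (St ℚ_[p] (y a)), ← inf_assoc,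
        Finset.card_insert_of_notMem ha]
      exact ⟨h1.inf (fi_St _), τ * τ', A.mul_mem hτ hτ'.1, by rw [← mul_assoc]; exact h3⟩
  simpa using (this Finset.univ).2

/-- the main local statement -/
theorem loc_main (hz : Cyc p z) {ι : Type} [Fintype ι] {t : ι → ℕ → Om p} (ht : ∀ a, Tow p (t a)) :
    ∃ C : ℕ, ∀ W : Subgroup (LA p), Loss (⨅ a, St ℚ_[p] (t a 0)) W 1 →
      ∀ s d i J : ℕ, s + C ≤ i →
      ∃ σ ∈ W ⊓ (⨅ a, St ℚ_[p] (t a s)) ⊓ St ℚ_[p] (z i), σ (z (i + 1)) ≠ z (i + 1) ∧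
        Deep σ (W ⊓ (⨅ a, St ℚ_[p] (t a (s + d))) ⊓ St ℚ_[p] (z (i + J + 1)))
          (ee z (J + 1 + Fintype.card ι * d)) := by
  choose L hL using fun a => loss_ex (t a 0)
  obtain ⟨Λ, hΛ⟩ := loss_pow (Loss.iInf hL)
  set G0 := ⨅ a, St ℚ_[p] (t a 0) with hG0
  refine ⟨2 + Λ + p + p ^ 2 + (Λ + Fintype.card ι) + p, fun W hW s d i J hi => ?_⟩
  have hle : ∀ s, (⨅ a, St ℚ_[p] (t a s)) ≤ G0 := fun s => by
    induction s with
    | zero => exact le_rfl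
    | succ s ih => exact le_trans (iInf_mono fun a => by rw [← (ht a).st]; exact inf_le_left) ih
  set A := W ⊓ ⨅ a, St ℚ_[p] (t a s) with hA
  have h1 : Loss (St ℚ_[p] (z (s + (2 + Λ + p + p ^ 2)))) A
      (‖(p : Om p)‖ ^ (Λ + Fintype.card ι))⁻¹ := by
    have h2 := Loss.iInf fun a => (ht a).loss2 hz hΛ (iInf_le _ a) (s := s) le_rfl
    have h3 := (hΛ.mono le_top le_rfl).inf ((hW.mono inf_le_right le_rfl).inf
      (h2.mono inf_le_left le_rfl))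
    rw [inf_eq_right.2 (inf_le_right.trans (hle s))] at h3
    refine h3.mono le_rfl (le_of_eq ?_)
    simp [pow_add, mul_comm]
  have h2 := fun i hi => lemS hz (by omega) h1 (i := i) hi
  obtain ⟨-, b, ϑ, h3, h4⟩ := h2 i (by omega)
  obtain ⟨σ, hσ, hσy⟩ : ∃ σ ∈ A ⊓ St ℚ_[p] (z i), σ (z (i + 1)) ≠ z (i + 1) := by
    by_contra h'; push Not at h'; exact h3.nt h'
  have h5 : ∀ J, Deep σ (A ⊓ St ℚ_[p] (z (i + J + 1))) (ee z (J + 1)) := by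
    intro J
    induction J with
    | zero =>
      rw [← hz.st_inf]
      exact fun x hx => (h3.deep hσ x hx).mono h4
    | succ J ih =>
      obtain ⟨-, b', ϑ', h6, h7⟩ := h2 (i + J + 1) (by omega)
      rw [← add_assoc, ← hz.st_inf]
      exact h6.two_step ih (h7.trans (hz.ee_mono (by omega))) (hz.ee_lt _) (hz.ee_pow _).ge
        (hz.b0_le_ee.trans (hz.ee_mono (by omega)))
  have h6 : ∀ d, Fi (W ⊓ (⨅ a, St ℚ_[p] (t a (s + d))) ⊓ St ℚ_[p] (z (i + J + 1))) ∧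
      ∃ τ ∈ A ⊓ St ℚ_[p] (z (i + J + 1)), Deep (σ * τ)
        (W ⊓ (⨅ a, St ℚ_[p] (t a (s + d))) ⊓ St ℚ_[p] (z (i + J + 1)))
          (ee z (J + 1 + Fintype.card ι * d)) ∧
        W ⊓ (⨅ a, St ℚ_[p] (t a (s + d))) ⊓ St ℚ_[p] (z (i + J + 1)) ≤
          A ⊓ St ℚ_[p] (z (i + J + 1)) := by
    intro d
    induction d with
    | zero => exact ⟨(h2 _ (by omega)).1, 1, Subgroup.one_mem _, by simpa using h5 J, le_rfl⟩
    | succ d ih =>
      obtain ⟨h7, τ, hτ, h8, h9⟩ := ih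
      obtain ⟨τ', hτ', h10⟩ := lift_fam (y := fun a => t a (s + d + 1)) (fun a => (ht a).kum hz
        (A := W ⊓ (⨅ a, St ℚ_[p] (t a (s + d))) ⊓ St ℚ_[p] (z (i + J + 1)))
        (fun _ hσ => hz.fix_le (by omega) hσ.2)
        (inf_le_left.trans (inf_le_right.trans (iInf_le _ a)))) h7 h8
      have e : W ⊓ (⨅ a, St ℚ_[p] (t a (s + d))) ⊓ St ℚ_[p] (z (i + J + 1)) ⊓
          ⨅ a, St ℚ_[p] (t a (s + d + 1)) =
          W ⊓ (⨅ a, St ℚ_[p] (t a (s + (d + 1)))) ⊓ St ℚ_[p] (z (i + J + 1)) := by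
        rw [inf_right_comm, inf_assoc W, ← iInf_inf_eq]
        simp only [(ht _).st]
        rfl
      rw [e] at h10
      refine ⟨?_, τ * τ', Subgroup.mul_mem _ hτ (h9 hτ'), ?_, ?_⟩
      · rw [← e]
        choose n hn using fun a => fi_St (t a (s + d + 1))
        exact h7.inf ⟨_, IdxLe.iInf hn⟩
      · rw [← mul_assoc, mul_add, mul_one, ← add_assoc (J + 1)]; exact h10
      · rw [← e]; exact inf_le_left.trans h9
  obtain ⟨-, τ, hτ, h7, -⟩ := h6 d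
  refine ⟨σ * τ, Subgroup.mul_mem _ hσ ⟨hτ.1, hz.fix_le (by omega) hτ.2⟩, ?_, h7⟩
  rw [AlgEquiv.mul_apply, hz.fix_le (by omega) hτ.2]
  exact hσy

/-- the local Frobenius on an unramified cyclotomic extension -/
theorem loc_frob {ζ : Om p} {m : ℕ} (hm : ¬ p ∣ m) (hζ : ζ ^ m = 1) :
    ∃ φ : LA p, ∀ x, Fx (St ℚ_[p] ζ) x → ‖x‖ ≤ 1 → ‖φ x - x ^ p‖ ≤ ‖(p : Om p)‖ := by
  classical
  have hm0 : 0 < m := Nat.pos_of_ne_zero fun h => hm (h ▸ dvd_zero p)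
  have hn := norm_root hm0 hζ
  have hζ0 : ζ ≠ 0 := norm_pos_iff.1 (by rw [hn]; exact one_pos)
  have hsep : ∀ a b : Om p, a ^ m = 1 → b ^ m = 1 → a ≠ b → 1 ≤ ‖a - b‖ := by
    intro a b ha hb hab
    have hb1 := norm_root hm0 hb
    have hb0 : b ≠ 0 := norm_pos_iff.1 (by rw [hb1]; exact one_pos)
    have : a - b = (a / b - 1) * b := by field_simp
    rw [this, norm_mul, hb1, tame hm (by rw [div_pow, ha, hb, div_one])
      (fun h => hab ((div_eq_one_iff_eq hb0).1 h)), mul_one]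
  have hσ : ∀ σ : LA p, σ ζ ^ m = 1 := fun σ => by rw [← map_pow, hζ, map_one]
  obtain ⟨φ, hφ⟩ := frob hn.le
  have h1 : ζ ^ p = φ ζ := by
    by_contra h
    exact absurd hφ (not_lt.2 (hsep _ _ (by rw [← pow_mul, mul_comm, pow_mul, hζ, one_pow])
      (hσ φ) h))
  refine ⟨φ, fun x hx hx1 => ?_⟩
  obtain ⟨_, T, -⟩ := fi_St ζ
  obtain ⟨P, h2, h3, h4⟩ := T.cond (y := ζ) (fun _ _ h => h) (Fx.st ζ) hx
  have hinj := T.inj (y := ζ) fun _ _ h => h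
  have h5 : ∀ n, ‖P.coeff n‖ ≤ 1 := fun n => by
    have := interp_le (O := Finset.univ) (r := 1) (B := 1) hinj.injOn
      (by simpa [Trans.card] using h2) zero_le_one zero_le_one
      (fun i _ => by rw [niso, hn]) (fun i _ j _ hij => hsep _ _ (hσ _) (hσ _)
        fun h => hij (hinj h).symm)
      (fun i _ => by rw [h4 _ (T.mem i), niso]; exact hx1) n
    simpa using this
  have := frob_eval hp.out 1 (P := P) (P' := P) le_rfl le_rfl h5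
    (fun n => padic_frob (h3 n) (h5 n)) le_rfl hn.le
  have h6 := h4 1 (Subgroup.mem_top _)
  rw [AlgEquiv.one_apply, AlgEquiv.one_apply] at h6
  rwa [pow_one, h1, h4 φ (Subgroup.mem_top _), h6, one_pow, one_pow, mul_one] at this

end Pool.Agent.Lib.MP_f61260_nt
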