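import Pool.Agent.Lib.MP_f61260_nt.Glob2
import Pool.Agent.Lib.MP_f61260_nt.Loc4

set_option autoImplicit false
set_option maxHeartbeats 400000

namespace Pool.Agent.Lib.MP_f61260_nt

open Polynomial Real

variable {p : ℕ} [hp : Fact p.Prime]

lemma fx_io {U : Subgroup GA} {A : Subgroup (LA p)}
    (h : ∀ σ ∈ A, ∀ g : GA, (∀ x, io p (g x) = σ (io p x)) → g ∈ U) {x : Qb} (hx : Fx U x) :
    Fx A (io p x) := fun σ hσ => by
  obtain ⟨g, hg⟩ := res_ex σ
  rw [← hg, hx g (h σ hσ g hg)]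

lemma max_one_pow {a : ℝ} (ha : 0 ≤ a) (n : ℕ) : max 1 a ^ n = max 1 (a ^ n) := by
  rcases le_total 1 a with h | h
  · rw [max_eq_right h, max_eq_right (one_le_pow₀ h)]
  · rw [max_eq_left h, max_eq_left (pow_le_one₀ ha h), one_pow]

lemma block2 {U : Subgroup GA} {w : GA} {d : ℕ}
    (hw : ∀ x, Fx U x → ‖io p x‖ ≤ 1 → ‖io p (w x) - io p x ^ p ^ d‖ ≤ ‖(p : Om p)‖)
    (iso : ∀ x, ‖io p (w x)‖ = ‖io p x‖) {β : Qb} (T : Trans U (St ℚ β)) (s : ℕ) :
    ∏ k, ‖io p (β ^ p ^ (d + s)) - io p (w (T.r k (β ^ p ^ s)))‖ ≤ ‖(p : Om p)‖ ^ (s + 1) *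
      ∏ k, (max 1 ‖io p (β ^ p ^ (d + s))‖ * max 1 ‖io p (w (T.r k (β ^ p ^ s)))‖) := by
  obtain ⟨n0, -, hn0⟩ := Finset.exists_max_image (Finset.range (T.card + 1))
    (fun n => ‖io p ((T.poly β).coeff n)‖) ⟨0, by simp⟩
  set c := (T.poly β).coeff n0 with hc
  have hmon : (T.poly β).Monic := Polynomial.monic_prod_of_monic _ _ fun i _ => monic_X_sub_C _
  have hc1 : 1 ≤ ‖io p c‖ := by
    have := hn0 T.card (by simp)
    rwa [← T.poly_natDegree β, hmon.coeff_natDegree, map_one, norm_one] at this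
  have hc0 : 0 < ‖io p c‖ := one_pos.trans_le hc1
  have hc2 : ∀ n, ‖io p (c⁻¹ * (T.poly β).coeff n)‖ ≤ 1 := fun n => by
    rw [map_mul, map_inv₀, norm_mul, norm_inv, inv_mul_le_iff₀ hc0, mul_one]
    by_cases h : n ≤ T.card
    · exact hn0 n (by simp; omega)
    · rw [Polynomial.coeff_eq_zero_of_natDegree_lt (by rw [T.poly_natDegree]; omega), map_zero,
        norm_zero]
      exact hc0.le
  have hdeg : (C c⁻¹ * T.poly β).natDegree ≤ T.card :=
    (Polynomial.natDegree_C_mul_le _ _).trans (T.poly_natDegree β).le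
  have h1 := frob_eval hp.out d (P := (C c⁻¹ * T.poly β).map (io p).toRingHom)
    (P' := (C c⁻¹ * T.poly β).map ((io p).toRingHom.comp (w : Qb →+* Qb))) (n := T.card)
    (Polynomial.natDegree_map_le.trans hdeg) (Polynomial.natDegree_map_le.trans hdeg)
    (fun n => by rw [Polynomial.coeff_map, Polynomial.coeff_C_mul]; exact hc2 n)
    (fun n => by
      rw [Polynomial.coeff_map, Polynomial.coeff_map, Polynomial.coeff_C_mul]
      exact hw _ ((T.poly_coeff (Fx.st β) n0).inv.mul (T.poly_coeff (Fx.st β) n)) (hc2 n))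
    (x := io p β) (le_max_left 1 ‖io p β‖) (le_max_right _ _)
  have h2 : ((C c⁻¹ * T.poly β).map (io p).toRingHom).eval (io p β) = 0 := by
    have h3 : (T.poly β).eval β = 0 := T.poly_eval_self (Fx.st β) U.one_mem
    rw [Polynomial.eval_map]
    exact (Polynomial.eval₂_at_apply (io p).toRingHom β).trans
      (by rw [Polynomial.eval_mul, h3, mul_zero, map_zero])
  rw [h2, zero_pow (pow_pos hp.out.pos d).ne', sub_zero, Polynomial.map_mul, poly_mapK,
    Polynomial.eval_mul, Polynomial.map_C, Polynomial.eval_C, norm_mul, Polynomial.eval_prod,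
    norm_prod] at h1
  have h3 : ‖((io p).toRingHom.comp (w : Qb →+* Qb)) c⁻¹‖ = ‖io p c‖⁻¹ := by
    rw [← norm_inv, ← map_inv₀]; exact iso _
  have h4 : ‖io p c‖ ≤ ∏ k, max 1 ‖io p (T.r k β)‖ := by
    have := coeff_prod_le Finset.univ (fun k => (io p).toRingHom (T.r k β)) zero_le_one n0
    rwa [← poly_mapK, Polynomial.coeff_map, one_pow, mul_one] at this
  rw [h3, inv_mul_le_iff₀ hc0] at h1
  have := amp_iter hp.out Finset.univ (y := fun _ => io p β ^ p ^ d)
    (z := fun k => io p (w (T.r k β)))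
    (R := fun k => max 1 ‖io p β ^ p ^ d‖ * max 1 ‖io p (w (T.r k β))‖)
    (fun _ _ => (le_max_left _ _).trans (max_le_mul _ _))
    (fun _ _ => (le_max_right _ _).trans (max_le_mul _ _)) (fun t => ‖(p : Om p)‖ ^ (t + 1))
    (fun t => pow_nonneg (norm_nonneg _) _)
    (fun t => ⟨by
      rw [← pow_mul]
      exact pow_le_pow_of_le_one (norm_nonneg _) np_lt.le (by have := hp.out.two_le; nlinarith),
      by rw [← pow_succ']⟩)
    (by
      simp only [iso]
      refine le_trans (le_of_eq ?_) (h1.trans ((mul_le_mul_of_nonneg_right h4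
        (mul_nonneg (norm_nonneg _) (pow_nonneg (pow_nonneg m10 _) _))).trans (le_of_eq ?_)))
      · simp
      · rw [Finset.prod_mul_distrib, Finset.prod_const, Finset.card_univ, ← Trans.card, norm_pow,
          ← max_one_pow (norm_nonneg _), ← pow_mul, ← pow_mul, mul_comm T.card]
        ring) s
  simp only [map_pow, pow_add p, pow_mul]
  refine this.trans (le_of_eq ?_)
  congr 1
  refine Finset.prod_congr rfl fun k _ => ?_
  rw [mul_pow, max_one_pow (norm_nonneg _), max_one_pow (norm_nonneg _), ← norm_pow, ← norm_pow]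

/-- The discriminant argument along a chain of Frobenius powers. -/
theorem propB {m : ℕ} (hm : ¬ p ∣ m) {ζ : Qb} (hζ : IsPrimitiveRoot ζ m) {α : Qb} (hα : α ≠ 0)
    (htor : ¬ Tor α) (hrig : Rig (St ℚ ζ) α) {D K : ℕ} (hD : IdxLe (St ℚ ζ) (St ℚ α) D)
    (hK : 0 < K) :
    (K * (K - 1) / 2 : ℝ) * log p ≤ 2 * log (K * D) + 2 * (K * D) * (p ^ (2 * K) * ht α) := by
  classical
  have hm0 : 0 < m := Nat.pos_of_ne_zero fun h => hm (h ▸ dvd_zero p)
  obtain ⟨φ, hφ⟩ := loc_frob (ζ := io p ζ) hm (by rw [← map_pow, hζ.pow_eq_one, map_one])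
  obtain ⟨g, hg⟩ := res_ex φ
  set U := St ℚ ζ with hU
  have hpw : ∀ d : ℕ, (∀ x, ‖io p ((g ^ d) x)‖ = ‖io p x‖) ∧ ∀ x, Fx U x → ‖io p x‖ ≤ 1 →
      ‖io p ((g ^ d) x) - io p x ^ p ^ d‖ ≤ ‖(p : Om p)‖ := by
    intro d
    induction d with
    | zero => exact ⟨fun _ => rfl, fun x _ _ => by simp⟩
    | succ d ih =>
      refine ⟨fun x => by rw [pow_succ, AlgEquiv.mul_apply, ih.1, hg, niso], fun x hx hx1 => ?_⟩
      have h1 := hφ _ (fx_io (fun σ hσ g' hg' => (io p).injective ((hg' ζ).trans hσ)) hx) hx1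
      rw [← hg, ← map_pow, ← map_sub, ← ih.1, map_sub, map_sub, ← AlgEquiv.mul_apply, ← pow_succ,
        map_pow, map_pow] at h1
      have h2 := (pow_sub_le_one (by rw [ih.1]; exact hx1)
        (by rw [norm_pow]; exact pow_le_one₀ (norm_nonneg _) hx1) p).trans (ih.2 x hx hx1)
      rw [← pow_mul, ← pow_succ] at h2
      rw [← sub_add_sub_cancel _ (io p ((g ^ d) x) ^ p)]
      exact nadd_le h1 h2
  obtain ⟨T, hT⟩ := hD
  let y : Fin K × T.ι → Qb := fun x => (g⁻¹ ^ (x.1 : ℕ)) (T.r x.2 (α ^ p ^ (K + x.1)))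
  have hy : Function.Injective y := by
    have key : ∀ (t t' : ℕ) (u u' : GA), t < t' → u (α ^ p ^ (K + t)) ≠ u' (α ^ p ^ (K + t')) := by
      intro t t' u u' h h'
      obtain ⟨e, rfl⟩ := Nat.exists_eq_add_of_lt h
      refine htor (Tor.of_pow (pow_pos hp.out.pos (K + t)) (tor_of_conj (w := u'⁻¹ * u)
        (pow_ne_zero _ hα) (Nat.one_lt_pow (Nat.succ_ne_zero e) hp.out.one_lt) ?_))
      rw [AlgEquiv.mul_apply, h', ← AlgEquiv.mul_apply, inv_mul_cancel, AlgEquiv.one_apply,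
        ← pow_mul, ← pow_add]
      congr 2
      omega
    rintro ⟨t, i⟩ ⟨t', i'⟩ h
    rcases lt_trichotomy t t' with h1 | rfl | h1
    · exact absurd h (key t t' (_ * _) (_ * _) h1)
    · have hm := U.mul_mem (U.inv_mem (T.mem i)) (T.mem i')
      rw [T.uniq i i' (hrig _ hm _ (pow_pos hp.out.pos (K + t)) (by
        rw [AlgEquiv.mul_apply, ← (g⁻¹ ^ (t : ℕ)).injective h, ← AlgEquiv.mul_apply,
          inv_mul_cancel, AlgEquiv.one_apply]))]
    · exact absurd h.symm (key t' t (_ * _) (_ * _) h1)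
  obtain ⟨V, ⟨T1⟩, hV⟩ := trG y
  have hH : ∀ x, ht (y x) ≤ p ^ (2 * K) * ht α := fun x => by
    simp only [y]
    rw [ht_conj, ht_conj, ht_pow]
    refine mul_le_mul_of_nonneg_right ?_ (ht_nonneg _)
    exact_mod_cast Nat.pow_le_pow_right hp.out.pos (by have := x.1.2; omega)
  have key := vdm hy p (idxLe_of_le le_rfl) le_top hV T1
    (fun _ => (T.card * (K * ∑ t : Fin K, (t : ℕ)) : ℕ) * log p) (fun τ _ => by
      have e1 : exp (-((T.card * (K * ∑ t : Fin K, (t : ℕ)) : ℕ) * log p)) =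
          ∏ x : Fin K × T.ι, ‖(p : Om p)‖ ^ (K * x.1) := by
        rw [← np_exp, Finset.prod_pow_eq_pow_sum, Fintype.sum_prod_type]
        simp only [Finset.sum_const, Finset.card_univ, smul_eq_mul, ← Finset.mul_sum, Trans.card]
      rw [e1, ← Finset.prod_mul_distrib]
      refine Finset.prod_le_prod (fun _ _ => pn0) ?_
      rintro ⟨t', i⟩ -
      set β := τ ((g⁻¹ ^ (t' : ℕ)) (T.r i α)) with hβ
      obtain ⟨_, h1⟩ := fiG β
      obtain ⟨T2, -⟩ := h1.restrict (le_top : U ≤ ⊤) inf_le_right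
      have hex : ∀ x : Fin K × T2.ι, ∃ i', x.1 < t' →
          τ ((g⁻¹ ^ (x.1 : ℕ)) (T.r i' α)) = (g ^ ((t' : ℕ) - x.1)) (T2.r x.2 β) := by
        rintro ⟨t, k⟩
        by_cases h : t < t'
        swap
        · exact ⟨i, fun h' => absurd h' h⟩
        obtain ⟨i', hi'⟩ := T.ex_eq (Fx.st α) (σ := g ^ (t : ℕ) * (τ⁻¹ * g ^ ((t' : ℕ) - t) *
          (T2.r k * (τ * g⁻¹ ^ (t' : ℕ)))) * T.r i) (by
            have e1 : ∀ u : GA, u ζ ^ m = 1 := fun u => by rw [← map_pow, hζ.pow_eq_one, map_one]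
            refine mem_St.2 ?_
            rw [AlgEquiv.mul_apply, mem_St.1 (T.mem i), AlgEquiv.mul_apply,
              AlgEquiv.mul_apply, AlgEquiv.mul_apply (T2.r k),
              fix_root hm0 hζ (T2.mem k) dvd_rfl (e1 _), AlgEquiv.mul_apply τ,
              ← AlgEquiv.mul_apply _ τ, conj_root _ _ hm0 (e1 _), ← AlgEquiv.mul_apply,
              ← AlgEquiv.mul_apply, ← pow_add, Nat.add_sub_cancel' (le_of_lt h), inv_pow,
              mul_inv_cancel, AlgEquiv.one_apply])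
        refine ⟨i', fun _ => ?_⟩
        rw [hi']
        change _ = (g ^ ((t' : ℕ) - t)) (T2.r k (τ ((g⁻¹ ^ (t' : ℕ)) (T.r i α))))
        simp only [← AlgEquiv.mul_apply]
        congr 1
        rw [inv_pow g t]
        simp only [mul_assoc, inv_mul_cancel_left, mul_inv_cancel_left]
      choose ψ hψ using hex
      refine prod_le_of_inj _ (Finset.Iio t' ×ˢ Finset.univ) (fun x => (x.1, ψ x)) ?_ ?_
        (fun _ => norm_nonneg _)
        (fun _ => (nsub_le (le_max_left _ _) (le_max_right _ _)).trans (max_le_mul _ _)) ?_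
      · rintro ⟨t, k⟩ hx ⟨t2, k'⟩ hx' h
        simp only [Finset.coe_product, Set.mem_prod, Finset.mem_coe, Finset.mem_Iio] at hx hx'
        obtain ⟨rfl, h2⟩ := Prod.mk.inj h
        have h3 := hψ (t, k) hx.1
        rw [h2, hψ (t, k') hx.1] at h3
        exact Prod.ext rfl (T2.inj (y := β) (fun _ _ h => h) (AlgEquiv.injective _ h3)).symm
      · rintro ⟨t, k⟩ hx
        simp only [Finset.mem_product, Finset.mem_Iio] at hx
        exact Finset.mem_erase.2 ⟨fun h => hx.1.ne (Prod.mk.inj h).1, Finset.mem_univ _⟩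
      · rw [Finset.prod_product, Finset.prod_product, pow_mul, ← Fin.card_Iio, ← Finset.prod_const,
          ← Finset.prod_mul_distrib]
        refine Finset.prod_le_prod (fun _ _ => pn0) fun t ht => ?_
        have ht' := Finset.mem_Iio.1 ht
        have := block2 (hpw (t' - t)).2 (hpw (t' - t)).1 T2 (K + t)
        have e2 : τ (y (t', i)) = β ^ p ^ (t' - t + (K + t)) := by
          rw [show (t' : ℕ) - t + (K + t) = K + t' by have : (t : ℕ) < t' := ht'; omega, hβ]
          simp only [y, map_pow]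
        have e3 : ∀ k, τ (y (t, ψ (t, k))) = (g ^ ((t' : ℕ) - t)) (T2.r k (β ^ p ^ (K + t))) := by
          intro k
          simp only [y, map_pow]
          rw [hψ (t, k) ht']
        simp only [e2, e3]
        refine this.trans (mul_le_mul_of_nonneg_right (pow_le_pow_of_le_one (norm_nonneg _)
          np_lt.le (by omega)) (Finset.prod_nonneg fun _ _ => mul_nonneg m10 m10))) hH
  clear hpw hφ
  have h1 : ((∑ t : Fin K, (t : ℕ) : ℕ) : ℝ) = K * (K - 1) / 2 := by
    rw [Fin.sum_univ_eq_sum_range (fun t => t), eq_div_iff two_ne_zero]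
    have := congrArg (Nat.cast : ℕ → ℝ) (Finset.sum_range_id_mul_two K)
    rwa [Nat.cast_mul, Nat.cast_mul, Nat.cast_sub hK, Nat.cast_one, Nat.cast_two] at this
  rw [Trans.sum, Finset.sum_const, Finset.card_univ, ← Trans.card, Fintype.card_prod,
    Fintype.card_fin, ← Trans.card, nsmul_eq_mul, Nat.cast_mul, Nat.cast_mul, Nat.cast_mul,
    h1] at key
  have h2 := card_posR T1
  have h3 := card_posR T
  have h4 : (T.card : ℝ) ≤ D := by exact_mod_cast hT
  have h5 := ht_nonneg α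
  have h6 : (0 : ℝ) < K := by exact_mod_cast hK
  refine le_of_mul_le_mul_left (le_of_mul_le_mul_left ?_ h2) (mul_pos h6 h3)
  calc _ = T1.card * (T.card * (K * (K * (K - 1) / 2)) * log p) := by ring
    _ ≤ _ := key
    _ = T1.card * (K * T.card * (2 * log (K * T.card) +
          2 * (K * T.card) * (p ^ (2 * K) * ht α))) := by push_cast; ring
    _ ≤ _ := by gcongr

end Pool.Agent.Lib.MP_f61260_nt
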