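import Pool.Agent.Lib.MP_f61260_nt.Glob3

set_option autoImplicit false
set_option maxHeartbeats 400000

namespace Pool.Agent.Lib.MP_f61260_nt

open Polynomial Real

/-- a compatible system of roots -/
structure Sys (t : ℕ → Qb) : Prop where
  ne : ∀ n, t n ≠ 0
  pw : ∀ n k, 0 < n → 0 < k → t (n * k) ^ k = t n

lemma Sys.pw1 {t : ℕ → Qb} (h : Sys t) {n : ℕ} (hn : 0 < n) : t n ^ n = t 1 := by
  simpa using h.pw 1 n one_pos hn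

lemma Sys.fix_dvd {t : ℕ → Qb} (h : Sys t) {σ : GA} {n n' : ℕ} (hn : 0 < n') (hd : n ∣ n')
    (hσ : σ (t n') = t n') : σ (t n) = t n := by
  obtain ⟨k, rfl⟩ := hd
  rw [← h.pw n k (Nat.pos_of_mul_pos_right hn) (Nat.pos_of_mul_pos_left hn), map_pow, hσ]

lemma Sys.fix_mul {t : ℕ → Qb} (h : Sys t) {σ : GA} {a b : ℕ} (ha : 0 < a) (hb : 0 < b)
    (hab : a.Coprime b) (h1 : σ (t a) = t a) (h2 : σ (t b) = t b) : σ (t (a * b)) = t (a * b) :=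
  fix_coprime (h.ne _) hab (by rwa [mul_comm, h.pw b a hb ha]) (by rwa [h.pw a b ha hb])

lemma exists_sys (c : ℂ) (hc : IsAlgebraic ℚ (Complex.exp c)) :
    ∃ t : ℕ → Qb, Sys t ∧ ∀ n, (t n : ℂ) = Complex.exp (c / n) := by
  have h : ∀ n : ℕ, Complex.exp (c / n) ∈ algebraicClosure ℚ ℂ := fun n => by
    rw [mem_algebraicClosure_iff]
    rcases Nat.eq_zero_or_pos n with rfl | hn
    · simpa using isAlgebraic_one
    · refine IsAlgebraic.of_pow hn ?_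
      rwa [← Complex.exp_nat_mul, mul_div_cancel₀ _ (by exact_mod_cast hn.ne')]
  refine ⟨fun n => ⟨_, h n⟩, ⟨fun n h0 => Complex.exp_ne_zero _ (congrArg Subtype.val h0),
    fun n k hn hk => Subtype.ext ?_⟩, fun _ => rfl⟩
  have h1 : (n : ℂ) ≠ 0 := by exact_mod_cast hn.ne'
  have h2 : (k : ℂ) ≠ 0 := by exact_mod_cast hk.ne'
  simp only [SubmonoidClass.mk_pow, ← Complex.exp_nat_mul]
  congr 1
  push_cast
  field_simp

/-- roots of unity and radicals -/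
structure Ctx (ι : Type) where
  z : ℕ → Qb
  t : ι → ℕ → Qb
  hz : Sys z
  prim : ∀ n, 0 < n → IsPrimitiveRoot (z n) n
  hs : ∀ a, Sys (t a)

lemma comm_act {h b : GA} {θ κ ξ : Qb} (hξ : ξ ≠ 0) (h1 : h θ = κ * θ) (h2 : b θ = ξ * θ)
    (h3 : b κ = κ) (h4 : b ξ = ξ) (h5 : b (h ξ) = h ξ) :
    (h⁻¹ * b⁻¹ * h * b) θ = ξ / h⁻¹ ξ * θ := by
  have e1 : h (b θ) = b (h ξ / ξ * κ * θ) := by
    rw [h2, map_mul, h1, map_mul, map_mul, map_div₀, h3, h4, h5, h2]; field_simp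
  have e2 : h ξ / ξ * κ * θ = h (ξ / h⁻¹ ξ * θ) := by
    rw [map_mul, map_div₀, h1, ← AlgEquiv.mul_apply, mul_inv_cancel, AlgEquiv.one_apply, mul_assoc]
  rw [AlgEquiv.mul_apply, AlgEquiv.mul_apply, e1, e2]
  simp only [← AlgEquiv.mul_apply]
  rw [mul_assoc h⁻¹, inv_mul_cancel_left, inv_mul_cancel, AlgEquiv.one_apply]

lemma desc {κ : Type} [Fintype κ] {V : Subgroup GA} {y : κ → Qb} (hy0 : ∀ a, y a ≠ 0) {p : ℕ}
    (hp : p.Prime) {ζ : Qb} {m q : ℕ} (hm : 0 < m) (hζ : IsPrimitiveRoot ζ m) (hV : V ≤ St ℚ ζ)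
    (hq : q ∣ m) (hpm : p ∣ m) (hy : ∀ a, Fx V (y a ^ p)) {α : Qb} (hα : α ≠ 0)
    (hrig : Rig (V ⊓ ⨅ a, St ℚ (y a)) α) {D : ℕ} (hD : IdxLe (V ⊓ ⨅ a, St ℚ (y a)) (St ℚ α) D)
    (h : κ → GA) (h1 : ∀ a, h a ∈ V) (h2 : ∀ a, h a (y a) ≠ y a)
    (h3 : ∀ a a', a' ≠ a → h a (y a') = y a') (h4 : ∀ a, h a (α ^ q) = α ^ q) :
    ∃ e : κ → ℕ, IdxLe V (St ℚ (α * ∏ a, y a ^ e a)) D := by
  classical
  have : NeZero p := ⟨hp.ne_zero⟩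
  have hq0 : 0 < q := Nat.pos_of_dvd_of_pos hq hm
  have hmul : ∀ x ∈ V, ∀ a, ∃ ω, ω ^ p = 1 ∧ Fx V ω ∧ x (y a) = ω * y a := fun x hx a => by
    obtain ⟨ω, h5, h6⟩ := mult_ex x (hy0 a) (hy a x hx)
    exact ⟨ω, h5, fun σ hσ => fix_root hm hζ (hV hσ) hpm h5, h6⟩
  choose ω hω1 hω2 hω3 using fun a => hmul _ (h1 a) a
  have hprim : ∀ a, IsPrimitiveRoot (ω a) p := fun a =>
    prim_of_ne hp (hω1 a) fun h' => h2 a (by rw [hω3, h', one_mul])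
  have h5 : ∀ a, ∃ e : ℕ, h a (α * y a ^ e) = α * y a ^ e := by
    intro a
    obtain ⟨ξ, h6, h7⟩ := mult_ex (h a) hα (h4 a)
    have h8 := pow_act h7 (fix_root hm hζ (hV (h1 a)) hq h6) p
    rw [hrig (h a ^ p) ⟨V.pow_mem (h1 a) p, Subgroup.mem_iInf.2 fun a' => ?_⟩ q hq0
      ((St ℚ (α ^ q)).pow_mem (h4 a) p)] at h8
    · obtain ⟨e, -, he⟩ := (hprim a).eq_pow_of_pow_eq_one (ξ := ξ⁻¹) (by
        rw [inv_pow, mul_right_cancel₀ hα (h8.symm.trans (one_mul α).symm), inv_one])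
      have hξ : ξ ≠ 0 := fun h' => by simp [h', hq0.ne'] at h6
      exact ⟨e, by rw [map_mul, map_pow, h7, hω3, mul_pow, he]; field_simp⟩
    · by_cases h' : a' = a
      · rw [h', mem_St, pow_act (hω3 a) (hω2 a _ (h1 a)), hω1, one_mul]
      · exact (St ℚ (y a')).pow_mem (h3 a a' h') p
  choose e he using h5
  refine ⟨e, ?_⟩
  have h6 : ∀ a, h a (α * ∏ a, y a ^ e a) = α * ∏ a, y a ^ e a := fun a => by
    rw [← Finset.mul_prod_erase _ _ (Finset.mem_univ a), ← mul_assoc, map_mul, he, map_prod,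
      Finset.prod_congr rfl fun a' ha' => by rw [map_pow, h3 a a' (Finset.ne_of_mem_erase ha')]]
  have h7 : ∀ s : Finset κ, ∀ x ∈ V, (∀ a ∉ s, x (y a) = y a) →
      ∃ u ∈ V ⊓ ⨅ a, St ℚ (y a), x (α * ∏ a, y a ^ e a) = u (α * ∏ a, y a ^ e a) := by
    intro s
    induction s using Finset.induction_on with
    | empty => exact fun x hx h' => ⟨x, ⟨hx, Subgroup.mem_iInf.2 fun a => h' a (by simp)⟩, rfl⟩
    | insert a s ha ih =>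
      intro x hx h'
      obtain ⟨ω', h8, h9, h10⟩ := hmul x⁻¹ (V.inv_mem hx) a
      obtain ⟨l, -, hl⟩ := (hprim a).eq_pow_of_pow_eq_one h8
      obtain ⟨u, hu, hu'⟩ := ih (x * h a ^ l) (V.mul_mem hx (V.pow_mem (h1 a) l)) fun a' ha' => by
        rw [AlgEquiv.mul_apply]
        by_cases h'' : a' = a
        · rw [h'', pow_act (hω3 a) (hω2 a _ (h1 a)), hl, ← h10, ← AlgEquiv.mul_apply,
            mul_inv_cancel, AlgEquiv.one_apply]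
        · rw [mem_St.1 ((St ℚ (y a')).pow_mem (h3 a a' h'') l), h' a' (by simp [h'', ha'])]
      exact ⟨u, hu, by rw [← hu', AlgEquiv.mul_apply, mem_St.1 ((St ℚ _).pow_mem (h6 a) l)]⟩
  refine IdxLe.cover (hD.restrict le_rfl fun σ hσ => ?_) fun x hx =>
    h7 Finset.univ x hx (by simp)
  rw [mem_St, map_mul, mem_St.1 hσ.2, Fx.prod (A := V ⊓ ⨅ a, St ℚ (y a)) _
    (fun a _ => (Fx.of_le (inf_le_right.trans (iInf_le (fun a => St ℚ (y a)) a))).pow _) σ hσ.1]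

namespace Ctx

variable {ι : Type} [Fintype ι] (c : Ctx ι)

/-- the Galois group over the field of level `(m, n)` -/
noncomputable def Lv (m n : ℕ) : Subgroup GA := St ℚ (c.z m) ⊓ ⨅ a, St ℚ (c.t a n)

noncomputable def G0 : Subgroup GA := ⨅ a, St ℚ (c.t a 1)

/-- the division group -/
def Dv (x : Qb) : Prop := ∃ N : ℕ, 0 < N ∧ ∃ w : ι → ℤ, x ^ N = ∏ a, c.t a 1 ^ w a

variable {c}

omit [Fintype ι] in
lemma mem_Lv {m n : ℕ} {σ : GA} :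
    σ ∈ c.Lv m n ↔ σ (c.z m) = c.z m ∧ ∀ a, σ (c.t a n) = c.t a n := by
  simp [Lv, Subgroup.mem_iInf]

omit [Fintype ι] in
lemma mem_G0 {σ : GA} : σ ∈ c.G0 ↔ ∀ a, σ (c.t a 1) = c.t a 1 := by
  simp [G0, Subgroup.mem_iInf]

omit [Fintype ι] in
lemma Lv_mono {m n m' n' : ℕ} (hm : 0 < m') (hn : 0 < n') (h1 : m ∣ m') (h2 : n ∣ n') :
    c.Lv m' n' ≤ c.Lv m n := fun _ hσ => mem_Lv.2 ⟨c.hz.fix_dvd hm h1 (mem_Lv.1 hσ).1,
      fun a => (c.hs a).fix_dvd hn h2 ((mem_Lv.1 hσ).2 a)⟩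

omit [Fintype ι] in
lemma Lv_le {m n : ℕ} (hn : 0 < n) : c.Lv m n ≤ c.G0 := fun _ hσ =>
  mem_G0.2 fun a => (c.hs a).fix_dvd hn (one_dvd n) ((mem_Lv.1 hσ).2 a)

omit [Fintype ι] in
lemma fix {m n : ℕ} (hm : 0 < m) {σ : GA} (hσ : σ (c.z m) = c.z m) (hn : n ∣ m) {ξ : Qb}
    (h : ξ ^ n = 1) : σ ξ = ξ := fix_root hm (c.prim m hm) hσ hn h

omit [Fintype ι] in
lemma conj_iff {m n : ℕ} (hm : 0 < m) (hn : n ∣ m) {τ x : GA} (hτ : τ ∈ c.G0)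
    (hx : x (c.z m) = c.z m) (a : ι) : (τ⁻¹ * x * τ) (c.t a n) = c.t a n ↔ x (c.t a n) = c.t a n := by
  have hn0 := Nat.pos_of_dvd_of_pos hn hm
  obtain ⟨ξ, h1, h2⟩ := mult_ex τ ((c.hs a).ne n) (n := n)
    (by rw [(c.hs a).pw1 hn0, mem_G0.1 hτ])
  have hξ : ξ ≠ 0 := fun h' => by simp [h', hn0.ne'] at h1
  rw [← τ.injective.eq_iff, ← AlgEquiv.mul_apply, ← mul_assoc, mul_inv_cancel_left,
    AlgEquiv.mul_apply, h2, map_mul, fix hm hx hn h1, mul_right_inj' hξ]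

omit [Fintype ι] in
lemma Lv_normal {m n : ℕ} (hm : 0 < m) (hn : n ∣ m) : ∀ τ ∈ c.G0, ∀ u ∈ c.Lv m n,
    τ⁻¹ * u * τ ∈ c.Lv m n := fun τ hτ u hu => mem_Lv.2
  ⟨by rw [conj_root _ _ hm (c.prim m hm).pow_eq_one, (mem_Lv.1 hu).1],
    fun a => (conj_iff hm hn hτ (mem_Lv.1 hu).1 a).2 ((mem_Lv.1 hu).2 a)⟩

lemma idx_G0 : ∃ d, IdxLe ⊤ c.G0 d := by
  choose n hn using fun a => fiG (c.t a 1)
  exact ⟨_, IdxLe.iInf hn⟩

lemma idx_Lv {m n k1 k2 : ℕ} (hm : 0 < m) (hn : 0 < n) (h1 : 0 < k1) (h2 : 0 < k2) :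
    IdxLe (c.Lv m n) (c.Lv (m * k1) (n * k2)) (k1 * k2 ^ Fintype.card ι) := by
  have := (idx_pow (B := c.Lv m n) h1 (by rw [c.hz.pw m k1 hm h1]; exact Fx.of_le inf_le_left)).inf
    (IdxLe.iInf fun a => idx_pow (B := c.Lv m n) (y := c.t a (n * k2)) h2 (by
      rw [(c.hs a).pw n k2 hn h2]; exact Fx.of_le (inf_le_right.trans (iInf_le _ a))))
  simpa [Lv] using this

omit [Fintype ι] in
lemma step {m n k1 k2 : ℕ} (hm : 0 < m) (hn : 0 < n) (h1 : k1 ∣ m) (h2 : k2 ∣ m) :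
    (∀ x ∈ c.Lv m n, ∀ y ∈ c.Lv m n, x⁻¹ * y * x * y⁻¹ ∈ c.Lv (m * k1) (n * k2)) ∧
    ∀ x ∈ c.Lv m n, x ^ (k1 * k2) ∈ c.Lv (m * k1) (n * k2) := by
  have gen : ∀ (θ : Qb) (k : ℕ), θ ≠ 0 → k ∣ m → k ∣ k1 * k2 → Fx (c.Lv m n) (θ ^ k) →
      (∀ x ∈ c.Lv m n, ∀ y ∈ c.Lv m n, (x⁻¹ * y * x * y⁻¹) θ = θ) ∧
      ∀ x ∈ c.Lv m n, (x ^ (k1 * k2)) θ = θ := by
    intro θ k hθ hk hk' hf
    have hmul : ∀ x ∈ c.Lv m n, ∃ ω, ω ^ k = 1 ∧ Fx (c.Lv m n) ω ∧ x θ = ω * θ := fun x hx => by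
      obtain ⟨ω, h5, h6⟩ := mult_ex x hθ (hf x hx)
      exact ⟨ω, h5, fun σ hσ => fix hm hσ.1 hk h5, h6⟩
    refine ⟨fun x hx y hy => ?_, fun x hx => ?_⟩
    · obtain ⟨ω, -, h4, h5⟩ := hmul x hx
      obtain ⟨ω', -, h4', h5'⟩ := hmul _ ((c.Lv m n).inv_mem hy)
      apply x.injective
      rw [← AlgEquiv.mul_apply, mul_assoc, mul_assoc, mul_inv_cancel_left, AlgEquiv.mul_apply,
        AlgEquiv.mul_apply, h5', map_mul x, h4' x hx, h5, mul_left_comm, ← h5', map_mul, h4 y hy,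
        ← AlgEquiv.mul_apply, mul_inv_cancel, AlgEquiv.one_apply]
    · obtain ⟨ω, h3, h4, h5⟩ := hmul x hx
      obtain ⟨l, hl⟩ := hk'
      rw [pow_act h5 (h4 x hx), hl, pow_mul, h3, one_pow, one_mul]
  have g1 := gen (c.z (m * k1)) k1 (c.hz.ne _) h1 (dvd_mul_right _ _) (by
    rw [c.hz.pw m k1 hm (Nat.pos_of_dvd_of_pos h1 hm)]; exact Fx.of_le inf_le_left)
  have g2 := fun a => gen (c.t a (n * k2)) k2 ((c.hs a).ne _) h2 (dvd_mul_left _ _) (by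
    rw [(c.hs a).pw n k2 hn (Nat.pos_of_dvd_of_pos h2 hm)]
    exact Fx.of_le (inf_le_right.trans (iInf_le _ a)))
  exact ⟨fun x hx y hy => mem_Lv.2 ⟨g1.1 x hx y hy, fun a => (g2 a).1 x hx y hy⟩,
    fun x hx => mem_Lv.2 ⟨g1.2 x hx, fun a => (g2 a).2 x hx⟩⟩

lemma Dv.ne {x : Qb} (h : c.Dv x) : x ≠ 0 := by
  obtain ⟨N, hN, w, h⟩ := h
  rintro rfl
  rw [zero_pow hN.ne'] at h
  exact Finset.prod_ne_zero_iff.2 (fun a _ => zpow_ne_zero _ ((c.hs a).ne 1)) h.symm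

lemma Dv.mul {x y : Qb} (h : c.Dv x) (h' : c.Dv y) : c.Dv (x * y) := by
  obtain ⟨N, hN, w, h⟩ := h
  obtain ⟨N', hN', w', h'⟩ := h'
  refine ⟨N * N', Nat.mul_pos hN hN', fun a => w a * N' + w' a * N, ?_⟩
  rw [mul_pow, pow_mul, h, mul_comm N, pow_mul, h', ← Finset.prod_pow, ← Finset.prod_pow,
    ← Finset.prod_mul_distrib]
  exact Finset.prod_congr rfl fun a _ => by
    rw [zpow_add₀ ((c.hs a).ne 1), zpow_mul, zpow_mul, zpow_natCast, zpow_natCast]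

lemma Dv.inv {x : Qb} (h : c.Dv x) : c.Dv x⁻¹ := by
  obtain ⟨N, hN, w, h⟩ := h
  exact ⟨N, hN, fun a => -w a, by simp [h]⟩

lemma Dv.of_pow {x : Qb} {n : ℕ} (hn : 0 < n) (h : c.Dv (x ^ n)) : c.Dv x :=
  let ⟨N, hN, w, h⟩ := h; ⟨n * N, Nat.mul_pos hn hN, w, by rwa [pow_mul]⟩

lemma dv_tor {x : Qb} (h : Tor x) : c.Dv x := let ⟨N, hN, h⟩ := h; ⟨N, hN, 0, by simp [h]⟩

lemma dv_prod {κ : Type} (s : Finset κ) {f : κ → Qb} (h : ∀ i ∈ s, c.Dv (f i)) :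
    c.Dv (∏ i ∈ s, f i) :=
  Finset.prod_induction _ _ (fun _ _ => Dv.mul) (dv_tor ⟨1, one_pos, one_pow 1⟩) h

lemma Dv.pow {x : Qb} (h : c.Dv x) (n : ℕ) : c.Dv (x ^ n) := by
  simpa using dv_prod (Finset.range n) (f := fun _ => x) fun _ _ => h

lemma dv_t (a : ι) {n : ℕ} (hn : 0 < n) : c.Dv (c.t a n) := by
  classical
  refine ⟨n, hn, Pi.single a 1, ?_⟩
  rw [(c.hs a).pw1 hn, Finset.prod_eq_single a (fun b _ hb => by simp [hb]) (by simp)]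
  simp

lemma Dv.act {x : Qb} (h : c.Dv x) : ∀ u ∈ c.G0, ∃ ξ, Tor ξ ∧ u x = ξ * x := fun u hu => by
  obtain ⟨N, hN, w, h'⟩ := id h
  obtain ⟨ξ, h1, h2⟩ := mult_ex u h.ne (n := N) (by
    rw [h', map_prod]; exact Finset.prod_congr rfl fun a _ => by rw [map_zpow₀, mem_G0.1 hu])
  exact ⟨ξ, ⟨N, hN, h1⟩, h2⟩

variable {p : ℕ} [hp : Fact p.Prime]

omit [Fintype ι] in
lemma cyc : Cyc p fun i => c.z (p ^ i) :=
  ⟨fun i => c.prim _ (pow_pos hp.out.pos i), fun i => by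
    rw [pow_succ]; exact c.hz.pw _ _ (pow_pos hp.out.pos i) hp.out.pos⟩

variable (c p) in
/-- deeply ramified automorphisms of the global towers -/
def GD (C : ℕ) : Prop := ∀ m' n' s d i J : ℕ, ¬ p ∣ m' → ¬ p ∣ n' → s + C ≤ i →
  ∃ g ∈ c.Lv (m' * p ^ i) (n' * p ^ s), g (c.z (p ^ (i + 1))) ≠ c.z (p ^ (i + 1)) ∧
    (∀ x, ‖io p (g x)‖ = ‖io p x‖) ∧ ∃ η : ℝ, 0 ≤ η ∧
    η ^ p ^ (J + 1 + Fintype.card ι * d) ≤ ‖(p : Om p)‖ ∧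
    ∀ x, Fx (c.Lv (m' * p ^ (i + J + 1)) (n' * p ^ (s + d))) x → Rel η (io p (g x)) (io p x)

lemma gd : ∃ C, c.GD p C := by
  have hz : Cyc p fun i => io p (c.z (p ^ i)) :=
    ⟨fun i => ((c.cyc (p := p)).prim i).map_of_injective (io p).injective, fun i => by
      rw [← map_pow, (c.cyc (p := p)).pw]⟩
  have htw : ∀ a, Tow p fun j => io p (c.t a (p ^ j)) := fun a =>
    ⟨(_root_.map_ne_zero _).2 ((c.hs a).ne _), fun j => by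
      rw [← map_pow, pow_succ, (c.hs a).pw _ _ (pow_pos hp.out.pos j) hp.out.pos]⟩
  obtain ⟨C, hC⟩ := loc_main hz htw
  refine ⟨C, fun m' n' s d i J hm hn hi => ?_⟩
  have hm0 : 0 < m' := Nat.pos_of_ne_zero fun h => hm (h ▸ dvd_zero p)
  have hn0 : 0 < n' := Nat.pos_of_ne_zero fun h => hn (h ▸ dvd_zero p)
  have hW : Loss (⨅ a, St ℚ_[p] (io p (c.t a (p ^ 0))))
      (St ℚ_[p] (io p (c.z m')) ⊓ ⨅ a, St ℚ_[p] (io p (c.t a n'))) 1 := by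
    have := (loss_tame (A := ⨅ a, St ℚ_[p] (io p (c.t a (p ^ 0))))
      ((_root_.map_ne_zero (io p)).2 (c.hz.ne m')) hm (by
        rw [← map_pow, (c.prim _ hm0).pow_eq_one, map_one]; exact Fx.one)).inf
      (Loss.iInf fun a => loss_tame ((_root_.map_ne_zero (io p)).2 ((c.hs a).ne n')) hn (by
        rw [← map_pow, (c.hs a).pw1 hn0, ← pow_zero p]
        exact Fx.of_le (inf_le_left.trans (iInf_le _ a))))
    simpa using this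
  have hres : ∀ s i : ℕ, ∀ σ ∈ St ℚ_[p] (io p (c.z m')) ⊓ (⨅ a, St ℚ_[p] (io p (c.t a n'))) ⊓
      (⨅ a, St ℚ_[p] (io p (c.t a (p ^ s)))) ⊓ St ℚ_[p] (io p (c.z (p ^ i))), ∀ g : GA,
      (∀ x, io p (g x) = σ (io p x)) → g ∈ c.Lv (m' * p ^ i) (n' * p ^ s) := by
    intro s i σ hσ g hg
    have h1 : ∀ x, σ (io p x) = io p x → g x = x := fun x h => (io p).injective ((hg x).trans h)
    have h2 : ∀ {a : ℕ} (l : ℕ), ¬ p ∣ a → a.Coprime (p ^ l) := fun l h =>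
      Nat.Coprime.pow_right l ((Nat.Prime.coprime_iff_not_dvd hp.out).2 h).symm
    exact mem_Lv.2 ⟨c.hz.fix_mul hm0 (pow_pos hp.out.pos _) (h2 _ hm) (h1 _ hσ.1.1.1) (h1 _ hσ.2),
      fun a => (c.hs a).fix_mul hn0 (pow_pos hp.out.pos _) (h2 _ hn)
        (h1 _ (Subgroup.mem_iInf.1 hσ.1.1.2 a)) (h1 _ (Subgroup.mem_iInf.1 hσ.1.2 a))⟩
  obtain ⟨σ, h1, h2, h3⟩ := hC _ hW s d i J hi
  obtain ⟨g, hg⟩ := res_ex σ
  exact ⟨g, hres _ _ σ h1 g hg, fun h => h2 (by rw [← hg, h]), fun x => by rw [hg, niso], _,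
    (hz.ee_pos _).le, (hz.ee_pow' _).le, fun x hx => by
      rw [hg]; exact h3 _ (fx_io (hres _ _) hx)⟩

end Ctx

end Pool.Agent.Lib.MP_f61260_nt
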