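import Pool.Agent.Lib.MP_f61260_nt.Glob4

set_option autoImplicit false
set_option maxHeartbeats 400000

namespace Pool.Agent.Lib.MP_f61260_nt

open Polynomial Real Filter

/-- the inequality produced by the discriminant argument -/
def Ineq (p d N D E j : ℕ) (H : ℝ) : Prop :=
  (p ^ (j + 1) - 1 : ℝ) * log p ≤ 2 * d * (2 * log (N * D) + 2 * (N * D) * (p ^ E * H))

lemma ev_sq (A : ℝ) : ∀ᶠ k : ℕ in atTop, A * k ^ 2 ≤ 2 ^ k := by
  have := tendsto_pow_const_div_const_pow_of_one_lt 2 (one_lt_two (α := ℝ))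
  filter_upwards [this.eventually (gt_mem_nhds (show (0 : ℝ) < 1 / (|A| + 1) by positivity))]
    with k hk
  rw [div_lt_div_iff₀ (by positivity) (by positivity), one_mul] at hk
  nlinarith [le_abs_self A, sq_nonneg (k : ℝ)]

lemma ineq_ev {p : ℕ} (hp : p.Prime) (d R : ℕ) : ∀ᶠ j : ℕ in atTop, ∀ (N D E : ℕ) (H : ℝ),
    0 < N → N ≤ p ^ (R * (j + 1)) → 0 < D → D ≤ 2 ^ ((j + 1) ^ 2) → E ≤ R * (j + 1) → 0 ≤ H →
    Ineq p d N D E j H → 1 ≤ D * (p ^ (2 * R)) ^ (j + 1) * H := by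
  have hl2 : (1 / 2 : ℝ) < log 2 := by have := Real.log_two_gt_d9; linarith
  have hl2' : log 2 < 1 := by have := Real.log_two_lt_d9; linarith
  have hp2 : (2 : ℝ) ≤ p := by exact_mod_cast hp.two_le
  have hlp : log 2 ≤ log p := log_le_log two_pos hp2
  filter_upwards [(tendsto_add_atTop_nat 1).eventually (ev_sq (8 * d * (R * log p + 2) + 2))]
    with j hj N D E H hN hN' hD hD' hE hH h
  unfold Ineq at h
  by_contra hc
  rw [not_le] at hc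
  set k : ℝ := ((j + 1 : ℕ) : ℝ) with hk
  have hk1 : 1 ≤ k := by rw [hk]; exact_mod_cast Nat.le_add_left 1 j
  have h1 : log (N * D) ≤ R * k * log p + k ^ 2 * log 2 := by
    rw [log_mul (by positivity) (by positivity)]
    refine add_le_add ?_ ?_
    · rw [hk, ← Nat.cast_mul, ← log_pow]
      exact log_le_log (by positivity) (by exact_mod_cast hN')
    · rw [hk, ← Nat.cast_pow, ← log_pow]
      exact log_le_log (by positivity) (by exact_mod_cast hD')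
  have h2 : (N * D : ℝ) * (p ^ E * H) ≤ 1 := by
    refine le_trans ?_ hc.le
    have h3 : (N : ℝ) * p ^ E ≤ (p ^ (2 * R)) ^ (j + 1) := by
      rw [← pow_mul, mul_assoc, two_mul, pow_add]
      exact mul_le_mul (by exact_mod_cast hN') (pow_le_pow_right₀ (by linarith) hE)
        (by positivity) (by positivity)
    calc _ = D * ((N : ℝ) * p ^ E) * H := by ring
      _ ≤ _ := by gcongr
  have h3 : (2 : ℝ) ^ (j + 1) ≤ p ^ (j + 1) := pow_le_pow_left₀ zero_le_two hp2 _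
  have h4 : (0 : ℝ) ≤ R * log p := mul_nonneg (Nat.cast_nonneg _) (by linarith)
  have h5 : (2 ^ (j + 1) - 1 : ℝ) * (1 / 2) ≤ (p ^ (j + 1) - 1 : ℝ) * log p :=
    mul_le_mul (by linarith) (by linarith) (by norm_num)
      (sub_nonneg.2 (one_le_pow₀ (by linarith)))
  have h6 : 2 * log (N * D) + 2 * (N * D) * (p ^ E * H) ≤ 2 * ((R * log p + 2) * k ^ 2) := by
    have hk2 : k ≤ k ^ 2 := by nlinarith
    nlinarith [mul_le_mul_of_nonneg_left hk2 h4]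
  have h7 := mul_le_mul_of_nonneg_left h6 (show (0 : ℝ) ≤ 2 * d by positivity)
  nlinarith

namespace Ctx

variable {ι : Type} [Fintype ι] {c : Ctx ι} {p : ℕ} [hp : Fact p.Prime]

lemma coreLv {C d0 : ℕ} (hC : c.GD p C) (hd : IdxLe ⊤ c.G0 d0) {m' n' s d i J j D : ℕ}
    (hm : ¬ p ∣ m') (hnm : n' ∣ m') (h1 : s + C ≤ i) (h2 : J + 1 ≤ i) (h3 : d ≤ i)
    (h4 : s + d ≤ i + J + 1) (h5 : j + 1 ≤ i) {α : Qb}
    (hrig : Rig (c.Lv (m' * p ^ (i + J + 1)) (n' * p ^ (s + d))) α)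
    (hD : IdxLe (c.Lv (m' * p ^ (i + J + 1)) (n' * p ^ (s + d))) (St ℚ α) D) :
    ∃ h ∈ c.Lv (m' * p ^ i) (n' * p ^ s), h (c.z (p ^ (i + j))) = c.z (p ^ (i + j)) ∧
      h (c.z (p ^ (i + j + 1))) ≠ c.z (p ^ (i + j + 1)) ∧ ∀ b ∈ c.G0,
      (∀ η, c.Dv η → Ineq p d0 (p ^ (J + 1 + Fintype.card ι * d)) D
        (J + 1 + Fintype.card ι * d) j (ht (α * η))) ∨
      ∃ τ ∈ c.G0, ∀ τ' ∈ ({τ, b * τ} : Set GA),
        ∃ u ∈ c.Lv (m' * p ^ (i + J + 1)) (n' * p ^ (s + d)),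
          (u * h) (τ' (α ^ p ^ (J + 1 + Fintype.card ι * d))) =
            τ' (α ^ p ^ (J + 1 + Fintype.card ι * d)) := by
  have hm0 : 0 < m' := Nat.pos_of_ne_zero fun h => hm (h ▸ dvd_zero p)
  have hn0 := Nat.pos_of_dvd_of_pos hnm hm0
  have hpp := fun l => pow_pos hp.out.pos l
  obtain ⟨g, hg, hg1, hg2, η, h6, h7, h8⟩ := hC m' n' s d i J hm (fun h => hm (h.trans hnm)) h1
  have e1 : m' * p ^ (i + J + 1) = m' * p ^ i * p ^ (J + 1) := by ring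
  have e2 : n' * p ^ (s + d) = n' * p ^ s * p ^ d := by ring
  have hst := c.step (m := m' * p ^ i) (n := n' * p ^ s) (k1 := p ^ (J + 1)) (k2 := p ^ d)
    (Nat.mul_pos hm0 (hpp _)) (Nat.mul_pos hn0 (hpp _))
    ((pow_dvd_pow p h2).mul_left _) ((pow_dvd_pow p h3).mul_left _)
  have hidx := c.idx_Lv (Nat.mul_pos hm0 (hpp i)) (Nat.mul_pos hn0 (hpp s)) (hpp (J + 1)) (hpp d)
  rw [← e1, ← e2] at hst hidx
  rw [← pow_add] at hst
  rw [← pow_mul, ← pow_add, mul_comm d] at hidx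
  have nU := c.Lv_normal (m := m' * p ^ (i + J + 1)) (n := n' * p ^ (s + d))
    (Nat.mul_pos hm0 (hpp _)) (mul_dvd_mul hnm (pow_dvd_pow p h4))
  have nW := c.Lv_normal (m := m' * p ^ i) (n := n' * p ^ s)
    (Nat.mul_pos hm0 (hpp _)) (mul_dvd_mul hnm (pow_dvd_pow p (by omega)))
  have hW := c.Lv_le (m := m' * p ^ i) (Nat.mul_pos hn0 (hpp s))
  have hmv := (c.cyc (p := p)).move_pow hp.out h5
    (c.hz.fix_dvd (Nat.mul_pos hm0 (hpp i)) (dvd_mul_left _ _) hg.1) hg1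
  refine ⟨g ^ p ^ j, Subgroup.pow_mem _ hg _, hmv.1, hmv.2, fun b hb => ?_⟩
  by_cases hgood : ∀ τ ∈ c.G0, ∃ τ' ∈ ({τ, b * τ} : Set GA), ∀ ν ∈ c.Lv (m' * p ^ i) (n' * p ^ s),
      ∀ u ∈ c.Lv (m' * p ^ (i + J + 1)) (n' * p ^ (s + d)),
      (g ^ p ^ j) (ν (τ' (α ^ p ^ (J + 1 + Fintype.card ι * d)))) ≠
        u (ν (τ' (α ^ p ^ (J + 1 + Fintype.card ι * d))))
  · refine Or.inl fun η' hη' => ?_
    exact core hd (c.Lv_mono (Nat.mul_pos hm0 (hpp _)) (Nat.mul_pos hn0 (hpp _))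
      (e1 ▸ dvd_mul_right _ _) (e2 ▸ dvd_mul_right _ _)) hW nU nW hg h6 h7 h8 hg2 (hst.2 g hg)
      hη'.ne hη'.act hrig hD hidx hb hgood
  · push Not at hgood
    obtain ⟨τ, hτ, h9⟩ := hgood
    refine Or.inr ⟨τ, hτ, fun τ' hτ' => ?_⟩
    obtain ⟨ν, hν, u, hu, h10⟩ := h9 τ' hτ'
    refine ⟨_, Subgroup.mul_mem _ (nU ν (hW hν) _ (Subgroup.inv_mem _ hu))
      (hst.1 ν hν _ (Subgroup.pow_mem _ hg (p ^ j))), ν.injective (u.injective ?_)⟩
    rw [← h10]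
    simp only [← AlgEquiv.mul_apply]
    congr 1
    group

lemma caseA {C d0 : ℕ} (hC : c.GD p C) (hd : IdxLe ⊤ c.G0 d0) {m' n' s i j D : ℕ}
    (hm : ¬ p ∣ m') (hnm : n' ∣ m') (h1 : s + C ≤ i) (h2 : j + 1 ≤ i) {α : Qb} (hα : α ≠ 0)
    (hrig : Rig (c.Lv (m' * p ^ (i + j + 1)) (n' * p ^ s)) α)
    (hD : IdxLe (c.Lv (m' * p ^ (i + j + 1)) (n' * p ^ s)) (St ℚ α) D) :
    (∀ η, c.Dv η → Ineq p d0 (p ^ (j + 1)) D (j + 1) j (ht (α * η))) ∨
      ∃ η, c.Dv η ∧ IdxLe (c.Lv (m' * p ^ (i + j)) (n' * p ^ s)) (St ℚ (α * η)) D := by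
  have hm0 : 0 < m' := Nat.pos_of_ne_zero fun h => hm (h ▸ dvd_zero p)
  have hn0 := Nat.pos_of_dvd_of_pos hnm hm0
  have hpp := fun l => pow_pos hp.out.pos l
  obtain ⟨h, hW, h3, h4, h5⟩ := coreLv hC hd (d := 0) hm hnm h1 h2 i.zero_le (by omega) h2 hrig hD
  rcases h5 1 (Subgroup.one_mem _) with h6 | ⟨τ, hτ, h6⟩
  · exact Or.inl h6
  obtain ⟨u, hu, h7⟩ := h6 τ (Or.inl rfl)
  have hM := Nat.mul_pos hm0 (hpp (i + j))
  have hM1 := Nat.mul_pos hm0 (hpp (i + j + 1))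
  have hUV : c.Lv (m' * p ^ (i + j + 1)) (n' * p ^ s) ≤ c.Lv (m' * p ^ (i + j)) (n' * p ^ s) :=
    c.Lv_mono hM1 (Nat.mul_pos hn0 (hpp _)) (mul_dvd_mul_left _ (pow_dvd_pow p (by omega))) dvd_rfl
  have hU : c.Lv (m' * p ^ (i + j)) (n' * p ^ s) ⊓ ⨅ _ : Unit, St ℚ (c.z (m' * p ^ (i + j + 1))) =
      c.Lv (m' * p ^ (i + j + 1)) (n' * p ^ s) := by
    rw [iInf_const]
    exact le_antisymm (fun σ hσ => ⟨hσ.2, hσ.1.2⟩) (le_inf hUV inf_le_left)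
  have h8 : h ∈ c.Lv (m' * p ^ (i + j)) (n' * p ^ s) := ⟨c.hz.fix_mul hm0 (hpp _)
    (Nat.Coprime.pow_right _ ((Nat.Prime.coprime_iff_not_dvd hp.out).2 hm).symm)
    (c.hz.fix_dvd (Nat.mul_pos hm0 (hpp i)) (dvd_mul_right _ _) hW.1) h3, hW.2⟩
  obtain ⟨e, he⟩ := desc (κ := Unit) (V := c.Lv (m' * p ^ (i + j)) (n' * p ^ s))
    (y := fun _ => c.z (m' * p ^ (i + j + 1))) (fun _ => c.hz.ne _) hp.out hM (c.prim _ hM)
    inf_le_left (q := p ^ (j + 1 + Fintype.card ι * 0))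
    ((pow_dvd_pow p (by omega)).mul_left _) ((dvd_pow_self p (by omega)).mul_left _)
    (fun _ => by
      rw [pow_succ, ← mul_assoc, c.hz.pw _ _ hM hp.out.pos]; exact Fx.of_le inf_le_left)
    hα (hU ▸ hrig) (hU ▸ hD) (fun _ => τ⁻¹ * (u * h) * τ)
    (fun _ => c.Lv_normal hM (mul_dvd_mul hnm (pow_dvd_pow p (by omega))) τ hτ _
      (Subgroup.mul_mem _ (hUV hu) h8))
    (fun _ h9 => h4 (c.hz.fix_dvd hM1 (dvd_mul_left _ _) (u.injective (by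
      rw [conj_root _ _ hM1 (c.prim _ hM1).pow_eq_one] at h9
      exact h9.trans (mem_St.1 hu.1).symm))))
    (fun _ _ h => absurd rfl h)
    (fun _ => by
      rw [AlgEquiv.mul_apply, AlgEquiv.mul_apply, h7, ← AlgEquiv.mul_apply, inv_mul_cancel,
        AlgEquiv.one_apply])
  exact Or.inr ⟨_, dv_prod _ fun _ _ => (dv_tor ⟨_, hM1, (c.prim _ hM1).pow_eq_one⟩).pow _, he⟩

variable (c p) in
/-- fullness of the Kummer part of the Galois group -/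
def KF (C : ℕ) : Prop := ∀ m s u : ℕ, 0 < m → p ^ s ∣ m → u + C ≤ s → ∀ a, ∃ b ∈ c.Lv m 1,
  b (c.t a (p ^ s)) = c.z (p ^ u) * c.t a (p ^ s) ∧ ∀ a', a' ≠ a → b (c.t a' (p ^ s)) = c.t a' (p ^ s)

lemma caseB {C C' d0 : ℕ} (hC : c.GD p C) (hC' : c.KF p C') (hd : IdxLe ⊤ c.G0 d0)
    {m' n' s d i J j D : ℕ} (hm : ¬ p ∣ m') (hnm : n' ∣ m') (h1 : s + C ≤ i) (h2 : J + 1 ≤ i)
    (h3 : d + 1 ≤ i) (h4 : s + (d + 1) ≤ i + J + 1) (h5 : j + 1 ≤ i)
    (h6 : i + j + 1 + C' ≤ s + (d + 1)) (h7 : J + 1 + Fintype.card ι * (d + 1) ≤ i + J + 1)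
    {α : Qb} (hα : α ≠ 0) (hrig : Rig (c.Lv (m' * p ^ (i + J + 1)) (n' * p ^ (s + (d + 1)))) α)
    (hD : IdxLe (c.Lv (m' * p ^ (i + J + 1)) (n' * p ^ (s + (d + 1)))) (St ℚ α) D) :
    (∀ η, c.Dv η → Ineq p d0 (p ^ (J + 1 + Fintype.card ι * (d + 1))) D
        (J + 1 + Fintype.card ι * (d + 1)) j (ht (α * η))) ∨
      ∃ η, c.Dv η ∧ IdxLe (c.Lv (m' * p ^ (i + J + 1)) (n' * p ^ (s + d))) (St ℚ (α * η)) D := by
  have hm0 : 0 < m' := Nat.pos_of_ne_zero fun h => hm (h ▸ dvd_zero p)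
  have hn0 := Nat.pos_of_dvd_of_pos hnm hm0
  have hpp := fun l => pow_pos hp.out.pos l
  have hcop : ∀ l, n'.Coprime (p ^ l) := fun l => Nat.Coprime.pow_right _
    ((Nat.Prime.coprime_iff_not_dvd hp.out).2 fun h => hm (h.trans hnm)).symm
  obtain ⟨h, hW, h8, h9, h10⟩ := coreLv hC hd hm hnm h1 h2 h3 h4 h5 hrig hD
  set M := m' * p ^ (i + J + 1) with hMd
  have hM : 0 < M := Nat.mul_pos hm0 (hpp _)
  have hsM : p ^ (s + (d + 1)) ∣ M := (pow_dvd_pow p h4).mul_left _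
  have hnM : n' * p ^ (s + (d + 1)) ∣ M := mul_dvd_mul hnm (pow_dvd_pow p h4)
  have hN := Nat.mul_pos hn0 (hpp (s + (d + 1)))
  have hN' := Nat.mul_pos hn0 (hpp (s + d))
  choose b hb hb1 hb2 using hC' M _ _ hM hsM h6
  by_cases hc : ∀ η, c.Dv η → Ineq p d0 (p ^ (J + 1 + Fintype.card ι * (d + 1))) D
        (J + 1 + Fintype.card ι * (d + 1)) j (ht (α * η))
  · exact Or.inl hc
  have hG : h ∈ c.G0 := c.Lv_le (Nat.mul_pos hn0 (hpp s)) hW
  have hUV : c.Lv M (n' * p ^ (s + (d + 1))) ≤ c.Lv M (n' * p ^ (s + d)) :=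
    c.Lv_mono hM hN dvd_rfl (mul_dvd_mul_left _ (pow_dvd_pow p (by omega)))
  have hU : c.Lv M (n' * p ^ (s + d)) ⊓ ⨅ a, St ℚ (c.t a (n' * p ^ (s + (d + 1)))) =
      c.Lv M (n' * p ^ (s + (d + 1))) :=
    le_antisymm (fun σ hσ => ⟨hσ.1.1, hσ.2⟩) (le_inf hUV inf_le_right)
  have key : ∀ a, ∃ x ∈ c.Lv M (n' * p ^ (s + d)),
      x (c.t a (n' * p ^ (s + (d + 1)))) ≠ c.t a (n' * p ^ (s + (d + 1))) ∧
      (∀ a', a' ≠ a → x (c.t a' (n' * p ^ (s + (d + 1)))) = c.t a' (n' * p ^ (s + (d + 1)))) ∧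
      x (α ^ p ^ (J + 1 + Fintype.card ι * (d + 1))) =
        α ^ p ^ (J + 1 + Fintype.card ι * (d + 1)) := by
    intro a
    have hbG : b a ∈ c.G0 := (hb a).2
    obtain ⟨τ, hτ, h11⟩ := (h10 _ hbG).resolve_left hc
    obtain ⟨u1, hu1, h12⟩ := h11 τ (Or.inl rfl)
    obtain ⟨u2, hu2, h13⟩ := h11 _ (Or.inr rfl)
    have nU := c.Lv_normal hM hnM
    set cm := h⁻¹ * (b a)⁻¹ * h * b a with hcm
    have hu3 := nU h hG _ (Subgroup.mul_mem _ (Subgroup.inv_mem _ hu1) (nU _ hbG _ hu2))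
    set u3 := h⁻¹ * (u1⁻¹ * ((b a)⁻¹ * u2 * b a)) * h with hu3d
    have hact : ∀ (a' : ι) (n : ℕ) (ξ : Qb), n ∣ M → b a (c.t a' n) = ξ * c.t a' n →
        cm (c.t a' n) = ξ / h⁻¹ ξ * c.t a' n := by
      intro a' n ξ hn h14
      have hn1 := Nat.pos_of_dvd_of_pos hn hM
      obtain ⟨κ, h15, h16⟩ := mult_ex h ((c.hs a').ne n) (n := n)
        (by rw [(c.hs a').pw1 hn1, mem_G0.1 hG])
      obtain ⟨ξ', h17, h18⟩ := mult_ex (b a) ((c.hs a').ne n) (n := n)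
        (by rw [(c.hs a').pw1 hn1, mem_G0.1 hbG])
      obtain rfl : ξ = ξ' := mul_right_cancel₀ ((c.hs a').ne n) (h14.symm.trans h18)
      exact comm_act (fun h' => by simp [h', hn1.ne'] at h17) h16 h14 (fix hM (hb a).1 hn h15)
        (fix hM (hb a).1 hn h17) (fix hM (hb a).1 hn (by rw [← map_pow, h17, map_one]))
    have f1 : ∀ a', cm (c.t a' n') = c.t a' n' := fun a' => by
      obtain ⟨ξ, h17, h18⟩ := mult_ex (b a) ((c.hs a').ne n') (n := n')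
        (by rw [(c.hs a').pw1 hn0, mem_G0.1 hbG])
      rw [hact a' n' ξ (hnm.mul_right _) h18, fix (Nat.mul_pos hm0 (hpp i))
        (Subgroup.inv_mem _ hW).1 (hnm.mul_right _) h17,
        div_self fun h' => by simp [h', hn0.ne'] at h17, one_mul]
    have f2 : ∀ a', a' ≠ a → cm (c.t a' (p ^ (s + (d + 1)))) = c.t a' (p ^ (s + (d + 1))) :=
      fun a' ha' => by simpa using hact a' _ 1 hsM (by rw [one_mul]; exact hb2 a a' ha')
    have f3 := hact a _ _ hsM (hb1 a)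
    have hpw : ∀ a', c.t a' (p ^ (s + (d + 1))) ^ p = c.t a' (p ^ (s + d)) := fun a' => by
      rw [← add_assoc, pow_succ]; exact (c.hs a').pw _ _ (hpp _) hp.out.pos
    have f4 : ∀ a', cm (c.t a' (p ^ (s + d))) = c.t a' (p ^ (s + d)) := fun a' => by
      rw [← hpw, map_pow]
      by_cases ha' : a' = a
      · rw [ha', f3, mul_pow, div_pow, ← map_pow, (c.cyc (p := p)).pw,
          mem_St.1 ((St ℚ _).inv_mem h8), div_self (c.hz.ne _), one_mul]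
      · rw [f2 a' ha']
    have f5 : cm (c.z M) = c.z M := by
      rw [hcm, mul_assoc, mul_assoc, ← mul_assoc (b a)⁻¹, AlgEquiv.mul_apply,
        conj_root _ _ hM (c.prim _ hM).pow_eq_one, ← AlgEquiv.mul_apply, inv_mul_cancel,
        AlgEquiv.one_apply]
    have f6 : u3 * cm ∈ c.Lv M (n' * p ^ (s + d)) := Subgroup.mul_mem _ (hUV hu3)
      (mem_Lv.2 ⟨f5, fun a' => (c.hs a').fix_mul hn0 (hpp _) (hcop _) (f1 a') (f4 a')⟩)
    refine ⟨τ⁻¹ * (u3 * cm) * τ, c.Lv_normal hM ((mul_dvd_mul_left _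
      (pow_dvd_pow p (by omega))).trans hnM) τ hτ _ f6, fun h14 => ?_, fun a' ha' => ?_, ?_⟩
    · rw [conj_iff hM hnM hτ f6.1, ← (mem_Lv.1 hu3).2 a, AlgEquiv.mul_apply,
        (mem_Lv.1 hu3).2 a, ← (mem_Lv.1 hu3).2 a, u3.injective.eq_iff, (mem_Lv.1 hu3).2 a] at h14
      have h15 := (c.hs a).fix_dvd hN (dvd_mul_left _ _) h14
      rw [f3, mul_eq_right₀ ((c.hs a).ne _), div_eq_one_iff_eq
        ((_root_.map_ne_zero _).2 (c.hz.ne _))] at h15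
      apply h9
      conv_lhs => rw [h15]
      rw [← AlgEquiv.mul_apply, mul_inv_cancel, AlgEquiv.one_apply]
    · rw [conj_iff hM hnM hτ f6.1, AlgEquiv.mul_apply,
        (c.hs a').fix_mul hn0 (hpp _) (hcop _) (f1 a') (f2 a' ha'), (mem_Lv.1 hu3).2 a']
    · have e : τ⁻¹ * (u3 * cm) * τ = τ⁻¹ * (u1 * h)⁻¹ * ((b a)⁻¹ * (u2 * h * (b a * τ))) := by
        rw [hu3d, hcm]; group
      rw [e, AlgEquiv.mul_apply, AlgEquiv.mul_apply (b a)⁻¹, AlgEquiv.mul_apply (u2 * h), h13,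
        ← AlgEquiv.mul_apply (b a)⁻¹, inv_mul_cancel_left, AlgEquiv.mul_apply,
        mem_St.1 ((St ℚ _).inv_mem h12), ← AlgEquiv.mul_apply, inv_mul_cancel, AlgEquiv.one_apply]
  choose x hx1 hx2 hx3 hx4 using key
  obtain ⟨e, he⟩ := desc (V := c.Lv M (n' * p ^ (s + d)))
    (y := fun a => c.t a (n' * p ^ (s + (d + 1)))) (fun a => (c.hs a).ne _) hp.out hM (c.prim _ hM)
    inf_le_left ((pow_dvd_pow p h7).mul_left _) ((dvd_pow_self p (by omega)).mul_left _)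
    (fun a => by
      rw [← add_assoc, pow_succ, ← mul_assoc, (c.hs a).pw _ _ hN' hp.out.pos]
      exact Fx.of_le (inf_le_right.trans (iInf_le _ a)))
    hα (hU ▸ hrig) (hU ▸ hD) x hx1 hx2 hx3 hx4
  exact Or.inr ⟨_, dv_prod _ fun a _ => (dv_t a hN).pow _, he⟩

variable (c) in
/-- lower bound for the height modulo the division group -/
def Q (α : Qb) (B : ℝ) : Prop := ∀ η, c.Dv η → 1 ≤ B * ht (α * η)

lemma Q.mono {α : Qb} {B B' : ℝ} (h : c.Q α B) (h' : B ≤ B') : c.Q α B' := fun η hη =>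
  (h η hη).trans (mul_le_mul_of_nonneg_right h' (ht_nonneg _))

lemma Q.of_mul {α η : Qb} {B : ℝ} (hη : c.Dv η) (h : c.Q (α * η) B) : c.Q α B := fun η' hη' => by
  have := h _ (hη.inv.mul hη')
  rwa [mul_assoc, mul_inv_cancel_left₀ hη.ne] at this

lemma Q.of_pow {α ξ : Qb} {e : ℕ} {B : ℝ} (hξ : Tor ξ) (h : c.Q (ξ * α ^ e) B) :
    c.Q α (e * B) := fun η hη => by
  have := h _ (hη.pow e)
  rwa [mul_assoc, hξ.ht, ← mul_pow, ht_pow, ← mul_assoc, mul_comm B] at this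

variable (c) in
/-- data of an element of bounded degree at a given level -/
structure At (S : Finset ℕ) (α : Qb) (m n D : ℕ) : Prop where
  pos : 0 < m
  dvd : n ∣ m
  sub : n.primeFactors ⊆ S
  ne : α ≠ 0
  nd : ¬ c.Dv α
  idx : IdxLe (c.Lv m n) (St ℚ α) D

omit hp in
theorem descent (S : Finset ℕ) (hS : ∀ p ∈ S, p.Prime) (hKF : ∀ p ∈ S, ∃ C, c.KF p C) :
    ∃ R P : ℕ, ∀ᶠ k : ℕ in atTop, ∀ B : ℕ → ℝ, (∀ D : ℕ, D * (P : ℝ) ^ k ≤ B D) →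
      (∀ e D1 D : ℕ, 0 < e → e * D1 ≤ D → e * B D1 ≤ B D) →
      (∀ D ≤ 2 ^ (k ^ 2), ∀ α m n, c.At S α m n D → (∀ p ∈ S, ¬ p ^ (R * k) ∣ m) →
        c.Q α (B D)) →
      ∀ D ≤ 2 ^ (k ^ 2), ∀ α m n, c.At S α m n D → c.Q α (B D) := by
  obtain ⟨d0, hd0⟩ := c.idx_G0
  set ρ := Fintype.card ι with hρ
  refine ⟨10 + 3 * ρ, ∏ p ∈ S, p ^ (2 * (10 + 3 * ρ)), ?_⟩
  have hev : ∀ p ∈ S, ∀ᶠ j : ℕ in atTop, ∀ D ≤ 2 ^ ((j + 1) ^ 2), ∀ α m n, c.At S α m n D →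
      Rig (c.Lv m n) α → p ^ ((10 + 3 * ρ) * (j + 1)) ∣ m →
      c.Q α (D * (p ^ (2 * (10 + 3 * ρ))) ^ (j + 1)) ∨
        ∃ η m1 n1, c.Dv η ∧ m1 + n1 < m + n ∧ c.At S (α * η) m1 n1 D := by
    intro p hpS
    have : Fact p.Prime := ⟨hS p hpS⟩
    have hp := hS p hpS
    obtain ⟨C, hC⟩ := c.gd (p := p)
    obtain ⟨C', hC'⟩ := hKF p hpS
    filter_upwards [ineq_ev hp d0 (10 + 3 * ρ), eventually_ge_atTop C, eventually_ge_atTop C']
      with j hj hj1 hj2 D hD α m n h hrig hpm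
    have hn0 := Nat.pos_of_dvd_of_pos h.dvd h.pos
    obtain ⟨r, m', hm', rfl⟩ := Nat.exists_eq_pow_mul_and_not_dvd h.pos.ne' p hp.ne_one
    obtain ⟨s, n', hn', rfl⟩ := Nat.exists_eq_pow_mul_and_not_dvd hn0.ne' p hp.ne_one
    have hcop : ∀ {a : ℕ} (l : ℕ), ¬ p ∣ a → (p ^ l).Coprime a := fun l h =>
      Nat.Coprime.pow_left l ((Nat.Prime.coprime_iff_not_dvd hp).2 h)
    have hnm : n' ∣ m' := (hcop r hn').symm.dvd_of_dvd_mul_left ((dvd_mul_left _ _).trans h.dvd)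
    have hsr : s ≤ r := (Nat.pow_dvd_pow_iff_le_right hp.one_lt).1
      ((hcop s hm').dvd_of_dvd_mul_right ((dvd_mul_right _ _).trans h.dvd))
    have hr : (10 + 3 * ρ) * (j + 1) ≤ r := (Nat.pow_dvd_pow_iff_le_right hp.one_lt).1
      ((hcop _ hm').dvd_of_dvd_mul_right hpm)
    have hD0 : 0 < D := let ⟨T, hT⟩ := h.idx; T.card_pos.trans_le hT
    have hnd : ∀ η, c.Dv η → ¬ c.Dv (α * η) := fun η hη h' => h.nd (by
      have := h'.mul hη.inv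
      rwa [mul_inv_cancel_right₀ hη.ne] at this)
    have hm0 : 0 < m' := Nat.pos_of_mul_pos_left h.pos
    have hn0' : 0 < n' := Nat.pos_of_mul_pos_left hn0
    have hidx := h.idx
    rw [mul_comm (p ^ r), mul_comm (p ^ s)] at hrig hidx
    have hρ' : (10 + 3 * ρ) * (j + 1) = 10 * (j + 1) + ρ * (3 * (j + 1)) := by ring
    by_cases hA : s + 3 * (j + 1) ≤ r
    · obtain ⟨i, rfl⟩ : ∃ i, r = i + j + 1 := ⟨r - (j + 1), by omega⟩
      rcases caseA hC hd0 hm' hnm (by omega) (by omega) h.ne hrig hidx with h1 | ⟨η, h1, h2⟩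
      · exact Or.inl fun η hη => hj _ _ _ _ (pow_pos hp.pos _)
          (Nat.pow_le_pow_right hp.pos (by omega)) hD0 hD (by omega) (ht_nonneg _) (h1 η hη)
      · refine Or.inr ⟨η, _, _, h1, ?_, Nat.mul_pos hm0 (pow_pos hp.pos _),
          mul_dvd_mul hnm (pow_dvd_pow p (by omega)), by rw [mul_comm]; exact h.sub,
          mul_ne_zero h.ne h1.ne, hnd η h1, h2⟩
        rw [mul_comm m', mul_comm n']
        exact Nat.add_lt_add_right (Nat.mul_lt_mul_of_pos_right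
          (Nat.pow_lt_pow_right hp.one_lt (by omega)) hm0) _
    · obtain ⟨s0, rfl⟩ : ∃ s0, s = s0 + (3 * j + 2 + 1) := ⟨s - (3 * j + 3), by omega⟩
      obtain ⟨J, rfl⟩ : ∃ J, r = s0 + (j + 1) + J + 1 := ⟨r - (s0 + j + 2), by omega⟩
      have e : 3 * (j + 1) = 3 * j + 2 + 1 := by ring
      rw [e] at hρ'
      rcases caseB (j := j) hC hC' hd0 hm' hnm (by omega) (by omega) (by omega) (by omega)
        (by omega) (by omega) (by rw [← hρ]; omega) h.ne hrig hidx with h1 | ⟨η, h1, h2⟩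
      · exact Or.inl fun η hη => hj _ _ _ _ (pow_pos hp.pos _)
          (Nat.pow_le_pow_right hp.pos (by rw [← hρ]; omega)) hD0 hD (by rw [← hρ]; omega)
          (ht_nonneg _) (h1 η hη)
      · refine Or.inr ⟨η, _, _, h1, ?_, Nat.mul_pos hm0 (pow_pos hp.pos _),
          mul_dvd_mul hnm (pow_dvd_pow p (by omega)), (Nat.primeFactors_mono ?_ hn0.ne').trans h.sub,
          mul_ne_zero h.ne h1.ne, hnd η h1, h2⟩
        · rw [mul_comm m', mul_comm n']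
          exact Nat.add_lt_add_left (Nat.mul_lt_mul_of_pos_right
            (Nat.pow_lt_pow_right hp.one_lt (by omega)) hn0') _
        · rw [mul_comm]; exact mul_dvd_mul_right (pow_dvd_pow p (by omega)) _
  rw [← eventually_all_finset] at hev
  obtain ⟨j0, hj0⟩ := eventually_atTop.1 hev
  filter_upwards [eventually_ge_atTop (j0 + 1)] with k hk B hB1 hB2 base D
  obtain ⟨j, rfl⟩ : ∃ j, k = j + 1 := ⟨k - 1, by omega⟩
  have hj := hj0 j (by omega)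
  induction D using Nat.strong_induction_on with
  | _ D ihD =>
  intro hD α m n
  induction hmn : m + n using Nat.strong_induction_on generalizing α m n with
  | _ l ihl =>
  intro h
  obtain ⟨e, D1, ξ, he, hD1, heD, hξ, h1, h2⟩ := exists_rig h.ne h.idx
  have hξ0 := (dv_tor (c := c) hξ).ne
  have h3 : c.At S (ξ * α ^ e) m n D1 := ⟨h.pos, h.dvd, h.sub, mul_ne_zero hξ0 (pow_ne_zero _ h.ne),
    fun h' => h.nd (Dv.of_pow he (by
      have := (dv_tor hξ).inv.mul h'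
      rwa [inv_mul_cancel_left₀ hξ0] at this)), h1⟩
  refine (Q.of_pow hξ ?_).mono (hB2 e D1 D he heD)
  rcases (show D1 ≤ D by nlinarith).lt_or_eq with h4 | rfl
  · exact ihD D1 h4 (h4.le.trans hD) _ m n h3
  by_cases hc : ∃ p ∈ S, p ^ ((10 + 3 * ρ) * (j + 1)) ∣ m
  · obtain ⟨p, hpS, hc⟩ := hc
    rcases hj p hpS D1 hD _ m n h3 h2 hc with h5 | ⟨η, m1, n1, h5, h6, h7⟩
    · refine h5.mono (le_trans ?_ (hB1 D1))
      gcongr
      exact_mod_cast Finset.single_le_prod' (f := fun p => p ^ (2 * (10 + 3 * ρ)))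
        (fun q hq => Nat.one_le_pow _ _ (hS q hq).pos) hpS
    · exact Q.of_mul h5 (ihl _ (hmn ▸ h6) _ m1 n1 rfl h7)
  · push Not at hc
    exact base D1 hD _ m n h3 hc

end Ctx

end Pool.Agent.Lib.MP_f61260_nt
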