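import Pool.Agent.Lib.MP_f61260_nt.Glob5

set_option autoImplicit false
set_option maxHeartbeats 400000

namespace Pool.Agent.Lib.MP_f61260_nt

open Polynomial Real Filter

lemma IdxLe.trans' {𝒢 : Type} [Group 𝒢] {B A A' : Subgroup 𝒢} {n m : ℕ} (h : IdxLe B A n)
    (h' : IdxLe A A' m) (hA : A ≤ B) : IdxLe B A' (n * m) :=
  (h.trans (h'.restrict le_rfl le_rfl) hA inf_le_left).restrict le_rfl
    (inf_le_right.trans inf_le_right)

lemma base0 {R k r D D1 e : ℕ} (hk : 5 ≤ k) (hR : R ≤ k) (hr : r ≤ R * k) (hD : D ≤ 2 ^ k ^ 2)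
    (he : 0 < e) (hD1 : 0 < D1) (heD : e * D1 ≤ 2 ^ r * D) {H : ℝ} (hH : 0 ≤ H)
    (h : (((4 * k : ℕ) : ℝ) * ((4 * k : ℕ) - 1) / 2 : ℝ) * log (2 : ℕ) ≤
      2 * log ((4 * k : ℕ) * D1) + 2 * ((4 * k : ℕ) * D1) * ((2 : ℕ) ^ (2 * (4 * k)) * (e * H))) :
    1 ≤ D * ((2 ^ (R + 11) : ℕ) : ℝ) ^ k * H := by
  have hl2 : (1 / 2 : ℝ) < log 2 := by have := Real.log_two_gt_d9; linarith
  have hk' : (5 : ℝ) ≤ k := by exact_mod_cast hk
  have h1 : D1 ≤ 2 ^ (2 * k ^ 2) := by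
    calc D1 ≤ 2 ^ r * D := le_trans (Nat.le_mul_of_pos_left _ he) heD
      _ ≤ 2 ^ (k ^ 2) * 2 ^ (k ^ 2) :=
        Nat.mul_le_mul (Nat.pow_le_pow_right two_pos (by nlinarith)) hD
      _ = _ := by ring
  have h2 : log ((4 * k : ℕ) * D1) ≤ 4 * k + 2 * k ^ 2 * log 2 := by
    rw [log_mul (by positivity) (by positivity)]
    refine add_le_add ((log_le_self (by positivity)).trans (by norm_num)) ?_
    have := log_le_log (by positivity) (show (D1 : ℝ) ≤ 2 ^ (2 * k ^ 2) by exact_mod_cast h1)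
    rw [log_pow] at this
    exact_mod_cast this
  have h3 : 8 * k * 2 ^ (2 * (4 * k)) * (e * D1) ≤ D * (2 ^ (R + 11)) ^ k := by
    have h4 : 8 * k ≤ 8 ^ k := by
      have := Nat.lt_pow_self (show 1 < 2 by norm_num) (n := k)
      calc 8 * k ≤ 4 ^ k * 2 ^ k := Nat.mul_le_mul (le_trans (by norm_num)
            (Nat.pow_le_pow_right (by norm_num) hk)) this.le
        _ = 8 ^ k := (mul_pow 4 2 k).symm
    calc _ ≤ 8 ^ k * 2 ^ (2 * (4 * k)) * (2 ^ (R * k) * D) := by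
          refine Nat.mul_le_mul (Nat.mul_le_mul_right _ h4) (heD.trans ?_)
          exact Nat.mul_le_mul_right _ (Nat.pow_le_pow_right two_pos hr)
      _ = _ := by rw [show 8 = 2 ^ 3 by norm_num, ← pow_mul, ← pow_mul]; ring
  have h4 : (8 * k * 2 ^ (2 * (4 * k)) * (e * D1) : ℝ) * H ≤ D * ((2 ^ (R + 11) : ℕ) : ℝ) ^ k * H :=
    mul_le_mul_of_nonneg_right (by exact_mod_cast h3) hH
  refine le_trans ?_ h4
  push_cast at h h2
  nlinarith [mul_le_mul_of_nonneg_left hl2.le (show (0 : ℝ) ≤ 4 * k ^ 2 - 2 * k by nlinarith)]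

namespace Ctx

variable {ι : Type} [Fintype ι] (c : Ctx ι)

omit [Fintype ι] in
theorem thm0 : ∃ P : ℕ, ∀ᶠ k : ℕ in atTop, ∀ D ≤ 2 ^ k ^ 2, ∀ m, 0 < m → ∀ α : Qb, α ≠ 0 →
    ¬ Tor α → IdxLe (St ℚ (c.z m)) (St ℚ α) D → 1 ≤ D * (P : ℝ) ^ k * ht α := by
  let c0 : Ctx Empty := ⟨c.z, fun a => a.elim, c.hz, c.prim, fun a => a.elim⟩
  have hL : ∀ m n, c0.Lv m n = St ℚ (c.z m) := fun m n => by simp [Lv, c0]
  have hD : ∀ x, c0.Dv x ↔ Tor x := fun x => by simp [Dv, Tor]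
  obtain ⟨R, P, h⟩ := c0.descent {2} (by simp [Nat.prime_two]) fun p _ =>
    ⟨0, fun _ _ _ _ _ _ a => a.elim⟩
  refine ⟨P + 2 ^ (R + 11), ?_⟩
  filter_upwards [h, eventually_ge_atTop 5, eventually_ge_atTop R] with k hk hk5 hkR D hD' m hm α
    hα htor hidx
  have := hk (fun D => D * ((P + 2 ^ (R + 11) : ℕ) : ℝ) ^ k) (fun D => by gcongr; exact Nat.le_add_right _ _)
    (fun e D1 D _ h => by
      rw [← mul_assoc]; exact mul_le_mul_of_nonneg_right (by exact_mod_cast h) (by positivity))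
    (fun D hD' α m n h h2 η hη => ?_) D hD' α m 1
    ⟨hm, one_dvd _, by simp, hα, by rwa [hD], by rwa [hL]⟩ 1 ((hD 1).2 ⟨1, one_pos, one_pow 1⟩)
  · rwa [mul_one] at this
  rw [mul_comm α, ((hD η).1 hη).ht]
  obtain ⟨r, m', hm', rfl⟩ := Nat.exists_eq_pow_mul_and_not_dvd h.pos.ne' 2 (by norm_num)
  have hm0 : 0 < m' := Nat.pos_of_mul_pos_left h.pos
  have hr : r ≤ R * k := by
    by_contra hc
    exact h2 2 (by simp) ((pow_dvd_pow 2 (by omega)).mul_right _)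
  have h3 : IdxLe (St ℚ (c.z m')) (St ℚ α) (2 ^ r * D) :=
    (idx_pow (y := c.z (2 ^ r * m')) (by positivity) (by
      rw [mul_comm, c.hz.pw _ _ hm0 (by positivity)]; exact Fx.st _)).trans' (hL _ _ ▸ h.idx)
      fun σ hσ => c.hz.fix_dvd h.pos (dvd_mul_left _ _) hσ
  obtain ⟨e, D1, ξ, he, hD1, heD, hξ, h4, h5⟩ := exists_rig h.ne h3
  have hξ0 := (dv_tor (c := c0) hξ).ne
  have h6 := propB (p := 2) hm' (c.prim _ hm0) (mul_ne_zero hξ0 (pow_ne_zero _ h.ne))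
    (fun h' => h.nd (Dv.of_pow he (by
      have := (dv_tor (c := c0) hξ).inv.mul (dv_tor h')
      rwa [inv_mul_cancel_left₀ hξ0] at this))) h5 h4 (K := 4 * k) (by omega)
  rw [hξ.ht, ht_pow] at h6
  refine (base0 hk5 hkR hr hD' he hD1 heD (ht_nonneg _) h6).trans ?_
  have := ht_nonneg α
  gcongr
  exact Nat.le_add_left _ _

lemma dir {δ : ℝ} (hδ : 0 < δ) : ∃ K : ℕ, ∀ η, c.Dv η → ∃ k, 0 < k ∧ k ≤ K ∧ ∃ w : ι → ℤ,
    ht (η ^ k * ∏ a, c.t a 1 ^ w a) ≤ δ := by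
  classical
  obtain ⟨M, hM⟩ := exists_nat_gt ((∑ a, ht (c.t a 1)) / δ)
  have hM0 : 0 < M := by
    have := div_nonneg (Finset.sum_nonneg fun a (_ : a ∈ Finset.univ) => ht_nonneg (c.t a 1)) hδ.le
    exact_mod_cast this.trans_lt hM
  refine ⟨M ^ Fintype.card ι, fun η ⟨N, hN, x, hx⟩ => ?_⟩
  have hN' : (0 : ℤ) < N := by exact_mod_cast hN
  obtain ⟨j, j', hjj, hj', h⟩ : ∃ j j' : ℕ, j < j' ∧ j' ≤ M ^ Fintype.card ι ∧
      ∀ a, (j * x a % N * M) / N = (j' * x a % N * M) / N := by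
    obtain ⟨j, hj, j', hj', hne, h⟩ := Finset.exists_ne_map_eq_of_card_lt_of_maps_to
      (s := Finset.range (M ^ Fintype.card ι + 1))
      (t := Fintype.piFinset fun _ : ι => Finset.Ico (0 : ℤ) M) (by simp)
      (f := fun j a => (j * x a % N * M) / N) fun j _ => by
        simp only [Finset.mem_coe, Fintype.mem_piFinset, Finset.mem_Ico]
        intro a
        have h1 := Int.emod_nonneg (j * x a) hN'.ne'
        have h2 := Int.emod_lt_of_pos (j * x a) hN'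
        refine ⟨Int.ediv_nonneg (by positivity) hN'.le, Int.ediv_lt_of_lt_mul hN' ?_⟩
        have : (0 : ℤ) < M := by exact_mod_cast hM0
        nlinarith
    rw [Finset.mem_range] at hj hj'
    rcases lt_or_gt_of_ne hne with h1 | h1
    · exact ⟨j, j', h1, by omega, congrFun h⟩
    · exact ⟨j', j, h1, by omega, congrFun h.symm⟩
  obtain ⟨k, rfl⟩ := Nat.exists_eq_add_of_le hjj.le
  refine ⟨k, by omega, by omega, fun a => j * x a / N - (j + k : ℕ) * x a / N, ?_⟩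
  have hNR : (0 : ℝ) < N := by exact_mod_cast hN
  have hMR : (0 : ℝ) < M := by exact_mod_cast hM0
  refine le_of_mul_le_mul_left ?_ hNR
  have e : (η ^ k * ∏ a, c.t a 1 ^ (j * x a / N - (j + k : ℕ) * x a / N)) ^ N =
      ∏ a, c.t a 1 ^ ((j + k : ℕ) * x a % N - j * x a % N) := by
    rw [mul_pow, ← pow_mul, mul_comm k, pow_mul, hx, ← Finset.prod_pow, ← Finset.prod_pow,
      ← Finset.prod_mul_distrib]
    refine Finset.prod_congr rfl fun a _ => ?_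
    rw [← zpow_natCast, ← zpow_natCast, ← zpow_mul, ← zpow_mul, ← zpow_add₀ ((c.hs a).ne 1),
      Int.emod_def, Int.emod_def]
    congr 1
    push_cast
    ring
  rw [← ht_pow, e]
  refine (ht_prod _ _).trans ?_
  rw [div_lt_iff₀ hδ] at hM
  calc _ ≤ ∑ a, N / M * ht (c.t a 1) := Finset.sum_le_sum fun a _ => by
        rw [ht_zpow]
        refine mul_le_mul_of_nonneg_right ?_ (ht_nonneg _)
        rw [le_div_iff₀ hMR]
        have h1 := Int.emod_add_mul_ediv (j * x a % N * M) N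
        have h2 := Int.emod_add_mul_ediv ((j + k : ℕ) * x a % N * M) N
        have h3 := Int.emod_nonneg (j * x a % N * M) hN'.ne'
        have h4 := Int.emod_lt_of_pos (j * x a % N * M) hN'
        have h5 := Int.emod_nonneg ((j + k : ℕ) * x a % N * M) hN'.ne'
        have h6 := Int.emod_lt_of_pos ((j + k : ℕ) * x a % N * M) hN'
        rw [h a] at h1
        have : |(j + k : ℕ) * x a % N - j * x a % N| * M ≤ N := by
          rw [← abs_of_nonneg (Int.natCast_nonneg M), ← abs_mul, abs_le]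
          constructor <;> nlinarith
        exact_mod_cast this
    _ ≤ N * δ := by
        rw [← Finset.mul_sum, div_mul_eq_mul_div, div_le_iff₀ hMR, mul_assoc]
        exact mul_le_mul_of_nonneg_left (by linarith) hNR.le

lemma gap : ∃ δ : ℝ, 0 < δ ∧ ∀ m, 0 < m → ∀ x : Qb, x ≠ 0 → ¬ Tor x → Fx (c.Lv m 1) x →
    δ ≤ ht x := by
  obtain ⟨d, hd⟩ := c.idx_G0
  obtain ⟨P, hP⟩ := c.thm0
  obtain ⟨k, h1, h2⟩ := (hP.and (eventually_ge_atTop d)).exists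
  refine ⟨1 / (d * P ^ k + 1), by positivity, fun m hm x hx ht' hf => ?_⟩
  have := h1 d (h2.trans ((Nat.le_self_pow two_ne_zero k).trans
    (Nat.lt_pow_self one_lt_two).le)) m hm x hx ht' (hd.restrict le_top hf)
  rw [div_le_iff₀ (by positivity)]
  nlinarith [ht_nonneg x]

variable {c}

lemma fx_gam {m : ℕ} (w : ι → ℤ) : Fx (c.Lv m 1) (∏ a, c.t a 1 ^ w a) :=
  Fx.prod _ fun a _ => Fx.zpow (fun _ hσ => (mem_Lv.1 hσ).2 a) _

lemma dv_gam (w : ι → ℤ) : c.Dv (∏ a, c.t a 1 ^ w a) := ⟨1, one_pos, w, pow_one _⟩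

lemma kf (hind : ∀ w : ι → ℤ, Tor (∏ a, c.t a 1 ^ w a) → w = 0) {p : ℕ} (hp : p.Prime) :
    ∃ C, c.KF p C := by
  classical
  obtain ⟨δ, hδ, hgap⟩ := c.gap
  obtain ⟨K, hK⟩ := c.dir (half_pos hδ)
  refine ⟨K, fun m s u hm hsm hus a => ?_⟩
  have hq := pow_pos hp.pos s
  have : NeZero (p ^ s) := ⟨hq.ne'⟩
  have hr : ∀ ξ : rootsOfUnity (p ^ s) Qb, ((ξ : Qbˣ) : Qb) ^ p ^ s = 1 := fun ξ =>
    (mem_rootsOfUnity' _ _).1 ξ.2
  let H : Subgroup (ι → rootsOfUnity (p ^ s) Qb) :=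
    { carrier := {x | ∃ b ∈ c.Lv m 1, ∀ a, b (c.t a (p ^ s)) = ((x a : Qbˣ) : Qb) * c.t a (p ^ s)}
      one_mem' := ⟨1, Subgroup.one_mem _, fun a => by simp⟩
      mul_mem' := fun {x y} ⟨b, hb, h⟩ ⟨b', hb', h'⟩ => ⟨b * b', Subgroup.mul_mem _ hb hb', fun a => by
        rw [AlgEquiv.mul_apply, h', map_mul, h, fix hm hb.1 hsm (hr _)]
        simp [mul_assoc, mul_left_comm]⟩
      inv_mem' := fun {x} ⟨b, hb, h⟩ => ⟨b⁻¹, Subgroup.inv_mem _ hb, fun a => by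
        apply b.injective
        rw [← AlgEquiv.mul_apply, mul_inv_cancel, map_mul, h, fix hm hb.1 hsm (hr _)]
        simp⟩ }
  have hu : c.z (p ^ u) ^ p ^ s = 1 :=
    ((c.prim _ (pow_pos hp.pos u)).pow_eq_one_iff_dvd _).2 (pow_dvd_pow p (by omega))
  by_cases he : Pi.mulSingle a (rootsOfUnity.mkOfPowEq _ hu) ∈ H
  · obtain ⟨b, hb, h⟩ := he
    exact ⟨b, hb, by simpa using h a, fun a' ha' => by simpa [ha'] using h a'⟩
  exfalso
  obtain ⟨φ, hφ⟩ := CommGroup.exists_apply_ne_one_of_hasEnoughRootsOfUnity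
    ((ι → rootsOfUnity (p ^ s) Qb) ⧸ H) Qb ((QuotientGroup.eq_one_iff _).not.2 he)
  set ψ := φ.comp (QuotientGroup.mk' H) with hψ
  have h1 : ∀ a, ∃ l : ℕ, ∀ ξ, ((ψ (Pi.mulSingle a ξ) : Qbˣ) : Qb) = ((ξ : Qbˣ) : Qb) ^ l := by
    intro a
    set ζ := rootsOfUnity.mkOfPowEq _ (c.prim _ hq).pow_eq_one with hζ
    have hζ1 : ζ ^ p ^ s = 1 := Subtype.ext (Units.ext (by simpa using hr ζ))
    obtain ⟨l, -, hl⟩ := (c.prim _ hq).eq_pow_of_pow_eq_one
      (ξ := ((ψ (Pi.mulSingle a ζ) : Qbˣ) : Qb)) (by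
        rw [← Units.val_pow_eq_pow_val, ← map_pow, ← Pi.mulSingle_pow, hζ1]; simp)
    refine ⟨l, fun ξ => ?_⟩
    obtain ⟨i, -, hi⟩ := (c.prim _ hq).eq_pow_of_pow_eq_one (hr ξ)
    obtain rfl : ξ = ζ ^ i := Subtype.ext (Units.ext (by simpa [hζ] using hi.symm))
    rw [Pi.mulSingle_pow, map_pow, Units.val_pow_eq_pow_val, ← hl, ← hi, ← pow_mul, ← pow_mul,
      mul_comm]
  choose l hl using h1
  have h2 : Fx (c.Lv m 1) (∏ a, c.t a (p ^ s) ^ l a) := fun b hb => by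
    choose ξ h3 h4 using fun a => mult_ex b ((c.hs a).ne (p ^ s)) (n := p ^ s)
      (by rw [(c.hs a).pw1 hq, (mem_Lv.1 hb).2 a])
    have h5 : (fun a => rootsOfUnity.mkOfPowEq _ (h3 a)) ∈ H := ⟨b, hb, h4⟩
    have h6 : ψ (fun a => rootsOfUnity.mkOfPowEq _ (h3 a)) = 1 := by
      rw [hψ, MonoidHom.comp_apply, QuotientGroup.mk'_apply, (QuotientGroup.eq_one_iff _).2 h5,
        map_one]
    rw [← Finset.univ_prod_mulSingle (fun a => rootsOfUnity.mkOfPowEq _ (h3 a)), map_prod] at h6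
    have h7 := congrArg Units.val h6
    rw [Units.coe_prod, Finset.prod_congr rfl fun a _ => hl a _] at h7
    simp only [map_prod, map_pow, h4, mul_pow, Finset.prod_mul_distrib]
    simp at h7
    rw [h7, one_mul]
  have h3 : c.Dv (∏ a, c.t a (p ^ s) ^ l a) := dv_prod _ fun a _ => (dv_t a hq).pow _
  obtain ⟨k, hk0, hkK, w, hw⟩ := hK _ h3
  have h4 : Tor ((∏ a, c.t a (p ^ s) ^ l a) ^ k * ∏ a, c.t a 1 ^ w a) := by
    by_contra hc
    have := hgap m hm _ ((h3.pow k).mul (dv_gam w)).ne hc ((h2.pow k).mul (fx_gam w))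
    linarith
  have h5 := congrFun (hind (fun a => l a * k + w a * (p ^ s : ℕ)) (by
    obtain ⟨n, hn, h5⟩ := h4
    refine ⟨n, hn, ?_⟩
    rw [← one_pow (M := Qb) (p ^ s), ← h5, ← pow_mul _ n, mul_comm n, pow_mul]
    congr 1
    rw [mul_pow, ← Finset.prod_pow, ← Finset.prod_pow, ← Finset.prod_pow,
      ← Finset.prod_mul_distrib]
    refine Finset.prod_congr rfl fun a _ => ?_
    rw [zpow_add₀ ((c.hs a).ne 1), zpow_mul (c.t a 1) (w a), zpow_natCast, ← Nat.cast_mul,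
      zpow_natCast, ← pow_mul, ← pow_mul, ← mul_assoc, mul_comm _ (p ^ s), pow_mul _ (p ^ s),
      (c.hs a).pw1 hq])) a
  have h6 : p ^ s ∣ l a * k := by
    rw [← Int.natCast_dvd_natCast, Nat.cast_mul, eq_neg_of_add_eq_zero_left h5]
    exact (dvd_mul_left _ _).neg_right
  obtain ⟨v, k', hk', rfl⟩ := Nat.exists_eq_pow_mul_and_not_dvd hk0.ne' p hp.ne_one
  have hv : v ≤ K := ((Nat.lt_pow_self hp.one_lt).le.trans
    (Nat.le_mul_of_pos_right _ (Nat.pos_of_mul_pos_left hk0))).trans hkK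
  have h7 : p ^ u ∣ l a := by
    refine (Nat.Coprime.pow_left u ((Nat.Prime.coprime_iff_not_dvd hp).2 hk')).dvd_of_dvd_mul_right
      (Nat.dvd_of_mul_dvd_mul_left (pow_pos hp.pos v) ?_)
    rw [← pow_add, mul_left_comm]
    exact (pow_dvd_pow p (by omega)).trans h6
  exact hφ (Units.ext ((hl a _).trans
    (((c.prim _ (pow_pos hp.pos u)).pow_eq_one_iff_dvd _).2 h7)))

variable (c) in
lemma gapD : ∃ δ : ℝ, 0 < δ ∧ ∀ m, 0 < m → ∀ ν : Qb, ν ≠ 0 → ¬ c.Dv ν → Fx (c.Lv m 1) ν →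
    ∀ η, c.Dv η → δ ≤ ht (ν * η) := by
  obtain ⟨δ, hδ, hgap⟩ := c.gap
  obtain ⟨K, hK⟩ := c.dir (half_pos hδ)
  refine ⟨δ / (2 * K + 1), by positivity, fun m hm ν hν hnd hf η hη => ?_⟩
  obtain ⟨k, hk0, hkK, w, hw⟩ := hK η hη
  have h0 := (dv_gam (c := c) w).ne
  have h1 := hgap m hm (ν ^ k * (∏ a, c.t a 1 ^ w a)⁻¹)
    (mul_ne_zero (pow_ne_zero _ hν) (inv_ne_zero h0)) (fun h => hnd (Dv.of_pow hk0 (by
      have := (dv_tor h).mul (dv_gam (c := c) w)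
      rwa [inv_mul_cancel_right₀ h0] at this))) ((hf.pow k).mul (fx_gam w).inv)
  have h2 := ht_mul ((ν * η) ^ k) (η ^ k * ∏ a, c.t a 1 ^ w a)⁻¹
  rw [ht_inv, ht_pow, mul_pow, mul_inv, mul_assoc,
    mul_inv_cancel_left₀ (pow_ne_zero _ hη.ne)] at h2
  have h3 : (k : ℝ) ≤ K := by exact_mod_cast hkK
  rw [div_le_iff₀ (by positivity)]
  nlinarith [ht_nonneg (ν * η)]

theorem main (S : Finset ℕ) (hS : ∀ p ∈ S, p.Prime)
    (hind : ∀ w : ι → ℤ, Tor (∏ a, c.t a 1 ^ w a) → w = 0) : ∃ P : ℕ, ∀ᶠ k : ℕ in atTop,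
    ∀ D ≤ 2 ^ k ^ 2, ∀ α m n, c.At S α m n D → c.Q α (D ^ 2 * (P : ℝ) ^ k) := by
  obtain ⟨R, P, h⟩ := c.descent S hS fun p hp => kf hind (hS p hp)
  obtain ⟨P0, h0⟩ := c.thm0
  obtain ⟨d, hd⟩ := c.idx_G0
  obtain ⟨δ, hδ, hgap⟩ := c.gapD
  obtain ⟨A, hA⟩ := exists_nat_gt (1 / δ)
  set P1 := (∏ p ∈ S, p ^ R) ^ Fintype.card ι with hP1
  have hP10 : 0 < P1 := pow_pos (Finset.prod_pos fun p hp => pow_pos (hS p hp).pos _) _
  set P2 := P + (A + 1) * P1 + (2 * d + 1) * P1 ^ 2 * P0 ^ 2 with hP2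
  refine ⟨P2, ?_⟩
  filter_upwards [h, (tendsto_id.const_mul_atTop' two_pos).eventually h0, eventually_ge_atTop 1,
    eventually_ge_atTop d, eventually_ge_atTop P1] with k hk hk0 hk1 hkd hkP
  refine hk (fun D => D ^ 2 * (P2 : ℝ) ^ k) (fun D => ?_) (fun e D1 D he h => ?_)
    fun D hD α m n h h2 η hη => ?_
  · exact mul_le_mul (by exact_mod_cast Nat.le_self_pow two_ne_zero D)
      (by gcongr; omega) (by positivity) (by positivity)
  · rw [← mul_assoc]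
    refine mul_le_mul_of_nonneg_right ?_ (by positivity)
    exact_mod_cast (show e * D1 ^ 2 ≤ (e * D1) ^ 2 by
      rw [mul_pow]; exact Nat.mul_le_mul_right _ (Nat.le_self_pow two_ne_zero e)).trans
      (Nat.pow_le_pow_left h 2)
  have hn0 := Nat.pos_of_dvd_of_pos h.dvd h.pos
  have hn : n ∣ ∏ p ∈ S, p ^ (R * k) := by
    rw [Nat.dvd_iff_prime_pow_dvd_dvd]
    intro p j hp hj
    rcases Nat.eq_zero_or_pos j with rfl | hj0
    · simp
    have hpS := h.sub (Nat.mem_primeFactors.2 ⟨hp, (dvd_pow_self p hj0.ne').trans hj, hn0.ne'⟩)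
    refine (pow_dvd_pow p ?_).trans (Finset.dvd_prod_of_mem _ hpS)
    by_contra hc
    exact h2 p hpS (((pow_dvd_pow p (by omega)).trans hj).trans h.dvd)
  have hn' : n ^ Fintype.card ι ≤ P1 ^ k := by
    rw [hP1, ← pow_mul, mul_comm, pow_mul, ← Finset.prod_pow]
    refine Nat.pow_le_pow_left (Nat.le_of_dvd ?_ (by simpa only [pow_mul] using hn)) _
    exact Finset.prod_pos fun p hp => pow_pos (pow_pos (hS p hp).pos _) _
  have h3 := c.idx_Lv h.pos one_pos one_pos hn0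
  rw [mul_one, one_mul, one_mul] at h3
  obtain ⟨T, hT⟩ := (h3.trans' h.idx (c.Lv_mono h.pos hn0 dvd_rfl (one_dvd n))).mono
    (Nat.mul_le_mul_right D hn')
  have hD0 : 1 ≤ D := let ⟨T, hT⟩ := h.idx; T.card_pos.trans_le hT
  have hν := T.prod_fx (Fx.st α)
  set ν := T.prod fun σ => σ α with hνd
  have hν0 : ν ≠ 0 := Finset.prod_ne_zero_iff.2 fun i _ => (_root_.map_ne_zero _).2 h.ne
  have hH := ht_nonneg (α * η)
  have h4 : ht (ν * η ^ T.card) ≤ T.card * ht (α * η) := by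
    choose ξ h5 h6 using fun i => hη.act _ (c.Lv_le one_pos (T.mem i))
    rw [← (Tor.prod Finset.univ fun i _ => h5 i).ht]
    have : (∏ i, ξ i) * (ν * η ^ T.card) = ∏ i, T.r i (α * η) := by
      simp only [map_mul, h6, Finset.prod_mul_distrib, hνd, Trans.prod, Trans.card,
        Finset.prod_const, Finset.card_univ]
      ring
    rw [this]
    refine (ht_prod _ _).trans (le_of_eq ?_)
    simp only [ht_conj]
    simp [Trans.card]
  have hT' : (T.card : ℝ) ≤ P1 ^ k * D := by exact_mod_cast hT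
  have hDD : (D : ℝ) ≤ D ^ 2 := by exact_mod_cast Nat.le_self_pow two_ne_zero D
  by_cases hc : c.Dv ν
  · have h5 : ¬ Tor (α ^ T.card * ν⁻¹) := fun h' => h.nd (Dv.of_pow T.card_pos (by
      have := (dv_tor h').mul hc
      rwa [inv_mul_cancel_right₀ hν0] at this))
    have h6 : IdxLe (St ℚ (c.z m)) (St ℚ (α ^ T.card * ν⁻¹)) (d * (P1 ^ k * D)) :=
      (hd.restrict (A' := c.Lv m 1) le_top le_rfl).trans' (IdxLe.restrict ⟨T, hT⟩ le_rfl
        fun σ hσ => by rw [mem_St, map_mul, map_pow, map_inv₀, mem_St.1 hσ.2, hν σ hσ.1])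
        inf_le_left
    have h7 := hk0 _ (by
      have := Nat.lt_pow_self one_lt_two (n := k)
      calc d * (P1 ^ k * D) ≤ 2 ^ k * ((2 ^ k) ^ k * 2 ^ k ^ 2) := by gcongr <;> omega
        _ = 2 ^ (k + 2 * k ^ 2) := by rw [← pow_mul]; ring
        _ ≤ _ := Nat.pow_le_pow_right two_pos (by simp only [id]; nlinarith)) m h.pos _
      (mul_ne_zero (pow_ne_zero _ h.ne) (inv_ne_zero hν0)) h5 h6
    have h8 := ht_mul ((α * η) ^ T.card) (ν * η ^ T.card)⁻¹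
    rw [ht_inv, ht_pow, mul_pow, mul_inv, mul_mul_mul_comm,
      mul_inv_cancel₀ (pow_ne_zero _ hη.ne), mul_one] at h8
    have h9 : ht (α ^ T.card * ν⁻¹) ≤ 2 * (P1 ^ k * D) * ht (α * η) := by
      nlinarith [mul_le_mul_of_nonneg_right hT' hH]
    refine (h7.trans (mul_le_mul_of_nonneg_left h9 (by positivity))).trans ?_
    rw [← mul_assoc]
    refine mul_le_mul_of_nonneg_right ?_ hH
    have : d * (P1 ^ k * D) * P0 ^ (2 * k) * (2 * (P1 ^ k * D)) ≤ D ^ 2 * P2 ^ k := by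
      calc _ = D ^ 2 * ((2 * d) * (P1 ^ 2 * P0 ^ 2) ^ k) := by ring
        _ ≤ D ^ 2 * ((2 * d + 1) ^ k * (P1 ^ 2 * P0 ^ 2) ^ k) := by
          gcongr; exact (Nat.le_succ _).trans (Nat.le_self_pow (by omega) _)
        _ ≤ _ := by rw [← mul_pow, ← mul_assoc (2 * d + 1)]; gcongr; omega
    exact_mod_cast this
  · have h5 := hgap m h.pos ν hν0 hc hν _ (hη.pow T.card)
    rw [div_lt_iff₀ hδ] at hA
    have h6 : (A + 1) * P1 ^ k ≤ P2 ^ k := by
      calc _ ≤ (A + 1) ^ k * P1 ^ k := by gcongr; exact Nat.le_self_pow (by omega) _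
        _ ≤ _ := by rw [← mul_pow]; gcongr; omega
    have h7 : ((A + 1) * P1 ^ k : ℝ) ≤ P2 ^ k := by exact_mod_cast h6
    have h8 : δ ≤ P1 ^ k * D ^ 2 * ht (α * η) := (h5.trans h4).trans
      (mul_le_mul_of_nonneg_right (hT'.trans (by gcongr)) hH)
    calc (1 : ℝ) ≤ (A + 1) * δ := by linarith
      _ ≤ (A + 1) * (P1 ^ k * D ^ 2 * ht (α * η)) := by gcongr
      _ = D ^ 2 * ((A + 1) * P1 ^ k) * ht (α * η) := by ring
      _ ≤ _ := by gcongr

lemma conv (P k1 : ℕ) {ε : ℝ} (hε : 0 < ε) : ∃ c : ℝ, 0 < c ∧ ∀ D : ℕ, 0 < D →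
    ∃ k ≥ k1, D ≤ 2 ^ k ^ 2 ∧ c * P ^ k ≤ (D : ℝ) ^ ε := by
  classical
  set L := log (P + 1) with hL
  have hL0 : 0 ≤ L := log_nonneg (by simp)
  have ha : 0 < ε * log 2 := mul_pos hε (log_pos one_lt_two)
  refine ⟨exp (-(k1 * L + L + L ^ 2 / (4 * (ε * log 2)))), exp_pos _, fun D hD => ?_⟩
  have hex : ∃ k, k1 ≤ k ∧ D ≤ 2 ^ k ^ 2 := ⟨k1 + D, by omega, le_trans ((Nat.le_add_left _ _).trans
    (Nat.le_self_pow two_ne_zero _)) (Nat.lt_pow_self one_lt_two).le⟩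
  refine ⟨_, (Nat.find_spec hex).1, (Nat.find_spec hex).2, ?_⟩
  have hD' : (0 : ℝ) < D := by exact_mod_cast hD
  have h1 : ∀ k : ℕ, (P : ℝ) ^ k ≤ exp (k * L) := fun k => by
    rw [exp_nat_mul, hL, exp_log (by positivity)]; gcongr; simp
  refine (mul_le_mul_of_nonneg_left (h1 _) (exp_pos _).le).trans ?_
  rw [← exp_add, rpow_def_of_pos hD', exp_le_exp]
  have h2 : 0 ≤ L ^ 2 / (4 * (ε * log 2)) := by positivity
  have h3 : 0 ≤ log D * ε := mul_nonneg (log_natCast_nonneg D) hε.le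
  rcases (Nat.find_spec hex).1.eq_or_lt with h | h
  · rw [← h]; linarith
  obtain ⟨j, hj⟩ : ∃ j, Nat.find hex = j + 1 := ⟨Nat.find hex - 1, by omega⟩
  have h4 : 2 ^ j ^ 2 ≤ D := by
    by_contra hc
    exact Nat.find_min hex (show j < Nat.find hex by omega) ⟨by omega, by omega⟩
  have h5 := log_le_log (by positivity) (show (2 : ℝ) ^ j ^ 2 ≤ D by exact_mod_cast h4)
  rw [log_pow] at h5
  rw [hj]
  push_cast at h5 ⊢
  have h6 : j * L ≤ ε * log 2 * j ^ 2 + L ^ 2 / (4 * (ε * log 2)) := by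
    rw [← sub_le_iff_le_add', le_div_iff₀ (by positivity)]
    nlinarith [sq_nonneg (2 * (ε * log 2) * j - L)]
  nlinarith [mul_le_mul_of_nonneg_right h5 hε.le, mul_nonneg (Nat.cast_nonneg (α := ℝ) k1) hL0]

theorem main' (S : Finset ℕ) (hS : ∀ p ∈ S, p.Prime)
    (hind : ∀ w : ι → ℤ, Tor (∏ a, c.t a 1 ^ w a) → w = 0) {ε : ℝ} (hε : 0 < ε) :
    ∃ C : ℝ, 0 < C ∧ ∀ α m n D, c.At S α m n D → ∀ η, c.Dv η →
      C / (D : ℝ) ^ (2 + ε) ≤ ht (α * η) := by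
  obtain ⟨P, hP⟩ := main S hS hind
  obtain ⟨k1, hk1⟩ := eventually_atTop.1 hP
  obtain ⟨C, hC, h⟩ := conv P k1 hε
  refine ⟨C, hC, fun α m n D hα η hη => ?_⟩
  have hD0 : 0 < D := let ⟨T, hT⟩ := hα.idx; T.card_pos.trans_le hT
  obtain ⟨k, hk, h1, h2⟩ := h D hD0
  have h3 := hk1 k hk D h1 α m n hα η hη
  have hD' : (0 : ℝ) < D := by exact_mod_cast hD0
  rw [div_le_iff₀ (by positivity), rpow_add hD', rpow_two]
  calc C = C * 1 := (mul_one C).symm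
    _ ≤ C * (D ^ 2 * P ^ k * ht (α * η)) := by gcongr
    _ = ht (α * η) * (D ^ 2 * (C * P ^ k)) := by ring
    _ ≤ _ := by have := ht_nonneg (α * η); gcongr

end Ctx

end Pool.Agent.Lib.MP_f61260_nt
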