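import Mathlib

set_option autoImplicit false

namespace Pool.Agent.Lib.MP_f61260_nt

open Finset Polynomial

variable {K : Type} [NormedField K] [IsUltrametricDist K]

lemma nadd_le {x y : K} {C : ℝ} (hx : ‖x‖ ≤ C) (hy : ‖y‖ ≤ C) : ‖x + y‖ ≤ C :=
  (IsUltrametricDist.norm_add_le_max x y).trans (max_le hx hy)

lemma nsub_le {x y : K} {C : ℝ} (hx : ‖x‖ ≤ C) (hy : ‖y‖ ≤ C) : ‖x - y‖ ≤ C := by
  rw [sub_eq_add_neg]; exact nadd_le hx (by simpa using hy)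

lemma nadd_lt {x y : K} {C : ℝ} (hx : ‖x‖ < C) (hy : ‖y‖ < C) : ‖x + y‖ < C :=
  (IsUltrametricDist.norm_add_le_max x y).trans_lt (max_lt hx hy)

lemma nsub_lt {x y : K} {C : ℝ} (hx : ‖x‖ < C) (hy : ‖y‖ < C) : ‖x - y‖ < C := by
  rw [sub_eq_add_neg]; exact nadd_lt hx (by simpa using hy)

lemma nsum_le {ι : Type} {s : Finset ι} {f : ι → K} {C : ℝ} (hC : 0 ≤ C)
    (h : ∀ i ∈ s, ‖f i‖ ≤ C) : ‖∑ i ∈ s, f i‖ ≤ C :=
  IsUltrametricDist.norm_sum_le_of_forall_le_of_nonneg hC h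

lemma norm_eq_of_sub_lt {x y : K} (h : ‖x - y‖ < ‖y‖) : ‖x‖ = ‖y‖ := by
  have h1 : x = (x - y) + y := by ring
  rw [h1, IsUltrametricDist.norm_add_eq_max_of_norm_ne_norm h.ne, max_eq_right h.le]

lemma norm_one_add {x : K} (h : ‖x‖ < 1) : ‖1 + x‖ = 1 := by
  have := norm_eq_of_sub_lt (x := 1 + x) (y := 1) (by simpa using h)
  simpa using this

lemma nnat (n : ℕ) : ‖(n : K)‖ ≤ 1 := IsUltrametricDist.norm_natCast_le_one K n

lemma add_pow_q {p : ℕ} (hp : p.Prime) (n : ℕ) {x y : K} {R : ℝ} (hx : ‖x‖ ≤ R) (hy : ‖y‖ ≤ R) :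
    ‖(x + y) ^ p ^ n - x ^ p ^ n - y ^ p ^ n‖ ≤ ‖(p : K)‖ * (‖x‖ * R ^ (p ^ n - 1)) := by
  have hR : 0 ≤ R := (norm_nonneg _).trans hx
  rw [add_pow_prime_pow_eq' hp x y n]
  have : x ^ p ^ n + y ^ p ^ n + (p : K) * ∑ k ∈ Ioo 0 (p ^ n),
      x ^ k * y ^ (p ^ n - k) * (((p ^ n).choose k / p : ℕ) : K) - x ^ p ^ n - y ^ p ^ n =
      (p : K) * ∑ k ∈ Ioo 0 (p ^ n), x ^ k * y ^ (p ^ n - k) * (((p ^ n).choose k / p : ℕ) : K) := by
    ring
  rw [this, norm_mul]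
  refine mul_le_mul_of_nonneg_left (nsum_le (by positivity) fun k hk => ?_) (norm_nonneg _)
  obtain ⟨hk1, hk2⟩ := Finset.mem_Ioo.1 hk
  rw [norm_mul, norm_mul, norm_pow, norm_pow]
  obtain ⟨j, rfl⟩ : ∃ j, k = j + 1 := ⟨k - 1, by omega⟩
  calc ‖x‖ ^ (j + 1) * ‖y‖ ^ (p ^ n - (j + 1)) * ‖(((p ^ n).choose (j + 1) / p : ℕ) : K)‖
      ≤ (‖x‖ * R ^ j) * R ^ (p ^ n - (j + 1)) * 1 := by
        rw [pow_succ']
        gcongr
        exact nnat _
    _ = ‖x‖ * R ^ (p ^ n - 1) := by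
        rw [mul_one, mul_assoc, ← pow_add]; congr 2; omega

lemma add_pow_q' {p : ℕ} (hp : p.Prime) (n : ℕ) {x y : K} {R : ℝ} (hx : ‖x‖ ≤ R) (hy : ‖y‖ ≤ R) :
    ‖(x + y) ^ p ^ n - x ^ p ^ n - y ^ p ^ n‖ ≤ ‖(p : K)‖ * R ^ p ^ n := by
  have hR : 0 ≤ R := (norm_nonneg _).trans hx
  refine (add_pow_q hp n hx hy).trans (mul_le_mul_of_nonneg_left ?_ (norm_nonneg _))
  have : p ^ n = (p ^ n - 1) + 1 := by have := pow_pos hp.pos n; omega
  conv_rhs => rw [this, pow_succ']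
  gcongr

lemma sum_pow_q {p : ℕ} (hp : p.Prime) (n : ℕ) {ι : Type} (s : Finset ι) (f : ι → K) {R : ℝ}
    (hR : 0 ≤ R) (h : ∀ i ∈ s, ‖f i‖ ≤ R) :
    ‖(∑ i ∈ s, f i) ^ p ^ n - ∑ i ∈ s, f i ^ p ^ n‖ ≤ ‖(p : K)‖ * R ^ p ^ n := by
  classical
  induction s using Finset.induction_on with
  | empty =>
    rw [Finset.sum_empty, Finset.sum_empty, zero_pow (pow_pos hp.pos n).ne', sub_zero, norm_zero]
    positivity
  | insert a s ha ih =>
    rw [Finset.sum_insert ha, Finset.sum_insert ha]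
    have h1 := add_pow_q' hp n (h a (by simp))
      (nsum_le hR fun i hi => h i (Finset.mem_insert_of_mem hi))
    have h2 := ih fun i hi => h i (Finset.mem_insert_of_mem hi)
    have := nadd_le h1 h2
    convert this using 2
    ring

lemma pow_succ_sub_le {a b : K} {R : ℝ} (ha : ‖a‖ ≤ R) (hb : ‖b‖ ≤ R) (k : ℕ) :
    ‖a ^ (k + 1) - b ^ (k + 1)‖ ≤ ‖a - b‖ * R ^ k := by
  have hR : 0 ≤ R := (norm_nonneg _).trans ha
  induction k with
  | zero => simp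
  | succ k ih =>
    have : a ^ (k + 1 + 1) - b ^ (k + 1 + 1) = a * (a ^ (k + 1) - b ^ (k + 1)) + (a - b) * b ^ (k + 1) := by
      ring
    rw [this]
    refine nadd_le ?_ ?_
    · rw [norm_mul]
      calc ‖a‖ * ‖a ^ (k + 1) - b ^ (k + 1)‖ ≤ R * (‖a - b‖ * R ^ k) := by gcongr
        _ = ‖a - b‖ * R ^ (k + 1) := by ring
    · rw [norm_mul, norm_pow]; gcongr

lemma pow_sub_le_one {a b : K} (ha : ‖a‖ ≤ 1) (hb : ‖b‖ ≤ 1) (k : ℕ) :
    ‖a ^ k - b ^ k‖ ≤ ‖a - b‖ := by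
  rcases k with _ | k
  · simp
  · simpa using pow_succ_sub_le ha hb k

lemma pow_p_sub {p : ℕ} (hp : p.Prime) {a b : K} {R : ℝ} (ha : ‖a‖ ≤ R) (hb : ‖b‖ ≤ R) :
    ‖a ^ p - b ^ p‖ ≤ max (‖a - b‖ ^ p) (‖(p : K)‖ * (‖a - b‖ * R ^ (p - 1))) := by
  have h := add_pow_q hp 1 (x := a - b) (y := b) (nsub_le ha hb) hb
  simp only [pow_one, sub_add_cancel] at h
  have : a ^ p - b ^ p = (a - b) ^ p + (a ^ p - (a - b) ^ p - b ^ p) := by ring
  rw [this]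
  exact nadd_le (by rw [norm_pow]; exact le_max_left _ _) (h.trans (le_max_right _ _))

lemma sub_pow_le {p : ℕ} (hp : p.Prime) {a b : K} {R : ℝ} (ha : ‖a‖ ≤ R) (hb : ‖b‖ ≤ R) :
    ‖a - b‖ ^ p ≤ max ‖a ^ p - b ^ p‖ (‖(p : K)‖ * (‖a - b‖ * R ^ (p - 1))) := by
  have h := add_pow_q hp 1 (x := a - b) (y := b) (nsub_le ha hb) hb
  simp only [pow_one, sub_add_cancel] at h
  have : (a - b) ^ p = (a ^ p - b ^ p) - (a ^ p - (a - b) ^ p - b ^ p) := by ring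
  rw [← norm_pow, this]
  exact nsub_le (le_max_left _ _) (h.trans (le_max_right _ _))

lemma sub_lt_one_of_pow {p : ℕ} (hp : p.Prime) (hpK : ‖(p : K)‖ < 1) {a b : K} (ha : ‖a‖ ≤ 1)
    (hb : ‖b‖ ≤ 1) (h : ‖a ^ p - b ^ p‖ < 1) : ‖a - b‖ < 1 := by
  have h1 := sub_pow_le hp ha hb
  have h2 : ‖a - b‖ ≤ 1 := nsub_le ha hb
  have h3 : ‖(p : K)‖ * (‖a - b‖ * 1 ^ (p - 1)) < 1 := by
    rw [one_pow, mul_one]
    exact lt_of_le_of_lt (mul_le_of_le_one_right (norm_nonneg _) h2) hpK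
  by_contra h4
  have : ‖a - b‖ = 1 := le_antisymm h2 (not_lt.1 h4)
  rw [this, one_pow] at h1
  rw [this] at h3
  exact absurd (h1.trans_lt (max_lt h h3)) (lt_irrefl _)

/-- relative closeness -/
def Rel (ϑ : ℝ) (a b : K) : Prop := ‖a - b‖ ≤ ϑ * ‖b‖

namespace Rel

variable {ϑ : ℝ} {a b c d : K}

omit [IsUltrametricDist K] in
lemma refl (h : 0 ≤ ϑ) (a : K) : Rel ϑ a a := by simp [Rel]; positivity

omit [IsUltrametricDist K] in
lemma mono {ϑ' : ℝ} (h : Rel ϑ a b) (h' : ϑ ≤ ϑ') : Rel ϑ' a b :=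
  le_trans h (mul_le_mul_of_nonneg_right h' (norm_nonneg _))

lemma norm_le (h : Rel ϑ a b) (h1 : ϑ ≤ 1) : ‖a‖ ≤ ‖b‖ := by
  have : a = (a - b) + b := by ring
  rw [this]
  exact nadd_le (le_trans h (mul_le_of_le_one_left (norm_nonneg _) h1)) le_rfl

lemma norm_eq (h : Rel ϑ a b) (h1 : ϑ < 1) : ‖a‖ = ‖b‖ := by
  by_cases hb : b = 0
  · subst hb; simpa [Rel] using h
  · exact norm_eq_of_sub_lt (lt_of_le_of_lt h (mul_lt_of_lt_one_left (norm_pos_iff.2 hb) h1))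

lemma symm (h : Rel ϑ a b) (h1 : ϑ < 1) : Rel ϑ b a := by
  unfold Rel; rw [norm_sub_rev, h.norm_eq h1]; exact h

lemma trans (h : Rel ϑ a b) (h' : Rel ϑ b c) (h0 : 0 ≤ ϑ) (h1 : ϑ ≤ 1) : Rel ϑ a c := by
  unfold Rel
  have : a - c = (a - b) + (b - c) := by ring
  rw [this]
  exact nadd_le (le_trans h (mul_le_mul_of_nonneg_left (h'.norm_le h1) h0)) h'

lemma mul (h : Rel ϑ a b) (h' : Rel ϑ c d) (h0 : 0 ≤ ϑ) (h1 : ϑ ≤ 1) : Rel ϑ (a * c) (b * d) := by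
  unfold Rel
  have : a * c - b * d = (a - b) * c + b * (c - d) := by ring
  rw [this]
  refine nadd_le ?_ ?_
  · rw [norm_mul, norm_mul, ← mul_assoc]
    exact mul_le_mul h (h'.norm_le h1) (norm_nonneg _) (by positivity)
  · rw [norm_mul, norm_mul]
    calc ‖b‖ * ‖c - d‖ ≤ ‖b‖ * (ϑ * ‖d‖) := mul_le_mul_of_nonneg_left h' (norm_nonneg _)
      _ = _ := by ring

lemma prod {ι : Type} (s : Finset ι) {f g : ι → K} (h : ∀ i ∈ s, Rel ϑ (f i) (g i)) (h0 : 0 ≤ ϑ)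
    (h1 : ϑ ≤ 1) : Rel ϑ (∏ i ∈ s, f i) (∏ i ∈ s, g i) := by
  classical
  induction s using Finset.induction_on with
  | empty => simpa using refl h0 1
  | insert a s ha ih =>
    rw [Finset.prod_insert ha, Finset.prod_insert ha]
    exact (h a (by simp)).mul (ih fun i hi => h i (Finset.mem_insert_of_mem hi)) h0 h1

lemma pow (h : Rel ϑ a b) (h0 : 0 ≤ ϑ) (h1 : ϑ ≤ 1) (k : ℕ) : Rel ϑ (a ^ k) (b ^ k) := by
  have := prod (Finset.range k) (f := fun _ => a) (g := fun _ => b) (fun _ _ => h) h0 h1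
  simpa using this

lemma inv (h : Rel ϑ a b) (h1 : ϑ < 1) : Rel ϑ a⁻¹ b⁻¹ := by
  by_cases hb : b = 0
  · subst hb
    have : a = 0 := by simpa [Rel] using h
    subst this; simp [Rel]
  have hn := h.norm_eq h1
  have ha : a ≠ 0 := by rw [← norm_pos_iff, hn]; exact norm_pos_iff.2 hb
  unfold Rel
  have : a⁻¹ - b⁻¹ = -(a - b) * a⁻¹ * b⁻¹ := by field_simp; ring
  rw [this, norm_mul, norm_mul, norm_neg, norm_inv, hn]
  refine mul_le_mul_of_nonneg_right ?_ (norm_nonneg _)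
  rw [← div_eq_mul_inv, div_le_iff₀ (norm_pos_iff.2 hb)]
  exact h

lemma zpow (h : Rel ϑ a b) (h0 : 0 ≤ ϑ) (h1 : ϑ < 1) (k : ℤ) : Rel ϑ (a ^ k) (b ^ k) := by
  rcases k with k | k
  · simpa using h.pow h0 h1.le k
  · simpa [zpow_negSucc] using (h.pow h0 h1.le (k + 1)).inv h1

/-- extracting `p`-th roots -/
lemma root {p : ℕ} (hp : p.Prime) {β : ℝ} (hβ0 : 0 ≤ β) (hβ : β ^ (p - 1) = ‖(p : K)‖)
    (h : Rel ϑ (a ^ p) (b ^ p)) (h1 : ϑ ≤ 1) {η : ℝ} (hη0 : 0 ≤ η) (hη : ϑ ≤ η ^ p)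
    (hβη : β ≤ η) : Rel η a b := by
  have hab : ‖a‖ ≤ ‖b‖ := by
    have := h.norm_le h1
    rw [norm_pow, norm_pow] at this
    exact le_of_pow_le_pow_left₀ hp.ne_zero (norm_nonneg _) this
  have h2 := sub_pow_le hp hab le_rfl
  unfold Rel
  rcases le_max_iff.1 h2 with h3 | h3
  · refine le_of_pow_le_pow_left₀ hp.ne_zero (by positivity) (h3.trans (le_trans h ?_))
    rw [mul_pow, norm_pow]
    gcongr
  · by_cases h0 : ‖a - b‖ = 0
    · rw [h0]; positivity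
    have hpos : 0 < ‖a - b‖ := lt_of_le_of_ne (norm_nonneg _) (Ne.symm h0)
    have hp1 : p = (p - 1) + 1 := by have := hp.pos; omega
    rw [← hβ] at h3
    have h4 : ‖a - b‖ ^ (p - 1) ≤ (β * ‖b‖) ^ (p - 1) := by
      refine le_of_mul_le_mul_right ?_ hpos
      rw [← pow_succ, ← hp1, mul_pow]
      calc _ ≤ _ := h3
        _ = _ := by ring
    have h5 : ‖a - b‖ ≤ β * ‖b‖ :=
      le_of_pow_le_pow_left₀ (by have := hp.two_le; omega) (by positivity) h4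
    exact h5.trans (by gcongr)

end Rel

lemma coeff_prod_le {ι : Type} (s : Finset ι) (y : ι → K) {r : ℝ} (hr : 0 ≤ r) (k : ℕ) :
    ‖(∏ i ∈ s, (X - C (y i))).coeff k‖ * r ^ k ≤ ∏ i ∈ s, max r ‖y i‖ := by
  classical
  induction s using Finset.induction_on generalizing k with
  | empty =>
    rcases k with _ | k
    · simp
    · simp [Polynomial.coeff_one]
  | insert a s ha ih =>
    rw [Finset.prod_insert ha, Finset.prod_insert ha, sub_mul, Polynomial.coeff_sub,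
      Polynomial.coeff_C_mul]
    have hP : 0 ≤ ∏ i ∈ s, max r ‖y i‖ := Finset.prod_nonneg fun i _ => le_max_of_le_left hr
    have h2 : ‖y a * (∏ i ∈ s, (X - C (y i))).coeff k‖ * r ^ k ≤
        max r ‖y a‖ * ∏ i ∈ s, max r ‖y i‖ := by
      rw [norm_mul, mul_assoc]
      exact mul_le_mul (le_max_right _ _) (ih k) (by positivity) (le_max_of_le_left hr)
    have h1 : ‖(X * ∏ i ∈ s, (X - C (y i))).coeff k‖ * r ^ k ≤
        max r ‖y a‖ * ∏ i ∈ s, max r ‖y i‖ := by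
      rcases k with _ | k
      · simp only [Polynomial.coeff_X_mul_zero, norm_zero, zero_mul]
        exact mul_nonneg (le_max_of_le_left hr) hP
      · rw [Polynomial.coeff_X_mul, pow_succ, ← mul_assoc, mul_comm]
        exact mul_le_mul (le_max_left _ _) (ih k) (by positivity) (le_max_of_le_left hr)
    have h3 := IsUltrametricDist.norm_add_le_max ((X * ∏ i ∈ s, (X - C (y i))).coeff k)
      (-(y a * (∏ i ∈ s, (X - C (y i))).coeff k))
    rw [← sub_eq_add_neg, norm_neg] at h3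
    rcases le_max_iff.1 h3 with h4 | h4
    · exact (mul_le_mul_of_nonneg_right h4 (by positivity)).trans h1
    · exact (mul_le_mul_of_nonneg_right h4 (by positivity)).trans h2

lemma eval_le {P : K[X]} {x : K} {C : ℝ} (hC : 0 ≤ C) (h : ∀ k, ‖P.coeff k‖ * ‖x‖ ^ k ≤ C) :
    ‖P.eval x‖ ≤ C := by
  rw [Polynomial.eval_eq_sum_range]
  exact nsum_le hC fun k _ => by rw [norm_mul, norm_pow]; exact h k

lemma interp_le {ι : Type} [DecidableEq ι] {O : Finset ι} {v : ι → K} (hinj : Set.InjOn v O)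
    {P : K[X]} (hP : P.degree < O.card) {r B : ℝ}
    (hr : 0 ≤ r) (hB : 0 ≤ B) (h1 : ∀ i ∈ O, ‖v i‖ ≤ r)
    (h2 : ∀ i ∈ O, ∀ j ∈ O, j ≠ i → r ≤ ‖v i - v j‖)
    (h3 : ∀ i ∈ O, ‖P.eval (v i)‖ ≤ B) (k : ℕ) : ‖P.coeff k‖ * r ^ k ≤ B := by
  rw [Lagrange.eq_interpolate hinj hP, Lagrange.interpolate_eq_sum, Polynomial.finsetSum_coeff]
  have key : ∀ y ∈ O, ‖(C (eval (v y) P / ∏ j ∈ O.erase y, (v y - v j)) *
      ∏ j ∈ O.erase y, (X - C (v j))).coeff k‖ * r ^ k ≤ B := by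
    intro y hy
    have hpos : 0 < ∏ y' ∈ O.erase y, ‖v y - v y'‖ :=
      Finset.prod_pos fun y' hy' => norm_pos_iff.2 (sub_ne_zero.2 fun h =>
        (Finset.ne_of_mem_erase hy').symm (hinj hy (Finset.mem_of_mem_erase hy') h))
    rw [Polynomial.coeff_C_mul, norm_mul, norm_div, norm_prod]
    have h4 := coeff_prod_le (O.erase y) v hr k
    have h5 : ∏ i ∈ O.erase y, max r ‖v i‖ ≤ ∏ y' ∈ O.erase y, ‖v y - v y'‖ :=
      Finset.prod_le_prod (fun i _ => le_max_of_le_left hr) fun i hi => by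
        rw [max_eq_left (h1 i (Finset.mem_of_mem_erase hi))]
        exact h2 y hy i (Finset.mem_of_mem_erase hi) (Finset.ne_of_mem_erase hi)
    rw [div_mul_eq_mul_div, div_mul_eq_mul_div, div_le_iff₀ hpos, mul_assoc]
    exact mul_le_mul (h3 y hy) (h4.trans h5) (by positivity) hB
  rcases O.eq_empty_or_nonempty with rfl | hne
  · simpa using hB
  obtain ⟨y, hy, hy'⟩ := IsUltrametricDist.exists_norm_finsetSum_le_of_nonempty hne
    (fun y => (C (eval (v y) P / ∏ j ∈ O.erase y, (v y - v j)) *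
      ∏ j ∈ O.erase y, (X - C (v j))).coeff k)
  exact (mul_le_mul_of_nonneg_right hy' (by positivity)).trans (key y hy)

lemma ortho {P : K[X]} {x : K} (h : ∀ k l, k ≠ l → P.coeff k ≠ 0 → P.coeff l ≠ 0 →
    ‖P.coeff k‖ * ‖x‖ ^ k ≠ ‖P.coeff l‖ * ‖x‖ ^ l) (k : ℕ) :
    ‖P.coeff k‖ * ‖x‖ ^ k ≤ ‖P.eval x‖ := by
  by_cases hk : P.coeff k = 0
  · simp [hk]
  have hks : k ∈ P.support := Polynomial.mem_support_iff.2 hk
  rw [Polynomial.eval_eq_sum, Polynomial.sum,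
    IsUltrametricDist.norm_sum_eq_sup'_of_pairwise_ne ⟨k, hks⟩]
  · refine le_trans ?_ (Finset.le_sup' (fun i => ‖P.coeff i * x ^ i‖) hks)
    rw [norm_mul, norm_pow]
  · intro i hi j hj hij
    simp only [norm_mul, norm_pow]
    exact h i j hij (Polynomial.mem_support_iff.1 hi) (Polynomial.mem_support_iff.1 hj)

/-- amplification of closeness by taking `p`-th powers -/
lemma amp {p : ℕ} (hp : p.Prime) {ι : Type} (s : Finset ι) {y z : ι → K} {R : ι → ℝ}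
    (hy : ∀ i ∈ s, ‖y i‖ ≤ R i) (hz : ∀ i ∈ s, ‖z i‖ ≤ R i) {ρ : ℝ} (hρ : 0 ≤ ρ)
    (h : ∏ i ∈ s, ‖y i - z i‖ ≤ ρ * ∏ i ∈ s, R i) :
    ∏ i ∈ s, ‖y i ^ p - z i ^ p‖ ≤ max (ρ ^ p) (‖(p : K)‖ * ρ) * ∏ i ∈ s, R i ^ p := by
  classical
  have hR : ∀ i ∈ s, 0 ≤ R i := fun i hi => (norm_nonneg _).trans (hy i hi)
  have hp1 : p = (p - 1) + 1 := by have := hp.pos; omega
  have hRR : 0 ≤ ∏ i ∈ s, R i ^ p := Finset.prod_nonneg fun i hi => pow_nonneg (hR i hi) _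
  by_cases hc : ∀ i ∈ s, ‖y i ^ p - z i ^ p‖ ≤ ‖y i - z i‖ ^ p
  · refine le_trans ?_ (mul_le_mul_of_nonneg_right (le_max_left _ _) hRR)
    refine (Finset.prod_le_prod (fun i _ => norm_nonneg _) hc).trans ?_
    rw [Finset.prod_pow, Finset.prod_pow, ← mul_pow]
    exact pow_le_pow_left₀ (Finset.prod_nonneg fun i _ => norm_nonneg _) h _
  · push Not at hc
    obtain ⟨a, ha, ha'⟩ := hc
    refine le_trans ?_ (mul_le_mul_of_nonneg_right (le_max_right _ _) hRR)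
    have h1 : ‖y a ^ p - z a ^ p‖ ≤ ‖(p : K)‖ * (‖y a - z a‖ * R a ^ (p - 1)) := by
      rcases le_max_iff.1 (pow_p_sub hp (hy a ha) (hz a ha)) with h2 | h2
      · exact absurd h2 (not_le.2 ha')
      · exact h2
    have h2 : ∀ i ∈ s.erase a, ‖y i ^ p - z i ^ p‖ ≤ ‖y i - z i‖ * R i ^ (p - 1) := by
      intro i hi
      have hi' := Finset.mem_of_mem_erase hi
      have := pow_succ_sub_le (hy i hi') (hz i hi') (p - 1)
      rwa [← hp1] at this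
    calc ∏ i ∈ s, ‖y i ^ p - z i ^ p‖
        = ‖y a ^ p - z a ^ p‖ * ∏ i ∈ s.erase a, ‖y i ^ p - z i ^ p‖ :=
          (Finset.mul_prod_erase s _ ha).symm
      _ ≤ (‖(p : K)‖ * (‖y a - z a‖ * R a ^ (p - 1))) *
            ∏ i ∈ s.erase a, (‖y i - z i‖ * R i ^ (p - 1)) :=
          mul_le_mul h1 (Finset.prod_le_prod (fun i _ => norm_nonneg _) h2)
            (Finset.prod_nonneg fun i _ => norm_nonneg _)
            (mul_nonneg (norm_nonneg _) (mul_nonneg (norm_nonneg _) (pow_nonneg (hR a ha) _)))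
      _ = ‖(p : K)‖ * ((∏ i ∈ s, ‖y i - z i‖) * ∏ i ∈ s, R i ^ (p - 1)) := by
          rw [mul_assoc, Finset.mul_prod_erase s (fun i => ‖y i - z i‖ * R i ^ (p - 1)) ha,
            Finset.prod_mul_distrib]
      _ ≤ ‖(p : K)‖ * ((ρ * ∏ i ∈ s, R i) * ∏ i ∈ s, R i ^ (p - 1)) := by
          refine mul_le_mul_of_nonneg_left (mul_le_mul_of_nonneg_right h ?_) (norm_nonneg _)
          exact Finset.prod_nonneg fun i hi => pow_nonneg (hR i hi) _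
      _ = ‖(p : K)‖ * ρ * ∏ i ∈ s, R i ^ p := by
          rw [mul_assoc ρ, ← Finset.prod_mul_distrib, mul_assoc]
          congr 2
          refine Finset.prod_congr rfl fun i _ => ?_
          rw [← pow_succ', ← hp1]

lemma amp_iter {p : ℕ} (hp : p.Prime) {ι : Type} (s : Finset ι) {y z : ι → K} {R : ι → ℝ}
    (hy : ∀ i ∈ s, ‖y i‖ ≤ R i) (hz : ∀ i ∈ s, ‖z i‖ ≤ R i) (ρ : ℕ → ℝ) (hρ : ∀ t, 0 ≤ ρ t)
    (hs : ∀ t, ρ t ^ p ≤ ρ (t + 1) ∧ ‖(p : K)‖ * ρ t ≤ ρ (t + 1))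
    (h : ∏ i ∈ s, ‖y i - z i‖ ≤ ρ 0 * ∏ i ∈ s, R i) (t : ℕ) :
    ∏ i ∈ s, ‖y i ^ p ^ t - z i ^ p ^ t‖ ≤ ρ t * ∏ i ∈ s, R i ^ p ^ t := by
  have hR : ∀ i ∈ s, 0 ≤ R i := fun i hi => (norm_nonneg _).trans (hy i hi)
  induction t with
  | zero => simpa using h
  | succ t ih =>
    have := amp hp s (y := fun i => y i ^ p ^ t) (z := fun i => z i ^ p ^ t)
      (R := fun i => R i ^ p ^ t)
      (fun i hi => by rw [norm_pow]; exact pow_le_pow_left₀ (norm_nonneg _) (hy i hi) _)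
      (fun i hi => by rw [norm_pow]; exact pow_le_pow_left₀ (norm_nonneg _) (hz i hi) _)
      (hρ t) ih
    simp only [← pow_mul, ← pow_succ] at this
    exact this.trans (mul_le_mul_of_nonneg_right (max_le (hs t).1 (hs t).2)
      (Finset.prod_nonneg fun i hi => pow_nonneg (hR i hi) _))

lemma frob_eval {p : ℕ} (hp : p.Prime) (t : ℕ) {P P' : K[X]} {n : ℕ} (hn : P.natDegree ≤ n)
    (hn' : P'.natDegree ≤ n) (h1 : ∀ k, ‖P.coeff k‖ ≤ 1)
    (h2 : ∀ k, ‖P'.coeff k - P.coeff k ^ p ^ t‖ ≤ ‖(p : K)‖) {x : K} {R : ℝ} (hR : 1 ≤ R)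
    (hx : ‖x‖ ≤ R) : ‖P'.eval (x ^ p ^ t) - P.eval x ^ p ^ t‖ ≤ ‖(p : K)‖ * (R ^ n) ^ p ^ t := by
  rw [Polynomial.eval_eq_sum_range' (Nat.lt_succ_of_le hn),
    Polynomial.eval_eq_sum_range' (Nat.lt_succ_of_le hn')]
  have hR0 : 0 ≤ R := zero_le_one.trans hR
  have hxk : ∀ k ∈ Finset.range (n + 1), ‖x‖ ^ k ≤ R ^ n := fun k hk =>
    (pow_le_pow_left₀ (norm_nonneg _) hx k).trans
      (pow_le_pow_right₀ hR (Nat.lt_succ_iff.1 (Finset.mem_range.1 hk)))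
  have h3 := sum_pow_q hp t (Finset.range (n + 1)) (fun k => P.coeff k * x ^ k) (R := R ^ n)
    (by positivity) fun k hk => by
      rw [norm_mul, norm_pow]
      exact (mul_le_of_le_one_left (by positivity) (h1 k)).trans (hxk k hk)
  have h4 : ‖∑ k ∈ Finset.range (n + 1), (P'.coeff k * (x ^ p ^ t) ^ k -
      (P.coeff k * x ^ k) ^ p ^ t)‖ ≤ ‖(p : K)‖ * (R ^ n) ^ p ^ t := by
    refine nsum_le (by positivity) fun k hk => ?_
    have : P'.coeff k * (x ^ p ^ t) ^ k - (P.coeff k * x ^ k) ^ p ^ t =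
        (P'.coeff k - P.coeff k ^ p ^ t) * (x ^ k) ^ p ^ t := by ring
    rw [this, norm_mul, norm_pow, norm_pow]
    exact mul_le_mul (h2 k) (pow_le_pow_left₀ (by positivity) (hxk k hk) _) (by positivity)
      (norm_nonneg _)
  have := nsub_le h4 h3
  rw [Finset.sum_sub_distrib] at this
  convert this using 2
  ring

end Pool.Agent.Lib.MP_f61260_nt
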