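import Pool.Agent.Lib.MP_f61260_nt.Gal
import Pool.Agent.Lib.MP_f61260_nt.Ultra

set_option autoImplicit false

namespace Pool.Agent.Lib.MP_f61260_nt

open Polynomial

lemma IdxLe.exists_pow {𝒢 : Type} [Group 𝒢] {B A : Subgroup 𝒢} {n : ℕ} (h : IdxLe B A n)
    {σ : 𝒢} (hσ : σ ∈ B) : ∃ N : ℕ, 0 < N ∧ σ ^ N ∈ A := by
  obtain ⟨T, -⟩ := h
  have key : ∀ i j : ℕ, i < j → T.idx (B.pow_mem hσ i) = T.idx (B.pow_mem hσ j) →
      ∃ N : ℕ, 0 < N ∧ σ ^ N ∈ A := by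
    intro i j hij h
    obtain ⟨d, rfl⟩ := Nat.exists_eq_add_of_lt hij
    refine ⟨d + 1, Nat.succ_pos _, ?_⟩
    have h1 := T.idx_spec (B.pow_mem hσ i)
    have h2 := T.idx_spec (B.pow_mem hσ (i + d + 1))
    rw [← h] at h2
    have := A.mul_mem (A.inv_mem h1) h2
    rw [add_assoc, pow_add] at this
    simpa [mul_assoc] using this
  obtain ⟨i, j, hij, h⟩ := Finite.exists_ne_map_eq_of_infinite
    (fun i : ℕ => T.idx (B.pow_mem hσ i))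
  rcases lt_or_gt_of_ne hij with h' | h'
  · exact key i j h' h
  · exact key j i h' h.symm

/-- the algebraic closure of the `p`-adic numbers -/
abbrev Om (p : ℕ) [Fact p.Prime] : Type := PadicAlgCl p

/-- the local Galois group -/
abbrev LA (p : ℕ) [Fact p.Prime] : Type := Om p ≃ₐ[ℚ_[p]] Om p

variable {p : ℕ} [hp : Fact p.Prime]

lemma niso (σ : LA p) (x : Om p) : ‖σ x‖ = ‖x‖ := (spectralNorm_eq_of_equiv σ x).symm

lemma fx_top {x : Om p} (h : Fx (⊤ : Subgroup (LA p)) x) :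
    ∃ c : ℚ_[p], algebraMap ℚ_[p] (Om p) c = x :=
  (InfiniteGalois.mem_range_algebraMap_iff_fixed x).2 fun σ => h σ (Subgroup.mem_top σ)

lemma norm_alg (c : ℚ_[p]) : ‖algebraMap ℚ_[p] (Om p) c‖ = ‖c‖ := PadicAlgCl.norm_extends p c

lemma norm_nat (n : ℕ) : ‖(n : Om p)‖ = ‖(n : ℚ_[p])‖ := by
  rw [← norm_alg, map_natCast]

lemma np_eq : ‖(p : Om p)‖ = (p : ℝ)⁻¹ := by rw [norm_nat, Padic.norm_p]

lemma np_pos : 0 < ‖(p : Om p)‖ := by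
  rw [np_eq]; have := hp.out.pos; positivity

lemma np_lt : ‖(p : Om p)‖ < 1 := by
  rw [np_eq]; exact inv_lt_one_of_one_lt₀ (by exact_mod_cast hp.out.one_lt)

/-- finite index in the local Galois group -/
def Fi (A : Subgroup (LA p)) : Prop := ∃ n, IdxLe ⊤ A n

lemma Fi.inf {A B : Subgroup (LA p)} (h : Fi A) (h' : Fi B) : Fi (A ⊓ B) :=
  let ⟨_, h1⟩ := h; let ⟨_, h2⟩ := h'; ⟨_, h1.inf h2⟩

lemma fi_St (y : Om p) : Fi (St ℚ_[p] y) := idx_alg (Algebra.IsIntegral.isIntegral y)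

lemma disc {A : Subgroup (LA p)} (T : Trans ⊤ A) {x : Om p} (hx : Fx A x) (h0 : x ≠ 0) :
    ∃ n : ℤ, ‖x‖ ^ T.card = ‖(p : Om p)‖ ^ n := by
  obtain ⟨c, hc⟩ := fx_top (T.prod_fx hx)
  have h1 : ‖c‖ = ‖x‖ ^ T.card := by
    rw [← norm_alg, hc, Trans.prod, norm_prod]
    simp [niso, Trans.card]
  have h2 : c ≠ 0 := by
    rw [← norm_pos_iff, h1]; exact pow_pos (norm_pos_iff.2 h0) _
  exact ⟨c.valuation, by rw [← h1, Padic.norm_eq_zpow_neg_valuation h2, np_eq, inv_zpow']⟩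

lemma exists_opt {A : Subgroup (LA p)} (hA : Fi A) {y : Om p} (hy : ¬ Fx A y) :
    ∃ b, Fx A b ∧ ∀ b', Fx A b' → ‖y - b‖ ≤ ‖y - b'‖ := by
  obtain ⟨_, T, -⟩ := hA.inf (fi_St y)
  obtain ⟨σ, hσ, hσy⟩ : ∃ σ ∈ A, σ y ≠ y := by
    by_contra h; push Not at h; exact hy h
  have hδ : 0 < ‖σ y - y‖ := norm_pos_iff.2 (sub_ne_zero.2 hσy)
  have hlow : ∀ b, Fx A b → ‖σ y - y‖ ≤ ‖y - b‖ := by
    intro b hb
    have : σ y - y = σ (y - b) - (y - b) := by rw [map_sub, hb σ hσ]; ring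
    rw [this]; exact nsub_le (niso _ _).le le_rfl
  have hv : ∀ b, Fx A b → ∃ n : ℤ, ‖y - b‖ ^ T.card = ‖(p : Om p)‖ ^ n := fun b hb =>
    disc T (((Fx.st y).mono inf_le_right).sub (hb.mono inf_le_left))
      (norm_pos_iff.1 (hδ.trans_le (hlow b hb)))
  obtain ⟨n0, hn0⟩ := exists_pow_lt_of_lt_one (pow_pos hδ T.card) (np_lt (p := p))
  obtain ⟨n, ⟨b, hb, hbn⟩, hmax⟩ := Int.exists_greatest_of_bdd
    (P := fun n : ℤ => ∃ b, Fx A b ∧ ‖y - b‖ ^ T.card = ‖(p : Om p)‖ ^ n)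
    ⟨n0, fun n ⟨b, hb, hbn⟩ => by
      have h1 := hn0.trans_le ((pow_le_pow_left₀ hδ.le (hlow b hb) _).trans hbn.le)
      rw [← zpow_natCast, zpow_lt_zpow_iff_right_of_lt_one₀ np_pos np_lt] at h1
      exact h1.le⟩
    (let ⟨n, hn⟩ := hv 0 Fx.zero; ⟨n, 0, Fx.zero, hn⟩)
  refine ⟨b, hb, fun b' hb' => ?_⟩
  obtain ⟨n', hn'⟩ := hv b' hb'
  refine le_of_pow_le_pow_left₀ T.card_pos.ne' (norm_nonneg _) ?_
  rw [hbn, hn', zpow_le_zpow_iff_right_of_lt_one₀ np_pos np_lt]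
  exact hmax n' ⟨b', hb', hn'⟩

lemma exists_unif {A : Subgroup (LA p)} (hA : Fi A) :
    ∃ π : Om p, Fx A π ∧ π ≠ 0 ∧ ∀ x, Fx A x → x ≠ 0 → ∃ k : ℤ, ‖x‖ = ‖π‖ ^ k := by
  obtain ⟨_, T, -⟩ := hA
  let V : AddSubgroup ℤ :=
    { carrier := {n | ∃ x : Om p, Fx A x ∧ x ≠ 0 ∧ ‖x‖ ^ T.card = ‖(p : Om p)‖ ^ n}
      zero_mem' := ⟨1, Fx.one, one_ne_zero, by simp⟩
      add_mem' := by
        rintro a b ⟨x, hx, hx0, hx'⟩ ⟨y, hy, hy0, hy'⟩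
        exact ⟨x * y, hx.mul hy, mul_ne_zero hx0 hy0, by
          rw [norm_mul, mul_pow, hx', hy', zpow_add₀ np_pos.ne']⟩
      neg_mem' := by
        rintro a ⟨x, hx, hx0, hx'⟩
        exact ⟨x⁻¹, hx.inv, inv_ne_zero hx0, by rw [norm_inv, inv_pow, hx', zpow_neg]⟩ }
  obtain ⟨a, ha⟩ := Int.subgroup_cyclic V
  have h1 : a ∈ V := by rw [ha]; exact AddSubgroup.subset_closure rfl
  obtain ⟨π, hπ, hπ0, hπa⟩ := h1
  refine ⟨π, hπ, hπ0, fun x hx hx0 => ?_⟩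
  obtain ⟨n, hn⟩ := disc T hx hx0
  have h2 : n ∈ V := ⟨x, hx, hx0, hn⟩
  rw [ha, AddSubgroup.mem_closure_singleton] at h2
  obtain ⟨k, hk⟩ := h2
  refine ⟨k, (pow_left_inj₀ (norm_nonneg _) (by positivity) T.card_pos.ne').1 ?_⟩
  rw [hn, ← hk, ← zpow_natCast (‖π‖ ^ k), ← zpow_mul, mul_comm k, zpow_mul, zpow_natCast, hπa,
    ← zpow_mul, smul_eq_mul, mul_comm]

lemma disc_lt {A : Subgroup (LA p)} (hA : Fi A) : ∃ N : ℕ, 0 < N ∧ ∀ x y : Om p, Fx A x →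
    Fx A y → ‖x‖ < ‖y‖ → ‖x‖ ^ N ≤ ‖(p : Om p)‖ * ‖y‖ ^ N := by
  obtain ⟨_, T, -⟩ := hA
  refine ⟨T.card, T.card_pos, fun x y hx hy h => ?_⟩
  by_cases h0 : x = 0
  · rw [h0, norm_zero, zero_pow T.card_pos.ne']; positivity
  obtain ⟨a, ha⟩ := disc T hx h0
  obtain ⟨b, hb⟩ := disc T hy (norm_pos_iff.1 ((norm_nonneg _).trans_lt h))
  have := pow_lt_pow_left₀ h (norm_nonneg _) T.card_pos.ne'
  rw [ha, hb, zpow_lt_zpow_iff_right_of_lt_one₀ np_pos np_lt] at this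
  rw [ha, hb, ← zpow_one_add₀ np_pos.ne', zpow_le_zpow_iff_right_of_lt_one₀ np_pos np_lt]
  omega

lemma padic_frob {c : Om p} (hc : Fx (⊤ : Subgroup (LA p)) c) (h : ‖c‖ ≤ 1) :
    ‖c - c ^ p ^ 1‖ ≤ ‖(p : Om p)‖ := by
  obtain ⟨d, rfl⟩ := fx_top hc
  rw [norm_alg] at h
  rw [pow_one, ← map_pow, ← map_sub, norm_alg, np_eq]
  let e : ℤ_[p] := ⟨d, h⟩
  have h1 : e - e ^ p ∈ RingHom.ker (PadicInt.toZMod (p := p)) := by
    rw [RingHom.mem_ker, map_sub, map_pow, ZMod.pow_card, sub_self]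
  rw [PadicInt.ker_toZMod, PadicInt.maximalIdeal_eq_span_p, Ideal.mem_span_singleton] at h1
  obtain ⟨f, hf⟩ := h1
  have h2 : ‖e - e ^ p‖ ≤ (p : ℝ)⁻¹ := by
    rw [hf, norm_mul, PadicInt.norm_p]
    exact mul_le_of_le_one_right (by positivity) f.norm_le_one
  simpa [PadicInt.norm_def, e] using h2

lemma poly_coeff_le {B A : Subgroup (LA p)} (T : Trans B A) (x : Om p) {r : ℝ} (hr : 0 ≤ r)
    (n : ℕ) : ‖(T.poly x).coeff n‖ * r ^ n ≤ max r ‖x‖ ^ T.card := by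
  have := coeff_prod_le Finset.univ (fun i => T.r i x) hr n
  simpa [niso, Trans.card, Trans.poly] using this

lemma exists_lt_of_prod_lt {ι : Type} {s : Finset ι} {f : ι → ℝ} (h : ∏ i ∈ s, f i < 1) :
    ∃ i ∈ s, f i < 1 := by
  by_contra h'
  push Not at h'
  exact absurd h (not_lt.2 (Finset.one_le_prod h'))

lemma frob {x : Om p} (hx : ‖x‖ ≤ 1) : ∃ σ : LA p, ‖x ^ p - σ x‖ < 1 := by
  obtain ⟨_, T, -⟩ := fi_St x
  have hc : ∀ n, ‖(T.poly x).coeff n‖ ≤ 1 := fun n => by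
    simpa [max_eq_left hx] using poly_coeff_le T x zero_le_one n
  have := frob_eval hp.out 1 (P := T.poly x) (P' := T.poly x) le_rfl le_rfl hc
    (fun n => padic_frob (T.poly_coeff (Fx.st x) n) (hc n)) le_rfl hx
  have h0 : (T.poly x).eval x = 0 := T.poly_eval_self (Fx.st x) (Subgroup.one_mem ⊤)
  rw [h0, pow_one, zero_pow hp.out.ne_zero, sub_zero, one_pow, one_pow, mul_one, T.poly_eval,
    norm_prod] at this
  obtain ⟨i, -, hi⟩ := exists_lt_of_prod_lt (this.trans_lt np_lt)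
  exact ⟨_, hi⟩

lemma res_root {A : Subgroup (LA p)} {x : Om p} (hA : Fx A x) (hx : ‖x‖ ≤ 1) :
    ∃ c, Fx A c ∧ ‖c‖ ≤ 1 ∧ ‖x - c ^ p‖ < 1 := by
  obtain ⟨σ, hσ⟩ := frob hx
  have h1 : ∀ n : ℕ, ‖x ^ p ^ n - (σ ^ n) x‖ < 1 := by
    intro n
    induction n with
    | zero => simp
    | succ n ih =>
      have h2 : ‖(x ^ p ^ n) ^ p - ((σ ^ n) x) ^ p‖ < 1 :=
        (pow_sub_le_one (by rw [norm_pow]; exact pow_le_one₀ (norm_nonneg _) hx)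
          (by rw [niso]; exact hx) p).trans_lt ih
      have h3 : ‖((σ ^ n) x) ^ p - (σ ^ (n + 1)) x‖ < 1 := by
        rw [pow_succ, AlgEquiv.mul_apply, ← map_pow, ← map_sub, niso]; exact hσ
      have := nadd_lt h2 h3
      rwa [sub_add_sub_cancel, ← pow_mul, ← pow_succ] at this
  obtain ⟨_, hT⟩ := fi_St x
  obtain ⟨N, hN, hN'⟩ := hT.exists_pow (Subgroup.mem_top σ)
  obtain ⟨M, rfl⟩ : ∃ M, N = M + 1 := ⟨N - 1, by omega⟩
  refine ⟨x ^ p ^ M, hA.pow _, by rw [norm_pow]; exact pow_le_one₀ (norm_nonneg _) hx, ?_⟩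
  have := h1 (M + 1)
  rw [mem_St.1 hN'] at this
  rwa [← pow_mul, ← pow_succ, norm_sub_rev]

lemma norm_root {K : Type} [NormedField K] {ξ : K} {n : ℕ} (hn : 0 < n) (h : ξ ^ n = 1) :
    ‖ξ‖ = 1 := by
  have := congrArg norm h
  rw [norm_pow, norm_one] at this
  exact (pow_eq_one_iff_of_nonneg (norm_nonneg _) hn.ne').1 this

lemma tame {ξ : Om p} {n : ℕ} (hn : ¬ p ∣ n) (h : ξ ^ n = 1) (h1 : ξ ≠ 1) : ‖ξ - 1‖ = 1 := by
  have hn0 : 0 < n := Nat.pos_of_ne_zero fun h => hn (h ▸ dvd_zero p)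
  have hξ := norm_root hn0 h
  refine le_antisymm (nsub_le hξ.le (by simp)) (not_lt.1 fun hlt => hn ?_)
  have h2 : ∑ i ∈ Finset.range n, ξ ^ i = 0 := by
    have := mul_geom_sum ξ n
    rw [h, sub_self] at this
    exact (mul_eq_zero.1 this).resolve_left (sub_ne_zero.2 h1)
  have h3 : ‖∑ i ∈ Finset.range n, (ξ ^ i - 1 ^ i)‖ ≤ ‖ξ - 1‖ :=
    nsum_le (norm_nonneg _) fun i _ => pow_sub_le_one hξ.le (by simp) i
  rw [Finset.sum_sub_distrib, h2] at h3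
  simp only [one_pow, Finset.sum_const, Finset.card_range, nsmul_eq_mul, mul_one, zero_sub,
    norm_neg] at h3
  rw [norm_nat] at h3
  exact Padic.norm_natCast_lt_one_iff.1 (h3.trans_lt hlt)

lemma norm_prim_eq {ζ ξ : Om p} {n : ℕ} (hn : 0 < n) (h : IsPrimitiveRoot ζ n)
    (h' : IsPrimitiveRoot ξ n) : ‖ζ - 1‖ = ‖ξ - 1‖ := by
  have : NeZero n := ⟨hn.ne'⟩
  have key : ∀ {ζ ξ : Om p}, IsPrimitiveRoot ζ n → IsPrimitiveRoot ξ n → ‖ξ - 1‖ ≤ ‖ζ - 1‖ := by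
    intro ζ ξ h h'
    obtain ⟨i, -, rfl⟩ := h.eq_pow_of_pow_eq_one h'.pow_eq_one
    simpa using pow_sub_le_one (norm_root hn h.pow_eq_one).le (norm_one (α := Om p)).le i
  exact le_antisymm (key h' h) (key h h')

lemma norm_prim_pow {ω : Om p} (h : IsPrimitiveRoot ω p) :
    ‖ω - 1‖ ^ (p - 1) = ‖(p : Om p)‖ := by
  have hp1 : p = (p - 1) + 1 := by have := hp.out.pos; omega
  have h1 := IsPrimitiveRoot.prod_one_sub_pow_eq_order (n := p - 1) (μ := ω) (hp1 ▸ h)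
  have h2 : (((p - 1 : ℕ) : Om p) + 1) = p := by exact_mod_cast hp1.symm
  rw [h2] at h1
  rw [← h1, norm_prod, Finset.prod_congr rfl (g := fun _ => ‖ω - 1‖), Finset.prod_const,
    Finset.card_range]
  intro i hi
  rw [norm_sub_rev]
  refine norm_prim_eq hp.out.pos (h.pow_of_coprime _ ?_) h
  rw [Finset.mem_range] at hi
  exact (Nat.coprime_of_lt_prime (by omega) (by omega) hp.out).symm

section cyc

variable {z : ℕ → Om p} (hz : Cyc p z)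
include hz

lemma Cyc.norm (i : ℕ) : ‖z i‖ = 1 := norm_root (pow_pos hp.out.pos i) (hz.prim i).pow_eq_one

lemma Cyc.b0 : ‖z 1 - 1‖ ^ (p - 1) = ‖(p : Om p)‖ := norm_prim_pow (by simpa using hz.prim 1)

lemma Cyc.b0_eq {ω : Om p} (h : ω ^ p = 1) (h1 : ω ≠ 1) : ‖ω - 1‖ = ‖z 1 - 1‖ :=
  norm_prim_eq hp.out.pos (prim_of_ne hp.out h h1) (by simpa using hz.prim 1)

lemma Cyc.b_pos (i : ℕ) : 0 < ‖z (i + 1) - 1‖ :=
  norm_pos_iff.2 (sub_ne_zero.2 ((hz.prim (i + 1)).ne_one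
    (Nat.one_lt_pow (by omega) hp.out.one_lt)))

lemma Cyc.b_lt (i : ℕ) : ‖z i - 1‖ < 1 := by
  induction i with
  | zero => have := (hz.prim 0).pow_eq_one; simp_all
  | succ i ih =>
    exact sub_lt_one_of_pow hp.out np_lt (hz.norm _).le (by simp) (by rwa [hz.pw, one_pow])

lemma Cyc.b_mono (i : ℕ) : ‖z i - 1‖ ≤ ‖z (i + 1) - 1‖ := by
  rw [← hz.pw i]
  simpa using pow_sub_le_one (hz.norm (i + 1)).le (norm_one (α := Om p)).le p

lemma Cyc.b0_le (i : ℕ) : ‖z 1 - 1‖ ≤ ‖z (i + 1) - 1‖ := by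
  induction i with
  | zero => exact le_rfl
  | succ i ih => exact ih.trans (hz.b_mono _)

lemma Cyc.np_le : ‖(p : Om p)‖ ≤ ‖z 1 - 1‖ := by
  rw [← hz.b0]
  exact pow_le_of_le_one (norm_nonneg _) (hz.b_lt 1).le (by have := hp.out.two_le; omega)

lemma Cyc.b_pow (i : ℕ) : ‖z (i + 2) - 1‖ ^ p = ‖z (i + 1) - 1‖ := by
  have h1 := pow_p_sub hp.out (hz.norm (i + 2)).le (norm_one (α := Om p)).le
  have h2 := sub_pow_le hp.out (hz.norm (i + 2)).le (norm_one (α := Om p)).le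
  rw [hz.pw, one_pow, one_pow, mul_one] at h1 h2
  have h3 : ‖(p : Om p)‖ * ‖z (i + 2) - 1‖ < ‖z (i + 1) - 1‖ :=
    (mul_lt_of_lt_one_right np_pos (hz.b_lt _)).trans_le (hz.np_le.trans (hz.b0_le i))
  rw [max_eq_left h3.le] at h2
  exact le_antisymm h2 ((le_max_iff.1 h1).resolve_right (not_le.2 h3))

end cyc

/-- `ee z i = p ^ (-1 / p ^ i)` -/
noncomputable def ee (z : ℕ → Om p) (i : ℕ) : ℝ := ‖z (i + 1) - 1‖ ^ (p - 1)

section cyc2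

variable {z : ℕ → Om p} (hz : Cyc p z)
include hz

lemma Cyc.ee_zero : ee z 0 = ‖(p : Om p)‖ := hz.b0

lemma Cyc.ee_pow (i : ℕ) : ee z (i + 1) ^ p = ee z i := by
  unfold ee; rw [← pow_mul, mul_comm, pow_mul, hz.b_pow]

lemma Cyc.ee_pos (i : ℕ) : 0 < ee z i := pow_pos (hz.b_pos i) _

lemma Cyc.ee_lt (i : ℕ) : ee z i < 1 :=
  pow_lt_one₀ (norm_nonneg _) (hz.b_lt _) (by have := hp.out.two_le; omega)

lemma Cyc.ee_succ (i : ℕ) : ee z i ≤ ee z (i + 1) * ee z (i + 1) := by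
  rw [← hz.ee_pow i, ← pow_two]
  exact pow_le_pow_of_le_one (hz.ee_pos _).le (hz.ee_lt _).le hp.out.two_le

lemma Cyc.ee_mono {i j : ℕ} (h : i ≤ j) : ee z i ≤ ee z j := by
  induction h with
  | refl => exact le_rfl
  | step _ ih => exact ih.trans ((hz.ee_succ _).trans
      (mul_le_of_le_one_left (hz.ee_pos _).le (hz.ee_lt _).le))

lemma Cyc.ee_pow' (i : ℕ) : ee z i ^ p ^ i = ‖(p : Om p)‖ := by
  induction i with
  | zero => simpa using hz.ee_zero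
  | succ i ih => rw [pow_succ', pow_mul, hz.ee_pow, ih]

lemma Cyc.b0_le_ee : ‖z 1 - 1‖ ≤ ee z 1 := by
  refine le_of_pow_le_pow_left₀ hp.out.ne_zero (hz.ee_pos _).le ?_
  rw [hz.ee_pow, hz.ee_zero, ← hz.b0]
  exact pow_le_pow_of_le_one (norm_nonneg _) (hz.b_lt _).le (Nat.sub_le _ _)

end cyc2

end Pool.Agent.Lib.MP_f61260_nt
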