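import Pool.Agent.Lib.MP_f61260_nt.Loc2

set_option autoImplicit false

namespace Pool.Agent.Lib.MP_f61260_nt

open Polynomial

variable {p : ℕ} [hp : Fact p.Prime] {z : ℕ → Om p} {A : Subgroup (LA p)} {y b : Om p} {ϑ : ℝ}

lemma growth {i : ℕ} (hi : 2 ≤ i) (hA : A ≤ St ℚ_[p] (z i)) (h : Lay z A (z (i + 1)) b ϑ)
    {b1 : Om p} {ϑ1 : ℝ} (h1 : Lay z (A ⊓ St ℚ_[p] (z (i + 1))) (z (i + 2)) b1 ϑ1) :
    ϑ1 ^ p ≤ max (ϑ ^ (p + 1)) ‖(p : Om p)‖ := by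
  have hz := h.cyc
  have hp1 : p = (p - 1) + 1 := by have := hp.out.pos; omega
  have hβp : ‖z 1 - 1‖ ^ p = ‖(p : Om p)‖ * ‖z 1 - 1‖ := by rw [← hz.b0, ← pow_succ, ← hp1]
  rcases h.le_one.eq_or_lt with h2 | h2
  · rw [h2, one_pow]; exact le_max_of_le_left (pow_le_one₀ h1.pos.le h1.le_one)
  by_contra hc
  rw [not_le, max_lt_iff] at hc
  have e1 := h1.eq
  have e0 := h.eq
  rw [hz.norm, mul_one] at e1 e0
  have hβ := hz.b_pos 0
  rw [zero_add] at hβ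
  have h3 : ‖z (i + 2) - b1‖ < 1 := by
    refine lt_of_mul_lt_mul_right ?_ h1.pos.le
    rw [e1, one_mul]
    refine lt_of_pow_lt_pow_left₀ p h1.pos.le (lt_of_le_of_lt ?_ hc.2)
    rw [hβp]; exact mul_le_of_le_one_right (norm_nonneg _) (hz.b_lt 1).le
  have hb1 : ‖b1‖ = 1 := by
    rw [← hz.norm (i + 2)]
    exact norm_eq_of_sub_lt (by rwa [norm_sub_rev, hz.norm])
  have hb0 : b1 ≠ 0 := norm_pos_iff.1 (by rw [hb1]; exact one_pos)
  set s := ‖z (i + 2) - b1‖ ^ p with hs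
  have hs0 : 0 < s := pow_pos h1.xpos _
  have hs1 : s < 1 := pow_lt_one₀ (norm_nonneg _) h3 hp.out.ne_zero
  set ε := z (i + 1) / b1 ^ p - 1 with hε
  have hε1 : ‖ε‖ ≤ s := by
    have := h1.rel_r.norm_le (pow_le_one₀ h1.pos.le h1.le_one)
    rw [hz.pw, norm_pow] at this
    have e : ε = (z (i + 1) - b1 ^ p) / b1 ^ p := by rw [hε]; field_simp
    rwa [e, norm_div, norm_pow, hb1, one_pow, div_one]
  have hεf : Fx (A ⊓ St ℚ_[p] (z (i + 1))) ε :=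
    (((Fx.st _).mono inf_le_right).div (h1.fb.pow p)).sub Fx.one
  have hε2 : ‖1 + ε‖ = 1 := norm_one_add (hε1.trans_lt hs1)
  obtain ⟨T, -⟩ := h.toKum.idx
  have hcard := h.toKum.card_eq h.nt T
  have h4 : Rel (ϑ * s) (T.prod fun σ => σ (1 + ε)) ((1 + ε) ^ p) := by
    have := Rel.prod Finset.univ (ϑ := ϑ * s) (f := fun i => T.r i (1 + ε)) (g := fun _ => 1 + ε)
      (fun i _ => by
        unfold Rel
        rw [hε2, mul_one, map_add, map_one, add_sub_add_left_eq_sub]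
        exact le_trans (h.deep (T.mem i) ε hεf) (mul_le_mul_of_nonneg_left hε1 h.pos.le))
      (mul_pos h.pos hs0).le (mul_le_one₀ h.le_one hs0.le hs1.le)
    rwa [Finset.prod_const, Finset.card_univ, ← Trans.card, hcard] at this
  have h5 : ‖(T.prod fun σ => σ (1 + ε)) - 1‖ ≤ max (ϑ * s) (s ^ p) := by
    have h6 := pow_p_sub hp.out hε2.le (norm_one (α := Om p)).le
    rw [one_pow, one_pow, mul_one, add_sub_cancel_left] at h6
    rw [← sub_add_sub_cancel _ ((1 + ε) ^ p)]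
    refine nadd_le (le_max_of_le_left ?_) (h6.trans (max_le ?_ ?_))
    · refine le_trans h4 ?_
      rw [norm_pow, hε2, one_pow, mul_one]
    · exact le_max_of_le_right (pow_le_pow_left₀ (norm_nonneg _) hε1 _)
    · exact le_max_of_le_left (mul_le_mul (hz.np_le.trans h.b0_le) hε1 (norm_nonneg _) h.pos.le)
  obtain ⟨κ, hκ, hκ1, hκ2⟩ : ∃ κ : Om p, Fx A κ ∧ ‖κ‖ = 1 ∧
      (T.prod fun σ => σ (z (i + 1))) = (κ * z (i + 1)) ^ p := by
    choose ω h6 _ h7 using fun j => h.toKum.act (T.mem j)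
    have : NeZero p := ⟨hp.out.ne_zero⟩
    obtain ⟨a, -, ha⟩ := (show IsPrimitiveRoot (z 1) p by simpa using hz.prim 1).eq_pow_of_pow_eq_one
      (ξ := ∏ j, ω j) (by rw [← Finset.prod_pow]; simp [h6])
    refine ⟨z 2 ^ a, Fx.pow (fun σ hσ => hz.fix_le hi (hA hσ)) a, by
      rw [norm_pow, hz.norm, one_pow], ?_⟩
    simp only [Trans.prod, h7]
    rw [Finset.prod_mul_distrib, ← ha, Finset.prod_const, Finset.card_univ, ← Trans.card, hcard,
      mul_pow, ← pow_mul, mul_comm a, pow_mul, hz.pw 1]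
  have hκ0 : κ ≠ 0 := norm_pos_iff.1 (by rw [hκ1]; exact one_pos)
  set b' := (T.prod fun σ => σ b1) / κ with hb'
  have hb'f : Fx A b' := (T.prod_fx h1.fb).div hκ
  have hb'1 : ‖b'‖ = 1 := by
    rw [hb', norm_div, hκ1, div_one, Trans.prod, norm_prod]
    simp [niso, hb1]
  have h7 : z (i + 1) ^ p - b' ^ p = b' ^ p * ((T.prod fun σ => σ (1 + ε)) - 1) := by
    have e : z (i + 1) = b1 ^ p * (1 + ε) := by rw [hε]; field_simp; ring
    have e2 : (T.prod fun σ => σ (z (i + 1))) =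
        (T.prod fun σ => σ b1) ^ p * T.prod fun σ => σ (1 + ε) := by
      simp only [Trans.prod]
      rw [← Finset.prod_pow, ← Finset.prod_mul_distrib]
      refine Finset.prod_congr rfl fun j _ => ?_
      rw [← map_pow, ← map_mul, ← e]
    rw [hκ2, mul_pow] at e2
    rw [mul_sub, mul_one, hb', div_pow, div_mul_eq_mul_div, ← e2]
    field_simp
  have h8 := sub_pow_le hp.out (hz.norm (i + 1)).le hb'1.le
  rw [h7, norm_mul, norm_pow, hb'1, one_pow, one_pow, one_mul, mul_one] at h8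
  have h9 := h.opt b' hb'f
  have h10 : ‖z 1 - 1‖ < ‖z (i + 1) - b‖ := by
    rw [← e0]; exact mul_lt_of_lt_one_right h.xpos h2
  have h11 : ‖z (i + 1) - b‖ ^ p ≤ max (ϑ * s) (s ^ p) := by
    refine (pow_le_pow_left₀ (norm_nonneg _) h9 p).trans
      (((le_max_iff.1 h8).resolve_right (not_le.2 ?_)).trans h5)
    have : ‖z (i + 1) - b'‖ ^ p = ‖z (i + 1) - b'‖ ^ (p - 1) * ‖z (i + 1) - b'‖ := by
      rw [← pow_succ, ← hp1]
    rw [this, ← hz.b0]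
    exact mul_lt_mul_of_pos_right (pow_lt_pow_left₀ (h10.trans_le h9) hβ.le
      (by have := hp.out.two_le; omega)) (h.xpos.trans_le h9)
  have h12 : s * ϑ1 ^ p = ‖z 1 - 1‖ ^ p := by rw [hs, ← mul_pow, e1]
  rcases le_max_iff.1 h11 with h13 | h13
  · refine absurd hc.1 (not_lt.2 (le_of_mul_le_mul_left ?_ hs0))
    rw [h12, ← e0, mul_pow]
    calc _ ≤ ϑ * s * ϑ ^ p := mul_le_mul_of_nonneg_right h13 (pow_pos h.pos _).le
      _ = _ := by ring
  · have h14 : ‖z 1 - 1‖ ≤ s :=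
      h10.le.trans (le_of_pow_le_pow_left₀ hp.out.ne_zero hs0.le h13)
    refine absurd hc.2 (not_lt.2 (le_of_mul_le_mul_left ?_ hβ))
    rw [mul_comm _ ‖(p : Om p)‖, ← hβp, ← h12]
    exact mul_le_mul_of_nonneg_right h14 (pow_pos h1.pos _).le

lemma kum_cyc (hz : Cyc p z) {i : ℕ} (hi : 1 ≤ i) (hA : A ≤ St ℚ_[p] (z i)) :
    Kum z A (z (i + 1)) :=
  ⟨hz, fun _ hσ => hz.fix_le hi (hA hσ), hz.ne hp.out _, by rw [hz.pw]; exact hA⟩

lemma Cyc.st_inf (hz : Cyc p z) (A : Subgroup (LA p)) (i : ℕ) :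
    A ⊓ St ℚ_[p] (z i) ⊓ St ℚ_[p] (z (i + 1)) = A ⊓ St ℚ_[p] (z (i + 1)) := by
  rw [inf_assoc]
  congr 1
  exact inf_eq_right.2 fun _ hσ => hz.fix_le i.le_succ hσ

/-- the parameter of a possibly trivial layer -/
def Par (z : ℕ → Om p) (A : Subgroup (LA p)) (y : Om p) (ϑ : ℝ) : Prop :=
  (Fx A y ∧ ϑ = 1) ∨ ∃ b, Lay z A y b ϑ

lemma Kum.par (h : Kum z A y) (hA : Fi A) : ∃ ϑ, Par z A y ϑ := by
  by_cases nt : Fx A y
  · exact ⟨1, Or.inl ⟨nt, rfl⟩⟩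
  · obtain ⟨b, ϑ, h⟩ := h.ex_lay hA nt
    exact ⟨ϑ, Or.inr ⟨b, h⟩⟩

lemma Par.pos (h : Par z A y ϑ) : 0 < ϑ ∧ ϑ ≤ 1 := by
  rcases h with ⟨-, rfl⟩ | ⟨b, h⟩
  · exact ⟨one_pos, le_rfl⟩
  · exact ⟨h.pos, h.le_one⟩

lemma Par.loss (h : Par z A y ϑ) : Loss A (St ℚ_[p] y) (ϑ ^ (p - 1))⁻¹ := by
  rcases h with ⟨h, rfl⟩ | ⟨b, h⟩
  · simpa using loss_triv h
  · exact h.loss

lemma Par.growth {i : ℕ} (hi : 2 ≤ i) (h : Par z (A ⊓ St ℚ_[p] (z i)) (z (i + 1)) ϑ)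
    {ϑ1 : ℝ} (h1 : Par z (A ⊓ St ℚ_[p] (z (i + 1))) (z (i + 2)) ϑ1) :
    ϑ1 ^ p ≤ max (ϑ ^ (p + 1)) ‖(p : Om p)‖ := by
  rcases h with ⟨-, rfl⟩ | ⟨b, h⟩
  · rw [one_pow]; exact le_max_of_le_left (pow_le_one₀ h1.pos.1.le h1.pos.2)
  rcases h1 with ⟨h1, -⟩ | ⟨b1, h1⟩
  · exfalso
    obtain ⟨σ, hσ, hσy⟩ : ∃ σ ∈ A ⊓ St ℚ_[p] (z i), σ (z (i + 1)) ≠ z (i + 1) := by
      by_contra h'; push Not at h'; exact h.nt h'
    have := h.cyc.move_pow hp.out (l := 1) hi hσ.2 hσy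
    exact this.2 (h1 _ ⟨A.pow_mem hσ.1 _, this.1⟩)
  · rw [← h.cyc.st_inf A i] at h1
    exact Pool.Agent.Lib.MP_f61260_nt.growth hi inf_le_right h h1

lemma Cyc.notval (hz : Cyc p z) (i : ℕ) {c : Om p} (hc : Fx (St ℚ_[p] (z (i + 1))) c) :
    ‖c‖ ≠ ‖z (i + 2) - 1‖ := by
  intro he
  have hpos := pow_pos hp.out.pos (i + 1)
  obtain ⟨T, hT⟩ := idx_of_finset (B := (⊤ : Subgroup (LA p))) (y := z (i + 1))
    (primitiveRoots (p ^ (i + 1)) (Om p)) fun σ _ =>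
      (mem_primitiveRoots hpos).2 ((hz.prim _).map_of_injective σ.injective)
  rw [(hz.prim _).card_primitiveRoots] at hT
  have hT' := hT.trans_lt (Nat.totient_lt _ (Nat.one_lt_pow (by omega) hp.out.one_lt))
  have h0 := hz.b_pos (i + 1)
  obtain ⟨n, hn⟩ := disc T hc (norm_pos_iff.1 (he ▸ h0))
  rw [he, ← hz.ee_pow' (i + 1), ee, ← pow_mul, ← zpow_natCast, ← zpow_natCast, ← zpow_mul,
    zpow_right_inj₀ h0 (hz.b_lt _).ne] at hn
  have h1 : (p - 1) * p ^ (i + 1) ∣ T.card := Int.natCast_dvd_natCast.1 ⟨n, hn⟩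
  have h2 := Nat.le_of_dvd T.card_pos h1
  have h3 : p ^ (i + 1) ≤ (p - 1) * p ^ (i + 1) :=
    Nat.le_mul_of_pos_left _ (by have := hp.out.two_le; omega)
  omega

lemma Cyc.gain1 (hz : Cyc p z) (i : ℕ) :
    Gain (St ℚ_[p] (z (i + 1))) (St ℚ_[p] (z (i + 2))) (‖(p : Om p)‖ / ee z (i + 1)) := by
  obtain ⟨b, ϑ, h⟩ := (kum_cyc hz (i := i + 1) (by omega) le_rfl).ex_lay (fi_St _)
    fun h => hz.notval i (h.sub Fx.one) rfl
  have h1 := h.gain
  rw [inf_eq_right.2 fun _ hσ => hz.fix_le (i + 1).le_succ hσ] at h1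
  refine h1.mono ?_
  have h2 : ‖z (i + 2) - 1‖ ≤ ‖z (i + 2) - b‖ := by
    by_contra hc
    refine hz.notval i (h.fb.sub Fx.one) (norm_eq_of_sub_lt ?_)
    rw [sub_sub_sub_cancel_right, norm_sub_rev]
    exact not_le.1 hc
  rw [le_div_iff₀ (hz.ee_pos _), ee, ← hz.b0, ← mul_pow]
  refine pow_le_pow_left₀ (mul_nonneg h.pos.le (norm_nonneg _)) ?_ _
  have := h.eq
  rw [hz.norm, mul_one] at this
  rw [← this, mul_comm]
  exact mul_le_mul_of_nonneg_right h2 h.pos.le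

lemma Cyc.gain (hz : Cyc p z) (m n : ℕ) : Gain (St ℚ_[p] (z (m + 1))) (St ℚ_[p] (z (m + n + 1)))
    (‖(p : Om p)‖ ^ n * ee z (m + n) / ee z m) := by
  induction n with
  | zero => simpa [div_self (hz.ee_pos m).ne'] using gain_one (Trans.triv le_rfl)
  | succ n ih =>
    have h0 := hz.ee_pos m
    have h1 := hz.ee_pos (m + n)
    have h2 := hz.ee_pos (m + n + 1)
    refine (ih.trans (hz.gain1 (m + n)) (fun _ hσ => hz.fix_le (by omega) hσ)
      (fun _ hσ => hz.fix_le (by omega) hσ) (by positivity)).mono ?_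
    rw [div_mul_div_comm, div_le_div_iff₀ (by positivity) h0, ← add_assoc]
    have := hz.ee_succ (m + n)
    calc _ = ‖(p : Om p)‖ ^ (n + 1) * ee z m * ee z (m + n) := by ring
      _ ≤ ‖(p : Om p)‖ ^ (n + 1) * ee z m * (ee z (m + n + 1) * ee z (m + n + 1)) := by gcongr
      _ = _ := by ring

lemma lemS (hz : Cyc p z) {m Λ : ℕ} (hm : 2 ≤ m)
    (hE : Loss (St ℚ_[p] (z m)) A (‖(p : Om p)‖ ^ Λ)⁻¹) {i : ℕ} (hi : m + Λ + p ≤ i) :
    Fi (A ⊓ St ℚ_[p] (z i)) ∧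
      ∃ b ϑ, Lay z (A ⊓ St ℚ_[p] (z i)) (z (i + 1)) b ϑ ∧ ϑ ≤ ee z 1 := by
  have hq := np_pos (p := p)
  have hfi : ∀ n, Fi (A ⊓ St ℚ_[p] (z (m + n))) := fun n => by
    obtain ⟨T, -⟩ := hE (St ℚ_[p] (z (m + n))) (fun _ hσ => hz.fix_le (Nat.le_add_right m n) hσ)
    obtain ⟨N, hN⟩ := fi_St (z (m + n))
    exact ⟨_, by rw [inf_comm]; exact hN.trans ⟨T, le_rfl⟩ le_top inf_le_left⟩
  have key : ∀ n ϑ, Par z (A ⊓ St ℚ_[p] (z (m + n))) (z (m + n + 1)) ϑ → ‖(p : Om p)‖ < ϑ ^ p →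
      Eul (St ℚ_[p] (z m)) (A ⊓ St ℚ_[p] (z (m + n + 1)))
        ((‖(p : Om p)‖ ^ Λ)⁻¹ * ((ϑ ^ (p + 1)) ^ (p - 1))⁻¹) := by
    intro n
    induction n with
    | zero =>
      intro ϑ h _
      have h1 := hE _ le_rfl
      rw [inf_comm] at h1
      have h2 := h.loss _ le_rfl
      rw [hz.st_inf] at h2
      refine (h1.trans h2 inf_le_right (by rw [← hz.st_inf]; exact inf_le_left)).mono ?_
      have := h.pos
      gcongr
      · exact pow_pos (pow_pos this.1 _) _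
      · exact (pow_pos this.1 _).le
      · exact pow_le_of_le_one this.1.le this.2 (by omega)
    | succ n ih =>
      intro ϑ h h'
      obtain ⟨ϑ', h0⟩ := (kum_cyc hz (i := m + n) (A := A ⊓ St ℚ_[p] (z (m + n))) (by omega)
        inf_le_right).par (hfi n)
      have h1 := ((le_max_iff.1 (h0.growth (by omega) h)).resolve_right (not_le.2 h'))
      have h2 := h.loss _ le_rfl
      rw [hz.st_inf] at h2
      have hp0 := h0.pos
      have hp1 := h.pos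
      refine ((ih ϑ' h0 (h'.trans_le (h1.trans (pow_le_pow_of_le_one hp0.1.le hp0.2
        p.le_succ)))).trans h2 (fun _ hσ => hz.fix_le (by omega) hσ.2)
        (by rw [← hz.st_inf]; exact inf_le_left)).mono ?_
      rw [mul_assoc, ← mul_inv, ← mul_pow]
      gcongr
      · exact pow_pos (pow_pos hp1.1 _) _
      · exact (pow_pos hp1.1 _).le
      · rw [pow_succ]; exact mul_le_mul_of_nonneg_right h1 hp1.1.le
  obtain ⟨n, rfl⟩ := Nat.exists_eq_add_of_le (show m ≤ i by omega)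
  refine ⟨hfi n, ?_⟩
  obtain ⟨ϑ, h⟩ := (kum_cyc hz (i := m + n) (A := A ⊓ St ℚ_[p] (z (m + n))) (by omega)
    inf_le_right).par (hfi n)
  have h1 : ϑ ≤ ee z 1 := by
    refine le_of_pow_le_pow_left₀ hp.out.ne_zero (hz.ee_pos _).le ?_
    rw [hz.ee_pow, hz.ee_zero]
    by_contra hc
    rw [not_le] at hc
    have h2 := key n ϑ h hc
    obtain ⟨m', rfl⟩ : ∃ m', m = m' + 1 := ⟨m - 1, by omega⟩
    have h3 := hz.gain m' (n + 1)
    obtain ⟨N, hN⟩ := hfi (n + 1)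
    obtain ⟨T, -⟩ : IdxLe (St ℚ_[p] (z (m' + (n + 1) + 1))) (A ⊓ St ℚ_[p] (z (m' + 1 + n + 1))) N :=
      hN.restrict le_top inf_le_right
    have h0 := hz.ee_pos m'
    have h0' := hz.ee_pos (m' + (n + 1))
    have h4 := h2.gain (h3.trans (gain_one T) (fun _ hσ => hz.fix_le (by omega) hσ)
      (by rw [show m' + (n + 1) + 1 = m' + 1 + n + 1 by ring]; exact inf_le_right)
      (by positivity)) (by positivity)
    have h5 : ‖(p : Om p)‖ ^ (n + 1) * ee z (m' + (n + 1)) / ee z m' * 1 ≤ ‖(p : Om p)‖ ^ n := by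
      rw [mul_one, div_le_iff₀ h0, pow_succ, mul_assoc]
      refine mul_le_mul_of_nonneg_left ?_ (by positivity)
      rw [← hz.ee_zero]
      exact (mul_le_of_le_one_right (hz.ee_pos _).le (hz.ee_lt _).le).trans (hz.ee_mono m'.zero_le)
    have h6 : ‖(p : Om p)‖ ^ p < (ϑ ^ (p + 1)) ^ (p - 1) := by
      refine (pow_lt_pow_left₀ hc hq.le hp.out.ne_zero).trans_le ?_
      rw [← pow_mul, ← pow_mul]
      refine pow_le_pow_of_le_one h.pos.1.le h.pos.2 ?_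
      have := hp.out.pos
      obtain ⟨d, rfl⟩ : ∃ d, p = d + 1 := ⟨p - 1, by omega⟩
      simp only [Nat.add_sub_cancel]
      nlinarith
    have h7 : (1 : ℝ) < ‖(p : Om p)‖ ^ n * ((‖(p : Om p)‖ ^ Λ)⁻¹ * (‖(p : Om p)‖ ^ p)⁻¹) := by
      refine lt_of_le_of_lt (h4.trans (mul_le_mul_of_nonneg_right h5 ?_)) ?_
      · have := h.pos.1; positivity
      · gcongr
    rw [← mul_inv, ← pow_add, ← div_eq_mul_inv, one_lt_div (by positivity),
      pow_lt_pow_iff_right_of_lt_one₀ hq np_lt] at h7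
    omega
  rcases h with ⟨-, rfl⟩ | ⟨b, h⟩
  · exact absurd (h1.trans_lt (hz.ee_lt 1)) (lt_irrefl _)
  · exact ⟨b, ϑ, h, h1⟩

lemma Lay.rperf (h : Lay z A y b ϑ) (hA : Fi A) (h1 : ϑ < 1) {r : Om p} (hr : Fx A r) :
    ∃ w, Fx (A ⊓ St ℚ_[p] y) w ∧ Rel ϑ (w ^ p) r := by
  obtain ⟨T, -⟩ := h.toKum.idx
  have hcard := h.toKum.card_eq h.nt T
  have hnN : ∀ w : Om p, ‖T.prod fun σ => σ w‖ = ‖w‖ ^ p := fun w => by
    rw [Trans.prod, norm_prod]; simp [niso, ← hcard, Trans.card]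
  have step : ∀ r, Fx A r → r ≠ 0 → ∃ w, Fx (A ⊓ St ℚ_[p] y) w ∧
      ‖r - T.prod fun σ => σ w‖ < ‖r‖ := by
    intro r hr hr0
    obtain ⟨π, hπ, hπ0, hπ1⟩ := exists_unif hA
    have h3 := h.rel_r.norm_eq (h.pow_lt h1)
    rw [norm_pow] at h3
    obtain ⟨k, hk⟩ := hπ1 _ (h.fx.sub (h.fb.pow p))
      (norm_pos_iff.1 (h3 ▸ pow_pos h.xpos p))
    obtain ⟨l, hl⟩ := hπ1 r hr hr0
    have hπp := norm_pos_iff.2 hπ0
    have hk' : ¬ (p : ℤ) ∣ k := by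
      rintro ⟨c, rfl⟩
      refine h.ram h1 (hπ.zpow c) ((pow_left_inj₀ (norm_nonneg _) (norm_nonneg _)
        hp.out.ne_zero).1 ?_)
      rw [← h3, hk, norm_zpow, ← zpow_natCast, ← zpow_mul, mul_comm]
    obtain ⟨u, v, huv⟩ := (Nat.prime_iff_prime_int.1 hp.out).coprime_iff_not_dvd.2 hk'
    set w0 := π ^ (u * l) * (y - b) ^ (v * l) with hw0
    have hw0f : Fx (A ⊓ St ℚ_[p] y) w0 := ((hπ.mono inf_le_left).zpow _).mul
      ((((Fx.st y).mono inf_le_right).sub (h.fb.mono inf_le_left)).zpow _)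
    have hw0n : ‖T.prod fun σ => σ w0‖ = ‖r‖ := by
      rw [hnN, hw0, norm_mul, norm_zpow, norm_zpow, mul_pow, ← zpow_natCast, ← zpow_natCast,
        ← zpow_mul, ← zpow_mul, mul_comm (v * l), zpow_mul ‖y - b‖, zpow_natCast, ← h3, hk,
        ← zpow_mul, ← zpow_add₀ hπp.ne', hl]
      congr 1
      linear_combination l * huv
    have hr' := norm_pos_iff.2 hr0
    have hN0 : (T.prod fun σ => σ w0) ≠ 0 := norm_pos_iff.1 (hw0n ▸ hr')
    obtain ⟨c, hc, -, hc2⟩ := res_root (hr.div (T.prod_fx hw0f))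
      (by rw [norm_div, hw0n, div_self hr'.ne'])
    refine ⟨c * w0, (hc.mono inf_le_left).mul hw0f, ?_⟩
    have e : (T.prod fun σ => σ (c * w0)) = c ^ p * T.prod fun σ => σ w0 := by
      simp only [Trans.prod, map_mul, hc _ (T.mem _)]
      rw [Finset.prod_mul_distrib, Finset.prod_const, Finset.card_univ, ← Trans.card, hcard]
    have e2 : r - c ^ p * (T.prod fun σ => σ w0) =
        (r / (T.prod fun σ => σ w0) - c ^ p) * T.prod fun σ => σ w0 := by field_simp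
    rw [e, e2, norm_mul, hw0n]
    exact mul_lt_of_lt_one_left hr' hc2
  obtain ⟨N, hN, hN'⟩ := disc_lt hA
  have key : ∀ ε : ℝ, 0 ≤ ε → ∀ n : ℕ, ∀ r, Fx A r → ‖r‖ ^ N * ‖(p : Om p)‖ ^ n ≤ ε ^ N →
      ∃ w, Fx (A ⊓ St ℚ_[p] y) w ∧ ‖w‖ ^ p ≤ ‖r‖ ∧ ‖w ^ p - r‖ ≤ max (ϑ * ‖r‖) ε := by
    intro ε hε n
    induction n with
    | zero =>
      intro r _ h2
      rw [pow_zero, mul_one] at h2
      refine ⟨0, Fx.zero, by simp [hp.out.ne_zero], le_max_of_le_right ?_⟩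
      simpa [hp.out.ne_zero] using le_of_pow_le_pow_left₀ hN.ne' hε h2
    | succ n ih =>
      intro r hr h2
      by_cases hr0 : r = 0
      · exact ⟨0, Fx.zero, by simp [hp.out.ne_zero], by simp [hr0, hp.out.ne_zero, hε]⟩
      obtain ⟨w0, hw0, hw0'⟩ := step r hr hr0
      have hr1 := hr.sub (T.prod_fx hw0)
      obtain ⟨w1, hw1, h3, h4⟩ := ih _ hr1 (by
        refine le_trans ?_ h2
        rw [pow_succ' _ n, ← mul_assoc, mul_comm (‖r‖ ^ N)]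
        exact mul_le_mul_of_nonneg_right (hN' _ _ hr1 hr hw0') (by positivity))
      have h5 : ‖w0‖ ^ p = ‖r‖ := by
        rw [← hnN]; exact norm_eq_of_sub_lt (by rwa [norm_sub_rev])
      have h6 : max ‖w0‖ ‖w1‖ ^ p ≤ ‖r‖ := by
        rcases le_total ‖w0‖ ‖w1‖ with h' | h'
        · rw [max_eq_right h']; exact h3.trans hw0'.le
        · rw [max_eq_left h']; exact h5.le
      refine ⟨w0 + w1, hw0.add hw1, (pow_le_pow_left₀ (norm_nonneg _)
        (IsUltrametricDist.norm_add_le_max _ _) _).trans h6, ?_⟩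
      have e : (w0 + w1) ^ p - r = ((w0 + w1) ^ p - w0 ^ p - w1 ^ p) +
          ((w1 ^ p - (r - T.prod fun σ => σ w0)) - ((T.prod fun σ => σ w0) - w0 ^ p)) := by ring
      rw [e]
      refine nadd_le (le_max_of_le_left ?_) (nsub_le (h4.trans (max_le_max_right _ ?_))
        (le_max_of_le_left ?_))
      · have := add_pow_q' hp.out 1 (le_max_left ‖w0‖ ‖w1‖) (le_max_right _ _)
        rw [pow_one] at this
        exact this.trans (mul_le_mul (h.cyc.np_le.trans h.b0_le) h6 (by positivity) h.pos.le)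
      · exact mul_le_mul_of_nonneg_left hw0'.le h.pos.le
      · refine le_trans (h.nrm T hw0) ?_
        rw [norm_pow, h5]
  obtain ⟨n, hn⟩ := exists_pow_lt_of_lt_one (pow_pos h.pos N) (np_lt (p := p))
  obtain ⟨w, h2, -, h3⟩ := key (ϑ * ‖r‖) (mul_nonneg h.pos.le (norm_nonneg _)) n r hr (by
    rw [mul_pow, mul_comm]; exact mul_le_mul_of_nonneg_right hn.le (by positivity))
  exact ⟨w, h2, by rwa [max_self] at h3⟩

end Pool.Agent.Lib.MP_f61260_nt
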