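import Pool.Agent.Lib.MP_f61260_nt.RadStepB

/-!
The Amoroso-Dvornicich bound at an unramified prime of a cyclotomic field.
-/

set_option autoImplicit false
set_option linter.unusedSectionVars false

open Module NumberField Polynomial Height

namespace Pool.Agent.Lib.MP_f61260_nt

variable {K : Type*} [Field K] [NumberField K]

theorem exists_frac_coprime (β : K) (p : 𝓞 K) (hp : p ≠ 0) :
    ∃ x y : 𝓞 K, y ≠ 0 ∧ β = x / y ∧ IsCoprime (Ideal.span {p}) (Ideal.span {x, y}) := by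
  obtain ⟨u, v, hv, rfl⟩ := exists_frac β
  obtain ⟨J, hJ⟩ : Ideal.span {u, v} ∣ Ideal.span {v} :=
    Ideal.dvd_span_singleton.2 (Ideal.subset_span (by simp))
  have hJ0 : J ≠ 0 := fun h => hv (by simpa [h] using hJ)
  obtain ⟨z, hz⟩ := IsDedekindDomain.exists_sup_span_eq (I := Ideal.span {p ^ 2} * J) (J := J)
    Ideal.mul_le_right (mul_ne_zero (by simpa using hp) hJ0)
  have hzJ : z ∈ J := hz ▸ Ideal.mem_sup_right (Ideal.mem_span_singleton_self z)
  obtain ⟨x, hx⟩ := Ideal.mem_span_singleton'.1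
    (hJ ▸ Ideal.mul_mem_mul (Ideal.subset_span (by simp)) hzJ : u * z ∈ Ideal.span {v})
  have h1 : Ideal.span {v} * (Ideal.span {p ^ 2} ⊔ Ideal.span {x, z}) = Ideal.span {v} * ⊤ := by
    have h2 : Ideal.span {v} * Ideal.span {x, z} = Ideal.span {u, v} * Ideal.span {z} := by
      rw [Ideal.span_insert, Ideal.span_insert, Ideal.mul_sup, Ideal.sup_mul]
      simp only [Ideal.span_singleton_mul_span_singleton, ← hx, mul_comm]
    rw [Ideal.mul_sup, h2, Ideal.mul_top, hJ, mul_assoc, mul_comm J, ← Ideal.mul_sup, hz]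
  have h3 := mul_left_cancel₀ (by simpa using hv) h1
  have h4 : IsCoprime (Ideal.span {p}) (Ideal.span {x, z}) := by
    rw [← Ideal.isCoprime_iff_sup_eq, ← Ideal.span_singleton_pow] at h3
    exact (IsCoprime.pow_left_iff two_pos).1 h3
  have hv' : (v : K) ≠ 0 := by exact_mod_cast hv
  by_cases hz0 : z = 0
  · refine ⟨u, v, hv, rfl, ?_⟩
    have hx0 : x = 0 := by simpa [hz0, hv] using hx
    rw [hx0, hz0, Set.pair_eq_singleton, Ideal.span_singleton_eq_bot.2 rfl] at h4
    exact h4.of_isCoprime_of_dvd_right (dvd_zero _)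
  · have hz' : (z : K) ≠ 0 := by exact_mod_cast hz0
    refine ⟨x, z, hz0, ?_, h4⟩
    rw [div_eq_div_iff hv' hz']
    exact_mod_cast hx.symm

theorem mulHeight₁_map (s : K →+* K) (x : K) : mulHeight₁ (s x) = mulHeight₁ x := by
  have h1 := (absLogHeight_eq s x).symm.trans (absLogHeight_eq (RingHom.id K) (s x))
  rw [div_left_inj' (by exact_mod_cast finrank_pos.ne')] at h1
  exact (Real.log_injOn_pos (mulHeight₁_pos _) (mulHeight₁_pos _) h1).symm

theorem ad_core (p : ℕ) (hp : p ≠ 0) (s : K ≃ₐ[ℚ] K)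
    (hs : ∀ x : 𝓞 K, (p : 𝓞 K) ∣ x ^ p - RingOfIntegers.mapRingHom (s : K →+* K) x) (β : K)
    (h : β ^ (p * p) ≠ s β ^ p) :
    ((p : ℝ) ^ 2) ^ finrank ℚ K ≤ 2 ^ finrank ℚ K * mulHeight₁ β ^ (p * p + p) := by
  obtain ⟨x, y, hy, rfl, hc⟩ := exists_frac_coprime β p (Nat.cast_ne_zero.2 hp)
  set t := RingOfIntegers.mapRingHom (s : K →+* K) with ht
  have hy' : (y : K) ≠ 0 := by exact_mod_cast hy
  have hty' : (t y : K) ≠ 0 := (_root_.map_ne_zero s).2 hy'
  have hty : t y ≠ 0 := by exact_mod_cast hty'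
  have hc' : IsCoprime (Ideal.span {(p : 𝓞 K)}) (Ideal.span {t x, t y}) := by
    have := hc.map (Ideal.mapHom t)
    simpa [Ideal.map_span, Set.image_pair] using this
  set w := x ^ (p * p) * t y ^ p - y ^ (p * p) * t x ^ p with hw
  have hw0 : w ≠ 0 := by
    intro h0
    apply h
    have h1 : (x : K) ^ (p * p) * (t y : K) ^ p = (y : K) ^ (p * p) * (t x : K) ^ p := by
      exact_mod_cast sub_eq_zero.1 h0
    rw [map_div₀, div_pow, div_pow]
    exact (div_eq_div_iff (pow_ne_zero _ hy') (pow_ne_zero _ hty')).2 (h1.trans (mul_comm _ _))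
  have h1 : ∀ z : 𝓞 K, (p : 𝓞 K) ^ 2 ∣ z ^ (p * p) - t z ^ p := fun z => by
    simpa [pow_mul] using dvd_sub_pow_of_dvd_sub (hs z) 1
  have h2 : Ideal.span {(p : 𝓞 K)} ^ 2 ∣ Ideal.span {w} := by
    rw [Ideal.span_singleton_pow, Ideal.dvd_span_singleton, Ideal.mem_span_singleton,
      show w = (x ^ (p * p) - t x ^ p) * t y ^ p - (y ^ (p * p) - t y ^ p) * t x ^ p by
        rw [hw]; ring]
    exact dvd_sub ((h1 x).mul_right _) ((h1 y).mul_right _)
  have h3 : Ideal.span {x, y} ^ (p * p) * Ideal.span {t x, t y} ^ p ∣ Ideal.span {w} := by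
    rw [Ideal.dvd_span_singleton]
    refine sub_mem (Ideal.mul_mem_mul (Ideal.pow_mem_pow (Ideal.subset_span ?_) _)
      (Ideal.pow_mem_pow (Ideal.subset_span ?_) _)) (Ideal.mul_mem_mul
      (Ideal.pow_mem_pow (Ideal.subset_span ?_) _) (Ideal.pow_mem_pow (Ideal.subset_span ?_) _))
    all_goals simp
  have h4 := Nat.le_of_dvd (Nat.pos_of_ne_zero (by
    rw [Ne, Ideal.absNorm_eq_zero_iff, Ideal.span_singleton_eq_bot]
    exact hw0)) (map_dvd Ideal.absNorm ((hc.pow.mul_right hc'.pow).mul_dvd h2 h3))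
  rw [map_mul, map_mul, map_pow, map_pow, map_pow, Ideal.absNorm_span_natCast,
    RingOfIntegers.rank, Ideal.absNorm_span_singleton, ← Nat.cast_le (α := ℝ), natAbs_norm] at h4
  have h5 := height_eq x y hy
  have h6 := height_eq (t x) (t y) hty
  rw [show (t x : K) / t y = (s : K →+* K) (x / y) from (map_div₀ s _ _).symm,
    mulHeight₁_map] at h6
  have h7 : ∏ σ : K →+* ℂ, ‖σ w‖ ≤ 2 ^ finrank ℚ K * ((∏ σ : K →+* ℂ, max ‖σ x‖ ‖σ y‖) ^ (p * p) *
      (∏ σ : K →+* ℂ, max ‖σ (t x)‖ ‖σ (t y)‖) ^ p) := by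
    rw [← Embeddings.card K ℂ, ← Finset.card_univ, ← Finset.prod_const, ← Finset.prod_pow,
      ← Finset.prod_pow, ← Finset.prod_mul_distrib, ← Finset.prod_mul_distrib]
    refine Finset.prod_le_prod (fun _ _ => norm_nonneg _) fun σ _ => ?_
    simp only [hw, map_sub, map_mul, map_pow, two_mul]
    refine (norm_sub_le _ _).trans (add_le_add ?_ ?_)
    all_goals
      rw [norm_mul, norm_pow, norm_pow]
      gcongr <;> simp
  have h8 : ∀ u v : 𝓞 K, v ≠ 0 → (0 : ℝ) < Ideal.absNorm (Ideal.span {u, v}) := by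
    intro u v hv
    rw [Nat.cast_pos, Nat.pos_iff_ne_zero, Ne, Ideal.absNorm_eq_zero_iff, Ideal.span_eq_bot]
    exact fun h => hv (h v (by simp))
  have h9 := h4.trans h7
  rw [← h5, ← h6] at h9
  push_cast at h9
  refine le_of_mul_le_mul_right (le_of_eq_of_le ?_ (h9.trans_eq ?_))
    (mul_pos (pow_pos (h8 x y hy) (p * p)) (pow_pos (h8 (t x) _ hty) p))
  · ring
  · ring

theorem ad_cyclo (m : ℕ) [NeZero m] [IsCyclotomicExtension {m} ℚ K] (p : ℕ) (hp : p.Prime)
    (hpm : p.Coprime m) (β : K) (hβ : β ≠ 0) : (∃ j, 0 < j ∧ β ^ j = 1) ∨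
      Real.log 2 / (p * p + p) ≤ logHeight₁ β / finrank ℚ K := by
  have := Fact.mk hp
  have hζ := IsCyclotomicExtension.zeta_spec m ℚ K
  set s := IsCyclotomicExtension.fromZetaAut (hζ.pow_of_coprime p hpm)
    (cyclotomic.irreducible_rat (NeZero.pos m)) with hs
  have hsζ : s (IsCyclotomicExtension.zeta m ℚ K) = _ := IsCyclotomicExtension.fromZetaAut_spec _ _
  by_cases h : β ^ (p * p) = s β ^ p
  · left
    have h1 : ∀ j : ℕ, (s ^ j) (β ^ p) = (β ^ p) ^ p ^ j := by
      intro j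
      induction j with
      | zero => simp
      | succ j ih =>
        rw [pow_succ', AlgEquiv.mul_apply, ih, map_pow, map_pow, ← h, pow_mul, ← pow_mul (β ^ p),
          ← pow_succ']
    have h2 := h1 (orderOf s)
    have h3 : 1 < p ^ orderOf s := Nat.one_lt_pow (orderOf_pos s).ne' hp.one_lt
    rw [pow_orderOf_eq_one, AlgEquiv.one_apply, ← Nat.sub_add_cancel h3.le, pow_succ, eq_comm,
      mul_eq_right₀ (pow_ne_zero _ hβ), ← pow_mul] at h2
    exact ⟨_, mul_pos hp.pos (by omega), h2⟩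
  right
  have h1 := ad_core p hp.ne_zero s (fun x => by
    have h2 : x ∈ Algebra.adjoin ℤ {hζ.toInteger} :=
      IsCyclotomicExtension.Rat.adjoin_singleton_eq_top hζ ▸ Algebra.mem_top
    rw [Algebra.adjoin_singleton_eq_range_aeval] at h2
    obtain ⟨P, rfl⟩ := h2
    have h3 : RingOfIntegers.mapRingHom (s : K →+* K) (aeval hζ.toInteger P) =
        aeval hζ.toInteger (expand ℤ p P) := by
      rw [expand_aeval]
      refine (aeval_algHom_apply (RingOfIntegers.mapRingHom (s : K →+* K)).toIntAlgHom _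
        P).symm.trans ?_
      congr 2
      exact Subtype.ext hsζ
    have h4 : C (p : ℤ) ∣ P ^ p - expand ℤ p P := by
      rw [C_dvd_iff_dvd_coeff]
      intro i
      rw [← ZMod.intCast_zmod_eq_zero_iff_dvd, ← eq_intCast (Int.castRingHom (ZMod p)),
        ← coeff_map, Polynomial.map_sub, Polynomial.map_pow, map_expand, ZMod.expand_card,
        sub_self, coeff_zero]
    have h5 := map_dvd (aeval hζ.toInteger) h4
    simpa [h3] using h5) β h
  have hD : (0 : ℝ) < finrank ℚ K := by exact_mod_cast finrank_pos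
  have h2 : (2 : ℝ) ≤ p := by exact_mod_cast hp.two_le
  have h3 : (2 * 2 : ℝ) ^ finrank ℚ K ≤ ((p : ℝ) ^ 2) ^ finrank ℚ K := by
    gcongr
    nlinarith
  have h4 := le_of_mul_le_mul_left ((mul_pow _ _ _).symm.trans_le (h3.trans h1)) (by positivity)
  have h5 := Real.log_le_log (by positivity) h4
  rw [Real.log_pow, Real.log_pow] at h5
  rw [div_le_div_iff₀ (by positivity) hD, logHeight₁]
  push_cast at h5
  linarith

theorem discr_coprime (m : ℕ) [NeZero m] [IsCyclotomicExtension {m} ℚ K] (c : ℤ)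
    (h : IsCoprime (m : ℤ) c) : IsCoprime (discr K) c := by
  refine IsCoprime.of_isCoprime_of_dvd_left (h.pow_left (m := m.totient)) ?_
  rw [← Int.natAbs_dvd_natAbs, IsCyclotomicExtension.Rat.natAbs_discr m K, Int.natAbs_pow,
    Int.natAbs_natCast]
  exact Nat.div_dvd_of_dvd (Nat.prod_primeFactors_pow_totient_ediv_dvd (NeZero.pos _))

end Pool.Agent.Lib.MP_f61260_nt
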