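import Pool.Agent.Lib.MP_f61260_nt.RadSetup

/-!
Finite places above a squarefree integer prime to the discriminant.
-/

set_option autoImplicit false
set_option linter.unusedSectionVars false

open Module NumberField Polynomial Height

namespace Pool.Agent.Lib.MP_f61260_nt

variable {K L : Type*} [Field K] [NumberField K] [Field L] [NumberField L] [Algebra K L]

theorem not_sq_dvd (a : ℤ) (ha : Squarefree a) (hd : IsCoprime (discr K) a) (P : Ideal (𝓞 K))
    (hP : Prime P) : ¬ P ^ 2 ∣ Ideal.span {(a : 𝓞 K)} := by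
  intro h
  have hP' : P.IsPrime := Ideal.isPrime_of_prime hP
  have haP : (a : 𝓞 K) ∈ P := Ideal.dvd_span_singleton.1 ((dvd_pow_self P two_ne_zero).trans h)
  obtain ⟨p, hp⟩ := (IsPrincipalIdealRing.principal (P.under ℤ)).principal
  have hmem : ∀ c : ℤ, (c : 𝓞 K) ∈ P ↔ p ∣ c := fun c => by
    rw [← Ideal.mem_span_singleton]
    exact (congrArg (c ∈ ·) hp).to_iff
  obtain ⟨c, rfl⟩ := (hmem a).1 haP
  have hp1 : ¬ IsUnit p := fun hu => hP'.ne_top ((Ideal.eq_top_iff_one _).2 (by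
    simpa using (hmem 1).2 hu.dvd))
  have hc : ¬ P ∣ Ideal.span {(c : 𝓞 K)} := fun h1 =>
    hp1 (ha p (mul_dvd_mul_left p ((hmem c).1 (Ideal.dvd_span_singleton.1 h1))))
  rw [Int.cast_mul, ← Ideal.span_singleton_mul_span_singleton] at h
  have h1 := hP.pow_dvd_of_dvd_mul_right 2 hc h
  have hp0 : P.under ℤ ≠ ⊥ := fun h0 => ha.ne_zero (by
    have : p * c ∈ P.under ℤ := haP
    simpa [h0] using this)
  have : (P.under ℤ).IsMaximal := Ideal.IsPrime.isMaximal inferInstance hp0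
  let := FractionRing.liftAlgebra ℤ (FractionRing (𝓞 K))
  have h2 := pow_sub_one_dvd_differentIdeal ℤ P 2 hp0 (by
    rw [hp, Ideal.submodule_span_eq, Ideal.map_span, Set.image_singleton]
    exact h1)
  have h3 := Ideal.dvd_iff_le.1 h2 (discr_mem_differentIdeal K (𝓞 K))
  exact hp1 (hd.isUnit_of_dvd' ((hmem _).1 (by simpa using h3)) (dvd_mul_right _ _))

theorem place_zpow (v : FinitePlace K) : ∃ N : ℝ, 1 < N ∧
    (∀ x : K, x ≠ 0 → ∃ m : ℤ, v x = N ^ m) ∧
      ∀ a : ℤ, Squarefree a → IsCoprime (discr K) a → v a = 1 ∨ v a = N⁻¹ := by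
  have h1 : (1 : ℝ) < v.maximalIdeal.asIdeal.absNorm := by
    exact_mod_cast HeightOneSpectrum.one_lt_absNorm v.maximalIdeal
  have h2 : ∀ x : 𝓞 K, x ≠ 0 → v x = ((v.maximalIdeal.asIdeal.absNorm : ℝ) ^
      multiplicity v.maximalIdeal.asIdeal (Ideal.span {x}))⁻¹ := fun x hx =>
    eq_inv_of_mul_eq_one_left (v.apply_mul_absNorm_pow_eq_one hx)
  refine ⟨_, h1, fun x hx => ?_, fun a ha hd => ?_⟩
  · obtain ⟨s, t, ht, rfl⟩ := exists_frac x
    have hs : s ≠ 0 := by
      rintro rfl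
      simp at hx
    rw [map_div₀, h2 s hs, h2 t ht, ← zpow_natCast, ← zpow_natCast, ← zpow_neg, ← zpow_neg,
      ← zpow_sub₀ (by positivity)]
    exact ⟨_, rfl⟩
  · have h3 := h2 a (by exact_mod_cast ha.ne_zero)
    have h4 : multiplicity v.maximalIdeal.asIdeal (Ideal.span {(a : 𝓞 K)}) < 2 := by
      by_contra h
      exact not_sq_dvd a ha hd _ v.maximalIdeal.prime (pow_dvd_of_le_multiplicity (not_lt.1 h))
    generalize multiplicity v.maximalIdeal.asIdeal (Ideal.span {(a : 𝓞 K)}) = k at h3 h4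
    interval_cases k
    · exact Or.inl (by simpa using h3)
    · exact Or.inr (by simpa using h3)

theorem finprod_intCast (a : ℤ) (ha : a ≠ 0) :
    ∏ᶠ v : FinitePlace K, v a = (((|a| : ℤ) : ℝ) ^ finrank ℚ K)⁻¹ := by
  rw [FinitePlace.prod_eq_inv_abs_norm (by exact_mod_cast ha), ← map_intCast (algebraMap ℚ K),
    Algebra.norm_algebraMap]
  simp

theorem finrank_eq_of_pow (a : ℤ) (ha : Squarefree a) (h2 : 2 ≤ |a|)
    (hd : IsCoprime (discr K) a) {π : L} {n : ℕ} (hπ : π ^ n = a) : n ∣ finrank K L := by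
  obtain ⟨v, hv⟩ : ∃ v : FinitePlace K, v a ≠ 1 := by
    by_contra! h
    have h1 := finprod_intCast (K := K) a ha.ne_zero
    rw [finprod_eq_one_of_forall_eq_one h, eq_comm, inv_eq_one] at h1
    exact (one_lt_pow₀ (by exact_mod_cast (by omega)) finrank_pos.ne').ne' h1
  obtain ⟨N, hN, h3, h4⟩ := place_zpow v
  have h5 : Algebra.norm K π ^ n = (a : K) ^ finrank K L := by
    rw [← map_pow, hπ, ← map_intCast (algebraMap K L), Algebra.norm_algebraMap]
  rcases eq_or_ne n 0 with rfl | hn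
  · rw [pow_zero, eq_comm, ← Int.cast_one, Int.cast_inj] at hπ
    simp [hπ] at h2
  obtain ⟨m, hm⟩ := h3 (Algebra.norm K π) fun h0 => by
    rw [h0, zero_pow hn, eq_comm] at h5
    exact pow_ne_zero _ (by exact_mod_cast ha.ne_zero) h5
  have h6 := congrArg v h5
  rw [map_pow, map_pow, hm, (h4 a ha hd).resolve_left hv, ← zpow_neg_one, ← zpow_natCast,
    ← zpow_natCast, ← zpow_mul, ← zpow_mul, zpow_right_inj₀ (by positivity) hN.ne'] at h6
  exact Int.natCast_dvd_natCast.1 ⟨-m, by linarith⟩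

theorem mulHeight₁_intCast (a : ℤ) (ha : a ≠ 0) :
    mulHeight₁ (a : K) = ((|a| : ℤ) : ℝ) ^ finrank ℚ K := by
  rw [← map_intCast (algebraMap ℚ K), mulHeight₁_algebraMap, Rat.mulHeight₁_eq_max]
  have : 1 ≤ a.natAbs := Int.natAbs_pos.2 ha
  simp [this]

theorem finprod_le_mulHeight₁ (x : K) : ∏ᶠ v : FinitePlace K, max (v x) 1 ≤ mulHeight₁ x := by
  rw [NumberField.mulHeight₁_eq]
  refine le_mul_of_one_le_left (finprod_nonneg fun v => by positivity) ?_
  exact Finset.one_le_prod fun v _ => one_le_pow₀ (le_max_right _ _)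

theorem pow_le_sq (a : ℤ) (ha : Squarefree a) (hd : IsCoprime (discr K) a) {β : K} (hβ : β ≠ 0)
    {n : ℕ} {k : ℤ} (hk : 2 * k.natAbs ≤ n) :
    mulHeight₁ (a : K) ^ k.natAbs ≤ mulHeight₁ (β ^ n * (a : K) ^ k) ^ 2 := by
  have ha0 : (a : K) ≠ 0 := by exact_mod_cast ha.ne_zero
  set z := β ^ n * (a : K) ^ k with hz
  have hz0 : z ≠ 0 := mul_ne_zero (pow_ne_zero _ hβ) (zpow_ne_zero _ ha0)
  have hf : ∀ x : K, x ≠ 0 → (fun v : FinitePlace K => max (v x) 1).HasFiniteMulSupport :=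
    fun x hx => (FinitePlace.hasFiniteMulSupport hx).subset fun v hv h => hv (by simp [h])
  have h1 : mulHeight₁ (a : K) ^ k.natAbs = ∏ᶠ v : FinitePlace K, v ((a : K)⁻¹ ^ k.natAbs) := by
    rw [FinitePlace.prod_eq_inv_abs_norm (pow_ne_zero _ (inv_ne_zero ha0)),
      mulHeight₁_intCast a ha.ne_zero, ← map_intCast (algebraMap ℚ K), ← map_inv₀, ← map_pow,
      Algebra.norm_algebraMap]
    simp [← pow_mul, mul_comm]
  rw [h1, sq]
  refine le_trans ?_ (mul_le_mul (finprod_le_mulHeight₁ z) ((finprod_le_mulHeight₁ z⁻¹).trans_eq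
    (mulHeight₁_inv z)) (finprod_nonneg fun v => by positivity) (mulHeight₁_nonneg _))
  rw [← finprod_mul_distrib (hf z hz0) (hf _ (inv_ne_zero hz0))]
  refine finprod_le_finprod (FinitePlace.hasFiniteMulSupport (pow_ne_zero _ (inv_ne_zero ha0)))
    (fun v => by positivity) ((hf z hz0).mul (hf _ (inv_ne_zero hz0))) fun v => ?_
  obtain ⟨N, hN, h3, h4⟩ := place_zpow v
  have h5 : 1 ≤ max (v z) 1 := le_max_right _ _
  have h6 : 1 ≤ max (v z⁻¹) 1 := le_max_right _ _
  rcases h4 a ha hd with h | h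
  · simpa [h] using one_le_mul_of_one_le_of_one_le h5 h6
  obtain ⟨m, hm⟩ := h3 β hβ
  have h7 : v z = N ^ (m * n - k) := by
    rw [hz, map_mul, map_pow, map_zpow₀, hm, h, inv_zpow', ← zpow_natCast, ← zpow_mul,
      ← zpow_add₀ (by positivity), sub_eq_add_neg]
  have h8 : v ((a : K)⁻¹ ^ k.natAbs) = N ^ (k.natAbs : ℤ) := by
    rw [zpow_natCast, map_pow, map_inv₀, h, inv_inv]
  have h9 : (k.natAbs : ℤ) ≤ m * n - k ∨ (k.natAbs : ℤ) ≤ -(m * n - k) := by
    rcases lt_trichotomy m 0 with hm | rfl | hm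
    · have : m * n ≤ -n := by nlinarith [Int.natCast_nonneg n]
      omega
    · omega
    · have : n ≤ m * n := by nlinarith [Int.natCast_nonneg n]
      omega
  change _ ≤ max (v z) 1 * max (v z⁻¹) 1
  rw [h8]
  rcases h9 with h9 | h9
  · refine le_trans ?_ (le_mul_of_one_le_right (by positivity) h6)
    exact le_max_of_le_left (h7 ▸ zpow_le_zpow_right₀ hN.le h9)
  · refine le_trans ?_ (le_mul_of_one_le_left (by positivity) h5)
    rw [map_inv₀, h7, ← zpow_neg]
    exact le_max_of_le_left (zpow_le_zpow_right₀ hN.le h9)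

theorem height_beta (a : ℤ) (ha : Squarefree a) (hd : IsCoprime (discr K) a) {β : K} (hβ : β ≠ 0)
    {π : L} {n : ℕ} (hn : n ≠ 0) (hπ : π ^ n = a) {k : ℤ} (hk : 2 * k.natAbs ≤ n) :
    mulHeight₁ (algebraMap K L β) ≤ mulHeight₁ (algebraMap K L β * π ^ k) ^ 3 := by
  have hπ0 : π ≠ 0 := by
    rintro rfl
    rw [zero_pow hn, eq_comm, Int.cast_eq_zero] at hπ
    exact ha.ne_zero hπ
  have h1 : mulHeight₁ (π ^ k)⁻¹ ≤ mulHeight₁ (algebraMap K L β * π ^ k) ^ 2 := by
    refine (pow_le_pow_iff_left₀ (mulHeight₁_nonneg _) (by positivity) hn).1 ?_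
    have h2 := pow_le_pow_left₀ (by positivity) (pow_le_sq a ha hd hβ hk) (finrank K L)
    rw [pow_right_comm, pow_right_comm _ 2, ← mulHeight₁_algebraMap, ← mulHeight₁_algebraMap,
      map_mul, map_pow, map_zpow₀, map_intCast, ← hπ, mulHeight₁_pow, ← zpow_natCast π,
      ← zpow_mul, mul_comm (n : ℤ), zpow_mul, zpow_natCast, ← mul_pow, mulHeight₁_pow] at h2
    rwa [mulHeight₁_inv, mulHeight₁_zpow, pow_right_comm, pow_right_comm _ 2]
  calc _ = mulHeight₁ (algebraMap K L β * π ^ k * (π ^ k)⁻¹) := by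
        rw [mul_inv_cancel_right₀ (zpow_ne_zero _ hπ0)]
    _ ≤ _ := mulHeight₁_mul_le _ _
    _ ≤ mulHeight₁ (algebraMap K L β * π ^ k) * mulHeight₁ (algebraMap K L β * π ^ k) ^ 2 := by
        gcongr
    _ = _ := by ring

end Pool.Agent.Lib.MP_f61260_nt
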