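import Pool.Agent.Lib.MP_f61260_nt.RadAD
import Pool.Agent.Lib.MP_f61260_nt.RadBeta
import Pool.Agent.Lib.MP_f61260_nt.RadAbs

/-!
The Amoroso-Dvornicich bound in cyclotomic extensions of a fixed number field.
-/

set_option autoImplicit false
set_option linter.unusedSectionVars false

open Module NumberField Polynomial Height IntermediateField

namespace Pool.Agent.Lib.MP_f61260_nt

section

variable {A R : Type*} [CommRing A] [CommRing R] [Algebra A R] {p : ℕ}

theorem pow_adjoin (hp : p.Prime) (z : R) {y : R} (hy : y ∈ Algebra.adjoin A {z}) :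
    ∃ y' ∈ Algebra.adjoin A {z ^ p}, (p : R) ∣ y ^ p - y' := by
  induction hy using Algebra.adjoin_induction with
  | mem x hx => exact ⟨_, Algebra.subset_adjoin rfl, by simp [show x = z from hx]⟩
  | algebraMap c => exact ⟨_, Subalgebra.algebraMap_mem _ (c ^ p), by simp⟩
  | add x y _ _ hx hy =>
    obtain ⟨x', h1, h2⟩ := hx
    obtain ⟨y', h3, h4⟩ := hy
    obtain ⟨r, hr⟩ := exists_add_pow_prime_eq hp x y
    refine ⟨_, add_mem h1 h3, ?_⟩
    rw [show (x + y) ^ p - (x' + y') = x ^ p - x' + (y ^ p - y') + p * (x * y * r) by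
      rw [hr]; ring]
    exact dvd_add (dvd_add h2 h4) (dvd_mul_right _ _)
  | mul x y _ _ hx hy =>
    obtain ⟨x', h1, h2⟩ := hx
    obtain ⟨y', h3, h4⟩ := hy
    refine ⟨_, mul_mem h1 h3, ?_⟩
    rw [show (x * y) ^ p - x' * y' = (x ^ p - x') * y ^ p + x' * (y ^ p - y') by ring]
    exact dvd_add (h2.mul_right _) (h4.mul_left _)

theorem frob_adjoin (hp : p.Prime) {f : ℕ} (hA : ∀ c : A, (p : A) ∣ c ^ p ^ f - c) (t : R →+* R)
    (ht : ∀ c, t (algebraMap A R c) = algebraMap A R c) {z : R} (hz : t z = z ^ p ^ f) {y : R}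
    (hy : y ∈ Algebra.adjoin A {z}) : (p : R) ∣ y ^ p ^ f - t y := by
  induction hy using Algebra.adjoin_induction with
  | mem x hx => simp [show x = z from hx, hz]
  | algebraMap c => simpa [ht] using map_dvd (algebraMap A R) (hA c)
  | add x y _ _ hx hy =>
    obtain ⟨r, hr⟩ := exists_add_pow_prime_pow_eq hp x y f
    rw [show (x + y) ^ p ^ f - t (x + y) = x ^ p ^ f - t x + (y ^ p ^ f - t y) + p * (x * y * r) by
      rw [hr, map_add]; ring]
    exact dvd_add (dvd_add hx hy) (dvd_mul_right _ _)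
  | mul x y _ _ hx hy =>
    rw [show (x * y) ^ p ^ f - t (x * y) =
      (x ^ p ^ f - t x) * y ^ p ^ f + t x * (y ^ p ^ f - t y) by rw [map_mul]; ring]
    exact dvd_add (hx.mul_right _) (hy.mul_left _)

end

variable {k K : Type*} [Field k] [NumberField k] [Field K] [NumberField K] [Algebra k K]

theorem exists_frobR {p : ℕ} (hp : p.Prime) (hd : IsCoprime (discr k) p) :
    ∃ f, 0 < f ∧ ∀ c : 𝓞 k, (p : 𝓞 k) ∣ c ^ p ^ f - c := by
  have hp0 : Ideal.span {(p : 𝓞 k)} ≠ 0 := by simpa using hp.ne_zero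
  have h1 : Squarefree (Ideal.span {(p : 𝓞 k)}) := by
    rw [squarefree_iff_irreducible_sq_not_dvd_of_ne_zero hp0]
    intro P hP h
    refine not_sq_dvd p (Nat.prime_iff_prime_int.1 hp).squarefree hd P hP.prime ?_
    simpa [sq] using h
  set I := Ideal.span {(p : 𝓞 k)} with hI
  have : Finite (𝓞 k ⧸ I) := Ideal.finiteQuotientOfFreeOfNeBot I hp0
  have h2 : Function.Injective fun x : 𝓞 k ⧸ I => x ^ p := by
    intro x y h
    obtain ⟨x, rfl⟩ := Ideal.Quotient.mk_surjective x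
    obtain ⟨y, rfl⟩ := Ideal.Quotient.mk_surjective y
    obtain ⟨r, hr⟩ := exists_add_pow_prime_eq hp (x - y) y
    simp only [← map_pow, Ideal.Quotient.eq] at h ⊢
    rw [← Ideal.dvd_span_singleton]
    refine h1.isRadical p _ ?_
    rw [Ideal.span_singleton_pow, Ideal.dvd_span_singleton,
      show (x - y) ^ p = x ^ p - y ^ p - p * ((x - y) * y * r) by
        rw [sub_add_cancel] at hr; linear_combination -hr]
    exact sub_mem h (Ideal.mul_mem_right _ _ (Ideal.mem_span_singleton_self _))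
  set e := Equiv.ofBijective _ (Finite.injective_iff_bijective.1 h2) with he
  have h3 : ∀ (n : ℕ) x, (e ^ n) x = x ^ p ^ n := by
    intro n
    induction n with
    | zero => simp
    | succ n ih => intro x; rw [pow_succ', Equiv.Perm.mul_apply, ih, pow_succ, pow_mul]; rfl
  refine ⟨orderOf e, orderOf_pos e, fun c => ?_⟩
  have h4 := h3 (orderOf e) (Ideal.Quotient.mk I c)
  rw [pow_orderOf_eq_one, Equiv.Perm.one_apply, ← map_pow, eq_comm, Ideal.Quotient.eq] at h4
  exact Ideal.mem_span_singleton.1 h4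

theorem conj_pow {p f m : ℕ} (hp : p.Prime) (hA : ∀ c : 𝓞 k, (p : 𝓞 k) ∣ c ^ p ^ f - c)
    (hm : p.Coprime m) (ξ : 𝓞 K) (hξ : ξ ^ m = 1) :
    aeval ((ξ : K) ^ p ^ f) (minpoly k (ξ : K)) = 0 := by
  have hint : IsIntegral (𝓞 k) ξ := Algebra.IsIntegral.isIntegral ξ
  obtain ⟨h, hh⟩ : minpoly (𝓞 k) ξ ∣ X ^ m - 1 :=
    minpoly.isIntegrallyClosed_dvd hint (by simp [hξ])
  set g := minpoly (𝓞 k) ξ with hg
  set z := ξ ^ p ^ f with hz
  have hzm : z ^ m = 1 := by rw [hz, pow_right_comm, hξ, one_pow]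
  have h1 : (p : 𝓞 K) ∣ aeval z g := by
    have h2 := map_dvd (aeval ξ) (frob_adjoin hp hA (expand (𝓞 k) (p ^ f)).toRingHom
      (fun c => by simp) (z := X) (by simp) (y := g) (by simp))
    simpa [hg, hp.ne_zero] using h2
  have h2 : aeval z g = 0 := by
    by_contra h3
    have h4 := congrArg (aeval z) hh
    simp only [map_sub, map_pow, aeval_X, hzm, map_one, sub_self, map_mul] at h4
    have h5 := congrArg (fun P => z * aeval z (derivative P)) hh
    have hm0 : m ≠ 0 := by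
      rintro rfl
      exact hp.one_lt.ne' (by simpa using hm)
    simp only [derivative_sub, derivative_X_pow, derivative_one, sub_zero, map_mul, map_natCast,
      map_pow, aeval_X, derivative_mul, map_add, (mul_eq_zero.1 h4.symm).resolve_left h3,
      mul_zero, zero_add] at h5
    rw [mul_left_comm, ← pow_succ', Nat.sub_add_cancel (Nat.pos_of_ne_zero hm0), hzm,
      mul_one] at h5
    have h6 : IsUnit (p : 𝓞 K) := (Nat.isCoprime_iff_coprime.2 hm).map (Int.castRingHom (𝓞 K))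
      |>.isUnit_of_dvd' (by simp) (by simpa [h5] using (h1.mul_right _).mul_left _)
    have h7 := Ideal.absNorm_span_natCast (S := 𝓞 K) p
    rw [Ideal.span_singleton_eq_top.2 h6, Ideal.absNorm_top, RingOfIntegers.rank] at h7
    exact (Nat.one_lt_pow finrank_pos.ne' hp.one_lt).ne h7
  have h3 := congrArg (algebraMap (𝓞 K) K) h2
  rw [← aeval_algebraMap_apply, map_zero, ← aeval_map_algebraMap k,
    ← minpoly.isIntegrallyClosed_eq_field_fractions k K hint] at h3
  simpa [hz] using h3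

theorem cond_mem {m : ℕ} (hm : m ≠ 0) (ζ : 𝓞 K) (hζ : IsPrimitiveRoot (ζ : K) m)
    (hK : Algebra.adjoin k {(ζ : K)} = ⊤) (θ : 𝓞 k) (hθ : Algebra.adjoin ℚ {(θ : k)} = ⊤)
    (x : 𝓞 K) : algebraMap (𝓞 k) (𝓞 K) (aeval θ (derivative (minpoly ℤ θ))) * x ∈
      Algebra.adjoin (𝓞 k) {ζ} := by
  have := NeZero.mk hm
  have : IsCyclotomicExtension {m} ℚ ℚ⟮(ζ : K)⟯ :=
    hζ.intermediateField_adjoin_isCyclotomicExtension ℚ
  set C := ℚ⟮(ζ : K)⟯ with hC
  set θ' := algebraMap (𝓞 k) (𝓞 K) θ with hθ'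
  have h1 : Algebra.adjoin C {algebraMap (𝓞 K) K θ'} = ⊤ := by
    refine Algebra.eq_top_iff.2 fun y => ?_
    have hy : y ∈ Algebra.adjoin k {(ζ : K)} := hK ▸ Algebra.mem_top
    induction hy using Algebra.adjoin_induction with
    | mem x hx => exact hx ▸ Subalgebra.algebraMap_mem _ (AdjoinSimple.gen ℚ (ζ : K))
    | add x y _ _ hx hy => exact add_mem hx hy
    | mul x y _ _ hx hy => exact mul_mem hx hy
    | algebraMap c =>
      have hc : c ∈ Algebra.adjoin ℚ {(θ : k)} := hθ ▸ Algebra.mem_top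
      induction hc using Algebra.adjoin_induction with
      | mem x hx => exact Algebra.subset_adjoin (hx ▸ rfl)
      | add x y _ _ hx hy => exact map_add (algebraMap k K) x y ▸ add_mem hx hy
      | mul x y _ _ hx hy => exact map_mul (algebraMap k K) x y ▸ mul_mem hx hy
      | algebraMap c =>
        simpa using (Algebra.adjoin C {algebraMap (𝓞 K) K θ'}).algebraMap_mem (algebraMap ℚ C c)
  have h2 : aeval θ' (derivative (minpoly (𝓞 C) θ')) ∈ conductor (𝓞 C) θ' :=
    Ideal.mul_le_left (conductor_mul_differentIdeal (𝓞 C) C K θ' h1 ▸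
      Ideal.mem_span_singleton_self _)
  obtain ⟨h, hh⟩ : minpoly (𝓞 C) θ' ∣ (minpoly ℤ θ).map (algebraMap ℤ (𝓞 C)) :=
    minpoly.isIntegrallyClosed_dvd (Algebra.IsIntegral.isIntegral θ') (by
      rw [aeval_map_algebraMap, hθ', aeval_algebraMap_apply, minpoly.aeval, map_zero])
  have h3 := congrArg (fun P => aeval θ' (derivative P)) hh
  simp only [derivative_map, aeval_map_algebraMap, derivative_mul, map_add, map_mul,
    minpoly.aeval, zero_mul, add_zero] at h3
  rw [← aeval_algebraMap_apply, ← hθ', h3, mul_assoc]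
  have h4 := mem_conductor_iff.1 h2 (aeval θ' h * x)
  generalize aeval θ' (derivative (minpoly (𝓞 C) θ')) * (aeval θ' h * x) = y at h4
  induction h4 using Algebra.adjoin_induction with
  | mem x hx => exact hx ▸ Subalgebra.algebraMap_mem _ θ
  | add x y _ _ hx hy => exact add_mem hx hy
  | mul x y _ _ hx hy => exact mul_mem hx hy
  | algebraMap c =>
    have hζ' : IsPrimitiveRoot (AdjoinSimple.gen ℚ (ζ : K)) m :=
      IsPrimitiveRoot.of_map_of_injective (f := algebraMap C K) hζ (algebraMap C K).injective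
    have hc : c ∈ Algebra.adjoin ℤ {hζ'.toInteger} :=
      IsCyclotomicExtension.Rat.adjoin_singleton_eq_top hζ' ▸ Algebra.mem_top
    induction hc using Algebra.adjoin_induction with
    | mem x hx => exact Algebra.subset_adjoin (hx ▸ rfl)
    | add x y _ _ hx hy => exact map_add (algebraMap (𝓞 C) (𝓞 K)) x y ▸ add_mem hx hy
    | mul x y _ _ hx hy => exact map_mul (algebraMap (𝓞 C) (𝓞 K)) x y ▸ mul_mem hx hy
    | algebraMap c => simp

theorem ad_gen (d : ℕ) (hd : d ≠ 0) (e f : ℕ) (s : K →+* K)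
    (hs : ∀ x : 𝓞 K, (d : 𝓞 K) ∣ x ^ e - RingOfIntegers.mapRingHom s x ^ f) (β : K)
    (h : β ^ e ≠ s β ^ f) : Real.log (d / 2) ≤ (e + f) * absLogHeight₁ β := by
  obtain ⟨x, y, hy, rfl, hc⟩ := exists_frac_coprime β d (Nat.cast_ne_zero.2 hd)
  set t := RingOfIntegers.mapRingHom s with ht
  have hy' : (y : K) ≠ 0 := by exact_mod_cast hy
  have hty' : (t y : K) ≠ 0 := (_root_.map_ne_zero s).2 hy'
  have hty : t y ≠ 0 := by exact_mod_cast hty'
  have hc' : IsCoprime (Ideal.span {(d : 𝓞 K)}) (Ideal.span {t x, t y}) := by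
    have := hc.map (Ideal.mapHom t)
    simpa [Ideal.map_span, Set.image_pair] using this
  set w := x ^ e * t y ^ f - y ^ e * t x ^ f with hw
  have hw0 : w ≠ 0 := by
    intro h0
    apply h
    have h1 : (x : K) ^ e * (t y : K) ^ f = (y : K) ^ e * (t x : K) ^ f := by
      exact_mod_cast sub_eq_zero.1 h0
    rw [map_div₀, div_pow, div_pow]
    exact (div_eq_div_iff (pow_ne_zero _ hy') (pow_ne_zero _ hty')).2 (h1.trans (mul_comm _ _))
  have h2 : Ideal.span {(d : 𝓞 K)} ∣ Ideal.span {w} := by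
    rw [Ideal.dvd_span_singleton, Ideal.mem_span_singleton,
      show w = (x ^ e - t x ^ f) * t y ^ f - (y ^ e - t y ^ f) * t x ^ f by rw [hw]; ring]
    exact dvd_sub ((hs x).mul_right _) ((hs y).mul_right _)
  have h3 : Ideal.span {x, y} ^ e * Ideal.span {t x, t y} ^ f ∣ Ideal.span {w} := by
    rw [Ideal.dvd_span_singleton]
    refine sub_mem (Ideal.mul_mem_mul (Ideal.pow_mem_pow (Ideal.subset_span ?_) _)
      (Ideal.pow_mem_pow (Ideal.subset_span ?_) _)) (Ideal.mul_mem_mul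
      (Ideal.pow_mem_pow (Ideal.subset_span ?_) _) (Ideal.pow_mem_pow (Ideal.subset_span ?_) _))
    all_goals simp
  have h4 := Nat.le_of_dvd (Nat.pos_of_ne_zero (by
    rw [Ne, Ideal.absNorm_eq_zero_iff, Ideal.span_singleton_eq_bot]
    exact hw0)) (map_dvd Ideal.absNorm
      ((hc.pow_right.mul_right hc'.pow_right).mul_dvd h2 h3))
  rw [map_mul, map_mul, map_pow, map_pow, Ideal.absNorm_span_natCast,
    RingOfIntegers.rank, Ideal.absNorm_span_singleton, ← Nat.cast_le (α := ℝ), natAbs_norm] at h4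
  have h5 := height_eq x y hy
  have h6 := height_eq (t x) (t y) hty
  rw [show (t x : K) / t y = s (x / y) from (map_div₀ s _ _).symm, mulHeight₁_map] at h6
  have h7 : ∏ σ : K →+* ℂ, ‖σ w‖ ≤ 2 ^ finrank ℚ K * ((∏ σ : K →+* ℂ, max ‖σ x‖ ‖σ y‖) ^ e *
      (∏ σ : K →+* ℂ, max ‖σ (t x)‖ ‖σ (t y)‖) ^ f) := by
    rw [← Embeddings.card K ℂ, ← Finset.card_univ, ← Finset.prod_const, ← Finset.prod_pow,
      ← Finset.prod_pow, ← Finset.prod_mul_distrib, ← Finset.prod_mul_distrib]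
    refine Finset.prod_le_prod (fun _ _ => norm_nonneg _) fun σ _ => ?_
    simp only [hw, map_sub, map_mul, map_pow, two_mul]
    refine (norm_sub_le _ _).trans (add_le_add ?_ ?_)
    all_goals
      rw [norm_mul, norm_pow, norm_pow]
      gcongr <;> simp
  have h8 : ∀ u v : 𝓞 K, v ≠ 0 → (0 : ℝ) < Ideal.absNorm (Ideal.span {u, v}) := by
    intro u v hv
    rw [Nat.cast_pos, Nat.pos_iff_ne_zero, Ne, Ideal.absNorm_eq_zero_iff, Ideal.span_eq_bot]
    exact fun h => hv (h v (by simp))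
  have h9 := h4.trans h7
  rw [← h5, ← h6] at h9
  push_cast at h9
  have h10 : (d : ℝ) ^ finrank ℚ K ≤ 2 ^ finrank ℚ K * mulHeight₁ ((x : K) / y) ^ (e + f) := by
    refine le_of_mul_le_mul_right (le_of_eq_of_le ?_ (h9.trans_eq ?_))
      (mul_pos (pow_pos (h8 x y hy) e) (pow_pos (h8 (t x) _ hty) f))
    · ring
    · ring
  have hD : (0 : ℝ) < finrank ℚ K := by exact_mod_cast finrank_pos
  have hd' : (0 : ℝ) < d := by positivity
  have h11 := Real.log_le_log (by positivity) h10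
  rw [Real.log_mul (by positivity) (by positivity), Real.log_pow, Real.log_pow,
    Real.log_pow] at h11
  rw [absH_self, Real.log_div hd'.ne' two_ne_zero, ← mul_div_assoc, le_div_iff₀ hD, logHeight₁]
  push_cast at h11
  linarith

theorem exists_prime (k : Type*) [Field k] [NumberField k] : ∃ p : ℕ, p.Prime ∧ 3 ≤ p ∧
    IsCoprime (discr k) p ∧ ∃ θ : 𝓞 k, Algebra.adjoin ℚ {(θ : k)} = ⊤ ∧
      ∃ u v : 𝓞 k, u * aeval θ (derivative (minpoly ℤ θ)) + v * p = 1 := by
  obtain ⟨α, hα⟩ := Field.exists_primitive_element ℚ k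
  have h1 : IsAlgebraic ℚ α := Algebra.IsAlgebraic.isAlgebraic α
  obtain ⟨n, hn, h2⟩ := ((IsFractionRing.isAlgebraic_iff ℤ ℚ k).2 h1).exists_integral_multiple
  obtain ⟨θ, hθ⟩ : ∃ θ : 𝓞 k, (θ : k) = (n : ℚ) • α :=
    ⟨⟨n • α, h2⟩, (Int.cast_smul_eq_zsmul ℚ n α).symm⟩
  have h3 : Algebra.adjoin ℚ {(θ : k)} = ⊤ := by
    rw [eq_top_iff, ← IntermediateField.top_toSubalgebra, ← hα,
      adjoin_simple_toSubalgebra_of_isAlgebraic h1, Algebra.adjoin_le_iff, Set.singleton_subset_iff,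
      show α = (n : ℚ)⁻¹ • (θ : k) by rw [hθ, inv_smul_smul₀ (by exact_mod_cast hn)]]
    exact Subalgebra.smul_mem _ (Algebra.self_mem_adjoin_singleton _ _) _
  have h4 : aeval θ (derivative (minpoly ℤ θ)) ≠ 0 := by
    intro h
    have h5 := congrArg (algebraMap (𝓞 k) k) h
    rw [← aeval_algebraMap_apply, map_zero, ← aeval_map_algebraMap ℚ, ← derivative_map,
      ← minpoly.isIntegrallyClosed_eq_field_fractions ℚ k (Algebra.IsIntegral.isIntegral θ)] at h5
    exact (Algebra.IsSeparable.isSeparable ℚ _).aeval_derivative_ne_zero (minpoly.aeval _ _) h5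
  set I := Ideal.span {aeval θ (derivative (minpoly ℤ θ))} with hI
  have h5 : Ideal.absNorm I ≠ 0 := by
    rwa [Ne, Ideal.absNorm_eq_zero_iff, Ideal.span_singleton_eq_bot]
  obtain ⟨r, hr⟩ := Ideal.mem_span_singleton'.1 (Ideal.absNorm_mem I)
  have h6 : (discr k).natAbs ≠ 0 := Int.natAbs_ne_zero.2 (discr_ne_zero k)
  obtain ⟨p, h7, hp⟩ := Nat.exists_infinite_primes (Ideal.absNorm I + (discr k).natAbs + 1)
  obtain ⟨u, v, huv⟩ := Nat.isCoprime_iff_coprime.2
    (Nat.coprime_of_lt_prime h5 (by omega) hp).symm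
  refine ⟨p, hp, by omega, ?_, θ, h3, u * r, v, ?_⟩
  · rw [Int.isCoprime_iff_gcd_eq_one]
    exact (Nat.coprime_of_lt_prime h6 (by omega) hp).symm
  · rw [mul_assoc, hr]
    exact_mod_cast congrArg (Int.cast (R := 𝓞 k)) huv

theorem galois_of_root {m : ℕ} (hm : m ≠ 0) {ζ : K} (hζ : IsPrimitiveRoot ζ m)
    (hK : Algebra.adjoin k {ζ} = ⊤) : IsGalois k K := by
  have := NeZero.mk hm
  have : IsCyclotomicExtension {m} k K :=
    (IsCyclotomicExtension.iff_singleton m k K).2 ⟨⟨ζ, hζ⟩, fun x =>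
      Algebra.adjoin_mono (s := {ζ}) (Set.singleton_subset_iff.2 hζ.pow_eq_one)
        (Algebra.eq_top_iff.1 hK x)⟩
  exact IsCyclotomicExtension.isGalois {m} k K

theorem relAD (k : Type*) [Field k] [NumberField k] : ∃ c : ℝ, 0 < c ∧ ∀ m : ℕ, m ≠ 0 →
    ∀ (K : Type) [Field K] [NumberField K] [Algebra k K] (ζ : K), IsPrimitiveRoot ζ m →
      Algebra.adjoin k {ζ} = ⊤ → ∀ β : K, β ≠ 0 → absLogHeight₁ β < c → ∃ j, 0 < j ∧ β ^ j = 1 := by
  obtain ⟨p, hp, hp3, hd, θ, hθ, u, v, huv⟩ := exists_prime k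
  obtain ⟨f, hf, hA⟩ := exists_frobR hp hd
  have hp' : (3 : ℝ) ≤ p := by exact_mod_cast hp3
  have hl : 0 < Real.log (p / 2) := Real.log_pos (by linarith)
  refine ⟨Real.log (p / 2) / ((p * p ^ f : ℕ) + p), by positivity, fun m => ?_⟩
  induction m using Nat.strong_induction_on with
  | _ m ih =>
  intro hm K _ _ _ ζ hζ hK β hβ h
  have := galois_of_root hm hζ hK
  set z : 𝓞 K := ⟨ζ, hζ.isIntegral (Nat.pos_of_ne_zero hm)⟩ with hz
  have h1 : ∀ x : 𝓞 K, ∃ y ∈ Algebra.adjoin (𝓞 k) {z ^ p}, (p : 𝓞 K) ∣ x ^ p - y := by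
    intro x
    obtain ⟨y, h2, h3⟩ := pow_adjoin hp z (Subalgebra.smul_mem _ (cond_mem hm z hζ hK θ hθ x) u)
    refine ⟨y, h2, ?_⟩
    rw [← sub_add_sub_cancel]
    refine dvd_add (dvd_trans ⟨algebraMap _ _ v * x, ?_⟩ (sub_dvd_pow_sub_pow _ _ _)) h3
    have h4 := congrArg (algebraMap (𝓞 k) (𝓞 K)) huv
    rw [map_add, map_mul, map_mul, map_natCast, map_one] at h4
    rw [Algebra.smul_def]
    linear_combination (-x) * h4
  have h2 : ∀ s : K ≃ₐ[k] K, ∀ c, RingOfIntegers.mapRingHom (s : K →+* K)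
      (algebraMap (𝓞 k) (𝓞 K) c) = algebraMap _ _ c := fun s c => Subtype.ext (s.commutes c)
  have h3 : ∀ (s : K ≃ₐ[k] K) (x y : 𝓞 K), (p : 𝓞 K) ∣ x ^ p - y → (p : 𝓞 K) ∣
      RingOfIntegers.mapRingHom (s : K →+* K) x ^ p -
        RingOfIntegers.mapRingHom (s : K →+* K) y := fun s x y h => by
    simpa using map_dvd (RingOfIntegers.mapRingHom (s : K →+* K)) h
  have h0 : 0 ≤ absLogHeight₁ β := absH_nonneg (IsIntegral.of_finite ℚ β)
  rw [lt_div_iff₀' (by positivity)] at h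
  by_cases hpm : p * p ∣ m
  · obtain ⟨n, rfl⟩ := hpm
    set E := k⟮ζ ^ p⟯ with hE
    have h4 : β ^ p ∈ (algebraMap E K).range := by
      refine (IsGalois.mem_range_algebraMap_iff_fixed _).2 fun s => ?_
      by_contra h5
      have h6 := ad_gen p hp.ne_zero p p (s.restrictScalars k : K →+* K) (fun x => by
        obtain ⟨y, h6, h7⟩ := h1 x
        have h8 := h3 (s.restrictScalars k) x y h7
        have h9 := frob_adjoin hp (f := 0) (by simp) _ (h2 (s.restrictScalars k))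
          (z := z ^ p) (by
            rw [pow_zero, pow_one]
            exact Subtype.ext (s.commutes (AdjoinSimple.gen k (ζ ^ p)))) h6
        have h10 := dvd_sub (dvd_add h7 h9) h8
        simpa using h10) β (by simpa [eq_comm] using h5)
      have h7 : (p : ℝ) ≤ (p * p ^ f : ℕ) := by
        exact_mod_cast Nat.le_mul_of_pos_right _ (by positivity)
      nlinarith
    have h5 : IsPrimitiveRoot (ζ ^ p) (p * n) := hζ.pow (Nat.pos_of_ne_zero hm) (mul_assoc _ _ _)
    have h6 : IsPrimitiveRoot (AdjoinSimple.gen k (ζ ^ p)) (p * n) :=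
      IsPrimitiveRoot.of_map_of_injective (f := algebraMap E K) h5 (algebraMap E K).injective
    have hn : n ≠ 0 := right_ne_zero_of_mul hm
    obtain ⟨_, ⟨i, rfl⟩, y, hy⟩ := radical_mem hp.ne_zero
      (h6.pow (by positivity) (mul_comm _ _)) (Set.range fun i : ℕ => β * ζ ^ i) (by
        rintro _ ⟨i, rfl⟩
        rw [mul_pow, pow_right_comm]
        exact mul_mem h4 (pow_mem (RingHom.mem_range_self _ (AdjoinSimple.gen k (ζ ^ p))) _)) (by
        have h7 : β⁻¹ ∈ Submodule.span E (Set.range fun i : ℕ => ζ ^ i) := by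
          refine Submodule.span_le_restrictScalars k E _ ?_
          have h8 : β⁻¹ ∈ Subalgebra.toSubmodule (Algebra.adjoin k {ζ}) :=
            Algebra.eq_top_iff.1 hK _
          rwa [Algebra.adjoin_eq_span, ← Submonoid.powers_eq_closure] at h8
        have h8 := Submodule.mem_map_of_mem (f := LinearMap.mulLeft E β) h7
        rwa [Submodule.map_span, ← Set.range_comp, LinearMap.mulLeft_apply,
          mul_inv_cancel₀ hβ] at h8)
    replace hy : algebraMap E K y = β * ζ ^ i := hy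
    have hζ0 : ζ ≠ 0 := hζ.ne_zero hm
    obtain ⟨j, hj, h7⟩ := ih (p * n) (by
        have := hp.two_le
        have := Nat.pos_of_ne_zero hn
        nlinarith [mul_pos hp.pos this]) (by positivity) E _ h6
      (adjoin.powerBasis (IsIntegral.of_finite k (ζ ^ p))).adjoin_gen_eq_top y
      (fun h => mul_ne_zero hβ (pow_ne_zero i hζ0) (by simp [← hy, h])) (by
        rw [← absH_map (algebraMap E K), hy, lt_div_iff₀' (by positivity)]
        refine lt_of_le_of_lt ?_ h
        gcongr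
        refine (absH_mul_le (.of_finite ℚ _) (.of_finite ℚ _)).trans_eq ?_
        rw [absH_root (x := ζ ^ i) hm (by rw [pow_right_comm, hζ.pow_eq_one, one_pow]), add_zero])
    refine ⟨j * (p * p * n), by positivity, ?_⟩
    have h8 := congrArg (fun x => algebraMap E K x ^ (p * p * n)) h7
    simp only [map_pow, hy, map_one, one_pow, mul_pow] at h8
    rwa [pow_right_comm (ζ ^ i), pow_right_comm ζ, hζ.pow_eq_one, one_pow, one_pow, mul_one,
      ← pow_mul] at h8
  obtain ⟨n, hn, h4⟩ : ∃ n, p.Coprime n ∧ (z ^ p) ^ n = 1 := by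
    have h4 : z ^ m = 1 := Subtype.ext hζ.pow_eq_one
    by_cases h5 : p ∣ m
    · obtain ⟨n, rfl⟩ := h5
      exact ⟨n, hp.coprime_iff_not_dvd.2 fun h => hpm (mul_dvd_mul_left p h), by rwa [← pow_mul]⟩
    · exact ⟨m, hp.coprime_iff_not_dvd.2 h5, by rw [pow_right_comm, h4, one_pow]⟩
  obtain ⟨s, hs⟩ := minpoly.exists_algEquiv_of_root' (Algebra.IsAlgebraic.isAlgebraic _)
    (conj_pow hp hA hn _ h4)
  have h5 : β ^ (p * p ^ f) = s β ^ p := by
    by_contra h5
    refine (ad_gen p hp.ne_zero (p * p ^ f) p (s : K →+* K) (fun x => ?_) β h5).not_gt h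
    obtain ⟨y, h6, h7⟩ := h1 x
    have h8 := dvd_sub (dvd_add (h7.trans (sub_dvd_pow_sub_pow _ _ (p ^ f)))
      (frob_adjoin hp hA _ (h2 s) (z := z ^ p) (Subtype.ext hs) h6)) (h3 s x y h7)
    simpa [pow_mul] using h8
  have h6 : ∀ j : ℕ, (s ^ j) (β ^ p) = (β ^ p) ^ (p ^ f) ^ j := by
    intro j
    induction j with
    | zero => simp
    | succ j ih =>
      rw [pow_succ', AlgEquiv.mul_apply, ih, map_pow, map_pow, ← h5, pow_mul, ← pow_mul (β ^ p),
        ← pow_succ']
  have h7 := h6 (orderOf s)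
  have h8 : 1 < (p ^ f) ^ orderOf s :=
    Nat.one_lt_pow (orderOf_pos s).ne' (Nat.one_lt_pow hf.ne' hp.one_lt)
  rw [pow_orderOf_eq_one, AlgEquiv.one_apply, ← Nat.sub_add_cancel h8.le, pow_succ, eq_comm,
    mul_eq_right₀ (pow_ne_zero _ hβ), ← pow_mul] at h7
  exact ⟨_, mul_pos hp.pos (by omega), h7⟩

theorem discr_cyc {m : ℕ} (hm : m ≠ 0) {ζ : K} (hζ : IsPrimitiveRoot ζ m)
    (hK : Algebra.adjoin k {ζ} = ⊤) (c : ℤ) (hc : IsCoprime (discr k) c)
    (hc' : IsCoprime (m : ℤ) c) : IsCoprime (discr K) c := by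
  obtain ⟨z, rfl⟩ : ∃ z : 𝓞 K, (z : K) = ζ := ⟨⟨ζ, hζ.isIntegral (Nat.pos_of_ne_zero hm)⟩, rfl⟩
  have hz : z ^ m = 1 := Subtype.ext hζ.pow_eq_one
  obtain ⟨h, hh⟩ : minpoly (𝓞 k) z ∣ X ^ m - 1 :=
    minpoly.isIntegrallyClosed_dvd (Algebra.IsIntegral.isIntegral z) (by simp [hz])
  have h1 := congrArg (fun P => z * aeval z (derivative P)) hh
  simp only [derivative_sub, derivative_X_pow, derivative_one, sub_zero, map_mul, map_natCast,
    map_pow, aeval_X, derivative_mul, map_add, minpoly.aeval, zero_mul, add_zero] at h1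
  rw [mul_left_comm, ← pow_succ', Nat.sub_add_cancel (Nat.pos_of_ne_zero hm), hz, mul_one] at h1
  have h4 : (m : 𝓞 K) ∈ differentIdeal (𝓞 k) (𝓞 K) := h1 ▸ Ideal.mul_mem_left _ _
    (Ideal.mul_mem_right _ _ (aeval_derivative_mem_differentIdeal (𝓞 k) k K z hK))
  have h5 := Ideal.absNorm_dvd_absNorm_of_le ((Ideal.span_singleton_le_iff_mem _).2 h4)
  rw [Ideal.absNorm_span_natCast] at h5
  refine IsCoprime.of_isCoprime_of_dvd_left
    ((hc'.pow_left (m := finrank ℤ (𝓞 K))).mul_left (hc.pow_left (m := finrank k K))) ?_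
  rw [← Int.natAbs_dvd_natAbs,
    natAbs_discr_eq_absNorm_differentIdeal_mul_natAbs_discr_pow k (𝓞 k) K (𝓞 K), Int.natAbs_mul,
    Int.natAbs_pow, Int.natAbs_pow]
  exact mul_dvd_mul_right h5 _

end Pool.Agent.Lib.MP_f61260_nt
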