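import Pool.Agent.Lib.MP_f61260_nt.RadGram

/-!
Archimedean estimates.
-/

set_option autoImplicit false

open Matrix Polynomial

namespace Pool.Agent.Lib.MP_f61260_nt

variable {p q : ℕ}

/-- Exponent in the family. -/
def ex : Fin p ⊕ Fin q → ℕ := Sum.elim (fun k => k) (fun k => k)

/-- Exponent in the basis. -/
def bxR : Fin p ⊕ Fin q → ℕ := Sum.elim (fun k => k) (fun k => p + k)

/-- The family `x z ^ k (k < p)`, `y z ^ k (k < q)`. -/
def fam {R : Type*} [Monoid R] (x y z : R) : Fin p ⊕ Fin q → R :=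
  fun k => Sum.elim (fun _ => x) (fun _ => y) k * z ^ ex k

theorem bx_eq (k : Fin p ⊕ Fin q) : bxR k = (finSumFinEquiv k : ℕ) := by
  rcases k with k | k <;> simp [bxR]

theorem sum_bx : ∑ k : Fin p ⊕ Fin q, bxR k = ∑ k : Fin p ⊕ Fin q, ex k + p * q := by
  simp [Fintype.sum_sum_type, bxR, ex, Finset.sum_add_distrib]
  ring

theorem det_fam_scale (x y u : Fin p ⊕ Fin q → ℂ) (r : ℝ) (hr : 0 ≤ r) :
    ‖(Matrix.of fun i k => fam (x i) (y i) (r * u i) k).det‖ =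
      ‖(Matrix.of fun i k => fam (x i) (y i) (u i) k).det‖ * r ^ ∑ k : Fin p ⊕ Fin q, ex k := by
  have : (Matrix.of fun i k => fam (x i) (y i) (r * u i) k) =
      (Matrix.of fun i k => fam (x i) (y i) (u i) k) * diagonal fun k => (r : ℂ) ^ ex k := by
    ext i k
    simp only [mul_diagonal, of_apply, fam, mul_pow]
    ring
  rw [this, det_mul, det_diagonal, norm_mul, Finset.prod_pow_eq_pow_sum, norm_pow,
    Complex.norm_real, Real.norm_of_nonneg hr]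

theorem van_norm {ζ u₀ : ℂ} (hζ : IsPrimitiveRoot ζ (p + q)) (hu : ‖u₀‖ = 1) (r : ℝ)
    (hr : 0 ≤ r) :
    ‖(Matrix.of fun i k : Fin p ⊕ Fin q => (r * (u₀ * ζ ^ bxR i)) ^ bxR k).det‖ ^ 2 =
      ((p + q : ℕ) : ℝ) ^ (p + q) * (r ^ ∑ k : Fin p ⊕ Fin q, bxR k) ^ 2 := by
  set W : Matrix (Fin p ⊕ Fin q) (Fin p ⊕ Fin q) ℂ := Matrix.of fun i k => ζ ^ (bxR i * bxR k)
    with hW
  have h1 : (Matrix.of fun i k : Fin p ⊕ Fin q => (r * (u₀ * ζ ^ bxR i)) ^ bxR k) =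
      W * diagonal fun k => ((r : ℂ) * u₀) ^ bxR k := by
    ext i k
    simp only [mul_diagonal, of_apply, hW, mul_pow, pow_mul]
    ring
  have h2 : Wᴴ * W = diagonal fun _ => ((p + q : ℕ) : ℂ) := by
    ext j k
    rcases Nat.eq_zero_or_pos (p + q) with h0 | hpos
    · exact absurd (finSumFinEquiv j).2 (by omega)
    have hn1 : ‖ζ‖ = 1 := hζ.norm'_eq_one hpos.ne'
    have hζ0 : ζ ≠ 0 := hζ.ne_zero hpos.ne'
    have hc : (starRingEnd ℂ) ζ = ζ⁻¹ := by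
      rw [Complex.inv_def, Complex.normSq_eq_norm_sq, hn1]
      simp
    have h3 : (Wᴴ * W) j k = ∑ i ∈ Finset.range (p + q), (ζ ^ ((bxR k : ℤ) - bxR j)) ^ i := by
      rw [Matrix.mul_apply, Finset.sum_range, ← finSumFinEquiv.sum_comp]
      refine Finset.sum_congr rfl fun i _ => ?_
      rw [conjTranspose_apply, ← bx_eq]
      simp only [hW, of_apply, star_pow, Complex.star_def, hc]
      rw [zpow_sub₀ hζ0, zpow_natCast, zpow_natCast, div_pow, ← pow_mul, ← pow_mul, inv_pow,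
        mul_comm (bxR k), mul_comm (bxR j), div_eq_inv_mul]
    rw [h3]
    by_cases hjk : j = k
    · subst hjk
      simp
    · rw [diagonal_apply_ne _ hjk]
      have hne : ζ ^ ((bxR k : ℤ) - bxR j) ≠ 1 := by
        rw [Ne, hζ.zpow_eq_one_iff_dvd]
        intro hd
        have h4 := (finSumFinEquiv j).2
        have h5 := (finSumFinEquiv k).2
        rw [← bx_eq] at h4 h5
        have h6 : (bxR k : ℤ) - bxR j = 0 :=
          Int.eq_zero_of_abs_lt_dvd hd (by rw [abs_lt]; push_cast; constructor <;> omega)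
        apply hjk
        apply finSumFinEquiv.injective
        ext
        rw [← bx_eq, ← bx_eq]
        omega
      rw [geom_sum_eq hne, ← zpow_natCast, ← _root_.zpow_mul, mul_comm, _root_.zpow_mul, zpow_natCast,
        hζ.pow_eq_one]
      simp
  have h4 : ‖W.det‖ ^ 2 = ((p + q : ℕ) : ℝ) ^ (p + q) := by
    have := congrArg (fun M => ‖Matrix.det M‖) h2
    simp only [det_mul, det_conjTranspose, norm_mul, norm_star, det_diagonal,
      Finset.prod_const, Finset.card_univ, Fintype.card_sum, Fintype.card_fin, norm_pow,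
      Complex.norm_natCast] at this
    rw [sq, this]
  rw [h1, det_mul, det_diagonal, norm_mul, mul_pow, h4, Finset.prod_pow_eq_pow_sum, norm_pow,
    norm_mul, hu, mul_one, Complex.norm_real, Real.norm_of_nonneg hr]

theorem norm_point {ζ u₀ : ℂ} (hζ : IsPrimitiveRoot ζ (p + q)) (hu : ‖u₀‖ = 1)
    (i : Fin p ⊕ Fin q) : ‖u₀ * ζ ^ bxR i‖ = 1 := by
  have hpos : p + q ≠ 0 := by have := (finSumFinEquiv i).2; omega
  rw [norm_mul, norm_pow, hu, hζ.norm'_eq_one hpos]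
  simp

theorem archA {ζ u₀ : ℂ} (hζ : IsPrimitiveRoot ζ (p + q)) (hu : ‖u₀‖ = 1) (r : ℝ) (hr : 0 ≤ r)
    (x y : Fin p ⊕ Fin q → ℂ) :
    ‖(Matrix.of fun i k => fam (x i) (y i) (r * (u₀ * ζ ^ bxR i)) k).det‖ * r ^ (p * q) ≤
      ‖(Matrix.of fun i k : Fin p ⊕ Fin q => (r * (u₀ * ζ ^ bxR i)) ^ bxR k).det‖ *
        ∏ i, max ‖x i‖ ‖y i‖ := by
  refine (pow_le_pow_iff_left₀ (by positivity) (by positivity) two_ne_zero).1 ?_
  rw [mul_pow, mul_pow, van_norm hζ hu r hr, det_fam_scale _ _ _ r hr, sum_bx]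
  have h1 := hadamard_cols (Matrix.of fun i k => fam (x i) (y i) (u₀ * ζ ^ bxR i) k)ᵀ
  rw [det_transpose] at h1
  have h2 : ∏ j : Fin p ⊕ Fin q, ∑ i : Fin p ⊕ Fin q,
      ‖(Matrix.of fun i k => fam (x i) (y i) (u₀ * ζ ^ bxR i) k)ᵀ i j‖ ^ 2 ≤
      ((p + q : ℕ) : ℝ) ^ (p + q) * (∏ i, max ‖x i‖ ‖y i‖) ^ 2 := by
    calc _ ≤ ∏ j : Fin p ⊕ Fin q, (((p + q : ℕ) : ℝ) * (max ‖x j‖ ‖y j‖) ^ 2) := by
          refine Finset.prod_le_prod (fun j _ => by positivity) fun j _ => ?_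
          calc _ ≤ ∑ _i : Fin p ⊕ Fin q, (max ‖x j‖ ‖y j‖) ^ 2 := by
                refine Finset.sum_le_sum fun i _ => ?_
                simp only [transpose_apply, of_apply, fam]
                rw [norm_mul, norm_pow, norm_point hζ hu, one_pow, mul_one]
                refine pow_le_pow_left₀ (norm_nonneg _) ?_ 2
                rcases i with i | i
                · exact le_max_left _ _
                · exact le_max_right _ _
            _ = _ := by simp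
      _ = _ := by
          rw [Finset.prod_mul_distrib, Finset.prod_const, Finset.prod_pow]
          simp
  calc _ = ‖(Matrix.of fun i k => fam (x i) (y i) (u₀ * ζ ^ bxR i) k).det‖ ^ 2 *
        (r ^ (∑ k : Fin p ⊕ Fin q, ex k + p * q)) ^ 2 := by rw [pow_add]; ring
    _ ≤ (((p + q : ℕ) : ℝ) ^ (p + q) * (∏ i, max ‖x i‖ ‖y i‖) ^ 2) *
        (r ^ (∑ k : Fin p ⊕ Fin q, ex k + p * q)) ^ 2 := by
          gcongr
          exact h1.trans h2
    _ = _ := by ring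

theorem coeff_twist_le (F₁ F₂ : ℂ[X]) {m : ℕ} (h₁ : F₁.natDegree < m) (h₂ : F₂.natDegree < m)
    {ζ₁ ζ₂ : ℂ} (hζ₁ : ‖ζ₁‖ = 1) (hζ₂ : ‖ζ₂‖ = 1) (N : ℕ) :
    2 * ‖(F₁.comp (C ζ₁ * X) * F₂.comp (C ζ₂ * X)).coeff N‖ ≤
      ∑ i ∈ Finset.range m, ‖F₁.coeff i‖ ^ 2 + ∑ i ∈ Finset.range m, ‖F₂.coeff i‖ ^ 2 := by
  have key : ∀ F : ℂ[X], F.natDegree < m → ∀ s : Finset ℕ,
      ∑ i ∈ s, ‖F.coeff i‖ ^ 2 ≤ ∑ i ∈ Finset.range m, ‖F.coeff i‖ ^ 2 := by
    intro F hF s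
    rw [← Finset.sum_filter_add_sum_filter_not s (fun i => i < m)]
    have h0 : ∑ i ∈ s.filter (fun i => ¬ i < m), ‖F.coeff i‖ ^ 2 = 0 := by
      refine Finset.sum_eq_zero fun i hi => ?_
      rw [coeff_eq_zero_of_natDegree_lt (hF.trans_le (not_lt.1 (Finset.mem_filter.1 hi).2))]
      simp
    rw [h0, add_zero]
    refine Finset.sum_le_sum_of_subset_of_nonneg ?_ fun _ _ _ => by positivity
    intro i hi
    exact Finset.mem_range.2 (Finset.mem_filter.1 hi).2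
  rw [coeff_mul]
  have h3 : 2 * ‖∑ x ∈ Finset.HasAntidiagonal.antidiagonal N,
      (F₁.comp (C ζ₁ * X)).coeff x.1 * (F₂.comp (C ζ₂ * X)).coeff x.2‖ ≤
      ∑ x ∈ Finset.HasAntidiagonal.antidiagonal N, (‖F₁.coeff x.1‖ ^ 2 + ‖F₂.coeff x.2‖ ^ 2) := by
    refine (mul_le_mul_of_nonneg_left (norm_sum_le _ _) (by norm_num)).trans ?_
    rw [Finset.mul_sum]
    refine Finset.sum_le_sum fun x _ => ?_
    rw [comp_C_mul_X_coeff, comp_C_mul_X_coeff]
    simp only [norm_mul, norm_pow, hζ₁, hζ₂, one_pow, mul_one]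
    nlinarith [sq_nonneg (‖F₁.coeff x.1‖ - ‖F₂.coeff x.2‖)]
  refine h3.trans ?_
  rw [Finset.sum_add_distrib]
  refine add_le_add ?_ ?_
  · rw [Finset.Nat.sum_antidiagonal_eq_sum_range_succ (fun i _ => ‖F₁.coeff i‖ ^ 2)]
    exact key F₁ h₁ _
  · rw [← Finset.Nat.sum_antidiagonal_swap]
    simp only [Prod.snd_swap]
    rw [Finset.Nat.sum_antidiagonal_eq_sum_range_succ (fun i _ => ‖F₂.coeff i‖ ^ 2)]
    exact key F₂ h₂ _

theorem twist_le (A B Q : ℂ[X]) (hQ : Q.Monic) {m : ℕ} (h₁ : (A * Q).natDegree < m)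
    (h₂ : (B * Q).natDegree < m) {ζ c₁ c₂ : ℂ} (hζ : ‖ζ‖ = 1) (hc₁ : ‖c₁‖ = 1) (hc₂ : ‖c₂‖ = 1) :
    ‖(C c₁ * (A * B.comp (C ζ * X)) - C c₂ * (A.comp (C ζ * X) * B)).leadingCoeff‖ ≤
      ∑ i ∈ Finset.range m, ‖(A * Q).coeff i‖ ^ 2 +
        ∑ i ∈ Finset.range m, ‖(B * Q).coeff i‖ ^ 2 := by
  set G := C c₁ * (A * B.comp (C ζ * X)) - C c₂ * (A.comp (C ζ * X) * B) with hG
  have hζ0 : ζ ≠ 0 := by
    intro h
    rw [h, norm_zero] at hζ
    exact zero_ne_one hζ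
  have hQ' : ‖(Q.comp (C ζ * X)).leadingCoeff‖ = 1 := by
    rw [leadingCoeff_comp (by rw [natDegree_C_mul_X _ hζ0]; exact one_ne_zero), hQ.leadingCoeff,
      leadingCoeff_C_mul_X, one_mul, norm_pow, hζ, one_pow]
  have h3 : ‖G.leadingCoeff‖ = ‖(G * (Q * Q.comp (C ζ * X))).leadingCoeff‖ := by
    rw [leadingCoeff_mul, leadingCoeff_mul, norm_mul, norm_mul, hQ', hQ.leadingCoeff]
    simp
  have h4 : G * (Q * Q.comp (C ζ * X)) =
      C c₁ * ((A * Q).comp (C 1 * X) * (B * Q).comp (C ζ * X)) -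
        C c₂ * ((A * Q).comp (C ζ * X) * (B * Q).comp (C 1 * X)) := by
    simp only [hG, map_one, one_mul, comp_X, mul_comp]
    ring
  rw [h3, leadingCoeff, h4, coeff_sub, coeff_C_mul, coeff_C_mul]
  refine (norm_sub_le _ _).trans ?_
  rw [norm_mul, norm_mul, hc₁, hc₂, one_mul, one_mul]
  have h5 := coeff_twist_le (A * Q) (B * Q) h₁ h₂ (ζ₁ := 1) norm_one hζ
  have h6 := coeff_twist_le (A * Q) (B * Q) h₁ h₂ (ζ₂ := 1) hζ norm_one
  linarith [h5 (C c₁ * ((A * Q).comp (C 1 * X) * (B * Q).comp (C ζ * X)) -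
        C c₂ * ((A * Q).comp (C ζ * X) * (B * Q).comp (C 1 * X))).natDegree,
    h6 (C c₁ * ((A * Q).comp (C 1 * X) * (B * Q).comp (C ζ * X)) -
        C c₂ * ((A * Q).comp (C ζ * X) * (B * Q).comp (C 1 * X))).natDegree]

theorem archB_unit {d t : ℕ} (u : Fin (d + t) ⊕ Fin d → ℂ) (hu : ∀ i, ‖u i‖ = 1) (A B : ℂ[X])
    (hA : A.natDegree ≤ d) (hB : B.natDegree ≤ d) {ζ c₁ c₂ : ℂ} (hζ : ‖ζ‖ = 1) (hc₁ : ‖c₁‖ = 1)
    (hc₂ : ‖c₂‖ = 1) :
    ‖(Matrix.of fun i k => fam (A.eval (u i)) (B.eval (u i)) (u i) k).det‖ ^ 2 *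
      ‖(C c₁ * (A * B.comp (C ζ * X)) - C c₂ * (A.comp (C ζ * X) * B)).leadingCoeff‖ ^ t ≤
      (∏ i, ((d + t : ℕ) : ℝ) * (‖A.eval (u i)‖ ^ 2 + ‖B.eval (u i)‖ ^ 2)) *
        (‖A.coeff d‖ ^ t) ^ 2 := by
  have hdeg : ∀ (P Q : ℂ[X]), P.natDegree ≤ d → Q.natDegree < t → (P * Q).natDegree < d + t :=
    fun P Q hP hQ => lt_of_le_of_lt natDegree_mul_le (by omega)
  have hXj : ∀ j : Fin t, (X ^ (j : ℕ) : ℂ[X]).natDegree < t := fun j => by simp
  have key := block_ineq (Matrix.of fun i k => fam (A.eval (u i)) (B.eval (u i)) (u i) k)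
    (Matrix.of fun i (j : Fin t) => B.eval (u i) * u i ^ (d + j))
    (Matrix.of fun k (j : Fin t) => Sum.elim (fun k : Fin (d + t) => -(B * X ^ (j : ℕ)).coeff k)
      (fun k : Fin d => (A * X ^ (j : ℕ)).coeff k) k)
    (Matrix.of fun (l j : Fin t) => (A * X ^ (j : ℕ)).coeff (d + l)) ?_
    (norm_nonneg (C c₁ * (A * B.comp (C ζ * X)) - C c₂ * (A.comp (C ζ * X) * B)).leadingCoeff) ?_
  · refine key.trans (le_of_eq ?_)
    congr 1
    · refine Finset.prod_congr rfl fun i _ => ?_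
      simp only [of_apply, fam, Fintype.sum_sum_type, Sum.elim_inl, Sum.elim_inr, norm_mul,
        norm_pow, hu, one_pow, mul_one, Finset.sum_const, Finset.card_univ, Fintype.card_fin,
        nsmul_eq_mul]
      push_cast
      ring
    · rw [Matrix.det_of_isUpperTriangular]
      · simp [coeff_mul_X_pow]
      · intro l j hlj
        have : (j : ℕ) < l := hlj
        rw [of_apply]
        refine coeff_eq_zero_of_natDegree_lt (lt_of_le_of_lt natDegree_mul_le ?_)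
        rw [natDegree_X_pow]
        omega
  · ext i j
    have e1 := eval_eq_sum_range' (hdeg B _ hB (hXj j)) (u i)
    have e2 := eval_eq_sum_range' (hdeg A _ hA (hXj j)) (u i)
    rw [Finset.sum_range] at e1
    rw [Finset.sum_range, Fin.sum_univ_add] at e2
    simp only [eval_mul, eval_pow, eval_X, Fin.val_castAdd, Fin.val_natAdd] at e1 e2
    simp only [Matrix.add_apply, Matrix.mul_apply, of_apply, fam, ex, Fintype.sum_sum_type,
      Sum.elim_inl, Sum.elim_inr, Matrix.zero_apply]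
    have e3 : ∑ k : Fin (d + t), A.eval (u i) * u i ^ (k : ℕ) * -(B * X ^ (j : ℕ)).coeff k
        = -(A.eval (u i) * (B.eval (u i) * u i ^ (j : ℕ))) := by
      rw [e1, Finset.mul_sum, ← Finset.sum_neg_distrib]
      exact Finset.sum_congr rfl fun k _ => by ring
    have e4 : ∑ k : Fin d, B.eval (u i) * u i ^ (k : ℕ) * (A * X ^ (j : ℕ)).coeff k +
        ∑ l : Fin t, B.eval (u i) * u i ^ (d + l) * (A * X ^ (j : ℕ)).coeff (d + l)
        = B.eval (u i) * (A.eval (u i) * u i ^ (j : ℕ)) := by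
      rw [e2, mul_add, Finset.mul_sum, Finset.mul_sum]
      congr 1 <;> exact Finset.sum_congr rfl fun k _ => by ring
    rw [e3, add_assoc, e4]
    ring
  · intro j c hc1 hc0
    set Q : ℂ[X] := ∑ k : Fin t, C (c k) * X ^ (k : ℕ) with hQ
    have hQc : ∀ k : Fin t, Q.coeff k = c k := by
      intro k
      simp [hQ, coeff_X_pow, Fin.val_inj]
    have hQd : Q.natDegree ≤ j := by
      rw [natDegree_le_iff_coeff_eq_zero]
      intro N hN
      simp only [hQ, finsetSum_coeff, coeff_C_mul, coeff_X_pow]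
      refine Finset.sum_eq_zero fun k _ => ?_
      split_ifs with h
      · rw [hc0 k (by rw [Fin.lt_def]; omega), zero_mul]
      · rw [mul_zero]
    have hQm : Q.Monic := monic_of_natDegree_le_of_coeff_eq_one _ hQd (by rw [hQc, hc1])
    have hQt : Q.natDegree < t := hQd.trans_lt j.2
    have hco : ∀ (P : ℂ[X]) (N : ℕ), ∑ k : Fin t, (P * X ^ (k : ℕ)).coeff N * c k
        = (P * Q).coeff N := by
      intro P N
      rw [hQ, Finset.mul_sum, finsetSum_coeff]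
      refine Finset.sum_congr rfl fun k _ => ?_
      rw [mul_left_comm, coeff_C_mul, mul_comm]
    refine (twist_le A B Q hQm (hdeg A Q hA hQt) (hdeg B Q hB hQt) hζ hc₁ hc₂).trans
      (le_of_eq ?_)
    simp only [of_apply, Fintype.sum_sum_type, Sum.elim_inl, Sum.elim_inr, neg_mul,
      Finset.sum_neg_distrib, norm_neg, hco]
    rw [Finset.sum_range, Finset.sum_range, Fin.sum_univ_add]
    simp only [Fin.val_castAdd, Fin.val_natAdd]
    ring

theorem archB {d t : ℕ} {ω u₀ : ℂ} (hω : IsPrimitiveRoot ω (d + t + d)) (hu : ‖u₀‖ = 1) (r : ℝ)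
    (hr : 0 < r) (A B : ℂ[X]) (hA : A.natDegree ≤ d) (hB : B.natDegree ≤ d) {ζ c₁ c₂ : ℂ}
    (hζ : ‖ζ‖ = 1) (hc₁ : ‖c₁‖ = 1) (hc₂ : ‖c₂‖ = 1) (G : ℂ[X])
    (hG : G = C c₁ * (A * B.comp (C ζ * X)) - C c₂ * (A.comp (C ζ * X) * B)) :
    ‖(Matrix.of fun (i k : Fin (d + t) ⊕ Fin d) => fam (A.eval (r * (u₀ * ω ^ bxR i)))
        (B.eval (r * (u₀ * ω ^ bxR i))) (r * (u₀ * ω ^ bxR i)) k).det‖ ^ 2 *
      (‖G.leadingCoeff‖ ^ t * r ^ (2 * d ^ 2 + G.natDegree * t)) ≤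
      ‖(Matrix.of fun i k : Fin (d + t) ⊕ Fin d => (r * (u₀ * ω ^ bxR i)) ^ bxR k).det‖ ^ 2 *
        (‖A.coeff d‖ ^ t) ^ 2 * ∏ i : Fin (d + t) ⊕ Fin d,
          2 * (max ‖A.eval (r * (u₀ * ω ^ bxR i))‖ ‖B.eval (r * (u₀ * ω ^ bxR i))‖) ^ 2 := by
  have hr0 : (r : ℂ) ≠ 0 := by exact_mod_cast hr.ne'
  have hdeg : ∀ P : ℂ[X], (P.comp (C (r : ℂ) * X)).natDegree = P.natDegree := by
    intro P
    rw [natDegree_comp, natDegree_C_mul_X _ hr0, mul_one]
  have key := archB_unit (fun i : Fin (d + t) ⊕ Fin d => u₀ * ω ^ bxR i) (norm_point hω hu)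
    (A.comp (C (r : ℂ) * X)) (B.comp (C (r : ℂ) * X)) (by rwa [hdeg]) (by rwa [hdeg]) hζ hc₁ hc₂
  have hcomm : ∀ P : ℂ[X], (P.comp (C (r : ℂ) * X)).comp (C ζ * X)
      = (P.comp (C ζ * X)).comp (C (r : ℂ) * X) := by
    intro P
    rw [comp_assoc, comp_assoc]
    congr 1
    simp only [mul_comp, C_comp, X_comp]
    ring
  have hG' : C c₁ * (A.comp (C (r : ℂ) * X) * (B.comp (C (r : ℂ) * X)).comp (C ζ * X)) -
      C c₂ * ((A.comp (C (r : ℂ) * X)).comp (C ζ * X) * B.comp (C (r : ℂ) * X))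
      = G.comp (C (r : ℂ) * X) := by
    rw [hG, hcomm, hcomm]
    simp only [sub_comp, mul_comp, C_comp]
  have hlead : ‖(G.comp (C (r : ℂ) * X)).leadingCoeff‖ = ‖G.leadingCoeff‖ * r ^ G.natDegree := by
    rw [leadingCoeff, hdeg, comp_C_mul_X_coeff, norm_mul, norm_pow, Complex.norm_real,
      Real.norm_of_nonneg hr.le, leadingCoeff]
  rw [hG', hlead, comp_C_mul_X_coeff, norm_mul, norm_pow, Complex.norm_real,
    Real.norm_of_nonneg hr.le] at key
  simp only [eval_comp, eval_mul, eval_C, eval_X] at key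
  rw [van_norm hω hu r hr.le, det_fam_scale _ _ _ r hr.le, sum_bx]
  have h2 : ∏ i : Fin (d + t) ⊕ Fin d, ((d + t : ℕ) : ℝ) *
      (‖A.eval (r * (u₀ * ω ^ bxR i))‖ ^ 2 + ‖B.eval (r * (u₀ * ω ^ bxR i))‖ ^ 2) ≤
      ((d + t + d : ℕ) : ℝ) ^ (d + t + d) * ∏ i : Fin (d + t) ⊕ Fin d,
        2 * (max ‖A.eval (r * (u₀ * ω ^ bxR i))‖ ‖B.eval (r * (u₀ * ω ^ bxR i))‖) ^ 2 := by
    calc _ ≤ ∏ i : Fin (d + t) ⊕ Fin d, ((d + t + d : ℕ) : ℝ) *
        (2 * (max ‖A.eval (r * (u₀ * ω ^ bxR i))‖ ‖B.eval (r * (u₀ * ω ^ bxR i))‖) ^ 2) := by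
          refine Finset.prod_le_prod (fun i _ => by positivity) fun i _ => ?_
          have h3 := pow_le_pow_left₀ (norm_nonneg _) (le_max_left
            ‖A.eval (r * (u₀ * ω ^ bxR i))‖ ‖B.eval (r * (u₀ * ω ^ bxR i))‖) 2
          have h4 := pow_le_pow_left₀ (norm_nonneg _) (le_max_right
            ‖A.eval (r * (u₀ * ω ^ bxR i))‖ ‖B.eval (r * (u₀ * ω ^ bxR i))‖) 2
          refine mul_le_mul (by exact_mod_cast Nat.le_add_right _ _) (by linarith)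
            (by positivity) (by positivity)
      _ = _ := by
          rw [Finset.prod_mul_distrib, Finset.prod_const]
          simp
  set D := ‖(Matrix.of fun (i k : Fin (d + t) ⊕ Fin d) => fam (A.eval (r * (u₀ * ω ^ bxR i)))
        (B.eval (r * (u₀ * ω ^ bxR i))) (u₀ * ω ^ bxR i) k).det‖
  set E := ∑ k : Fin (d + t) ⊕ Fin d, ex k
  set P := ∏ i : Fin (d + t) ⊕ Fin d,
        2 * (max ‖A.eval (r * (u₀ * ω ^ bxR i))‖ ‖B.eval (r * (u₀ * ω ^ bxR i))‖) ^ 2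
  have h5 := key.trans (mul_le_mul_of_nonneg_right h2 (by positivity))
  calc _ = (D ^ 2 * (‖G.leadingCoeff‖ * r ^ G.natDegree) ^ t) * (r ^ E * r ^ (d ^ 2)) ^ 2 := by
        ring
    _ ≤ (((d + t + d : ℕ) : ℝ) ^ (d + t + d) * P * ((‖A.coeff d‖ * r ^ d) ^ t) ^ 2) *
        (r ^ E * r ^ (d ^ 2)) ^ 2 := by gcongr
    _ = _ := by ring

end Pool.Agent.Lib.MP_f61260_nt
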