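import Mathlib

set_option autoImplicit false

namespace Pool.Agent.Lib.MP_f61260_nt

/-- The sum of `log q / (q - 1)` over the `q ∈ T` with `q ^ 2 ∣ a ^ q - a`. -/
noncomputable def wief (a : ℤ) (T : Finset ℕ) : ℝ :=
  ∑ q ∈ T.filter fun q : ℕ => (q : ℤ) ^ 2 ∣ a ^ q - a, Real.log q / (q - 1)

/-- The division group of `Γ`: the nonzero `z` with `z ^ n ∈ Γ` for some `n ≥ 1`. -/
def divSet (Γ : Subgroup ℂˣ) : Set ℂ :=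
  {z : ℂ | z ≠ 0 ∧ ∃ n : ℕ, 1 ≤ n ∧ ∃ g ∈ Γ, (g : ℂ) = z ^ n}

end Pool.Agent.Lib.MP_f61260_nt
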