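import Mathlib

/-!
Gram determinants: Hadamard's inequality, a Szegő type lower bound and a block identity.
-/

set_option autoImplicit false

open Matrix InnerProductSpace

namespace Pool.Agent.Lib.MP_f61260_nt

theorem exists_ldl {κ : Type*} [Fintype κ] {t : ℕ} (Y : Matrix κ (Fin t) ℂ) :
    ∃ U : Matrix (Fin t) (Fin t) ℂ, (∀ j, U j j = 1) ∧ (∀ i j, j < i → U i j = 0) ∧
      ‖(Yᴴ * Y).det‖ = ∏ j, ∑ i, ‖(Y * U) i j‖ ^ 2 ∧
      ∀ j, ∑ i, ‖(Y * U) i j‖ ^ 2 ≤ ∑ i, ‖Y i j‖ ^ 2 := by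
  classical
  set f : Fin t → EuclideanSpace ℂ κ := fun j => WithLp.toLp 2 (fun i => Y i j) with hf
  have hmem : ∀ j, f j - gramSchmidt ℂ f j ∈ Submodule.span ℂ (f '' Set.Iio j) := by
    intro j
    rw [← span_gramSchmidt_Iio ℂ f j, gramSchmidt_def ℂ f j, sub_sub_cancel]
    refine Submodule.sum_mem _ fun i hi => ?_
    refine Submodule.span_mono ?_ (Submodule.starProjection_apply_mem _ (f j))
    rintro x rfl
    exact ⟨i, Finset.mem_Iio.1 hi, rfl⟩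
  have hex : ∀ j, ∃ c : Fin t → ℂ, c j = 1 ∧ (∀ i, j < i → c i = 0) ∧
      gramSchmidt ℂ f j = ∑ i, c i • f i := by
    intro j
    obtain ⟨l, hl, hsum⟩ := (Finsupp.mem_span_image_iff_linearCombination ℂ).1 (hmem j)
    have hl' : ∀ i, j ≤ i → l i = 0 := by
      intro i hi
      by_contra hne
      have : i ∈ Set.Iio j := hl (Finsupp.mem_support_iff.2 hne)
      exact absurd hi (not_le.2 this)
    refine ⟨fun i => (if i = j then 1 else 0) - l i, by simp [hl' j le_rfl], ?_, ?_⟩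
    · intro i hi
      simp [hl' i hi.le, hi.ne']
    · rw [Finsupp.linearCombination_apply, Finsupp.sum_fintype _ _ (by simp)] at hsum
      simp only [sub_smul, Finset.sum_sub_distrib, ite_smul, one_smul, zero_smul,
        Finset.sum_ite_eq', Finset.mem_univ, if_true, hsum, sub_sub_cancel]
  choose c hc1 hc0 hc using hex
  set U : Matrix (Fin t) (Fin t) ℂ := fun i j => c j i with hU
  have hYU : ∀ i j, (Y * U) i j = gramSchmidt ℂ f j i := by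
    intro i j
    rw [hc j, Matrix.mul_apply]
    simp [hU, hf, mul_comm]
  have hnorm : ∀ j, ∑ i, ‖(Y * U) i j‖ ^ 2 = ‖gramSchmidt ℂ f j‖ ^ 2 := by
    intro j
    rw [EuclideanSpace.norm_sq_eq]
    exact Finset.sum_congr rfl fun i _ => by rw [hYU]
  have hdetU : U.det = 1 := by
    rw [Matrix.det_of_isUpperTriangular (fun i j hij => hc0 j i hij)]
    simp [hc1]
  have hdiag : (Y * U)ᴴ * (Y * U) = diagonal fun j => ((‖gramSchmidt ℂ f j‖ ^ 2 : ℝ) : ℂ) := by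
    ext j k
    have h1 : ((Y * U)ᴴ * (Y * U)) j k = inner ℂ (gramSchmidt ℂ f j) (gramSchmidt ℂ f k) := by
      rw [Matrix.mul_apply, PiLp.inner_apply]
      refine Finset.sum_congr rfl fun i _ => ?_
      rw [conjTranspose_apply, hYU, hYU]
      simp [mul_comm]
    rw [h1]
    by_cases hjk : j = k
    · subst hjk
      rw [diagonal_apply_eq, inner_self_eq_norm_sq_to_K]
      simp
    · rw [diagonal_apply_ne _ hjk, gramSchmidt_orthogonal ℂ f hjk]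
  refine ⟨U, fun j => hc1 j, fun i j h => hc0 j i h, ?_, fun j => ?_⟩
  · have h2 : ((Y * U)ᴴ * (Y * U)).det = (Yᴴ * Y).det := by
      rw [conjTranspose_mul, Matrix.mul_assoc, ← Matrix.mul_assoc Yᴴ, det_mul, det_mul,
        det_conjTranspose, hdetU]
      simp
    rw [← h2, hdiag, det_diagonal, norm_prod]
    refine Finset.prod_congr rfl fun j _ => ?_
    rw [hnorm, Complex.norm_real, Real.norm_of_nonneg (by positivity)]
  · rw [hnorm]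
    have h3 : ∑ i, ‖Y i j‖ ^ 2 = ‖f j‖ ^ 2 := by
      rw [EuclideanSpace.norm_sq_eq]
    rw [h3]
    have h4 : inner ℂ (gramSchmidt ℂ f j) (f j - gramSchmidt ℂ f j) = 0 := by
      have hm := hmem j
      rw [← span_gramSchmidt_Iio ℂ f j] at hm
      refine Submodule.span_induction (p := fun x _ => inner ℂ (gramSchmidt ℂ f j) x = 0)
        ?_ ?_ ?_ ?_ hm
      · rintro x ⟨i, hi, rfl⟩
        exact gramSchmidt_orthogonal ℂ f (ne_of_gt hi)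
      · simp
      · intro x y _ _ hx hy
        rw [inner_add_right, hx, hy, add_zero]
      · intro a x _ hx
        rw [inner_smul_right, hx, mul_zero]
    have h5 := norm_add_sq_eq_norm_sq_add_norm_sq_of_inner_eq_zero _ _ h4
    rw [add_sub_cancel] at h5
    nlinarith [mul_self_nonneg ‖f j - gramSchmidt ℂ f j‖]

/-- Hadamard's inequality for Gram determinants. -/
theorem gram_le {κ ι : Type*} [Fintype κ] [Fintype ι] [DecidableEq ι] (Y : Matrix κ ι ℂ) :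
    ‖(Yᴴ * Y).det‖ ≤ ∏ j, ∑ i, ‖Y i j‖ ^ 2 := by
  classical
  set e := Fintype.equivFin ι
  obtain ⟨U, -, -, h1, h2⟩ := exists_ldl (Y.submatrix id e.symm)
  have h3 : ((Y.submatrix id e.symm)ᴴ * Y.submatrix id e.symm)
      = (Yᴴ * Y).submatrix e.symm e.symm := by
    ext i j
    simp [Matrix.mul_apply]
  rw [h3, det_submatrix_equiv_self] at h1
  rw [h1, ← e.symm.prod_comp]
  exact Finset.prod_le_prod (fun j _ => Finset.sum_nonneg fun i _ => by positivity)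
    fun j _ => h2 j

/-- Lower bound for Gram determinants. -/
theorem gram_ge {κ : Type*} [Fintype κ] {t : ℕ} (Y : Matrix κ (Fin t) ℂ) {μ : ℝ} (hμ : 0 ≤ μ)
    (h : ∀ (j : Fin t) (c : Fin t → ℂ), c j = 1 → (∀ i, j < i → c i = 0) →
      μ ≤ ∑ i, ‖∑ k, Y i k * c k‖ ^ 2) :
    μ ^ t ≤ ‖(Yᴴ * Y).det‖ := by
  obtain ⟨U, hU1, hU0, h1, -⟩ := exists_ldl Y
  rw [h1]
  calc μ ^ t = ∏ _j : Fin t, μ := by simp
    _ ≤ _ := Finset.prod_le_prod (fun _ _ => hμ) fun j _ =>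
        h j (fun k => U k j) (hU1 j) fun i hi => hU0 i j hi

/-- Hadamard's inequality. -/
theorem hadamard_cols {ι : Type*} [Fintype ι] [DecidableEq ι] (M : Matrix ι ι ℂ) :
    ‖M.det‖ ^ 2 ≤ ∏ j, ∑ i, ‖M i j‖ ^ 2 := by
  have h := gram_le M
  rw [det_mul, det_conjTranspose, norm_mul, norm_star] at h
  rw [sq]
  exact h

theorem block_ineq {ι : Type*} [Fintype ι] [DecidableEq ι] {t : ℕ} (Φ₁ : Matrix ι ι ℂ)
    (Φ₂ : Matrix ι (Fin t) ℂ) (Ψ₁ : Matrix ι (Fin t) ℂ) (Ψ₂ : Matrix (Fin t) (Fin t) ℂ)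
    (h : Φ₁ * Ψ₁ + Φ₂ * Ψ₂ = 0) {μ : ℝ} (hμ : 0 ≤ μ)
    (hlow : ∀ (j : Fin t) (c : Fin t → ℂ), c j = 1 → (∀ i, j < i → c i = 0) →
      μ ≤ ∑ i, ‖∑ k, Ψ₁ i k * c k‖ ^ 2 + ∑ i, ‖∑ k, Ψ₂ i k * c k‖ ^ 2) :
    ‖Φ₁.det‖ ^ 2 * μ ^ t ≤
      (∏ i, (∑ j, ‖Φ₁ i j‖ ^ 2 + ∑ j, ‖Φ₂ i j‖ ^ 2)) * ‖Ψ₂.det‖ ^ 2 := by
  set G : Matrix (Fin t) (Fin t) ℂ := Ψ₁ᴴ * Ψ₁ + Ψ₂ᴴ * Ψ₂ with hG
  set F : Matrix ι ι ℂ := Φ₁ * Φ₁ᴴ + Φ₂ * Φ₂ᴴ with hF
  set Ξ := fromBlocks Φ₁ Φ₂ Ψ₁ᴴ Ψ₂ᴴ with hΞ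
  have h1 : Ξ * fromBlocks 1 Ψ₁ 0 Ψ₂ = fromBlocks Φ₁ 0 Ψ₁ᴴ G := by
    rw [hΞ, fromBlocks_multiply, h]
    simp [hG]
  have h' : Ψ₁ᴴ * Φ₁ᴴ + Ψ₂ᴴ * Φ₂ᴴ = 0 := by
    rw [← conjTranspose_mul, ← conjTranspose_mul, ← conjTranspose_add, h, conjTranspose_zero]
  have h2 : Ξ * Ξᴴ = fromBlocks F 0 0 G := by
    rw [hΞ, fromBlocks_conjTranspose, fromBlocks_multiply]
    simp only [conjTranspose_conjTranspose, h, h', hF, hG]
  have d1 : ‖Ξ.det‖ * ‖Ψ₂.det‖ = ‖Φ₁.det‖ * ‖G.det‖ := by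
    have := congrArg det h1
    rw [det_mul, det_fromBlocks_zero₂₁, det_fromBlocks_zero₁₂, det_one, one_mul] at this
    rw [← norm_mul, ← norm_mul, this]
  have d2 : ‖Ξ.det‖ ^ 2 = ‖F.det‖ * ‖G.det‖ := by
    have := congrArg det h2
    rw [det_mul, det_fromBlocks_zero₂₁, det_conjTranspose] at this
    rw [← norm_mul, ← this, norm_mul, norm_star, sq]
  have hGge : μ ^ t ≤ ‖G.det‖ := by
    have := gram_ge (fromRows Ψ₁ Ψ₂) hμ (fun j c hc1 hc0 => by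
      rw [Fintype.sum_sum_type]
      simpa using hlow j c hc1 hc0)
    rwa [conjTranspose_fromRows_eq_fromCols_conjTranspose, fromCols_mul_fromRows] at this
  have hFle : ‖F.det‖ ≤ ∏ i, (∑ j, ‖Φ₁ i j‖ ^ 2 + ∑ j, ‖Φ₂ i j‖ ^ 2) := by
    have := gram_le (fromRows Φ₁ᴴ Φ₂ᴴ)
    rw [conjTranspose_fromRows_eq_fromCols_conjTranspose, fromCols_mul_fromRows,
      conjTranspose_conjTranspose, conjTranspose_conjTranspose] at this
    refine this.trans (le_of_eq (Finset.prod_congr rfl fun i _ => ?_))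
    rw [Fintype.sum_sum_type]
    simp
  rcases (norm_nonneg G.det).eq_or_lt with h0 | hpos
  · have : μ ^ t = 0 := le_antisymm (h0 ▸ hGge) (pow_nonneg hμ t)
    rw [this, mul_zero]
    positivity
  · have h3 : ‖Φ₁.det‖ ^ 2 * ‖G.det‖ = ‖F.det‖ * ‖Ψ₂.det‖ ^ 2 := by
      refine mul_right_cancel₀ hpos.ne' ?_
      calc ‖Φ₁.det‖ ^ 2 * ‖G.det‖ * ‖G.det‖ = (‖Φ₁.det‖ * ‖G.det‖) ^ 2 := by ring
        _ = ‖Ξ.det‖ ^ 2 * ‖Ψ₂.det‖ ^ 2 := by rw [← d1]; ring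
        _ = _ := by rw [d2]; ring
    calc ‖Φ₁.det‖ ^ 2 * μ ^ t ≤ ‖Φ₁.det‖ ^ 2 * ‖G.det‖ := by gcongr
      _ = ‖F.det‖ * ‖Ψ₂.det‖ ^ 2 := h3
      _ ≤ _ := by gcongr

end Pool.Agent.Lib.MP_f61260_nt
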