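import Pool.Agent.Lib.MP_f61260_nt.RadPadic

/-!
Local multipliers for `X ^ n - u`.
-/

set_option autoImplicit false
set_option linter.unusedSectionVars false

open Polynomial

namespace Pool.Agent.Lib.MP_f61260_nt

variable {q : ℕ} [hq : Fact q.Prime]

/-- The `n`-th roots of `u`. -/
def rt (n : ℕ) (u : ℤ_[q]) : Set (PadicAlgCl q) := {ρ | ρ ^ n = algebraMap _ _ u}

theorem good_eis {n : ℕ} (hn : n ≠ 0) (u c : ℤ_[q])
    (h : ∀ ρ ∈ rt n u, ‖ρ - algebraMap _ _ c‖ ^ n = ‖(q : PadicAlgCl q)‖) :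
    Good (rt n u) fun _ => 1 := by
  obtain ⟨ρ, hρ⟩ : ∃ ρ : PadicAlgCl q, ρ ^ n = algebraMap _ _ u :=
    IsAlgClosed.exists_pow_nat_eq _ (Nat.pos_of_ne_zero hn)
  have := eis (X ^ n - C u) (monic_X_pow_sub_C u hn) (ρ₀ := ρ) (by simp [hρ]) c
    (by rw [natDegree_X_pow_sub_C]; exact h ρ hρ)
  simpa [sub_eq_zero, rt] using this

theorem good_one (u : ℤ_[q]) : Good (rt 1 u) fun _ => 1 := by
  refine good_eis one_ne_zero u (u - q) fun ρ hρ => ?_
  have : ρ = algebraMap _ _ u := by simpa [rt] using hρ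
  simp [this]

theorem fermat (u : ℤ_[q]) (k : ℕ) : (q : ℤ_[q]) ∣ u ^ q ^ k - u := by
  rw [← Ideal.mem_span_singleton, ← PadicInt.maximalIdeal_eq_span_p, ← PadicInt.ker_toZMod,
    RingHom.mem_ker, map_sub, map_pow, ZMod.pow_card_pow, sub_self]

theorem norm_of_dvd {w : ℤ_[q]} (h1 : (q : ℤ_[q]) ∣ w) (h2 : ¬ (q : ℤ_[q]) ^ 2 ∣ w) :
    ‖algebraMap _ (PadicAlgCl q) w‖ = ‖(q : PadicAlgCl q)‖ := by
  obtain ⟨v, rfl⟩ := h1
  have h3 : ‖v‖ = 1 := by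
    refine le_antisymm v.2 (not_lt.1 fun h => h2 ?_)
    rw [sq]
    exact mul_dvd_mul_left _ ((PadicInt.norm_lt_one_iff_dvd v).1 h)
  rw [map_mul, norm_mul, norm_int v, h3, mul_one, map_natCast]

theorem norm_rt {n : ℕ} (hn : n ≠ 0) {u : ℤ_[q]} {ρ : PadicAlgCl q} (h : ρ ∈ rt n u) :
    ‖ρ‖ ≤ 1 := by
  refine (pow_le_one_iff_of_nonneg (norm_nonneg _) hn).1 ?_
  rw [← norm_pow, show ρ ^ n = _ from h, norm_int]
  exact u.2

theorem good_nonW (u : ℤ_[q]) (h : ¬ (q : ℤ_[q]) ^ 2 ∣ u ^ q - u) (k : ℕ) :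
    Good (rt (q ^ k) u) fun _ => 1 := by
  rcases k with _ | k
  · simpa using good_one u
  have hn := pow_ne_zero (k + 1) hq.out.ne_zero
  refine good_eis hn u u fun ρ hρ => ?_
  have h1 : ‖ρ ^ q ^ (k + 1) - algebraMap _ _ u ^ q ^ (k + 1)‖ = ‖(q : PadicAlgCl q)‖ := by
    rw [show ρ ^ q ^ (k + 1) = _ from hρ, norm_sub_rev, ← map_pow, ← map_sub]
    refine norm_of_dvd (fermat u _) fun h2 => h ?_
    have h3 := dvd_sub_pow_of_dvd_sub (fermat u k) 1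
    rw [pow_one, ← pow_mul, ← pow_succ] at h3
    have := dvd_sub h2 h3
    rwa [sub_sub_sub_cancel_left] at this
  rw [norm_sub_pow (norm_rt hn hρ) (by rw [norm_int]; exact u.2) hq.out norm_q_lt _ h1.ge
    (h1.trans_lt norm_q_lt) (norm_pos_iff.1 norm_q_pos), h1]

theorem exists_root (hq2 : q ≠ 2) (u : ℤ_[q]) (hu : ‖u‖ = 1) (h : (q : ℤ_[q]) ^ 2 ∣ u ^ q - u) :
    ∃ b : ℤ_[q], b ^ q = u := by
  obtain ⟨s, hs⟩ := h
  obtain ⟨r, hr⟩ := odd_sq_dvd_geom_sum₂_sub u (-s) (hq.out.odd_of_ne_two hq2)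
  obtain ⟨w, hw⟩ := fermat u 1
  have hq1 : q - 1 + 1 = q := Nat.sub_add_cancel hq.out.pos
  have hunit : IsUnit u := PadicInt.isUnit_iff.2 hu
  obtain ⟨w', hw'⟩ : (q : ℤ_[q]) ∣ u ^ (q - 1) - 1 := by
    refine hunit.dvd_mul_right.1 ⟨w, ?_⟩
    rw [← hw, sub_mul, ← pow_succ, hq1, pow_one, one_mul]
  set a := u + q * -s with ha
  have h1 := (Commute.all a u).geom_sum₂_mul q
  have h2 : a ^ q - u = q ^ 3 * (-(r * s) - w' * s) := by
    have h3 : a - u = q * -s := by rw [ha]; ring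
    rw [h3] at h1
    linear_combination -h1 + hs + (q * -s) * hr + (q ^ 2 * -s) * hw'
  have ha1 : ‖a‖ = 1 := by
    have h3 : ‖(q : ℤ_[q]) * -s‖ < ‖u‖ := hu ▸ (PadicInt.norm_lt_one_iff_dvd _).2 ⟨_, rfl⟩
    rw [ha, PadicInt.norm_add_eq_max_of_ne h3.ne', max_eq_left h3.le, hu]
  obtain ⟨z, hz, -⟩ := hensels_lemma (F := (X ^ q - C u : ℤ_[q][X])) (a := a) (by
    have h3 : aeval a (X ^ q - C u : ℤ_[q][X]) = a ^ q - u := by simp
    have h4 : aeval a (derivative (X ^ q - C u : ℤ_[q][X])) = q * a ^ (q - 1) := by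
      simp [derivative_X_pow]
    have h5 : (0 : ℝ) < ‖(q : ℤ_[q])‖ := norm_pos_iff.2 (Nat.cast_ne_zero.2 hq.out.ne_zero)
    rw [h3, h4, h2, norm_mul, norm_mul, norm_pow, norm_pow, ha1, one_pow, mul_one]
    refine (mul_le_of_le_one_right (by positivity) (PadicInt.norm_le_one _)).trans_lt ?_
    exact pow_lt_pow_right_of_lt_one₀ h5 ((PadicInt.norm_lt_one_iff_dvd _).2 dvd_rfl) (by omega))
  exact ⟨z, by simpa [sub_eq_zero] using hz⟩

theorem card_le_of_root (g : ℤ_[q][X]) (hg : g.Monic) (s : Finset (PadicAlgCl q))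
    (h : ∀ ρ ∈ s, aeval ρ g = 0) : s.card ≤ g.natDegree := by
  rw [← hg.natDegree_map (algebraMap ℤ_[q] (PadicAlgCl q))]
  refine card_le_degree_of_subset_roots fun ρ hρ => ?_
  rw [mem_roots (hg.map _).ne_zero, IsRoot, eval_map_algebraMap]
  exact h ρ hρ

theorem good_pow (hq2 : q ≠ 2) (k : ℕ) : ∀ u : ℤ_[q], ‖u‖ = 1 →
    ∃ x, Good (rt (q ^ k) u) x ∧ ∀ s : Finset (PadicAlgCl q), (∀ ρ ∈ s, ρ ∈ rt (q ^ k) u) →
      ‖(q : PadicAlgCl q)‖ ^ (2 * q ^ k) ≤ (∏ ρ ∈ s, ‖x ρ‖) ^ (q - 1) := by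
  have triv : ∀ (N : ℕ) (s : Finset (PadicAlgCl q)), ‖(q : PadicAlgCl q)‖ ^ N ≤
      (∏ _ρ ∈ s, ‖(1 : PadicAlgCl q)‖) ^ (q - 1) := fun N s => by
    simpa using pow_le_one₀ (norm_nonneg _) norm_q_lt.le
  induction k with
  | zero => exact fun u _ => ⟨_, by simpa using good_one u, fun s _ => triv _ s⟩
  | succ k ih =>
  intro u hu
  by_cases hW : (q : ℤ_[q]) ^ 2 ∣ u ^ q - u
  swap
  · exact ⟨_, good_nonW u hW _, fun s _ => triv _ s⟩
  obtain ⟨b, rfl⟩ := exists_root hq2 u hu hW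
  have hb : ‖b‖ = 1 := by
    rw [norm_pow] at hu
    exact (pow_eq_one_iff_of_nonneg (norm_nonneg _) hq.out.ne_zero).1 hu
  obtain ⟨x₀, hx₀, hs₀⟩ := ih b hb
  have hn := pow_ne_zero k hq.out.ne_zero
  have hq3 : 2 ≤ q - 1 := by have := hq.out.two_le; omega
  set g : ℤ_[q][X] := ∑ i ∈ Finset.range q, (X ^ q ^ k) ^ i * C b ^ (q - 1 - i) with hg
  have hgf : g * (X ^ q ^ k - C b) = X ^ q ^ (k + 1) - C (b ^ q) := by
    rw [hg, geom_sum₂_mul, ← pow_mul, ← pow_succ, C_pow]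
  have hf₀ := monic_X_pow_sub_C b hn
  have hgm : g.Monic := hf₀.of_mul_monic_right
    (hgf ▸ monic_X_pow_sub_C _ (pow_ne_zero _ hq.out.ne_zero))
  have hgd : g.natDegree = q ^ k * (q - 1) := by
    have := congrArg natDegree hgf
    rw [hgm.natDegree_mul hf₀, natDegree_X_pow_sub_C, natDegree_X_pow_sub_C, pow_succ] at this
    rw [Nat.mul_sub_one]
    omega
  set β := algebraMap ℤ_[q] (PadicAlgCl q) b with hβ
  have hβ1 : ‖β‖ = 1 := by rw [hβ, norm_int, hb]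
  have hβ0 : β ≠ 0 := norm_ne_zero_iff.1 (by simp [hβ1])
  have hev : ∀ ρ : PadicAlgCl q, aeval ρ g * (ρ ^ q ^ k - β) = ρ ^ q ^ (k + 1) - β ^ q := by
    intro ρ
    simpa using congrArg (aeval ρ) hgf
  have hg₀ : ∀ ρ ∈ rt (q ^ k) b, ‖aeval ρ g‖ = ‖(q : PadicAlgCl q)‖ := by
    intro ρ hρ
    have : aeval ρ g = q * β ^ (q - 1) := by
      rw [← geom_sum₂_self, hg, map_sum]
      simp [show ρ ^ q ^ k = β from hρ, hβ]
    rw [this, norm_mul, norm_pow, hβ1, one_pow, mul_one]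
  have hg₁ : ∀ ρ : PadicAlgCl q, aeval ρ g = 0 →
      ‖ρ ^ q ^ k - β‖ ^ (q - 1) = ‖(q : PadicAlgCl q)‖ := by
    intro ρ hρ
    have h1 := hev ρ
    rw [hρ, zero_mul, eq_comm, sub_eq_zero, pow_succ, pow_mul] at h1
    have h2 := norm_xi (ξ := ρ ^ q ^ k / β) hq.out (by rw [div_pow, h1, div_self (pow_ne_zero _ hβ0)])
      fun h => by
        have := hg₀ ρ ((div_eq_one_iff_eq hβ0).1 h)
        rw [hρ, norm_zero] at this
        exact norm_q_pos.ne this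
    rwa [div_sub_one hβ0, norm_div, hβ1, div_one] at h2
  have hsplit : ∀ ρ ∈ rt (q ^ (k + 1)) (b ^ q), ρ ∉ rt (q ^ k) b → aeval ρ g = 0 := by
    intro ρ h1 h2
    have h3 := hev ρ
    rw [show ρ ^ q ^ (k + 1) = _ from h1, map_pow, sub_self, mul_eq_zero, sub_eq_zero] at h3
    exact h3.resolve_right h2
  have hgood : Good {ρ : PadicAlgCl q | aeval ρ g = 0} fun _ => 1 := by
    obtain ⟨ρ, hρ⟩ := IsAlgClosed.exists_aeval_eq_zero_of_injective (PadicAlgCl q)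
      (fun x y h => by
        rw [← sub_eq_zero, ← norm_eq_zero, ← norm_int, map_sub, h, sub_self, norm_zero]) g (by
        rw [degree_eq_natDegree hgm.ne_zero, hgd]
        exact_mod_cast mul_ne_zero hn (by omega))
    refine eis g hgm hρ b ?_
    have h1 := hg₁ ρ hρ
    have h2 : ‖(q : PadicAlgCl q)‖ < ‖ρ ^ q ^ k - β‖ := by
      refine lt_of_pow_lt_pow_left₀ (q - 1) (norm_nonneg _) ?_
      rw [h1]
      exact pow_lt_self_of_lt_one₀ norm_q_pos norm_q_lt (by omega)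
    have h3 : ‖ρ ^ q ^ k - β‖ < 1 := lt_of_pow_lt_pow_left₀ (q - 1) zero_le_one
      (by rw [h1, one_pow]; exact norm_q_lt)
    have h4 : ‖ρ ^ q ^ k - β ^ q ^ k‖ = ‖ρ ^ q ^ k - β‖ := by
      rw [← sub_add_sub_cancel _ β, norm_add_of_lt]
      refine lt_of_le_of_lt ?_ h2
      obtain ⟨w, hw⟩ := fermat b k
      rw [norm_sub_rev, hβ, ← map_pow, ← map_sub, hw, map_mul, norm_mul, map_natCast, norm_int]
      exact mul_le_of_le_one_right (norm_nonneg _) w.2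
    have h5 : ρ ∈ rt (q ^ (k + 1)) (b ^ q) := by
      have h6 := hev ρ
      rw [hρ, zero_mul, eq_comm, sub_eq_zero] at h6
      exact h6.trans (map_pow _ _ _).symm
    rw [hgd, pow_mul, norm_sub_pow (norm_rt (pow_ne_zero _ hq.out.ne_zero) h5) hβ1.le hq.out
      norm_q_lt k (h4 ▸ h2.le) (h4 ▸ h3) (norm_pos_iff.1 norm_q_pos), h4, h1]
  refine ⟨fun ρ => x₀ ρ * aeval ρ g + (ρ ^ q ^ k - β), fun P hP => ?_, fun s hs => ?_⟩
  · obtain ⟨Q₀, hQ₀⟩ := hx₀ P fun ρ hρ => hP ρ (by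
      have h1 := hev ρ
      rw [show ρ ^ q ^ k = β from hρ, sub_self, mul_zero, eq_comm, sub_eq_zero] at h1
      exact h1.trans (map_pow _ _ _).symm)
    obtain ⟨Q₁, hQ₁⟩ := hgood P fun ρ hρ => hP ρ (by
      have h1 := hev ρ
      rw [show aeval ρ g = 0 from hρ, zero_mul, eq_comm, sub_eq_zero] at h1
      exact h1.trans (map_pow _ _ _).symm)
    refine ⟨Q₀ * g + Q₁ * (X ^ q ^ k - C b), fun ρ hρ => ?_⟩
    simp only [map_add, map_mul, map_sub, map_pow, aeval_X, aeval_C, ← hβ]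
    by_cases h : ρ ∈ rt (q ^ k) b
    · rw [← hQ₀ ρ h, show ρ ^ q ^ k = β from h]
      ring
    · rw [← hQ₁ ρ (hsplit ρ hρ h), hsplit ρ hρ h]
      ring
  · classical
    rw [← Finset.prod_filter_mul_prod_filter_not s (· ∈ rt (q ^ k) b), mul_pow]
    have h1 : ∏ ρ ∈ s.filter (· ∈ rt (q ^ k) b), ‖x₀ ρ * aeval ρ g + (ρ ^ q ^ k - β)‖ =
        (∏ ρ ∈ s.filter (· ∈ rt (q ^ k) b), ‖x₀ ρ‖) *
          ‖(q : PadicAlgCl q)‖ ^ (s.filter (· ∈ rt (q ^ k) b)).card := by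
      rw [← Finset.prod_const, ← Finset.prod_mul_distrib]
      refine Finset.prod_congr rfl fun ρ hρ => ?_
      have h := (Finset.mem_filter.1 hρ).2
      rw [show ρ ^ q ^ k = β from h, sub_self, add_zero, norm_mul, hg₀ ρ h]
    have h2 : (∏ ρ ∈ s.filter (· ∉ rt (q ^ k) b), ‖x₀ ρ * aeval ρ g + (ρ ^ q ^ k - β)‖) ^ (q - 1)
        = ‖(q : PadicAlgCl q)‖ ^ (s.filter (· ∉ rt (q ^ k) b)).card := by
      rw [← Finset.prod_const, ← Finset.prod_pow]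
      refine Finset.prod_congr rfl fun ρ hρ => ?_
      have h := hsplit ρ (hs ρ (Finset.mem_filter.1 hρ).1) (Finset.mem_filter.1 hρ).2
      rw [h, mul_zero, zero_add, hg₁ ρ h]
    have h3 := card_le_of_root _ hf₀ (s.filter (· ∈ rt (q ^ k) b)) fun ρ hρ => by
      simpa [sub_eq_zero, rt] using (Finset.mem_filter.1 hρ).2
    have h4 := card_le_of_root _ hgm (s.filter (· ∉ rt (q ^ k) b)) fun ρ hρ =>
      hsplit ρ (hs ρ (Finset.mem_filter.1 hρ).1) (Finset.mem_filter.1 hρ).2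
    rw [natDegree_X_pow_sub_C] at h3
    rw [hgd] at h4
    rw [h1, h2, mul_pow, ← pow_mul]
    have h5 : 2 * q ^ (k + 1) = 2 * q ^ k + q ^ k * (q - 1) + q ^ k * (q - 1) := by
      obtain ⟨r, hr⟩ : ∃ r, q = r + 1 := ⟨q - 1, by omega⟩
      rw [pow_succ]
      generalize q ^ k = N
      subst hr
      simp only [Nat.add_sub_cancel]
      ring
    rw [h5, pow_add, pow_add]
    have h6 := pow_nonneg (Finset.prod_nonneg (s := s.filter (· ∈ rt (q ^ k) b))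
      fun ρ _ => norm_nonneg (x₀ ρ)) (q - 1)
    refine mul_le_mul (mul_le_mul (hs₀ _ fun ρ hρ => (Finset.mem_filter.1 hρ).2) ?_
      (pow_nonneg (norm_nonneg _) _) h6) ?_ (pow_nonneg (norm_nonneg _) _)
      (mul_nonneg h6 (pow_nonneg (norm_nonneg _) _))
    · exact pow_le_pow_of_le_one (norm_nonneg _) norm_q_lt.le (Nat.mul_le_mul_right _ h3)
    · exact pow_le_pow_of_le_one (norm_nonneg _) norm_q_lt.le h4

theorem exists_split {R : Type*} [CommRing R] {m : ℕ} (hm : m ≠ 0) (P : R[X]) :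
    ∃ F : Fin m → R[X], P = ∑ j : Fin m, X ^ (j : ℕ) * expand R m (F j) := by
  induction P using Polynomial.induction_on' with
  | add P Q hP hQ =>
    obtain ⟨F, rfl⟩ := hP
    obtain ⟨G, rfl⟩ := hQ
    exact ⟨F + G, by simp [mul_add, Finset.sum_add_distrib]⟩
  | monomial n c =>
    refine ⟨Pi.single ⟨n % m, Nat.mod_lt _ (Nat.pos_of_ne_zero hm)⟩ (monomial (n / m) c), ?_⟩
    rw [Finset.sum_eq_single ⟨n % m, Nat.mod_lt _ (Nat.pos_of_ne_zero hm)⟩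
      (fun j _ hj => by simp [hj]) (by simp)]
    simp [X_pow_mul_monomial, Nat.div_add_mod']

theorem good_expand {m N : ℕ} (hm : ‖(m : PadicAlgCl q)‖ = 1) (hN : N ≠ 0) {u : ℤ_[q]}
    (hu : ‖u‖ = 1) {x : PadicAlgCl q → PadicAlgCl q} (h : Good (rt N u) x) :
    Good (rt (m * N) u) fun ρ => x (ρ ^ m) := by
  have hm0 : m ≠ 0 := by
    rintro rfl
    simp at hm
  have : NeZero (m : PadicAlgCl q) := ⟨Nat.cast_ne_zero.2 hm0⟩
  obtain ⟨ζ, hζ⟩ := HasEnoughRootsOfUnity.exists_primitiveRoot (PadicAlgCl q) m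
  have hζ1 := norm_eq_one_of_pow hm0 (by rw [hζ.pow_eq_one, norm_one])
  have hζm : ∀ i : ℕ, (ζ ^ i) ^ m = 1 := fun i => by
    rw [← pow_mul, mul_comm, pow_mul, hζ.pow_eq_one, one_pow]
  intro P hP
  obtain ⟨F, rfl⟩ := exists_split hm0 P
  have h1 : ∀ j, ∀ η ∈ rt N u, ‖aeval η (F j)‖ ≤ 1 := by
    intro j η hη
    obtain ⟨ρ, rfl⟩ : ∃ ρ, ρ ^ m = η := IsAlgClosed.exists_pow_nat_eq _ (Nat.pos_of_ne_zero hm0)
    have hρ : ‖ρ‖ = 1 := norm_eq_one_of_pow (mul_ne_zero hm0 hN) (by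
      rw [pow_mul, show (ρ ^ m) ^ N = _ from hη, norm_int, hu])
    have h2 := unimod (Matrix.vandermonde fun i : Fin m => ζ ^ (i : ℕ)) (fun i j => by simp [hζ1])
      (by
        rw [Matrix.det_vandermonde, norm_prod]
        refine Finset.prod_eq_one fun i _ => ?_
        rw [norm_prod]
        refine Finset.prod_eq_one fun j hj => norm_sub_root hm (hζm _) (hζm _) fun h => ?_
        exact (Finset.mem_Ioi.1 hj).ne' (Fin.ext (hζ.pow_inj j.2 i.2 h)))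
      (fun j => ρ ^ (j : ℕ) * aeval (ρ ^ m) (F j)) (fun i => by
        have h3 := hP (ζ ^ (i : ℕ) * ρ) (by
          change _ ^ _ = _
          rw [pow_mul, mul_pow, hζm, one_mul]
          exact hη)
        simpa [Matrix.mulVec, dotProduct, mul_pow, hζm, mul_assoc] using h3) j
    simpa [hρ] using h2
  choose Q hQ using fun j => h (F j) (h1 j)
  refine ⟨∑ j : Fin m, X ^ (j : ℕ) * expand _ m (Q j), fun ρ hρ => ?_⟩
  simp only [map_sum, map_mul, map_pow, aeval_X, expand_aeval, Finset.mul_sum]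
  refine Finset.sum_congr rfl fun j _ => ?_
  rw [← hQ j (ρ ^ m) (by change _ ^ _ = _; rw [← pow_mul]; exact hρ)]
  ring

end Pool.Agent.Lib.MP_f61260_nt
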