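import Pool.Agent.Lib.MP_f61260_nt.RadStepA
import Pool.Agent.Lib.MP_f61260_nt.RadPadic2

/-!
The index of `𝓞 K [π]` in `𝓞 L`.
-/

set_option autoImplicit false
set_option linter.unusedSectionVars false

open Module NumberField Polynomial Matrix Kronecker

namespace Pool.Agent.Lib.MP_f61260_nt

variable {K L : Type*} [Field K] [NumberField K] [Field L] [NumberField L] [Algebra K L]

theorem exists_lift {Ω : Type*} [Field Ω] (pb : PowerBasis K L) (a : K)
    (hπ : pb.gen ^ pb.dim = algebraMap K L a) (σ : K →+* Ω) (ρ : Ω) (hρ : ρ ^ pb.dim = σ a) :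
    ∃ τ : L →+* Ω, (∀ x, τ (algebraMap K L x) = σ x) ∧ τ pb.gen = ρ := by
  let := σ.toAlgebra
  have h : aeval ρ (minpoly K pb.gen) = 0 := by
    rw [minpoly_eq pb a rfl hπ, map_sub, aeval_C, map_pow, aeval_X, hρ]
    exact sub_self _
  exact ⟨(pb.lift _ h).toRingHom, (pb.lift _ h).commutes, pb.lift_gen _ h⟩

theorem idx_ne_zero (pb : PowerBasis K L) (h : IsIntegral ℤ pb.gen) : idx pb ≠ 0 :=
  (index_lat pb.basis pb.basis (lat_le_OL pb h) (lat_le_OL pb h)).2

theorem idx_dvd (pb : PowerBasis K L) (a : ℤ) (hπ : pb.gen ^ pb.dim = a) :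
    idx pb ∣ (((a * pb.dim).natAbs ^ 2) ^ pb.dim) ^ finrank ℚ L := by
  classical
  have hπ' : pb.gen ^ pb.dim = algebraMap K L (a : 𝓞 K) := by simpa using hπ
  have hint := isIntegral_gen pb a hπ'
  have hint' : IsIntegral (𝓞 K) pb.gen := hint.tower_top
  have h2 := Submodule.span_range_natDegree_eq_adjoin (R := 𝓞 K) (x := pb.gen)
    (monic_X_pow_sub_C (a : 𝓞 K) pb.dim_pos.ne') (by simp [hπ])
  obtain ⟨c, hc⟩ : ∃ c : 𝓞 K, (c : K) = Algebra.norm K pb.gen :=
    ⟨⟨_, Algebra.isIntegral_norm K hint⟩, rfl⟩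
  have h3 : Algebra.norm K pb.gen * Algebra.norm K (aeval pb.gen (derivative (minpoly K pb.gen)))
      = (a * pb.dim : K) ^ pb.dim := by
    rw [← map_mul, minpoly_eq pb _ rfl hπ', derivative_sub, derivative_C, derivative_X_pow,
      sub_zero, ← pb.finrank, ← Algebra.norm_algebraMap, pb.finrank]
    congr 1
    simp only [map_mul, map_natCast, map_pow, aeval_X, map_intCast, ← hπ]
    rw [mul_left_comm, ← pow_succ', Nat.sub_add_cancel pb.dim_pos, mul_comm]
  have h4 : ∀ z : 𝓞 L, ((a * pb.dim : L) ^ pb.dim) * z ∈ lat K pb.basis := by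
    intro z
    have h1 := Subalgebra.smul_mem _ (Algebra.discr_mul_isIntegral_mem_adjoin K hint'
      (z := (z : L)) z.isIntegral_coe.tower_top) ((-1) ^ (finrank K L * (finrank K L - 1) / 2) * c)
    rw [Algebra.discr_powerBasis_eq_norm, ← algebraMap_smul K, smul_smul, map_mul, map_pow,
      map_neg, map_one, ← RingOfIntegers.coe_eq_algebraMap, hc, mul_mul_mul_comm, ← mul_pow,
      neg_mul_neg, one_mul, one_pow, one_mul, h3, ← Subalgebra.mem_toSubmodule, ← h2,
      natDegree_X_pow_sub_C, Algebra.smul_def] at h1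
    simp only [map_mul, map_natCast, map_pow, map_intCast] at h1
    refine Submodule.span_mono ?_ h1
    intro w hw
    obtain ⟨i, hi, rfl⟩ := Finset.mem_image.1 hw
    exact ⟨⟨i, Finset.mem_range.1 hi⟩, pb.basis_eq_pow _⟩
  rw [← RingOfIntegers.rank, ← Ideal.absNorm_span_natCast, ← relIndex_idl]
  refine AddSubgroup.relIndex_dvd_of_le_left _ ?_
  rintro _ ⟨y, hy, rfl⟩
  obtain ⟨z, rfl⟩ := Ideal.mem_span_singleton'.1 hy
  have h5 : (((a * pb.dim).natAbs ^ 2 : ℕ) : 𝓞 L) = (a * pb.dim) ^ 2 := by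
    rw [← Int.cast_natCast, Nat.cast_pow, Int.natAbs_sq]
    push_cast
    rfl
  have h6 := h4 ((a * pb.dim) ^ pb.dim * z)
  rw [Nat.cast_pow, h5]
  refine (congrArg (· ∈ lat K pb.basis) ?_).mp h6
  simp
  ring

variable {q : ℕ} [hq : Fact q.Prime]

theorem norm_le_one_of_isIntegral {z : PadicAlgCl q} (h : IsIntegral ℤ z) : ‖z‖ ≤ 1 := by
  have := (Valuation.integer.integers (Valued.v (R := PadicAlgCl q))).mem_of_integral h.tower_top
  exact_mod_cast this

theorem norm_intCast (c : ℤ) : ‖(c : PadicAlgCl q)‖ = ‖(c : ℤ_[q])‖ := by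
  rw [← norm_int, map_intCast]

theorem index_padic (pb : PowerBasis K L) (a : ℤ) (ha : a ≠ 0) (hπ : pb.gen ^ pb.dim = a)
    (hd : ¬ (q : ℤ) ∣ discr K) {x : PadicAlgCl q → PadicAlgCl q} (hx : Good (rt pb.dim a) x)
    {ρ₀ ω : PadicAlgCl q} (hρ₀ : ρ₀ ∈ rt pb.dim a) (hω : IsPrimitiveRoot ω pb.dim) :
    (∏ i : Fin pb.dim, ‖x (ρ₀ * ω ^ (i : ℕ))‖) ^ finrank ℚ K ≤ ‖(idx pb : PadicAlgCl q)‖ := by
  classical
  have hπ' : pb.gen ^ pb.dim = algebraMap K L (a : 𝓞 K) := by simpa using hπ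
  have hint := isIntegral_gen pb a hπ'
  set b := (integralBasis K).smulTower pb.basis with hb
  set e := (integralBasis L).indexEquiv b
  set g := (integralBasis L).reindex e with hg
  have h1 := AddSubgroup.relIndex_eq_abs_det _ _ (lat_le_OL pb hint) _ g
    (lat_eq_closure pb.basis) (OL_eq_closure e)
  set C := b.toMatrix g with hC
  have h2 : ‖((C.det : ℚ) : PadicAlgCl q)‖ * ‖(idx pb : PadicAlgCl q)‖ = 1 := by
    have h3 : |C.det * idx pb| = 1 := by
      rw [idx, h1, abs_mul, abs_abs, ← abs_mul, hC, ← Basis.det_apply, Basis.det_mul_det,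
        Basis.det_self, abs_one]
    rw [← norm_mul, ← Rat.cast_natCast, ← Rat.cast_mul]
    rcases eq_or_eq_neg_of_abs_eq h3 with h | h <;> simp [h]
  set P := fun t k => pf 0 fun j => ((C (t, j) k : ℚ) : ℚ_[q]) with hP
  have hPev : ∀ t k (ρ : PadicAlgCl q),
      aeval ρ (P t k) = ∑ j, (C (t, j) k : PadicAlgCl q) * ρ ^ (j : ℕ) := by
    intro t k ρ
    simp [hP, aeval_pf, Algebra.smul_def]
  obtain ⟨E⟩ : Nonempty (Free.ChooseBasisIndex ℤ (𝓞 K) ≃ (K →ₐ[ℚ] PadicAlgCl q)) :=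
    ⟨Fintype.equivOfCardEq (by rw [AlgHom.card, finrank_eq_card_basis (integralBasis K)])⟩
  have hW : ‖(Algebra.embeddingsMatrixReindex ℚ (PadicAlgCl q) (integralBasis K) E)ᵀ.det‖ = 1 := by
    refine norm_eq_one_of_pow two_ne_zero ?_
    rw [det_transpose, ← Algebra.discr_eq_det_embeddingsMatrixReindex_pow_two, ← coe_discr,
      map_intCast, norm_intCast]
    exact le_antisymm (PadicInt.norm_le_one _)
      (not_lt.1 fun h => hd ((PadicInt.norm_int_lt_one_iff_dvd _).1 h))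
  have h3 : ∀ t k, ∀ ρ ∈ rt pb.dim (a : ℤ_[q]), ‖aeval ρ (P t k)‖ ≤ 1 := by
    intro t k ρ hρ
    refine unimod _ (fun s t => ?_) hW (fun t => aeval ρ (P t k)) (fun s => ?_) t
    · refine norm_le_one_of_isIntegral (IsIntegral.map (E s).toRingHom.toIntAlgHom ?_)
      rw [integralBasis_apply]
      exact RingOfIntegers.isIntegral_coe _
    · obtain ⟨τ, hτ1, hτ2⟩ := exists_lift pb _ hπ' (E s).toRingHom ρ (by simpa [rt] using hρ)
      have h4 : τ (g k) = ∑ t, E s (integralBasis K t) * aeval ρ (P t k) := by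
        rw [← b.sum_repr (g k), map_sum, Fintype.sum_prod_type]
        refine Finset.sum_congr rfl fun t _ => ?_
        rw [hPev, Finset.mul_sum]
        refine Finset.sum_congr rfl fun j _ => ?_
        rw [map_rat_smul, hb, Basis.smulTower_apply, Algebra.smul_def (integralBasis K t), map_mul,
          hτ1, pb.basis_eq_pow, map_pow, hτ2, Rat.smul_def, mul_left_comm]
        rfl
      have h5 : IsIntegral ℤ (g k) := by
        rw [hg, Basis.reindex_apply, integralBasis_apply]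
        exact RingOfIntegers.isIntegral_coe _
      have h6 := norm_le_one_of_isIntegral (h5.map τ.toIntAlgHom)
      rwa [RingHom.toIntAlgHom_apply, h4] at h6
  choose Q hQ using fun t k => hx (P t k) (h3 t k)
  have hf := monic_X_pow_sub_C (a : ℤ_[q]) pb.dim_pos.ne'
  set ρ := fun i : Fin pb.dim => ρ₀ * ω ^ (i : ℕ) with hρ
  have hρ1 : ∀ i, ρ i ∈ rt pb.dim (a : ℤ_[q]) := fun i => by
    change _ ^ _ = _
    rw [mul_pow, ← pow_mul, mul_comm (i : ℕ), pow_mul, hω.pow_eq_one, one_pow, mul_one]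
    exact hρ₀
  set V := (1 : Matrix (Free.ChooseBasisIndex ℤ (𝓞 K)) (Free.ChooseBasisIndex ℤ (𝓞 K))
    (PadicAlgCl q)) ⊗ₖ vandermonde ρ with hV
  set C' := Matrix.of fun (y : Free.ChooseBasisIndex ℤ (𝓞 K) × Fin pb.dim) k =>
    algebraMap ℤ_[q] (PadicAlgCl q)
      ((Q y.1 k %ₘ (X ^ pb.dim - Polynomial.C (a : ℤ_[q]))).coeff y.2) with hC'
  have hVm : ∀ (M : Matrix (Free.ChooseBasisIndex ℤ (𝓞 K) × Fin pb.dim)
      (Free.ChooseBasisIndex ℤ (𝓞 K) × Fin pb.dim) (PadicAlgCl q)) t i k,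
      (V * M) (t, i) k = ∑ j : Fin pb.dim, M (t, j) k * ρ i ^ (j : ℕ) := by
    intro M t i k
    simp [hV, Matrix.mul_apply, Fintype.sum_prod_type, one_apply, mul_comm]
  have h4 : diagonal (fun y => x (ρ y.2)) * (V * C.map (Rat.castHom _)) = V * C' := by
    ext ⟨t, i⟩ k
    rw [diagonal_mul, hVm, hVm]
    have h5 := hQ t k _ (hρ1 i)
    rw [hPev, ← aeval_modByMonic_eq_self_of_root (q := X ^ pb.dim - Polynomial.C (a : ℤ_[q]))
      (by simpa [sub_eq_zero, rt] using hρ1 i), aeval_eq_sum_range' (n := pb.dim)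
      ((natDegree_modByMonic_lt _ hf fun h => pb.dim_pos.ne' (by
        rw [← natDegree_X_pow_sub_C (r := (a : ℤ_[q])) (n := pb.dim), h, natDegree_one])).trans_eq
        natDegree_X_pow_sub_C), Finset.sum_range] at h5
    simpa [hC', Algebra.smul_def] using h5
  have hV0 : V.det ≠ 0 := by
    rw [hV, det_kronecker, det_one, one_pow, one_mul]
    refine pow_ne_zero _ (det_vandermonde_ne_zero_iff.2 fun i j h => ?_)
    have h0 : ρ₀ ≠ 0 := by
      rintro rfl
      have : (0 : PadicAlgCl q) ^ pb.dim = _ := hρ₀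
      rw [zero_pow pb.dim_pos.ne', map_intCast, eq_comm, Int.cast_eq_zero] at this
      exact ha this
    exact Fin.ext (hω.pow_inj i.2 j.2 (mul_left_cancel₀ h0 h))
  have h5 := congrArg det h4
  rw [det_mul, det_mul, det_mul, mul_left_comm, mul_right_inj' hV0, det_diagonal,
    ← RingHom.mapMatrix_apply, ← RingHom.map_det, Fintype.prod_prod_type] at h5
  simp only [Finset.prod_const, Finset.card_univ, ← finrank_eq_card_basis (integralBasis K)] at h5
  have h6 := norm_det_le C' fun y k => by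
    rw [hC', of_apply, norm_int]
    exact PadicInt.norm_le_one _
  rw [← h5, norm_mul, norm_pow, norm_prod] at h6
  have h7 := mul_le_mul_of_nonneg_right h6 (norm_nonneg (idx pb : PadicAlgCl q))
  rwa [mul_assoc, Rat.coe_castHom, h2, mul_one, one_mul] at h7

theorem norm_natCast_eq {n : ℕ} (hn : n ≠ 0) :
    ‖(n : PadicAlgCl q)‖ = ‖(q : PadicAlgCl q)‖ ^ n.factorization q := by
  have h1 : ‖((ordCompl[q] n : ℕ) : PadicAlgCl q)‖ = 1 := by
    rw [← Int.cast_natCast, norm_intCast, Int.cast_natCast, PadicInt.norm_natCast_eq_one_iff]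
    exact Nat.coprime_ordCompl hq.out hn
  conv_lhs => rw [← Nat.ordProj_mul_ordCompl_eq_self n q]
  rw [Nat.cast_mul, norm_mul, h1, mul_one, Nat.cast_pow, norm_pow]

theorem exists_param {n : ℕ} (hn : n ≠ 0) (u : ℤ_[q]) :
    ∃ ρ₀ ω : PadicAlgCl q, ρ₀ ∈ rt n u ∧ IsPrimitiveRoot ω n := by
  have : NeZero (n : PadicAlgCl q) := ⟨Nat.cast_ne_zero.2 hn⟩
  obtain ⟨ω, hω⟩ := HasEnoughRootsOfUnity.exists_primitiveRoot (PadicAlgCl q) n
  obtain ⟨ρ, hρ⟩ := IsAlgClosed.exists_pow_nat_eq (algebraMap _ (PadicAlgCl q) u)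
    (Nat.pos_of_ne_zero hn)
  exact ⟨ρ, ω, hρ, hω⟩

theorem idx_val (pb : PowerBasis K L) (a : ℤ) (ha : Squarefree a) (hπ : pb.gen ^ pb.dim = a)
    (hd : IsCoprime (discr K) (a * pb.dim)) :
    (¬ (q ∣ pb.dim ∧ (q : ℤ) ^ 2 ∣ a ^ q - a) → (idx pb).factorization q = 0) ∧
      (q ≠ 2 → ¬ (q : ℤ) ∣ a → (idx pb).factorization q * (q - 1) ≤ 2 * finrank ℚ L) := by
  have hπ' : pb.gen ^ pb.dim = algebraMap K L (a : 𝓞 K) := by simpa using hπ
  have hI := idx_ne_zero pb (isIntegral_gen pb a hπ')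
  have hn := pb.dim_pos.ne'
  have hq' : Prime (q : ℤ) := Nat.prime_iff_prime_int.1 hq.out
  by_cases hqa : (q : ℤ) ∣ a * pb.dim
  swap
  · have h0 : (idx pb).factorization q = 0 := by
      refine Nat.factorization_eq_zero_of_not_dvd fun h => hqa ?_
      exact Int.natCast_dvd.2 (hq.out.dvd_of_dvd_pow (hq.out.dvd_of_dvd_pow
        (hq.out.dvd_of_dvd_pow (h.trans (idx_dvd pb a hπ)))))
    simp [h0]
  have hqd : ¬ (q : ℤ) ∣ discr K := fun h => hq'.not_isUnit (hd.isUnit_of_dvd' h hqa)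
  obtain ⟨ρ₀, ω, hρ₀, hω⟩ := exists_param (q := q) hn a
  have key := fun x hx => index_padic (x := x) pb a ha.ne_zero hπ hqd hx hρ₀ hω
  rw [norm_natCast_eq hI] at key
  set m := ordCompl[q] pb.dim with hm
  set k := pb.dim.factorization q with hk
  have hmk : m * q ^ k = pb.dim := by rw [mul_comm]; exact Nat.ordProj_mul_ordCompl_eq_self _ _
  have hm1 : ‖(m : PadicAlgCl q)‖ = 1 := by
    rw [← Int.cast_natCast, norm_intCast, Int.cast_natCast, PadicInt.norm_natCast_eq_one_iff]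
    exact Nat.coprime_ordCompl hq.out hn
  have hqk := pow_ne_zero k hq.out.ne_zero
  have hu : ¬ (q : ℤ) ∣ a → ‖(a : ℤ_[q])‖ = 1 := fun h => le_antisymm (PadicInt.norm_le_one _)
    (not_lt.1 fun h' => h ((PadicInt.norm_int_lt_one_iff_dvd _).1 h'))
  constructor
  · intro h
    have h1 : Good (rt pb.dim (a : ℤ_[q])) fun _ => 1 := by
      by_cases hqa' : (q : ℤ) ∣ a
      · refine good_eis hn _ 0 fun ρ hρ => ?_
        rw [map_zero, sub_zero, ← norm_pow, show ρ ^ pb.dim = _ from hρ]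
        refine norm_of_dvd (by exact_mod_cast Int.cast_dvd_cast _ _ hqa') fun h2 => ?_
        rw [PadicInt.pow_p_dvd_int_iff, sq] at h2
        exact hq'.not_isUnit (ha _ h2)
      · rw [← hmk]
        refine good_expand hm1 hqk (hu hqa') (good_nonW _ (fun h2 => h ⟨?_, ?_⟩) k)
        · exact_mod_cast (hq'.dvd_or_dvd hqa).resolve_left hqa'
        · rw [← PadicInt.pow_p_dvd_int_iff]
          exact_mod_cast h2
    have h2 := key _ h1
    by_contra h3
    simp only [norm_one, Finset.prod_const_one, one_pow] at h2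
    exact absurd h2 (not_le.2 (pow_lt_one₀ (norm_nonneg _) norm_q_lt h3))
  · intro hq2 hqa'
    obtain ⟨x, hx, hs⟩ := good_pow hq2 k a (hu hqa')
    have h1 := key _ (hmk ▸ good_expand hm1 hqk (hu hqa') hx)
    have hω' := hω.pow pb.dim_pos hmk.symm
    have h0 : ρ₀ ^ m ≠ 0 := by
      refine pow_ne_zero _ ?_
      rintro rfl
      have : (0 : PadicAlgCl q) ^ pb.dim = _ := hρ₀
      rw [zero_pow hn, map_intCast, eq_comm, Int.cast_eq_zero] at this
      exact ha.ne_zero this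
    classical
    have h2 := hs (Finset.univ.image fun j : Fin (q ^ k) => ρ₀ ^ m * (ω ^ m) ^ (j : ℕ)) (by
      intro ρ hρ
      obtain ⟨j, -, rfl⟩ := Finset.mem_image.1 hρ
      change _ ^ _ = _
      rw [mul_pow, ← pow_mul, hmk, ← pow_mul, mul_comm (j : ℕ), pow_mul, hω'.pow_eq_one, one_pow,
        mul_one]
      exact hρ₀)
    rw [Finset.prod_image fun i _ j _ h =>
      Fin.ext (hω'.pow_inj i.2 j.2 (mul_left_cancel₀ h0 h))] at h2
    have h3 : ∏ i : Fin pb.dim, ‖x ((ρ₀ * ω ^ (i : ℕ)) ^ m)‖ =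
        (∏ j : Fin (q ^ k), ‖x (ρ₀ ^ m * (ω ^ m) ^ (j : ℕ))‖) ^ m := by
      rw [Fin.prod_univ_eq_prod_range (fun i => ‖x ((ρ₀ * ω ^ i) ^ m)‖), ← hmk,
        ← Fin.prod_univ_eq_prod_range (fun i => ‖x ((ρ₀ * ω ^ i) ^ m)‖),
        ← finProdFinEquiv.prod_comp, Fintype.prod_prod_type]
      rw [Finset.prod_congr rfl (g := fun _ => ∏ j : Fin (q ^ k),
        ‖x (ρ₀ ^ m * (ω ^ m) ^ (j : ℕ))‖), Finset.prod_const, Finset.card_univ, Fintype.card_fin]
      refine fun i _ => Finset.prod_congr rfl fun j _ => ?_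
      rw [finProdFinEquiv_apply_val, mul_pow, ← pow_mul ω, mul_comm _ m, pow_mul ω, pow_add,
        pow_mul (ω ^ m), hω'.pow_eq_one, one_pow, mul_one]
    rw [h3] at h1
    have h4 := Finset.prod_nonneg (s := Finset.univ)
      fun (j : Fin (q ^ k)) _ => norm_nonneg (x (ρ₀ ^ m * (ω ^ m) ^ (j : ℕ)))
    have h5 := (pow_le_pow_left₀ (pow_nonneg (norm_nonneg _) _) h2 (m * finrank ℚ K)).trans
      (le_of_eq_of_le (by rw [← pow_mul, ← pow_mul, ← pow_mul, mul_comm, mul_assoc])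
        (pow_le_pow_left₀ (pow_nonneg (pow_nonneg h4 _) _) h1 (q - 1)))
    rw [← pow_mul, ← pow_mul, pow_le_pow_iff_right_of_lt_one₀ norm_q_pos norm_q_lt] at h5
    rw [← finrank_mul_finrank ℚ K L, pb.finrank, ← hmk]
    exact h5.trans_eq (by ring)

theorem log_idx_le (pb : PowerBasis K L) (a : ℤ) (ha : Squarefree a) (hπ : pb.gen ^ pb.dim = a)
    (hd : IsCoprime (discr K) (a * pb.dim)) (h2 : ¬ (2 ∣ pb.dim ∧ (2 : ℤ) ^ 2 ∣ a ^ 2 - a)) :
    Real.log (idx pb) ≤ 2 * finrank ℚ L *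
      ∑ q ∈ pb.dim.primeFactors.filter fun q : ℕ => (q : ℤ) ^ 2 ∣ a ^ q - a,
        Real.log q / (q - 1) := by
  rw [Real.log_nat_eq_sum_factorization, Finsupp.sum, Finset.mul_sum]
  have h1 : (idx pb).factorization.support ⊆
      pb.dim.primeFactors.filter fun q : ℕ => (q : ℤ) ^ 2 ∣ a ^ q - a := by
    intro q hq
    have := Fact.mk (Nat.prime_of_mem_primeFactors hq)
    obtain ⟨h3, h4⟩ := not_not.1 (mt (idx_val (q := q) pb a ha hπ hd).1 (Finsupp.mem_support_iff.1 hq))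
    exact Finset.mem_filter.2 ⟨Nat.mem_primeFactors.2 ⟨this.out, h3, pb.dim_pos.ne'⟩, h4⟩
  refine (Finset.sum_le_sum_of_subset_of_nonneg h1 fun q _ _ => by positivity).trans
    (Finset.sum_le_sum fun q hq => ?_)
  obtain ⟨h3, h4⟩ := Finset.mem_filter.1 hq
  have hq := Fact.mk (Nat.prime_of_mem_primeFactors h3)
  have h5 := (idx_val (q := q) pb a ha hπ hd).2
    (fun h => h2 (by subst h; exact ⟨Nat.dvd_of_mem_primeFactors h3, by exact_mod_cast h4⟩))
    (fun h => (Nat.prime_iff_prime_int.1 hq.out).not_isUnit (ha _ (by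
      have h6 : (q : ℤ) ^ 2 ∣ a ^ q := (pow_dvd_pow_of_dvd h 2).trans (pow_dvd_pow a hq.out.two_le)
      simpa [sq] using dvd_sub h6 h4)))
  have h6 : (1 : ℝ) < q := by exact_mod_cast hq.out.one_lt
  have h7 : ((idx pb).factorization q : ℝ) * (q - 1) ≤ 2 * finrank ℚ L := by
    have := (Nat.cast_le (α := ℝ)).2 h5
    rwa [Nat.cast_mul, Nat.cast_sub hq.out.one_le, Nat.cast_mul, Nat.cast_one] at this
  rw [← mul_div_assoc, le_div_iff₀ (by linarith), mul_right_comm]
  exact mul_le_mul_of_nonneg_right h7 (Real.log_nonneg h6.le)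

end Pool.Agent.Lib.MP_f61260_nt
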