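import Pool.Agent.Lib.MP_f61260_nt.RadUnif

/-!
Radicals in the field generated by a division group.
-/

set_option autoImplicit false
set_option linter.unusedSectionVars false

open Module NumberField Polynomial Height IntermediateField

namespace Pool.Agent.Lib.MP_f61260_nt

theorem dirichlet {ι : Type*} [Fintype ι] (a : ι → ℤ) {N Q : ℕ} (hN : 0 < N) (hQ : 0 < Q) :
    ∃ t : ℕ, 0 < t ∧ t ≤ Q ^ Fintype.card ι ∧
      ∃ b : ι → ℤ, ∀ i, Q * (t * a i - N * b i).natAbs ≤ N := by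
  classical
  have hN' : (0 : ℤ) < N := by exact_mod_cast hN
  have h1 : ∀ x : ℤ, Q * (x % N).toNat / N < Q := fun x => by
    rw [Nat.div_lt_iff_lt_mul hN]
    have := Int.emod_lt_of_pos x hN'
    exact Nat.mul_lt_mul_of_pos_left (by omega) hQ
  obtain ⟨s, t, hst, h⟩ : ∃ s t : Fin (Q ^ Fintype.card ι + 1), s < t ∧ ∀ i,
      Q * ((s : ℕ) * a i % N).toNat / N = Q * ((t : ℕ) * a i % N).toNat / N := by
    obtain ⟨s, t, hst, h⟩ := Fintype.exists_ne_map_eq_of_card_lt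
      (fun (t : Fin (Q ^ Fintype.card ι + 1)) i => (⟨_, h1 ((t : ℕ) * a i)⟩ : Fin Q)) (by simp)
    rcases lt_or_gt_of_ne hst with h2 | h2
    · exact ⟨s, t, h2, fun i => congrArg Fin.val (congrFun h i)⟩
    · exact ⟨t, s, h2, fun i => (congrArg Fin.val (congrFun h i)).symm⟩
  refine ⟨t - s, Nat.sub_pos_of_lt hst, by omega,
    fun i => (t : ℕ) * a i / N - (s : ℕ) * a i / N, fun i => ?_⟩
  have h2 := h i
  have h3 := Int.emod_nonneg ((s : ℕ) * a i) hN'.ne'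
  have h4 := Int.emod_nonneg ((t : ℕ) * a i) hN'.ne'
  rw [Nat.cast_sub hst.le, show ((t : ℕ) - (s : ℕ) : ℤ) * a i -
    N * ((t : ℕ) * a i / N - (s : ℕ) * a i / N) = (t : ℕ) * a i % N - (s : ℕ) * a i % N by
      rw [Int.emod_def, Int.emod_def]; ring]
  lift (s : ℕ) * a i % N to ℕ using h3 with x
  lift (t : ℕ) * a i % N to ℕ using h4 with y
  rw [Int.toNat_natCast, Int.toNat_natCast] at h2
  have h5 := Nat.div_add_mod (Q * x) N
  have h6 := Nat.div_add_mod (Q * y) N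
  have h7 := Nat.mod_lt (Q * x) hN
  have h8 := Nat.mod_lt (Q * y) hN
  rw [h2] at h5
  rw [← Int.natAbs_natCast Q, ← Int.natAbs_mul, mul_sub, ← Nat.cast_mul, ← Nat.cast_mul]
  omega

theorem dir_height (Γ : Subgroup ℂˣ) (hΓ : Γ.FG) (hi : ∀ g ∈ Γ, IsIntegral ℚ (g : ℂ)) {η : ℝ}
    (hη : 0 < η) : ∃ T : ℕ, 0 < T ∧ ∀ δ ∈ divSet Γ, ∃ t : ℕ, 0 < t ∧ t ≤ T ∧ ∃ g ∈ Γ,
      absLogHeight₁ (δ ^ t / g) ≤ η := by
  obtain ⟨S, rfl⟩ := hΓ
  have h1 : ∀ i : (S : Set ℂˣ), IsIntegral ℚ ((i : ℂˣ) : ℂ) := fun i =>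
    hi _ (Subgroup.subset_closure i.2)
  obtain ⟨Q, hQ⟩ := exists_nat_gt ((∑ i : (S : Set ℂˣ), absLogHeight₁ ((i : ℂˣ) : ℂ)) / η)
  have hQ0 : (0 : ℝ) < Q :=
    (div_nonneg (Finset.sum_nonneg fun i _ => absH_nonneg (h1 i)) hη.le).trans_lt hQ
  have hQ1 : 0 < Q := by exact_mod_cast hQ0
  refine ⟨Q ^ Fintype.card (S : Set ℂˣ), by positivity, ?_⟩
  rintro δ ⟨h0, N, hN, g, hg, h2⟩
  obtain ⟨a, rfl⟩ := Subgroup.mem_closure_iff_of_fintype.1 hg
  obtain ⟨t, ht, h3, b, hb⟩ := dirichlet a hN hQ1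
  refine ⟨t, ht, h3, _, Subgroup.mem_closure_iff_of_fintype.2 ⟨b, rfl⟩, ?_⟩
  have h4 : (δ ^ t / (∏ i : (S : Set ℂˣ), i.1 ^ b i : ℂˣ)) ^ N =
      ∏ i : (S : Set ℂˣ), ((i : ℂˣ) : ℂ) ^ (t * a i - N * b i) := by
    rw [div_pow, pow_right_comm, ← h2]
    simp only [Units.coe_prod, Units.val_zpow_eq_zpow_val, ← Finset.prod_pow,
      ← Finset.prod_div_distrib]
    refine Finset.prod_congr rfl fun i _ => ?_
    rw [zpow_sub₀ (Units.ne_zero _), mul_comm, mul_comm (N : ℤ), zpow_mul, zpow_mul, zpow_natCast,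
      zpow_natCast]
  have h5 := absH_prod_le Finset.univ _ fun i => isIntegral_zpow (h1 i) (t * a i - N * b i)
  rw [← h4, absH_pow (IsIntegral.of_pow hN
    (h4 ▸ IsIntegral.prod _ fun i _ => isIntegral_zpow (h1 i) _))] at h5
  have hN0 : (0 : ℝ) < N := by exact_mod_cast hN
  refine le_of_mul_le_mul_left (h5.trans ?_) hN0
  rw [div_lt_iff₀ hη] at hQ
  refine le_of_mul_le_mul_left (le_trans ?_ ((mul_le_mul_of_nonneg_left hQ.le hN0.le).trans_eq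
    (mul_left_comm _ _ _))) hQ0
  rw [Finset.mul_sum, Finset.mul_sum]
  refine Finset.sum_le_sum fun i _ => ?_
  rw [absH_zpow (h1 i), ← mul_assoc]
  exact mul_le_mul_of_nonneg_right (by exact_mod_cast hb i) (absH_nonneg (h1 i))

/-- The division group as a submonoid. -/
def divMon (Γ : Subgroup ℂˣ) : Submonoid ℂ where
  carrier := divSet Γ
  one_mem' := ⟨one_ne_zero, 1, le_rfl, 1, one_mem _, by simp⟩
  mul_mem' := by
    rintro x y ⟨hx, m, hm, g, hg, h1⟩ ⟨hy, n, hn, h, hh, h2⟩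
    refine ⟨mul_ne_zero hx hy, m * n, Nat.mul_pos hm hn, _, mul_mem (pow_mem hg n) (pow_mem hh m),
      ?_⟩
    rw [Units.val_mul, Units.val_pow_eq_pow_val, Units.val_pow_eq_pow_val, h1, h2]
    ring

theorem div_of_pow {Γ : Subgroup ℂˣ} {x : ℂ} {j : ℕ} (hj : 0 < j) (h : x ^ j ∈ divSet Γ) :
    x ∈ divSet Γ := by
  obtain ⟨h0, n, hn, g, hg, h⟩ := h
  exact ⟨fun h1 => h0 (by rw [h1, zero_pow hj.ne']), j * n, Nat.mul_pos hj hn, g, hg,
    by rw [h, pow_mul]⟩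

theorem div_inv {Γ : Subgroup ℂˣ} {x : ℂ} (h : x ∈ divSet Γ) : x⁻¹ ∈ divSet Γ := by
  obtain ⟨h0, n, hn, g, hg, h⟩ := h
  exact ⟨inv_ne_zero h0, n, hn, g⁻¹, inv_mem hg, by simp [h]⟩

theorem div_int {Γ : Subgroup ℂˣ} (hi : ∀ g ∈ Γ, IsIntegral ℚ (g : ℂ)) {x : ℂ}
    (h : x ∈ divSet Γ) : IsIntegral ℚ x := by
  obtain ⟨-, n, hn, g, hg, h⟩ := h
  exact IsIntegral.of_pow hn (h ▸ hi g hg)

theorem kummer_gap (Γ : Subgroup ℂˣ) (hΓ : Γ.FG) (K : IntermediateField ℚ ℂ) [NumberField K]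
    (hK : ∀ g ∈ Γ, (g : ℂ) ∈ K) : ∃ ε : ℝ, 0 < ε ∧ ∀ β ∈ K ⊔ adjoin ℚ (divSet Γ), β ≠ 0 →
      (∃ M, 0 < M ∧ β ^ M ∈ K) → β ∉ divSet Γ → ε ≤ absLogHeight₁ β := by
  have hKi : ∀ x ∈ K, IsIntegral ℚ x := fun x hx =>
    (IsIntegral.of_finite ℚ (⟨x, hx⟩ : K)).map K.val
  have hi : ∀ g ∈ Γ, IsIntegral ℚ (g : ℂ) := fun g hg => hKi _ (hK g hg)
  obtain ⟨c, hc, h1⟩ := base' K
  obtain ⟨T, hT, h2⟩ := dir_height Γ hΓ hi (half_pos hc)
  refine ⟨c / 2 / T, by positivity, ?_⟩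
  rintro β hβ hβ0 ⟨M, hM, hβM⟩ hβΓ
  have h3 : β⁻¹ ∈ Submodule.span K (divSet Γ) := by
    rw [← restrictScalars_adjoin_eq_sup] at hβ
    have h4 : β⁻¹ ∈ Subalgebra.toSubmodule (adjoin K (divSet Γ)).toSubalgebra :=
      (adjoin K (divSet Γ)).inv_mem hβ
    rwa [adjoin_toSubalgebra_of_isAlgebraic fun x hx => (div_int hi hx).tower_top.isAlgebraic,
      Algebra.adjoin_eq_span, show divSet Γ = divMon Γ from rfl, Submonoid.closure_eq] at h4
  obtain ⟨s, hs, h4⟩ := Submodule.mem_span_finite_of_mem_span h3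
  have h5 : ∀ δ ∈ s, ∃ n : ℕ, 0 < n ∧ δ ^ n ∈ K := fun δ hδ => by
    obtain ⟨-, n, hn, g, hg, h⟩ := hs hδ
    exact ⟨n, hn, h ▸ hK g hg⟩
  choose! n hn h5 using h5
  set N := M * ∏ δ ∈ s, n δ with hN
  have hN0 : N ≠ 0 := (mul_pos hM (Finset.prod_pos hn)).ne'
  have hζ := Complex.isPrimitiveRoot_exp N hN0
  obtain ⟨-, -, h6⟩ := h1 N hN0 _ hζ
  set E := K ⊔ adjoin ℚ {Complex.exp (2 * Real.pi * Complex.I / N)} with hE
  have hKE : K ≤ E := le_sup_left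
  obtain ⟨_, ⟨δ, hδ, rfl⟩, y, hy⟩ := radical_mem (E := E) (Ω := ℂ) hN0
    (ξ := ⟨_, (le_sup_right : _ ≤ E) (mem_adjoin_simple_self _ _)⟩)
    (IsPrimitiveRoot.of_map_of_injective (f := algebraMap E ℂ) hζ (algebraMap E ℂ).injective)
    ((fun δ => β * δ) '' s) (by
      rintro _ ⟨δ, hδ, rfl⟩
      refine ⟨⟨(β * δ) ^ N, hKE ?_⟩, rfl⟩
      obtain ⟨r, hr⟩ := (Finset.dvd_prod_of_mem n hδ).mul_left M
      rw [mul_pow]
      refine mul_mem ?_ ?_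
      · rw [hN, pow_mul]
        exact pow_mem hβM _
      · rw [hN, hr, pow_mul]
        exact pow_mem (h5 δ hδ) _) (by
      have h8 : ∀ x ∈ Submodule.span K (s : Set ℂ), x ∈ Submodule.span E (s : Set ℂ) := by
        intro x hx
        induction hx using Submodule.span_induction with
        | mem x hx => exact Submodule.subset_span hx
        | zero => exact zero_mem _
        | add x y _ _ hx hy => exact add_mem hx hy
        | smul c x _ hx => exact Submodule.smul_mem _ (⟨c, hKE c.2⟩ : E) hx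
      have h7 := Submodule.mem_map_of_mem (f := LinearMap.mulLeft E β) (h8 _ h4)
      rwa [Submodule.map_span, LinearMap.mulLeft_apply, mul_inv_cancel₀ hβ0] at h7)
  have h7 : β * δ ∈ E := (show (y : ℂ) = β * δ from hy) ▸ y.2
  obtain ⟨t, ht, htT, g, hg, h8⟩ := h2 δ (hs hδ)
  have hβi : IsIntegral ℚ β := IsIntegral.of_pow hM (hKi _ hβM)
  have hg' : (g : ℂ) ∈ divMon Γ := ⟨g.ne_zero, 1, le_rfl, g, hg, (pow_one _).symm⟩
  have h9 : δ ^ t / g ∈ divMon Γ := div_eq_mul_inv (δ ^ t) _ ▸ mul_mem (pow_mem (hs hδ) t)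
    (div_inv hg')
  by_contra h10
  rw [not_le, lt_div_iff₀' (by positivity)] at h10
  obtain ⟨j, hj, h11⟩ := h6 (β ^ t * (δ ^ t / g)) (by
      rw [← mul_div_assoc, ← mul_pow]
      exact div_mem (pow_mem h7 _) (hKE (hK g hg))) (mul_ne_zero (pow_ne_zero _ hβ0) h9.1) (by
      have h11 := absH_mul_le (hβi.pow t) (div_int hi h9)
      have h12 := mul_le_mul_of_nonneg_right (Nat.cast_le (α := ℝ).2 htT) (absH_nonneg hβi)
      rw [absH_pow hβi] at h11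
      linarith)
  refine hβΓ (div_of_pow ht (div_of_pow hj ?_))
  rw [mul_pow] at h11
  rw [eq_inv_of_mul_eq_one_left h11]
  exact div_inv (pow_mem h9 j)

theorem pow_deg_mem (F : IntermediateField ℚ ℂ) (hF : ∀ (z : ℂ) (n : ℕ), 0 < n → z ^ n = 1 → z ∈ F)
    {α : ℂ} (hα : α ≠ 0) {M : ℕ} (hM : 0 < M) (h : α ^ M ∈ F) :
    α ^ (minpoly F α).natDegree ∈ F := by
  have hint : IsIntegral F α := IsIntegral.of_pow hM (isIntegral_algebraMap (x := (⟨_, h⟩ : F)))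
  have h1 : Algebra.norm F (AdjoinSimple.gen F α) ^ M = (⟨_, h⟩ : F) ^ (minpoly F α).natDegree := by
    rw [← map_pow, ← adjoin.finrank hint, ← Algebra.norm_algebraMap]
    rfl
  set ν := Algebra.norm F (AdjoinSimple.gen F α) with hν
  have h2 : (ν : ℂ) ^ M = (α ^ (minpoly F α).natDegree) ^ M := by
    rw [pow_right_comm]
    exact congrArg Subtype.val h1
  have h3 : (ν : ℂ) ≠ 0 := fun h0 => pow_ne_zero M (pow_ne_zero _ hα) (by
    rw [← h2, h0, zero_pow hM.ne'])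
  rw [← div_mul_cancel₀ (α ^ _) h3]
  exact mul_mem (hF _ M hM (by rw [div_pow, ← h2, div_self (pow_ne_zero _ h3)])) ν.2

theorem strong_form (Γ : Subgroup ℂˣ) (hΓ : Γ.FG) (hΓa : ∀ g ∈ Γ, IsAlgebraic ℚ (g : ℂ))
    (K : IntermediateField ℚ ℂ) [NumberField K] (Δ : Subgroup ℂˣ) (hΔ : Δ.FG)
    (hΔK : ∀ g ∈ Δ, (g : ℂ) ∈ K) : ∃ c : ℝ, 0 < c ∧
      ∀ (t m : ℕ) (b : Fin t → ℤ) (n : Fin t → ℕ) (π : Fin t → ℂ), m ≠ 0 →
        (∀ i, Squarefree (b i) ∧ 2 ≤ |b i| ∧ π i ^ n i = b i ∧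
          IsCoprime (discr K * m) (b i * n i) ∧ wief (b i) (n i).primeFactors ≤ 1 / 50) →
        (∀ i j, i ≠ j → IsCoprime (b i * n i) (b j * n j)) →
        ∀ γ ∈ K ⊔ adjoin ℚ ({z : ℂ | z ^ m = 1} ∪ Set.range π), ∀ δ ∈ divSet Δ,
          γ ≠ 0 → γ * δ ∉ divSet Γ →
          c / (minpoly (adjoin ℚ (divSet Γ)) (γ * δ)).natDegree ≤ absLogHeight₁ (γ * δ) := by
  have hKi : ∀ (L : IntermediateField ℚ ℂ) [NumberField L], ∀ x ∈ L, IsIntegral ℚ x :=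
    fun L _ x hx => (IsIntegral.of_finite ℚ (⟨x, hx⟩ : L)).map L.val
  have hi : ∀ g ∈ Δ, IsIntegral ℚ (g : ℂ) := fun g hg => hKi K _ (hΔK g hg)
  obtain ⟨S, hS⟩ := id hΓ
  have : FiniteDimensional ℚ (adjoin ℚ ((fun g : ℂˣ => (g : ℂ)) '' S)) :=
    finiteDimensional_adjoin (by
      rintro _ ⟨g, hg, rfl⟩
      exact (hΓa g (hS ▸ Subgroup.subset_closure hg)).isIntegral)
  set K₀ := K ⊔ adjoin ℚ ((fun g : ℂˣ => (g : ℂ)) '' S) with hK₀
  have : NumberField K₀ := {}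
  obtain ⟨ε, hε, h1⟩ := kummer_gap Γ hΓ K₀ (by
    intro g hg
    rw [← hS] at hg
    induction hg using Subgroup.closure_induction with
    | mem x hx => exact (le_sup_right : _ ≤ K₀) (subset_adjoin _ _ ⟨x, hx, rfl⟩)
    | one => exact one_mem _
    | mul x y _ _ hx hy => exact mul_mem hx hy
    | inv x _ hx => simpa using hx)
  obtain ⟨c, hc, h2⟩ := base' K
  have hη : 0 < min (1 / 100) c / 6 := by positivity
  obtain ⟨T, hT, h3⟩ := dir_height Δ hΔ hi hη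
  refine ⟨min ε (min (1 / 100) c / 6 / T), by positivity,
    fun t m b n π hm hb hcop γ hγ δ hδ hγ0 hdiv => ?_⟩
  have hζ := Complex.isPrimitiveRoot_exp m hm
  obtain ⟨h4, h5, h6⟩ := h2 m hm _ hζ
  obtain ⟨⟨h7, -⟩, h8⟩ := tower' _ h4 c h6 b n π (fun i => (hb i).1) (fun i => (hb i).2.1)
    (fun i => (hb i).2.2.1) (fun i => h5 _ (hb i).2.2.2.1) hcop (fun i => (hb i).2.2.2.2)
    Finset.univ
  set L := K ⊔ adjoin ℚ {Complex.exp (2 * Real.pi * Complex.I / m)} ⊔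
    adjoin ℚ (π '' (Finset.univ : Finset (Fin t))) with hL
  have hγL : γ ∈ L := by
    refine (sup_le (le_sup_of_le_left le_sup_left) (adjoin_le_iff.2 ?_) : _ ≤ L) hγ
    rintro z (hz | ⟨i, rfl⟩)
    · have := NeZero.mk hm
      obtain ⟨i, -, rfl⟩ := hζ.eq_pow_of_pow_eq_one hz
      exact pow_mem ((le_sup_of_le_left le_sup_right : _ ≤ L) (mem_adjoin_simple_self _ _)) _
    · exact (le_sup_right : _ ≤ L) (subset_adjoin _ _ ⟨i, by simp, rfl⟩)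
  have hα : IsIntegral ℚ (γ * δ) := (hKi L γ hγL).mul (div_int hi hδ)
  have hα0 : γ * δ ≠ 0 := mul_ne_zero hγ0 hδ.1
  have hD : 0 < (minpoly (adjoin ℚ (divSet Γ)) (γ * δ)).natDegree :=
    minpoly.natDegree_pos hα.tower_top
  have hD' : (1 : ℝ) ≤ (minpoly (adjoin ℚ (divSet Γ)) (γ * δ)).natDegree := by exact_mod_cast hD
  rw [div_le_iff₀' (by positivity)]
  by_cases h9 : min (1 / 100) c / 6 / T ≤ absLogHeight₁ (γ * δ)
  · exact (min_le_right _ _).trans (h9.trans (le_mul_of_one_le_left (absH_nonneg hα) hD'))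
  rw [not_le, lt_div_iff₀' (by positivity)] at h9
  obtain ⟨s, hs, hsT, g, hg, h10⟩ := h3 δ hδ
  have hgK : (g : ℂ) ∈ K := hΔK g hg
  have h11 : IsIntegral ℚ (δ ^ s / g) := by
    rw [div_eq_mul_inv, ← zpow_neg_one]
    exact ((div_int hi hδ).pow s).mul (isIntegral_zpow (hi g hg) _)
  have h12 : γ ^ s * g = (γ * δ) ^ s * (δ ^ s / g) ^ (-1 : ℤ) := by
    have := hδ.1
    rw [zpow_neg_one, mul_pow]
    field_simp
  obtain ⟨j, hj, q, hq⟩ := h8 (γ ^ s * g) (mul_mem (pow_mem hγL s)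
    ((le_sup_of_le_left le_sup_left : _ ≤ L) hgK)) (mul_ne_zero (pow_ne_zero _ hγ0) g.ne_zero) ∅
    (Finset.disjoint_empty_right _) 0 (by simp) (by
      have h13 := absH_mul_le (hα.pow s) (isIntegral_zpow h11 (-1))
      have h14 := mul_le_mul_of_nonneg_right (Nat.cast_le (α := ℝ).2 hsT) (absH_nonneg hα)
      rw [← h12, absH_pow hα, absH_zpow h11] at h13
      rw [Finset.prod_empty, mul_one]
      norm_num at h13
      linarith)
  obtain ⟨-, N, hN, g', hg', h13⟩ := id hδ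
  have h14 : (γ * δ) ^ (s * j * N) ∈ K := by
    rw [mul_pow, pow_mul, pow_mul, mul_comm (s * j), pow_mul, ← h13,
      show (γ ^ s) ^ j = q / g ^ j by rw [← hq, mul_pow, mul_div_cancel_right₀ _ (by simp)]]
    exact mul_mem (pow_mem (div_mem (SubfieldClass.ratCast_mem _ _) (pow_mem hgK _)) _)
      (pow_mem (hΔK g' hg') _)
  have hM : 0 < s * j * N := by positivity
  set F := K₀ ⊔ adjoin ℚ (divSet Γ) with hF
  have h15 : (γ * δ) ^ (s * j * N) ∈ K₀ := (le_sup_left : _ ≤ K₀) h14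
  have h16 := pow_deg_mem F (fun z r hr hz => (le_sup_right : _ ≤ F) (subset_adjoin _ _
    ⟨fun h => by simp [h, hr.ne'] at hz, r, hr, 1, one_mem _, hz.symm⟩)) hα0 hM
    ((le_sup_left : _ ≤ F) h15)
  have h17 := h1 _ h16 (pow_ne_zero _ hα0) ⟨_, hM, by
    rw [pow_right_comm]; exact pow_mem h15 _⟩
    fun h => hdiv (div_of_pow (minpoly.natDegree_pos hα.tower_top) h)
  rw [absH_pow hα] at h17
  refine (min_le_left _ _).trans (h17.trans (mul_le_mul_of_nonneg_right (Nat.cast_le.2 ?_)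
    (absH_nonneg hα)))
  let := (inclusion (le_sup_right : adjoin ℚ (divSet Γ) ≤ F)).toAlgebra
  have : IsScalarTower (adjoin ℚ (divSet Γ)) F ℂ := .of_algebraMap_eq fun _ => rfl
  exact (natDegree_le_of_dvd (minpoly.dvd_map_of_isScalarTower (adjoin ℚ (divSet Γ)) F _)
    (Polynomial.map_ne_zero (minpoly.ne_zero hα.tower_top))).trans natDegree_map_le

end Pool.Agent.Lib.MP_f61260_nt
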