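import Pool.Agent.Lib.MP_f61260_nt.RadArch

/-!
Lattice indices.
-/

set_option autoImplicit false
set_option linter.unusedSectionVars false

open Module NumberField

namespace Pool.Agent.Lib.MP_f61260_nt

variable {K L : Type*} [Field K] [NumberField K] [Field L] [NumberField L] [Algebra K L]

variable (K) in
/-- The `𝓞 K`-span of a family. -/
def lat {ι : Type*} (v : ι → L) : AddSubgroup L :=
  (Submodule.span (𝓞 K) (Set.range v)).toAddSubgroup

variable (L) in
/-- The integers of `L`. -/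
def OL : AddSubgroup L := (algebraMap (𝓞 L) L).range.toAddSubgroup

theorem mem_OL {x : L} : x ∈ OL L ↔ IsIntegral ℤ x := by
  constructor
  · rintro ⟨y, rfl⟩
    exact RingOfIntegers.isIntegral_coe y
  · intro h
    exact ⟨⟨x, h⟩, rfl⟩

theorem lat_le {ι : Type*} {v : ι → L} {H : AddSubgroup L}
    (h : ∀ (c : 𝓞 K) (k : ι), c • v k ∈ H) : lat K v ≤ H := by
  intro x hx
  have key : ∀ c : 𝓞 K, c • x ∈ H := by
    refine Submodule.span_induction (p := fun x _ => ∀ c : 𝓞 K, c • x ∈ H) ?_ ?_ ?_ ?_ hx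
    · rintro _ ⟨k, rfl⟩ c
      exact h c k
    · intro c
      rw [smul_zero]
      exact H.zero_mem
    · intro x y _ _ hx hy c
      rw [smul_add]
      exact H.add_mem (hx c) (hy c)
    · intro a x _ hx c
      rw [smul_smul]
      exact hx _
  simpa using key 1

theorem smul_mem_lat {ι : Type*} (v : ι → L) (c : 𝓞 K) (k : ι) : c • v k ∈ lat K v :=
  Submodule.smul_mem _ c (Submodule.subset_span ⟨k, rfl⟩)

theorem lat_eq_closure {ι : Type*} (c : Basis ι K L) :
    lat K c = AddSubgroup.closure (Set.range ((integralBasis K).smulTower c)) := by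
  apply le_antisymm
  · refine lat_le fun a k => ?_
    rw [← (RingOfIntegers.basis K).sum_repr a, Finset.sum_smul]
    refine AddSubgroup.sum_mem _ fun i _ => ?_
    rw [smul_assoc]
    refine AddSubgroup.zsmul_mem _ (AddSubgroup.subset_closure (Set.mem_range.2 ⟨(i, k), ?_⟩)) _
    rw [Basis.smulTower_apply, integralBasis_apply, algebraMap_smul]
  · rw [AddSubgroup.closure_le]
    rintro _ ⟨⟨i, k⟩, rfl⟩
    rw [Basis.smulTower_apply, integralBasis_apply, algebraMap_smul]
    exact smul_mem_lat _ _ _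

theorem OL_eq_closure {κ : Type*} (e : Free.ChooseBasisIndex ℤ (𝓞 L) ≃ κ) :
    OL L = AddSubgroup.closure (Set.range ((integralBasis L).reindex e)) := by
  rw [Basis.range_reindex, ← Submodule.span_int_eq_addSubgroupClosure]
  ext x
  exact (mem_span_integralBasis L).symm

theorem index_lat {ι : Type*} [Fintype ι] [DecidableEq ι] (b c : Basis ι K L)
    (hb : lat K b ≤ OL L) (hc : lat K c ≤ OL L) :
    ((lat K c).relIndex (OL L) : ℚ) = (lat K b).relIndex (OL L) * |Algebra.norm ℚ (b.det c)| ∧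
      (lat K c).relIndex (OL L) ≠ 0 := by
  classical
  set e := (integralBasis L).indexEquiv ((integralBasis K).smulTower b)
  set g := (integralBasis L).reindex e
  have h1 := AddSubgroup.relIndex_eq_abs_det _ _ hb _ g (lat_eq_closure b) (OL_eq_closure e)
  have h2 := AddSubgroup.relIndex_eq_abs_det _ _ hc _ g (lat_eq_closure c) (OL_eq_closure e)
  constructor
  · rw [h1, h2, ← abs_mul, ← Basis.det_mul_det g ((integralBasis K).smulTower b)]
    congr 2
    set f : L →ₗ[K] L := b.constr K c with hf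
    have h3 : (⇑((integralBasis K).smulTower c)) =
        (f.restrictScalars ℚ) ∘ ((integralBasis K).smulTower b) := by
      ext ⟨i, k⟩
      simp [hf]
    have h4 : (⇑c) = f ∘ b := by
      ext k
      simp [hf]
    rw [h3, Basis.det_comp, Basis.det_self, mul_one, LinearMap.det_restrictScalars, h4,
      Basis.det_comp, Basis.det_self, mul_one]
  · intro h0
    rw [h0, Nat.cast_zero, eq_comm, abs_eq_zero] at h2
    exact (g.isUnit_det _).ne_zero h2

/-- An ideal of `𝓞 L` as a subgroup of `L`. -/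
def idl (J : Ideal (𝓞 L)) : AddSubgroup L :=
  J.toAddSubgroup.map (algebraMap (𝓞 L) L).toAddMonoidHom

theorem idl_le (J : Ideal (𝓞 L)) : idl J ≤ OL L := by
  rintro _ ⟨y, -, rfl⟩
  exact ⟨y, rfl⟩

theorem relIndex_idl (J : Ideal (𝓞 L)) : (idl J).relIndex (OL L) = Ideal.absNorm J := by
  have : OL L = (⊤ : AddSubgroup (𝓞 L)).map (algebraMap (𝓞 L) L).toAddMonoidHom := by
    ext x
    simp [OL]
  rw [this, idl, AddSubgroup.relIndex_map_map_of_injective _ _
    (FaithfulSMul.algebraMap_injective (𝓞 L) L), AddSubgroup.relIndex_top_right]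
  rfl

theorem smul_mem_idl {J : Ideal (𝓞 L)} {x : L} (hx : x ∈ idl J) (c : 𝓞 K) : c • x ∈ idl J := by
  obtain ⟨y, hy, rfl⟩ := hx
  refine ⟨c • y, ?_, ?_⟩
  · rw [Algebra.smul_def]
    exact J.mul_mem_left _ hy
  · simp [Algebra.smul_def]
    exact Or.inl rfl

theorem absNorm_mul_index_le {ι : Type*} [Fintype ι] [DecidableEq ι] (b : Basis ι K L)
    (hb : lat K b ≤ OL L) (v : ι → L) (hv : b.det v ≠ 0) (J : Ideal (𝓞 L))
    (hJ : ∀ k, v k ∈ idl J) {G : Type*} [AddCommGroup G] (θ : G →+ L) (hθ : ∀ y, θ y ∈ idl J) :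
    (Ideal.absNorm J * ((lat K v).comap θ).index : ℚ) ≤
      (lat K b).relIndex (OL L) * |Algebra.norm ℚ (b.det v)| ∧
      ((lat K v).comap θ).index ≠ 0 := by
  obtain ⟨hli, hsp⟩ := (b.is_basis_iff_det (v := v)).2 (isUnit_iff_ne_zero.2 hv)
  set c : Basis ι K L := Basis.mk hli hsp.ge with hc
  have hcv : (⇑c) = v := Basis.coe_mk _ _
  have h1 : lat K v ≤ idl J := lat_le fun a k => smul_mem_idl (hJ k) a
  obtain ⟨h2, h3⟩ := index_lat b c hb (hcv ▸ h1.trans (idl_le J))
  rw [hcv] at h2 h3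
  have h4 := AddSubgroup.relIndex_mul_relIndex (lat K v) (idl J) (OL L) h1 (idl_le J)
  have h5 : (lat K v).relIndex (idl J) ≠ 0 := by
    intro h0
    rw [h0, zero_mul] at h4
    exact h3 h4.symm
  have h6 : θ.range ≤ idl J := by
    rintro _ ⟨y, rfl⟩
    exact hθ y
  rw [AddSubgroup.index_comap]
  constructor
  · rw [← h2, ← h4, relIndex_idl, mul_comm]
    exact_mod_cast Nat.mul_le_mul_right _ (AddSubgroup.relIndex_le_of_le_right h6 h5)
  · exact fun h0 => h5 (AddSubgroup.relIndex_eq_zero_of_le_right h6 h0)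

theorem absNorm_le {ι : Type*} [Fintype ι] [DecidableEq ι] (b : Basis ι K L)
    (hb : lat K b ≤ OL L) (v : ι → L) (hv : b.det v ≠ 0) (J : Ideal (𝓞 L))
    (hJ : ∀ k, v k ∈ idl J) :
    (Ideal.absNorm J : ℚ) ≤ (lat K b).relIndex (OL L) * |Algebra.norm ℚ (b.det v)| := by
  obtain ⟨h1, h2⟩ := absNorm_mul_index_le b hb v hv J hJ (0 : ℤ →+ L)
    (fun _ => (idl J).zero_mem)
  refine le_trans ?_ h1
  refine le_mul_of_one_le_right (Nat.cast_nonneg _) ?_
  exact_mod_cast Nat.one_le_iff_ne_zero.2 h2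

theorem index_map_matrix {t : ℕ} (T : Matrix (Fin t) (Fin t) (𝓞 K)) (hT : T.det ≠ 0)
    (H : AddSubgroup (Fin t → 𝓞 K)) :
    (H.map (Matrix.toLin' T).toAddMonoidHom).index
      = H.index * (Algebra.norm ℤ T.det).natAbs := by
  have hinj : Function.Injective (Matrix.toLin' T) := by
    rw [← LinearMap.ker_eq_bot, Matrix.ker_toLin'_eq_bot_iff]
    exact fun v hv => Matrix.eq_zero_of_mulVec_eq_zero hT hv
  rw [AddSubgroup.index_map_of_injective H (f := (Matrix.toLin' T).toAddMonoidHom) hinj]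
  congr 1
  set f : (Fin t → 𝓞 K) →ₗ[ℤ] (Fin t → 𝓞 K) := (Matrix.toLin' T).restrictScalars ℤ with hf
  have h1 := Submodule.natAbs_det_equiv (LinearMap.range f) (LinearEquiv.ofInjective f hinj)
  have h2 : (LinearMap.range f).subtype ∘ₗ AddMonoidHom.toIntLinearMap
      ((LinearEquiv.ofInjective f hinj : (Fin t → 𝓞 K) ≃ₗ[ℤ] LinearMap.range f) :
        (Fin t → 𝓞 K) →+ LinearMap.range f) = f := by
    ext x
    rfl
  rw [h2, hf, LinearMap.det_restrictScalars, LinearMap.det_toLin'] at h1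
  rw [h1]
  rfl

theorem index_ge_of_smul_le {t : ℕ} (Z : AddSubgroup (Fin t → 𝓞 K)) (hZ : Z.index ≠ 0)
    (T : Matrix (Fin t) (Fin t) (𝓞 K)) (hT : T.det ≠ 0) (c₀ : 𝓞 K) (hc₀ : c₀ ≠ 0)
    (I : Ideal (𝓞 K)) (h : ∀ y ∈ Z, ∃ w : Fin t → 𝓞 K, (∀ j, w j ∈ I) ∧ T.mulVec w = c₀ • y) :
    Ideal.absNorm I ^ t * (Algebra.norm ℤ T.det).natAbs ≤
      Z.index * (Algebra.norm ℤ c₀).natAbs ^ t := by
  have hd : (Matrix.diagonal fun _ : Fin t => c₀).det = c₀ ^ t := by simp
  have h1 := index_map_matrix (Matrix.diagonal fun _ : Fin t => c₀)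
    (by rw [hd]; exact pow_ne_zero _ hc₀) Z
  have h2 := index_map_matrix T hT (AddSubgroup.pi Set.univ fun _ => I.toAddSubgroup)
  rw [hd, map_pow, Int.natAbs_pow] at h1
  rw [AddSubgroup.index_pi, Finset.prod_const, Finset.card_univ, Fintype.card_fin,
    ← Ideal.absNorm_eq_index] at h2
  rw [← h1, ← h2]
  refine Nat.le_of_dvd (Nat.pos_of_ne_zero ?_) (AddSubgroup.index_dvd_of_le ?_)
  · rw [h1]
    refine mul_ne_zero hZ (pow_ne_zero _ ?_)
    rw [Int.natAbs_ne_zero, Algebra.norm_ne_zero_iff]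
    exact hc₀
  · rintro _ ⟨y, hy, rfl⟩
    obtain ⟨w, hw, hTw⟩ := h y hy
    refine ⟨w, fun j _ => hw j, ?_⟩
    simp only [LinearMap.toAddMonoidHom_coe, Matrix.toLin'_apply, hTw]
    ext j
    simp [Matrix.mulVec_diagonal]

end Pool.Agent.Lib.MP_f61260_nt
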