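import Pool.Agent.Lib.MP_f61260_nt.RadStepB
import Pool.Agent.Lib.MP_f61260_nt.RadIndex
import Pool.Agent.Lib.MP_f61260_nt.RadBeta

/-!
Small points of a radical extension.
-/

set_option autoImplicit false
set_option linter.unusedSectionVars false

open Module NumberField Polynomial Height

namespace Pool.Agent.Lib.MP_f61260_nt

variable {K L : Type*} [Field K] [NumberField K] [Field L] [NumberField L] [Algebra K L]

theorem main1 (pb : PowerBasis K L) (a : 𝓞 K) (ha : a ≠ 0)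
    (hπ : pb.gen ^ pb.dim = algebraMap K L a) (e : ℕ) (he1 : 2 * (e + 1) ≤ pb.dim)
    (he2 : 4 * e ≤ pb.dim) (γ : L) (hγ : γ ≠ 0)
    (hA : (idx pb * mulHeight₁ γ) ^ pb.dim <
      ((|Algebra.norm ℚ (a : K)| : ℚ) : ℝ) ^ ((e + 1) * (pb.dim - (e + 1))))
    (hB : 2 ^ finrank ℚ L * (mulHeight₁ γ ^ 2 * idx pb) ^ 2 <
      4 ^ (finrank ℚ K * (pb.dim - 4 * e))) :
    ∃ β : K, β ≠ 0 ∧ ∃ k : ℤ, k.natAbs ≤ e ∧ γ = algebraMap K L β * pb.gen ^ k := by
  set f := algebraMap (𝓞 K) K with hf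
  have hfi : Function.Injective f := FaithfulSMul.algebraMap_injective _ _
  have hNa : (1 : ℝ) ≤ ((|Algebra.norm ℚ (a : K)| : ℚ) : ℝ) := by
    rw [abs_norm_eq, ← natAbs_norm]
    exact_mod_cast Nat.one_le_iff_ne_zero.2
      (Int.natAbs_ne_zero.2 (Algebra.norm_ne_zero_iff.2 ha))
  have hdeg : ∀ (P : K[X]) (m : ℕ), 0 < m → P.degree < m → P.natDegree < m := by
    intro P m hm h
    rcases eq_or_ne P 0 with rfl | h0
    · simpa using hm
    · exact (natDegree_lt_iff_degree_lt h0).2 h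
  obtain ⟨A, B, hA0, hB0, hc, hAd, hBd, hAB⟩ := chainR (K := K) pb.gen γ hγ pb.dim (e + 1) he1
    (fun P hP h => eq_zero_of_aeval pb (degree_le_natDegree.trans_lt (by exact_mod_cast hP)) h)
    (fun s h1 h2 => by
      have hn : pb.dim = s + (pb.dim - s) := by omega
      obtain ⟨V, W, h3, h4, h5, h6⟩ := stepA pb a ha hn hπ γ (by
        rw [← hn]
        refine hA.trans_le (pow_le_pow_right₀ hNa ?_)
        obtain ⟨u, rfl⟩ := Nat.exists_eq_add_of_le h1
        obtain ⟨w, hw⟩ : ∃ w, pb.dim = e + 1 + u + (e + 1) + w := ⟨pb.dim - (e + 1 + u + (e + 1)),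
          by omega⟩
        rw [show pb.dim - (e + 1) = e + 1 + u + w by omega,
          show pb.dim - (e + 1 + u) = e + 1 + w by omega]
        nlinarith [Nat.zero_le (u * w)])
      exact ⟨V, W, h3, hdeg V s (by omega) h4, hdeg W _ (by omega) h5, h6⟩)
  obtain ⟨b₁, hb₁, h1⟩ := IsLocalization.integerNormalization_spec (nonZeroDivisors (𝓞 K)) A
  obtain ⟨b₂, hb₂, h2⟩ := IsLocalization.integerNormalization_spec (nonZeroDivisors (𝓞 K)) B
  have hb : f (b₁ * b₂) ≠ 0 := (map_ne_zero_iff f hfi).2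
    (mul_ne_zero (nonZeroDivisors.ne_zero hb₁) (nonZeroDivisors.ne_zero hb₂))
  obtain ⟨A', hA'⟩ : ∃ A' : (𝓞 K)[X], A'.map f = C (f (b₁ * b₂)) * A := by
    refine ⟨C b₂ * IsLocalization.integerNormalization (nonZeroDivisors (𝓞 K)) A, ?_⟩
    rw [Polynomial.map_mul, h1, map_C, ← algebraMap_smul K, smul_eq_C_mul, map_mul, map_mul]
    ring
  obtain ⟨B', hB'⟩ : ∃ B' : (𝓞 K)[X], B'.map f = C (f (b₁ * b₂)) * B := by
    refine ⟨C b₁ * IsLocalization.integerNormalization (nonZeroDivisors (𝓞 K)) B, ?_⟩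
    rw [Polynomial.map_mul, h2, map_C, ← algebraMap_smul K, smul_eq_C_mul, map_mul, map_mul]
    ring
  have hA0' : A' ≠ 0 := fun h => mul_ne_zero (C_ne_zero.2 hb) hA0 (by rw [← hA', h]; simp)
  have hB0' : B' ≠ 0 := fun h => mul_ne_zero (C_ne_zero.2 hb) hB0 (by rw [← hB', h]; simp)
  have hc' : IsCoprime (A'.map f) (B'.map f) := by
    rw [hA', hB']
    exact (isCoprime_mul_unit_left (isUnit_C.2 hb.isUnit) _ _).2 hc
  have hAd' : A'.natDegree ≤ e := by
    rw [← natDegree_map_eq_of_injective hfi, hA', natDegree_C_mul hb]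
    omega
  have hBd' : B'.natDegree ≤ e := by
    rw [← natDegree_map_eq_of_injective hfi, hB', natDegree_C_mul hb]
    omega
  have hAB' : γ * aeval pb.gen B' = aeval pb.gen A' := by
    rw [← aeval_map_algebraMap K, ← aeval_map_algebraMap K _ A', hA', hB', map_mul (aeval pb.gen),
      map_mul (aeval pb.gen), ← hAB]
    ring
  have key : ∀ (P Q : (𝓞 K)[X]) (δ : L), P ≠ 0 → Q ≠ 0 → IsCoprime (P.map f) (Q.map f) →
      P.natDegree ≤ e → Q.natDegree ≤ P.natDegree → δ * aeval pb.gen Q = aeval pb.gen P →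
      mulHeight₁ δ = mulHeight₁ γ → ∃ i j a b, P = monomial i a ∧ Q = monomial j b := by
    intro P Q δ hP hQ hPQ h3 h4 h5 h6
    refine stepB pb a ha (d := P.natDegree * 2) (t := pb.dim - 4 * P.natDegree) (by omega) hπ
      P Q hP hQ hPQ rfl (by omega) δ h5 ?_
    rw [h6]
    exact hB.trans_le (pow_le_pow_right₀ (by norm_num) (Nat.mul_le_mul_left _ (by omega)))
  obtain ⟨i, j, c, c', rfl, rfl⟩ : ∃ i j a b, A' = monomial i a ∧ B' = monomial j b := by
    rcases le_total B'.natDegree A'.natDegree with h | h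
    · exact key A' B' γ hA0' hB0' hc' hAd' h hAB' rfl
    · obtain ⟨i, j, c, c', h3, h4⟩ := key B' A' γ⁻¹ hB0' hA0' hc'.symm hBd' h
        (by rw [← hAB', inv_mul_cancel_left₀ hγ]) (mulHeight₁_inv γ)
      exact ⟨j, i, c', c, h4, h3⟩
  have hc0 : c ≠ 0 := by simpa using hA0'
  have hc0' : c' ≠ 0 := by simpa using hB0'
  rw [natDegree_monomial_eq _ hc0] at hAd'
  rw [natDegree_monomial_eq _ hc0'] at hBd'
  have hπ0 : pb.gen ≠ 0 := by
    intro h
    rw [h, zero_pow pb.dim_pos.ne', eq_comm, map_eq_zero] at hπ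
    exact ha (by exact_mod_cast hπ)
  have h3 : f c' ≠ 0 := (map_ne_zero_iff f hfi).2 hc0'
  refine ⟨f c / f c', div_ne_zero ((map_ne_zero_iff f hfi).2 hc0) h3, i - j, by omega, ?_⟩
  have h4 : algebraMap K L (f c') ≠ 0 := (_root_.map_ne_zero _).2 h3
  rw [aeval_monomial, aeval_monomial, IsScalarTower.algebraMap_apply (𝓞 K) K L,
    IsScalarTower.algebraMap_apply (𝓞 K) K L c] at hAB'
  rw [map_div₀, zpow_sub₀ hπ0, zpow_natCast, zpow_natCast]
  field_simp
  linear_combination hAB'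

theorem main2 (a : ℤ) (ha : Squarefree a) (h2 : 2 ≤ |a|) (n : ℕ) (π : L) (hπ : π ^ n = a)
    (hL : Algebra.adjoin K {π} = ⊤) (hd : IsCoprime (discr K) (a * n)) (γ : L) (hγ : γ ≠ 0)
    (h : logHeight₁ γ / finrank ℚ L +
      ∑ q ∈ n.primeFactors.filter fun q : ℕ => (q : ℤ) ^ 2 ∣ a ^ q - a, Real.log q / (q - 1)
        < 3 / 100) :
    ∃ β : K, β ≠ 0 ∧ ∃ k : ℤ, γ = algebraMap K L β * π ^ k ∧
      mulHeight₁ (algebraMap K L β) ≤ mulHeight₁ γ ^ 3 := by
  have hn0 : n ≠ 0 := by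
    rintro rfl
    rw [pow_zero, eq_comm, ← Int.cast_one, Int.cast_inj] at hπ
    simp [hπ] at h2
  have hda := hd.of_mul_right_left
  set pb := PowerBasis.ofAdjoinEqTop (IsIntegral.of_finite K π) hL with hpb
  have hgen : pb.gen = π := rfl
  have hn : pb.dim = n := by
    refine le_antisymm ?_ (Nat.le_of_dvd pb.dim_pos ?_)
    · rw [← pb.natDegree_minpoly, ← natDegree_X_pow_sub_C (n := n) (r := (a : K))]
      exact natDegree_le_of_dvd (minpoly.dvd K _ (by simp [hgen, hπ]))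
        (monic_X_pow_sub_C _ hn0).ne_zero
    · rw [← pb.finrank]
      exact finrank_eq_of_pow a ha h2 hda hπ
  suffices ∃ β : K, β ≠ 0 ∧ ∃ k : ℤ, 2 * k.natAbs ≤ n ∧ γ = algebraMap K L β * π ^ k by
    obtain ⟨β, hβ, k, hk, rfl⟩ := this
    exact ⟨β, hβ, k, rfl, height_beta a ha hda hβ hn0 hπ hk⟩
  rcases eq_or_lt_of_le (Nat.one_le_iff_ne_zero.2 hn0) with rfl | hn1
  · have h3 : γ ∈ Algebra.adjoin K {π} := hL ▸ Algebra.mem_top
    rw [Algebra.adjoin_singleton_eq_range_aeval] at h3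
    obtain ⟨P, rfl⟩ := h3
    rw [pow_one, ← map_intCast (algebraMap K L)] at hπ
    refine ⟨P.eval (a : K), fun h0 => hγ ?_, 0, by simp, ?_⟩
    · simp [hπ, aeval_algebraMap_apply_eq_algebraMap_eval, h0, - map_intCast]
    · simp [hπ, aeval_algebraMap_apply_eq_algebraMap_eval, - map_intCast]
  subst hn
  set W := ∑ q ∈ pb.dim.primeFactors.filter fun q : ℕ => (q : ℤ) ^ 2 ∣ a ^ q - a,
    Real.log q / (q - 1) with hW
  have hterm : ∀ q ∈ pb.dim.primeFactors.filter fun q : ℕ => (q : ℤ) ^ 2 ∣ a ^ q - a,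
      0 ≤ Real.log q / ((q : ℝ) - 1) := fun q hq => by
    have : (1 : ℝ) < q := by
      exact_mod_cast (Nat.prime_of_mem_primeFactors (Finset.mem_filter.1 hq).1).one_lt
    exact div_nonneg (Real.log_nonneg this.le) (by linarith)
  have hN : (0 : ℝ) < finrank ℚ L := by exact_mod_cast finrank_pos
  have hh := zero_le_logHeight₁ γ
  have hl2 := Real.log_two_gt_d9
  have hI := log_idx_le pb a ha hπ hd (fun h3 => by
    have h4 := Finset.single_le_sum hterm (Finset.mem_filter.2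
      ⟨Nat.mem_primeFactors.2 ⟨Nat.prime_two, h3.1, hn0⟩, by exact_mod_cast h3.2⟩)
    have := div_nonneg hh hN.le
    norm_num at h4
    linarith)
  have hπ' : pb.gen ^ pb.dim = algebraMap K L (a : 𝓞 K) := by simpa [hgen] using hπ
  have hI0 : (0 : ℝ) < idx pb :=
    Nat.cast_pos.2 (Nat.pos_of_ne_zero (idx_ne_zero pb (isIntegral_gen pb a hπ')))
  have hH := mulHeight₁_pos γ
  have h3 : Real.log (idx pb) + 2 * Real.log (mulHeight₁ γ) < 6 / 100 * finrank ℚ L := by
    rw [div_add' _ _ _ hN.ne', div_lt_iff₀ hN, logHeight₁] at h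
    rw [← hW] at hI
    linarith
  have hND : (finrank ℚ L : ℝ) = finrank ℚ K * pb.dim := by
    rw [← finrank_mul_finrank ℚ K L, pb.finrank, Nat.cast_mul]
  have hD : (0 : ℝ) < finrank ℚ K := by exact_mod_cast finrank_pos
  have hn' : (0 : ℝ) < pb.dim := by exact_mod_cast pb.dim_pos
  obtain ⟨β, hβ, k, hk, hγk⟩ := main1 pb a (by exact_mod_cast ha.ne_zero) hπ' (pb.dim / 10)
    (by omega) (by omega) γ hγ (by
      have h4 : ((|Algebra.norm ℚ ((a : 𝓞 K) : K)| : ℚ) : ℝ) = ((|a| : ℤ) : ℝ) ^ finrank ℚ K := by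
        rw [show ((a : 𝓞 K) : K) = algebraMap ℚ K a by simp, Algebra.norm_algebraMap]
        simp
      have h5 : (2 : ℝ) ≤ ((|a| : ℤ) : ℝ) := by exact_mod_cast h2
      rw [h4, ← Real.log_lt_log_iff (by positivity) (by positivity), Real.log_pow, Real.log_pow,
        Real.log_pow, Real.log_mul hI0.ne' hH.ne', Nat.cast_mul, Nat.cast_sub (by omega)]
      have h6 := Real.log_le_log two_pos h5
      have h7 : (pb.dim : ℝ) ≤ 10 * ((pb.dim / 10 + 1 : ℕ) : ℝ) := by exact_mod_cast (by omega)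
      have h8 : 2 * ((pb.dim / 10 + 1 : ℕ) : ℝ) ≤ pb.dim := by exact_mod_cast (by omega)
      generalize ((pb.dim / 10 + 1 : ℕ) : ℝ) = x at h7 h8 ⊢
      have h9 : 9 / 100 * (pb.dim : ℝ) ^ 2 ≤ x * (pb.dim - x) := by nlinarith
      calc _ ≤ pb.dim * (Real.log (idx pb) + 2 * Real.log (mulHeight₁ γ)) := by
            gcongr
            exact le_mul_of_one_le_left hh one_le_two
        _ < pb.dim * (6 / 100 * finrank ℚ L) := by gcongr
        _ ≤ 9 / 100 * (pb.dim : ℝ) ^ 2 * (finrank ℚ K * 0.6931471803) := by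
            rw [hND]
            nlinarith [mul_pos hD (pow_pos hn' 2)]
        _ ≤ _ := by
            gcongr
            · nlinarith
            · linarith) (by
      rw [← Real.log_lt_log_iff (by positivity) (by positivity), Real.log_mul (by positivity)
        (by positivity), Real.log_pow, Real.log_pow, Real.log_pow, Real.log_mul (by positivity)
        hI0.ne', Real.log_pow, Nat.cast_mul, Nat.cast_sub (by omega),
        show (4 : ℝ) = 2 ^ 2 by norm_num, Real.log_pow]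
      have h7 : 10 * ((pb.dim / 10 : ℕ) : ℝ) ≤ pb.dim := by exact_mod_cast (by omega)
      push_cast
      have h8 : finrank ℚ K * (6 / 10 * (pb.dim : ℝ)) ≤
          finrank ℚ K * (pb.dim - 4 * ((pb.dim / 10 : ℕ) : ℝ)) := by
        gcongr
        linarith
      rw [hND] at h3 ⊢
      nlinarith [mul_pos hD hn'])
  exact ⟨β, hβ, k, by omega, hγk⟩

end Pool.Agent.Lib.MP_f61260_nt
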