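import Mathlib

/-!
Integral closure of `ℤ_q [X] / (X ^ n - u)`: local computations.
-/

set_option autoImplicit false
set_option linter.unusedSectionVars false

open Polynomial

namespace Pool.Agent.Lib.MP_f61260_nt

section Ultra

variable {Ω : Type*} [NormedField Ω] [IsUltrametricDist Ω]

variable (Ω) in
/-- The closed unit ball. -/
def ball1 : Subring Ω where
  carrier := {z | ‖z‖ ≤ 1}
  mul_mem' {x y} hx hy := by
    rw [Set.mem_ofPred_eq, norm_mul]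
    exact mul_le_one₀ hx (norm_nonneg _) hy
  one_mem' := norm_one.le
  add_mem' {x y} hx hy := (IsUltrametricDist.norm_add_le_max x y).trans (max_le hx hy)
  zero_mem' := by simp
  neg_mem' {x} hx := by simpa using hx

theorem mem_ball1 {z : Ω} : z ∈ ball1 Ω ↔ ‖z‖ ≤ 1 := Iff.rfl

theorem norm_add_of_lt {x y : Ω} (h : ‖y‖ < ‖x‖) : ‖x + y‖ = ‖x‖ := by
  rw [IsUltrametricDist.norm_add_eq_max_of_norm_ne_norm h.ne', max_eq_left h.le]

theorem norm_le_of_dvd {x y : ball1 Ω} (h : x ∣ y) : ‖(y : Ω)‖ ≤ ‖(x : Ω)‖ := by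
  obtain ⟨z, rfl⟩ := h
  rw [Subring.coe_mul, norm_mul]
  exact mul_le_of_le_one_right (norm_nonneg _) z.2

theorem norm_det_le {ι : Type*} [Fintype ι] [DecidableEq ι] (M : Matrix ι ι Ω)
    (h : ∀ i j, ‖M i j‖ ≤ 1) : ‖M.det‖ ≤ 1 := by
  have := (ball1 Ω).subtype.map_det (Matrix.of fun i j => (⟨M i j, h i j⟩ : ball1 Ω))
  rw [show (ball1 Ω).subtype.mapMatrix (Matrix.of fun i j => (⟨M i j, h i j⟩ : ball1 Ω)) = M
    from rfl] at this
  rw [← this]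
  exact (Matrix.of fun i j => (⟨M i j, h i j⟩ : ball1 Ω)).det.2

theorem unimod {ι : Type*} [Fintype ι] [DecidableEq ι] (W : Matrix ι ι Ω)
    (h : ∀ i j, ‖W i j‖ ≤ 1) (hd : ‖W.det‖ = 1) (z : ι → Ω) (hz : ∀ i, ‖W.mulVec z i‖ ≤ 1)
    (i : ι) : ‖z i‖ ≤ 1 := by
  have h1 : W.cramer (W.mulVec z) i = W.det * z i := by
    rw [Matrix.cramer_eq_adjugate_mulVec, Matrix.mulVec_mulVec, Matrix.adjugate_mul,
      Matrix.smul_mulVec, Matrix.one_mulVec, Pi.smul_apply, smul_eq_mul]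
  have h2 := norm_det_le (W.updateCol i (W.mulVec z)) fun j k => by
    rw [Matrix.updateCol_apply]
    split_ifs
    · exact hz j
    · exact h j k
  rwa [← Matrix.cramer_apply, h1, norm_mul, hd, one_mul] at h2

theorem norm_eq_one_of_pow {z : Ω} {n : ℕ} (hn : n ≠ 0) (h : ‖z ^ n‖ = 1) : ‖z‖ = 1 := by
  rw [norm_pow] at h
  exact (pow_eq_one_iff_of_nonneg (norm_nonneg _) hn).1 h

theorem norm_sub_root {α β : Ω} {m : ℕ} (hm : ‖(m : Ω)‖ = 1) (hα : α ^ m = 1) (hβ : β ^ m = 1)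
    (h : α ≠ β) : ‖α - β‖ = 1 := by
  have hm0 : m ≠ 0 := by
    rintro rfl
    simp at hm
  have h1 := norm_eq_one_of_pow hm0 (by rw [hα, norm_one])
  have h2 := norm_eq_one_of_pow hm0 (by rw [hβ, norm_one])
  set x : ball1 Ω := ⟨α, h1.le⟩
  set y : ball1 Ω := ⟨β, h2.le⟩
  refine le_antisymm (x - y).2 ?_
  have h3 : ∑ i ∈ Finset.range m, x ^ i * y ^ (m - 1 - i) = 0 := by
    have h4 := Commute.geom_sum₂ (Commute.all α β) h m
    rw [hα, hβ, sub_self, zero_div] at h4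
    ext
    simpa using h4
  have h4 := norm_le_of_dvd ((dvd_geom_sum₂_iff_of_dvd_sub (n := m) (dvd_refl (x - y))).1
    (by rw [h3]; exact dvd_zero _))
  simpa [x, y, hm, h2] using h4

theorem norm_xi {ξ : Ω} {q : ℕ} (hq : q.Prime) (hξ : ξ ^ q = 1) (h1 : ξ ≠ 1) :
    ‖ξ - 1‖ ^ (q - 1) = ‖(q : Ω)‖ := by
  have hp : IsPrimitiveRoot ξ q := by
    have := Fact.mk hq
    rw [← orderOf_eq_prime hξ h1]
    exact IsPrimitiveRoot.orderOf ξ
  set x : ball1 Ω := ⟨ξ, (norm_eq_one_of_pow hq.ne_zero (by rw [hξ, norm_one])).le⟩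
  have hx : IsPrimitiveRoot x q := IsPrimitiveRoot.of_map_of_injective (f := (ball1 Ω).subtype) hp
    Subtype.val_injective
  have h2 := IsPrimitiveRoot.prod_one_sub_pow_eq_order (n := q - 1) (μ := ξ)
    (by rwa [Nat.sub_add_cancel hq.pos])
  rw [← Nat.cast_add_one, Nat.sub_add_cancel hq.pos] at h2
  rw [← h2, norm_prod, ← Finset.card_range (q - 1), ← Finset.prod_const, Finset.card_range]
  refine Finset.prod_congr rfl fun k hk => ?_
  have h3 := hx.associated_sub_one_pow_sub_one_of_coprime (j := k + 1)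
    ((Nat.coprime_of_lt_prime (by omega) (by have := Finset.mem_range.1 hk; omega) hq).symm)
  rw [norm_sub_rev 1]
  exact le_antisymm (norm_le_of_dvd h3.symm.dvd) (norm_le_of_dvd h3.dvd)

theorem norm_sub_pow {ρ c : Ω} (hρ : ‖ρ‖ ≤ 1) (hc : ‖c‖ ≤ 1) {q : ℕ} (hq : q.Prime)
    (hq1 : ‖(q : Ω)‖ < 1) (k : ℕ) (h0 : ‖(q : Ω)‖ ≤ ‖ρ ^ q ^ k - c ^ q ^ k‖)
    (h1 : ‖ρ ^ q ^ k - c ^ q ^ k‖ < 1) (hq0 : (q : Ω) ≠ 0) :
    ‖ρ - c‖ ^ q ^ k = ‖ρ ^ q ^ k - c ^ q ^ k‖ := by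
  set x : ball1 Ω := ⟨ρ, hρ⟩
  set y : ball1 Ω := ⟨c, hc⟩
  obtain ⟨r, hr⟩ := exists_add_pow_prime_pow_eq hq (x - y) y k
  have h2 : (ρ - c) ^ q ^ k = (ρ ^ q ^ k - c ^ q ^ k) + -(q * ((ρ - c) * (c * r))) := by
    have := congrArg Subtype.val hr
    simp only [x, y, sub_add_cancel] at this
    push_cast at this
    linear_combination -this
  have h3 : ‖-(q * ((ρ - c) * (c * r)))‖ ≤ ‖(q : Ω)‖ * ‖ρ - c‖ := by
    rw [norm_neg, norm_mul, norm_mul]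
    gcongr
    exact mul_le_of_le_one_right (norm_nonneg _) (y * r).2
  have h4 : ‖ρ - c‖ < 1 := by
    refine lt_of_pow_lt_pow_left₀ (q ^ k) zero_le_one ?_
    rw [one_pow, ← norm_pow, h2]
    refine (IsUltrametricDist.norm_add_le_max _ _).trans_lt (max_lt h1 (h3.trans_lt ?_))
    exact (mul_le_of_le_one_right (norm_nonneg _) (x - y).2).trans_lt hq1
  rw [← norm_pow, h2, norm_add_of_lt]
  exact (h3.trans_lt (mul_lt_of_lt_one_right (norm_pos_iff.2 hq0) h4)).trans_le h0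

end Ultra

variable {q : ℕ} [hq : Fact q.Prime]

theorem norm_int (c : ℤ_[q]) : ‖algebraMap ℤ_[q] (PadicAlgCl q) c‖ = ‖c‖ := by
  rw [IsScalarTower.algebraMap_apply ℤ_[q] ℚ_[q] (PadicAlgCl q)]
  exact PadicAlgCl.norm_extends q c

theorem norm_q : ‖(q : PadicAlgCl q)‖ = (q : ℝ)⁻¹ := by
  rw [← PadicInt.norm_p, ← norm_int, map_natCast]

theorem norm_q_lt : ‖(q : PadicAlgCl q)‖ < 1 := by
  rw [norm_q]
  exact inv_lt_one_of_one_lt₀ (by exact_mod_cast hq.out.one_lt)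

theorem norm_q_pos : 0 < ‖(q : PadicAlgCl q)‖ :=
  norm_pos_iff.2 (Nat.cast_ne_zero.2 hq.out.ne_zero)

/-- Multiplication by `x` maps the integral functions on `Z` into `ℤ_q [X]`. -/
def Good (Z : Set (PadicAlgCl q)) (x : PadicAlgCl q → PadicAlgCl q) : Prop :=
  ∀ P : ℚ_[q][X], (∀ ρ ∈ Z, ‖aeval ρ P‖ ≤ 1) →
    ∃ Q : ℤ_[q][X], ∀ ρ ∈ Z, x ρ * aeval ρ P = aeval ρ Q

theorem eis (g : ℤ_[q][X]) (hg : g.Monic) {ρ₀ : PadicAlgCl q} (h₀ : aeval ρ₀ g = 0) (c : ℤ_[q])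
    (hc : ‖ρ₀ - algebraMap _ _ c‖ ^ g.natDegree = ‖(q : PadicAlgCl q)‖) :
    Good {ρ : PadicAlgCl q | aeval ρ g = 0} fun _ => 1 := by
  intro P hP
  set g' := g.map (algebraMap ℤ_[q] ℚ_[q]) with hg'
  have hg'm : g'.Monic := hg.map _
  have hroot : ∀ ρ : PadicAlgCl q, aeval ρ g = 0 → aeval ρ (P %ₘ g') = aeval ρ P := fun ρ h =>
    aeval_modByMonic_eq_self_of_root (by rwa [hg', aeval_map_algebraMap])
  set e := g.natDegree with he
  set ϖ := ρ₀ - algebraMap _ _ c with hϖ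
  have he0 : e ≠ 0 := by
    intro h0
    rw [h0, pow_zero] at hc
    exact norm_q_lt.ne hc.symm
  set R := taylor (c : ℚ_[q]) (P %ₘ g') with hR
  have hRd : R.natDegree < e := by
    rw [hR, natDegree_taylor, he, ← hg.natDegree_map (algebraMap ℤ_[q] ℚ_[q])]
    refine natDegree_modByMonic_lt P hg'm fun h1 => he0 ?_
    rw [he, ← hg.natDegree_map (algebraMap ℤ_[q] ℚ_[q]), ← hg', h1, natDegree_one]
  have hev : ∀ ρ : PadicAlgCl q, aeval (ρ - algebraMap _ _ c) R = aeval ρ (P %ₘ g') := by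
    intro ρ
    rw [hR, taylor_apply, aeval_comp]
    simp [IsScalarTower.algebraMap_apply ℤ_[q] ℚ_[q] (PadicAlgCl q)]
  have hϖ0 : 0 < ‖ϖ‖ := by
    refine norm_pos_iff.2 fun h0 => ?_
    rw [h0, norm_zero, zero_pow he0] at hc
    exact norm_q_pos.ne hc
  have hϖ1 : ‖ϖ‖ < 1 := lt_of_pow_lt_pow_left₀ e zero_le_one (by rw [hc, one_pow]; exact norm_q_lt)
  have hq0 : (0 : ℝ) < q := by exact_mod_cast hq.out.pos
  have hq1 : (1 : ℝ) < q := by exact_mod_cast hq.out.one_lt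
  have hlow : ∀ j < e, (q : ℝ)⁻¹ < ‖ϖ‖ ^ j := fun j hj => by
    rw [← norm_q, ← hc]
    exact pow_lt_pow_right_of_lt_one₀ hϖ0 hϖ1 hj
  have hnorm : ∀ j, ‖R.coeff j • ϖ ^ j‖ = ‖R.coeff j‖ * ‖ϖ‖ ^ j := fun j => by
    rw [norm_smul, norm_pow]
  have hlt : ∀ i ∈ R.support, ∀ j ∈ R.support, i < j →
      ‖R.coeff i • ϖ ^ i‖ ≠ ‖R.coeff j • ϖ ^ j‖ := by
    intro i hi j hj hij h
    have hj' := (le_natDegree_of_mem_supp j hj).trans_lt hRd
    rw [hnorm, hnorm, Padic.norm_eq_zpow_neg_valuation (mem_support_iff.1 hi),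
      Padic.norm_eq_zpow_neg_valuation (mem_support_iff.1 hj), ← Nat.add_sub_cancel' hij.le,
      pow_add, Nat.add_sub_cancel' hij.le, mul_left_comm, mul_comm,
      mul_right_inj' (pow_pos hϖ0 i).ne'] at h
    have h1 := hlow (j - i) (by omega)
    have h2 : ‖ϖ‖ ^ (j - i) < 1 := pow_lt_one₀ hϖ0.le hϖ1 (by omega)
    have h3 : ‖ϖ‖ ^ (j - i) = (q : ℝ) ^ ((R.coeff j).valuation - (R.coeff i).valuation) := by
      rw [sub_eq_add_neg, zpow_add₀ hq0.ne', h, ← mul_assoc, ← zpow_add₀ hq0.ne']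
      simp
    rw [h3, ← zpow_neg_one, zpow_lt_zpow_iff_right₀ hq1] at h1
    rw [h3, zpow_lt_one_iff_right₀ hq1] at h2
    omega
  have hco : ∀ j, ‖R.coeff j‖ ≤ 1 := by
    intro j
    by_cases hj : j ∈ R.support
    · have h1 := hP ρ₀ h₀
      have hs : aeval ϖ R = ∑ i ∈ R.support, R.coeff i • ϖ ^ i := by
        simp only [aeval_def, eval₂_eq_sum, Polynomial.sum, Algebra.smul_def]
      rw [← hroot ρ₀ h₀, ← hev, ← hϖ, hs,
        IsUltrametricDist.norm_sum_eq_sup'_of_pairwise_ne ⟨j, hj⟩ (fun i hi k hk hik => by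
          rcases lt_or_gt_of_ne hik with h | h
          · exact hlt i hi k hk h
          · exact (hlt k hk i hi h).symm)] at h1
      have h2 := (Finset.le_sup' (fun i => ‖R.coeff i • ϖ ^ i‖) hj).trans h1
      rw [hnorm] at h2
      have h3 := hlow j ((le_natDegree_of_mem_supp j hj).trans_lt hRd)
      have h4 := (Padic.norm_le_pow_iff_norm_lt_pow_add_one (R.coeff j) 0).2 (by
        rw [zero_add, zpow_one]
        by_contra h5
        have := mul_lt_mul' (not_lt.1 h5) h3 (by positivity) (hq0.trans_le (not_lt.1 h5))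
        rw [mul_inv_cancel₀ hq0.ne'] at this
        exact absurd h2 (not_le.2 this))
      simpa using h4
    · simp [notMem_support_iff.1 hj]
  obtain ⟨Q, hQ⟩ : R ∈ lifts (algebraMap ℤ_[q] ℚ_[q]) :=
    (lifts_iff_coeff_lifts R).2 fun j => ⟨⟨_, hco j⟩, rfl⟩
  refine ⟨Q.comp (X - C c), fun ρ hρ => ?_⟩
  rw [one_mul, ← hroot ρ hρ, ← hev, ← hQ, coe_mapRingHom, aeval_map_algebraMap, aeval_comp]
  simp

end Pool.Agent.Lib.MP_f61260_nt
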