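import Mathlib

/-!
Polynomial lemmas: the chain argument, the parity descent and a form of Gauss's lemma.
-/

set_option autoImplicit false
set_option linter.unusedSectionVars false

open Polynomial NumberField

namespace Pool.Agent.Lib.MP_f61260_nt

theorem chainR {K L : Type*} [Field K] [Field L] [Algebra K L] (π γ : L) (hγ : γ ≠ 0) (n s₀ : ℕ)
    (hs : 2 * s₀ ≤ n) (hπ : ∀ P : K[X], P.natDegree < n → aeval π P = 0 → P = 0)
    (h : ∀ s, s₀ ≤ s → s ≤ n - s₀ → ∃ V W : K[X], V ≠ 0 ∧ V.natDegree < s ∧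
      W.natDegree < n - s ∧ γ * aeval π V = aeval π W) :
    ∃ A B : K[X], A ≠ 0 ∧ B ≠ 0 ∧ IsCoprime A B ∧ A.natDegree < s₀ ∧ B.natDegree < s₀ ∧
      γ * aeval π B = aeval π A := by
  classical
  have hW : ∀ V W : K[X], V ≠ 0 → V.natDegree < n → γ * aeval π V = aeval π W → W ≠ 0 := by
    intro V W hV hd he h0
    rw [h0, map_zero, mul_eq_zero] at he
    exact hV (hπ V hd (he.resolve_left hγ))
  obtain ⟨V₀, W₀, hV₀, hV₀d, hW₀d, he₀⟩ := h s₀ le_rfl (by omega)
  have hW₀ := hW V₀ W₀ hV₀ (by omega) he₀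
  obtain ⟨A, B, hA, hB, hc⟩ := extract_gcd W₀ V₀
  set g := gcd W₀ V₀
  have hg : g ≠ 0 := fun h0 => hV₀ (by rw [hB, h0, zero_mul])
  have hA0 : A ≠ 0 := fun h0 => hW₀ (by rw [hA, h0, mul_zero])
  have hB0 : B ≠ 0 := fun h0 => hV₀ (by rw [hB, h0, mul_zero])
  have hcop : IsCoprime A B := (gcd_isUnit_iff A B).1 hc
  have hBd : B.natDegree < s₀ := lt_of_le_of_lt (natDegree_le_of_dvd ⟨g, by rw [hB, mul_comm]⟩ hV₀) hV₀d
  have hgd : g.natDegree < n :=
    lt_of_le_of_lt (natDegree_le_of_dvd ⟨B, hB⟩ hV₀) (by omega)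
  have he : γ * aeval π B = aeval π A := by
    have hg' : aeval π g ≠ 0 := fun h0 => hg (hπ g hgd h0)
    refine mul_left_cancel₀ hg' ?_
    rw [← map_mul, ← hA, ← he₀, hB, map_mul]
    ring
  have key : ∀ k, s₀ + k ≤ n - s₀ → ∃ V W : K[X], V ≠ 0 ∧ V.natDegree < s₀ + k ∧
      W.natDegree < n - (s₀ + k) ∧ γ * aeval π V = aeval π W ∧ W * B = A * V := by
    intro k
    induction k with
    | zero =>
      intro _
      refine ⟨V₀, W₀, hV₀, hV₀d, hW₀d, he₀, ?_⟩
      rw [hA, hB]
      ring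
    | succ k ih =>
      intro hk
      obtain ⟨V, W, hV, hVd, hWd, hVW, hrel⟩ := ih (by omega)
      obtain ⟨V', W', hV', hV'd, hW'd, hVW'⟩ := h (s₀ + (k + 1)) (by omega) hk
      refine ⟨V', W', hV', hV'd, hW'd, hVW', ?_⟩
      have h1 : W * V' - W' * V = 0 := by
        refine hπ _ ?_ ?_
        · refine lt_of_le_of_lt (natDegree_sub_le _ _) (max_lt ?_ ?_)
          · exact lt_of_le_of_lt natDegree_mul_le (by omega)
          · exact lt_of_le_of_lt natDegree_mul_le (by omega)
        · rw [map_sub, map_mul, map_mul, ← hVW, ← hVW']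
          ring
      refine mul_right_cancel₀ hV ?_
      linear_combination V' * hrel - B * h1
  obtain ⟨V, W, hV, hVd, hWd, hVW, hrel⟩ := key (n - s₀ - s₀) (by omega)
  refine ⟨A, B, hA0, hB0, hcop, ?_, hBd, he⟩
  have h2 : A ∣ W := hcop.dvd_of_dvd_mul_right ⟨V, hrel⟩
  exact lt_of_le_of_lt (natDegree_le_of_dvd h2 (hW V W hV (by omega) hVW)) (by omega)

/-- `P(-X)`. -/
noncomputable def ng {R : Type*} [CommRing R] (P : R[X]) : R[X] := P.comp (C (-1) * X)

theorem coeff_ng {R : Type*} [CommRing R] (P : R[X]) (n : ℕ) :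
    (ng P).coeff n = P.coeff n * (-1) ^ n := comp_C_mul_X_coeff

theorem map_ng {R S : Type*} [CommRing R] [CommRing S] (f : R →+* S) (P : R[X]) :
    (ng P).map f = ng (P.map f) := by
  ext n
  simp [coeff_ng]

theorem ng_of_dvd {F : Type*} [Field F] {P : F[X]} (h : P ∣ ng P) : ng P = P ∨ ng P = -P := by
  have hd : (ng P).natDegree = P.natDegree := by
    rw [ng, natDegree_comp, natDegree_C_mul_X _ (by simp), mul_one]
  have hl : (ng P).leadingCoeff = P.leadingCoeff * (-1) ^ P.natDegree := by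
    rw [leadingCoeff, hd, coeff_ng, leadingCoeff]
  rcases neg_one_pow_eq_or F P.natDegree with h1 | h1
  · left
    exact (eq_of_dvd_of_natDegree_le_of_leadingCoeff h hd.le (by rw [hl, h1, mul_one])).symm
  · right
    have := eq_of_dvd_of_natDegree_le_of_leadingCoeff (h.neg_right) (by rw [natDegree_neg, hd])
      (by rw [leadingCoeff_neg, hl, h1]; ring)
    rw [this, neg_neg, ← this]

theorem parity {R : Type*} [CommRing R] [IsDomain R] [CharZero R] {P : R[X]}
    (h : ng P = P ∨ ng P = -P) : ∃ (e : ℕ) (P' : R[X]), P = X ^ e * expand R 2 P' := by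
  have even : ∀ Q : R[X], (∀ n, Odd n → Q.coeff n = 0) → Q = expand R 2 (contract 2 Q) := by
    intro Q hQ
    ext n
    rw [coeff_expand two_pos, coeff_contract two_ne_zero]
    split_ifs with h2
    · rw [Nat.div_mul_cancel h2]
    · exact hQ n (Nat.odd_iff.2 (by omega))
  have two : ∀ x : R, x * -1 = x → x = 0 := by
    intro x hx
    have : (2 : R) * x = 0 := by linear_combination -hx
    exact (mul_eq_zero.1 this).resolve_left two_ne_zero
  rcases h with h | h
  · refine ⟨0, contract 2 P, ?_⟩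
    rw [pow_zero, one_mul]
    refine even P fun n hn => two _ ?_
    have := congrArg (coeff · n) h
    simp only [coeff_ng, hn.neg_one_pow] at this
    exact this
  · have h0 : ∀ n, Even n → P.coeff n = 0 := by
      intro n hn
      have := congrArg (coeff · n) h
      simp only [coeff_ng, hn.neg_one_pow, coeff_neg] at this
      exact two _ (by linear_combination -this)
    refine ⟨1, contract 2 (divX P), ?_⟩
    rw [← even (divX P) fun n hn => by rw [coeff_divX]; exact h0 _ hn.add_one, pow_one]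
    have := X_mul_divX_add P
    rw [h0 0 Even.zero, map_zero, add_zero] at this
    exact this.symm

theorem twist_decomp {R F : Type*} [CommRing R] [IsDomain R] [CharZero R] [Field F] (f : R →+* F)
    (hf : Function.Injective f) (N : ℕ) : ∀ A B : R[X], A.natDegree + B.natDegree ≤ N → A ≠ 0 →
    B ≠ 0 → IsCoprime (A.map f) (B.map f) →
    (∃ i j a b, A = monomial i a ∧ B = monomial j b) ∨
      ∃ (g i j : ℕ) (A₁ B₁ : R[X]), 0 < g ∧ A = X ^ i * expand R g A₁ ∧
        B = X ^ j * expand R g B₁ ∧ A₁ * ng B₁ + ng A₁ * B₁ ≠ 0 ∧ A₁ * ng B₁ - ng A₁ * B₁ ≠ 0 := by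
  induction N using Nat.strong_induction_on with
  | _ N ih =>
  intro A B hN hA hB hc
  by_cases hG : A * ng B + ng A * B ≠ 0 ∧ A * ng B - ng A * B ≠ 0
  · exact Or.inr ⟨1, 0, 0, A, B, one_pos, by simp, by simp, hG⟩
  have hε : ∃ ε : F[X], A.map f * ng (B.map f) = ε * (ng (A.map f) * B.map f) ∧ ε * ε = 1 := by
    rw [not_and_or, not_not, not_not] at hG
    rcases hG with h | h
    · have := congrArg (Polynomial.map f) h
      simp only [Polynomial.map_add, Polynomial.map_mul, map_ng, Polynomial.map_zero] at this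
      exact ⟨-1, by linear_combination this, by ring⟩
    · have := congrArg (Polynomial.map f) h
      simp only [Polynomial.map_sub, Polynomial.map_mul, map_ng, Polynomial.map_zero] at this
      exact ⟨1, by linear_combination this, by ring⟩
  obtain ⟨ε, hε, hε2⟩ := hε
  have back : ∀ P : R[X], P.map f ∣ ng (P.map f) → ng P = P ∨ ng P = -P := by
    intro P hP
    rcases ng_of_dvd hP with h | h
    · exact Or.inl (Polynomial.map_injective f hf (by rw [map_ng, h]))
    · exact Or.inr (Polynomial.map_injective f hf (by rw [map_ng, h, Polynomial.map_neg]))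
  obtain ⟨e, A', hA'⟩ := parity (back A (hc.dvd_of_dvd_mul_right
    ⟨ε * ng (B.map f), by linear_combination (-ε) * hε - (ng (A.map f) * B.map f) * hε2⟩))
  obtain ⟨e', B', hB'⟩ := parity (back B (hc.symm.dvd_of_dvd_mul_left
    ⟨ε * ng (A.map f), by linear_combination hε⟩))
  have hA0 : A' ≠ 0 := fun h0 => hA (by rw [hA', h0, map_zero, mul_zero])
  have hB0 : B' ≠ 0 := fun h0 => hB (by rw [hB', h0, map_zero, mul_zero])
  have hdA : A.natDegree = e + A'.natDegree * 2 := by
    rw [hA', natDegree_mul (pow_ne_zero _ X_ne_zero) ((expand_ne_zero two_pos).2 hA0),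
      natDegree_X_pow, natDegree_expand]
  have hdB : B.natDegree = e' + B'.natDegree * 2 := by
    rw [hB', natDegree_mul (pow_ne_zero _ X_ne_zero) ((expand_ne_zero two_pos).2 hB0),
      natDegree_X_pow, natDegree_expand]
  have mono : ∀ (e i : ℕ) (a : R), X ^ e * expand R 2 (monomial i a) = monomial (e + i * 2) a := by
    intro e i a
    rw [expand_monomial, X_pow_mul_monomial, add_comm]
  rcases Nat.eq_zero_or_pos (A'.natDegree + B'.natDegree) with h0 | hpos
  · left
    refine ⟨e + 0 * 2, e' + 0 * 2, A'.coeff 0, B'.coeff 0, ?_, ?_⟩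
    · rw [← mono, monomial_zero_left, ← eq_C_of_natDegree_eq_zero (by omega), hA']
    · rw [← mono, monomial_zero_left, ← eq_C_of_natDegree_eq_zero (by omega), hB']
  have hc' : IsCoprime (A'.map f) (B'.map f) := by
    rw [hA', hB', Polynomial.map_mul, Polynomial.map_mul, map_expand, map_expand] at hc
    exact (isCoprime_expand two_ne_zero).1 hc.of_mul_left_right.of_mul_right_right
  rcases ih (A'.natDegree + B'.natDegree) (by omega) A' B' le_rfl hA0 hB0 hc' with
    ⟨i, j, a, b, h1, h2⟩ | ⟨g, i, j, A₁, B₁, hg, h1, h2, h3⟩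
  · exact Or.inl ⟨_, _, a, b, by rw [hA', h1, mono], by rw [hB', h2, mono]⟩
  · refine Or.inr ⟨2 * g, e + 2 * i, e' + 2 * j, A₁, B₁, by omega, ?_, ?_, h3⟩
    · rw [hA', h1, map_mul, map_pow, expand_X, expand_expand]
      ring
    · rw [hB', h2, map_mul, map_pow, expand_X, expand_expand]
      ring

theorem exists_odd_part {R : Type*} [CommRing R] (I : Ideal R) {P : R[X]}
    (hP : ∀ n, P.coeff n ∈ I) : ∃ Q : R[X], (∀ n, Q.coeff n ∈ I) ∧ ng P = P - 2 * Q := by
  refine ⟨∑ n ∈ P.support.filter Odd, monomial n (P.coeff n), fun n => ?_, ?_⟩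
  · rw [finsetSum_coeff]
    refine I.sum_mem fun k _ => ?_
    rw [coeff_monomial]
    split_ifs
    · exact hP k
    · exact I.zero_mem
  · ext n
    rw [coeff_ng, coeff_sub, two_mul, coeff_add, finsetSum_coeff]
    simp only [coeff_monomial, Finset.sum_ite_eq', Finset.mem_filter, mem_support_iff]
    rcases Nat.even_or_odd n with h | h
    · simp [h.neg_one_pow, Nat.not_odd_iff_even.2 h]
    · by_cases h0 : P.coeff n = 0
      · simp [h0]
      · simp [h.neg_one_pow, h, h0]

theorem coeff_mul_mem {R : Type*} [CommRing R] {I J : Ideal R} {P Q : R[X]}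
    (hP : ∀ n, P.coeff n ∈ I) (hQ : ∀ n, Q.coeff n ∈ J) (n : ℕ) : (P * Q).coeff n ∈ I * J := by
  rw [coeff_mul]
  exact Ideal.sum_mem _ fun x _ => Ideal.mul_mem_mul (hP _) (hQ _)

theorem lead_mem {R : Type*} [CommRing R] [IsDomain R] (I : Ideal R) {A B : R[X]}
    (hA : ∀ n, A.coeff n ∈ I) (hB : ∀ n, B.coeff n ∈ I) :
    ((A * ng B + ng A * B) * (A * ng B - ng A * B)).leadingCoeff ∈
      Ideal.span {4} * (I ^ 2) ^ 2 := by
  obtain ⟨A', hA', hA2⟩ := exists_odd_part I hA
  obtain ⟨B', hB', hB2⟩ := exists_odd_part I hB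
  have h : (A * ng B + ng A * B) * (A * ng B - ng A * B) =
      C 4 * ((A * B - A * B' - A' * B) * (A' * B - A * B')) := by
    rw [hA2, hB2, map_ofNat]
    ring
  rw [leadingCoeff]
  generalize ((A * ng B + ng A * B) * (A * ng B - ng A * B)).natDegree = N
  rw [h, coeff_C_mul, sq, sq]
  refine Ideal.mul_mem_mul (Ideal.mem_span_singleton_self _) (coeff_mul_mem (fun n => ?_)
    (fun n => ?_) N)
  · rw [coeff_sub, coeff_sub]
    exact sub_mem (sub_mem (coeff_mul_mem hA hB n) (coeff_mul_mem hA hB' n))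
      (coeff_mul_mem hA' hB n)
  · rw [coeff_sub]
    exact sub_mem (coeff_mul_mem hA' hB n) (coeff_mul_mem hA hB' n)

theorem twist_identity (A₁ B₁ : ℂ[X]) {g : ℕ} (i j : ℕ) {ζ : ℂ} (hζ : ζ ^ g = -1) :
    C ((ζ ^ i) ^ 2) * ((X ^ i * expand ℂ g A₁) ^ 2 *
        ((X ^ j * expand ℂ g B₁) ^ 2).comp (C ζ * X)) -
      C ((ζ ^ j) ^ 2) * (((X ^ i * expand ℂ g A₁) ^ 2).comp (C ζ * X) *
        (X ^ j * expand ℂ g B₁) ^ 2) =
      C ((ζ ^ (i + j)) ^ 2) * X ^ (2 * (i + j)) *
        expand ℂ g ((A₁ * ng B₁ + ng A₁ * B₁) * (A₁ * ng B₁ - ng A₁ * B₁)) := by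
  have h : ∀ P : ℂ[X], (expand ℂ g P).comp (C ζ * X) = expand ℂ g (ng P) := by
    intro P
    rw [expand_eq_comp_X_pow, expand_eq_comp_X_pow, ng, comp_assoc, comp_assoc]
    congr 1
    simp only [pow_comp, X_comp, mul_comp, C_comp, mul_pow]
    rw [← C_pow, hζ]
  simp only [pow_comp, mul_comp, X_comp, h, map_mul, map_add, map_sub, map_pow]
  ring

variable {K : Type*} [Field K] [NumberField K]

theorem gauss_int (A B : (𝓞 K)[X]) (W : K[X])
    (hA : ∀ n, ((A ^ 2).map (algebraMap (𝓞 K) K) * W).coeff n ∈ (algebraMap (𝓞 K) K).range)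
    (hB : ∀ n, ((B ^ 2).map (algebraMap (𝓞 K) K) * W).coeff n ∈ (algebraMap (𝓞 K) K).range)
    (j : ℕ) (e : 𝓞 K) (he : e ∈ Ideal.span (Set.range A.coeff ∪ Set.range B.coeff) ^ 2) :
    algebraMap (𝓞 K) K e * W.coeff j ∈ (algebraMap (𝓞 K) K).range := by
  refine IsDedekindDomain.HeightOneSpectrum.mem_integers_of_valuation_le_one K _ fun v => ?_
  set a := NumberField.HeightOneSpectrum.adicAbv K v with ha
  have hna : IsNonarchimedean a := NumberField.HeightOneSpectrum.isNonarchimedean_adicAbv K v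
  have hiff : ∀ x : K, a x ≤ 1 ↔ v.valuation K x ≤ 1 := by
    intro x
    rw [ha, NumberField.HeightOneSpectrum.adicAbv_def, ← NNReal.coe_one, NNReal.coe_le_coe]
    exact WithZeroMulInt.toNNReal_le_one_iff (NumberField.HeightOneSpectrum.one_lt_absNorm_nnreal v)
  have hint : ∀ x : 𝓞 K, a (algebraMap (𝓞 K) K x) ≤ 1 := fun x => (hiff _).2 (v.valuation_le_one x)
  rw [← hiff]
  have hle : ∀ (P : K[X]) (n : ℕ), a (P.coeff n) ≤ P.gaussNorm a 1 := by
    intro P n
    simpa using P.le_gaussNorm a zero_le_one n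
  have hP : ∀ P : (𝓞 K)[X], (∀ n, ((P ^ 2).map (algebraMap (𝓞 K) K) * W).coeff n ∈
      (algebraMap (𝓞 K) K).range) →
      (P.map (algebraMap (𝓞 K) K)).gaussNorm a 1 ^ 2 * W.gaussNorm a 1 ≤ 1 := by
    intro P h
    rw [sq, ← gaussNorm_mul hna one_pos, ← gaussNorm_mul hna one_pos, ← Polynomial.map_mul, ← sq]
    obtain ⟨i, hi⟩ := ((P ^ 2).map (algebraMap (𝓞 K) K) * W).exists_eq_gaussNorm a 1
    obtain ⟨x, hx⟩ := h i
    rw [hi, ← hx, one_pow, mul_one]
    exact hint x
  set m := max ((A.map (algebraMap (𝓞 K) K)).gaussNorm a 1)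
    ((B.map (algebraMap (𝓞 K) K)).gaussNorm a 1) with hm
  have hm0 : 0 ≤ m := le_max_of_le_left (gaussNorm_nonneg _ _ zero_le_one)
  have hmW : m ^ 2 * W.gaussNorm a 1 ≤ 1 := by
    rcases max_choice ((A.map (algebraMap (𝓞 K) K)).gaussNorm a 1)
      ((B.map (algebraMap (𝓞 K) K)).gaussNorm a 1) with h | h
    · rw [hm, h]
      exact hP A hA
    · rw [hm, h]
      exact hP B hB
  have h1 : ∀ x ∈ Ideal.span (Set.range A.coeff ∪ Set.range B.coeff),
      a (algebraMap (𝓞 K) K x) ≤ m := by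
    intro x hx
    refine Submodule.span_induction (p := fun x _ => a (algebraMap (𝓞 K) K x) ≤ m) ?_ ?_ ?_ ?_ hx
    · rintro _ (⟨n, rfl⟩ | ⟨n, rfl⟩)
      · rw [← coeff_map]
        exact le_max_of_le_left (hle _ n)
      · rw [← coeff_map]
        exact le_max_of_le_right (hle _ n)
    · simpa using hm0
    · intro x y _ _ hx hy
      rw [map_add]
      exact (hna _ _).trans (max_le hx hy)
    · intro c x _ hx
      rw [smul_eq_mul, map_mul, map_mul]
      exact (mul_le_of_le_one_left (a.nonneg _) (hint c)).trans hx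
  have h2 : a (algebraMap (𝓞 K) K e) ≤ m ^ 2 := by
    rw [sq] at he
    refine Submodule.mul_induction_on he (fun x hx y hy => ?_) fun x y hx hy => ?_
    · rw [map_mul, map_mul, sq]
      exact mul_le_mul (h1 x hx) (h1 y hy) (a.nonneg _) hm0
    · rw [map_add]
      exact (hna _ _).trans (max_le hx hy)
  rw [map_mul]
  exact (mul_le_mul h2 (hle W j) (a.nonneg _) (by positivity)).trans hmW

end Pool.Agent.Lib.MP_f61260_nt
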