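import Pool.Agent.Lib.MP_f61260_nt.RadTower

set_option autoImplicit false

open NumberField Pool.Agent.Lib.MP_f61260_nt

namespace Pool.Agent.Results.MP_f61260_nt.RadicalReduction

theorem result :
    ∀ (K L : Type) [Field K] [NumberField K] [Field L] [NumberField L] [Algebra K L]
      (a : ℤ) (n : ℕ) (π : L), Squarefree a → 2 ≤ |a| → π ^ n = a →
      (∀ x : L, x ∈ Algebra.adjoin K {π}) → IsCoprime (discr K) (a * n) → ∀ γ : L, γ ≠ 0 →
      absLogHeight₁ γ + wief a n.primeFactors < 3 / 100 →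
      ∃ (β : K) (k : ℤ), γ = algebraMap K L β * π ^ k ∧
        absLogHeight₁ β ≤ 3 * absLogHeight₁ γ :=
  fun _ _ _ _ _ _ _ a n π h1 h2 h3 h4 => reduction a n π h1 h2 h3 (Algebra.eq_top_iff.2 h4)

end Pool.Agent.Results.MP_f61260_nt.RadicalReduction
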