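import Pool.Agent.Lib.MP_f61260_nt.RadLattice

/-!
Embeddings, norms and heights.
-/

set_option autoImplicit false
set_option linter.unusedSectionVars false

open Module NumberField Polynomial Height

namespace Pool.Agent.Lib.MP_f61260_nt

variable {K L : Type*} [Field K] [NumberField K] [Field L] [NumberField L]

theorem prod_emb (f : InfinitePlace L → ℝ) :
    ∏ τ : L →+* ℂ, f (InfinitePlace.mk τ) = ∏ w : InfinitePlace L, f w ^ w.mult := by
  classical
  rw [← Finset.prod_fiberwise Finset.univ InfinitePlace.mk]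
  refine Finset.prod_congr rfl fun w _ => ?_
  rw [Finset.prod_congr rfl (g := fun _ => f w)
    (fun τ hτ => by rw [(Finset.mem_filter.1 hτ).2]), Finset.prod_const,
    InfinitePlace.card_filter_mk_eq]

theorem abs_norm_eq (δ : K) :
    ((|Algebra.norm ℚ δ| : ℚ) : ℝ) = ∏ σ : K →+* ℂ, ‖σ δ‖ := by
  rw [← InfinitePlace.prod_eq_abs_norm, ← prod_emb fun w => w δ]
  rfl

theorem height_eq (x y : 𝓞 L) (hy : y ≠ 0) :
    mulHeight₁ ((x : L) / y) * Ideal.absNorm (Ideal.span {x, y}) =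
      ∏ τ : L →+* ℂ, max ‖τ x‖ ‖τ y‖ := by
  have hv (i : Fin 2) : (![x, y] i : L) = ![(x : L), y] i := by fin_cases i <;> rfl
  have h1 := absNorm_mul_finprod_finitePlace_eq_one (show ![x, y] ≠ 0 by simp [hy])
  have h2 : Set.range ![x, y] = {x, y} := by
    ext z
    simp [eq_comm, or_comm]
  have hy' : (y : L) ≠ 0 := by exact_mod_cast hy
  simp only [hv, h2] at h1
  rw [mulHeight₁_div_eq_mulHeight, NumberField.mulHeight_eq (by simp [hy']), mul_assoc,
    mul_comm (∏ᶠ v : FinitePlace L, _), h1, mul_one,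
    ← prod_emb fun w => ⨆ i, w (![(x : L), y] i)]
  refine Finset.prod_congr rfl fun τ _ => ?_
  refine le_antisymm (ciSup_le fun i => ?_) (max_le ?_ ?_)
  · fin_cases i
    · exact le_max_left _ _
    · exact le_max_right _ _
  · exact Finite.le_ciSup_of_le 0 le_rfl
  · exact Finite.le_ciSup_of_le 1 le_rfl

variable [Algebra K L]

theorem prod_emb_comp (g : (K →+* ℂ) → ℝ) :
    ∏ τ : L →+* ℂ, g (τ.comp (algebraMap K L)) = (∏ σ : K →+* ℂ, g σ) ^ finrank K L := by
  classical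
  rw [← Finset.prod_fiberwise Finset.univ fun τ : L →+* ℂ => τ.comp (algebraMap K L),
    ← Finset.prod_pow]
  refine Finset.prod_congr rfl fun σ _ => ?_
  rw [Finset.prod_congr rfl (g := fun _ => g σ)
    (fun τ hτ => by rw [(Finset.mem_filter.1 hτ).2]), Finset.prod_const]
  congr 1
  let := σ.toAlgebra
  rw [← AlgHom.card K L ℂ, ← Fintype.card_subtype]
  refine Fintype.card_congr ⟨fun τ => ⟨τ.1, fun x => RingHom.congr_fun τ.2 x⟩,
    fun τ => ⟨τ.toRingHom, RingHom.ext fun x => τ.commutes x⟩, fun _ => rfl, fun _ => rfl⟩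

theorem exists_frac (x : K) : ∃ u v : 𝓞 K, v ≠ 0 ∧ x = u / v := by
  obtain ⟨u, v, hv, h⟩ := IsFractionRing.div_surjective (A := 𝓞 K) x
  exact ⟨u, v, nonZeroDivisors.ne_zero hv, h.symm⟩

theorem mulHeight₁_algebraMap (x : K) :
    mulHeight₁ (algebraMap K L x) = mulHeight₁ x ^ finrank K L := by
  obtain ⟨u, v, hv, rfl⟩ := exists_frac x
  have hv' : algebraMap (𝓞 K) (𝓞 L) v ≠ 0 := by simpa using hv
  have h1 := height_eq u v hv
  have h2 := height_eq (algebraMap (𝓞 K) (𝓞 L) u) (algebraMap (𝓞 K) (𝓞 L) v) hv'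
  have h3 : Ideal.span {algebraMap (𝓞 K) (𝓞 L) u, algebraMap (𝓞 K) (𝓞 L) v} =
      (Ideal.span {u, v}).map (algebraMap (𝓞 K) (𝓞 L)) := by
    rw [Ideal.map_span, Set.image_pair]
  have h4 := prod_emb_comp (L := L) fun σ : K →+* ℂ => max ‖σ u‖ ‖σ v‖
  have h5 : (Ideal.absNorm (Ideal.span {u, v}) : ℝ) ≠ 0 := by
    rw [Nat.cast_ne_zero, Ne, Ideal.absNorm_eq_zero_iff, Ideal.span_eq_bot]
    exact fun h => hv (h v (by simp))
  rw [h3, Ideal.absNorm_algebraMap, ← IsFractionRing.finrank_eq (𝓞 K) K (𝓞 L) L] at h2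
  rw [← h1, mul_pow] at h4
  refine mul_right_cancel₀ (pow_ne_zero (finrank K L) h5) ?_
  rw [← h4, map_div₀]
  push_cast at h2
  exact h2

theorem absLogHeight_eq {Ω : Type*} [Field Ω] [CharZero Ω] (f : L →+* Ω) (x : L) :
    absLogHeight₁ (f x) = logHeight₁ x / finrank ℚ L := by
  have hx : IsIntegral ℚ x := .of_finite ℚ x
  have hfx : IsIntegral ℚ (f x) := hx.map f.toRatAlgHom
  have hm : minpoly ℚ (f x) = minpoly ℚ x := minpoly.algHom_eq f.toRatAlgHom f.injective x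
  have := IntermediateField.adjoin.finiteDimensional hfx
  have : NumberField (IntermediateField.adjoin ℚ {f x}) := {}
  set g := (IntermediateField.adjoin.powerBasis hfx).lift x (by
    rw [IntermediateField.adjoin.powerBasis_gen, IntermediateField.minpoly_gen, hm,
      minpoly.aeval]) with hg
  have hgx : g (IntermediateField.AdjoinSimple.gen ℚ (f x)) = x :=
    (IntermediateField.adjoin.powerBasis hfx).lift_gen x _
  let := g.toRingHom.toAlgebra
  have h1 := mulHeight₁_algebraMap (L := L) (IntermediateField.AdjoinSimple.gen ℚ (f x))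
  have h2 := finrank_mul_finrank ℚ (IntermediateField.adjoin ℚ {f x}) L
  have h3 : (finrank (IntermediateField.adjoin ℚ {f x}) L : ℝ) ≠ 0 := by
    exact_mod_cast finrank_pos.ne'
  rw [show algebraMap _ L (IntermediateField.AdjoinSimple.gen ℚ (f x)) = x from hgx] at h1
  rw [absLogHeight₁, absMulHeight₁, dif_pos hfx, Real.log_rpow (mulHeight₁_pos _), logHeight₁, h1,
    Real.log_pow, ← h2]
  push_cast
  field_simp

variable {p q : ℕ}

theorem minpoly_eq (pb : PowerBasis K L) (a : K) {n : ℕ} (hn : pb.dim = n)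
    (hπ : pb.gen ^ n = algebraMap K L a) : minpoly K pb.gen = X ^ n - C a := by
  have hn0 : n ≠ 0 := hn ▸ pb.dim_pos.ne'
  refine (eq_of_monic_of_dvd_of_natDegree_le (minpoly.monic pb.isIntegral_gen)
    (monic_X_pow_sub_C a hn0) (minpoly.dvd K _ (by simp [hπ])) ?_).symm
  rw [natDegree_X_pow_sub_C, pb.natDegree_minpoly, hn]

theorem exists_emb (pb : PowerBasis K L) (a : K) (ha : a ≠ 0) (hn : pb.dim = p + q)
    (hπ : pb.gen ^ (p + q) = algebraMap K L a) {ζ : ℂ} (hζ : IsPrimitiveRoot ζ (p + q)) :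
    ∃ (r : (K →+* ℂ) → ℝ) (u : (K →+* ℂ) → ℂ)
      (T : (K →+* ℂ) × (Fin p ⊕ Fin q) ≃ (L →+* ℂ)), (∀ σ, 0 < r σ) ∧
      (∀ σ, r σ ^ (p + q) = ‖σ a‖) ∧ (∀ σ, ‖u σ‖ = 1) ∧
      (∀ σ i x, T (σ, i) (algebraMap K L x) = σ x) ∧
      ∀ σ i, T (σ, i) pb.gen = r σ * (u σ * ζ ^ bxR i) := by
  have hn0 : p + q ≠ 0 := hn ▸ pb.dim_pos.ne'
  have h1 : ∀ σ : K →+* ℂ, ∃ z : ℂ, z ^ (p + q) = σ a := fun σ =>
    IsAlgClosed.exists_pow_nat_eq _ (Nat.pos_of_ne_zero hn0)
  choose z hz using h1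
  have hz0 : ∀ σ, z σ ≠ 0 := fun σ h => by
    have := hz σ
    rw [h, zero_pow hn0, eq_comm, map_eq_zero] at this
    exact ha this
  have h2 : ∀ (σ : K →+* ℂ) (i : Fin p ⊕ Fin q), ∃ τ : L →+* ℂ,
      (∀ x, τ (algebraMap K L x) = σ x) ∧ τ pb.gen = z σ * ζ ^ bxR i := by
    intro σ i
    let := σ.toAlgebra
    have h : aeval (z σ * ζ ^ bxR i) (minpoly K pb.gen) = 0 := by
      rw [minpoly_eq pb a hn hπ, map_sub, aeval_C, map_pow, aeval_X, mul_pow, hz, ← pow_mul,
        mul_comm (bxR i), pow_mul, hζ.pow_eq_one, one_pow, mul_one]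
      exact sub_self _
    exact ⟨(pb.lift _ h).toRingHom, (pb.lift _ h).commutes, pb.lift_gen _ h⟩
  choose T hT1 hT2 using h2
  have hinj : Function.Injective fun x : (K →+* ℂ) × (Fin p ⊕ Fin q) => T x.1 x.2 := by
    rintro ⟨σ, i⟩ ⟨σ', i'⟩ h
    have h : T σ i = T σ' i' := h
    obtain rfl : σ = σ' := RingHom.ext fun x => by rw [← hT1 σ i, h, hT1]
    have h3 := hT2 σ i
    rw [h, hT2, mul_right_inj' (hz0 σ), bx_eq, bx_eq] at h3
    have h4 := hζ.pow_inj (finSumFinEquiv i').2 (finSumFinEquiv i).2 h3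
    rw [finSumFinEquiv.injective (Fin.ext h4)]
  have hbij := (Fintype.bijective_iff_injective_and_card _).2 ⟨hinj, by
    rw [Fintype.card_prod, Embeddings.card, Embeddings.card, Fintype.card_sum, Fintype.card_fin,
      Fintype.card_fin, ← hn, ← pb.finrank, finrank_mul_finrank]⟩
  have hr : ∀ σ, (‖z σ‖ : ℂ) ≠ 0 := fun σ => by simpa using hz0 σ
  refine ⟨fun σ => ‖z σ‖, fun σ => z σ / ‖z σ‖, Equiv.ofBijective _ hbij,
    fun σ => norm_pos_iff.2 (hz0 σ), fun σ => by rw [← norm_pow, hz], fun σ => ?_, hT1,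
    fun σ i => ?_⟩
  · rw [norm_div, Complex.norm_real, norm_norm, div_self (norm_ne_zero_iff.2 (hz0 σ))]
  · rw [← mul_assoc, mul_div_cancel₀ _ (hr σ)]
    exact hT2 σ i

theorem det_emb {ι : Type*} [Fintype ι] [DecidableEq ι] (b : Basis ι K L) (σ : K →+* ℂ)
    (T : ι → L →+* ℂ) (hT : ∀ i x, T i (algebraMap K L x) = σ x) (v : ι → L) :
    (Matrix.of fun i k => T i (v k)).det =
      (Matrix.of fun i k => T i (b k)).det * σ (b.det v) := by
  rw [Basis.det_apply, RingHom.map_det, ← Matrix.det_mul]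
  congr 1
  ext i k
  rw [Matrix.of_apply, ← b.sum_repr (v k), map_sum, Matrix.mul_apply]
  refine Finset.sum_congr rfl fun j _ => ?_
  rw [Algebra.smul_def, map_mul, hT, mul_comm]
  simp [Basis.toMatrix_apply]

/-- The power basis indexed by a sum type. -/
noncomputable def pbs (pb : PowerBasis K L) (hn : pb.dim = p + q) : Basis (Fin p ⊕ Fin q) K L :=
  pb.basis.reindex ((finCongr hn).trans finSumFinEquiv.symm)

theorem pbs_apply (pb : PowerBasis K L) (hn : pb.dim = p + q) (k : Fin p ⊕ Fin q) :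
    pbs pb hn k = pb.gen ^ bxR k := by
  simp [pbs, bx_eq]

theorem lat_pbs (pb : PowerBasis K L) (hn : pb.dim = p + q) :
    lat K (pbs pb hn) = lat K pb.basis := by
  rw [lat, lat, pbs, Basis.range_reindex]

end Pool.Agent.Lib.MP_f61260_nt
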