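import Pool.Agent.Lib.MP_f61260_nt.RadSetup

/-!
Step A: a small element of a radical extension is a quotient of two short polynomials.
-/

set_option autoImplicit false
set_option linter.unusedSectionVars false

open Module NumberField Polynomial Height

namespace Pool.Agent.Lib.MP_f61260_nt

/-- The polynomial `∑ c k X ^ (s + k)`. -/
noncomputable def pf {R : Type*} [CommRing R] {m : ℕ} (s : ℕ) (c : Fin m → R) : R[X] :=
  ∑ k : Fin m, monomial (s + k) (c k)

theorem coeff_pf {R : Type*} [CommRing R] {m : ℕ} (s : ℕ) (c : Fin m → R) (k : Fin m) :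
    (pf s c).coeff (s + k) = c k := by
  simp [pf, coeff_monomial, Fin.val_inj]

theorem degree_pf {R : Type*} [CommRing R] {m : ℕ} (s : ℕ) (c : Fin m → R) :
    (pf s c).degree < (s + m : ℕ) := by
  rw [degree_lt_iff_coeff_zero]
  intro N hN
  rw [pf, finsetSum_coeff]
  refine Finset.sum_eq_zero fun k _ => ?_
  rw [coeff_monomial, if_neg]
  have := k.2
  omega

theorem aeval_pf {R S : Type*} [CommRing R] [CommRing S] [Algebra R S] {m : ℕ} (s : ℕ)
    (c : Fin m → R) (z : S) : aeval z (pf s c) = ∑ k : Fin m, c k • z ^ (s + k) := by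
  simp [pf, aeval_monomial, Algebra.smul_def]

theorem sum_fam {R S : Type*} [CommRing R] [CommRing S] [Algebra R S] {p q : ℕ}
    (c : Fin p ⊕ Fin q → R) (x y z : S) : ∑ k, c k • fam x y z k =
      x * aeval z (pf 0 fun k => c (.inl k)) + y * aeval z (pf 0 fun k => c (.inr k)) := by
  simp [aeval_pf, Fintype.sum_sum_type, fam, ex, Finset.mul_sum]

theorem map_fam {R S F : Type*} [Monoid R] [Monoid S] [FunLike F R S] [MonoidHomClass F R S]
    (f : F) {p q : ℕ} (x y z : R) (k : Fin p ⊕ Fin q) :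
    f (fam x y z k) = fam (f x) (f y) (f z) k := by
  rcases k with k | k <;> simp [fam]

variable {K L : Type*} [Field K] [NumberField K] [Field L] [NumberField L] [Algebra K L]
  {p q : ℕ}

theorem fam_dep (b : Basis (Fin p ⊕ Fin q) K L) (x y z : L) (h : b.det (fam x y z) = 0) :
    ∃ V W : K[X], (V ≠ 0 ∨ W ≠ 0) ∧ V.degree < p ∧ W.degree < q ∧
      x * aeval z V = y * aeval z W := by
  have h1 : ¬ LinearIndependent K (fam x y z : Fin p ⊕ Fin q → L) := by
    intro hli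
    have := (b.is_basis_iff_det.1 ⟨hli, hli.span_eq_top_of_card_eq_finrank'
      (finrank_eq_card_basis b).symm⟩).ne_zero
    exact this h
  obtain ⟨c, hc, i, hi⟩ := Fintype.not_linearIndependent_iff.1 h1
  rw [sum_fam] at hc
  refine ⟨pf 0 fun k => c (.inl k), -pf 0 fun k => c (.inr k), ?_, by simpa using degree_pf 0 _,
    by simpa using degree_pf 0 _, by rw [map_neg]; linear_combination hc⟩
  rcases i with i | i
  · refine Or.inl fun h0 => hi ?_
    rw [← coeff_pf 0 (fun k => c (.inl k)) i, h0, coeff_zero]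
  · refine Or.inr fun h0 => hi ?_
    rw [← coeff_pf 0 (fun k => c (.inr k)) i, neg_eq_zero.1 h0, coeff_zero]

theorem eq_zero_of_aeval (pb : PowerBasis K L) {P : K[X]} (hP : P.degree < pb.dim)
    (h : aeval pb.gen P = 0) : P = 0 := by
  by_contra h0
  have := minpoly.degree_le_of_ne_zero K pb.gen h0 h
  rw [pb.degree_minpoly] at this
  exact absurd hP (not_lt.2 this)

theorem isIntegral_gen (pb : PowerBasis K L) (a : 𝓞 K)
    (hπ : pb.gen ^ pb.dim = algebraMap K L a) : IsIntegral ℤ pb.gen := by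
  refine IsIntegral.of_pow pb.dim_pos ?_
  rw [hπ]
  exact a.isIntegral_coe.map (algebraMap K L).toIntAlgHom

theorem lat_le_OL (pb : PowerBasis K L) (h : IsIntegral ℤ pb.gen) : lat K pb.basis ≤ OL L := by
  refine lat_le fun c k => mem_OL.2 ?_
  rw [pb.basis_eq_pow, Algebra.smul_def, IsScalarTower.algebraMap_apply (𝓞 K) K L]
  exact (c.isIntegral_coe.map (algebraMap K L).toIntAlgHom).mul (h.pow _)

theorem fam_mem (x y z : 𝓞 L) (k : Fin p ⊕ Fin q) :
    fam (x : L) y z k ∈ idl (Ideal.span {x, y}) := by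
  refine ⟨fam x y z k, ?_, map_fam (algebraMap (𝓞 L) L) x y z k⟩
  refine Ideal.mul_mem_right _ _ (Ideal.subset_span ?_)
  rcases k with k | k <;> simp

/-- The index of `𝓞 K [π]` in `𝓞 L`. -/
noncomputable def idx (pb : PowerBasis K L) : ℕ := (lat K pb.basis).relIndex (OL L)

theorem van_pos {ζ u₀ : ℂ} (hζ : IsPrimitiveRoot ζ (p + q)) (hu : ‖u₀‖ = 1) {r : ℝ} (hr : 0 < r)
    (hn : p + q ≠ 0) :
    0 < ‖(Matrix.of fun i k : Fin p ⊕ Fin q => (r * (u₀ * ζ ^ bxR i)) ^ bxR k).det‖ := by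
  refine (norm_nonneg _).lt_of_ne' (sq_pos_iff.1 ?_)
  rw [van_norm hζ hu r hr.le]
  have : (0 : ℝ) < (p + q : ℕ) := by exact_mod_cast Nat.pos_of_ne_zero hn
  positivity

theorem stepA (pb : PowerBasis K L) (a : 𝓞 K) (ha : a ≠ 0) (hn : pb.dim = p + q)
    (hπ : pb.gen ^ pb.dim = algebraMap K L a) (γ : L)
    (h : (idx pb * mulHeight₁ γ) ^ (p + q) < ((|Algebra.norm ℚ (a : K)| : ℚ) : ℝ) ^ (p * q)) :
    ∃ V W : K[X], V ≠ 0 ∧ V.degree < p ∧ W.degree < q ∧
      γ * aeval pb.gen V = aeval pb.gen W := by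
  obtain ⟨x, y, hy, rfl⟩ := exists_frac γ
  have hy' : (y : L) ≠ 0 := by exact_mod_cast hy
  have hn0 : p + q ≠ 0 := hn ▸ pb.dim_pos.ne'
  have hint := isIntegral_gen pb a hπ
  by_cases hδ : (pbs pb hn).det (fam (x : L) y pb.gen) = 0
  · obtain ⟨V, W, h1, h2, h3, h4⟩ := fam_dep _ _ _ _ hδ
    refine ⟨V, W, fun h0 => ?_, h2, h3, ?_⟩
    · rw [h0, map_zero, mul_zero, eq_comm, mul_eq_zero] at h4
      refine h1.elim (fun h => h h0) fun h => h (eq_zero_of_aeval pb ?_ (h4.resolve_left hy'))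
      exact h3.trans_le (by rw [hn]; exact_mod_cast Nat.le_add_left _ _)
    · field_simp
      exact h4
  exfalso
  have h1 := absNorm_le (pbs pb hn) (by rw [lat_pbs]; exact lat_le_OL pb hint) _ hδ _
    (fam_mem x y ⟨pb.gen, hint⟩)
  rw [lat_pbs] at h1
  set δ := (pbs pb hn).det (fam (x : L) y pb.gen) with hδdef
  obtain ⟨r, u, T, hr, hra, hu, hT1, hT2⟩ := exists_emb pb (a : K) (by exact_mod_cast ha) hn
    (hn ▸ hπ) (Complex.isPrimitiveRoot_exp _ hn0)
  have h2 : ∀ σ, ‖σ δ‖ * r σ ^ (p * q) ≤ ∏ i, max ‖T (σ, i) x‖ ‖T (σ, i) y‖ := by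
    intro σ
    have h3 := archA (Complex.isPrimitiveRoot_exp _ hn0) (hu σ) (r σ) (hr σ).le
      (fun i => T (σ, i) x) (fun i => T (σ, i) y)
    have h4 := det_emb (pbs pb hn) σ (fun i => T (σ, i)) (hT1 σ) (fam (x : L) y pb.gen)
    simp only [map_fam, pbs_apply, map_pow, hT2] at h4
    rw [h4, norm_mul, mul_assoc] at h3
    exact le_of_mul_le_mul_left h3 (van_pos (Complex.isPrimitiveRoot_exp _ hn0) (hu σ) (hr σ) hn0)
  have h3 : (∏ σ : K →+* ℂ, ‖σ δ‖) * (∏ σ, r σ) ^ (p * q) ≤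
      mulHeight₁ ((x : L) / y) * Ideal.absNorm (Ideal.span {x, y}) := by
    rw [height_eq x y hy, ← T.prod_comp, Fintype.prod_prod_type, ← Finset.prod_pow,
      ← Finset.prod_mul_distrib]
    exact Finset.prod_le_prod (fun σ _ => by have := hr σ; positivity) fun σ _ => h2 σ
  have h4 : (Ideal.absNorm (Ideal.span {x, y}) : ℝ) ≤ idx pb * ∏ σ : K →+* ℂ, ‖σ δ‖ := by
    rw [← abs_norm_eq]
    exact_mod_cast h1
  have h5 : 0 < ∏ σ : K →+* ℂ, ‖σ δ‖ :=
    Finset.prod_pos fun σ _ => norm_pos_iff.2 ((map_ne_zero σ).2 hδ)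
  have h6 : (∏ σ, r σ) ^ (p * q) ≤ idx pb * mulHeight₁ ((x : L) / y) := by
    refine le_of_mul_le_mul_left (h3.trans ?_) h5
    calc _ ≤ mulHeight₁ ((x : L) / y) * (idx pb * ∏ σ : K →+* ℂ, ‖σ δ‖) := by
          gcongr
      _ = _ := by ring
  rw [abs_norm_eq, ← Finset.prod_congr rfl fun σ _ => hra σ, Finset.prod_pow, ← pow_mul,
    mul_comm (p + q), pow_mul] at h
  exact absurd h (not_lt.2 (pow_le_pow_left₀
    (pow_nonneg (Finset.prod_nonneg fun σ _ => (hr σ).le) _) h6 _))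

end Pool.Agent.Lib.MP_f61260_nt
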