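import Pool.Agent.Lib.MP_f61260_nt.RadStepA
import Pool.Agent.Lib.MP_f61260_nt.RadPoly

/-!
Step B: a small quotient of two short polynomials is a monomial.
-/

set_option autoImplicit false
set_option linter.unusedSectionVars false

open Module NumberField Polynomial Height

namespace Pool.Agent.Lib.MP_f61260_nt

variable {K L : Type*} [Field K] [NumberField K] [Field L] [NumberField L] [Algebra K L]

theorem natAbs_norm (c : 𝓞 K) :
    ((Algebra.norm ℤ c).natAbs : ℝ) = ∏ σ : K →+* ℂ, ‖σ c‖ := by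
  rw [← abs_norm_eq, ← Algebra.coe_norm_int, Nat.cast_natAbs]
  push_cast
  rfl

theorem degree_mul_lt {R : Type*} [CommRing R] {P Q : R[X]} {d m : ℕ} (hP : P.natDegree ≤ d)
    (hQ : Q.degree < m) : (P * Q).degree < (d + m : ℕ) := by
  refine (degree_mul_le _ _).trans_lt ?_
  push_cast
  refine lt_of_le_of_lt (add_le_add_left (degree_le_of_natDegree_le hP) _) ?_
  exact WithBot.add_lt_add_left (by simp) hQ

theorem latB (pb : PowerBasis K L) {d t : ℕ} (hn : pb.dim = d + t + d) (A B : (𝓞 K)[X])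
    (hA0 : A ≠ 0) (hc : IsCoprime (A.map (algebraMap (𝓞 K) K)) (B.map (algebraMap (𝓞 K) K)))
    (hA : A.natDegree = d) (hB : B.natDegree ≤ d) (I : Ideal (𝓞 K)) (hI : I ≠ ⊥)
    (hg : ∀ W : K[X],
      (∀ n, (A.map (algebraMap (𝓞 K) K) * W).coeff n ∈ (algebraMap (𝓞 K) K).range) →
      (∀ n, (B.map (algebraMap (𝓞 K) K) * W).coeff n ∈ (algebraMap (𝓞 K) K).range) →
      ∀ j, ∀ e ∈ I, algebraMap (𝓞 K) K e * W.coeff j ∈ (algebraMap (𝓞 K) K).range)
    (π : 𝓞 L) (hπ : (π : L) = pb.gen) (x y : 𝓞 L) (hx : (x : L) = aeval pb.gen A)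
    (hy : (y : L) = aeval pb.gen B) :
    (pbs pb hn).det (fam (x : L) y pb.gen) ≠ 0 ∧
      (Ideal.absNorm (Ideal.span {x, y}) : ℝ) * (∏ σ : K →+* ℂ, ‖σ (A.coeff d)‖) ^ t ≤
        idx pb * (∏ σ : K →+* ℂ, ‖σ ((pbs pb hn).det (fam (x : L) y pb.gen))‖) *
          (Ideal.absNorm I : ℝ) ^ t := by
  set f := algebraMap (𝓞 K) K with hf
  have hfi : Function.Injective f := FaithfulSMul.algebraMap_injective _ _
  have hA' : (A.map f).natDegree = d := by rw [natDegree_map_eq_of_injective hfi, hA]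
  have hB' : (B.map f).natDegree ≤ d := by rwa [natDegree_map_eq_of_injective hfi]
  have hA0' : A.map f ≠ 0 := (Polynomial.map_ne_zero_iff hfi).2 hA0
  have hAd : (A.map f).degree = d := by rw [degree_eq_natDegree hA0', hA']
  rw [← aeval_map_algebraMap K] at hx hy
  have key : ∀ V W : K[X], V.degree < (d + t : ℕ) → W.degree < (d + t : ℕ) →
      x * aeval pb.gen V = y * aeval pb.gen W →
      ∃ U : K[X], U.degree < t ∧ W = A.map f * U ∧ V = B.map f * U := by
    intro V W hV hW h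
    have h1 : A.map f * V - B.map f * W = 0 := by
      refine eq_zero_of_aeval pb ((degree_sub_le _ _).trans_lt (max_lt ?_ ?_)) ?_
      · rw [hn, add_comm]
        exact degree_mul_lt hA'.le hV
      · rw [hn, add_comm]
        exact degree_mul_lt hB' hW
      · rw [map_sub, map_mul, map_mul, ← hx, ← hy, h, sub_self]
    obtain ⟨U, hU⟩ : A.map f ∣ W := hc.dvd_of_dvd_mul_left ⟨V, by linear_combination -h1⟩
    refine ⟨U, ?_, hU, mul_left_cancel₀ hA0' (by rw [hU] at h1; linear_combination h1)⟩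
    rw [hU, degree_mul, hAd, Nat.cast_add] at hW
    exact WithBot.add_lt_add_iff_left (by simp) |>.1 hW
  have hδ : (pbs pb hn).det (fam (x : L) y pb.gen) ≠ 0 := by
    intro h0
    obtain ⟨V, W, h1, h2, h3, h4⟩ := fam_dep _ _ _ _ h0
    obtain ⟨U, -, hU1, hU2⟩ := key V W h2
      (h3.trans_le (by exact_mod_cast Nat.le_add_right _ _)) h4
    have hU : U = 0 := by
      by_contra hU
      rw [hU1, degree_mul, hAd, degree_eq_natDegree hU] at h3
      norm_cast at h3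
      omega
    simp [hU1, hU2, hU] at h1
  refine ⟨hδ, ?_⟩
  have hint : IsIntegral ℤ pb.gen := hπ ▸ π.isIntegral_coe
  set θ : (Fin t → 𝓞 K) →+ L :=
    (Fintype.linearCombination (𝓞 K) fun l : Fin t => (y : L) * pb.gen ^ (d + l)).toAddMonoidHom
    with hθ
  have hθ' : ∀ c, θ c = y * aeval pb.gen (pf d c) := by
    intro c
    simp [hθ, Fintype.linearCombination_apply, aeval_pf, Finset.mul_sum]
  obtain ⟨h1, h2⟩ := absNorm_mul_index_le (pbs pb hn) (by rw [lat_pbs]; exact lat_le_OL pb hint)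
    _ hδ (Ideal.span {x, y}) (hπ ▸ fam_mem x y π) θ (by
      intro c
      simp only [hθ, LinearMap.toAddMonoidHom_coe, Fintype.linearCombination_apply]
      refine AddSubgroup.sum_mem _ fun l _ => smul_mem_idl ⟨y * π ^ (d + l), ?_, ?_⟩ _
      · exact Ideal.mul_mem_right _ _ (Ideal.subset_span (by simp))
      · simp [← hπ])
  rw [lat_pbs] at h1
  obtain ⟨c₀, hc₀I, hc₀⟩ := Submodule.exists_mem_ne_zero_of_ne_bot hI
  obtain ⟨J, hJ⟩ : I ∣ Ideal.span {c₀} := Ideal.dvd_span_singleton.2 hc₀I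
  set T : Matrix (Fin t) (Fin t) (𝓞 K) :=
    Matrix.of fun l j => (A * X ^ (j : ℕ)).coeff (d + l) with hT
  have hTd : T.det = A.coeff d ^ t := by
    rw [Matrix.det_of_isUpperTriangular]
    · simp [hT, coeff_mul_X_pow]
    · intro l j hlj
      have : (j : ℕ) < l := hlj
      rw [hT, Matrix.of_apply]
      refine coeff_eq_zero_of_natDegree_lt (lt_of_le_of_lt natDegree_mul_le ?_)
      rw [natDegree_X_pow]
      omega
  have hAc : A.coeff d ≠ 0 := hA ▸ leadingCoeff_ne_zero.2 hA0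
  have h3 := index_ge_of_smul_le _ h2 T (by rw [hTd]; exact pow_ne_zero _ hAc) c₀ hc₀ J (by
    intro c hc
    obtain ⟨α, hα⟩ := (Submodule.mem_span_range_iff_exists_fun (𝓞 K)).1 hc
    rw [sum_fam, hθ'] at hα
    obtain ⟨U, hU, hU1, hU2⟩ := key ((pf 0 fun k => α (.inl k)).map f)
      ((pf d c - pf 0 fun k => α (.inr k)).map f)
      ((degree_map_le).trans_lt ((degree_pf 0 _).trans_eq (by rw [zero_add])))
      ((degree_map_le).trans_lt ((degree_sub_le _ _).trans_lt (max_lt (degree_pf _ _)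
        ((degree_pf _ _).trans_le (by exact_mod_cast by omega)))))
      (by rw [aeval_map_algebraMap, aeval_map_algebraMap, map_sub]; linear_combination hα)
    have h4 := hg U (fun n => by rw [← hU1, coeff_map]; exact ⟨_, rfl⟩)
      (fun n => by rw [← hU2, coeff_map]; exact ⟨_, rfl⟩)
    choose w hw using fun j : Fin t => h4 j c₀ hc₀I
    refine ⟨w, fun j => ?_, ?_⟩
    · rw [← Ideal.dvd_span_singleton, ← mul_dvd_mul_iff_left hI, ← hJ, Ideal.dvd_iff_le,
        Ideal.mul_le]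
      intro e he z hz
      obtain ⟨b, rfl⟩ := Ideal.mem_span_singleton'.1 hz
      obtain ⟨e', he'⟩ := h4 j e he
      refine Ideal.mem_span_singleton'.2 ⟨b * e', hfi ?_⟩
      simp only [map_mul, he', hw]
      ring
    · funext l
      apply hfi
      have h5 : (A.map f * U).coeff (d + l) = f (c l) := by
        rw [← hU1, coeff_map, coeff_sub, coeff_pf, coeff_eq_zero_of_degree_lt
          ((degree_pf _ _).trans_le (by exact_mod_cast by omega)), sub_zero]
      have h6 : U = ∑ j : Fin t, C (U.coeff j) * X ^ (j : ℕ) := by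
        rw [← Finset.sum_range fun j => C (U.coeff j) * X ^ j]
        simp only [C_mul_X_pow_eq_monomial]
        rcases eq_or_ne U 0 with h0 | h0
        · simp [h0]
        · exact U.as_sum_range' _ ((natDegree_lt_iff_degree_lt h0).2 hU)
      rw [Pi.smul_apply, smul_eq_mul, map_mul, ← h5, h6, Finset.mul_sum, finsetSum_coeff,
        Finset.mul_sum, Matrix.mulVec, dotProduct, map_sum]
      refine Finset.sum_congr rfl fun j _ => ?_
      rw [map_mul, hw, hT, Matrix.of_apply, ← coeff_map, mul_left_comm (A.map f), coeff_C_mul]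
      simp only [Polynomial.map_mul, Polynomial.map_pow, map_X]
      ring)
  have h4 : (Algebra.norm ℤ c₀).natAbs = Ideal.absNorm I * Ideal.absNorm J := by
    rw [← Ideal.absNorm_span_singleton, hJ, map_mul]
  have h5 : Ideal.absNorm J ≠ 0 := by
    intro h0
    rw [h0, mul_zero, Int.natAbs_eq_zero, Algebra.norm_eq_zero_iff] at h4
    exact hc₀ h4
  rw [h4, hTd, map_pow, Int.natAbs_pow, mul_pow, ← mul_assoc, mul_comm (Ideal.absNorm J ^ t)]
    at h3
  have h6 := Nat.le_of_mul_le_mul_right h3 (pow_pos (Nat.pos_of_ne_zero h5) _)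
  rw [← natAbs_norm, ← abs_norm_eq]
  calc _ ≤ (Ideal.absNorm (Ideal.span {x, y}) : ℝ) *
        (((lat K (fam (x : L) y pb.gen : Fin (d + t) ⊕ Fin d → L)).comap θ).index *
          (Ideal.absNorm I : ℝ) ^ t) := by
        gcongr
        exact_mod_cast h6
    _ ≤ _ := by
        rw [← mul_assoc]
        refine mul_le_mul_of_nonneg_right ?_ (by positivity)
        rw [idx]
        exact_mod_cast h1

theorem stepB (pb : PowerBasis K L) (a : 𝓞 K) (ha : a ≠ 0) {d t : ℕ} (hn : pb.dim = d + t + d)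
    (hπ : pb.gen ^ pb.dim = algebraMap K L a) (A B : (𝓞 K)[X]) (hA0 : A ≠ 0) (hB0 : B ≠ 0)
    (hc : IsCoprime (A.map (algebraMap (𝓞 K) K)) (B.map (algebraMap (𝓞 K) K)))
    (hA : A.natDegree * 2 = d) (hB : B.natDegree * 2 ≤ d) (γ : L)
    (hγ : γ * aeval pb.gen B = aeval pb.gen A)
    (h : 2 ^ finrank ℚ L * (mulHeight₁ γ ^ 2 * idx pb) ^ 2 < 4 ^ (finrank ℚ K * t)) :
    ∃ i j a b, A = monomial i a ∧ B = monomial j b := by
  set f := algebraMap (𝓞 K) K with hf
  have hfi : Function.Injective f := FaithfulSMul.algebraMap_injective _ _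
  refine (twist_decomp f hfi _ A B le_rfl hA0 hB0 hc).resolve_right ?_
  rintro ⟨g, i, j, A₁, B₁, hg, hA₁, hB₁, hG1, hG2⟩
  have hn0 : d + t + d ≠ 0 := hn ▸ pb.dim_pos.ne'
  have hint := isIntegral_gen pb a hπ
  set π : 𝓞 L := ⟨pb.gen, hint⟩ with hπdef
  set I₀ := Ideal.span (Set.range A.coeff ∪ Set.range B.coeff) with hI₀
  have hI₀0 : I₀ ≠ ⊥ := by
    rw [hI₀, Ne, Ideal.span_eq_bot]
    exact fun h0 => leadingCoeff_ne_zero.2 hA0 (h0 _ (Or.inl ⟨_, rfl⟩))
  have hcoe : ∀ P : (𝓞 K)[X], ((aeval π P : 𝓞 L) : L) = aeval pb.gen P := fun P =>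
    (aeval_algebraMap_apply L π P).symm
  set x : 𝓞 L := aeval π (A ^ 2) with hx
  set y : 𝓞 L := aeval π (B ^ 2) with hy
  have hAd : (A ^ 2).natDegree = d := by rw [natDegree_pow, ← hA, mul_comm]
  have hBd : (B ^ 2).natDegree ≤ d := by rw [natDegree_pow, mul_comm]; exact hB
  obtain ⟨hδ, h1⟩ := latB pb hn (A ^ 2) (B ^ 2) (pow_ne_zero _ hA0)
    (by rw [Polynomial.map_pow, Polynomial.map_pow]; exact hc.pow) hAd hBd (I₀ ^ 2)
    (pow_ne_zero _ hI₀0) (fun W h1 h2 j e he => gauss_int A B W h1 h2 j e he) π rfl x y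
    (hcoe _) (hcoe _)
  set δ := (pbs pb hn).det (fam (x : L) y pb.gen) with hδdef
  have hBπ : aeval pb.gen B ≠ 0 := by
    intro h0
    rw [← aeval_map_algebraMap K] at h0
    refine (Polynomial.map_ne_zero_iff hfi).2 hB0 (eq_zero_of_aeval pb ?_ h0)
    refine degree_le_natDegree.trans_lt ?_
    rw [natDegree_map_eq_of_injective hfi, hn]
    exact_mod_cast (by omega)
  have hy0 : y ≠ 0 := by
    intro h0
    have := hcoe (B ^ 2)
    rw [← hy, h0, map_pow] at this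
    exact pow_ne_zero 2 hBπ (by simpa using this.symm)
  have hxy : (x : L) / y = γ ^ 2 := by
    rw [hcoe, hcoe, map_pow, map_pow, ← hγ]
    field_simp
  have hH := height_eq x y hy0
  rw [hxy, mulHeight₁_pow] at hH
  set G := (A₁ * ng B₁ + ng A₁ * B₁) * (A₁ * ng B₁ - ng A₁ * B₁) with hG
  have hG0 : G ≠ 0 := mul_ne_zero hG1 hG2
  have hcoef : ∀ (P P₁ : (𝓞 K)[X]) (k : ℕ), P = X ^ k * expand (𝓞 K) g P₁ →
      ∀ n, P₁.coeff n = P.coeff (n * g + k) := by
    intro P P₁ k hP n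
    rw [hP, coeff_X_pow_mul, coeff_expand_mul hg]
  have hlead := lead_mem I₀ (A := A₁) (B := B₁)
    (fun n => Ideal.subset_span (Or.inl ⟨_, (hcoef A A₁ i hA₁ n).symm⟩))
    (fun n => Ideal.subset_span (Or.inr ⟨_, (hcoef B B₁ j hB₁ n).symm⟩))
  have h2 : (4 : ℝ) ^ finrank ℚ K * (Ideal.absNorm (I₀ ^ 2) : ℝ) ^ 2 ≤
      ∏ σ : K →+* ℂ, ‖σ G.leadingCoeff‖ := by
    rw [← natAbs_norm, ← Ideal.absNorm_span_singleton]
    have h3 := Ideal.absNorm_dvd_absNorm_of_le ((Ideal.span_singleton_le_iff_mem _).2 hlead)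
    have h4 := Ideal.absNorm_span_natCast (S := 𝓞 K) 4
    rw [RingOfIntegers.rank, Nat.cast_ofNat] at h4
    rw [map_mul, map_pow, h4] at h3
    have h5 := Nat.le_of_dvd (Nat.pos_of_ne_zero (by
      rw [Ne, Ideal.absNorm_eq_zero_iff, Ideal.span_singleton_eq_bot]
      exact leadingCoeff_ne_zero.2 hG0)) h3
    exact_mod_cast h5
  obtain ⟨r, u, T, hr, hra, hu, hT1, hT2⟩ := exists_emb pb (a : K) (by exact_mod_cast ha) hn
    (hn ▸ hπ) (Complex.isPrimitiveRoot_exp _ hn0)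
  obtain ⟨ζ, hζ⟩ : ∃ ζ : ℂ, ζ ^ g = -1 := IsAlgClosed.exists_pow_nat_eq _ hg
  have hζ1 : ‖ζ‖ = 1 := by
    have := congrArg norm hζ
    rw [norm_pow, norm_neg, norm_one] at this
    exact (pow_eq_one_iff_of_nonneg (norm_nonneg _) hg.ne').1 this
  set e := 2 * d ^ 2 + (2 * (i + j) + G.natDegree * g) * t with he
  have h3 : ∀ σ : K →+* ℂ, ‖σ δ‖ ^ 2 * (‖σ G.leadingCoeff‖ ^ t * r σ ^ e) ≤
      (‖σ ((A ^ 2).coeff d)‖ ^ t) ^ 2 *
        ∏ k, 2 * (max ‖T (σ, k) x‖ ‖T (σ, k) y‖) ^ 2 := by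
    intro σ
    set s := σ.comp f with hs
    have hsi : Function.Injective s := σ.injective.comp hfi
    have hev : ∀ (P : (𝓞 K)[X]) k, T (σ, k) (aeval π P : 𝓞 L) =
        (P.map s).eval (T (σ, k) pb.gen) := by
      intro P k
      rw [hcoe, aeval_def, hom_eval₂, eval_map]
      congr 1
      ext c
      exact hT1 σ k c
    have hGm : G.map s ≠ 0 := (Polynomial.map_ne_zero_iff hsi).2 hG0
    have hζ0 : (ζ ^ (i + j)) ^ 2 ≠ 0 := by
      rw [← norm_ne_zero_iff, norm_pow, norm_pow, hζ1]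
      simp
    have h4 := archB (Complex.isPrimitiveRoot_exp _ hn0) (hu σ) (r σ) (hr σ) ((A ^ 2).map s)
      ((B ^ 2).map s) (natDegree_map_le.trans hAd.le) (natDegree_map_le.trans hBd) hζ1
      (c₁ := (ζ ^ i) ^ 2) (c₂ := (ζ ^ j) ^ 2) (by simp [hζ1]) (by simp [hζ1])
      (C ((ζ ^ (i + j)) ^ 2) * X ^ (2 * (i + j)) * expand ℂ g (G.map s)) (by
        rw [hA₁, hB₁, hG]
        simp only [Polynomial.map_mul, Polynomial.map_pow, map_X, map_expand,
          Polynomial.map_add, Polynomial.map_sub, map_ng]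
        exact (twist_identity _ _ i j hζ).symm)
    have h5 := det_emb (pbs pb hn) σ (fun i => T (σ, i)) (hT1 σ) (fam (x : L) y pb.gen)
    have hxe := hev (A ^ 2)
    have hye := hev (B ^ 2)
    rw [← hx] at hxe
    rw [← hy] at hye
    rw [← hδdef] at h5
    simp only [map_fam, pbs_apply, map_pow, hxe, hye, hT2] at h5
    rw [natDegree_mul (mul_ne_zero (C_ne_zero.2 hζ0) (pow_ne_zero _ X_ne_zero))
      ((expand_ne_zero hg).2 hGm), natDegree_C_mul_X_pow _ _ hζ0, natDegree_expand,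
      natDegree_map_eq_of_injective hsi, leadingCoeff_mul, leadingCoeff_C_mul_X_pow,
      leadingCoeff_expand hg, leadingCoeff_map_of_injective hsi, h5, coeff_map] at h4
    simp only [hxe, hye, hT2]
    have h6 := van_pos (Complex.isPrimitiveRoot_exp _ hn0) (hu σ) (hr σ) hn0
    refine le_of_mul_le_mul_left (le_of_eq_of_le ?_ (h4.trans_eq (mul_assoc _ _ _)))
      (pow_pos h6 2)
    simp only [norm_mul, norm_pow, hζ1, one_pow, one_mul, mul_pow, mul_assoc]
    rfl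
  have hR : 1 ≤ ∏ σ, r σ := by
    refine (one_le_pow_iff_of_nonneg (Finset.prod_nonneg fun σ _ => (hr σ).le) hn0).1 ?_
    rw [← Finset.prod_pow, Finset.prod_congr rfl fun σ _ => hra σ, ← natAbs_norm]
    exact_mod_cast Nat.one_le_iff_ne_zero.2
      (Int.natAbs_ne_zero.2 (Algebra.norm_ne_zero_iff.2 ha))
  have h4 := Finset.prod_le_prod (s := Finset.univ)
    (fun σ _ => by have := hr σ; positivity) fun σ _ => h3 σ
  rw [Finset.prod_mul_distrib, Finset.prod_mul_distrib, Finset.prod_mul_distrib,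
    Finset.prod_pow, Finset.prod_pow, Finset.prod_pow, Finset.prod_pow, Finset.prod_pow,
    ← Fintype.prod_prod_type' fun σ k => 2 * (max ‖T (σ, k) x‖ ‖T (σ, k) y‖) ^ 2,
    T.prod_comp fun τ => 2 * (max ‖τ x‖ ‖τ y‖) ^ 2, Finset.prod_mul_distrib, Finset.prod_pow,
    ← hH, Finset.prod_const, Finset.card_univ, Embeddings.card] at h4
  have h5 : 0 < ∏ σ : K →+* ℂ, ‖σ δ‖ :=
    Finset.prod_pos fun σ _ => norm_pos_iff.2 ((map_ne_zero σ).2 hδ)
  have h6 : (0 : ℝ) < Ideal.absNorm (I₀ ^ 2) := by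
    rw [Nat.cast_pos, Nat.pos_iff_ne_zero, Ne, Ideal.absNorm_eq_zero_iff]
    exact pow_ne_zero _ hI₀0
  set D := ∏ σ : K →+* ℂ, ‖σ δ‖
  set N := (Ideal.absNorm (I₀ ^ 2) : ℝ)
  set M := (Ideal.absNorm (Ideal.span {x, y}) : ℝ)
  set E := (∏ σ : K →+* ℂ, ‖σ ((A ^ 2).coeff d)‖) ^ t
  have hE : 0 ≤ E := pow_nonneg (Finset.prod_nonneg fun σ _ => norm_nonneg _) _
  have hM : 0 ≤ M := Nat.cast_nonneg _
  refine absurd h (not_lt.2 (le_of_mul_le_mul_right ?_ (by positivity : 0 < (D * N ^ t) ^ 2)))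
  calc _ = D ^ 2 * ((4 ^ finrank ℚ K * N ^ 2) ^ t * 1) := by rw [pow_mul]; ring
    _ ≤ D ^ 2 * ((∏ σ : K →+* ℂ, ‖σ G.leadingCoeff‖) ^ t * (∏ σ, r σ) ^ e) := by
        gcongr
        exact one_le_pow₀ hR
    _ ≤ _ := h4
    _ = 2 ^ finrank ℚ L * (mulHeight₁ γ ^ 2) ^ 2 * (M * E) ^ 2 := by ring
    _ ≤ 2 ^ finrank ℚ L * (mulHeight₁ γ ^ 2) ^ 2 * (idx pb * D * N ^ t) ^ 2 := by gcongr
    _ = _ := by ring

end Pool.Agent.Lib.MP_f61260_nt
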