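import Pool.Agent.Lib.MP_f61260_nt.RadMain
import Pool.Agent.Lib.MP_f61260_nt.RadAD
import Pool.Agent.Lib.MP_f61260_nt.RadDefs

/-!
Towers of radical extensions inside `ℂ`.
-/

set_option autoImplicit false
set_option linter.unusedSectionVars false

open Module NumberField Polynomial Height IntermediateField

namespace Pool.Agent.Lib.MP_f61260_nt

section

variable {K L : Type*} [Field K] [NumberField K] [Field L] [NumberField L] [Algebra K L]

theorem reduction (a : ℤ) (n : ℕ) (π : L) (ha : Squarefree a) (h2 : 2 ≤ |a|) (hπ : π ^ n = a)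
    (hL : Algebra.adjoin K {π} = ⊤) (hd : IsCoprime (discr K) (a * n)) (γ : L) (hγ : γ ≠ 0)
    (h : absLogHeight₁ γ + wief a n.primeFactors < 3 / 100) :
    ∃ (β : K) (k : ℤ), γ = algebraMap K L β * π ^ k ∧ absLogHeight₁ β ≤ 3 * absLogHeight₁ γ := by
  have h1 := absLogHeight_eq (RingHom.id L) γ
  rw [RingHom.id_apply] at h1
  obtain ⟨β, -, k, h3, h4⟩ := main2 a ha h2 n π hπ hL hd γ hγ (h1 ▸ h)
  refine ⟨β, k, h3, ?_⟩
  have h5 := absLogHeight_eq (RingHom.id L) (algebraMap K L β)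
  rw [RingHom.id_apply, absLogHeight_eq (algebraMap K L)] at h5
  have h6 := absLogHeight_eq (RingHom.id K) β
  rw [RingHom.id_apply] at h6
  rw [h6, h5, h1, ← mul_div_assoc]
  refine div_le_div_of_nonneg_right ?_ (Nat.cast_nonneg _)
  have h7 := Real.log_le_log (mulHeight₁_pos _) h4
  rwa [Real.log_pow] at h7

theorem discr_step (a : ℤ) (n : ℕ) (π : L) (ha : Squarefree a) (h2 : 2 ≤ |a|) (hπ : π ^ n = a)
    (hL : Algebra.adjoin K {π} = ⊤) (hd : IsCoprime (discr K) a) (c : ℤ)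
    (hc : IsCoprime (discr K) c) (hc' : IsCoprime (a * n) c) : IsCoprime (discr L) c := by
  have hn0 : n ≠ 0 := by
    rintro rfl
    rw [pow_zero, eq_comm, ← Int.cast_one, Int.cast_inj] at hπ
    simp [hπ] at h2
  set pb := PowerBasis.ofAdjoinEqTop (IsIntegral.of_finite K π) hL with hpb
  have hgen : pb.gen = π := rfl
  have hn : pb.dim = n := by
    refine le_antisymm ?_ (Nat.le_of_dvd pb.dim_pos ?_)
    · rw [← pb.natDegree_minpoly, ← natDegree_X_pow_sub_C (n := n) (r := (a : K))]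
      exact natDegree_le_of_dvd (minpoly.dvd K _ (by simp [hgen, hπ]))
        (monic_X_pow_sub_C _ hn0).ne_zero
    · rw [← pb.finrank]
      exact finrank_eq_of_pow a ha h2 hd hπ
  have hπ' : pb.gen ^ pb.dim = algebraMap K L (a : 𝓞 K) := by simpa [hgen, hn] using hπ
  set x : 𝓞 L := ⟨π, isIntegral_gen pb a hπ'⟩ with hx
  have h1 := Ideal.mul_mem_left _ x (aeval_derivative_mem_differentIdeal (𝓞 K) K L x hL)
  have h3 : x * aeval x (derivative (minpoly (𝓞 K) x)) = ((a * n).natAbs * (a * n).sign : ℤ) := by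
    apply FaithfulSMul.algebraMap_injective (𝓞 L) L
    rw [map_mul, ← aeval_algebraMap_apply, ← aeval_map_algebraMap K, ← derivative_map,
      ← minpoly.isIntegrallyClosed_eq_field_fractions K L (Algebra.IsIntegral.isIntegral x),
      show algebraMap (𝓞 L) L x = pb.gen from rfl, minpoly_eq pb _ rfl hπ', derivative_sub,
      derivative_C, derivative_X_pow, sub_zero, mul_comm _ (Int.sign _), Int.sign_mul_natAbs]
    simp only [map_mul, map_natCast, map_pow, aeval_X, map_intCast, Int.cast_mul,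
      Int.cast_natCast, ← hπ, hn, hgen]
    rw [mul_left_comm, ← pow_succ', Nat.sub_add_cancel (Nat.pos_of_ne_zero hn0), mul_comm]
  have h4 : ((a * n).natAbs : 𝓞 L) ∈ differentIdeal (𝓞 K) (𝓞 L) := by
    have h5 := Ideal.mul_mem_right ((a * n).sign : 𝓞 L) _ (h3 ▸ h1)
    have h6 : (a * n).sign * (a * n).sign = 1 := by
      rw [← Int.sign_mul, Int.sign_eq_one_iff_pos]
      exact mul_self_pos.2 (mul_ne_zero ha.ne_zero (Nat.cast_ne_zero.2 hn0))
    rwa [← Int.cast_mul, mul_assoc, h6, mul_one, Int.cast_natCast] at h5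
  have h5 := Ideal.absNorm_dvd_absNorm_of_le ((Ideal.span_singleton_le_iff_mem _).2 h4)
  rw [Ideal.absNorm_span_natCast] at h5
  refine IsCoprime.of_isCoprime_of_dvd_left
    ((hc'.pow_left (m := finrank ℤ (𝓞 L))).mul_left (hc.pow_left (m := finrank K L))) ?_
  rw [← Int.natAbs_dvd_natAbs,
    natAbs_discr_eq_absNorm_differentIdeal_mul_natAbs_discr_pow K (𝓞 K) L (𝓞 L), Int.natAbs_mul,
    Int.natAbs_pow, Int.natAbs_pow]
  exact mul_dvd_mul_right h5 _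

end

/-- `K` is a number field whose discriminant is prime to `c`. -/
def Unr (K : IntermediateField ℚ ℂ) (c : ℤ) : Prop :=
  ∃ _ : NumberField K, IsCoprime (discr K) c

theorem step (K : IntermediateField ℚ ℂ) (a : ℤ) (n : ℕ) (π : ℂ) (ha : Squarefree a)
    (h2 : 2 ≤ |a|) (hπ : π ^ n = a) (hK : Unr K (a * n)) :
    (∀ c, Unr K c → IsCoprime (a * n) c → Unr (K ⊔ adjoin ℚ {π}) c) ∧
      ∀ γ ∈ K ⊔ adjoin ℚ {π}, γ ≠ 0 → absLogHeight₁ γ + wief a n.primeFactors < 3 / 100 →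
        ∃ β ∈ K, ∃ k : ℤ, γ = β * π ^ k ∧ absLogHeight₁ β ≤ 3 * absLogHeight₁ γ := by
  obtain ⟨_, hd⟩ := hK
  have hn0 : n ≠ 0 := by
    rintro rfl
    rw [pow_zero, eq_comm, ← Int.cast_one, Int.cast_inj] at hπ
    simp [hπ] at h2
  have hint : IsIntegral K π := IsIntegral.of_pow (Nat.pos_of_ne_zero hn0) (by
    rw [hπ, ← map_intCast (algebraMap K ℂ)]
    exact isIntegral_algebraMap)
  have := adjoin.finiteDimensional hint
  have hL : NumberField K⟮π⟯ := { to_finiteDimensional := .trans ℚ K K⟮π⟯ }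
  have hgen := (adjoin.powerBasis hint).adjoin_gen_eq_top
  have hπ' : (adjoin.powerBasis hint).gen ^ n = (a : K⟮π⟯) := Subtype.ext hπ
  rw [← restrictScalars_adjoin_eq_sup]
  constructor
  · rintro c ⟨_, hc⟩ hc'
    exact ⟨hL, discr_step a n _ ha h2 hπ' hgen hd.of_mul_right_left c hc hc'⟩
  · intro γ hγ hγ0 h
    have h1 : ∀ x : K⟮π⟯, absLogHeight₁ (x : ℂ) = absLogHeight₁ x := fun x =>
      (absLogHeight_eq (algebraMap K⟮π⟯ ℂ) x).trans (absLogHeight_eq (RingHom.id _) x).symm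
    have h3 : ∀ x : K, absLogHeight₁ (x : ℂ) = absLogHeight₁ x := fun x =>
      (absLogHeight_eq (algebraMap K ℂ) x).trans (absLogHeight_eq (RingHom.id _) x).symm
    obtain ⟨β, k, h4, h5⟩ := reduction a n _ ha h2 hπ' hgen hd ⟨γ, hγ⟩
      (fun h0 => hγ0 (congrArg Subtype.val h0)) (by rw [← h1]; exact h)
    refine ⟨β, β.2, k, ?_, by rwa [← h1, ← h3] at h5⟩
    have h6 := congrArg (algebraMap K⟮π⟯ ℂ) h4
    rwa [map_mul, map_zpow₀] at h6

theorem base (m : ℕ) (hm : m ≠ 0) {ζ : ℂ} (hζ : IsPrimitiveRoot ζ m) :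
    (∀ c : ℤ, IsCoprime (m : ℤ) c → Unr (adjoin ℚ {ζ}) c) ∧ ∀ p : ℕ, p.Prime → p.Coprime m →
      ∀ β ∈ adjoin ℚ {ζ}, β ≠ 0 → absLogHeight₁ β < Real.log 2 / (p * p + p) →
        ∃ j, 0 < j ∧ β ^ j = 1 := by
  have := NeZero.mk hm
  have hint : IsIntegral ℚ ζ := (hζ.isIntegral (Nat.pos_of_ne_zero hm)).tower_top
  have : IsCyclotomicExtension {m} ℚ ℚ⟮ζ⟯ := by
    change IsCyclotomicExtension {m} ℚ ℚ⟮ζ⟯.toSubalgebra
    rw [adjoin_simple_toSubalgebra_of_isAlgebraic hint.isAlgebraic]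
    exact hζ.adjoin_isCyclotomicExtension ℚ
  have hK : NumberField ℚ⟮ζ⟯ := IsCyclotomicExtension.numberField {m} ℚ _
  refine ⟨fun c hc => ⟨hK, discr_coprime m c hc⟩, fun p hp hpm β hβ hβ0 h => ?_⟩
  obtain ⟨j, hj, h1⟩ := (ad_cyclo m p hp hpm (⟨β, hβ⟩ : ℚ⟮ζ⟯)
    fun h0 => hβ0 (congrArg Subtype.val h0)).resolve_right (by
      rw [← absLogHeight_eq (algebraMap ℚ⟮ζ⟯ ℂ)]
      exact not_le.2 h)
  exact ⟨j, hj, congrArg Subtype.val h1⟩

theorem tower {ι : Type*} [DecidableEq ι] (a : ι → ℤ) (n : ι → ℕ) (π : ι → ℂ) (m : ℕ) (hm : m ≠ 0)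
    {ζ : ℂ} (hζ : IsPrimitiveRoot ζ m) (ha : ∀ i, Squarefree (a i)) (h2 : ∀ i, 2 ≤ |a i|)
    (hπ : ∀ i, π i ^ n i = a i) (hn : ∀ i, n i ≠ 0) (hma : ∀ i, IsCoprime (m : ℤ) (a i * n i))
    (hc : ∀ i j, i ≠ j → IsCoprime (a i * n i) (a j * n j))
    (hw : ∀ i, wief (a i) (n i).primeFactors ≤ 1 / 50) (p : ℕ) (hp : p.Prime) (hpm : p.Coprime m)
    (T : Finset ι) :
    (∀ c : ℤ, IsCoprime (m : ℤ) c → (∀ i ∈ T, IsCoprime (a i * n i) c) →
      Unr (adjoin ℚ (insert ζ (π '' T))) c) ∧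
    ∀ γ ∈ adjoin ℚ (insert ζ (π '' T)), γ ≠ 0 →
      3 ^ T.card * absLogHeight₁ γ < min (1 / 100) (Real.log 2 / (p * p + p)) →
      ∃ j, 0 < j ∧ ∃ k : ι → ℤ, γ ^ j = ∏ i ∈ T, (a i : ℂ) ^ k i := by
  induction T using Finset.induction_on with
  | empty =>
    obtain ⟨h1, h3⟩ := base m hm hζ
    simp only [Finset.coe_empty, Set.image_empty, insert_empty_eq, Finset.card_empty, pow_zero,
      one_mul, Finset.prod_empty, exists_const]
    exact ⟨fun c hc _ => h1 c hc,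
      fun γ hγ h0 h => h3 p hp hpm γ hγ h0 (h.trans_le (min_le_right _ _))⟩
  | insert i T hi ih =>
    obtain ⟨h1, h3⟩ := ih
    obtain ⟨h4, h5⟩ := step _ (a i) (n i) (π i) (ha i) (h2 i) (hπ i)
      (h1 _ (hma i) fun j hj => hc j i fun h => hi (h ▸ hj))
    rw [← adjoin_union, Set.union_singleton, Set.insert_comm, ← Set.image_insert_eq,
      ← Finset.coe_insert] at h4 h5
    refine ⟨fun c hmc h => h4 c (h1 c hmc fun j hj => h j (Finset.mem_insert_of_mem hj))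
      (h i (Finset.mem_insert_self _ _)), fun γ hγ h0 h => ?_⟩
    rw [Finset.card_insert_of_notMem hi, pow_succ, mul_assoc] at h
    have h6 : (1 : ℝ) ≤ 3 ^ T.card := one_le_pow₀ (by norm_num)
    obtain ⟨β, hβ, k, rfl, h7⟩ := h5 γ hγ h0 (by
      have h8 := h.trans_le (min_le_left _ _)
      have h9 := hw i
      by_contra h10
      nlinarith)
    obtain ⟨j, hj, l, h8⟩ := h3 β hβ (left_ne_zero_of_mul h0) (lt_of_le_of_lt (by gcongr) h)
    refine ⟨j * n i, mul_pos hj (Nat.pos_of_ne_zero (hn i)),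
      Function.update (fun x => l x * n i) i (k * j), ?_⟩
    rw [Finset.prod_insert hi, Function.update_self, mul_pow, pow_mul, h8, mul_comm,
      ← Finset.prod_pow, ← hπ i, ← zpow_natCast, ← zpow_natCast (π i), ← zpow_mul, ← zpow_mul]
    congr 1
    · congr 1
      push_cast
      ring
    · refine Finset.prod_congr rfl fun x hx => ?_
      rw [Function.update_of_ne (fun h : x = i => hi (h ▸ hx)), zpow_mul, zpow_natCast]

theorem cop (x y : ℤ) (h : ∀ q : ℕ, q.Prime → (q : ℤ) ∣ x → ¬ (q : ℤ) ∣ y) : IsCoprime x y := by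
  rw [Int.isCoprime_iff_gcd_eq_one]
  exact Nat.coprime_of_dvd fun q hq h1 h2 => h q hq (Int.natCast_dvd.2 h1) (Int.natCast_dvd.2 h2)

theorem small_points (s : ℕ) (a : Fin (s + 1) → ℤ) (ha : ∀ i, Squarefree (a i) ∧ 2 ≤ |a i|)
    (hc : ∀ i j, i ≠ j → IsCoprime (a i) (a j)) :
    ∃ c : ℝ, 0 < c ∧ ∀ (S : Fin (s + 1) → Set ℕ) (r : Fin (s + 1) → ℕ → ℂ),
      (∀ i (T : Finset ℕ), ↑T ⊆ S i → wief (a i) T ≤ 1 / 50) →
      (∀ i j, i ≠ j → ∀ q ∈ S i, q ∉ S j ∧ ¬ (q : ℤ) ∣ a j) →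
      (∀ i n, n ≠ 0 → r i n ^ n = a i ∧ ∀ m, m ≠ 0 → r i (m * n) ^ m = r i n) →
      ∀ α ∈ adjoin ℚ
        ({z : ℂ | ∃ m : ℕ, m ≠ 0 ∧ z ^ m = 1 ∧
            ∀ i, ∀ q ∈ m.primeFactors, q ∉ S i ∧ ¬ (q : ℤ) ∣ a i} ∪
          {z : ℂ | ∃ i n, n ≠ 0 ∧ ↑n.primeFactors ⊆ S i ∧ z = r i n}),
        α ≠ 0 → (∀ j : ℕ, j ≠ 0 → ∀ k : Fin (s + 1) → ℤ, α ^ j ≠ ∏ i, (a i : ℂ) ^ k i) →
        c ≤ absLogHeight₁ α := by
  obtain ⟨p, hp, hpa⟩ := Nat.exists_prime_and_dvd (n := (a 0).natAbs) (by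
    have := (ha 0).2
    rw [Int.abs_eq_natAbs] at this
    omega)
  have hp0 : (0 : ℝ) < p := by exact_mod_cast hp.pos
  have hl := Real.log_pos one_lt_two
  refine ⟨min (1 / 100) (Real.log 2 / (p * p + p)) / 3 ^ (s + 1), by positivity,
    fun S r hw hS hr α hα hα0 hdiv => ?_⟩
  set F := fun (m : ℕ) (n : Fin (s + 1) → ℕ) => adjoin ℚ
    (insert (Complex.exp (2 * Real.pi * Complex.I / m)) (Set.range fun i => r i (n i))) with hF
  set A := fun (m : ℕ) (n : Fin (s + 1) → ℕ) =>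
    (m ≠ 0 ∧ ∀ i, ∀ q ∈ m.primeFactors, q ∉ S i ∧ ¬ (q : ℤ) ∣ a i) ∧
      ∀ i, n i ≠ 0 ∧ ↑(n i).primeFactors ⊆ S i with hA
  have hμ : ∀ m n, m ≠ 0 → ∀ z : ℂ, z ^ m = 1 → z ∈ F m n := by
    intro m n hm z hz
    have := NeZero.mk hm
    obtain ⟨i, -, rfl⟩ := (Complex.isPrimitiveRoot_exp m hm).eq_pow_of_pow_eq_one hz
    exact pow_mem (subset_adjoin _ _ (Set.mem_insert _ _)) _
  have hle : ∀ m n m' n', A m n → A m' n' → F m n ≤ F (m' * m) (n' * n) := by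
    intro m n m' n' h h'
    rw [hF, adjoin_le_iff]
    rintro _ (rfl | ⟨i, rfl⟩)
    · refine hμ _ _ (mul_ne_zero h'.1.1 h.1.1) _ ?_
      rw [pow_mul', (Complex.isPrimitiveRoot_exp m h.1.1).pow_eq_one, one_pow]
    · change r i (n i) ∈ F _ _
      rw [← (hr i _ (h.2 i).1).2 _ (h'.2 i).1]
      exact pow_mem (subset_adjoin _ _ (Set.mem_insert_of_mem _
        (Set.mem_range_self (f := fun i => r i ((n' * n) i)) i))) _
  have hmul : ∀ m n m' n', A m n → A m' n' → A (m' * m) (n' * n) := by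
    intro m n m' n' h h'
    refine ⟨⟨mul_ne_zero h'.1.1 h.1.1, fun i q hq => ?_⟩,
      fun i => ⟨mul_ne_zero (h'.2 i).1 (h.2 i).1, ?_⟩⟩
    · rw [Nat.primeFactors_mul h'.1.1 h.1.1, Finset.mem_union] at hq
      exact hq.elim (h'.1.2 i q) (h.1.2 i q)
    · rw [Pi.mul_apply, Nat.primeFactors_mul (h'.2 i).1 (h.2 i).1, Finset.coe_union]
      exact Set.union_subset (h'.2 i).2 (h.2 i).2
  have hone : A 1 1 := ⟨⟨one_ne_zero, fun i q hq => absurd hq (by simp)⟩, fun i => by simp⟩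
  have hbin : ∀ x y : ℂ, (∃ m n, A m n ∧ x ∈ F m n) → (∃ m n, A m n ∧ y ∈ F m n) →
      ∃ m n, A m n ∧ x ∈ F m n ∧ y ∈ F m n := by
    rintro x y ⟨m, n, h, hx⟩ ⟨m', n', h', hy⟩
    refine ⟨_, _, hmul _ _ _ _ h h', hle _ _ _ _ h h' hx, ?_⟩
    rw [mul_comm m', mul_comm n']
    exact hle _ _ _ _ h' h hy
  obtain ⟨m, n, h, hαF⟩ : ∃ m n, A m n ∧ α ∈ F m n := by
    clear hα0 hdiv
    induction hα using adjoin_induction with
    | mem x hx =>
      rcases hx with ⟨m, hm, h1, h2⟩ | ⟨i, n, h1, h2, rfl⟩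
      · exact ⟨m, 1, ⟨⟨hm, h2⟩, hone.2⟩, hμ _ _ hm _ h1⟩
      · refine ⟨1, Function.update 1 i n, ⟨hone.1, fun j => ?_⟩,
          subset_adjoin _ _ (Set.mem_insert_of_mem _ ⟨i, by simp⟩)⟩
        rcases eq_or_ne j i with rfl | hj
        · simpa using ⟨h1, h2⟩
        · simp [hj]
    | algebraMap x => exact ⟨1, 1, hone, IntermediateField.algebraMap_mem _ _⟩
    | add x y _ _ hx hy =>
      obtain ⟨m, n, h, h1, h2⟩ := hbin x y hx hy
      exact ⟨m, n, h, add_mem h1 h2⟩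
    | inv x _ hx =>
      obtain ⟨m, n, h, h1⟩ := hx
      exact ⟨m, n, h, inv_mem h1⟩
    | mul x y _ _ hx hy =>
      obtain ⟨m, n, h, h1, h2⟩ := hbin x y hx hy
      exact ⟨m, n, h, mul_mem h1 h2⟩
  have hdvd : ∀ (q : ℕ) i, q.Prime → (q : ℤ) ∣ a i * n i → (q : ℤ) ∣ a i ∨ q ∈ S i :=
    fun q i hq h1 => ((Nat.prime_iff_prime_int.1 hq).dvd_or_dvd h1).imp_right fun h2 =>
      (h.2 i).2 (Nat.mem_primeFactors.2 ⟨hq, by exact_mod_cast h2, (h.2 i).1⟩)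
  have hm : ∀ (q : ℕ) i, q.Prime → (q : ℤ) ∣ m → q ∉ S i ∧ ¬ (q : ℤ) ∣ a i := fun q i hq h1 =>
    h.1.2 i q (Nat.mem_primeFactors.2 ⟨hq, by exact_mod_cast h1, h.1.1⟩)
  have key := (tower a n (fun i => r i (n i)) m h.1.1 (Complex.isPrimitiveRoot_exp m h.1.1)
    (fun i => (ha i).1) (fun i => (ha i).2) (fun i => (hr i _ (h.2 i).1).1) (fun i => (h.2 i).1)
    (fun i => cop _ _ fun q hq h1 h2 => (hdvd q i hq h2).elim (hm q i hq h1).2 (hm q i hq h1).1)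
    (fun i j hij => cop _ _ fun q hq h1 h2 => by
      rcases hdvd q i hq h1 with h3 | h3 <;> rcases hdvd q j hq h2 with h4 | h4
      · exact (Nat.prime_iff_prime_int.1 hq).not_isUnit ((hc i j hij).isUnit_of_dvd' h3 h4)
      · exact (hS j i hij.symm q h4).2 h3
      · exact (hS i j hij q h3).2 h4
      · exact (hS i j hij q h3).1 h4)
    (fun i => hw i _ (h.2 i).2) p hp (hp.coprime_iff_not_dvd.2 fun h1 =>
      (hm p 0 hp (by exact_mod_cast h1)).2 (Int.natCast_dvd.2 hpa)) Finset.univ).2 α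
    (by simpa [hF] using hαF) hα0
  by_contra h1
  obtain ⟨j, hj, k, hk⟩ := key (by
    rw [not_le, lt_div_iff₀' (by positivity)] at h1
    simpa using h1)
  exact hdiv j hj.ne' k hk

end Pool.Agent.Lib.MP_f61260_nt
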