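import Pool.Agent.Lib.MP_f61260_nt.RadTower
import Pool.Agent.Lib.MP_f61260_nt.RadAD2

/-!
Towers of radical extensions with a constant independent of the number of radicals.
-/

set_option autoImplicit false
set_option linter.unusedSectionVars false

open Module NumberField Polynomial Height IntermediateField

namespace Pool.Agent.Lib.MP_f61260_nt

theorem prod_le_sq {K ι : Type*} [Field K] [NumberField K] (V : Finset ι) (a : ι → ℤ)
    (ha : ∀ i, Squarefree (a i)) (hd : ∀ i ∈ V, IsCoprime (discr K) (a i))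
    (hc : ∀ i j, i ≠ j → IsCoprime (a i) (a j)) {β : K} (hβ : β ≠ 0) {n : ℕ} (e : ι → ℤ)
    (he : ∀ i ∈ V, 2 * (e i).natAbs ≤ n) :
    mulHeight₁ (∏ i ∈ V, (a i : K) ^ e i) ≤ mulHeight₁ (β ^ n * ∏ i ∈ V, (a i : K) ^ e i) ^ 2 := by
  have ha0 : ∀ i, (a i : K) ≠ 0 := fun i => by exact_mod_cast (ha i).ne_zero
  set z := β ^ n * ∏ i ∈ V, (a i : K) ^ e i with hz
  have hz0 : z ≠ 0 :=
    mul_ne_zero (pow_ne_zero _ hβ) (Finset.prod_ne_zero_iff.2 fun i _ => zpow_ne_zero _ (ha0 i))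
  have hf : ∀ x : K, x ≠ 0 → (fun v : FinitePlace K => max (v x) 1).HasFiniteMulSupport :=
    fun x hx => (FinitePlace.hasFiniteMulSupport hx).subset fun v hv h => hv (by simp [h])
  set A := ∏ i ∈ V, a i ^ (e i).natAbs with hA
  have hA0 : A ≠ 0 := Finset.prod_ne_zero_iff.2 fun i _ => pow_ne_zero _ (ha i).ne_zero
  have hA1 : (A : K)⁻¹ ≠ 0 := inv_ne_zero (by exact_mod_cast hA0)
  have h1 : mulHeight₁ (∏ i ∈ V, (a i : K) ^ e i) ≤ ∏ᶠ v : FinitePlace K, v (A : K)⁻¹ := by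
    refine (mulHeight₁_prod_le _ _).trans_eq ?_
    rw [FinitePlace.prod_eq_inv_abs_norm hA1, ← map_intCast (algebraMap ℚ K), ← map_inv₀,
      Algebra.norm_algebraMap]
    simp [mulHeight₁_zpow, mulHeight₁_intCast _ (ha _).ne_zero, hA, ← pow_mul, mul_comm,
      Finset.abs_prod, ← Finset.prod_pow]
  rw [sq]
  refine h1.trans (le_trans ?_ (mul_le_mul (finprod_le_mulHeight₁ z)
    ((finprod_le_mulHeight₁ z⁻¹).trans_eq (mulHeight₁_inv z))
    (finprod_nonneg fun v => by positivity) (mulHeight₁_nonneg _)))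
  rw [← finprod_mul_distrib (hf z hz0) (hf _ (inv_ne_zero hz0))]
  refine finprod_le_finprod (FinitePlace.hasFiniteMulSupport hA1)
    (fun v => by positivity) ((hf z hz0).mul (hf _ (inv_ne_zero hz0))) fun v => ?_
  obtain ⟨N, hN, h3, h4⟩ := place_zpow v
  have h5 : 1 ≤ max (v z) 1 := le_max_right _ _
  have h6 : 1 ≤ max (v z⁻¹) 1 := le_max_right _ _
  change v _ ≤ max (v z) 1 * max (v z⁻¹) 1
  by_cases h : ∀ i ∈ V, v (a i) = 1
  · refine le_of_eq_of_le ?_ (one_le_mul_of_one_le_of_one_le h5 h6)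
    rw [map_inv₀, hA, Int.cast_prod, map_prod, inv_eq_one]
    exact Finset.prod_eq_one fun i hi => by simp [h i hi]
  push Not at h
  obtain ⟨i, hi, h⟩ := h
  replace h := (h4 _ (ha i) (hd i hi)).resolve_left h
  have hj : ∀ j ∈ V, j ≠ i → v (a j) = 1 := fun j hj hji =>
    (h4 _ (ha j) (hd j hj)).resolve_right fun h7 => by
      obtain ⟨s, t, hst⟩ := hc j i hji
      have h8 := v.add_le (s * a j) (t * a i)
      have h9 : ∀ c : ℤ, v c ≤ 1 := fun c => by
        rw [← FinitePlace.norm_embedding_eq]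
        simpa using FinitePlace.norm_le_one K v.maximalIdeal (c : 𝓞 K)
      rw [← Int.cast_mul, ← Int.cast_mul, ← Int.cast_add, hst, Int.cast_one, map_one,
        Int.cast_mul, Int.cast_mul, map_mul, map_mul, h, h7] at h8
      have h10 : N⁻¹ < 1 := inv_lt_one_of_one_lt₀ hN
      have h11 : 0 < N⁻¹ := by positivity
      refine h8.not_gt (max_lt ?_ ?_)
      · nlinarith [h9 s]
      · nlinarith [h9 t]
  obtain ⟨m, hm⟩ := h3 β hβ
  have h7 : v z = N ^ (m * n - e i) := by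
    rw [hz, map_mul, map_pow, map_prod, Finset.prod_eq_single_of_mem i hi fun j h1 h2 => by
      rw [map_zpow₀, hj j h1 h2, one_zpow], map_zpow₀, hm, h, inv_zpow', ← zpow_natCast,
      ← zpow_mul, ← zpow_add₀ (by positivity), sub_eq_add_neg]
  have h8 : v (A : K)⁻¹ = N ^ ((e i).natAbs : ℤ) := by
    rw [map_inv₀, hA, Int.cast_prod, map_prod, Finset.prod_eq_single_of_mem i hi fun j h1 h2 => by
      rw [Int.cast_pow, map_pow, hj j h1 h2, one_pow], Int.cast_pow, map_pow, h, inv_pow, inv_inv,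
      zpow_natCast]
  have h9 : ((e i).natAbs : ℤ) ≤ m * n - e i ∨ ((e i).natAbs : ℤ) ≤ -(m * n - e i) := by
    have hk := he i hi
    rcases lt_trichotomy m 0 with hm | rfl | hm
    · have : m * n ≤ -n := by nlinarith [Int.natCast_nonneg n]
      omega
    · omega
    · have : n ≤ m * n := by nlinarith [Int.natCast_nonneg n]
      omega
  rw [h8]
  rcases h9 with h9 | h9
  · refine le_trans ?_ (le_mul_of_one_le_right (by positivity) h6)
    exact le_max_of_le_left (h7 ▸ zpow_le_zpow_right₀ hN.le h9)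
  · refine le_trans ?_ (le_mul_of_one_le_left (by positivity) h5)
    rw [map_inv₀, h7, ← zpow_neg]
    exact le_max_of_le_left (zpow_le_zpow_right₀ hN.le h9)

theorem height_le_three {ι : Type*} (K : IntermediateField ℚ ℂ) (V : Finset ι) (a : ι → ℤ)
    (n : ι → ℕ) (π : ι → ℂ) (ha : ∀ i, Squarefree (a i)) (hn : ∀ i, n i ≠ 0)
    (hπ : ∀ i, π i ^ n i = a i) (hK : NumberField K) (hd : ∀ i ∈ V, Unr K (a i))
    (hc : ∀ i j, i ≠ j → IsCoprime (a i) (a j)) {β : ℂ} (hβ : β ∈ K) (hβ0 : β ≠ 0) (k : ι → ℤ)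
    (hk : ∀ i ∈ V, 2 * (k i).natAbs ≤ n i) :
    absLogHeight₁ β ≤ 3 * absLogHeight₁ (β * ∏ i ∈ V, π i ^ k i) := by
  set N := ∏ i ∈ V, n i with hN
  have hN0 : 0 < N := Finset.prod_pos fun i _ => Nat.pos_of_ne_zero (hn i)
  have hdvd : ∀ i ∈ V, n i * (N / n i) = N := fun i hi =>
    Nat.mul_div_cancel' (Finset.dvd_prod_of_mem n hi)
  have h1 := prod_le_sq (K := K) V a ha (fun i hi => (hd i hi).2) hc (β := ⟨β, hβ⟩)
    (fun h => hβ0 (congrArg Subtype.val h)) (n := N) (fun i => k i * (N / n i : ℕ)) fun i hi => by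
      rw [Int.natAbs_mul, Int.natAbs_natCast, ← mul_assoc]
      exact (Nat.mul_le_mul_right _ (hk i hi)).trans_eq (hdvd i hi)
  set P := ∏ i ∈ V, π i ^ k i with hP
  have h2 : algebraMap K ℂ (∏ i ∈ V, (a i : K) ^ (k i * (N / n i : ℕ))) = P ^ N := by
    rw [map_prod, hP, ← Finset.prod_pow]
    refine Finset.prod_congr rfl fun i hi => ?_
    rw [map_zpow₀, map_intCast, ← hπ, ← zpow_natCast, ← zpow_natCast, ← zpow_mul, ← zpow_mul,
      mul_left_comm, ← Nat.cast_mul, hdvd i hi]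
  have hβi : IsIntegral ℚ β := (IsIntegral.of_finite ℚ (⟨β, hβ⟩ : K)).map K.val
  have hPi : IsIntegral ℚ P := IsIntegral.of_pow hN0 (h2 ▸ (IsIntegral.of_finite ℚ _).map K.val)
  have h3 := Real.log_le_log (mulHeight₁_pos _) h1
  rw [Real.log_pow, ← logHeight₁, ← logHeight₁] at h3
  have h4 := div_le_div_of_nonneg_right h3 (Nat.cast_nonneg (finrank ℚ K))
  rw [mul_div_assoc, ← absLogHeight_eq (algebraMap K ℂ), ← absLogHeight_eq (algebraMap K ℂ),
    map_mul, map_pow, h2, show algebraMap K ℂ ⟨β, hβ⟩ = β from rfl, ← mul_pow, absH_pow hPi,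
    absH_pow (hβi.mul hPi)] at h4
  have hP0 : P ≠ 0 := Finset.prod_ne_zero_iff.2 fun i _ => zpow_ne_zero _ fun h => by
    have h5 := hπ i
    rw [h, zero_pow (hn i), eq_comm, Int.cast_eq_zero] at h5
    exact (ha i).ne_zero h5
  have h5 := absH_mul_le (hβi.mul hPi) (isIntegral_zpow hPi (-1))
  rw [absH_zpow hPi, zpow_neg_one, mul_inv_cancel_right₀ hP0] at h5
  have h6 : (0 : ℝ) < N := by exact_mod_cast hN0
  norm_num at h4 h5
  nlinarith

theorem base' (K : IntermediateField ℚ ℂ) [NumberField K] : ∃ c : ℝ, 0 < c ∧ ∀ m : ℕ, m ≠ 0 →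
    ∀ ζ : ℂ, IsPrimitiveRoot ζ m → NumberField (K ⊔ adjoin ℚ {ζ} : IntermediateField ℚ ℂ) ∧
      (∀ d : ℤ, IsCoprime (discr K * m) d → Unr (K ⊔ adjoin ℚ {ζ}) d) ∧
      ∀ β ∈ K ⊔ adjoin ℚ {ζ}, β ≠ 0 → absLogHeight₁ β < c → ∃ j, 0 < j ∧ β ^ j = 1 := by
  obtain ⟨c, hc, h⟩ := relAD K
  refine ⟨c, hc, fun m hm ζ hζ => ?_⟩
  have hint : IsIntegral K ζ := (hζ.isIntegral (Nat.pos_of_ne_zero hm)).tower_top
  have := adjoin.finiteDimensional hint
  have hL : NumberField K⟮ζ⟯ := { to_finiteDimensional := .trans ℚ K K⟮ζ⟯ }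
  have hgen := (adjoin.powerBasis hint).adjoin_gen_eq_top
  have hζ' : IsPrimitiveRoot (adjoin.powerBasis hint).gen m :=
    IsPrimitiveRoot.of_map_of_injective (f := algebraMap K⟮ζ⟯ ℂ) hζ (algebraMap K⟮ζ⟯ ℂ).injective
  rw [← restrictScalars_adjoin_eq_sup]
  refine ⟨hL, fun d hd => ⟨hL, discr_cyc hm hζ' hgen d hd.of_mul_left_left hd.of_mul_left_right⟩,
    fun β hβ hβ0 h1 => ?_⟩
  obtain ⟨j, hj, h2⟩ := h m hm K⟮ζ⟯ _ hζ' hgen ⟨β, hβ⟩ (fun h => hβ0 (congrArg Subtype.val h))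
    (by rwa [← absH_map (algebraMap K⟮ζ⟯ ℂ)])
  exact ⟨j, hj, congrArg Subtype.val h2⟩

theorem tower' {ι : Type*} [DecidableEq ι] (K : IntermediateField ℚ ℂ) (hK : NumberField K)
    (c : ℝ) (hc : ∀ β ∈ K, β ≠ 0 → absLogHeight₁ β < c → ∃ j, 0 < j ∧ β ^ j = 1)
    (a : ι → ℤ) (n : ι → ℕ) (π : ι → ℂ) (ha : ∀ i, Squarefree (a i)) (h2 : ∀ i, 2 ≤ |a i|)
    (hπ : ∀ i, π i ^ n i = a i) (hKa : ∀ i, Unr K (a i * n i))
    (hcop : ∀ i j, i ≠ j → IsCoprime (a i * n i) (a j * n j))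
    (hw : ∀ i, wief (a i) (n i).primeFactors ≤ 1 / 50) (U : Finset ι) :
    (NumberField (K ⊔ adjoin ℚ (π '' U) : IntermediateField ℚ ℂ) ∧
      ∀ j ∉ U, Unr (K ⊔ adjoin ℚ (π '' U)) (a j * n j)) ∧
    ∀ β ∈ K ⊔ adjoin ℚ (π '' U), β ≠ 0 → ∀ V : Finset ι, Disjoint U V → ∀ k : ι → ℤ,
      (∀ i ∈ V, 2 * (k i).natAbs ≤ n i) →
      3 * absLogHeight₁ (β * ∏ i ∈ V, π i ^ k i) < min (1 / 100) c →
      ∃ j, 0 < j ∧ ∃ q : ℚ, β ^ j = q := by
  have hn : ∀ i, n i ≠ 0 := fun i h => by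
    have h1 := hπ i
    have h3 := h2 i
    rw [h, pow_zero, eq_comm, ← Int.cast_one, Int.cast_inj] at h1
    simp [h1] at h3
  have h0 : ∀ (L : IntermediateField ℚ ℂ) (U V : Finset ι), Disjoint U V → NumberField L →
      (∀ j ∉ U, Unr L (a j * n j)) → ∀ β ∈ L, β ≠ 0 → ∀ k : ι → ℤ,
      (∀ i ∈ V, 2 * (k i).natAbs ≤ n i) →
      absLogHeight₁ β ≤ 3 * absLogHeight₁ (β * ∏ i ∈ V, π i ^ k i) :=
    fun L U V hUV hL h β hβ hβ0 k hk => height_le_three L V a n π ha hn hπ hL (fun i hi => by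
      obtain ⟨_, h1⟩ := h i (Finset.disjoint_right.1 hUV hi)
      exact ⟨_, h1.of_mul_right_left⟩)
      (fun i j hij => (hcop i j hij).of_mul_left_left.of_mul_right_left) hβ hβ0 k hk
  induction U using Finset.induction_on with
  | empty =>
    rw [Finset.coe_empty, Set.image_empty, adjoin_empty, sup_bot_eq]
    refine ⟨⟨hK, fun j _ => hKa j⟩, fun β hβ hβ0 V hV k hk h => ?_⟩
    obtain ⟨j, hj, h1⟩ := hc β hβ hβ0 ((h0 K ∅ V hV hK (fun j _ => hKa j) β hβ hβ0 k hk).trans_lt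
      (h.trans_le (min_le_right _ _)))
    exact ⟨j, hj, 1, by simpa using h1⟩
  | insert i U hi ih =>
    obtain ⟨⟨-, h1⟩, h3⟩ := ih
    obtain ⟨h4, h5⟩ := step _ (a i) (n i) (π i) (ha i) (h2 i) (hπ i) (h1 i hi)
    rw [sup_assoc, ← adjoin_union, Set.union_singleton, ← Set.image_insert_eq,
      ← Finset.coe_insert] at h4 h5
    have h6 := (h4 1 ⟨(h1 i hi).1, isCoprime_one_right⟩ isCoprime_one_right).1
    have h7 : ∀ j ∉ insert i U, Unr _ (a j * n j) := fun j hj =>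
      h4 _ (h1 j fun h => hj (Finset.mem_insert_of_mem h))
        (hcop i j fun h => hj (h ▸ Finset.mem_insert_self _ _))
    refine ⟨⟨h6, h7⟩, fun γ hγ hγ0 V hV k hk h => ?_⟩
    obtain ⟨β, hβ, l, rfl, -⟩ := h5 γ hγ hγ0 (by
      have h8 := (h0 _ _ V hV h6 h7 γ hγ hγ0 k hk).trans_lt (h.trans_le (min_le_left _ _))
      linarith [hw i])
    have hπ0 : π i ≠ 0 := fun h => by
      have h5 := hπ i
      rw [h, zero_pow (hn i), eq_comm, Int.cast_eq_zero] at h5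
      exact (ha i).ne_zero h5
    have hiV : i ∉ V := Finset.disjoint_left.1 hV (Finset.mem_insert_self _ _)
    have h8 : β * π i ^ l = β * (a i : ℂ) ^ l.bdiv (n i) * π i ^ l.bmod (n i) := by
      rw [← hπ, ← zpow_natCast, ← zpow_mul, mul_assoc, ← zpow_add₀ hπ0, Int.bdiv_add_bmod]
    obtain ⟨j, hj, q, hq⟩ := h3 (β * (a i : ℂ) ^ l.bdiv (n i))
      (mul_mem hβ (zpow_mem (intCast_mem _ _) _)) (left_ne_zero_of_mul (h8 ▸ hγ0)) (insert i V)
      (Finset.disjoint_insert_right.2 ⟨hi, (Finset.disjoint_insert_left.1 hV).2⟩)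
      (Function.update k i (l.bmod (n i))) (fun x hx => by
        rcases Finset.mem_insert.1 hx with rfl | hx
        · have h9 := Int.le_bmod (x := l) (Nat.pos_of_ne_zero (hn x))
          have h10 := Int.bmod_lt (x := l) (Nat.pos_of_ne_zero (hn x))
          rw [Function.update_self]
          omega
        · rw [Function.update_of_ne (fun h : x = i => hiV (h ▸ hx))]
          exact hk x hx) (by
        rwa [Finset.prod_insert hiV, Function.update_self, ← mul_assoc, ← h8,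
          Finset.prod_congr rfl fun x hx => by
            rw [Function.update_of_ne (fun h : x = i => hiV (h ▸ hx))]])
    refine ⟨j * n i, mul_pos hj (Nat.pos_of_ne_zero (hn i)),
      q ^ n i * (a i : ℚ) ^ (l.bmod (n i) * j), ?_⟩
    rw [h8, mul_pow, pow_mul, hq]
    push_cast
    rw [← hπ i, ← zpow_natCast (π i), ← zpow_natCast (π i ^ _), ← zpow_mul, ← zpow_mul]
    congr 2
    push_cast
    ring

end Pool.Agent.Lib.MP_f61260_nt
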