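import Pool.Agent.Lib.MP_f61260_nt.RadKummer

set_option autoImplicit false

open NumberField Pool.Agent.Lib.MP_f61260_nt

namespace Pool.Agent.Results.MP_f61260_nt.RadicalFields

theorem result :
    ∀ Γ : Subgroup ℂˣ, Γ.FG → (∀ g ∈ Γ, IsAlgebraic ℚ (g : ℂ)) →
      ∀ (K : IntermediateField ℚ ℂ) [NumberField K] (Δ : Subgroup ℂˣ), Δ.FG →
        (∀ g ∈ Δ, (g : ℂ) ∈ K) → ∃ c : ℝ, 0 < c ∧
        ∀ (t m : ℕ) (b : Fin t → ℤ) (n : Fin t → ℕ) (π : Fin t → ℂ), m ≠ 0 →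
          (∀ i, Squarefree (b i) ∧ 2 ≤ |b i| ∧ π i ^ n i = b i ∧
            IsCoprime (discr K * m) (b i * n i) ∧ wief (b i) (n i).primeFactors ≤ 1 / 50) →
          (∀ i j, i ≠ j → IsCoprime (b i * n i) (b j * n j)) →
          ∀ γ ∈ K ⊔ IntermediateField.adjoin ℚ ({z : ℂ | z ^ m = 1} ∪ Set.range π),
            ∀ δ ∈ divSet Δ, γ ≠ 0 → γ * δ ∉ divSet Γ →
            c / (minpoly (IntermediateField.adjoin ℚ (divSet Γ)) (γ * δ)).natDegree ≤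
              absLogHeight₁ (γ * δ) :=
  fun Γ h1 h2 K _ Δ h3 h4 => strong_form Γ h1 h2 K Δ h3 h4

end Pool.Agent.Results.MP_f61260_nt.RadicalFields
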