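import Pool.Agent.Lib.MP_f61260_nt.Det5

set_option autoImplicit false
set_option maxHeartbeats 400000

namespace Pool.Agent.Lib.MP_f61260_nt

open Polynomial Real

variable {p : ℕ} [hp : Fact p.Prime]

lemma ring_far {ι : Type} [Fintype ι] (a : ι → Om p) :
    ∃ ξ : Om p, ‖ξ‖ ≤ 1 ∧ ∀ i, 1 ≤ ‖ξ - a i‖ := by
  obtain ⟨l, hl, hl'⟩ := Nat.exists_infinite_primes (Fintype.card ι + p + 1)
  obtain ⟨ζ, hζ⟩ := ex_prim (p := p) hl'.pos
  have h1 := norm_root hl'.pos hζ.pow_eq_one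
  have h0 := hζ.ne_zero hl'.ne_zero
  by_contra hc
  push Not at hc
  choose f hf using fun j : Fin l => hc (ζ ^ (j : ℕ)) (by rw [norm_pow, h1, one_pow])
  obtain ⟨j, j', hj, h⟩ := Fintype.exists_ne_map_eq_of_card_lt f (by simp; omega)
  have h2 := nsub_lt (hf j) (h ▸ hf j')
  have h3 : ζ ^ (j : ℕ) - ζ ^ (j' : ℕ) = (ζ ^ (j : ℕ) / ζ ^ (j' : ℕ) - 1) * ζ ^ (j' : ℕ) := by
    field_simp
  rw [sub_sub_sub_cancel_right, h3, norm_mul, norm_pow, h1, one_pow, mul_one,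
    tame (n := l) (fun h => by have := (Nat.prime_dvd_prime_iff_eq hp.out hl').1 h; omega) (by
      rw [div_pow, ← pow_mul, ← pow_mul, mul_comm _ l, mul_comm _ l, pow_mul, pow_mul,
        hζ.pow_eq_one]; simp) fun h => hj (Fin.ext (hζ.pow_inj j.2 j'.2
      ((div_eq_one_iff_eq (pow_ne_zero _ h0)).1 h)))] at h2
  exact lt_irrefl _ h2

lemma ring_comb {ι : Type} [Fintype ι] (Y Y' : ι → Om p) : ∃ ξ : Om p, ‖ξ‖ ≤ 1 ∧
    ∀ i, ‖Y i‖ ≤ ‖ξ * Y i + Y' i‖ ∧ ‖Y' i‖ ≤ ‖ξ * Y i + Y' i‖ := by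
  obtain ⟨ξ, h1, h2⟩ := ring_far fun i => -(Y' i / Y i)
  refine ⟨ξ, h1, fun i => ?_⟩
  have h3 : ‖Y i‖ ≤ ‖ξ * Y i + Y' i‖ := by
    rcases eq_or_ne (Y i) 0 with h | h
    · simp [h]
    · have : ξ * Y i + Y' i = (ξ - -(Y' i / Y i)) * Y i := by field_simp; ring
      rw [this, norm_mul]
      exact le_mul_of_one_le_left (norm_nonneg _) (h2 i)
  refine ⟨h3, ?_⟩
  rcases le_or_gt ‖Y' i‖ ‖Y i‖ with h | h
  · exact h.trans h3
  · refine (norm_eq_of_sub_lt ?_).ge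
    rw [add_sub_cancel_right, norm_mul]
    exact (mul_le_of_le_one_left (norm_nonneg _) h1).trans_lt h

lemma ring_gen {ι : Type} [Fintype ι] (M : (ι → Om p) → Prop) (h0 : M 0)
    (h1 : ∀ Y Y' (c : Om p), ‖c‖ ≤ 1 → M Y → M Y' → M fun i => c * Y i + Y' i) (l : ι → ℝ)
    (h : ∀ i, ∃ Y, M Y ∧ l i ≤ ‖Y i‖) : ∃ Y, M Y ∧ ∀ i, l i ≤ ‖Y i‖ := by
  classical
  have : ∀ s : Finset ι, ∃ Y, M Y ∧ ∀ i ∈ s, l i ≤ ‖Y i‖ := fun s => by
    induction s using Finset.induction_on with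
    | empty => exact ⟨0, h0, by simp⟩
    | insert a s _ ih =>
      obtain ⟨Y, h2, h3⟩ := ih
      obtain ⟨Y', h4, h5⟩ := h a
      obtain ⟨ξ, h6, h7⟩ := ring_comb Y Y'
      refine ⟨_, h1 Y Y' ξ h6 h2 h4, fun i hi => ?_⟩
      rcases Finset.mem_insert.1 hi with rfl | hi
      · exact h5.trans (h7 _).2
      · exact (h3 i hi).trans (h7 i).1
  simpa using this Finset.univ

/-- values of an integral polynomial of small degree -/
def IV (v Y : Fin p → Om p) : Prop :=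
  ∃ Q : (Om p)[X], Q.degree < p ∧ IntP Q ∧ ∀ i, Y i = Q.eval (v i)

lemma IV.comb {v Y Y' : Fin p → Om p} {c : Om p} (hc : ‖c‖ ≤ 1) (h : IV v Y) (h' : IV v Y') :
    IV v fun i => c * Y i + Y' i := by
  obtain ⟨Q, h1, h2, h3⟩ := h
  obtain ⟨Q', h1', h2', h3'⟩ := h'
  refine ⟨C c * Q + Q', (degree_add_le _ _).trans_lt (max_lt ?_ h1'), ((intP_C hc).mul h2).add h2',
    fun i => by simp [h3, h3']⟩
  rw [← smul_eq_C_mul]
  exact (degree_smul_le _ _).trans_lt h1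

lemma iv_zero {v : Fin p → Om p} : IV v fun _ => 0 :=
  ⟨0, by simp, fun n => by simp, fun i => by simp⟩

lemma ring_loc {ω ρ : Om p} (hω : IsPrimitiveRoot ω p) (hρ : ‖ρ‖ = 1) (γ : Fin p → Om p)
    {l : Fin p → ℝ} (hl : ∀ i, 0 ≤ l i) (h : ∀ i, ∃ Y : Fin p → Om p, (∀ e : ℕ,
      (IV (fun i => ω ^ (i : ℕ) * ρ) fun i => Y i * (ω ^ (i : ℕ) * ρ) ^ e) ∧
      IV (fun i => ω ^ (i : ℕ) * ρ) fun i => γ i * Y i * (ω ^ (i : ℕ) * ρ) ^ e) ∧
      l i ≤ ‖Y i‖ * max 1 ‖γ i‖) (a s t : ℕ) :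
    (‖(Mt (ω ^ a) γ s t).det‖ * ∏ i, l i) ^ 2 ≤ ‖(p : Om p)‖ ^ p * (∏ i, max 1 ‖γ i‖) ^ 2 := by
  obtain ⟨f1, f2, f3⟩ := prim_facts hω
  have hρ0 : ρ ≠ 0 := norm_pos_iff.1 (hρ ▸ one_pos)
  have hω1 := norm_root hp.out.pos hω.pow_eq_one
  have hω0 := hω.ne_zero hp.out.ne_zero
  have hr : ∀ i : ℕ, (ω ^ i) ^ p = 1 := fun i => by
    rw [← pow_mul, mul_comm, pow_mul, hω.pow_eq_one, one_pow]
  have hd : ∀ i j : Fin p, i ≠ j → ‖ω ^ (i : ℕ) * ρ - ω ^ (j : ℕ) * ρ‖ = ‖ω - 1‖ := fun i j hij => by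
    have : ω ^ (i : ℕ) * ρ - ω ^ (j : ℕ) * ρ = (ω ^ (i : ℕ) / ω ^ (j : ℕ) - 1) * (ω ^ (j : ℕ) * ρ) := by
      field_simp
    rw [this, norm_mul, norm_mul, norm_pow, hω1, hρ, one_pow, mul_one, mul_one]
    exact f3 _ (by rw [div_pow, hr, hr, div_one]) fun h => hij (Fin.ext (hω.pow_inj i.2 j.2
      ((div_eq_one_iff_eq (pow_ne_zero _ hω0)).1 h)))
  have hμ : ∀ i, 0 < max 1 ‖γ i‖ := fun i => lt_max_of_lt_left one_pos
  obtain ⟨Y, h1, h2⟩ := ring_gen (fun Y => ∀ e : ℕ,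
      (IV (fun i => ω ^ (i : ℕ) * ρ) fun i => Y i * (ω ^ (i : ℕ) * ρ) ^ e) ∧
      IV (fun i => ω ^ (i : ℕ) * ρ) fun i => γ i * Y i * (ω ^ (i : ℕ) * ρ) ^ e)
    (fun e => ⟨by simpa using iv_zero, by simpa using iv_zero⟩)
    (fun Y Y' c hc h h' e => ⟨by simpa only [add_mul, mul_assoc] using (h e).1.comb hc (h' e).1, by
      simpa only [add_mul, mul_add, mul_assoc, mul_left_comm c] using (h e).2.comb hc (h' e).2⟩)
    (fun i => l i / max 1 ‖γ i‖) fun i => by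
      obtain ⟨Y, h1, h2⟩ := h i
      exact ⟨Y, h1, (div_le_iff₀ (hμ i)).2 h2⟩
  have key : ∀ (y : Fin p → Om p) (e : ℕ),
      (IV (fun i => ω ^ (i : ℕ) * ρ) fun i => y i * Y i * (ω ^ (i : ℕ) * ρ) ^ (a * e)) →
      ∃ Q : (Om p)[X], Q.degree < p ∧ IntP Q ∧
        ∀ i, y i * ((ω ^ a) ^ (i : ℕ)) ^ e * Y i = Q.eval (ω ^ (i : ℕ) * ρ) := by
    intro y e h3
    obtain ⟨Q, h4, h5, h6⟩ := h3.comb (c := (ρ ^ (a * e))⁻¹) (by simp [hρ]) iv_zero
    refine ⟨Q, h4, h5, fun i => Eq.trans ?_ (h6 i)⟩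
    simp only [add_zero]
    field_simp
    ring
  have h3 := qdet hω hd (u := Y) (Mt (ω ^ a) γ s t) fun x => by
    simp only [Mt, Matrix.of_apply]
    split_ifs
    · exact key γ x (h1 _).2
    · simpa using key (fun _ => 1) (t + x) (by simpa using (h1 _).1)
  have h4 : ∏ i, l i ≤ (∏ i, ‖Y i‖) * ∏ i, max 1 ‖γ i‖ := by
    rw [← Finset.prod_mul_distrib]
    exact Finset.prod_le_prod (fun i _ => hl i) fun i _ => (div_le_iff₀ (hμ i)).1 (h2 i)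
  have h5 : 0 ≤ ∏ i, l i := Finset.prod_nonneg fun i _ => hl i
  calc _ ≤ (‖(Mt (ω ^ a) γ s t).det‖ * ((∏ i, ‖Y i‖) * ∏ i, max 1 ‖γ i‖)) ^ 2 := by gcongr
    _ = (‖(Mt (ω ^ a) γ s t).det‖ * ∏ i, ‖Y i‖) ^ 2 * (∏ i, max 1 ‖γ i‖) ^ 2 := by ring
    _ ≤ _ := by gcongr

/-- the average of a function over the conjugates -/
noncomputable def avg (F : Qb → ℝ) (x : Qb) : ℝ := (trS x).sum (fun σ => F (σ x)) / (trS x).card

lemma avg_eq (F : Qb → ℝ) {V : Subgroup GA} (T : Trans ⊤ V) {x : Qb} (hx : Fx V x) :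
    T.sum (fun σ => F (σ x)) = T.card * avg F x := by
  obtain ⟨T1, -⟩ := IdxLe.restrict ⟨T, le_rfl⟩ (le_top : St ℚ x ≤ ⊤) inf_le_right
  rw [T.sum_eq ((trS x).comp T1 le_top hx.le) (hx.rinv F),
    T.card_eq ((trS x).comp T1 le_top hx.le), Trans.comp_card, Trans.comp_sum, avg]
  have h1 : ∀ σ : GA, T1.sum (fun τ => F ((σ * τ) x)) = T1.card * F (σ x) := fun σ => by
    simp only [Trans.sum, AlgEquiv.mul_apply, mem_St.1 (T1.mem _)]
    simp [Trans.card]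
  have h2 : ((trS x).card : ℝ) ≠ 0 := by exact_mod_cast (trS x).card_pos.ne'
  simp only [h1]
  rw [Trans.sum, Trans.sum, ← Finset.mul_sum]
  push_cast
  field_simp

lemma avg_conj (F : Qb → ℝ) (τ : GA) (x : Qb) : avg F (τ x) = avg F x := by
  let T : Trans ⊤ (St ℚ x) :=
    { ι := (trS (τ x)).ι
      fin := inferInstance
      r := fun i => (trS (τ x)).r i * τ
      mem := fun _ => Subgroup.mem_top _
      ex := fun σ _ => by
        obtain ⟨i, hi⟩ := (trS (τ x)).ex (σ * τ⁻¹) (Subgroup.mem_top _)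
        refine ⟨i, τ.injective (Eq.trans ?_ (mem_St.1 hi))⟩
        change τ (((((trS (τ x)).r i * τ)⁻¹ * σ : GA)) x) = _
        rw [← AlgEquiv.mul_apply, ← AlgEquiv.mul_apply]
        congr 1
        group
      uniq := fun i j h => (trS (τ x)).uniq i j (by
        rw [mem_St] at h ⊢
        conv_rhs => rw [← h]
        rw [← AlgEquiv.mul_apply, ← AlgEquiv.mul_apply]
        congr 1
        group) }
  refine mul_left_cancel₀ (card_posR T).ne' ?_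
  rw [← avg_eq F T (Fx.st x)]
  exact (avg_eq F (trS (τ x)) (Fx.st _)).symm

variable (p) in
/-- the mean of the logarithms of the absolute values above `p` -/
noncomputable def lq (x : Qb) : ℝ := avg (fun y => log ‖io p y‖) x

lemma ring_pt {ι : Type} [Fintype ι] {Δ : Qb} (h0 : Δ ≠ 0) (y : ι → Qb) {a b : ℝ} (ha : 0 < a)
    (hb : 0 < b) (h1 : ‖(Δ : ℂ)‖ ≤ a * (∏ i, max 1 ‖(y i : ℂ)‖) ^ 2)
    (h2 : ‖io p Δ‖ ≤ b * (∏ i, max 1 ‖io p (y i)‖) ^ 2)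
    (h3 : ∀ (l : ℕ) [Fact l.Prime], ‖io l Δ‖ ≤ (∏ i, max 1 ‖io l (y i)‖) ^ 2) :
    mu Δ ≤ log a + log b + 2 * ∑ i, lam (y i) := by
  classical
  have hs : ∀ (a : Pl) (c : ℝ),
      Function.HasFiniteSupport (fun v => Pi.single (M := fun _ => ℝ) a c v) ∧
      ∑ᶠ v, Pi.single (M := fun _ => ℝ) a c v = c := fun a c =>
    ⟨(Set.finite_singleton a).subset Pi.support_single_subset, by
      rw [finsum_eq_single _ a fun x hx => Pi.single_eq_of_ne hx _, Pi.single_eq_same]⟩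
  have hl : ∀ (v : Pl) (c : ℝ), 0 < c → av v Δ ≤ c * (∏ i, max 1 (av v (y i))) ^ 2 →
      log (av v Δ) ≤ log c + ∑ i, 2 * log⁺ (av v (y i)) := fun v c hc h => by
    refine (log_le_log (av_pos v h0) h).trans_eq ?_
    rw [log_mul hc.ne' (by positivity), log_pow, log_prod fun i _ => by positivity,
      ← Finset.mul_sum]
    simp only [posLog_eq_log_max_one (av_nonneg _ _)]
    norm_num
  have h4 : ∀ v, log (av v Δ) ≤ (Pi.single (M := fun _ => ℝ) none (log a) v +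
      Pi.single (M := fun _ => ℝ) (some ⟨p, hp.out⟩) (log b) v) +
      ∑ i, 2 * log⁺ (av v (y i)) := by
    rintro (_ | ⟨l, hl'⟩)
    · rw [Pi.single_eq_same, Pi.single_eq_of_ne (by simp), add_zero]
      exact hl _ _ ha h1
    · have : Fact l.Prime := ⟨hl'⟩
      rw [Pi.single_eq_of_ne (i := none) (by simp), zero_add]
      by_cases hlp : l = p
      · subst hlp
        rw [Pi.single_eq_same]
        exact hl _ _ hb h2
      · rw [Pi.single_eq_of_ne (by simpa using hlp), ← log_one]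
        exact hl _ _ one_pos (by rw [one_mul]; exact h3 l)
  have hf : ∀ i, Function.HasFiniteSupport fun v => 2 * log⁺ (av v (y i)) := fun i =>
    fin_of (fun t => 2 * log⁺ t) (by simp) (by simp) _
  have hf' : Function.HasFiniteSupport fun v => ∑ i, 2 * log⁺ (av v (y i)) := by fun_prop
  have := finsum_le_finsum' (fin_mu _) (((hs _ _).1.add (hs _ _).1).add hf') h4
  simp only [Pi.add_apply] at this
  rw [finsum_add_distrib (f := fun v => Pi.single (M := fun _ => ℝ) none (log a) v +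
      Pi.single (M := fun _ => ℝ) (some ⟨p, hp.out⟩) (log b) v) ((hs _ _).1.add (hs _ _).1) hf',
    finsum_add_distrib (hs _ _).1 (hs _ _).1,
    (hs _ _).2, (hs _ _).2, finsum_sum_comm _ _ fun i _ => hf i] at this
  refine this.trans (le_of_eq ?_)
  rw [Finset.mul_sum]
  congr 1
  exact Finset.sum_congr rfl fun i _ => (mul_finsum _ _).symm

lemma ring_pf {ι : Type} [Fintype ι] {Δ : Qb} (h0 : Δ ≠ 0) (y z : ι → Qb) (hz : ∀ i, z i ≠ 0)
    {a b : ℝ} (ha : 0 < a) (hb : 0 < b)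
    (h1 : ∀ τ : GA, ‖(τ Δ : ℂ)‖ ≤ a * (∏ i, max 1 ‖(τ (y i) : ℂ)‖) ^ 2)
    (h2 : ∀ τ : GA, ‖io p (τ Δ)‖ * (∏ i, ‖io p (τ (z i))‖) ^ 2 ≤
      b * (∏ i, max 1 ‖io p (τ (y i))‖) ^ 2)
    (h3 : ∀ (τ : GA) (l : ℕ) [Fact l.Prime], ‖io l (τ Δ)‖ ≤ (∏ i, max 1 ‖io l (τ (y i))‖) ^ 2) :
    2 * ∑ i, lq p (z i) ≤ log a + log b + 2 * ∑ i, ht (y i) := by
  have key : ∀ τ : GA, mu (τ Δ) + 2 * ∑ i, log ‖io p (τ (z i))‖ ≤
      log a + log b + 2 * ∑ i, lam (τ (y i)) := fun τ => by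
    have h4 : ∀ i, 0 < ‖io p (τ (z i))‖ := fun i => by simpa using hz i
    have h5 := Finset.prod_pos fun i (_ : i ∈ Finset.univ) => h4 i
    have := ring_pt ((_root_.map_ne_zero τ).2 h0) (fun i => τ (y i)) ha
      (b := b / (∏ i, ‖io p (τ (z i))‖) ^ 2) (by positivity) (h1 τ) (by
        rw [div_mul_eq_mul_div, le_div_iff₀ (by positivity)]; exact h2 τ) (h3 τ)
    rw [log_div hb.ne' (by positivity), log_pow, log_prod fun i _ => (h4 i).ne'] at this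
    push_cast at this
    linarith
  obtain ⟨V, ⟨T⟩, hV⟩ := trG fun i : Option (ι ⊕ ι) => i.elim Δ (Sum.elim y z)
  have h4 := Finset.sum_le_sum fun x (_ : x ∈ Finset.univ) => key (T.r x)
  have h5 := sum_mu T (hV none) h0
  have h6 := fun i => ht_eq T (hV (some (Sum.inl i)))
  have h7 := fun i => avg_eq (fun y => log ‖io p y‖) T (hV (some (Sum.inr i)))
  simp only [Trans.sum, Option.elim, Sum.elim_inl, Sum.elim_inr] at h5 h6 h7
  rw [Finset.sum_add_distrib, h5, zero_add, Finset.sum_add_distrib, Finset.sum_const,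
    ← Finset.mul_sum, ← Finset.mul_sum, Finset.sum_comm, Finset.sum_congr rfl fun i _ => h7 i,
    Finset.sum_comm, Finset.sum_congr rfl fun i _ => h6 i, ← Finset.mul_sum, ← Finset.mul_sum,
    Finset.card_univ, nsmul_eq_mul, ← Trans.card, mul_left_comm, mul_left_comm 2, ← mul_add] at h4
  exact le_of_mul_le_mul_left h4 (card_posR T)

/-- values of a polynomial of small degree with coefficients in a subring -/
def GV (A : Subring Qb) (v Y : Fin p → Qb) : Prop :=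
  ∃ Q : Qb[X], Q.degree < p ∧ (∀ n, Q.coeff n ∈ A) ∧ ∀ i, Y i = Q.eval (v i)

lemma ring_two {A : Subring Qb} (hA : ∀ y ∈ A, ∀ τ : GA, ‖io p (τ y)‖ ≤ 1) {x ω η : Qb}
    (hx : Un p x) (hω : IsPrimitiveRoot ω p) (γ : Fin p → Qb) (hη : Un p η) (z : Fin p → Qb)
    (hz : ∀ i, z i ≠ 0) (h : ∀ (τ : GA) (i : Fin p), ∃ Y : Fin p → Qb, (∀ e : ℕ,
      (GV A (fun i => ω ^ (i : ℕ) * x) fun i => Y i * (ω ^ (i : ℕ) * x) ^ e) ∧
      GV A (fun i => ω ^ (i : ℕ) * x) fun i => γ i * Y i * (ω ^ (i : ℕ) * x) ^ e) ∧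
      ‖io p (τ (z i))‖ ≤ ‖io p (τ (Y i))‖ * max 1 ‖io p (τ (γ i))‖)
    {a s r : ℕ} (ha : a.Coprime p) (t : ℕ) (h1 : r ≤ s) (h2 : s + r ≤ p)
    (h3 : (Mt (ω ^ a) γ s t).det ≠ 0) (h4 : (Mt (ω ^ a) γ s (t + r)).det ≠ 0) :
    r * log 2 ≤ 2 * (∑ i, ht (γ i * η) - ∑ i, lq p (z i)) := by
  obtain ⟨e, he⟩ := Mt_mul (ω ^ a) η γ s
  have hη0 : η ≠ 0 := fun h => by simpa [h] using hη 1
  have hϖ := hω.pow_of_coprime a ha
  have hp0 : (0 : ℝ) < p := Nat.cast_pos.2 hp.out.pos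
  have := ring_pf (p := p) (Δ := (Mt (ω ^ a) (fun i => γ i * η) s t).det *
      (Mt (ω ^ a) (fun i => γ i * η) s (t + r)).det) (by simp [he, hη0, h3, h4])
    (fun i => γ i * η) z hz (a := p ^ p / 2 ^ r) (b := ((p : ℝ) ^ p)⁻¹) (by positivity)
    (by positivity) (fun τ => ?_) (fun τ => ?_) fun τ l _ => ?_
  · rw [log_div (by positivity) (by positivity), log_inv, log_pow, log_pow] at this
    linarith
  · let φ : Qb →+* ℂ := (algebraMap Qb ℂ).comp (τ : Qb →+* Qb)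
    have := arch (hϖ.map_of_injective φ.injective) hp.out.pos (fun i => φ (γ i * η)) t h1 h2
    rw [← Mt_map, ← Mt_map, ← norm_mul, ← map_mul] at this
    rw [div_mul_eq_mul_div, le_div_iff₀' (by positivity)]
    exact this
  · let φ : Qb →+* Om p := (io p).toRingHom.comp (τ : Qb →+* Qb)
    have hφ : ∀ y, φ y = io p (τ y) := fun _ => rfl
    have h5 : ∀ Y : Fin p → Qb, GV A (fun i => ω ^ (i : ℕ) * x) Y →
        IV (fun i => φ ω ^ (i : ℕ) * φ x) fun i => φ (Y i) := fun Y ⟨Q, h5, h6, h7⟩ =>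
      ⟨Q.map φ, degree_map_le.trans_lt h5, fun n => by rw [coeff_map]; exact hA _ (h6 n) τ,
        fun i => by beta_reduce; rw [h7, ← map_pow, ← map_mul, eval_map, eval₂_at_apply]⟩
    have h6 := fun t => ring_loc (hω.map_of_injective φ.injective) (ρ := φ x) (hx τ)
      (fun i => φ (γ i)) (fun i => norm_nonneg (φ (z i))) (fun i => by
        obtain ⟨Y, h6, h7⟩ := h τ i
        exact ⟨fun i => φ (Y i), fun e => ⟨by simpa using h5 _ (h6 e).1,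
          by simpa using h5 _ (h6 e).2⟩, h7⟩) a s t
    simp only [← map_pow, ← Mt_map] at h6
    simp only [hφ] at h6
    have h7 := h6 t
    have h8 := h6 (t + r)
    simp only [he, map_mul, map_pow, norm_mul, norm_pow, hη τ, one_pow, one_mul, mul_one]
    rw [np_eq, inv_pow] at h7 h8
    nlinarith [sq_nonneg (‖io p (τ (Mt (ω ^ a) γ s t).det)‖ * ∏ i, ‖io p (τ (z i))‖ -
      ‖io p (τ (Mt (ω ^ a) γ s (t + r)).det)‖ * ∏ i, ‖io p (τ (z i))‖)]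
  · let φ : Qb →+* Om l := (io l).toRingHom.comp (τ : Qb →+* Qb)
    have h5 := fun t => Mt_le (norm_root hp.out.pos (hϖ.map_of_injective φ.injective).pow_eq_one)
      (fun i => φ (γ i * η)) s t
    simp only [← Mt_map] at h5
    rw [map_mul, map_mul, norm_mul, sq]
    exact mul_le_mul (h5 t) (h5 (t + r)) (norm_nonneg _) ((norm_nonneg _).trans (h5 t))

theorem ring_det (hq : 400 ≤ p) {W : Subgroup GA} {x ω α : Qb} (hx0 : x ≠ 0)
    (hω : IsPrimitiveRoot ω p) {σ : GA} (hσ : σ ∈ W)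
    (h1 : σ x = ω * x) (h2 : σ ω = ω) (hα : Fx (W ⊓ St ℚ x) α) (hα0 : α ≠ 0)
    (hd : ∀ a s r t : ℕ, a.Coprime p → r ≤ s → s + r ≤ p →
      (Mt (ω ^ a) (fun i : Fin p => (σ ^ (i : ℕ)) α) s t).det ≠ 0 →
      (Mt (ω ^ a) (fun i : Fin p => (σ ^ (i : ℕ)) α) s (t + r)).det ≠ 0 → r ≤ (p - 1) / 6) :
    ∃ (β : Qb) (e : ℤ), α = β * x ^ e ∧ Fx (W ⊓ St ℚ (x ^ p)) β := by
  have : NeZero p := ⟨hp.out.ne_zero⟩
  have hω0 := hω.ne_zero hp.out.ne_zero
  have h3 := pow_act h1 h2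
  set γ : Fin p → Qb := fun i => (σ ^ (i : ℕ)) α with hγd
  have hγ : ∀ g ∈ W, ∀ i j : Fin p, g (ω ^ (i : ℕ) * x) = ω ^ (j : ℕ) * x → g (γ i) = γ j := by
    intro g hg i j h
    have := hα ((σ ^ (j : ℕ))⁻¹ * g * σ ^ (i : ℕ)) ⟨W.mul_mem (W.mul_mem (W.inv_mem
      (W.pow_mem hσ _)) hg) (W.pow_mem hσ _), mem_St.2 (by
        rw [AlgEquiv.mul_apply, AlgEquiv.mul_apply, h3, h, ← h3,
          ← AlgEquiv.mul_apply, inv_mul_cancel, AlgEquiv.one_apply])⟩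
    rw [AlgEquiv.mul_apply, AlgEquiv.mul_apply] at this
    conv_rhs => rw [hγd]; beta_reduce; rw [← this, ← AlgEquiv.mul_apply, mul_inv_cancel,
      AlgEquiv.one_apply]
  obtain ⟨s, hs⟩ := hp.out.odd_of_ne_two (by omega)
  have hco : ∀ m, (2 ^ m).Coprime p := fun m =>
    ((Nat.coprime_primes Nat.prime_two hp.out).2 (by omega)).pow_left m
  have hθ : ∀ (m : ℕ) (i : Fin p), (ω ^ (i : ℕ) * x) ^ 2 ^ m = (ω ^ 2 ^ m) ^ (i : ℕ) * x ^ 2 ^ m :=
    fun m i => by ring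
  have hinj : ∀ m, Function.Injective fun i : Fin p => (ω ^ 2 ^ m) ^ (i : ℕ) * x ^ 2 ^ m :=
    fun m i j h => Fin.ext ((hω.pow_of_coprime _ (hco m)).pow_inj i.2 j.2
      (mul_right_cancel₀ (pow_ne_zero _ hx0) h))
  have hb : ∀ i : ℕ, (ω ^ i * x) ^ p = x ^ p := fun i => by
    rw [mul_pow, ← pow_mul, mul_comm i, pow_mul, hω.pow_eq_one, one_pow, one_mul]
  obtain ⟨κ, e, h4⟩ := monom (θ := fun i : Fin p => ω ^ (i : ℕ) * x) (γ := γ) (ρ := 2 * ((p - 1) / 6))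
    hp.out.pos (pow_ne_zero p hx0) (fun i => hb i) (by omega) (fun m => by simpa only [hθ] using hinj m)
    fun m => by
      have h4 : ∀ t r, r ≤ s → (Mt (ω ^ 2 ^ m) γ s t).det ≠ 0 →
          (Mt (ω ^ 2 ^ m) γ s (t + r)).det ≠ 0 → r ≤ (p - 1) / 6 := fun t r hr =>
        hd _ s r t (hco m) hr (by omega)
      obtain ⟨t, ht⟩ : ∃ t, ∀ l ≤ p - 2 * ((p - 1) / 6) - 2, (Mt (ω ^ 2 ^ m) γ s (t + l)).det = 0 := by
        by_cases h5 : ∀ t, (Mt (ω ^ 2 ^ m) γ s t).det = 0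
        · exact ⟨0, fun _ _ => h5 _⟩
        obtain ⟨t, h5⟩ := not_forall.1 h5
        refine ⟨t + ((p - 1) / 6 + 1), fun l hl => by_contra fun h6 => ?_⟩
        by_cases h7 : (p - 1) / 6 + 1 + l ≤ s
        · have := h4 t _ h7 h5 (by rwa [← add_assoc]); omega
        · have := h4 _ (p - ((p - 1) / 6 + 1 + l)) (by omega) h6 (by
            rwa [show t + ((p - 1) / 6 + 1) + l + (p - ((p - 1) / 6 + 1 + l)) = t + p by omega,
              Mt_per (hω.pow_of_coprime _ (hco m)).pow_eq_one])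
          omega
      have h5 : ∀ i : Fin p, (ω ^ 2 ^ m) ^ (i : ℕ) * x ^ 2 ^ m ≠ 0 := fun i => by simp [hω0, hx0]
      have h6 : ∀ (l : ℕ) (i j : Fin p), (l + i) % p = j → (σ ^ l) (ω ^ (i : ℕ) * x) = ω ^ (j : ℕ) * x := by
        intro l i j h
        rw [← h3, ← AlgEquiv.mul_apply, ← pow_add, h3, ← h, ← pow_eq_pow_mod _ hω.pow_eq_one]
      have h7 : ∀ i j : Fin p, ∃ l, (l + i) % p = j := fun i j =>
        ⟨p - i + j, by rw [show p - i + j + i = j + p by omega, Nat.add_mod_right, Nat.mod_eq_of_lt j.2]⟩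
      obtain ⟨n, h8, h9⟩ := chain (γ := γ) (hinj m) h5 (fun i => (_root_.map_ne_zero _).2 hα0)
        hp.out.pos (s := s) (e := t + s) (by omega) fun l hl => sol_min (hinj m) h5 σ
          (fun i => by
            obtain ⟨j, hj⟩ : ∃ j : Fin p, (1 + j) % p = i := ⟨⟨(p - 1 + i) % p, Nat.mod_lt _ hp.out.pos⟩,
              by rw [Nat.add_mod_mod, show 1 + (p - 1 + i) = i + p by omega, Nat.add_mod_right,
                Nat.mod_eq_of_lt i.2]⟩
            have := h6 1 j i hj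
            rw [pow_one] at this
            exact ⟨j, by rw [← hθ, ← hθ, map_pow, this], hγ σ hσ j i this⟩)
          (fun i j => by
            obtain ⟨l, hl⟩ := h7 i j
            exact ⟨l, by rw [← hθ, ← hθ, map_pow, h6 l i j hl]⟩) (by omega)
          (by simpa only [add_right_comm t s l] using sol_ex (pow_ne_zero _ hx0) (ht l hl))
      exact ⟨n, by omega, by simpa only [hθ] using h9⟩
  have h5 : α = κ * x ^ e := by simpa [hγd] using h4 0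
  refine ⟨κ, e, h5, fun g hg => ?_⟩
  obtain ⟨ξ, h6, h7⟩ := mult_ex g hx0 hg.2
  obtain ⟨j, hj, rfl⟩ := hω.eq_pow_of_pow_eq_one h6
  have h8 := hγ g hg.1 0 ⟨j, hj⟩ (by simpa using h7)
  rw [h4, h4, map_mul, map_zpow₀] at h8
  simp only [Fin.val_zero, pow_zero, one_mul, h7] at h8
  exact mul_right_cancel₀ (zpow_ne_zero _ (mul_ne_zero (pow_ne_zero _ hω0) hx0)) h8

end Pool.Agent.Lib.MP_f61260_nt
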