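import Pool.Agent.Lib.MP_f61260_nt.Ring1

set_option autoImplicit false
set_option maxHeartbeats 400000

namespace Pool.Agent.Lib.MP_f61260_nt

open Polynomial Real Filter

lemma ring_map {σ : GA} {P : Qb[X]} (h : ∀ n, σ (P.coeff n) = P.coeff n) (x : Qb) :
    σ (P.eval x) = P.eval (σ x) := by
  have : P.map (σ : Qb →+* Qb) = P := Polynomial.ext fun n => by rw [coeff_map]; exact h n
  conv_rhs => rw [← this, eval_map]
  exact (eval₂_at_apply (σ : Qb →+* Qb) x).symm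

lemma ring_red (A : Subring Qb) {x y : Qb} {p : ℕ} (hp : 0 < p) (hx : x ^ p ∈ A)
    (hy : y ∈ Algebra.adjoin A {x}) :
    ∃ P : Qb[X], P.degree < p ∧ (∀ n, P.coeff n ∈ A) ∧ P.eval x = y := by
  rw [Algebra.adjoin_singleton_eq_range_aeval] at hy
  obtain ⟨P, rfl⟩ := hy
  have hm : (X ^ p - C (⟨_, hx⟩ : A)).Monic := monic_X_pow_sub_C _ hp.ne'
  refine ⟨(P %ₘ (X ^ p - C (⟨_, hx⟩ : A))).map (algebraMap A Qb), degree_map_le.trans_lt ?_,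
    fun n => by rw [coeff_map]; exact Subtype.property _, ?_⟩
  · exact (degree_modByMonic_lt P hm).trans_eq (degree_X_pow_sub_C hp _)
  · rw [eval_map_algebraMap]
    exact aeval_modByMonic_eq_self_of_root (by rw [map_sub, map_pow, aeval_X, aeval_C]; exact sub_self _)

namespace Ctx

variable {ι : Type} [Fintype ι] (c : Ctx ι) (Θ : Finset Qb) (M : ℕ)

/-- division points of level `M` -/
def DvM (x : Qb) : Prop := ∃ w : ι → ℤ, x ^ M = ∏ a, c.t a 1 ^ w a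

/-- the ring generated by `Θ` and the division points of level `M` fixed by `W` -/
noncomputable def Rg (W : Subgroup GA) : Subring Qb :=
  Subring.closure (Θ ∪ {η | c.DvM M η ∧ Fx W η})

/-- admissible groups -/
structure Adm (W : Subgroup GA) : Prop where
  g0 : W ≤ c.G0
  z : W ≤ St ℚ (c.z M)
  th : ∀ θ ∈ Θ, Fx W θ

/-- good primes -/
def GoodR (q : ℕ) [Fact q.Prime] : Prop :=
  400 ≤ q ∧ (∀ θ ∈ Θ, ∀ τ : GA, ‖io q (τ θ)‖ ≤ 1) ∧ ∀ η, c.Dv η → Un q η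

/-- the invariant of the descent -/
def Inv (Q : ℕ) (l : ℕ → Qb) (W : Subgroup GA) (α : Qb) : Prop :=
  Fx W α ∧ ∀ q : ℕ, Q ≤ q → ∀ [Fact q.Prime] (τ : GA), ∃ y ∈ c.Rg Θ M W, α * y ∈ c.Rg Θ M W ∧
    ‖io q (τ (l q))‖ ≤ ‖io q (τ y)‖ * max 1 ‖io q (τ α)‖

/-- the outcome of the descent -/
def Res (Q : ℕ) (l : ℕ → Qb) (ε : ℝ) (W : Subgroup GA) (α : Qb) : Prop :=
  (∀ η, c.Dv η → 1 / 20 ≤ ht (α * η) + ε) ∨
    ∃ β y, c.Dv y ∧ α = β * y ∧ c.Inv Θ M Q l W β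

variable {c Θ M}

lemma DvM.dv {x : Qb} (hM : 0 < M) (h : c.DvM M x) : c.Dv x := ⟨M, hM, h⟩

lemma DvM.mul {x y : Qb} (h : c.DvM M x) (h' : c.DvM M y) : c.DvM M (x * y) := by
  obtain ⟨w, h⟩ := h
  obtain ⟨w', h'⟩ := h'
  refine ⟨w + w', ?_⟩
  rw [mul_pow, h, h', ← Finset.prod_mul_distrib]
  exact Finset.prod_congr rfl fun a _ => (zpow_add₀ ((c.hs a).ne 1) _ _).symm

lemma DvM.zpow {x : Qb} (h : c.DvM M x) (e : ℤ) : c.DvM M (x ^ e) := by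
  obtain ⟨w, h⟩ := h
  refine ⟨fun a => w a * e, ?_⟩
  rw [← zpow_natCast, ← zpow_mul, mul_comm, zpow_mul, zpow_natCast, h, ← Finset.prod_zpow]
  exact Finset.prod_congr rfl fun a _ => (zpow_mul _ _ _).symm

lemma DvM.pow {x : Qb} (h : c.DvM M x) (e : ℕ) : c.DvM M (x ^ e) := by
  simpa using h.zpow e

lemma DvM.mono {x : Qb} {M' : ℕ} (h : c.DvM M x) (h' : M ∣ M') : c.DvM M' x := by
  obtain ⟨k, rfl⟩ := h'
  obtain ⟨w, h⟩ := h.pow k
  exact ⟨w, by rw [mul_comm, pow_mul, h]⟩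

lemma DvM.act {x : Qb} (hM : 0 < M) (h : c.DvM M x) {W : Subgroup GA} (hW : c.Adm Θ M W) {σ : GA}
    (hσ : σ ∈ W) : ∃ ξ, Fx W ξ ∧ σ x = ξ * x := by
  obtain ⟨ξ, h1, h2⟩ := mult_ex σ (h.dv hM).ne (n := M) (by
    obtain ⟨w, h⟩ := h
    rw [h, map_prod]
    exact Finset.prod_congr rfl fun a _ => by rw [map_zpow₀, mem_G0.1 (hW.g0 hσ)])
  exact ⟨ξ, fun g hg => fix hM (hW.z hg) dvd_rfl h1, h2⟩

omit [Fintype ι] in
lemma Adm.mono {W W' : Subgroup GA} (h : c.Adm Θ M W) (h' : W' ≤ W) : c.Adm Θ M W' :=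
  ⟨h'.trans h.g0, h'.trans h.z, fun θ hθ => (h.th θ hθ).mono h'⟩

lemma rg_mem {W : Subgroup GA} {x : Qb} (h : c.DvM M x) (h' : Fx W x) : x ∈ c.Rg Θ M W :=
  Subring.subset_closure (Or.inr ⟨h, h'⟩)

lemma rg_fx {W : Subgroup GA} (hW : ∀ θ ∈ Θ, Fx W θ) {y : Qb} (hy : y ∈ c.Rg Θ M W) : Fx W y := by
  induction hy using Subring.closure_induction with
  | mem x hx => exact hx.elim (hW x) fun h => h.2
  | zero => exact Fx.zero
  | one => exact Fx.one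
  | add _ _ _ _ h h' => exact h.add h'
  | neg _ _ h => simpa using Fx.zero.sub h
  | mul _ _ _ _ h h' => exact h.mul h'

lemma rg_int {W : Subgroup GA} (hM : 0 < M) {q : ℕ} [Fact q.Prime] (h : c.GoodR Θ q) :
    ∀ y ∈ c.Rg Θ M W, ∀ τ : GA, ‖io q (τ y)‖ ≤ 1 := fun y hy τ => by
  induction hy using Subring.closure_induction with
  | mem x hx => exact hx.elim (fun hx => h.2.1 x hx τ) fun hx => (h.2.2 x (hx.1.dv hM) τ).le
  | zero => simp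
  | one => simp
  | add _ _ _ _ h h' => rw [map_add, map_add]; exact nadd_le h h'
  | neg _ _ h => simpa using h
  | mul _ _ _ _ h h' => rw [map_mul, map_mul, norm_mul]; exact mul_le_one₀ h (norm_nonneg _) h'

lemma rg_dec (hM : 0 < M) {W : Subgroup GA} (hW : c.Adm Θ M W) {p : ℕ} (hp : p.Prime) {x ω : Qb}
    (hx : c.DvM M x) (h1 : Fx W (x ^ p)) (hω : IsPrimitiveRoot ω p) {σ : GA} (hσ : σ ∈ W)
    (h2 : σ x = ω * x) (h3 : σ ω = ω) {y : Qb} (hy : y ∈ c.Rg Θ M (W ⊓ St ℚ x)) :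
    ∃ P : Qb[X], P.degree < p ∧ (∀ n, P.coeff n ∈ c.Rg Θ M W) ∧ P.eval x = y := by
  have : NeZero p := ⟨hp.ne_zero⟩
  have hx0 := (hx.dv hM).ne
  refine ring_red _ hp.pos (rg_mem (hx.pow p) h1) ((Subring.closure_le
    (t := (Algebra.adjoin (c.Rg Θ M W) {x}).toSubring)).2 ?_ hy)
  rintro η (h | ⟨h4, h5⟩)
  · exact Subalgebra.algebraMap_mem _ (⟨η, Subring.subset_closure (Or.inl h)⟩ : c.Rg Θ M W)
  obtain ⟨ξ, h6, h7⟩ := h4.act hM hW hσ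
  have h8 := pow_act h7 (h6 σ hσ) p
  rw [h5 _ ⟨W.pow_mem hσ p, mem_St.2 (by rw [pow_act h2 h3, hω.pow_eq_one, one_mul])⟩, eq_comm,
    mul_eq_right₀ (h4.dv hM).ne] at h8
  obtain ⟨j, -, rfl⟩ := hω.eq_pow_of_pow_eq_one h8
  have h9 : σ (η * x ^ (-(j : ℤ))) = η * x ^ (-(j : ℤ)) := by
    have := hω.ne_zero hp.ne_zero
    rw [map_mul, map_zpow₀, h7, h2, zpow_neg, zpow_neg, zpow_natCast, zpow_natCast, mul_pow]
    field_simp
  have h10 : Fx W (η * x ^ (-(j : ℤ))) := fun g hg => by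
    obtain ⟨ξ, h10, h11⟩ := mult_ex g hx0 (h1 g hg)
    obtain ⟨i, -, rfl⟩ := hω.eq_pow_of_pow_eq_one h10
    have := (h5.mul ((Fx.of_le inf_le_right).zpow (-(j : ℤ)))) ((σ ^ i)⁻¹ * g)
      ⟨W.mul_mem (W.inv_mem (W.pow_mem hσ i)) hg, mem_St.2 (by
        rw [AlgEquiv.mul_apply, h11, ← pow_act h2 h3, ← AlgEquiv.mul_apply, inv_mul_cancel,
          AlgEquiv.one_apply])⟩
    rw [← mul_inv_cancel_left (σ ^ i) g, AlgEquiv.mul_apply, this]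
    exact (St ℚ _).pow_mem h9 i
  have h11 : η = (η * x ^ (-(j : ℤ))) * x ^ j := by
    rw [zpow_neg, zpow_natCast, inv_mul_cancel_right₀ (pow_ne_zero _ hx0)]
  rw [h11]
  exact Subalgebra.mul_mem _ (Subalgebra.algebraMap_mem _
    (⟨_, rg_mem (h4.mul (hx.zpow _)) h10⟩ : c.Rg Θ M W))
    (Subalgebra.pow_mem _ (Algebra.self_mem_adjoin_singleton _ x) j)

variable {Q : ℕ} {l : ℕ → Qb} {ε : ℝ}

lemma res_of_inv {W : Subgroup GA} {α : Qb} (h : c.Inv Θ M Q l W α) : c.Res Θ M Q l ε W α :=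
  Or.inr ⟨α, 1, dv_tor ⟨1, one_pos, one_pow 1⟩, (mul_one _).symm, h⟩

lemma Res.bind {W W' : Subgroup GA} {α : Qb} (h : c.Res Θ M Q l ε W α) (h0 : α ≠ 0)
    (h' : ∀ β, β ≠ 0 → c.Inv Θ M Q l W β → c.Res Θ M Q l ε W' β) : c.Res Θ M Q l ε W' α := by
  rcases h with h | ⟨β, y, h1, rfl, h2⟩
  · exact Or.inl h
  rcases h' β (left_ne_zero_of_mul h0) h2 with h | ⟨β', y', h3, rfl, h4⟩
  · exact Or.inl fun η hη => by rw [mul_assoc]; exact h _ (h1.mul hη)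
  · exact Or.inr ⟨β', y' * y, h3.mul h1, mul_assoc _ _ _, h4⟩

lemma ring_step (hM : 0 < M) (hQ : ∀ q : ℕ, Q ≤ q → ∀ [Fact q.Prime], c.GoodR Θ q)
    (hl : ∀ q : ℕ, Q ≤ q → ∀ [Fact q.Prime], l q ≠ 0 ∧ -ε ≤ lq q (l q)) {W : Subgroup GA} (hW : c.Adm Θ M W) {p : ℕ} (hp : p.Prime) (hQp : Q ≤ p) {x α : Qb}
    (hx : c.DvM M x) (h1 : Fx W (x ^ p)) (h0 : α ≠ 0) (h : c.Inv Θ M Q l (W ⊓ St ℚ x) α) :
    c.Res Θ M Q l ε W α := by
  have : Fact p.Prime := ⟨hp⟩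
  by_cases hA : W ≤ St ℚ x
  · exact res_of_inv (by rwa [inf_eq_left.2 hA] at h)
  obtain ⟨σ, hσ, hσx⟩ := SetLike.not_le_iff_exists.1 hA
  have hx' := hx.dv hM
  have hx0 := hx'.ne
  obtain ⟨ω, h2, h3⟩ := hx.act hM hW hσ
  have hω : IsPrimitiveRoot ω p := prim_of_ne hp (by
    have := h1 σ hσ
    rwa [map_pow, h3, mul_pow, mul_eq_right₀ (pow_ne_zero _ hx0)] at this)
    fun h => hσx (by rw [mem_St, h3, h, one_mul])
  have h4 := pow_act h3 (h2 σ hσ)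
  have hdec := fun {y : Qb} => rg_dec hM hW hp hx h1 hω hσ h3 (h2 σ hσ) (y := y)
  have hfix : ∀ (i : ℕ) {P : Qb[X]}, (∀ n, P.coeff n ∈ c.Rg Θ M W) →
      (σ ^ i) (P.eval x) = P.eval (ω ^ i * x) := fun i P hP => by
    rw [ring_map fun n => rg_fx hW.th (hP n) _ (W.pow_mem hσ i), h4]
  have hxe : ∀ e : ℤ, x ^ e ∈ c.Rg Θ M (W ⊓ St ℚ x) := fun e =>
    rg_mem (hx.zpow e) ((Fx.of_le inf_le_right).zpow e)
  by_cases hB : ∀ η, c.Dv η → 1 / 20 ≤ ht (α * η) + ε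
  · exact Or.inl hB
  push Not at hB
  obtain ⟨η, hη, hB⟩ := hB
  obtain ⟨g1, -, g3⟩ := hQ p hQp
  obtain ⟨β, e, h5, h6⟩ := ring_det g1 hx0 hω hσ h3 (h2 σ hσ) h.1 h0 fun a s r t ha hr hs h5 h6 => by
    have h7 := ring_two (rg_int (W := W) hM (hQ p hQp)) (g3 x hx') hω _ (g3 η hη)
      (fun i => (σ ^ (i : ℕ)) (l p)) (fun i => (_root_.map_ne_zero _).2 (hl p hQp).1)
      (fun τ i => ?_) ha t hr hs h5 h6
    · have h8 := Finset.sum_le_card_nsmul Finset.univ (fun i : Fin p => ht ((σ ^ (i : ℕ)) α * η))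
        (ht (α * η)) fun i _ => by
          obtain ⟨ξ, h5, h6⟩ := hη.act _ (hW.g0 (W.pow_mem hσ i))
          rw [← h5.ht, mul_left_comm, ← h6, ← map_mul, ht_conj]
      have h9 := Finset.card_nsmul_le_sum Finset.univ (fun i : Fin p => lq p ((σ ^ (i : ℕ)) (l p)))
        (-ε) fun i _ => (hl p hQp).2.trans_eq (avg_conj _ _ _).symm
      rw [Finset.card_univ, Fintype.card_fin, nsmul_eq_mul] at h8 h9
      by_contra hc
      have h10 : (p : ℝ) ≤ 6 * r := by exact_mod_cast (by omega : p ≤ 6 * r)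
      have h11 : (400 : ℝ) ≤ p := by exact_mod_cast g1
      have := log_two_gt_d9
      nlinarith
    obtain ⟨y, h7, h8, h9⟩ := h.2 p hQp (τ * σ ^ (i : ℕ))
    have key : ∀ y ∈ c.Rg Θ M (W ⊓ St ℚ x), ∀ e : ℕ, GV (c.Rg Θ M W)
        (fun i : Fin p => ω ^ (i : ℕ) * x) fun i => (σ ^ (i : ℕ)) y * (ω ^ (i : ℕ) * x) ^ e := by
      intro y hy e
      obtain ⟨P, h10, h11, h12⟩ := hdec (Subring.mul_mem _ hy (hxe e))
      exact ⟨P, h10, h11, fun i => by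
        rw [← hfix _ h11, h12, zpow_natCast, map_mul, map_pow, h4]⟩
    exact ⟨fun i => (σ ^ (i : ℕ)) y, fun e => ⟨key y h7 e, by
      simpa only [map_mul] using key _ h8 e⟩, h9⟩
  have h7 : Fx W β := h6.mono (le_inf le_rfl h1)
  refine Or.inr ⟨β, x ^ e, (hx.zpow e).dv hM, h5, h7, fun q hq _ τ => ?_⟩
  obtain ⟨y, h8, h9, h10⟩ := h.2 q hq τ
  obtain ⟨P, h11, h12, h13⟩ := hdec h8
  obtain ⟨P', h14, h15, h16⟩ := hdec (Subring.mul_mem _ h9 (hxe (-e)))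
  have h17 : C β * P - P' = 0 := van (θ := fun i : Fin p => ω ^ (i : ℕ) * x)
    (fun i j h => Fin.ext (hω.pow_inj i.2 j.2 (mul_right_cancel₀ hx0 h)))
    ((degree_sub_le _ _).trans_lt (max_lt (by
      rw [← smul_eq_C_mul]; exact (degree_smul_le _ _).trans_lt h11) h14)) fun i => by
      rw [eval_sub, eval_mul, eval_C, ← hfix _ h12, ← hfix _ h15, ← h7 _ (W.pow_mem hσ i),
        ← map_mul, ← map_sub, h13, h16, h5, zpow_neg]
      have := zpow_ne_zero e hx0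
      rw [show β * y - β * x ^ e * y * (x ^ e)⁻¹ = 0 by field_simp; ring, map_zero]
  have hu := (hQ q hq).2.2 x hx' τ
  have h18 : ‖io q (τ α)‖ = ‖io q (τ β)‖ := by
    rw [h5, map_mul, map_mul, map_zpow₀, map_zpow₀, norm_mul, norm_zpow, hu, one_zpow, mul_one]
  obtain ⟨n, -, hn⟩ := Finset.exists_max_image (Finset.range (P.natDegree + 1))
    (fun n => ‖io q (τ (P.coeff n))‖) ⟨0, by simp⟩
  refine ⟨P.coeff n, h12 n, ?_, h10.trans ?_⟩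
  · rw [← coeff_C_mul, sub_eq_zero.1 h17]
    exact h15 n
  · rw [h18, ← h13, eval_eq_sum_range, map_sum, map_sum]
    refine mul_le_mul_of_nonneg_right (nsum_le (norm_nonneg _) fun i hi => ?_) m10
    rw [map_mul, map_mul, map_pow, map_pow, norm_mul, norm_pow, hu, one_pow, mul_one]
    exact hn i hi

lemma ring_iter (hM : 0 < M) (hQ : ∀ q : ℕ, Q ≤ q → ∀ [Fact q.Prime], c.GoodR Θ q)
    (hl : ∀ q : ℕ, Q ≤ q → ∀ [Fact q.Prime], l q ≠ 0 ∧ -ε ≤ lq q (l q)) {W : Subgroup GA} (hW : c.Adm Θ M W) (N : ℕ) : 0 < N → (∀ q, q.Prime → q ∣ N → Q ≤ q) →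
    ∀ x α : Qb, c.DvM M x → Fx W (x ^ N) → α ≠ 0 → c.Inv Θ M Q l (W ⊓ St ℚ x) α →
      c.Res Θ M Q l ε W α := by
  induction N using induction_on_primes with
  | zero => simp
  | one => exact fun _ _ x α _ h _ h' => res_of_inv (by
      rwa [inf_eq_left.2 (show W ≤ St ℚ x by simpa using h.le)] at h')
  | prime_mul p a hp ih =>
    intro h1 h2 x α hx h3 h0 h4
    refine (ring_step hM hQ hl (hW.mono (inf_le_left : W ⊓ St ℚ (x ^ p) ≤ W)) hp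
      (h2 p hp (dvd_mul_right _ _)) hx (Fx.of_le inf_le_right) h0 (by
        rwa [inf_assoc, inf_eq_right.2 (show St ℚ x ≤ _ from ((Fx.st x).pow p).le)])).bind h0
      fun β hβ => ih (Nat.pos_of_mul_pos_left h1) (fun q hq h => h2 q hq (h.mul_left _)) _ β
        (hx.pow p) (by rwa [← pow_mul]) hβ

lemma ring_fac (Q : ℕ) (M : ℕ) : 0 < M → ∃ n N, M = n * N ∧
    n.primeFactors ⊆ (Finset.range Q).filter Nat.Prime ∧ ∀ q, q.Prime → q ∣ N → Q ≤ q := by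
  induction M using induction_on_primes with
  | zero => simp
  | one => exact fun _ => ⟨1, 1, rfl, by simp, fun q hq h => absurd h hq.not_dvd_one⟩
  | prime_mul p a hp ih =>
    intro h
    have ha := Nat.pos_of_mul_pos_left h
    obtain ⟨n, N, rfl, h1, h2⟩ := ih ha
    by_cases hQ : Q ≤ p
    · exact ⟨n, p * N, by ring, h1, fun q hq h => (hq.dvd_mul.1 h).elim
        (fun h => (Nat.prime_dvd_prime_iff_eq hq hp).1 h ▸ hQ) (h2 q hq)⟩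
    · refine ⟨p * n, N, by ring, ?_, h2⟩
      rw [Nat.primeFactors_mul hp.ne_zero (Nat.pos_of_mul_pos_right ha).ne', hp.primeFactors]
      exact Finset.union_subset (by simp [hp, not_le.1 hQ]) h1

theorem ring_main (hind : ∀ w : ι → ℤ, Tor (∏ a, c.t a 1 ^ w a) → w = 0) (Θ : Finset Qb) :
    ∃ C : ℝ, 0 < C ∧ ∃ Q : ℕ, (∀ q : ℕ, Q ≤ q → ∀ [Fact q.Prime], c.GoodR Θ q) ∧
      ∀ (M : ℕ) (l : ℕ → Qb) (ε : ℝ) (α : Qb), 0 < M → 0 ≤ ε →
      (∀ q : ℕ, Q ≤ q → ∀ [Fact q.Prime], l q ≠ 0 ∧ -ε ≤ lq q (l q)) → α ≠ 0 → ¬ c.Dv α →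
      (∀ q : ℕ, Q ≤ q → ∀ [Fact q.Prime] (τ : GA), ∃ y ∈ c.Rg Θ M ⊥, α * y ∈ c.Rg Θ M ⊥ ∧
        ‖io q (τ (l q))‖ ≤ ‖io q (τ y)‖ * max 1 ‖io q (τ α)‖) → C ≤ ht α + ε := by
  classical
  obtain ⟨Q, hQ⟩ := eventually_atTop.1 (((eventually_ge_atTop 400).and
    (eventually_all.2 fun θ : Θ => ev_int θ)).and (eventually_all.2 fun a => ev_un (c.t a 1)))
  have hG : ∀ q : ℕ, Q ≤ q → ∀ [Fact q.Prime], c.GoodR Θ q := fun q hq _ =>
    ⟨(hQ q hq).1.1, fun θ hθ => (hQ q hq).1.2 ⟨θ, hθ⟩, fun η ⟨N, hN, w, h⟩ => Un.of_pow hN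
      fun τ => by simp [h, (hQ q hq).2 _ ((c.hs _).ne 1) τ]⟩
  obtain ⟨C, hC, h⟩ := c.main' ((Finset.range Q).filter Nat.Prime)
    (fun p hp => (Finset.mem_filter.1 hp).2) hind one_pos
  choose d hd using fun θ : Θ => fiG θ
  have hD := IdxLe.iInf hd
  set D := ∏ θ, d θ
  have hD0 : 0 < D := let ⟨T, hT⟩ := hD; T.card_pos.trans_le hT
  refine ⟨min (C / (D : ℝ) ^ (2 + 1 : ℝ)) (1 / 20), lt_min (by positivity) (by norm_num), Q, hG,
    fun M l ε α hM hε hl h0 hnd h1 => ?_⟩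
  obtain ⟨n, N, hnN, h2, h3⟩ := ring_fac Q M hM
  have hn : 0 < n := Nat.pos_of_mul_pos_right (hnN ▸ hM)
  have hN : 0 < N := Nat.pos_of_mul_pos_left (hnN ▸ hM)
  set V := c.Lv M n ⊓ ⨅ θ : Θ, St ℚ (θ : Qb) with hV
  have hA : c.Adm Θ M V := ⟨inf_le_left.trans (Lv_le hn), inf_le_left.trans inf_le_left,
    fun θ hθ => Fx.of_le (inf_le_right.trans (iInf_le (fun θ : Θ => St ℚ (θ : Qb)) ⟨θ, hθ⟩))⟩
  have key : ∀ s : Finset ι, ∀ α : Qb, α ≠ 0 → c.Inv Θ M Q l (V ⊓ ⨅ a ∈ s, St ℚ (c.t a M)) α →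
      c.Res Θ M Q l ε V α := fun s => by
    induction s using Finset.induction_on with
    | empty => exact fun α _ h => res_of_inv (by simpa using h)
    | insert a s _ ih =>
      refine fun α h0 h => (ring_iter hM hG hl (hA.mono inf_le_left) N hN h3 (c.t a M) α
        ⟨Pi.single a 1, ?_⟩ ?_ h0 ?_).bind h0 ih
      · rw [(c.hs a).pw1 hM, Finset.prod_eq_single a (fun b _ hb => by simp [hb]) (by simp)]
        simp
      · rw [hnN, (c.hs a).pw n N hn hN]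
        exact fun σ hσ => (mem_Lv.1 hσ.1.1).2 a
      · rwa [Finset.iInf_insert, inf_comm (St ℚ _), ← inf_assoc] at h
  have h4 : c.Rg Θ M ⊥ ≤ c.Rg Θ M (V ⊓ ⨅ a ∈ Finset.univ, St ℚ (c.t a M)) :=
    Subring.closure_mono (Set.union_subset_union_right _ fun η ⟨⟨w, hw⟩, _⟩ => ⟨⟨w, hw⟩,
      (fx_rad hM hw).mono fun σ hσ => ⟨hσ.1.1.1, by simpa using hσ.2⟩⟩)
  have h6 : c.Inv Θ M Q l (V ⊓ ⨅ a ∈ Finset.univ, St ℚ (c.t a M)) α := by
    refine ⟨?_, fun q hq _ τ => ?_⟩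
    · obtain ⟨q, hq, hq'⟩ := Nat.exists_infinite_primes Q
      have : Fact q.Prime := ⟨hq'⟩
      obtain ⟨y, h6, h7, h8⟩ := h1 q hq 1
      have h9 : y ≠ 0 := fun h => (hl q hq).1 (by simpa [h] using h8)
      have := (rg_fx (hA.mono inf_le_left).th (h4 h7)).div (rg_fx (hA.mono inf_le_left).th (h4 h6))
      rwa [mul_div_cancel_right₀ _ h9] at this
    · obtain ⟨y, h6, h7, h8⟩ := h1 q hq τ
      exact ⟨y, h4 h6, h4 h7, h8⟩
  rcases key Finset.univ α h0 h6 with h8 | ⟨β, y, h8, rfl, h7⟩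
  · exact (min_le_right _ _).trans (by simpa using h8 1 (dv_tor ⟨1, one_pos, one_pow 1⟩))
  · have := h β M n D ⟨hM, hnN ▸ dvd_mul_right _ _, h2, left_ne_zero_of_mul h0,
      fun h => hnd (h.mul h8), hD.restrict le_top h7.1⟩ y h8
    exact (min_le_left _ _).trans (by linarith)

end Ctx

end Pool.Agent.Lib.MP_f61260_nt
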