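import Pool.Agent.Lib.MP_f61260_nt.Ring2

set_option autoImplicit false
set_option maxHeartbeats 400000

namespace Pool.Agent.Lib.MP_f61260_nt

open Polynomial Real Filter

lemma ring_split {K L : Type} [Field K] [Field L] [Algebra K L] [IsAlgClosed L] {F : K[X]}
    (hF : F.Monic) : ∃ (ι : Type) (_ : Fintype ι) (y : ι → L), Fintype.card ι = F.natDegree ∧
      (∀ i, aeval (y i) F = 0) ∧ algebraMap K L (F.coeff 0) = ∏ i, -y i := by
  classical
  have hm := hF.map (algebraMap K L)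
  have hs := IsAlgClosed.splits (F.map (algebraMap K L))
  refine ⟨(F.map (algebraMap K L)).roots, inferInstance, fun x => (x : L), ?_, fun x => ?_, ?_⟩
  · rw [Multiset.card_coe, ← hs.natDegree_eq_card_roots, hF.natDegree_map]
  · rw [← eval_map_algebraMap]
    exact (mem_roots hm.ne_zero).1 Multiset.coe_mem
  · rw [← coeff_map, coeff_zero_eq_eval_zero, hs.eval_eq_prod_roots_of_monic hm, Finset.prod,
      Multiset.map_univ _ fun x => -x]
    simp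

lemma lq_eq (q : ℕ) [hq : Fact q.Prime] {δ : Qb} (h : δ ≠ 0) :
    (minpoly ℚ δ).natDegree * lq q δ = -(padicValRat q ((minpoly ℚ δ).coeff 0) * log q) := by
  have hi : IsIntegral ℚ δ := Algebra.IsIntegral.isIntegral δ
  obtain ⟨ι, _, y, h1, h2, h3⟩ := ring_split (L := Qb) (minpoly.monic hi)
  choose σ hσ using fun i => minpoly.exists_algEquiv_of_root' (K := ℚ) (x := y i)
    (Algebra.IsAlgebraic.isAlgebraic δ) (h2 i)
  obtain ⟨V, ⟨T⟩, hV⟩ := trG y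
  have h4 : ∀ τ : GA, ∑ i, log ‖io q (τ (y i))‖ =
      -(padicValRat q ((minpoly ℚ δ).coeff 0) * log q) := fun τ => by
    have h5 := congrArg (fun x => log ‖io q (τ x)‖) h3
    simp only [map_prod, map_neg, norm_prod, norm_neg, AlgEquiv.commutes, AlgHom.commutes] at h5
    rw [← log_prod fun i _ => by simpa [← hσ i] using h, ← h5,
      IsScalarTower.algebraMap_apply ℚ ℚ_[q] (Om q), norm_alg, eq_ratCast,
      Padic.norm_eq_zpow_neg_valuation (by simpa using minpoly.coeff_zero_ne_zero hi h),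
      Padic.valuation_ratCast, log_zpow]
    push_cast
    ring
  have h5 := Finset.sum_congr rfl fun i (_ : i ∈ Finset.univ) => h4 (T.r i)
  have h6 : ∀ i, ∑ x, log ‖io q (T.r x (y i))‖ = T.card * lq q δ := fun i =>
    (avg_eq (fun y => log ‖io q y‖) T (hV i)).trans (by rw [← hσ, avg_conj, lq])
  rw [Finset.sum_comm, Finset.sum_congr rfl fun i _ => h6 i, Finset.sum_const, Finset.sum_const,
    Finset.card_univ, Finset.card_univ, h1, nsmul_eq_mul, nsmul_eq_mul, mul_left_comm] at h5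
  exact mul_left_cancel₀ (card_posR T).ne' h5

lemma ring_norm (K : IntermediateField ℚ ℂ) {α : ℂ} {f : ℤ[X]} (hf : Irreducible f)
    (h : aeval α f = 0) : 0 < (minpoly K α).natDegree ∧ (α ≠ 0 → (minpoly K α).coeff 0 ≠ 0) ∧
      ∃ ν : Qb, (ν : ℂ) = (minpoly K α).coeff 0 ∧ ht ν ≤ (minpoly K α).natDegree *
        (log (f.map (Int.castRingHom ℂ)).mahlerMeasure / f.natDegree) := by
  have ha : ∀ z : ℂ, aeval z f = 0 → IsAlgebraic ℚ z := fun z hz =>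
    (IsFractionRing.isAlgebraic_iff ℤ ℚ ℂ).1 ⟨f, hf.ne_zero, hz⟩
  have hi : IsIntegral K α := ((ha α h).tower_top K).isIntegral
  refine ⟨minpoly.natDegree_pos hi, minpoly.coeff_zero_ne_zero hi, ?_⟩
  obtain ⟨ι, _, y, h1, h2, h3⟩ := ring_split (L := ℂ) (minpoly.monic hi)
  have h4 : ∀ i, aeval (y i) f = 0 := fun i => by
    obtain ⟨g, hg⟩ := minpoly.dvd K α (p := f.map (algebraMap ℤ K)) (by
      rwa [aeval_map_algebraMap])
    rw [← aeval_map_algebraMap K, hg, map_mul, h2, zero_mul]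
  let y' : ι → Qb := fun i => ⟨y i, mem_algebraicClosure_iff.2 (ha _ (h4 i))⟩
  refine ⟨∏ i, -y' i, ((map_prod (algebraMap Qb ℂ) _ _).trans ?_).trans h3.symm,
    (ht_prod _ _).trans ((Finset.sum_le_card_nsmul _ _ _ fun i _ => ?_).trans_eq (by
      rw [Finset.card_univ, h1, nsmul_eq_mul]))⟩
  · rfl
  · rw [neg_eq_neg_one_mul, ht_root two_pos (by simp)]
    exact ht_le_mahler hf ((algebraMap Qb ℂ).injective (by
      rw [← aeval_algebraMap_apply, map_zero]; exact h4 i))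

lemma Ctx.rg_mono {ι : Type} [Fintype ι] {c : Ctx ι} {Θ : Finset Qb} {M M' : ℕ} (h : M ∣ M') :
    c.Rg Θ M ⊥ ≤ c.Rg Θ M' ⊥ :=
  Subring.closure_mono (Set.union_subset_union_right _ fun _ h' => ⟨h'.1.mono h, h'.2⟩)

theorem ring_bound (Γ : Subgroup ℂˣ) (hΓ : Γ.FG) (halg : ∀ g ∈ Γ, IsAlgebraic ℚ (g : ℂ))
    (Θ : Finset ℂ) (hΘ : ∀ θ ∈ Θ, IsAlgebraic ℚ θ) (G : Set ℂ)
    (hG : G = {z : ℂ | z ≠ 0 ∧ ∃ n : ℕ, 1 ≤ n ∧ ∃ g ∈ Γ, (g : ℂ) = z ^ n}) (R : Subring ℂ)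
    (hR : R = Subring.closure (Θ ∪ G)) :
    ∃ c : ℝ, 0 < c ∧ ∀ (K : IntermediateField ℚ ℂ) (α ν : ℂ) (ε : ℝ), α ≠ 0 →
      ν = (minpoly K α).coeff 0 → ν ∉ G → 0 ≤ ε →
      (∀ q : ℕ, q.Prime → ∃ u ∈ R, ∃ w ∈ R, ν * u ∈ R ∧ ν * w ∈ R ∧ u + ν * w ≠ 0 ∧
        padicValRat q ((minpoly ℚ (u + ν * w)).coeff 0) * Real.log q ≤
          ε * (minpoly ℚ (u + ν * w)).natDegree) →
      ∀ f : Polynomial ℤ, Irreducible f → Polynomial.aeval α f = 0 →
        (c - ε) / (minpoly K α).natDegree ≤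
          Real.log (Polynomial.mahlerMeasure (f.map (Int.castRingHom ℂ))) / (f.natDegree : ℝ) := by
  classical
  subst hG hR
  obtain ⟨ι, _, γ, N, hN, h1, h2, h3⟩ := fg_basis Γ hΓ
  choose t ht1 ht2 using fun a => exists_sys (Complex.log (γ a)) (by
    rw [Complex.exp_log (γ a).ne_zero]; exact halg _ (h1 a))
  obtain ⟨z, hz1, hz2⟩ := exists_sys (2 * π * Complex.I) (by
    rw [Complex.exp_two_pi_mul_I]; exact isAlgebraic_one)
  let c : Ctx ι := ⟨z, t, hz1, fun n hn => IsPrimitiveRoot.coe_submonoidClass_iff.1 (by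
    rw [hz2]; exact Complex.isPrimitiveRoot_exp n hn.ne'), ht1⟩
  have h4 : ∀ w : ι → ℤ, ((∏ a, c.t a 1 ^ w a : Qb) : ℂ) = ((∏ a, γ a ^ w a : ℂˣ) : ℂ) := fun w => by
    simp only [Units.coe_prod, Units.val_zpow_eq_zpow_val]
    refine (map_prod (algebraMap Qb ℂ) _ _).trans (Finset.prod_congr rfl fun a _ => ?_)
    rw [map_zpow₀]
    exact congrArg (· ^ w a) ((ht2 a 1).trans (by simp [Complex.exp_log (γ _).ne_zero]))
  have h5 : ∀ x : Qb, c.Dv x ↔ (x : ℂ) ≠ 0 ∧ ∃ n : ℕ, 1 ≤ n ∧ ∃ g ∈ Γ, (g : ℂ) = (x : ℂ) ^ n := by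
    refine fun x => ⟨fun h => ⟨fun h' => h.ne (Subtype.ext h'), ?_⟩, fun ⟨_, n, hn, g, hg, h⟩ => ?_⟩
    · obtain ⟨n, hn, w, h⟩ := h
      exact ⟨n, hn, _, Γ.prod_mem fun a _ => Γ.zpow_mem (h1 a) (w a), by
        rw [← h4, ← h]; rfl⟩
    · obtain ⟨w, hw⟩ := h3 g hg
      exact ⟨n * N, Nat.mul_pos hn hN, w, Subtype.ext (by
        rw [h4, ← hw, pow_mul]; simp [h])⟩
  have hq : ∀ (y : ℂ) (n : ℕ), 1 ≤ n → IsAlgebraic ℚ (y ^ n) → ∃ x : Qb, (x : ℂ) = y :=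
    fun y n hn h => ⟨⟨y, mem_algebraicClosure_iff.2 (h.of_pow hn)⟩, rfl⟩
  set Θ' : Finset Qb := Θ.preimage Subtype.val Subtype.val_injective.injOn with hΘ'
  obtain ⟨C, hC, Q, -, h6⟩ := c.ring_main (fun w ⟨n, hn, h⟩ => by
      have := h2 (fun a => w a * n) (Units.ext (by
        simp only [zpow_mul, zpow_natCast, Finset.prod_pow, Units.val_pow_eq_pow_val, ← h4]
        exact congrArg Subtype.val h))
      exact funext fun a => (mul_eq_zero.1 (congrFun this a)).resolve_right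
        (by exact_mod_cast hn.ne')) Θ'
  have hlev : ∀ y ∈ Subring.closure (Θ ∪ {z : ℂ | z ≠ 0 ∧ ∃ n : ℕ, 1 ≤ n ∧ ∃ g ∈ Γ, (g : ℂ) = z ^ n}),
      ∃ x : Qb, (x : ℂ) = y ∧ ∃ M, 0 < M ∧ x ∈ c.Rg Θ' M ⊥ := by
    intro y hy
    induction hy using Subring.closure_induction with
    | mem x hx =>
      rcases hx with hx | hx
      · exact ⟨⟨x, mem_algebraicClosure_iff.2 (hΘ x hx)⟩, rfl, 1, one_pos,
          Subring.subset_closure (Or.inl (by simpa [hΘ'] using hx))⟩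
      · obtain ⟨x, rfl⟩ : ∃ x' : Qb, (x' : ℂ) = x :=
          let ⟨_, n, hn, g, hg, h⟩ := hx; hq x n hn (h ▸ halg g hg)
        obtain ⟨M, hM, h⟩ := (h5 x).2 hx
        exact ⟨x, rfl, M, hM, Ctx.rg_mem h fun σ hσ => by rw [Subgroup.mem_bot.1 hσ]; rfl⟩
    | zero => exact ⟨0, rfl, 1, one_pos, Subring.zero_mem _⟩
    | one => exact ⟨1, rfl, 1, one_pos, Subring.one_mem _⟩
    | add _ _ _ _ h h' =>
      obtain ⟨x, rfl, M, hM, h⟩ := h
      obtain ⟨x', rfl, M', hM', h'⟩ := h'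
      exact ⟨x + x', rfl, M * M', Nat.mul_pos hM hM', Subring.add_mem _
        (Ctx.rg_mono (dvd_mul_right _ _) h) (Ctx.rg_mono (dvd_mul_left _ _) h')⟩
    | neg _ _ h =>
      obtain ⟨x, rfl, M, hM, h⟩ := h
      exact ⟨-x, rfl, M, hM, Subring.neg_mem _ h⟩
    | mul _ _ _ _ h h' =>
      obtain ⟨x, rfl, M, hM, h⟩ := h
      obtain ⟨x', rfl, M', hM', h'⟩ := h'
      exact ⟨x * x', rfl, M * M', Nat.mul_pos hM hM', Subring.mul_mem _
        (Ctx.rg_mono (dvd_mul_right _ _) h) (Ctx.rg_mono (dvd_mul_left _ _) h')⟩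
  refine ⟨C, hC, fun K α ν ε hα hν hnd hε h f hf hfα => ?_⟩
  obtain ⟨h7, h8, ν, h9, h10⟩ := ring_norm K hf hfα
  obtain rfl := h9.trans hν.symm
  have h11 : ∀ q : ℕ, ∃ (M : ℕ) (u w : Qb), 0 < M ∧ u ∈ c.Rg Θ' M ⊥ ∧ w ∈ c.Rg Θ' M ⊥ ∧
      ν * u ∈ c.Rg Θ' M ⊥ ∧ ν * w ∈ c.Rg Θ' M ⊥ ∧ u + ν * w ≠ 0 ∧
      ∀ [Fact q.Prime], -ε ≤ lq q (u + ν * w) := by
    have : ∀ q : ℕ, q.Prime → ∃ (M : ℕ) (u w : Qb), 0 < M ∧ u ∈ c.Rg Θ' M ⊥ ∧ w ∈ c.Rg Θ' M ⊥ ∧
        ν * u ∈ c.Rg Θ' M ⊥ ∧ ν * w ∈ c.Rg Θ' M ⊥ ∧ u + ν * w ≠ 0 ∧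
        ∀ [Fact q.Prime], -ε ≤ lq q (u + ν * w) := fun q hq => by
      obtain ⟨u, hu, w, hw, hu', hw', h0, h⟩ := h q hq
      obtain ⟨u, rfl, M1, a1, b1⟩ := hlev u hu
      obtain ⟨w, rfl, M2, a2, b2⟩ := hlev w hw
      obtain ⟨u', e3, M3, a3, b3⟩ := hlev _ hu'
      obtain ⟨w', e4, M4, a4, b4⟩ := hlev _ hw'
      obtain rfl : u' = ν * u := Subtype.ext e3
      obtain rfl : w' = ν * w := Subtype.ext e4
      have h0' : u + ν * w ≠ 0 := fun h => h0 (congrArg Subtype.val h)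
      refine ⟨M1 * M2 * (M3 * M4), u, w, by positivity,
        Ctx.rg_mono ((dvd_mul_right _ _).mul_right _) b1,
        Ctx.rg_mono ((dvd_mul_left _ _).mul_right _) b2,
        Ctx.rg_mono ((dvd_mul_right _ _).mul_left _) b3,
        Ctx.rg_mono ((dvd_mul_left _ _).mul_left _) b4, h0', ?_⟩
      intro _
      have e : minpoly ℚ ((u : ℂ) + ν * w) = minpoly ℚ (u + ν * w) :=
        minpoly.algebraMap_eq (algebraMap Qb ℂ).injective (u + ν * w)
      rw [e, ← neg_le_neg_iff, ← lq_eq q h0', ← neg_mul, mul_comm] at h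
      exact le_of_mul_le_mul_left h (Nat.cast_pos.2
        (minpoly.natDegree_pos (Algebra.IsIntegral.isIntegral _)))
    intro q
    by_cases hq : q.Prime
    · exact this q hq
    · obtain ⟨M, u, w, a1, a2, a3, a4, a5, a6, -⟩ := this 2 Nat.prime_two
      exact ⟨M, u, w, a1, a2, a3, a4, a5, a6, fun {h} => absurd h.out hq⟩
  choose M u w a1 a2 a3 a4 a5 a6 a7 using h11
  obtain ⟨Q1, hQ1⟩ := eventually_atTop.1 (ev_un (u 0 + ν * w 0))
  let k : ℕ → ℕ := fun q => if q < Q1 then q else 0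
  have hk : ∀ q, c.Rg Θ' (M (k q)) ⊥ ≤ c.Rg Θ' (∏ q ∈ Finset.range (Q1 + 1), M q) ⊥ := fun q =>
    Ctx.rg_mono (Finset.dvd_prod_of_mem _ (Finset.mem_range.2 (by simp only [k]; split_ifs <;> omega)))
  have h12 := h6 (∏ q ∈ Finset.range (Q1 + 1), M q) (fun q => u (k q) + ν * w (k q)) ε ν
    (Finset.prod_pos fun q _ => a1 q) hε
    (fun q _ _ => ⟨a6 _, ?_⟩) (fun h => h8 hα (Subtype.ext (by rw [← hν, h]; rfl)))
    (fun h => hnd ((h5 ν).1 h)) fun q _ _ τ => ?_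
  · rw [div_le_iff₀' (Nat.cast_pos.2 h7)]
    linarith
  · by_cases hq : q < Q1
    · simpa [k, hq] using a7 q
    · have := hQ1 q (not_lt.1 hq) (a6 0)
      simp [k, hq, lq, avg, Trans.sum, -map_add, this _, hε]
  · rcases le_total ‖io q (τ (u (k q)))‖ ‖io q (τ (w (k q)))‖ with h | h
    · refine ⟨_, hk q (a3 _), hk q (a5 _), ?_⟩
      rw [map_add, map_add, map_mul, map_mul]
      refine nadd_le (h.trans (le_mul_of_one_le_right (norm_nonneg _) (le_max_left _ _))) ?_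
      rw [norm_mul, mul_comm]
      exact mul_le_mul_of_nonneg_left (le_max_right _ _) (norm_nonneg _)
    · refine ⟨_, hk q (a2 _), hk q (a4 _), ?_⟩
      rw [map_add, map_add, map_mul, map_mul]
      refine nadd_le (le_mul_of_one_le_right (norm_nonneg _) (le_max_left _ _)) ?_
      rw [norm_mul, mul_comm]
      exact mul_le_mul h (le_max_right _ _) (norm_nonneg _) (norm_nonneg _)

end Pool.Agent.Lib.MP_f61260_nt
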