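import Pool.Agent.Lib.MP_f61260_nt.Bd.Top

/-! The former hand-in on simple radical extensions is the case of degree one. -/

set_option autoImplicit false

namespace Pool.Agent.Lib.MP_f61260_nt.Bd

theorem simpleRadical :
    ∀ (S : Finset ℕ) (Γ : Subgroup ℂˣ), Γ.FG → (∀ g ∈ Γ, IsAlgebraic ℚ (g : ℂ)) →
      ∀ θ : ℂ, IsAlgebraic ℚ θ →
      ∃ c : ℝ, 0 < c ∧ ∀ z ∈ {z : ℂ | z ≠ 0 ∧ ∃ n : ℕ, 1 ≤ n ∧ ∃ g ∈ Γ, (g : ℂ) = z ^ n},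
        ∀ α ∈ IntermediateField.adjoin ℚ ({θ, z} ∪
          {y : ℂ | ∃ n : ℕ, 1 ≤ n ∧ n.primeFactors ⊆ S ∧ ∃ g ∈ Γ, (g : ℂ) = y ^ n}), α ≠ 0 →
        α ∉ {z : ℂ | z ≠ 0 ∧ ∃ n : ℕ, 1 ≤ n ∧ ∃ g ∈ Γ, (g : ℂ) = z ^ n} →
        ∀ η ∈ {z : ℂ | z ≠ 0 ∧ ∃ n : ℕ, 1 ≤ n ∧ ∃ g ∈ Γ, (g : ℂ) = z ^ n},
        ∀ f : Polynomial ℤ, Irreducible f → Polynomial.aeval (α * η) f = 0 →
          c ≤ Real.log (Polynomial.mahlerMeasure (f.map (Int.castRingHom ℂ))) / (f.natDegree : ℝ) := by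
  intro S Γ h1 h2 θ h3
  obtain ⟨c, hc, h⟩ := bounded_bound S Γ h1 h2 θ h3 1
  refine ⟨c, hc, fun z hz α hα h4 h5 => h z hz α h4 h5 (le_of_eq ?_)⟩
  rw [minpoly.natDegree_eq_one_iff]
  exact ⟨⟨α, IntermediateField.adjoin.mono _ _ _ Set.subset_union_left hα⟩, rfl⟩

end Pool.Agent.Lib.MP_f61260_nt.Bd
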