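import Pool.Agent.Lib.MP_f61260_nt.Sl.Fn2

set_option autoImplicit false

namespace Pool.Agent.Lib.MP_f61260_nt.SolvableTowerOld

/-- Height lower bound along a tower `F 0 ⊆ F 1 ⊆ ⋯ ⊆ F t` above the field generated by all roots
of unity and all division points of `Γ` of order dividing `n s`, with `s` composed of primes from
`S`. Steps from `j` on that are solvable, have a small Galois group, or end in a field over which
`α` still has an independent conjugate cost no logarithm. -/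
theorem result :
    ∀ (S : Finset ℕ) (Γ : Subgroup ℂˣ), Γ.FG → (∀ g ∈ Γ, IsAlgebraic ℚ (g : ℂ)) →
      ∀ G : Set ℂ, G = {z : ℂ | z ≠ 0 ∧ ∃ k : ℕ, 1 ≤ k ∧ ∃ g ∈ Γ, (g : ℂ) = z ^ k} →
      ∀ m : ℕ, ∃ c : ℝ, 0 < c ∧ ∃ κ : ℕ, ∀ n : ℕ, 1 ≤ n →
        ∀ (θ : ℕ → ℂ) (F : ℕ → IntermediateField ℚ ℂ) (d : ℕ → ℕ), (∀ i, IsAlgebraic ℚ (θ i)) →
        F 0 = IntermediateField.adjoin ℚ {z : ℂ | ∃ s : ℕ, 1 ≤ s ∧
          (z ^ s = 1 ∨ (s.primeFactors ⊆ S ∧ ∃ g ∈ Γ, (g : ℂ) = z ^ (n * s)))} →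
        (∀ i, F (i + 1) = IntermediateField.adjoin ℚ (insert (θ i) (F i : Set ℂ))) →
        (∀ i, d i = (minpoly (F i) (θ i)).natDegree) →
        ∀ α : ℂ, α ≠ 0 → α ∉ G → ∀ η ∈ G, ∀ j t : ℕ, j ≤ t → α * η ∈ F t →
        (∀ i, j ≤ i → i < t → Group.IsSolvable (minpoly (F i) (θ i)).Gal ∨
          Nat.card (minpoly (F i) (θ i)).Gal ≤ d i ^ m ∨
          ∃ β : ℂ, Polynomial.aeval β
              (minpoly (IntermediateField.adjoin ℚ ((F (i + 1) : Set ℂ) ∪ G)) α) = 0 ∧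
            β / α ∉ G ∧ β * α ∉ G) →
        ∀ f : Polynomial ℤ, Irreducible f → Polynomial.aeval α f = 0 →
          c / ((∏ i ∈ Finset.range t, d i : ℕ) *
              Real.log (3 * (n * (∏ i ∈ Finset.range j, d i : ℕ))) ^ κ)
            ≤ Real.log (Polynomial.mahlerMeasure (f.map (Int.castRingHom ℂ))) / (f.natDegree : ℝ) :=
  Pool.Agent.Lib.MP_f61260_nt.solv_tower2

end Pool.Agent.Lib.MP_f61260_nt.SolvableTowerOld
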