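import Pool.Agent.Lib.MP_f61260_nt.L2.Bridge

set_option autoImplicit false

namespace Pool.Agent.Results.MP_f61260_nt.SquareMean

/-- Square mean form of the relative Lehmer inequality over the field of all roots of unity, with
the exact exponent: for `α ≠ 0` not a root of unity, with irreducible polynomial `f` over `ℤ` and
degree `D` over `ℚ(μ_∞)`, the mean of `min (ℓ, ℓ²)` over the roots, `ℓ = log max (1, |z|)`, plus
`log |lead f| / deg f` is at least `1 / (64 D²)`. -/
theorem result :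
    ∀ α : ℂ, α ≠ 0 → (∀ n : ℕ, 1 ≤ n → α ^ n ≠ 1) →
      ∀ f : Polynomial ℤ, Irreducible f → Polynomial.aeval α f = 0 →
      ∀ D : ℕ, D = (minpoly (IntermediateField.adjoin ℚ
          {z : ℂ | ∃ n : ℕ, 1 ≤ n ∧ z ^ n = 1}) α).natDegree →
        1 / (64 * (D : ℝ) ^ 2) ≤ (Real.log |(f.leadingCoeff : ℝ)| +
          ((f.map (Int.castRingHom ℂ)).roots.map fun z =>
            min (Real.log (max 1 ‖z‖)) (Real.log (max 1 ‖z‖) ^ 2)).sum) / (f.natDegree : ℝ) :=
  Pool.Agent.Lib.MP_f61260_nt.L2.l2_main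

end Pool.Agent.Results.MP_f61260_nt.SquareMean
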