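import Pool.Agent.Lib.MP_f61260_nt.Sl.Fn2

set_option autoImplicit false

namespace Pool.Agent.Results.MP_f61260_nt.TorusTower

/-- Height lower bound `c / (D (log 3nD)^κ) ≤ H ^ r` for `r` numbers that are multiplicatively
independent modulo the division group `G` of `Γ`, relative to the field generated by all roots of
unity and all division points of `Γ` of order dividing `n s`, `s` composed of primes from `S`. -/
theorem result :
    ∀ (S : Finset ℕ) (Γ : Subgroup ℂˣ), Γ.FG → (∀ g ∈ Γ, IsAlgebraic ℚ (g : ℂ)) →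
      ∀ G : Set ℂ, G = {z : ℂ | z ≠ 0 ∧ ∃ k : ℕ, 1 ≤ k ∧ ∃ g ∈ Γ, (g : ℂ) = z ^ k} →
      ∀ r : ℕ, ∃ c : ℝ, 0 < c ∧ ∃ κ : ℕ, ∀ n : ℕ, 1 ≤ n → ∀ K : IntermediateField ℚ ℂ,
        K = IntermediateField.adjoin ℚ {z : ℂ | ∃ s : ℕ, 1 ≤ s ∧
          (z ^ s = 1 ∨ (s.primeFactors ⊆ S ∧ ∃ g ∈ Γ, (g : ℂ) = z ^ (n * s)))} →
        ∀ α η : Fin r → ℂ, (∀ i, α i ≠ 0) → (∀ a : Fin r → ℤ, a ≠ 0 → ∏ i, α i ^ a i ∉ G) →
        (∀ i, η i ∈ G) →
        ∀ D : ℕ, D = Module.finrank K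
          (IntermediateField.adjoin K (Set.range fun i => α i * η i)) →
        ∀ f : Fin r → Polynomial ℤ, (∀ i, Irreducible (f i)) →
        (∀ i, Polynomial.aeval (α i) (f i) = 0) →
        ∀ H : ℝ, (∀ i, Real.log (Polynomial.mahlerMeasure ((f i).map (Int.castRingHom ℂ))) /
          ((f i).natDegree : ℝ) ≤ H) →
        c / (D * Real.log (3 * (n * D)) ^ κ) ≤ H ^ r :=
  Pool.Agent.Lib.MP_f61260_nt.torus_log

end Pool.Agent.Results.MP_f61260_nt.TorusTower
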