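import Pool.Agent.Lib.MP_f61260_nt.Az6

set_option autoImplicit false

namespace Pool.Agent.Results.MP_f61260_nt.TowerLog

/-- Height lower bound `c / (D (log 3nD)^κ)` relative to the field generated by all roots of unity
and all division points of `Γ` of order dividing `n s`, with `s` composed of primes from `S`. -/
theorem result :
    ∀ (S : Finset ℕ) (Γ : Subgroup ℂˣ), Γ.FG → (∀ g ∈ Γ, IsAlgebraic ℚ (g : ℂ)) →
      ∃ c : ℝ, 0 < c ∧ ∃ κ : ℕ, ∀ n : ℕ, 1 ≤ n → ∀ α : ℂ, α ≠ 0 → IsAlgebraic ℚ α →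
        α ∉ {z : ℂ | z ≠ 0 ∧ ∃ k : ℕ, 1 ≤ k ∧ ∃ g ∈ Γ, (g : ℂ) = z ^ k} →
        ∀ η ∈ {z : ℂ | z ≠ 0 ∧ ∃ k : ℕ, 1 ≤ k ∧ ∃ g ∈ Γ, (g : ℂ) = z ^ k},
        ∀ D : ℕ, D = (minpoly (IntermediateField.adjoin ℚ {z : ℂ | ∃ s : ℕ, 1 ≤ s ∧
            (z ^ s = 1 ∨ (s.primeFactors ⊆ S ∧ ∃ g ∈ Γ, (g : ℂ) = z ^ (n * s)))})
            (α * η)).natDegree →
        ∀ f : Polynomial ℤ, Irreducible f → Polynomial.aeval α f = 0 →
          c / (D * Real.log (3 * (n * D)) ^ κ)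
            ≤ Real.log (Polynomial.mahlerMeasure (f.map (Int.castRingHom ℂ))) / (f.natDegree : ℝ) :=
  Pool.Agent.Lib.MP_f61260_nt.tower_log

end Pool.Agent.Results.MP_f61260_nt.TowerLog
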