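import Mathlib

set_option autoImplicit false

namespace Pool.Agent.Lib.MP_f61260_nt

open Finset

variable {𝒢 : Type} [Group 𝒢]

/-- A finite family of representatives of the left cosets of `A` in `B`. -/
structure Trans (B A : Subgroup 𝒢) where
  ι : Type
  fin : Fintype ι
  r : ι → 𝒢
  mem : ∀ i, r i ∈ B
  ex : ∀ σ ∈ B, ∃ i, (r i)⁻¹ * σ ∈ A
  uniq : ∀ i j, (r i)⁻¹ * r j ∈ A → i = j

attribute [instance] Trans.fin

/-- right invariance -/
def RInv {M : Type} (A : Subgroup 𝒢) (Φ : 𝒢 → M) : Prop := ∀ σ, ∀ a ∈ A, Φ (σ * a) = Φ σ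

lemma RInv.mono {M : Type} {A A' : Subgroup 𝒢} {Φ : 𝒢 → M} (h : RInv A Φ) (hA : A' ≤ A) :
    RInv A' Φ := fun σ a ha => h σ a (hA ha)

lemma RInv.eq_of {M : Type} {A : Subgroup 𝒢} {Φ : 𝒢 → M} (h : RInv A Φ) {σ τ : 𝒢}
    (hστ : σ⁻¹ * τ ∈ A) : Φ τ = Φ σ := by
  have := h σ _ hστ
  rwa [mul_inv_cancel_left] at this

namespace Trans

variable {B A A' : Subgroup 𝒢}

def card (T : Trans B A) : ℕ := Fintype.card T.ι

noncomputable def sum {M : Type} [AddCommMonoid M] (T : Trans B A) (Φ : 𝒢 → M) : M :=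
  ∑ i, Φ (T.r i)

noncomputable def idx (T : Trans B A) {σ : 𝒢} (h : σ ∈ B) : T.ι := (T.ex σ h).choose

lemma idx_spec (T : Trans B A) {σ : 𝒢} (h : σ ∈ B) : (T.r (T.idx h))⁻¹ * σ ∈ A :=
  (T.ex σ h).choose_spec

lemma uniq' (T : Trans B A) {i j : T.ι} {σ : 𝒢} (hi : (T.r i)⁻¹ * σ ∈ A)
    (hj : (T.r j)⁻¹ * σ ∈ A) : i = j := by
  apply T.uniq
  have := A.mul_mem hi (A.inv_mem hj)
  simpa [mul_assoc] using this

noncomputable def equiv (T T' : Trans B A) : T.ι ≃ T'.ι where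
  toFun i := T'.idx (T.mem i)
  invFun j := T.idx (T'.mem j)
  left_inv i := by
    apply T.uniq
    have h1 := T.idx_spec (T'.mem (T'.idx (T.mem i)))
    have h2 := T'.idx_spec (T.mem i)
    have := A.mul_mem h1 h2
    simpa [mul_assoc] using this
  right_inv j := by
    apply T'.uniq
    have h1 := T'.idx_spec (T.mem (T.idx (T'.mem j)))
    have h2 := T.idx_spec (T'.mem j)
    have := A.mul_mem h1 h2
    simpa [mul_assoc] using this

lemma card_eq (T T' : Trans B A) : T.card = T'.card := Fintype.card_congr (T.equiv T')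

lemma sum_eq {M : Type} [AddCommMonoid M] (T T' : Trans B A) {Φ : 𝒢 → M} (h : RInv A Φ) :
    T.sum Φ = T'.sum Φ := by
  unfold sum
  refine Fintype.sum_equiv (T.equiv T') _ _ fun i => ?_
  exact h.eq_of (T'.idx_spec (T.mem i))

/-- composition of transversals -/
def comp (T : Trans B A) (T' : Trans A A') (hA : A ≤ B) (hA' : A' ≤ A) : Trans B A' where
  ι := T.ι × T'.ι
  fin := inferInstance
  r x := T.r x.1 * T'.r x.2
  mem x := B.mul_mem (T.mem _) (hA (T'.mem _))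
  ex σ hσ := by
    obtain ⟨i, hi⟩ := T.ex σ hσ
    obtain ⟨j, hj⟩ := T'.ex _ hi
    exact ⟨(i, j), by simpa [mul_assoc] using hj⟩
  uniq x y h := by
    have h1 : x.1 = y.1 := by
      apply T.uniq
      have := A.mul_mem (A.mul_mem (T'.mem x.2) (hA' h)) (A.inv_mem (T'.mem y.2))
      simpa [mul_assoc] using this
    have h2 : x.2 = y.2 := by
      apply T'.uniq
      rw [h1] at h
      simpa [mul_assoc] using h
    exact Prod.ext h1 h2

lemma comp_card (T : Trans B A) (T' : Trans A A') (hA : A ≤ B) (hA' : A' ≤ A) :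
    (T.comp T' hA hA').card = T.card * T'.card := Fintype.card_prod _ _

lemma comp_sum {M : Type} [AddCommMonoid M] (T : Trans B A) (T' : Trans A A') (hA : A ≤ B)
    (hA' : A' ≤ A) (Φ : 𝒢 → M) :
    (T.comp T' hA hA').sum Φ = T.sum fun σ => T'.sum fun τ => Φ (σ * τ) := by
  unfold sum
  exact Fintype.sum_prod_type _

/-- left translation -/
def lmul (T : Trans B A) {g : 𝒢} (hg : g ∈ B) : Trans B A where
  ι := T.ι
  fin := T.fin
  r i := g * T.r i
  mem i := B.mul_mem hg (T.mem i)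
  ex σ hσ := by
    obtain ⟨i, hi⟩ := T.ex (g⁻¹ * σ) (B.mul_mem (B.inv_mem hg) hσ)
    exact ⟨i, by simpa [mul_assoc] using hi⟩
  uniq i j h := T.uniq i j (by simpa [mul_assoc] using h)

lemma sum_lmul {M : Type} [AddCommMonoid M] (T : Trans B A) {Φ : 𝒢 → M} (h : RInv A Φ)
    {g : 𝒢} (hg : g ∈ B) : T.sum (fun σ => Φ (g * σ)) = T.sum Φ :=
  (T.lmul hg).sum_eq T h

noncomputable def prod {M : Type} [CommMonoid M] (T : Trans B A) (Φ : 𝒢 → M) : M :=
  ∏ i, Φ (T.r i)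

lemma prod_eq {M : Type} [CommMonoid M] (T T' : Trans B A) {Φ : 𝒢 → M} (h : RInv A Φ) :
    T.prod Φ = T'.prod Φ := by
  unfold prod
  refine Fintype.prod_equiv (T.equiv T') _ _ fun i => ?_
  exact h.eq_of (T'.idx_spec (T.mem i))

lemma prod_lmul {M : Type} [CommMonoid M] (T : Trans B A) {Φ : 𝒢 → M} (h : RInv A Φ)
    {g : 𝒢} (hg : g ∈ B) : T.prod (fun σ => Φ (g * σ)) = T.prod Φ :=
  (T.lmul hg).prod_eq T h

/-- change of the small group -/
def chg (T : Trans B A) (h : ∀ σ ∈ B, σ ∈ A ↔ σ ∈ A') : Trans B A' where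
  ι := T.ι
  fin := T.fin
  r := T.r
  mem := T.mem
  ex σ hσ := by
    obtain ⟨i, hi⟩ := T.ex σ hσ
    exact ⟨i, (h _ (B.mul_mem (B.inv_mem (T.mem i)) hσ)).1 hi⟩
  uniq i j hij := T.uniq i j ((h _ (B.mul_mem (B.inv_mem (T.mem i)) (T.mem j))).2 hij)

/-- the trivial transversal -/
def triv (h : B ≤ A) : Trans B A where
  ι := Unit
  fin := inferInstance
  r _ := 1
  mem _ := B.one_mem
  ex σ hσ := ⟨(), by simpa using h hσ⟩
  uniq _ _ _ := rfl

lemma card_pos (T : Trans B A) : 0 < T.card :=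
  Fintype.card_pos_iff.2 ⟨T.idx B.one_mem⟩

lemma card_le (T : Trans B A) {β : Type} (R : Finset β) (κ : 𝒢 → β) (h1 : ∀ σ ∈ B, κ σ ∈ R)
    (h2 : ∀ σ ∈ B, ∀ τ ∈ B, κ σ = κ τ → σ⁻¹ * τ ∈ A) : T.card ≤ R.card := by
  unfold card
  rw [← Finset.card_univ]
  refine Finset.card_le_card_of_injOn (fun i => κ (T.r i)) (fun i _ => h1 _ (T.mem i)) ?_
  intro i _ j _ hij
  exact T.uniq i j (h2 _ (T.mem i) _ (T.mem j) hij)

end Trans

lemma exists_trans {B A : Subgroup 𝒢} {β : Type} (R : Finset β) (κ : 𝒢 → β)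
    (h1 : ∀ σ ∈ B, κ σ ∈ R) (h2 : ∀ σ ∈ B, ∀ τ ∈ B, κ σ = κ τ → σ⁻¹ * τ ∈ A) :
    ∃ T : Trans B A, T.card ≤ R.card := by
  classical
  have hinj : Function.Injective (fun c : B ⧸ A.subgroupOf B => (⟨κ (c.out : B), h1 _ c.out.2⟩ : R)) := by
    intro c d h
    have h' : κ (c.out : B) = κ (d.out : B) := congrArg Subtype.val h
    have := h2 _ c.out.2 _ d.out.2 h'
    rw [← QuotientGroup.out_eq' c, ← QuotientGroup.out_eq' d, QuotientGroup.eq]
    simpa [Subgroup.mem_subgroupOf] using this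
  have : Finite (B ⧸ A.subgroupOf B) := Finite.of_injective _ hinj
  let T : Trans B A :=
    { ι := B ⧸ A.subgroupOf B
      fin := Fintype.ofFinite _
      r := fun c => (c.out : B)
      mem := fun c => c.out.2
      ex := fun σ hσ => ⟨(⟨σ, hσ⟩ : B), by
        have : ((((⟨σ, hσ⟩ : B) : B ⧸ A.subgroupOf B).out : B) : B ⧸ A.subgroupOf B) =
          ((⟨σ, hσ⟩ : B) : B ⧸ A.subgroupOf B) := QuotientGroup.out_eq' _
        rw [QuotientGroup.eq] at this
        simpa [Subgroup.mem_subgroupOf] using this⟩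
      uniq := fun c d h => by
        rw [← QuotientGroup.out_eq' c, ← QuotientGroup.out_eq' d, QuotientGroup.eq]
        simpa [Subgroup.mem_subgroupOf] using h }
  exact ⟨T, T.card_le R κ h1 h2⟩

/-- `A` has index at most `n` in `B` -/
def IdxLe (B A : Subgroup 𝒢) (n : ℕ) : Prop := ∃ T : Trans B A, T.card ≤ n

lemma IdxLe.mono {B A : Subgroup 𝒢} {n m : ℕ} (h : IdxLe B A n) (hnm : n ≤ m) : IdxLe B A m :=
  let ⟨T, hT⟩ := h; ⟨T, hT.trans hnm⟩

lemma IdxLe.trans {B A A' : Subgroup 𝒢} {n m : ℕ} (h : IdxLe B A n) (h' : IdxLe A A' m)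
    (hA : A ≤ B) (hA' : A' ≤ A) : IdxLe B A' (n * m) := by
  obtain ⟨T, hT⟩ := h
  obtain ⟨T', hT'⟩ := h'
  exact ⟨T.comp T' hA hA', by rw [Trans.comp_card]; exact Nat.mul_le_mul hT hT'⟩

/-- restricting to a smaller ambient group and enlarging the subgroup -/
lemma IdxLe.restrict {B A B' A' : Subgroup 𝒢} {n : ℕ} (h : IdxLe B A n) (hB : B' ≤ B)
    (hA : B' ⊓ A ≤ A') : IdxLe B' A' n := by
  classical
  obtain ⟨T, hT⟩ := h
  obtain ⟨T', hT'⟩ := exists_trans (B := B') (A := A') (Finset.univ : Finset T.ι)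
    (fun σ => if h : σ ∈ B then T.idx h else T.idx B.one_mem) (fun _ _ => Finset.mem_univ _)
    (fun σ hσ τ hτ hστ => by
      rw [dif_pos (hB hσ), dif_pos (hB hτ)] at hστ
      have h1 := T.idx_spec (hB hσ)
      have h2 := T.idx_spec (hB hτ)
      rw [← hστ] at h2
      refine hA ⟨B'.mul_mem (B'.inv_mem hσ) hτ, ?_⟩
      have := A.mul_mem (A.inv_mem h1) h2
      simpa [mul_assoc] using this)
  exact ⟨T', hT'.trans (by rw [Finset.card_univ]; exact hT)⟩

lemma IdxLe.inf {B A A' : Subgroup 𝒢} {n m : ℕ} (h : IdxLe B A n) (h' : IdxLe B A' m) :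
    IdxLe B (A ⊓ A') (n * m) := by
  have h1 : IdxLe B (B ⊓ A) n := h.restrict le_rfl (le_inf inf_le_left inf_le_right)
  have h2 : IdxLe (B ⊓ A) (B ⊓ A ⊓ A') m := h'.restrict inf_le_left le_rfl
  exact (h1.trans h2 inf_le_left inf_le_left).restrict le_rfl
    (fun x hx => ⟨hx.2.1.2, hx.2.2⟩)

lemma idxLe_of_le {B A : Subgroup 𝒢} (h : B ≤ A) : IdxLe B A 1 :=
  ⟨Trans.triv h, by simp [Trans.card, Trans.triv]⟩

end Pool.Agent.Lib.MP_f61260_nt
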